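import Pool.Agent.P.MP_7ede32_ag.Loc

namespace Pool.Agent.P.MP_7ede32_ag

open Finset

variable {K : Type*} [Field K]

theorem Glob.D_loc (G : Glob K) (q : G.Pl) {c : K} (h : G.D c = 0) : (G.loc q).D c = 0 := by
  have := G.hD q c
  rw [h] at this
  exact (mul_eq_zero.1 this.symm).resolve_left (G.u_ne q)

theorem Glob.ord_const [CharZero K] (G : Glob K) (q : G.Pl) {c : K} (hc : c ≠ 0)
    (h : G.D c = 0) : (G.loc q).ord c = 0 := (G.loc q).ord_const hc (G.D_loc q h)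

theorem Loc.ord_tri (L : Loc K) {x y : K} (hx : x ≠ 0) (hy : y ≠ 0) (hxy : x - y ≠ 0)
    (h : L.ord (x - y) = 0) :
    (L.ord x ≤ 0 ∨ L.ord y ≤ 0) ∧ (L.ord x < 0 → L.ord y = L.ord x) ∧
      (L.ord y < 0 → L.ord x = L.ord y) := by
  refine ⟨?_, fun h1 => ?_, fun h1 => ?_⟩
  · by_contra h1
    push Not at h1
    have := ((Loc.Ge.of_le (n := 1) h1.1).sub (Loc.Ge.of_le (n := 1) h1.2)).le hxy
    omega
  · have := (Loc.ord_add_eq (L := L) hx (y := -(x - y)) (Loc.Ge.of_le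
      (by rw [L.ord_neg]; omega))).2
    rwa [show x + -(x - y) = y by ring] at this
  · have := (Loc.ord_add_eq (L := L) hy (y := x - y) (Loc.Ge.of_le (by omega))).2
    rwa [show y + (x - y) = x by ring] at this

/-- a function ramified over four constant points (one of them infinity) is constant -/
theorem four_points [CharZero K] (G : Glob K) (f a b c : K) (ha : G.D a = 0) (hb : G.D b = 0)
    (hc : G.D c = 0) (hab : a ≠ b) (hac : a ≠ c) (hbc : b ≠ c)
    (hfa : f - a ≠ 0) (hfb : f - b ≠ 0) (hfc : f - c ≠ 0)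
    (ea : ∀ q, Even ((G.loc q).ord (f - a))) (eb : ∀ q, Even ((G.loc q).ord (f - b)))
    (ec : ∀ q, Even ((G.loc q).ord (f - c))) : G.D f = 0 := by
  by_contra hne
  have hP : (f - a) * (f - b) * (f - c) ≠ 0 := mul_ne_zero (mul_ne_zero hfa hfb) hfc
  refine G.no_sec (G.D f ^ 2 / ((f - a) * (f - b) * (f - c))) 2
    (div_ne_zero (pow_ne_zero _ hne) hP) (by norm_num) fun q => ?_
  set L := G.loc q with hL
  have hne' : L.D f ≠ 0 := by
    intro h; apply hne; rw [G.hD q, ← hL, h, mul_zero]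
  rw [L.ord_div (pow_ne_zero _ hne) hP, L.ord_pow hne, G.hD q, ← hL,
    L.ord_mul _ _ (G.u_ne q) hne', L.ord_mul _ _ (mul_ne_zero hfa hfb) hfc,
    L.ord_mul _ _ hfa hfb]
  have key : ∀ e, G.D e = 0 → f - e ≠ 0 → L.ord (f - e) - 1 ≤ L.ord (L.D f) ∧
      (0 ≤ L.ord (f - e) → 0 ≤ L.ord (L.D f)) := by
    intro e he hfe
    have h1 : L.D (f - e) = L.D f := by rw [L.toDer.D_sub, G.D_loc q he, sub_zero]
    refine ⟨?_, fun h => ?_⟩
    · have := (Loc.Ge.self (L := L) (f - e)).D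
      rw [h1] at this
      exact this.le hne'
    · have := (Loc.Ge.of_le (L := L) h).D0
      rw [h1] at this
      exact this.le hne'
  have tri : ∀ e e', G.D e = 0 → G.D e' = 0 → e ≠ e' → f - e ≠ 0 → f - e' ≠ 0 →
      (L.ord (f - e) ≤ 0 ∨ L.ord (f - e') ≤ 0) ∧
        (L.ord (f - e) < 0 → L.ord (f - e') = L.ord (f - e)) ∧
        (L.ord (f - e') < 0 → L.ord (f - e) = L.ord (f - e')) := by
    intro e e' he he' hee h1 h2
    have h3 : f - e - (f - e') = e' - e := by ring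
    have h4 : e' - e ≠ 0 := sub_ne_zero.2 hee.symm
    refine L.ord_tri h1 h2 (by rwa [h3]) ?_
    rw [h3]
    exact G.ord_const q h4 (by rw [G.toDer.D_sub, he, he', sub_zero])
  have k1 := key a ha hfa
  have k2 := key b hb hfb
  have k3 := key c hc hfc
  have t1 := tri a b ha hb hab hfa hfb
  have t2 := tri a c ha hc hac hfa hfc
  have t3 := tri b c hb hc hbc hfb hfc
  obtain ⟨na, hna⟩ := ea q
  obtain ⟨nb, hnb⟩ := eb q
  obtain ⟨nc, hnc⟩ := ec q
  rw [← hL] at hna hnb hnc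
  push_cast
  omega

/-- cross ratio -/
def cr (x1 x2 x3 x4 : K) : K := (x4 - x2) * (x3 - x1) / ((x4 - x1) * (x3 - x2))

theorem riccati (d : Der K) {x1 x2 x3 x4 : K} (q0 q1 q2 : K) (h14 : x4 - x1 ≠ 0)
    (h23 : x3 - x2 ≠ 0) (h1 : d.D x1 = q2 * x1 ^ 2 + q1 * x1 + q0)
    (h2 : d.D x2 = q2 * x2 ^ 2 + q1 * x2 + q0) (h3 : d.D x3 = q2 * x3 ^ 2 + q1 * x3 + q0)
    (h4 : d.D x4 = q2 * x4 ^ 2 + q1 * x4 + q0) : d.D (cr x1 x2 x3 x4) = 0 := by
  unfold cr
  rw [d.D_div _ _ (mul_ne_zero h14 h23)]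
  simp only [d.D_mul, d.D_sub, h1, h2, h3, h4]
  rw [div_eq_zero_iff]
  left
  ring

theorem Loc.even_mul (L : Loc K) {x y : K} (hx : x ≠ 0 ∧ Even (L.ord x))
    (hy : y ≠ 0 ∧ Even (L.ord y)) : x * y ≠ 0 ∧ Even (L.ord (x * y)) :=
  ⟨mul_ne_zero hx.1 hy.1, by rw [L.ord_mul _ _ hx.1 hy.1]; exact hx.2.add hy.2⟩

theorem Loc.even_div (L : Loc K) {x y : K} (hx : x ≠ 0 ∧ Even (L.ord x))
    (hy : y ≠ 0 ∧ Even (L.ord y)) : x / y ≠ 0 ∧ Even (L.ord (x / y)) :=
  ⟨div_ne_zero hx.1 hy.1, by rw [L.ord_div hx.1 hy.1]; exact hx.2.sub hy.2⟩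

/-- one constant cross ratio forces all points onto a constant configuration -/
theorem of_cr [CharZero K] (G : Glob K) {ι : Type*} (x : ι → K) (hx : Function.Injective x)
    (he : ∀ q i j, i ≠ j → Even ((G.loc q).ord (x i - x j))) {i1 i2 i3 i4 : ι}
    (h12 : i1 ≠ i2) (h13 : i1 ≠ i3) (h14 : i1 ≠ i4) (h23 : i2 ≠ i3) (h24 : i2 ≠ i4)
    (h34 : i3 ≠ i4) (hcr : G.D (cr (x i1) (x i2) (x i3) (x i4)) = 0) (j : ι) :
    G.D ((x j - x i1) / (x i2 - x i1)) = 0 := by
  have hd : ∀ i j, i ≠ j → x i - x j ≠ 0 := fun i j hij => sub_ne_zero.2 fun h => hij (hx h)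
  have hev : ∀ q i j, i ≠ j → x i - x j ≠ 0 ∧ Even ((G.loc q).ord (x i - x j)) :=
    fun q i j hij => ⟨hd i j hij, he q i j hij⟩
  have d21 := hd _ _ h12.symm
  have d31 := hd _ _ h13.symm
  have d41 := hd _ _ h14.symm
  have d32 := hd _ _ h23.symm
  have d42 := hd _ _ h24.symm
  have d43 := hd _ _ h34.symm
  set l := cr (x i1) (x i2) (x i3) (x i4) with hl
  have hl0 : (0 : K) ≠ l := by
    rw [hl, cr]
    exact (div_ne_zero (mul_ne_zero d42 d31) (mul_ne_zero d41 d32)).symm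
  have hl1 : (1 : K) ≠ l := by
    have : l - 1 = (x i4 - x i3) * (x i2 - x i1) / ((x i4 - x i1) * (x i3 - x i2)) := by
      rw [hl, cr]; field_simp; ring
    intro h
    rw [← h, sub_self] at this
    exact div_ne_zero (mul_ne_zero d43 d21) (mul_ne_zero d41 d32) this.symm
  have hinf : G.D ((x i3 - x i1) / (x i3 - x i2)) = 0 := by
    have e0 : (x i3 - x i1) / (x i3 - x i2) - 0 = (x i3 - x i1) / (x i3 - x i2) := sub_zero _
    have e1 : (x i3 - x i1) / (x i3 - x i2) - 1 = (x i2 - x i1) / (x i3 - x i2) := by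
      field_simp; ring
    have e2 : (x i3 - x i1) / (x i3 - x i2) - l =
        (x i3 - x i1) * (x i2 - x i1) / ((x i3 - x i2) * (x i4 - x i1)) := by
      rw [hl, cr]; field_simp; ring
    refine four_points G _ 0 1 l G.toDer.D_zero G.toDer.D_one hcr zero_ne_one hl0 hl1
      (by rw [e0]; exact div_ne_zero d31 d32) (by rw [e1]; exact div_ne_zero d21 d32)
      (by rw [e2]; exact div_ne_zero (mul_ne_zero d31 d21) (mul_ne_zero d32 d41))
      (fun q => ?_) (fun q => ?_) (fun q => ?_)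
    · rw [e0]; exact ((G.loc q).even_div (hev q _ _ h13.symm) (hev q _ _ h23.symm)).2
    · rw [e1]; exact ((G.loc q).even_div (hev q _ _ h12.symm) (hev q _ _ h23.symm)).2
    · rw [e2]
      exact ((G.loc q).even_div ((G.loc q).even_mul (hev q _ _ h13.symm) (hev q _ _ h12.symm))
        ((G.loc q).even_mul (hev q _ _ h23.symm) (hev q _ _ h14.symm))).2
  by_cases hj1 : j = i1
  · rw [hj1, sub_self, zero_div, G.toDer.D_zero]
  have dj1 := hd _ _ hj1
  have hy : G.D (cr (x i1) (x i2) (x i3) (x j)) = 0 := by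
    by_cases hj2 : j = i2
    · rw [hj2, cr, sub_self, zero_mul, zero_div, G.toDer.D_zero]
    by_cases hj3 : j = i3
    · rw [hj3, cr, mul_comm, div_self (mul_ne_zero d31 d32), G.toDer.D_one]
    by_cases hj4 : j = i4
    · rw [hj4]; exact hcr
    have dj2 := hd _ _ hj2
    have dj3 := hd _ _ hj3
    have dj4 := hd _ _ hj4
    have e0 : cr (x i1) (x i2) (x i3) (x j) - 0 =
        (x j - x i2) * (x i3 - x i1) / ((x j - x i1) * (x i3 - x i2)) := sub_zero _
    have e1 : cr (x i1) (x i2) (x i3) (x j) - 1 =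
        (x j - x i3) * (x i2 - x i1) / ((x j - x i1) * (x i3 - x i2)) := by
      rw [cr]; field_simp; ring
    have e2 : cr (x i1) (x i2) (x i3) (x j) - l =
        (x i3 - x i1) * (x i2 - x i1) * (x j - x i4) /
          ((x i3 - x i2) * (x j - x i1) * (x i4 - x i1)) := by
      rw [hl, cr, cr]; field_simp; ring
    refine four_points G _ 0 1 l G.toDer.D_zero G.toDer.D_one hcr zero_ne_one hl0 hl1
      (by rw [e0]; exact div_ne_zero (mul_ne_zero dj2 d31) (mul_ne_zero dj1 d32))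
      (by rw [e1]; exact div_ne_zero (mul_ne_zero dj3 d21) (mul_ne_zero dj1 d32))
      (by rw [e2]; exact div_ne_zero (mul_ne_zero (mul_ne_zero d31 d21) dj4)
            (mul_ne_zero (mul_ne_zero d32 dj1) d41))
      (fun q => ?_) (fun q => ?_) (fun q => ?_)
    · rw [e0]
      exact ((G.loc q).even_div ((G.loc q).even_mul (hev q _ _ hj2) (hev q _ _ h13.symm))
        ((G.loc q).even_mul (hev q _ _ hj1) (hev q _ _ h23.symm))).2
    · rw [e1]
      exact ((G.loc q).even_div ((G.loc q).even_mul (hev q _ _ hj3) (hev q _ _ h12.symm))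
        ((G.loc q).even_mul (hev q _ _ hj1) (hev q _ _ h23.symm))).2
    · rw [e2]
      exact ((G.loc q).even_div ((G.loc q).even_mul
        ((G.loc q).even_mul (hev q _ _ h13.symm) (hev q _ _ h12.symm)) (hev q _ _ hj4))
        ((G.loc q).even_mul ((G.loc q).even_mul (hev q _ _ h23.symm) (hev q _ _ hj1))
          (hev q _ _ h14.symm))).2
  have e : (x j - x i1) / (x i2 - x i1) =
      (1 - cr (x i1) (x i2) (x i3) (x j) / ((x i3 - x i1) / (x i3 - x i2)))⁻¹ := by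
    rw [cr]
    refine eq_inv_of_mul_eq_one_left ?_
    field_simp
    ring
  rw [e, G.toDer.D_inv, G.toDer.D_sub, G.toDer.D_div _ _ (div_ne_zero d31 d32), hy, hinf,
    G.toDer.D_one]
  simp

end Pool.Agent.P.MP_7ede32_ag
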