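import Pool.Agent.P.MP_7ede32_ag.Tower

namespace Pool.Agent.P.MP_7ede32_ag

open Finset Matrix

variable {K : Type*} [Field K]

def mon8 (s w : K) : Fin 8 → K := ![1, s, s ^ 2, s ^ 3, w, s * w, s ^ 2 * w, w ^ 2]

def A8 (a b g a1 b1 : K) : Matrix (Fin 8) (Fin 8) K :=
  !![1, 0, 0, 0, 0, 0, 0, 0;
     b, a, 0, 0, 0, 0, 0, 0;
     b ^ 2, 2 * a * b, a ^ 2, 0, 0, 0, 0, 0;
     b ^ 3, 3 * a * b ^ 2, 3 * a ^ 2 * b, a ^ 3, 0, 0, 0, 0;
     b1, a1, 0, 0, g, 0, 0, 0;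
     b * b1, a * b1 + a1 * b, a * a1, 0, b * g, a * g, 0, 0;
     b ^ 2 * b1, 2 * a * b * b1 + a1 * b ^ 2, 2 * a * a1 * b + a ^ 2 * b1, a ^ 2 * a1, b ^ 2 * g, 2 * a * b * g, a ^ 2 * g, 0;
     b1 ^ 2, 2 * a1 * b1, a1 ^ 2, 0, 2 * b1 * g, 2 * a1 * g, 0, g ^ 2]

def La8 (p : K) : Matrix (Fin 8) (Fin 8) K :=
  !![1, 0, 0, 0, 0, 0, 0, 0;
     0, 2, 0, 0, p, 0, 0, 0;
     0, 0, 4, 0, 0, 4 * p, 0, p ^ 2;
     0, 0, 0, 0, -(1), 0, 0, 0;
     0, 0, 0, 0, 0, -(2), 0, -(p);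
     0, 0, 0, 2, 0, 0, p, 0;
     0, 0, 0, 0, 0, 0, 0, 1;
     0, 0, 0, 0, 0, 0, -(1), 0]

def E8 (p h : K) : Matrix (Fin 8) (Fin 8) K :=
  !![1, 0, 0, 0, 0, 0, 0, 0;
     0, h * p, 0, 0, 1, 0, 0, 0;
     0, 0, h ^ 2 * p ^ 2, 0, 0, h * p, 0, 1;
     0, h, 0, 0, 0, 0, 0, 0;
     0, 0, 2 * h ^ 2 * p, 0, 0, h, 0, 0;
     0, 0, 0, h * p, 0, 0, 1, 0;
     0, 0, h ^ 2, 0, 0, 0, 0, 0;
     0, 0, 0, h, 0, 0, 0, 0]

def wt8 : Fin 8 → ℕ := fun a => a.val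

theorem A8_mon (a b g a1 b1 s w : K) :
    (A8 a b g a1 b1).mulVec (mon8 s w) = mon8 (a * s + b) (g * w + a1 * s + b1) := by
  ext i
  fin_cases i <;> simp [A8, mon8, Matrix.mulVec, dotProduct, Fin.sum_univ_succ] <;> ring

theorem A8_det (a b g a1 b1 : K) : (A8 a b g a1 b1).det = a ^ 9 * g ^ 5 := by
  rw [Matrix.det_of_isLowerTriangular]
  · simp [A8, Fin.prod_univ_succ]; ring
  · intro i j hij
    fin_cases i <;> fin_cases j <;> first | rfl | (exfalso; revert hij; decide)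

theorem zoom8 [CharZero K] (p s w : K) :
    ∑ a, (p ^ wt8 a * (La8 p).mulVec (mon8 s w) a) • E8 p 2⁻¹ a =
      mon8 (p ^ 2 * s) (p ^ 2 * w + 2 * p * s) := by
  ext i
  fin_cases i <;>
    simp [La8, E8, wt8, mon8, Matrix.mulVec, dotProduct, Fin.sum_univ_succ] <;> ring

theorem A8_int (L : Loc K) (a b g a1 b1 : K) (ha : L.Ge 0 a) (hb : L.Ge 0 b) (hg : L.Ge 0 g)
    (ha1 : L.Ge 0 a1) (hb1 : L.Ge 0 b1) (i j : Fin 8) :
    L.Ge 0 (A8 a b g a1 b1 i j) := by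
  fin_cases i <;> fin_cases j <;> simp only [A8, Matrix.of_apply, Matrix.cons_val',
    Matrix.cons_val, Matrix.cons_val_fin_one, Fin.reduceFinMk, Fin.zero_eta, Fin.mk_one,
    Fin.isValue] <;>
    repeat' first
      | exact Loc.Ge.zero _ | exact Loc.Ge.one | assumption | exact Loc.Ge.ofNat _
      | apply Loc.Ge.add | apply Loc.Ge.neg | apply Loc.Ge.pow0 | apply Loc.Ge.mul00

theorem La8_int (L : Loc K) (p : K) (hp : L.Ge 0 p) (i j : Fin 8) :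
    L.Ge 0 (La8 p i j) := by
  fin_cases i <;> fin_cases j <;> simp only [La8, Matrix.of_apply, Matrix.cons_val',
    Matrix.cons_val, Matrix.cons_val_fin_one, Fin.reduceFinMk, Fin.zero_eta, Fin.mk_one,
    Fin.isValue] <;>
    repeat' first
      | exact Loc.Ge.zero _ | exact Loc.Ge.one | assumption | exact Loc.Ge.ofNat _
      | apply Loc.Ge.add | apply Loc.Ge.neg | apply Loc.Ge.pow0 | apply Loc.Ge.mul00

theorem E8_int (L : Loc K) (p h : K) (hp : L.Ge 0 p) (hh : L.Ge 0 h) (i j : Fin 8) :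
    L.Ge 0 (E8 p h i j) := by
  fin_cases i <;> fin_cases j <;> simp only [E8, Matrix.of_apply, Matrix.cons_val',
    Matrix.cons_val, Matrix.cons_val_fin_one, Fin.reduceFinMk, Fin.zero_eta, Fin.mk_one,
    Fin.isValue] <;>
    repeat' first
      | exact Loc.Ge.zero _ | exact Loc.Ge.one | assumption | exact Loc.Ge.ofNat _
      | apply Loc.Ge.add | apply Loc.Ge.neg | apply Loc.Ge.pow0 | apply Loc.Ge.mul00

theorem mon8_int (L : Loc K) {s w : K} (hs : L.Ge 0 s) (hw : L.Ge 0 w) :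
    L.IntV (mon8 s w) := by
  intro i
  fin_cases i <;> simp only [mon8, Matrix.cons_val, Fin.reduceFinMk, Fin.zero_eta, Fin.mk_one,
    Fin.isValue] <;>
    repeat' first
      | exact Loc.Ge.zero _ | exact Loc.Ge.one | assumption | exact Loc.Ge.ofNat _
      | apply Loc.Ge.add | apply Loc.Ge.neg | apply Loc.Ge.pow0 | apply Loc.Ge.mul00

end Pool.Agent.P.MP_7ede32_ag
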