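import Pool.Agent.P.MP_7ede32_ag.Count
import Pool.Agent.P.MP_7ede32_ag.Mat8

namespace Pool.Agent.P.MP_7ede32_ag

open Finset Matrix

variable {K : Type*} [Field K]

theorem exists_detM (K : Type*) [Field K] (n : ℕ) :
    ∃ φ : MultilinearMap K (fun _ : Fin n => Fin n → K) K, ∀ w, φ w = (Matrix.of w).det :=
  ⟨(Matrix.detRowAlternating : (Fin n → K) [⋀^Fin n]→ₗ[K] K).toMultilinearMap, fun _ => rfl⟩

/-- the determinant as a multilinear map in the rows -/
noncomputable def detM (K : Type*) [Field K] (n : ℕ) :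
    MultilinearMap K (fun _ : Fin n => Fin n → K) K := (exists_detM K n).choose

theorem detM_apply {n : ℕ} (w : Fin n → Fin n → K) : detM K n w = (Matrix.of w).det :=
  (exists_detM K n).choose_spec w

theorem detM_alt {n : ℕ} (w : Fin n → Fin n → K) {i j : Fin n} (hij : i ≠ j) (h : w i = w j) :
    detM K n w = 0 := by
  rw [detM_apply]; exact Matrix.det_zero_of_row_eq hij h

theorem detM_mulVec {n : ℕ} (A : Matrix (Fin n) (Fin n) K) (w : Fin n → Fin n → K) :
    detM K n (fun i => A.mulVec (w i)) = A.det * detM K n w := by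
  rw [detM_apply, detM_apply, mul_comm, ← Matrix.det_transpose A, ← Matrix.det_mul]
  congr 1
  ext i j
  simp [Matrix.mul_apply, Matrix.mulVec, dotProduct, mul_comm]

noncomputable def Delta8 (s w : Fin 8 → K) : K := detM K 8 fun i => mon8 (s i) (w i)

theorem Delta8_affine (s w : Fin 8 → K) (a b g a1 b1 : K) :
    Delta8 (fun i => a * s i + b) (fun i => g * w i + a1 * s i + b1) =
      a ^ 9 * g ^ 5 * Delta8 s w := by
  have h := detM_mulVec (A8 a b g a1 b1) (fun i => mon8 (s i) (w i))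
  rw [A8_det] at h
  exact (congrArg (detM K 8) (funext fun i => (A8_mon a b g a1 b1 (s i) (w i)).symm)).trans h

theorem two_mul_sum_range (n : ℕ) : 2 * ∑ k ∈ range n, (k : ℤ) = n * (n - 1) := by
  induction n with
  | zero => simp
  | succ n ih => rw [sum_range_succ, mul_add, ih]; push_cast; ring

theorem Delta8_local0 [CharZero K] (L : Loc K) (y : Fin 8 → K) (hy : Function.Injective y)
    (h0 : ∀ i j, L.Ge 0 (y i - y j)) (he : ∀ i j, i ≠ j → Even (L.ord (y i - y j)))
    (hne : Delta8 y (fun i => L.D (y i)) ≠ 0) :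
    L.nu y ≤ 4 * L.ord (Delta8 y (fun i => L.D (y i))) := by
  classical
  obtain ⟨lab, hlab⟩ := exists_lab L y
  obtain ⟨R, hR⟩ := nu_eq L y hy h0 he lab hlab
  have hmono : ∀ r i j, lab (r + 1) i = lab (r + 1) j → lab r i = lab r j := fun r i j h =>
    (hlab r i j).2 (((hlab (r + 1) i j).1 h).mono (by push_cast; omega))
  let sg : ℕ → Fin 8 → K := fun r i => (y i - y (cen (lab r) i)) / L.p ^ (2 * r)
  let be : ℕ → Fin 8 → K := fun r i =>
    (y (cen (lab (r + 1)) i) - y (cen (lab r) i)) / L.p ^ (2 * r)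
  have hsg : ∀ r i, L.Ge 0 (sg r i) := fun r i =>
    level_int ((hlab r _ _).1 (cen_lab (lab r) i).symm)
  have hbe : ∀ r i, L.Ge 0 (be r i) := fun r i =>
    level_int ((hlab r _ _).1
      ((hmono r _ _ (cen_lab (lab (r + 1)) i)).trans (cen_lab (lab r) i).symm))
  let U : ℕ → Fin 8 → Matrix (Fin 8) (Fin 8) K := fun r i => A8 1 (be r i) 1 0 (L.D (be r i))
  have hU : ∀ r i j, lab (r + 1) i = lab (r + 1) j → U r i = U r j := fun r i j h => by
    simp only [U, be, cen_congr _ h, cen_congr _ (hmono r i j h)]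
  have key := tower L lab hmono (fun r i => mon8 (sg r i) (L.D (sg r i)))
    (fun _ w => ∀ i, L.IntV (w i)) (fun r i => mon8_int L (hsg r i) (hsg r i).D0)
    (fun r i => zoomL (U r i) (La8 L.p) (E8 L.p 2⁻¹) (fun a => L.p ^ wt8 a))
    (fun r i j h => by simp only [hU r i j h]) (fun _ => 1) 0 (by simpa using Loc.Ge.one)
    (fun r i => by
      rw [one_smul, zoomL_apply', zoom8, A8_mon]
      obtain ⟨h1, h2⟩ := level_coord L (y i) (y (cen (lab (r + 1)) i)) (y (cen (lab r) i)) r
      simp only [sg, be]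
      rw [← h1, ← h2])
    (fun r => ∑ c, ∑ k ∈ range (csz (lab (r + 1)) c), (k : ℤ))
    (fun r φ h1 h2 w hw => by
      simp only [zoomL_apply]
      refine step L φ (fun i j => lab (r + 1) i = lab (r + 1) j) h1 _ h2
        (fun i a => (U r i).mulVec (E8 L.p 2⁻¹ a)) (fun i j h => by simp only [hU r i j h])
        (fun i a => L.p ^ wt8 a * (La8 L.p).mulVec (w i) a) _ fun f hf _ => ⟨fun i => ?_, ?_⟩
      · exact Loc.IntV.mulVec (A8_int L _ _ _ _ _ Loc.Ge.one (hbe r i) Loc.Ge.one
          (Loc.Ge.zero _) (hbe r i).D0) (E8_int L _ _ Loc.Ge.pp0 Loc.Ge.half _)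
      · refine (Loc.Ge.prod univ _ (fun i => ((f i).val : ℤ)) fun i _ => ?_).mono ?_
        · exact (Loc.Ge.ppow _).mul' (Loc.IntV.mulVec (La8_int L _ Loc.Ge.pp0) (hw i) _)
            (by simp [wt8])
        · rw [← Finset.sum_fiberwise (s := univ) (g := lab (r + 1))
            (f := fun i => ((f i).val : ℤ))]
          refine Finset.sum_le_sum fun c _ => ?_
          exact sum_range_le_of_inj (fun k => (k : ℤ)) (fun a b h => Int.ofNat_le.2 h)
            (univ.filter fun i => lab (r + 1) i = c)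
            (fun i => (f i).val) fun i hi j hj hij h =>
              hf i j hij ((mem_filter.1 hi).2.trans (mem_filter.1 hj).2.symm) (Fin.ext h))
    R 0 (detM K 8) (fun w i j hij _ h => detM_alt w hij h)
    (fun w hw => by rw [detM_apply]; exact L.det_int w hw)
  have hc : ∀ i, cen (lab 0) i = cen (lab 0) 0 := fun i =>
    cen_congr _ ((hlab 0 i 0).2 (by simpa using h0 i 0))
  have h3 : detM K 8 (fun i => mon8 (sg 0 i) (L.D (sg 0 i))) =
      Delta8 y (fun i => L.D (y i)) := by
    have := Delta8_affine y (fun i => L.D (y i)) 1 (-y (cen (lab 0) 0)) 1 0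
      (-L.D (y (cen (lab 0) 0)))
    simp only [one_pow, one_mul, zero_mul, add_zero] at this
    rw [← this]
    refine congrArg (detM K 8) (funext fun i => ?_)
    simp only [sg, hc i, mul_zero, pow_zero, div_one, sub_eq_add_neg]
    rw [L.toDer.D_add, L.toDer.D_neg]
  rw [h3] at key
  have h4 := key.le hne
  rw [hR]
  have h5 : ∀ r, 2 * ∑ c, (csz (lab (r + 1)) c : ℤ) * (csz (lab (r + 1)) c - 1) =
      4 * ((∑ c, ∑ k ∈ range (csz (lab (0 + r + 1)) c), (k : ℤ)) + 0) := by
    intro r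
    simp only [← two_mul_sum_range, ← Finset.mul_sum, zero_add, add_zero]
    ring
  simp only [h5, ← Finset.mul_sum]
  omega

theorem exists_min_diff (L : Loc K) {m : ℕ} (x : Fin (m + 2) → K) :
    ∃ i j, i ≠ j ∧ ∀ k l, L.Ge (L.ord (x i - x j)) (x k - x l) := by
  classical
  obtain ⟨q, hq, hmin⟩ := Finset.exists_min_image
    (univ.filter fun q : Fin (m + 2) × Fin (m + 2) => q.1 ≠ q.2)
    (fun q => L.ord (x q.1 - x q.2)) ⟨(0, 1), by simp⟩
  refine ⟨q.1, q.2, (mem_filter.1 hq).2, fun k l => ?_⟩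
  by_cases h : k = l
  · exact Or.inl (by simp [h])
  · exact Or.inr (hmin (k, l) (by simpa using h))

theorem Delta8_local [CharZero K] (L : Loc K) (x : Fin 8 → K) (hx : Function.Injective x)
    (he : ∀ i j, i ≠ j → Even (L.ord (x i - x j)))
    (hne : Delta8 x (fun i => L.D (x i)) ≠ 0) :
    L.nu x ≤ 4 * L.ord (Delta8 x (fun i => L.D (x i))) := by
  obtain ⟨i0, j0, h0, hmin⟩ := exists_min_diff L x
  set r := L.ord (x i0 - x j0) with hr
  set a := L.p ^ (-r) with ha
  have ha0 : a ≠ 0 := zpow_ne_zero _ L.p_ne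
  have hoa : L.ord a = -r := L.ord_p_zpow _
  have h1 : Delta8 (fun i => a * x i + 0) (fun i => L.D (a * x i + 0)) =
      a ^ 14 * Delta8 x (fun i => L.D (x i)) := by
    have := Delta8_affine x (fun i => L.D (x i)) a 0 a (L.D a) 0
    rw [show a ^ 14 = a ^ 9 * a ^ 5 by ring, ← this]
    congr 1
    funext i
    rw [add_zero, add_zero, L.toDer.D_mul]; ring
  have hdiff : ∀ i j, a * x i + 0 - (a * x j + 0) = a * (x i - x j) := fun i j => by ring
  have h2 := Delta8_local0 L (fun i => a * x i + 0)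
    (fun i j h => hx (mul_left_cancel₀ ha0 (by simpa using h)))
    (fun i j => by
      rw [hdiff]; exact (Loc.Ge.self a).mul' (hmin i j) (by omega))
    (fun i j hij => by
      rw [hdiff, L.ord_mul _ _ ha0 (sub_ne_zero.2 fun h => hij (hx h)), hoa]
      exact (he i0 j0 h0).neg.add (he i j hij))
    (by rw [h1]; exact mul_ne_zero (pow_ne_zero _ ha0) hne)
  rw [h1, nu_affine L x hx ha0, L.ord_mul _ _ (pow_ne_zero _ ha0) hne, L.ord_pow ha0] at h2
  push_cast at h2
  omega

theorem Loc.ord_nuProd (L : Loc K) {m : ℕ} (x : Fin m → K) (hx : Function.Injective x) :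
    (∏ i, ∏ j, if i = j then 1 else (x i - x j)) ≠ 0 ∧
      L.ord (∏ i, ∏ j, if i = j then 1 else (x i - x j)) = L.nu x := by
  have h1 : ∀ i j, (if i = j then 1 else (x i - x j)) ≠ 0 := fun i j => by
    split_ifs with h
    · exact one_ne_zero
    · exact sub_ne_zero.2 fun h' => h (hx h')
  have h2 : ∀ i, (∏ j, if i = j then 1 else (x i - x j)) ≠ 0 := fun i =>
    Finset.prod_ne_zero_iff.2 fun j _ => h1 i j
  refine ⟨Finset.prod_ne_zero_iff.2 fun i _ => h2 i, ?_⟩
  rw [L.ord_prod _ _ fun i _ => h2 i]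
  refine Finset.sum_congr rfl fun i _ => ?_
  rw [L.ord_prod _ _ fun j _ => h1 i j]
  refine Finset.sum_congr rfl fun j _ => ?_
  split_ifs
  · exact L.ord_one
  · rfl

theorem Delta8_eq_zero [CharZero K] (G : Glob K) (x : Fin 8 → K) (hx : Function.Injective x)
    (he : ∀ q i j, i ≠ j → Even ((G.loc q).ord (x i - x j))) :
    Delta8 x (fun i => G.D (x i)) = 0 := by
  by_contra hne
  have hP : (∏ i, ∏ j, if i = j then 1 else (x i - x j)) ≠ 0 :=
    Finset.prod_ne_zero_iff.2 fun i _ => Finset.prod_ne_zero_iff.2 fun j _ => by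
      split_ifs with h
      · exact one_ne_zero
      · exact sub_ne_zero.2 fun h' => h (hx h')
  refine G.no_sec (Delta8 x (fun i => G.D (x i)) ^ 4 /
    ∏ i, ∏ j, if i = j then 1 else (x i - x j)) 20 (div_ne_zero (pow_ne_zero _ hne) hP)
    (by norm_num) fun q => ?_
  have h1 : Delta8 x (fun i => G.D (x i)) =
      G.u q ^ 5 * Delta8 x (fun i => (G.loc q).D (x i)) := by
    have := Delta8_affine x (fun i => (G.loc q).D (x i)) 1 0 (G.u q) 0 0
    simp only [one_mul, add_zero, zero_mul, one_pow] at this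
    rw [← this]
    simp only [G.hD q]
  have hne' : Delta8 x (fun i => (G.loc q).D (x i)) ≠ 0 := by
    intro h; rw [h1, h, mul_zero] at hne; exact hne rfl
  have h2 := Delta8_local (G.loc q) x hx (he q) hne'
  rw [(G.loc q).ord_div (pow_ne_zero _ hne) hP, (G.loc q).ord_pow hne,
    ((G.loc q).ord_nuProd x hx).2, h1,
    (G.loc q).ord_mul _ _ (pow_ne_zero _ (G.u_ne q)) hne', (G.loc q).ord_pow (G.u_ne q)]
  push_cast
  omega

end Pool.Agent.P.MP_7ede32_ag
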