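import Pool.Agent.P.MP_7ede32_ag.Comb
import Pool.Agent.P.MP_7ede32_ag.Basic
import Pool.Agent.P.MP_7ede32_ag.Det8

namespace Pool.Agent.P.MP_7ede32_ag

open Finset

variable {K : Type*} [Field K]

theorem theta_eq (d : Der K) {x y ε β J : K} (hxy : x - y ≠ 0)
    (hx : d.D x = -(ε * x ^ 3 + β * x + J)) (hy : d.D y = -(ε * y ^ 3 + β * y + J)) :
    d.L (x - y) = -(ε * (x ^ 2 + x * y + y ^ 2) + β) := by
  unfold Der.L
  rw [d.D_sub, hx, hy]
  field_simp
  ring

theorem Loc.res_cases [CharZero K] (L : Loc K) {z : K} {N : ℤ} (hz : z ≠ 0)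
    (h : L.Ge 0 (z - (N : K) / L.p)) :
    -1 ≤ L.ord z ∧ (N ≠ 0 → L.ord z = -1) ∧ (N = 0 → 0 ≤ L.ord z) := by
  refine ⟨(L.Ge_of_res h).le hz, fun hN => (L.ord_of_res hN h).2, fun hN => ?_⟩
  rw [hN] at h
  simpa using h.le (by simpa using hz)

theorem Loc.Ge.of_three [CharZero K] {L : Loc K} {n : ℤ} {x : K} (h : L.Ge n (3 * x)) :
    L.Ge n x := by
  have := h.of_mul_left (by norm_num)
  have h3 := L.ord_nat 3 (by norm_num)
  simp only [Nat.cast_ofNat] at h3
  rwa [h3, sub_zero] at this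

theorem abel_local [CharZero K] (L : Loc K) (v : Fin 18 → K) (hv : Function.Injective v)
    {ε β J : K} (hε : ε ≠ 0) (hJ : J ≠ 0) (hD : ∀ i, L.D (v i) = -(ε * v i ^ 3 + β * v i + J))
    (he : ∀ i j k l, i ≠ j → i ≠ k → i ≠ l → j ≠ k → j ≠ l → k ≠ l →
      Even (L.ord (v i - v j) + L.ord (v k - v l) - L.ord (v i - v k) - L.ord (v j - v l))) :
    0 ≤ 2 * L.nu v + 324 * L.ord ε + 36 * L.ord J := by
  have hp := L.p_ne
  have hd : ∀ i j, i ≠ j → v i - v j ≠ 0 := fun i j hij => sub_ne_zero.2 fun h => hij (hv h)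
  set n : Fin 18 → Fin 18 → ℤ := fun i j => L.ord (v i - v j) with hn
  set e := L.ord ε with hee
  have hth : ∀ i j, i ≠ j →
      L.Ge 0 (-(ε * (v i ^ 2 + v i * v j + v j ^ 2) + β) - (n i j : K) / L.p) := by
    intro i j hij
    rw [← theta_eq L.toDer (hd i j hij) (hD i) (hD j)]
    exact L.L_sub (hd i j hij)
  have hq : ∀ i j k l, i ≠ j → i ≠ k → i ≠ l → j ≠ k → j ≠ l → k ≠ l →
      -1 ≤ e + n i l + n j k ∧ (n i j + n k l - n i k - n j l ≠ 0 → e + n i l + n j k = -1) ∧
        (n i j + n k l - n i k - n j l = 0 → 0 ≤ e + n i l + n j k) := by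
    intro i j k l hij hik hil hjk hjl hkl
    have h1 := (((hth i j hij).add (hth k l hkl)).sub (hth i k hik)).sub (hth j l hjl)
    have h2 : -(ε * (v i - v l) * (v j - v k)) ≠ 0 :=
      neg_ne_zero.2 (mul_ne_zero (mul_ne_zero hε (hd _ _ hil)) (hd _ _ hjk))
    have h3 := L.res_cases (N := n i j + n k l - n i k - n j l) h2 (by
      convert h1 using 1
      push_cast
      ring)
    rwa [L.ord_neg, L.ord_mul _ _ (mul_ne_zero hε (hd _ _ hil)) (hd _ _ hjk),
      L.ord_mul _ _ hε (hd _ _ hil)] at h3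
  have H : AbelData n e :=
    { sym := fun i j => L.ord_sub_comm _ _
      ult := fun i j k z hij hjk hik h1 h2 => by
        have := ((Loc.Ge.of_le h1).add (Loc.Ge.of_le h2))
        rw [sub_add_sub_cancel] at this
        exact this.le (hd i k hik)
      q1 := fun i j k l hij hik hil hjk hjl hkl => (hq i j k l hij hik hil hjk hjl hkl).1
      q2 := fun i j k l hij hik hil hjk hjl hkl h =>
        (hq i j k l hij hik hil hjk hjl hkl).2.1 (by omega)
      q3 := fun i j k l hij hik hil hjk hjl hkl h =>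
        (hq i j k l hij hik hil hjk hjl hkl).2.2 (by omega)
      q4 := he }
  obtain ⟨a, b, hab, hmin⟩ := exists_min_diff L v
  set r := L.ord (v a - v b) with hr
  have hs : ∀ i j k, i ≠ j → i ≠ k → j ≠ k → L.Ge (-1 - e - n j k) (v i + v j + v k) ∧
      (n i j = n i k → L.Ge (-e - n j k) (v i + v j + v k)) := by
    intro i j k hij hik hjk
    have h1 : L.Ge 0 (ε * (v j - v k) * (v i + v j + v k) - ((n i k - n i j : ℤ) : K) / L.p) := by
      convert (hth i k hik).sub (hth i j hij) using 1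
      push_cast
      ring
    have h2 := mul_ne_zero hε (hd _ _ hjk)
    have h3 : L.ord (ε * (v j - v k)) = e + n j k := L.ord_mul _ _ hε (hd _ _ hjk)
    constructor
    · have := (L.Ge_of_res h1).of_mul_left h2
      rw [h3] at this
      exact this.mono (by omega)
    · intro h
      rw [h, sub_self, Int.cast_zero, zero_div, sub_zero] at h1
      have := h1.of_mul_left h2
      rw [h3] at this
      exact this.mono (by omega)
  have hv3 : ∀ (z : ℤ) i j k, z ≤ r → L.Ge z (v i + v j + v k) → ∀ m, L.Ge z (v m) := by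
    intro z i j k hz h m
    refine Loc.Ge.of_three ?_
    rw [show 3 * v m = v i + v j + v k + (v m - v i) + (v m - v j) + (v m - v k) by ring]
    exact ((h.add ((hmin m i).mono hz)).add ((hmin m j).mono hz)).add ((hmin m k).mono hz)
  have hε' : L.Ge e ε := Loc.Ge.self ε
  have hJ1 : J = -L.D (v 0) + -(ε * (v 0 ^ 2 + v 0 * v 1 + v 1 ^ 2) + β) * v 0 +
      ε * (v 0 * (v 1 * (v 0 + v 1))) := by
    rw [hD]; ring
  obtain ⟨c, hc⟩ : ∃ c, c ∉ ({a, b} : Finset (Fin 18)) := by
    refine Finset.exists_mem_notMem_of_card_lt_card (s := {a, b}) (t := univ) ?_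
      |>.imp fun k hk => hk.2
    have := Finset.card_le_two (a := a) (b := b)
    simp only [card_univ, Fintype.card_fin]; omega
  simp only [mem_insert, mem_singleton, not_or] at hc
  have key := H.main (Y := L.ord J) hab rfl (fun i j hij => (hmin i j).le (hd i j hij))
    (fun μ h1 h2 => by
      have h3 := hv3 μ c a b h1 ((hs c a b hc.1 hc.2 hab).1.mono h2)
      have h4 : L.Ge (min (μ - 1) (e + 3 * μ)) J := by
        rw [hJ1]
        refine (((h3 0).D.neg.mono (min_le_left _ _)).add ?_).add ?_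
        · exact (L.Ge_of_res (hth 0 1 (by decide))).mul' (h3 0)
            ((min_le_left _ _).trans (by omega))
        · exact hε'.mul' ((h3 0).mul ((h3 1).mul ((h3 0).add (h3 1))))
            ((min_le_right _ _).trans (by omega))
      have := h4.le hJ
      omega)
    (fun h1 h2 => by
      have h3 := hv3 r c a b le_rfl (((hs c a b hc.1 hc.2 hab).2
        (by rw [h1 c a hc.1, h1 c b hc.2])).mono (by change r ≤ -e - r; change e + 2 * r = 0 at h2; omega))
      have h4 : J = -(L.D (v 0) - (r : K) * v 0 / L.p) +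
          (-(ε * (v 0 ^ 2 + v 0 * v 1 + v 1 ^ 2) + β) - (r : K) / L.p) * v 0 +
          ε * (v 0 * (v 1 * (v 0 + v 1))) := by
        rw [hD]; ring
      have h5 := hth 0 1 (by decide)
      rw [h1 0 1 (by decide)] at h5
      refine Loc.Ge.le ?_ hJ
      rw [h4]
      refine (((h3 0).D_sub.neg).add (h5.mul0 (h3 0))).add ?_
      exact hε'.mul' ((h3 0).mul ((h3 1).mul ((h3 0).add (h3 1))))
        (by change e + 2 * r = 0 at h2; omega))
    (fun i j k l hij hik hjk hkl h1 h2 h3 h4 h5 => by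
      change e + 2 * r = -1 at h1
      change n i j = r + 1 at h2
      change n k l = r + 1 at h3
      change n i k = r at h4
      change n j k = r at h5
      change r + 1 ≤ _
      have h6 := hv3 r i j k le_rfl ((hs i j k hij hik hjk).1.mono (by omega))
      have h7 : L.Ge (r + 1) (v i - v j) := Loc.Ge.of_le h2.ge
      have h8 : L.Ge (r + 1) (v k - v l) := Loc.Ge.of_le h3.ge
      have h9 : ∀ {s : K} m, L.Ge (r + 1) s → L.Ge (2 * r + 1) (s * (s - 3 * v m)) := by
        intro s m h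
        exact h.mul' ((h.mono (by omega)).sub ((Loc.Ge.ofNat 3).mul0 (h6 m))) (by omega)
      have t1 := hth i j hij
      have t2 := hth k l hkl
      rw [h2] at t1
      rw [h3] at t2
      have h10 : L.Ge (r + 1) (v i + v k) := by
        have h11 : L.Ge 0 (ε * (v i - v k) * (3 * (v i + v k))) := by
          have := (t2.sub t1).sub (hε'.mul' ((h9 i h7).sub (h9 k h8)) (by omega : (0 : ℤ) ≤ e + (2 * r + 1)))
          convert this using 1
          ring
        have := h11.of_mul_left (mul_ne_zero hε (hd _ _ hik))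
        rw [L.ord_mul _ _ hε (hd _ _ hik)] at this
        refine (Loc.Ge.of_three this).mono ?_
        change _ ≤ 0 - (e + n i k)
        omega
      have h12 : 2 * J = -(L.D (v i + v k) - ((r + 1 : ℤ) : K) * (v i + v k) / L.p) +
          (-(ε * (v i ^ 2 + v i * v j + v j ^ 2) + β) - ((r + 1 : ℤ) : K) / L.p) * (v i + v k) +
          ε * ((v i - v j) * (v i - v j - 3 * v i) - (v i + v k) * (v i + v k - 3 * v i)) *
            (v i + v k) := by
        rw [L.toDer.D_add, hD, hD]; ring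
      have h13 : L.Ge (r + 1) (2 * J) := by
        rw [h12]
        refine ((h10.D_sub.neg).add (t1.mul0 h10)).add ?_
        exact (hε'.mul ((h9 i h7).sub (h9 i h10))).mul' h10 (by omega)
      have := (Loc.Ge.half.mul0 h13)
      rw [show 2⁻¹ * (2 * J) = J by ring] at this
      exact this.le hJ)
  have h1 : (∑ i, ∑ j, if i = j then 0 else e + 2 * n i j) = 306 * e + 2 * L.nu v := by
    unfold Loc.nu
    have : ∀ i j : Fin 18, (if i = j then 0 else e + 2 * n i j) =
        (e - if i = j then e else 0) + 2 * (if i = j then 0 else L.ord (v i - v j)) := by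
      intro i j
      split_ifs <;> simp [hn]
    simp only [this, sum_add_distrib, sum_sub_distrib, ← Finset.mul_sum]
    simp
    ring
  rw [h1] at key
  omega

theorem abel_J [CharZero K] (G : Glob K) (v : Fin 18 → K) (hv : Function.Injective v)
    {ε β J : K} (hε : ε ≠ 0) (hJ : J ≠ 0) (hD : ∀ i, G.D (v i) = -(ε * v i ^ 3 + β * v i + J))
    (he : ∀ q i j k l, i ≠ j → i ≠ k → i ≠ l → j ≠ k → j ≠ l → k ≠ l →
      Even ((G.loc q).ord (v i - v j) + (G.loc q).ord (v k - v l) - (G.loc q).ord (v i - v k) -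
        (G.loc q).ord (v j - v l))) : False := by
  have hP : (∏ i, ∏ j, if i = j then 1 else (v i - v j)) ≠ 0 :=
    Finset.prod_ne_zero_iff.2 fun i _ => Finset.prod_ne_zero_iff.2 fun j _ => by
      split_ifs with h
      · exact one_ne_zero
      · exact sub_ne_zero.2 fun h' => h (hv h')
  refine G.no_sec ((∏ i, ∏ j, if i = j then 1 else (v i - v j)) ^ 2 * ε ^ 324 * J ^ 36) 360
    (mul_ne_zero (mul_ne_zero (pow_ne_zero _ hP) (pow_ne_zero _ hε)) (pow_ne_zero _ hJ))
    (by norm_num) fun q => ?_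
  have hu := G.u_ne q
  have h1 := abel_local (G.loc q) v hv (ε := ε / G.u q) (β := β / G.u q) (J := J / G.u q)
    (div_ne_zero hε hu) (div_ne_zero hJ hu) (fun i => by
      have := hD i
      rw [G.hD q] at this
      field_simp
      linear_combination this) (he q)
  rw [(G.loc q).ord_div hε hu, (G.loc q).ord_div hJ hu] at h1
  rw [(G.loc q).ord_mul _ _ (mul_ne_zero (pow_ne_zero _ hP) (pow_ne_zero _ hε))
    (pow_ne_zero _ hJ), (G.loc q).ord_mul _ _ (pow_ne_zero _ hP) (pow_ne_zero _ hε),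
    (G.loc q).ord_pow hP, (G.loc q).ord_pow hε, (G.loc q).ord_pow hJ,
    ((G.loc q).ord_nuProd v hv).2]
  push_cast
  omega

theorem bernoulli [CharZero K] (G : Glob K) {v1 v2 v3 v4 ε β : K} (hε : ε ≠ 0)
    (h1 : v1 ≠ 0) (h2 : v2 ≠ 0) (h3 : v3 ≠ 0) (h4 : v4 ≠ 0)
    (h12 : v1 ^ 2 ≠ v2 ^ 2) (h13 : v1 ^ 2 ≠ v3 ^ 2) (h14 : v1 ^ 2 ≠ v4 ^ 2)
    (h23 : v2 ^ 2 ≠ v3 ^ 2) (h24 : v2 ^ 2 ≠ v4 ^ 2) (h34 : v3 ^ 2 ≠ v4 ^ 2)
    (d1 : G.D v1 = -(ε * v1 ^ 3 + β * v1)) (d2 : G.D v2 = -(ε * v2 ^ 3 + β * v2))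
    (d3 : G.D v3 = -(ε * v3 ^ 3 + β * v3)) (d4 : G.D v4 = -(ε * v4 ^ 3 + β * v4)) : False := by
  have hy : ∀ v, v ≠ 0 → G.D v = -(ε * v ^ 3 + β * v) →
      G.D (v ^ 2)⁻¹ = 2 * ε + 2 * β * (v ^ 2)⁻¹ := by
    intro v hv h
    rw [G.toDer.D_inv, G.toDer.D_sq, h]
    field_simp
  have hc : ∀ {a b c d : K}, G.D a = 2 * ε + 2 * β * a → G.D b = 2 * ε + 2 * β * b →
      G.D c = 2 * ε + 2 * β * c → G.D d = 2 * ε + 2 * β * d → c - d ≠ 0 →
      G.D ((a - b) / (c - d)) = 0 := by
    intro a b c d ha hb hc hd hcd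
    rw [G.toDer.D_div _ _ hcd, G.toDer.D_sub, G.toDer.D_sub, ha, hb, hc, hd, div_eq_zero_iff]
    left; ring
  have e1 := hy v1 h1 d1
  have e2 := hy v2 h2 d2
  have e3 := hy v3 h3 d3
  have e4 := hy v4 h4 d4
  have ev : ∀ q v, v ≠ 0 → (v ^ 2)⁻¹ ≠ 0 ∧ Even ((G.loc q).ord (v ^ 2)⁻¹) := fun q v hv =>
    ⟨inv_ne_zero (pow_ne_zero _ hv), by
      rw [(G.loc q).ord_inv (pow_ne_zero _ hv), (G.loc q).ord_pow hv]
      exact (even_two_mul _).neg⟩
  have sb : ∀ {a b : K}, a ≠ b → a⁻¹ - b⁻¹ ≠ 0 := fun h =>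
    sub_ne_zero.2 fun h' => h (inv_injective h')
  have n1 := inv_ne_zero (pow_ne_zero 2 h1)
  have n2 := inv_ne_zero (pow_ne_zero 2 h2)
  have n3 := inv_ne_zero (pow_ne_zero 2 h3)
  have n4 := inv_ne_zero (pow_ne_zero 2 h4)
  have s12 := sb h12
  have s13 := sb h13
  have s41 := sb h14.symm
  have s23 := sb h23
  have s42 := sb h24.symm
  have s43 := sb h34.symm
  have ev1 := fun q => ev q v1 h1
  have ev2 := fun q => ev q v2 h2
  have ev3 := fun q => ev q v3 h3
  have ev4 := fun q => ev q v4 h4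
  generalize (v1 ^ 2)⁻¹ = y1 at *
  generalize (v2 ^ 2)⁻¹ = y2 at *
  generalize (v3 ^ 2)⁻¹ = y3 at *
  generalize (v4 ^ 2)⁻¹ = y4 at *
  have f2 : y1 / y4 - (y1 - y2) / (y4 - y2) = y2 / y4 * ((y4 - y1) / (y4 - y2)) := by
    field_simp; ring
  have f3 : y1 / y4 - (y1 - y3) / (y4 - y3) = y3 / y4 * ((y4 - y1) / (y4 - y3)) := by
    field_simp; ring
  have cst : ∀ q {c : K}, c ≠ 0 → G.D c = 0 → c ≠ 0 ∧ Even ((G.loc q).ord c) :=
    fun q c hc h => ⟨hc, by rw [G.ord_const q hc h]; exact Even.zero⟩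
  have key := four_points G (y1 / y4) 0 ((y1 - y2) / (y4 - y2)) ((y1 - y3) / (y4 - y3))
    G.toDer.D_zero (hc e1 e2 e4 e2 s42) (hc e1 e3 e4 e3 s43) (div_ne_zero s12 s42).symm
    (div_ne_zero s13 s43).symm
    (by
      rw [Ne, div_eq_div_iff s42 s43]
      intro h
      exact mul_ne_zero s41 s23 (by linear_combination -h))
    (by rw [sub_zero]; exact div_ne_zero n1 n4)
    (by rw [f2]; exact mul_ne_zero (div_ne_zero n2 n4) (div_ne_zero s41 s42))
    (by rw [f3]; exact mul_ne_zero (div_ne_zero n3 n4) (div_ne_zero s41 s43))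
    (fun q => by rw [sub_zero]; exact ((G.loc q).even_div (ev1 q) (ev4 q)).2)
    (fun q => by
      rw [f2]
      exact ((G.loc q).even_mul ((G.loc q).even_div (ev2 q) (ev4 q))
        (cst q (div_ne_zero s41 s42) (hc e4 e1 e4 e2 s42))).2)
    (fun q => by
      rw [f3]
      exact ((G.loc q).even_mul ((G.loc q).even_div (ev3 q) (ev4 q))
        (cst q (div_ne_zero s41 s43) (hc e4 e1 e4 e3 s43))).2)
  rw [G.toDer.D_div _ _ n4, e1, e4, div_eq_zero_iff] at key
  rcases key with h | h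
  · exact mul_ne_zero (mul_ne_zero (two_ne_zero) hε) s41 (by linear_combination h)
  · exact pow_ne_zero _ n4 h

theorem abel_J0 [CharZero K] (G : Glob K) (v : Fin 18 → K) (hv : Function.Injective v)
    {ε β : K} (hε : ε ≠ 0) (hD : ∀ i, G.D (v i) = -(ε * v i ^ 3 + β * v i)) : False := by
  classical
  let S := (univ : Finset (Fin 18)).filter fun i => v i ≠ 0
  have hS : 17 ≤ S.card := by
    have h1 := Finset.card_filter_add_card_filter_not (s := (univ : Finset (Fin 18)))
      (fun i => v i ≠ 0)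
    have h2 : (univ.filter fun i => ¬v i ≠ 0).card ≤ 1 := by
      refine Finset.card_le_one.2 fun i hi j hj => hv ?_
      rw [not_not.1 (mem_filter.1 hi).2, not_not.1 (mem_filter.1 hj).2]
    simp only [card_univ, Fintype.card_fin] at h1
    simp only [S]
    omega
  have h1 := Finset.card_le_mul_card_image (f := fun i => v i ^ 2) S 2 (fun a _ => by
    have : ((S.filter fun i => v i ^ 2 = a).image v).card ≤ 2 := by
      rcases (S.filter fun i => v i ^ 2 = a).eq_empty_or_nonempty with h | ⟨i, hi⟩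
      · simp [h]
      · refine le_trans (Finset.card_le_card (t := {v i, -v i}) fun z hz => ?_)
          Finset.card_le_two
        obtain ⟨j, hj, rfl⟩ := mem_image.1 hz
        have := sq_eq_sq_iff_eq_or_eq_neg.1
          ((mem_filter.1 hj).2.trans (mem_filter.1 hi).2.symm)
        simpa using this
    rwa [Finset.card_image_of_injective _ hv] at this)
  obtain ⟨a, b, c, d, ha, hb, hc, hd, hab, hac, had, hbc, hbd, hcd⟩ :=
    Finset.three_lt_card_iff.1 (show 3 < (S.image fun i => v i ^ 2).card by omega)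
  obtain ⟨i1, m1, rfl⟩ := mem_image.1 ha
  obtain ⟨i2, m2, rfl⟩ := mem_image.1 hb
  obtain ⟨i3, m3, rfl⟩ := mem_image.1 hc
  obtain ⟨i4, m4, rfl⟩ := mem_image.1 hd
  exact bernoulli G hε (mem_filter.1 m1).2 (mem_filter.1 m2).2 (mem_filter.1 m3).2
    (mem_filter.1 m4).2 hab hac had hbc hbd hcd (hD _) (hD _) (hD _) (hD _)

theorem abel [CharZero K] (G : Glob K) (v : Fin 18 → K) (hv : Function.Injective v)
    {c0 c1 c2 c3 : K} (h3 : c3 ≠ 0)
    (hD : ∀ i, G.D (v i) = c3 * v i ^ 3 + c2 * v i ^ 2 + c1 * v i + c0)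
    (he : ∀ q i j k l, i ≠ j → i ≠ k → i ≠ l → j ≠ k → j ≠ l → k ≠ l →
      Even ((G.loc q).ord (v i - v j) + (G.loc q).ord (v k - v l) - (G.loc q).ord (v i - v k) -
        (G.loc q).ord (v j - v l))) : False := by
  set h := c2 / (3 * c3) with hh
  have hc2 : c2 = 3 * c3 * h := by rw [hh]; field_simp
  have hz : ∀ i, G.D (v i + h) = -(-c3 * (v i + h) ^ 3 + -(c1 - 3 * c3 * h ^ 2) * (v i + h) +
      -(G.D h + c0 - c1 * h + 2 * c3 * h ^ 3)) := by
    intro i
    rw [G.toDer.D_add, hD, hc2]; ring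
  have hi : Function.Injective fun i => v i + h := fun i j hij => hv (add_right_cancel hij)
  by_cases hJ : -(G.D h + c0 - c1 * h + 2 * c3 * h ^ 3) = 0
  · refine abel_J0 G _ hi (neg_ne_zero.2 h3) (β := -(c1 - 3 * c3 * h ^ 2)) fun i => ?_
    rw [hz, hJ, add_zero]
  · refine abel_J G _ hi (neg_ne_zero.2 h3) hJ hz fun q i j k l => ?_
    simp only [add_sub_add_right_eq_sub]
    exact he q i j k l

end Pool.Agent.P.MP_7ede32_ag
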