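import Mathlib

namespace Pool.Agent.P.MP_7ede32_ag

open Finset Polynomial

variable {K : Type*} [Field K]

theorem vanish {ι : Type*} (x : ι → K) (hx : Function.Injective x) (S : Finset ι) (P : K[X])
    (h : ∀ i ∈ S, P.eval (x i) = 0) (hd : P.natDegree < S.card) : P = 0 := by
  classical
  refine Polynomial.eq_zero_of_natDegree_lt_card_of_eval_eq_zero' P (S.image x) ?_ ?_
  · intro z hz
    obtain ⟨i, hi, rfl⟩ := mem_image.1 hz
    exact h i hi
  · rwa [Finset.card_image_of_injective _ hx]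

theorem few_roots {ι : Type*} (x : ι → K) (hx : Function.Injective x) (S : Finset ι) (P : K[X])
    (hP : P ≠ 0) : ∃ T ⊆ S, S.card ≤ T.card + P.natDegree ∧ ∀ i ∈ T, P.eval (x i) ≠ 0 := by
  classical
  refine ⟨S.filter fun i => P.eval (x i) ≠ 0, filter_subset _ _, ?_,
    fun i hi => (mem_filter.1 hi).2⟩
  have h1 := Finset.card_filter_add_card_filter_not (s := S) (fun i => P.eval (x i) ≠ 0)
  have h2 : (S.filter fun i => ¬P.eval (x i) ≠ 0).card ≤ P.natDegree := by
    by_contra h
    exact hP (vanish x hx _ P (fun i hi => not_not.1 (mem_filter.1 hi).2) (not_le.1 h))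
  omega

theorem deg_mul {P Q : K[X]} {a b : ℕ} (hP : P.natDegree ≤ a) (hQ : Q.natDegree ≤ b) {n : ℕ}
    (h : a + b ≤ n) : (P * Q).natDegree ≤ n :=
  (natDegree_mul_le_of_le hP hQ).trans h

theorem deg_add {P Q : K[X]} {n : ℕ} (hP : P.natDegree ≤ n) (hQ : Q.natDegree ≤ n) :
    (P + Q).natDegree ≤ n := (natDegree_add_le _ _).trans (max_le hP hQ)

theorem deg_sub {P Q : K[X]} {n : ℕ} (hP : P.natDegree ≤ n) (hQ : Q.natDegree ≤ n) :
    (P - Q).natDegree ≤ n := (natDegree_sub_le _ _).trans (max_le hP hQ)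

theorem deg_C (c : K) : (C c).natDegree ≤ 0 := (natDegree_C c).le

theorem zero_bound {ι : Type*} (x w : ι → K) (hx : Function.Injective x) (c : K)
    (Q R A B E : K[X]) (hQ : Q.natDegree ≤ 2) (hR : R.natDegree ≤ 3) (hA : A.natDegree ≤ 1)
    (hB : B.natDegree ≤ 3) (hE : E.natDegree ≤ 5) (S : Finset ι) (hS : 11 ≤ S.card)
    (hF : ∀ i ∈ S, c * w i ^ 2 + Q.eval (x i) * w i + R.eval (x i) = 0)
    (hG : ∀ i ∈ S, A.eval (x i) * w i ^ 2 + B.eval (x i) * w i + E.eval (x i) = 0)
    (hc : c ≠ 0 ∨ (c = 0 ∧ Q.natDegree = 2 ∧ IsCoprime Q R)) :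
    (∃ H : K[X], H.natDegree ≤ 1 ∧ A = H * C c ∧ B = H * Q ∧ E = H * R) ∨
      ∃ q : K[X], q.natDegree ≤ 2 ∧ ∃ T ⊆ S, 4 ≤ T.card ∧ ∀ i ∈ T, w i = q.eval (x i) := by
  rcases hc with hc | ⟨hc, hQ2, hcop⟩
  · set H := A * C c⁻¹ with hH
    have hHd : H.natDegree ≤ 1 := deg_mul hA (deg_C _) le_rfl
    have hA' : A = H * C c := by
      rw [hH, mul_assoc, ← C_mul, inv_mul_cancel₀ hc, C_1, mul_one]
    set B' := B - H * Q with hB'
    set E' := E - H * R with hE'
    have hB'd : B'.natDegree ≤ 3 := deg_sub hB (deg_mul hHd hQ le_rfl)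
    have hE'd : E'.natDegree ≤ 5 := deg_sub hE (deg_mul hHd hR (by norm_num))
    have h1 : ∀ i ∈ S, B'.eval (x i) * w i + E'.eval (x i) = 0 := by
      intro i hi
      have e1 := hF i hi
      have e2 := hG i hi
      rw [hA'] at e2
      simp only [hB', hE', eval_sub, eval_mul, eval_C] at e2 ⊢
      linear_combination e2 - H.eval (x i) * e1
    have hN : C c * (E' * E') - Q * (B' * E') + R * (B' * B') = 0 := by
      refine vanish x hx S _ (fun i hi => ?_) (lt_of_le_of_lt (b := 10) ?_ (by omega))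
      · have e1 := hF i hi
        have e2 := h1 i hi
        simp only [eval_add, eval_sub, eval_mul, eval_C]
        linear_combination B'.eval (x i) ^ 2 * e1 +
          (c * (E'.eval (x i) - B'.eval (x i) * w i) - Q.eval (x i) * B'.eval (x i)) * e2
      · exact deg_add (deg_sub (deg_mul (deg_C _) (deg_mul hE'd hE'd le_rfl) le_rfl)
          (deg_mul hQ (deg_mul hB'd hE'd le_rfl) le_rfl))
          (deg_mul hR (deg_mul hB'd hB'd le_rfl) (by norm_num))
    by_cases hB0 : B' = 0
    · left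
      refine ⟨H, hHd, hA', sub_eq_zero.1 hB0, sub_eq_zero.1 ?_⟩
      rw [hB0] at hN
      simp only [zero_mul, mul_zero, sub_zero, add_zero] at hN
      exact mul_self_eq_zero.1 ((mul_eq_zero.1 hN).resolve_left (C_ne_zero.2 hc))
    right
    obtain ⟨b, e, d, hbe, hb, he⟩ := UniqueFactorizationMonoid.exists_reduced_factors B' hB0 E'
    have hd0 : d ≠ 0 := by rintro rfl; exact hB0 (by rw [← hb, zero_mul])
    have h2 : C c * (e * e) - Q * (b * e) + R * (b * b) = 0 := by
      apply mul_left_cancel₀ (mul_ne_zero hd0 hd0)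
      rw [mul_zero, ← hN, ← hb, ← he]; ring
    have h3 : IsUnit b := by
      have h4 : b ∣ C c * e * e := ⟨Q * e - R * b, by linear_combination h2⟩
      exact isUnit_of_dvd_unit (hbe.dvd_of_dvd_mul_right (hbe.dvd_of_dvd_mul_right h4))
        (isUnit_C.2 hc.isUnit)
    obtain ⟨u, rfl⟩ := h3
    set q : K[X] := -(e * ↑u⁻¹) with hq
    have h5 : E' = -(B' * q) := by
      rw [hq, ← hb, ← he, mul_neg, neg_neg, mul_assoc, mul_left_comm (u : K[X]), Units.mul_inv,
        mul_one]
    have h6 : C c * (q * q) = -(Q * q + R) := by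
      apply mul_left_cancel₀ (mul_ne_zero hB0 hB0)
      rw [h5] at hN
      linear_combination hN
    obtain ⟨T, hT, hT1, hT2⟩ := few_roots x hx S B' hB0
    refine ⟨q, ?_, T, hT, by omega, fun i hi => ?_⟩
    · by_contra h7
      have hq0 : q ≠ 0 := by rintro h; rw [h] at h7; simp at h7
      have h8 := congrArg natDegree h6
      rw [natDegree_C_mul hc, natDegree_mul hq0 hq0, natDegree_neg (Q * q + R)] at h8
      have h9 : (Q * q + R).natDegree ≤ q.natDegree + 2 :=
        deg_add (deg_mul hQ le_rfl (by omega)) (by omega)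
      omega
    · have e2 := h1 i (hT hi)
      rw [h5] at e2
      simp only [eval_neg, eval_mul] at e2
      apply mul_left_cancel₀ (hT2 i hi)
      linear_combination e2
  · left
    subst hc
    have hQ0 : Q ≠ 0 := by rintro rfl; simp at hQ2
    have hN : A * (R * R) - B * (R * Q) + E * (Q * Q) = 0 := by
      refine vanish x hx S _ (fun i hi => ?_) (lt_of_le_of_lt (b := 9) ?_ (by omega))
      · have e1 := hF i hi
        have e2 := hG i hi
        simp only [eval_add, eval_sub, eval_mul]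
        linear_combination Q.eval (x i) ^ 2 * e2 +
          (A.eval (x i) * (R.eval (x i) - Q.eval (x i) * w i) - Q.eval (x i) * B.eval (x i)) * e1
      · exact deg_add (deg_sub (deg_mul hA (deg_mul hR hR le_rfl) (by norm_num))
          (deg_mul hB (deg_mul hR hQ le_rfl) (by norm_num)))
          (deg_mul hE (deg_mul hQ hQ le_rfl) (by norm_num))
    have hA0 : A = 0 := by
      have h4 : Q ∣ A * R * R := ⟨B * R - E * Q, by linear_combination hN⟩
      exact Polynomial.eq_zero_of_dvd_of_natDegree_lt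
        (hcop.dvd_of_dvd_mul_right (hcop.dvd_of_dvd_mul_right h4)) (by omega)
    have h1 : B * R = Q * E := by
      apply mul_left_cancel₀ hQ0
      rw [hA0] at hN
      linear_combination -hN
    obtain ⟨H, hH⟩ : Q ∣ B := hcop.dvd_of_dvd_mul_right ⟨E, h1⟩
    refine ⟨H, ?_, by simp [hA0], by rw [hH, mul_comm], ?_⟩
    · by_cases h0 : H = 0
      · simp [h0]
      · rw [hH, natDegree_mul hQ0 h0] at hB
        omega
    · apply mul_left_cancel₀ hQ0
      rw [← h1, hH]; ring

theorem greedy {ι : Type*} [DecidableEq ι] (v : ι → Fin 12 → K) (pool : Finset ι)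
    (h67 : 67 ≤ pool.card)
    (hZ : ∀ T ⊆ pool, T.card ≤ 9 → ∃ g : Fin 12 → K, (∀ i ∈ T, g ⬝ᵥ v i = 0) ∧
      ∀ Z ⊆ pool, (∀ i ∈ Z, g ⬝ᵥ v i = 0) → Z.card ≤ 10) (k : ℕ) (hk : k ≤ 12) :
    ∃ S ⊆ pool, S.card = k ∧ ∀ T ⊆ S, T.card ≤ 10 → ∀ l : ι → K,
      ∑ i ∈ T, l i • v i = 0 → ∀ i ∈ T, l i = 0 := by
  classical
  induction k with
  | zero =>
    refine ⟨∅, empty_subset _, rfl, fun T hT _ l _ i hi => ?_⟩
    exact absurd (hT hi) (notMem_empty i)
  | succ k ih =>
    obtain ⟨S, hS, hSc, hI⟩ := ih (by omega)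
    choose! g hg using hZ
    set m := min 9 k with hm
    let Z : Finset ι → Finset ι := fun T => pool.filter fun i => g T ⬝ᵥ v i = 0
    have h1 : (S ∪ (S.powersetCard m).biUnion fun T => Z T \ T).card < pool.card := by
      have h2 : ((S.powersetCard m).biUnion fun T => Z T \ T).card ≤
          (S.powersetCard m).card * (10 - m) := by
        refine Finset.card_biUnion_le_card_mul _ _ _ fun T hT => ?_
        obtain ⟨h3, h4⟩ := mem_powersetCard.1 hT
        obtain ⟨h5, h6⟩ := hg T (h3.trans hS) (by omega)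
        have h7 := h6 (Z T) (filter_subset _ _) fun i hi => (mem_filter.1 hi).2
        have h8 : T ⊆ Z T := fun i hi => mem_filter.2 ⟨hS (h3 hi), h5 i hi⟩
        rw [Finset.card_sdiff_of_subset h8]
        omega
      rw [card_powersetCard, hSc] at h2
      have h3 : k + k.choose m * (10 - m) ≤ 66 := by
        have : k ≤ 11 := by omega
        rw [hm]
        interval_cases k <;> decide
      have := Finset.card_union_le S ((S.powersetCard m).biUnion fun T => Z T \ T)
      omega
    obtain ⟨P, hP, hP1⟩ := Finset.exists_mem_notMem_of_card_lt_card h1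
    simp only [mem_union, not_or, mem_biUnion, not_exists, not_and] at hP1
    refine ⟨insert P S, insert_subset hP hS, by rw [card_insert_of_notMem hP1.1, hSc],
      fun T hT hT10 l hl => ?_⟩
    by_cases hPT : P ∈ T
    · have h2 : T.erase P ⊆ S := fun i hi =>
        (mem_insert.1 (hT (mem_of_mem_erase hi))).resolve_left (ne_of_mem_erase hi)
      have h3 := Finset.card_erase_of_mem hPT
      have h4 := Finset.card_le_card h2
      obtain ⟨U, hU1, hU2, hU3⟩ := Finset.exists_subsuperset_card_eq (n := m) h2 (by omega)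
        (by omega)
      obtain ⟨h5, _⟩ := hg U (hU2.trans hS) (by omega)
      have h6 : g U ⬝ᵥ v P ≠ 0 := fun h => hP1.2 U (mem_powersetCard.2 ⟨hU2, hU3⟩)
        (mem_sdiff.2 ⟨mem_filter.2 ⟨hP, h⟩, fun h' => hP1.1 (hU2 h')⟩)
      rw [← Finset.add_sum_erase _ _ hPT] at hl
      have h7 : l P = 0 := by
        have := congrArg (fun z => g U ⬝ᵥ z) hl
        simp only [dotProduct_add, dotProduct_sum, dotProduct_smul, dotProduct_zero,
          smul_eq_mul] at this
        rw [Finset.sum_eq_zero fun i hi => by rw [h5 i (hU1 hi), mul_zero], add_zero] at this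
        exact (mul_eq_zero.1 this).resolve_right h6
      rw [h7, zero_smul, zero_add] at hl
      intro i hi
      by_cases hiP : i = P
      · rw [hiP, h7]
      · exact hI _ h2 (by omega) l hl i (mem_erase.2 ⟨hiP, hi⟩)
    · exact hI T (fun i hi => (mem_insert.1 (hT hi)).resolve_left fun h => hPT (h ▸ hi))
        hT10 l hl

theorem exists_ann {ι : Type*} {n : ℕ} (v : ι → Fin n → K)
    (h : ∀ e : Fin n → ι, Function.Injective e → (Matrix.of fun i => v (e i)).det = 0) :
    ∃ f : Fin n → K, f ≠ 0 ∧ ∀ i, f ⬝ᵥ v i = 0 := by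
  classical
  by_cases hsp : Submodule.span K (Set.range v) = ⊤
  · exfalso
    obtain ⟨κ, a, ha, h1, h2⟩ := exists_linearIndependent' K v
    rw [hsp] at h1
    let b := Module.Basis.mk h2 h1.ge
    have := Module.Finite.finite_basis b
    have := Fintype.ofFinite κ
    have h3 := Module.finrank_eq_card_basis b
    rw [Module.finrank_fin_fun] at h3
    let e := (Fintype.equivFinOfCardEq h3.symm).symm
    have h4 : LinearIndependent K (Matrix.of fun i => v (a (e i))).row :=
      h2.comp e e.injective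
    have h5 := (Matrix.isUnit_iff_isUnit_det _).1 (Matrix.linearIndependent_rows_iff_isUnit.1 h4)
    exact h5.ne_zero (h (a ∘ e) (ha.comp e.injective))
  · obtain ⟨f, hf, h1⟩ := Submodule.exists_le_ker_of_lt_top _ (lt_top_iff_ne_top.2 hsp)
    have h2 : ∀ z : Fin n → K, (fun i => f fun j => if i = j then 1 else 0) ⬝ᵥ z = f z := by
      intro z
      rw [LinearMap.pi_apply_eq_sum_univ f z, dotProduct]
      exact Finset.sum_congr rfl fun i _ => by rw [smul_eq_mul, mul_comm]
    refine ⟨fun i => f fun j => if i = j then 1 else 0, fun h0 => hf ?_, fun i => ?_⟩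
    · refine LinearMap.ext fun z => ?_
      rw [← h2, h0, zero_dotProduct]; rfl
    · rw [h2]
      exact h1 (Submodule.subset_span ⟨i, rfl⟩)

theorem exists_sol {κ : Type*} [Fintype κ] {n : ℕ} (r : κ → Fin n → K)
    (h : Fintype.card κ < n) : ∃ g : Fin n → K, g ≠ 0 ∧ ∀ i, g ⬝ᵥ r i = 0 := by
  have h1 : LinearMap.ker (Matrix.of r).mulVecLin ≠ ⊥ :=
    LinearMap.ker_ne_bot_of_finrank_lt (by simpa using h)
  obtain ⟨g, hg, hg0⟩ := Submodule.exists_mem_ne_zero_of_ne_bot h1
  refine ⟨g, hg0, fun i => ?_⟩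
  rw [dotProduct_comm]
  exact congrFun (LinearMap.mem_ker.1 hg) i

end Pool.Agent.P.MP_7ede32_ag
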