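import Pool.Agent.P.MP_7ede32_ag.SumQ

namespace Pool.Agent.P.MP_7ede32_ag

open Finset

variable {K : Type*} [Field K]

/-- all the determinants are nonzero -/
def Good (s w : Fin 12 → K) : Prop := ∀ a b c d, Dist a b c d → Theta a b c d s w ≠ 0

/-- the local invariant -/
noncomputable def Loc.del (L : Loc K) (s : Fin 12 → K) : ℤ :=
  sumQ (fun a b c d => L.ord (Theta a b c d s (fun i => L.D (s i)))) - 2520 * L.nu s

theorem Theta_affine' {a b c d : Fin 12} (hcd : c ≠ d) (s w : Fin 12 → K) (a0 b0 : K) {g : K}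
    (hg : g ≠ 0) (a1 b1 : K) :
    Theta a b c d (fun i => a0 * s i + b0) (fun i => g * w i + a1 * s i + b1) =
      a0 ^ 22 * g ^ 6 * Theta a b c d s w := by
  apply mul_left_cancel₀ (pow_ne_zero 2 hg)
  rw [Theta_affine hcd]; ring

theorem del_affine (L : Loc K) (s : Fin 12 → K) (hs : Function.Injective s)
    (hG : Good s (fun i => L.D (s i))) {a0 : K} (ha : a0 ≠ 0) (b0 : K) :
    Good (fun i => a0 * s i + b0) (fun i => L.D (a0 * s i + b0)) ∧
      L.del (fun i => a0 * s i + b0) = L.del s := by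
  have h1 : ∀ a b c d, Dist a b c d →
      Theta a b c d (fun i => a0 * s i + b0) (fun i => L.D (a0 * s i + b0)) =
        a0 ^ 28 * Theta a b c d s (fun i => L.D (s i)) := by
    intro a b c d h
    have := Theta_affine' (a := a) (b := b) h.2.2.2.2.2 s (fun i => L.D (s i)) a0 b0 ha
      (L.D a0) (L.D b0)
    rw [show a0 ^ 28 = a0 ^ 22 * a0 ^ 6 by ring, ← this]
    congr 1
    funext i
    rw [L.toDer.D_add, L.toDer.D_mul]; ring
  refine ⟨fun a b c d h => ?_, ?_⟩
  · rw [h1 a b c d h]; exact mul_ne_zero (pow_ne_zero _ ha) (hG a b c d h)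
  · unfold Loc.del
    rw [nu_affine L s hs ha, sumQ_congr (G := fun a b c d => 28 * L.ord a0 +
      L.ord (Theta a b c d s (fun i => L.D (s i)))), sumQ_add, sumQ_const]
    · push_cast; ring
    · intro a b c d h
      rw [h1 a b c d h, L.ord_mul _ _ (pow_ne_zero _ ha) (hG a b c d h), L.ord_pow ha]
      rfl

theorem del_inv (L : Loc K) (s : Fin 12 → K) (hs : Function.Injective s) (h0 : ∀ i, s i ≠ 0)
    (hG : Good s (fun i => L.D (s i))) :
    Good (fun i => (s i)⁻¹) (fun i => L.D (s i)⁻¹) ∧ L.del (fun i => (s i)⁻¹) = L.del s := by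
  have hJ : (J12.map (Int.cast : ℤ → K)).det ≠ 0 := by
    intro h
    have := J12_det_sq (K := K)
    rw [h] at this
    simp at this
  have hJo : L.ord (J12.map (Int.cast : ℤ → K)).det = 0 := by
    have := congrArg L.ord (J12_det_sq (K := K))
    rw [L.ord_pow hJ, L.ord_one] at this
    omega
  have hc : ∀ a b c d i : Fin 12,
      (if i = c ∨ i = d then -s (ptq a b c d i) ^ 3 else s (ptq a b c d i) ^ 5) ≠ 0 := by
    intro a b c d i
    split_ifs
    · exact neg_ne_zero.2 (pow_ne_zero _ (h0 _))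
    · exact pow_ne_zero _ (h0 _)
  have h1 := fun a b c d => Theta_inv a b c d s (fun i => L.D (s i)) h0
  simp only [← L.toDer.D_inv] at h1
  have h2 : Good (fun i => (s i)⁻¹) (fun i => L.D (s i)⁻¹) := by
    intro a b c d h h'
    have := h1 a b c d
    rw [h', mul_zero] at this
    exact mul_ne_zero hJ (hG a b c d h) this.symm
  refine ⟨h2, ?_⟩
  unfold Loc.del
  rw [nu_inv L s hs h0, sumQ_congr (G := fun a b c d =>
    (L.ord (Theta a b c d s (fun i => L.D (s i))) + -5 * ∑ i, L.ord (s i)) + -1 *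
      (3 * L.ord (s a) + 3 * L.ord (s b) - 5 * L.ord (s c) - 5 * L.ord (s d))),
    sumQ_add, sumQ_add, sumQ_mul (-1), sumQ_lin (fun i => L.ord (s i)), sumQ_const]
  · push_cast; ring
  · intro a b c d h
    have h3 := congrArg L.ord (h1 a b c d)
    rw [L.ord_mul _ _ hJ (hG a b c d h), hJo,
      L.ord_mul _ _ (Finset.prod_ne_zero_iff.2 fun i _ => hc a b c d i) (h2 a b c d h),
      L.ord_prod _ _ fun i _ => hc a b c d i] at h3
    have h4 := sum_ptq (a := a) (b := b) h.2.2.2.2.2
      (fun i j => (if i = c ∨ i = d then 3 else 5) * L.ord (s j))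
    have h5 : ∀ i, L.ord (if i = c ∨ i = d then -s (ptq a b c d i) ^ 3
        else s (ptq a b c d i) ^ 5) =
        (if i = c ∨ i = d then 3 else 5) * L.ord (s (ptq a b c d i)) := by
      intro i
      split_ifs
      · rw [L.ord_neg, L.ord_pow (h0 _)]; rfl
      · rw [L.ord_pow (h0 _)]; rfl
    have h6 : ∑ i, (if i = c ∨ i = d then 3 else 5) * L.ord (s i) =
        5 * ∑ i, L.ord (s i) - 2 * L.ord (s c) - 2 * L.ord (s d) := by
      have : ∀ i, (if i = c ∨ i = d then 3 else 5) * L.ord (s i) = 5 * L.ord (s i) -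
          (if i = c then 2 * L.ord (s c) else 0) - (if i = d then 2 * L.ord (s d) else 0) := by
        intro i
        by_cases h7 : i = c
        · subst h7; simp [h.2.2.2.2.2]; ring
        · by_cases h8 : i = d
          · subst h8; simp [h7]; ring
          · simp [h7, h8]
      simp only [this, Finset.sum_sub_distrib, sum_ite_eq', mem_univ, if_true, ← Finset.mul_sum]
    simp only [h5, h4, h6, true_or, or_true, if_true] at h3
    beta_reduce
    omega

theorem del_local0 [CharZero K] (L : Loc K) (y : Fin 12 → K) (hy : Function.Injective y)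
    (h0 : ∀ i, L.Ge 0 (y i)) (he : ∀ i j, i ≠ j → Even (L.ord (y i - y j)))
    (h6 : ∀ i, (univ.filter fun j => j = i ∨ 2 ≤ L.ord (y i - y j)).card ≤ 6)
    (hG : Good y (fun i => L.D (y i))) : 0 ≤ L.del y := by
  classical
  obtain ⟨lab, hlab⟩ := exists_lab L y
  obtain ⟨R, hR⟩ := nu_eq L y hy (fun i j => (h0 i).sub (h0 j)) he lab hlab
  have hc : ∀ r x, csz (lab (r + 1)) x ≤ 6 := by
    intro r x
    unfold csz
    rcases (univ.filter fun i => lab (r + 1) i = x).eq_empty_or_nonempty with h | ⟨i, hi⟩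
    · rw [h]; simp
    · refine le_trans (Finset.card_le_card fun j hj => ?_) (h6 i)
      have h1 := (hlab (r + 1) i j).1 ((mem_filter.1 hi).2.trans (mem_filter.1 hj).2.symm)
      simp only [mem_filter, mem_univ, true_and]
      by_cases hji : j = i
      · exact Or.inl hji
      · have := h1.le (sub_ne_zero.2 fun h => hji (hy h).symm)
        push_cast at this
        exact Or.inr (by omega)
  unfold Loc.del
  rw [hR, sub_nonneg, Finset.mul_sum]
  refine le_trans (Finset.sum_le_sum fun r _ => level_gain (lab (r + 1)) (hc r)) ?_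
  rw [← sumQ_sum]
  refine sumQ_mono fun a b c d h => ?_
  exact (Theta_local0 L h.2.1 h.2.2.1 h.2.2.2.1 h.2.2.2.2.1 h.2.2.2.2.2 y h0 lab hlab R).le
    (hG a b c d h)

theorem exists_ball (L : Loc K) (x : Fin 12 → K)
    (he : ∀ i j, i ≠ j → Even (L.ord (x i - x j))) :
    ∃ (r : ℤ) (c : Fin 12), Even r ∧
      7 ≤ (univ.filter fun j => j = c ∨ r ≤ L.ord (x c - x j)).card ∧
      ∀ i, (univ.filter fun j => j = i ∨ r + 1 ≤ L.ord (x i - x j)).card ≤ 6 := by
  classical
  obtain ⟨B, hB⟩ := (Set.finite_range fun q : Fin 12 × Fin 12 => L.ord (x q.1 - x q.2)).bddAbove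
  obtain ⟨A, hA⟩ := (Set.finite_range fun q : Fin 12 × Fin 12 => L.ord (x q.1 - x q.2)).bddBelow
  obtain ⟨r, ⟨c, hc⟩, hmax⟩ := Int.exists_greatest_of_bdd
    (P := fun r => ∃ c, 7 ≤ (univ.filter fun j => j = c ∨ r ≤ L.ord (x c - x j)).card)
    ⟨B, fun r ⟨c, hc⟩ => by
      by_contra hlt
      have : (univ.filter fun j => j = c ∨ r ≤ L.ord (x c - x j)) ⊆ {c} := by
        intro j hj
        rcases (mem_filter.1 hj).2 with h | h
        · simp [h]
        · have := hB ⟨(c, j), rfl⟩
          simp only at this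
          omega
      have := Finset.card_le_card this
      simp only [card_singleton] at this
      omega⟩
    ⟨A, 0, by
      rw [Finset.filter_true_of_mem fun j _ => Or.inr (hA ⟨(0, j), rfl⟩)]
      simp⟩
  have h1 : ∀ i, (univ.filter fun j => j = i ∨ r + 1 ≤ L.ord (x i - x j)).card ≤ 6 := by
    intro i
    by_contra h
    have := hmax (r + 1) ⟨i, by omega⟩
    omega
  refine ⟨r, c, ?_, hc, h1⟩
  by_contra hodd
  have : (univ.filter fun j => j = c ∨ r ≤ L.ord (x c - x j)) ⊆
      (univ.filter fun j => j = c ∨ r + 1 ≤ L.ord (x c - x j)) := by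
    intro j hj
    simp only [mem_filter, mem_univ, true_and] at hj ⊢
    by_cases hjc : j = c
    · exact Or.inl hjc
    · have h2 := hj.resolve_left hjc
      have h3 := he c j (Ne.symm hjc)
      refine Or.inr (lt_of_le_of_ne h2 fun h => hodd ?_)
      rwa [h]
  have := Finset.card_le_card this
  have := h1 c
  omega

theorem exists_shift [CharZero K] (L : Loc K) (z : Fin 12 → K) :
    ∃ m : ℕ, ∀ i, z i - m ≠ 0 ∧ L.ord (z i - m) ≤ 0 := by
  classical
  by_contra h
  push Not at h
  have h1 : ∀ m : Fin 13, ∃ i, L.Ge 1 (z i - (m.val : K)) := by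
    intro m
    obtain ⟨i, hi⟩ := h m.val
    refine ⟨i, ?_⟩
    by_cases h0 : z i - (m.val : K) = 0
    · exact Or.inl h0
    · exact Or.inr (hi h0)
  choose f hf using h1
  obtain ⟨m, m', hne, hmm⟩ := Fintype.exists_ne_map_eq_of_card_lt f (by simp)
  have h2 := (hf m).sub (hmm ▸ hf m')
  have h3 : z (f m) - (m.val : K) - (z (f m) - (m'.val : K)) = (((m'.val : ℤ) - m.val : ℤ) : K) := by
    push_cast; ring
  have h4 : ((m'.val : ℤ) - m.val : ℤ) ≠ 0 := by
    intro h; apply hne; ext; omega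
  rw [h3] at h2
  have h5 := h2.le (by exact_mod_cast h4)
  rw [L.ord_int _ h4] at h5
  omega

theorem del_local [CharZero K] (L : Loc K) (x : Fin 12 → K) (hx : Function.Injective x)
    (he : ∀ i j, i ≠ j → Even (L.ord (x i - x j)))
    (hG : Good x (fun i => L.D (x i))) : 0 ≤ L.del x := by
  classical
  obtain ⟨r, c, hr, h7, h6⟩ := exists_ball L x he
  set a := L.p ^ (-r) with ha
  have ha0 : a ≠ 0 := zpow_ne_zero _ L.p_ne
  have hoa : L.ord a = -r := L.ord_p_zpow _
  obtain ⟨m, hm⟩ := exists_shift L (fun i => a * (x i - x c))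
  set z : Fin 12 → K := fun i => a * x i + (-(a * x c) - m) with hz
  have hz1 : ∀ i, z i = a * (x i - x c) - m := fun i => by simp only [hz]; ring
  have hz0 : ∀ i, z i ≠ 0 := fun i => by rw [hz1]; exact (hm i).1
  have hz2 : ∀ i, L.ord (z i) ≤ 0 := fun i => by rw [hz1]; exact (hm i).2
  have hd : ∀ i j, i ≠ j → x i - x j ≠ 0 := fun i j hij => sub_ne_zero.2 fun h => hij (hx h)
  have hzd : ∀ i j, z i - z j = a * (x i - x j) := fun i j => by simp only [hz]; ring
  have hzi : Function.Injective z := fun i j h => by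
    by_contra hij
    exact mul_ne_zero ha0 (hd i j hij) (by rw [← hzd, h, sub_self])
  have hin : ∀ j, (j = c ∨ r ≤ L.ord (x c - x j)) → L.ord (z j) = 0 := by
    intro j hj
    refine le_antisymm (hz2 j) (Loc.Ge.le ?_ (hz0 j))
    rw [hz1]
    refine Loc.Ge.sub ?_ (Loc.Ge.natCast m)
    rcases hj with h | h
    · exact Or.inl (by simp [h])
    · exact (Loc.Ge.self a).mul' (Loc.Ge.of_le (n := r) (by rwa [L.ord_sub_comm])) (by omega)
  have hev : ∀ j, Even (L.ord (z j)) := by
    intro j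
    by_cases hj : j = c ∨ r ≤ L.ord (x c - x j)
    · rw [hin j hj]; exact Even.zero
    · push Not at hj
      have h1 : L.ord (a * (x j - x c)) = -r + L.ord (x j - x c) := by
        rw [L.ord_mul _ _ ha0 (hd _ _ hj.1), hoa]
      have h2 := (Loc.ord_add_eq (L := L) (mul_ne_zero ha0 (hd _ _ hj.1)) (y := -(m : K))
        ((Loc.Ge.natCast m).neg.mono (by rw [h1, L.ord_sub_comm]; omega))).2
      rw [hz1, sub_eq_add_neg, h2, h1]
      exact hr.neg.add (he _ _ hj.1)
  obtain ⟨hG1, hd1⟩ := del_affine L x hx hG ha0 (-(a * x c) - m)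
  obtain ⟨hG2, hd2⟩ := del_inv L z hzi hz0 hG1
  rw [← hd1, ← hd2]
  have hord : ∀ i j, i ≠ j → L.ord ((z i)⁻¹ - (z j)⁻¹) =
      -r + L.ord (x i - x j) - L.ord (z i) - L.ord (z j) := by
    intro i j hij
    rw [inv_sub_inv (hz0 i) (hz0 j), hzd,
      L.ord_div (mul_ne_zero ha0 (hd _ _ hij.symm)) (mul_ne_zero (hz0 i) (hz0 j)),
      L.ord_mul _ _ (hz0 i) (hz0 j), L.ord_mul _ _ ha0 (hd _ _ hij.symm), hoa,
      L.ord_sub_comm (x j)]
    ring
  refine del_local0 L _ (fun i j h => hzi (inv_injective h))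
    (fun i => Loc.Ge.of_le (by rw [L.ord_inv (hz0 i)]; have := hz2 i; omega))
    (fun i j hij => by
      rw [hord i j hij]
      exact ((hr.neg.add (he i j hij)).sub (hev i)).sub (hev j)) (fun i => ?_) hG2
  by_contra hlt
  push Not at hlt
  obtain ⟨i0, hi0⟩ := Finset.inter_nonempty_of_card_lt_card_add_card (Finset.subset_univ _)
    (Finset.subset_univ _)
    (show (univ : Finset (Fin 12)).card <
      (univ.filter fun j => j = i ∨ 2 ≤ L.ord ((z i)⁻¹ - (z j)⁻¹)).card +
      (univ.filter fun j => j = c ∨ r ≤ L.ord (x c - x j)).card by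
        rw [card_univ, Fintype.card_fin]; omega)
  obtain ⟨hi1, hi2⟩ := Finset.mem_inter.1 hi0
  have hi3 := hin i0 (mem_filter.1 hi2).2
  have hge : ∀ j, (j = i ∨ 2 ≤ L.ord ((z i)⁻¹ - (z j)⁻¹)) → L.Ge 2 ((z i)⁻¹ - (z j)⁻¹) := by
    intro j hj
    rcases hj with h | h
    · exact Or.inl (by simp [h])
    · exact Or.inr h
  have : (univ.filter fun j => j = i ∨ 2 ≤ L.ord ((z i)⁻¹ - (z j)⁻¹)) ⊆
      (univ.filter fun j => j = i0 ∨ r + 1 ≤ L.ord (x i0 - x j)) := by
    intro j hj
    simp only [mem_filter, mem_univ, true_and]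
    by_cases hji : j = i0
    · exact Or.inl hji
    right
    have h1 := (hge j (mem_filter.1 hj).2).sub (hge i0 (mem_filter.1 hi1).2)
    rw [sub_sub_sub_cancel_left] at h1
    have h2 := (Loc.ord_add_eq (L := L) (inv_ne_zero (hz0 i0)) (y := -((z i0)⁻¹ - (z j)⁻¹))
      (h1.neg.mono (by rw [L.ord_inv (hz0 i0), hi3]; omega))).2
    rw [show (z i0)⁻¹ + -((z i0)⁻¹ - (z j)⁻¹) = (z j)⁻¹ by ring, L.ord_inv (hz0 i0),
      L.ord_inv (hz0 j)] at h2
    have h3 := h1.le (sub_ne_zero.2 fun h => hji (hzi (inv_injective h)).symm)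
    rw [hord _ _ (Ne.symm hji)] at h3
    omega
  have := Finset.card_le_card this
  have := h6 i0
  omega

theorem not_good [CharZero K] (G : Glob K) (x : Fin 12 → K) (hx : Function.Injective x)
    (he : ∀ q i j, i ≠ j → Even ((G.loc q).ord (x i - x j))) :
    ¬ Good x (fun i => G.D (x i)) := by
  intro hG
  have hP : (∏ i, ∏ j, if i = j then 1 else (x i - x j)) ≠ 0 :=
    Finset.prod_ne_zero_iff.2 fun i _ => Finset.prod_ne_zero_iff.2 fun j _ => by
      split_ifs with h
      · exact one_ne_zero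
      · exact sub_ne_zero.2 fun h' => h (hx h')
  have hT : ∀ q ∈ QS, Theta q.1 q.2.1 q.2.2.1 q.2.2.2 x (fun i => G.D (x i)) ≠ 0 :=
    fun q hq => hG _ _ _ _ (mem_QS hq)
  refine G.no_sec ((∏ q ∈ QS, Theta q.1 q.2.1 q.2.2.1 q.2.2.2 x (fun i => G.D (x i))) /
    (∏ i, ∏ j, if i = j then 1 else (x i - x j)) ^ 2520) 71280
    (div_ne_zero (Finset.prod_ne_zero_iff.2 hT) (pow_ne_zero _ hP)) (by norm_num) fun q => ?_
  have h1 : ∀ a b c d, Dist a b c d → Theta a b c d x (fun i => G.D (x i)) =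
      G.u q ^ 6 * Theta a b c d x (fun i => (G.loc q).D (x i)) := by
    intro a b c d h
    have := Theta_affine' (a := a) (b := b) h.2.2.2.2.2 x (fun i => (G.loc q).D (x i)) 1 0
      (G.u_ne q) 0 0
    simp only [one_mul, add_zero, zero_mul, one_pow] at this
    rw [← this]
    simp only [G.hD q]
  have hG' : Good x (fun i => (G.loc q).D (x i)) := by
    intro a b c d h h'
    exact hG a b c d h (by rw [h1 a b c d h, h', mul_zero])
  have h2 := del_local (G.loc q) x hx (he q) hG'
  rw [(G.loc q).ord_div (Finset.prod_ne_zero_iff.2 hT) (pow_ne_zero _ hP), (G.loc q).ord_pow hP,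
    ((G.loc q).ord_nuProd x hx).2, (G.loc q).ord_prod _ _ hT]
  have h3 : sumQ (fun a b c d => (G.loc q).ord (Theta a b c d x (fun i => G.D (x i)))) =
      sumQ (fun a b c d => 6 * (G.loc q).ord (G.u q) +
        (G.loc q).ord (Theta a b c d x (fun i => (G.loc q).D (x i)))) := by
    refine sumQ_congr fun a b c d h => ?_
    rw [h1 a b c d h, (G.loc q).ord_mul _ _ (pow_ne_zero _ (G.u_ne q)) (hG' a b c d h),
      (G.loc q).ord_pow (G.u_ne q)]
    rfl
  rw [sumQ_add, sumQ_const] at h3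
  unfold Loc.del at h2
  change _ ≤ sumQ (fun a b c d => (G.loc q).ord (Theta a b c d x (fun i => G.D (x i)))) - _
  rw [h3]
  push_cast
  omega

end Pool.Agent.P.MP_7ede32_ag
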