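import Pool.Agent.P.MP_7ede32_ag.Alg
import Pool.Agent.P.MP_7ede32_ag.ThetaG

namespace Pool.Agent.P.MP_7ede32_ag

open Finset Polynomial

variable {K : Type*} [Field K]

noncomputable def pQ (f : Fin 8 → K) : K[X] := C (f 4) + C (f 5) * X + C (f 6) * X ^ 2
noncomputable def pR (f : Fin 8 → K) : K[X] :=
  C (f 0) + C (f 1) * X + C (f 2) * X ^ 2 + C (f 3) * X ^ 3
noncomputable def pA (g : Fin 12 → K) : K[X] := C (g 10) + C (g 11) * X
noncomputable def pB (g : Fin 12 → K) : K[X] :=
  C (g 6) + C (g 7) * X + C (g 8) * X ^ 2 + C (g 9) * X ^ 3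
noncomputable def pE (g : Fin 12 → K) : K[X] :=
  C (g 0) + C (g 1) * X + C (g 2) * X ^ 2 + C (g 3) * X ^ 3 + C (g 4) * X ^ 4 + C (g 5) * X ^ 5

theorem pQ_deg (f : Fin 8 → K) : (pQ f).natDegree ≤ 2 := by unfold pQ; compute_degree
theorem pR_deg (f : Fin 8 → K) : (pR f).natDegree ≤ 3 := by unfold pR; compute_degree
theorem pA_deg (g : Fin 12 → K) : (pA g).natDegree ≤ 1 := by unfold pA; compute_degree
theorem pB_deg (g : Fin 12 → K) : (pB g).natDegree ≤ 3 := by unfold pB; compute_degree
theorem pE_deg (g : Fin 12 → K) : (pE g).natDegree ≤ 5 := by unfold pE; compute_degree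

theorem dot8 (f : Fin 8 → K) (s w : K) :
    f ⬝ᵥ mon8 s w = f 7 * w ^ 2 + (pQ f).eval s * w + (pR f).eval s := by
  simp [dotProduct, mon8, pQ, pR, Fin.sum_univ_succ]
  ring

theorem dot12 (g : Fin 12 → K) (s w : K) :
    g ⬝ᵥ mon12 s w = (pA g).eval s * w ^ 2 + (pB g).eval s * w + (pE g).eval s := by
  simp [dotProduct, mon12, pA, pB, pE, Fin.sum_univ_succ]
  ring

theorem dot12d (g : Fin 12 → K) (s w : K) :
    g ⬝ᵥ dmon12 s w = 2 * (pA g).eval s * w + (pB g).eval s := by
  simp [dotProduct, dmon12, pA, pB, Fin.sum_univ_succ]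
  ring

theorem f_eq_zero (f : Fin 8 → K) (h1 : f 7 = 0) (h2 : pQ f = 0) (h3 : pR f = 0) : f = 0 := by
  have q := fun n => congrArg (fun P => coeff P n) h2
  have r := fun n => congrArg (fun P => coeff P n) h3
  have q0 := q 0
  have q1 := q 1
  have q2 := q 2
  have r0 := r 0
  have r1 := r 1
  have r2 := r 2
  have r3 := r 3
  simp [pQ, pR, coeff_X, coeff_X_pow] at q0 q1 q2 r0 r1 r2 r3
  ext i
  fin_cases i <;> simp [*]

theorem g_eq_zero (g : Fin 12 → K) (h1 : pA g = 0) (h2 : pB g = 0) (h3 : pE g = 0) : g = 0 := by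
  have a := fun n => congrArg (fun P => coeff P n) h1
  have q := fun n => congrArg (fun P => coeff P n) h2
  have r := fun n => congrArg (fun P => coeff P n) h3
  have a0 := a 0
  have a1 := a 1
  have q0 := q 0
  have q1 := q 1
  have q2 := q 2
  have q3 := q 3
  have r0 := r 0
  have r1 := r 1
  have r2 := r 2
  have r3 := r 3
  have r4 := r 4
  have r5 := r 5
  simp [pA, pB, pE, coeff_X, coeff_X_pow] at a0 a1 q0 q1 q2 q3 r0 r1 r2 r3 r4 r5
  ext i
  fin_cases i <;> simp [*]

/-- the coefficients of the product of the relation with a linear factor -/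
def shiftF (f : Fin 8 → K) (e : K) : Fin 12 → K :=
  ![-e * f 0, f 0 - e * f 1, f 1 - e * f 2, f 2 - e * f 3, f 3, 0, -e * f 4, f 4 - e * f 5,
    f 5 - e * f 6, f 6, -e * f 7, f 7]

theorem shiftF_mon (f : Fin 8 → K) (e s w : K) :
    shiftF f e ⬝ᵥ mon12 s w = (s - e) * (f ⬝ᵥ mon8 s w) := by
  simp [dotProduct, mon12, mon8, shiftF, Fin.sum_univ_succ]
  ring

theorem shiftF_dmon (f : Fin 8 → K) (e s w : K) :
    shiftF f e ⬝ᵥ dmon12 s w = (s - e) * (2 * f 7 * w + (pQ f).eval s) := by
  simp [dotProduct, dmon12, pQ, shiftF, Fin.sum_univ_succ]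
  ring

theorem good_of_indep (f : Fin 8 → K) (s w : Fin 12 → K) (hs : Function.Injective s)
    (hF : ∀ i, f ⬝ᵥ mon8 (s i) (w i) = 0) (hw : ∀ i, 2 * f 7 * w i + (pQ f).eval (s i) ≠ 0)
    (hI : ∀ T : Finset (Fin 12), T.card ≤ 10 → ∀ l : Fin 12 → K,
      ∑ i ∈ T, l i • mon12 (s i) (w i) = 0 → ∀ i ∈ T, l i = 0) : Good s w := by
  intro a b c d ⟨hab, _, _, _, _, hcd⟩ h0
  rw [Theta, detM_apply] at h0
  obtain ⟨l, hl0, hl⟩ := Matrix.exists_vecMul_eq_zero_iff.2 h0
  rw [Matrix.vecMul_eq_sum] at hl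
  have hrow : ∀ i ∈ (univ.erase c).erase d,
      Matrix.of (rowq a b c d s w) i = mon12 (s i) (w i) := by
    intro i hi
    simp only [mem_erase, mem_univ, and_true] at hi
    change rowq a b c d s w i = _
    simp [rowq, ptq, hi.1, hi.2]
  have hc : Matrix.of (rowq a b c d s w) c = dmon12 (s a) (w a) := by
    change rowq a b c d s w c = _
    simp [rowq, ptq]
  have hd : Matrix.of (rowq a b c d s w) d = dmon12 (s b) (w b) := by
    change rowq a b c d s w d = _
    simp [rowq, ptq, hcd.symm]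
  rw [← Finset.add_sum_erase _ _ (mem_univ c),
    ← Finset.add_sum_erase _ _ (mem_erase.2 ⟨hcd.symm, mem_univ d⟩), hc, hd,
    Finset.sum_congr rfl fun i hi => by rw [hrow i hi]] at hl
  have key : ∀ e, l c * ((s a - e) * (2 * f 7 * w a + (pQ f).eval (s a))) +
      l d * ((s b - e) * (2 * f 7 * w b + (pQ f).eval (s b))) = 0 := by
    intro e
    have := congrArg (fun z => shiftF f e ⬝ᵥ z) hl
    simpa only [dotProduct_add, dotProduct_sum, dotProduct_smul, dotProduct_zero, smul_eq_mul,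
      shiftF_mon, shiftF_dmon, hF, mul_zero, Finset.sum_const_zero, add_zero] using this
  have hsab : s a - s b ≠ 0 := sub_ne_zero.2 fun h => hab (hs h)
  have hsba : s b - s a ≠ 0 := sub_ne_zero.2 fun h => hab (hs h).symm
  have hlc : l c = 0 := by
    have := key (s b)
    rw [sub_self, zero_mul, mul_zero, add_zero] at this
    exact (mul_eq_zero.1 this).resolve_right (mul_ne_zero hsab (hw a))
  have hld : l d = 0 := by
    have := key (s a)
    rw [sub_self, zero_mul, mul_zero, zero_add] at this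
    exact (mul_eq_zero.1 this).resolve_right (mul_ne_zero hsba (hw b))
  rw [hlc, hld, zero_smul, zero_smul, zero_add, zero_add] at hl
  have h1 := hI _ (by
    rw [Finset.card_erase_of_mem (mem_erase.2 ⟨hcd.symm, mem_univ d⟩),
      Finset.card_erase_of_mem (mem_univ c)]
    simp) l hl
  apply hl0
  ext i
  by_cases hic : i = c
  · rw [hic, hlc]; rfl
  by_cases hid : i = d
  · rw [hid, hld]; rfl
  exact h1 i (by simp [hic, hid])

theorem generic_case (x w : Fin 71 → K) (hx : Function.Injective x) (f : Fin 8 → K)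
    (hF : ∀ i, f ⬝ᵥ mon8 (x i) (w i) = 0)
    (hc : f 7 ≠ 0 ∨ (f 7 = 0 ∧ (pQ f).natDegree = 2 ∧ IsCoprime (pQ f) (pR f)))
    (pool : Finset (Fin 71)) (h67 : 67 ≤ pool.card)
    (hw : ∀ i ∈ pool, 2 * f 7 * w i + (pQ f).eval (x i) ≠ 0)
    (hG : ∀ e : Fin 12 → Fin 71, Function.Injective e →
      ¬Good (fun i => x (e i)) (fun i => w (e i))) :
    ∃ q : K[X], q.natDegree ≤ 2 ∧ ∃ T : Finset (Fin 71), 4 ≤ T.card ∧
      ∀ i ∈ T, w i = q.eval (x i) := by
  classical
  by_contra hR
  obtain ⟨a, ha, b, hb, hab⟩ := Finset.one_lt_card.1 (show 1 < pool.card by omega)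
  obtain ⟨S, hS, hS12, hI⟩ := greedy (fun i => mon12 (x i) (w i)) pool h67 (fun T hT hT9 => by
    obtain ⟨g, hg0, hg⟩ := exists_sol (K := K) (κ := T ⊕ Bool) (n := 12)
      (Sum.elim (fun i => mon12 (x i) (w i))
        (fun t => if t then dmon12 (x a) (w a) else dmon12 (x b) (w b)))
      (by simp; omega)
    refine ⟨g, fun i hi => hg (Sum.inl ⟨i, hi⟩), fun Z _ hZ => ?_⟩
    by_contra h11
    rcases zero_bound x w hx (f 7) (pQ f) (pR f) (pA g) (pB g) (pE g) (pQ_deg f) (pR_deg f)
      (pA_deg g) (pB_deg g) (pE_deg g) Z (by omega) (fun i _ => by rw [← dot8, hF])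
      (fun i hi => by rw [← dot12, hZ i hi]) hc with ⟨H, hH, h1, h2, h3⟩ | ⟨q, hq, U, _, hU⟩
    · have h4 : ∀ i ∈ pool, g ⬝ᵥ dmon12 (x i) (w i) = 0 → H.eval (x i) = 0 := by
        intro i hi h
        rw [dot12d, h1, h2] at h
        simp only [eval_mul, eval_C] at h
        exact (mul_eq_zero.1 (show H.eval (x i) * (2 * f 7 * w i + (pQ f).eval (x i)) = 0 by
          linear_combination h)).resolve_right (hw i hi)
      have h5 : H = 0 := by
        refine vanish x hx {a, b} H (fun i hi => ?_) (by rw [card_pair hab]; omega)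
        rcases mem_insert.1 hi with h | h
        · rw [h]; exact h4 a ha (hg (Sum.inr true))
        · rw [mem_singleton.1 h]; exact h4 b hb (hg (Sum.inr false))
      rw [h5, zero_mul] at h1 h2 h3
      exact hg0 (g_eq_zero g h1 h2 h3)
    · exact hR ⟨q, hq, U, hU⟩) 12 le_rfl
  let e := S.orderEmbOfFin hS12
  have he : ∀ i, e i ∈ S := S.orderEmbOfFin_mem hS12
  refine hG e e.injective (good_of_indep f _ _ (hx.comp e.injective) (fun i => hF _)
    (fun i => hw _ (hS (he i))) fun T hT l hl i hi => ?_)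
  have h1 := hI (T.image e) (fun j hj => by
      obtain ⟨i, _, rfl⟩ := mem_image.1 hj
      exact he i)
    (card_image_le.trans hT) (Function.extend e l 0)
    (by
      rw [Finset.sum_image fun i _ j _ h => e.injective h]
      simpa only [e.injective.extend_apply] using hl) (e i) (mem_image_of_mem _ hi)
  rwa [e.injective.extend_apply] at h1

theorem alg_main [CharZero K] (x w : Fin 71 → K) (hx : Function.Injective x)
    (h8 : ∀ e : Fin 8 → Fin 71, Function.Injective e →
      Delta8 (fun i => x (e i)) (fun i => w (e i)) = 0)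
    (hG : ∀ e : Fin 12 → Fin 71, Function.Injective e →
      ¬Good (fun i => x (e i)) (fun i => w (e i))) :
    (∃ q : K[X], q.natDegree ≤ 2 ∧ ∃ T : Finset (Fin 71), 4 ≤ T.card ∧
      ∀ i ∈ T, w i = q.eval (x i)) ∨
    ∃ B E : K[X], B ≠ 0 ∧ B.natDegree ≤ 1 ∧ E.natDegree ≤ 3 ∧ ∃ T : Finset (Fin 71),
      19 ≤ T.card ∧ ∀ i ∈ T, B.eval (x i) * w i + E.eval (x i) = 0 := by
  obtain ⟨f, hf0, hF⟩ := exists_ann (fun i => mon8 (x i) (w i)) fun e he => by
    rw [← detM_apply]; exact h8 e he
  have hF' : ∀ i, f 7 * w i ^ 2 + (pQ f).eval (x i) * w i + (pR f).eval (x i) = 0 :=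
    fun i => by rw [← dot8, hF]
  have hu : (univ : Finset (Fin 71)).card = 71 := by simp
  by_cases hc : f 7 = 0
  · have hQ0 : pQ f ≠ 0 := by
      intro h
      refine hf0 (f_eq_zero f hc h (vanish x hx univ _ (fun i _ => ?_) ?_))
      · simpa [hc, h] using hF' i
      · have := pR_deg f; omega
    by_cases h1 : (pQ f).natDegree ≤ 1
    · exact Or.inr ⟨pQ f, pR f, hQ0, h1, pR_deg f, univ, by omega,
        fun i _ => by simpa [hc] using hF' i⟩
    have h2 : (pQ f).natDegree = 2 := by have := pQ_deg f; omega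
    by_cases h3 : IsCoprime (pQ f) (pR f)
    · obtain ⟨T, _, hT1, hT2⟩ := few_roots x hx univ (pQ f) hQ0
      exact Or.inl (generic_case x w hx f hF (Or.inr ⟨hc, h2, h3⟩) T (by omega)
        (fun i hi => by simpa [hc] using hT2 i hi) hG)
    · right
      obtain ⟨b, e, d, hbe, hb, he⟩ :=
        UniqueFactorizationMonoid.exists_reduced_factors (pQ f) hQ0 (pR f)
      have hd0 : d ≠ 0 := by rintro rfl; exact hQ0 (by rw [← hb, zero_mul])
      have hb0 : b ≠ 0 := by rintro rfl; exact hQ0 (by rw [← hb, mul_zero])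
      have hdu : ¬IsUnit d := by
        intro hu
        apply h3
        rw [← hb, ← he]
        exact (isCoprime_mul_unit_left hu _ _).2 (isRelPrime_iff_isCoprime.1 hbe)
      have hd1 : 0 < d.natDegree :=
        natDegree_pos_iff_degree_pos.2 (Polynomial.degree_pos_of_ne_zero_of_nonunit hd0 hdu)
      have h4 : d.natDegree + b.natDegree = 2 := by rw [← natDegree_mul hd0 hb0, hb, h2]
      obtain ⟨T, _, hT1, hT2⟩ := few_roots x hx univ d hd0
      refine ⟨b, e, hb0, by omega, ?_, T, by omega, fun i hi => ?_⟩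
      · by_cases he0 : e = 0
        · simp [he0]
        · have := pR_deg f
          rw [← he, natDegree_mul hd0 he0] at this
          omega
      · have := hF' i
        rw [← hb, ← he, hc] at this
        simp only [eval_mul] at this
        apply mul_left_cancel₀ (hT2 i hi)
        linear_combination this
  · left
    set P := pQ f * pQ f - C (4 * f 7) * pR f with hP
    have hPe : ∀ i, P.eval (x i) = (2 * f 7 * w i + (pQ f).eval (x i)) ^ 2 := by
      intro i
      simp only [hP, eval_sub, eval_mul, eval_C]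
      linear_combination -4 * f 7 * hF' i
    by_cases hP0 : P = 0
    · refine ⟨C (-(2 * f 7)⁻¹) * pQ f, deg_mul (deg_C _) (pQ_deg f) le_rfl, univ, by omega,
        fun i _ => ?_⟩
      have h1 := hPe i
      rw [hP0, eval_zero] at h1
      have h2 := pow_eq_zero_iff (two_ne_zero) |>.1 h1.symm
      simp only [eval_mul, eval_C]
      field_simp
      linear_combination h2
    · obtain ⟨T, _, hT1, hT2⟩ := few_roots x hx univ P hP0
      have hPd : P.natDegree ≤ 4 := deg_sub (deg_mul (pQ_deg f) (pQ_deg f) le_rfl)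
        (deg_mul (deg_C _) (pR_deg f) (by norm_num))
      exact generic_case x w hx f hF (Or.inl hc) T (by omega)
        (fun i hi h => hT2 i hi (by rw [hPe, h]; simp)) hG

end Pool.Agent.P.MP_7ede32_ag
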