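import Pool.Agent.P.MP_7ede32_ag.RatF

open Pool.Agent.P.MP_7ede32_ag

/-- Every `k(t)`-point of the variety `y i j ^ 2 + y j l ^ 2 = y i l ^ 2` (`i < j < l`, at least
71 indices) with all coordinates nonzero is a constant point of projective space. -/
theorem Pool.Agent.P.MP_7ede32_ag.braidCover
    {k : Type*} [Field k] [IsAlgClosed k] [CharZero k] {n : ℕ} (hn : 71 ≤ n)
    (y : Fin n → Fin n → RatFunc k) (hy0 : ∀ i j, i < j → y i j ≠ 0)
    (hy : ∀ i j l, i < j → j < l → y i j ^ 2 + y j l ^ 2 = y i l ^ 2) :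
    ∃ (a : RatFunc k) (c : Fin n → Fin n → k), ∀ i j, i < j → y i j = a * RatFunc.C (c i j) := by
  classical
  have h0 : 0 < n := by omega
  set z : Fin n := ⟨0, h0⟩ with hz
  let x : Fin n → RatFunc k := fun i => if i = z then 0 else y z i ^ 2
  have hzl : ∀ j : Fin n, j ≠ z → z < j := fun j hj =>
    lt_of_le_of_ne (Nat.zero_le _) (Ne.symm hj)
  have hx : ∀ i j, i < j → x j - x i = y i j ^ 2 := by
    intro i j hij
    have hj : j ≠ z := fun h => Nat.not_lt_zero _ (h ▸ hij : i < z)
    by_cases hi : i = z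
    · simp [x, hi, hj]
    · simp only [x, hi, hj, if_false]
      linear_combination -hy z i j (hzl i hi) hij
  have hinj : Function.Injective x := by
    intro i j h
    by_contra hne
    rcases lt_or_gt_of_ne hne with hij | hij
    · exact pow_ne_zero 2 (hy0 i j hij) (by rw [← hx i j hij, h, sub_self])
    · exact pow_ne_zero 2 (hy0 j i hij) (by rw [← hx j i hij, h, sub_self])
  obtain ⟨i1, i2, h12, h⟩ := main_glob (globR k) hn x hinj (fun q i j hne => by
    rcases lt_or_gt_of_ne hne with hij | hij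
    · rw [Loc.ord_sub_comm, hx i j hij, Loc.ord_pow _ (hy0 i j hij)]
      exact even_two_mul _
    · rw [hx j i hij, Loc.ord_pow _ (hy0 j i hij)]
      exact even_two_mul _)
  have hd : x i2 - x i1 ≠ 0 := sub_ne_zero.2 fun h' => h12 (hinj h').symm
  have h1 : ∀ i j, i < j → (derR k).D (y i j ^ 2 / (x i2 - x i1)) = 0 := by
    intro i j hij
    have e : y i j ^ 2 / (x i2 - x i1) =
        (x j - x i1) / (x i2 - x i1) - (x i - x i1) / (x i2 - x i1) := by
      rw [← hx i j hij]; ring
    rw [e, Der.D_sub]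
    exact sub_eq_zero.2 ((h j).trans (h i).symm)
  let o : Fin n := ⟨1, by omega⟩
  have hzo : z < o := Nat.zero_lt_one
  have ha := hy0 z o hzo
  have h2 : ∀ i j, ∃ c : k, i < j → y i j = y z o * RatFunc.C c := by
    intro i j
    by_cases hij : i < j
    · have hb := hy0 i j hij
      have e : (y i j / y z o) ^ 2 =
          (y i j ^ 2 / (x i2 - x i1)) / (y z o ^ 2 / (x i2 - x i1)) := by
        field_simp
      have h3 : (derR k).D ((y i j / y z o) ^ 2) = 0 := by
        rw [e, Der.D_div _ _ _ (div_ne_zero (pow_ne_zero 2 ha) hd), h1 i j hij, h1 z o hzo]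
        simp
      rw [Der.D_sq] at h3
      obtain ⟨c, hc⟩ := const_of_dR ((mul_eq_zero.1 h3).resolve_left
        (mul_ne_zero two_ne_zero (div_ne_zero hb ha)))
      exact ⟨c, fun _ => by rw [← hc]; field_simp⟩
    · exact ⟨0, fun h => absurd h hij⟩
  choose c hc using h2
  exact ⟨y z o, c, hc⟩
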