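import Pool.Agent.P.MP_7ede32_ag.NSys

namespace Pool.Agent.P.MP_7ede32_ag.N

open Filter Topology

theorem cd_iff {p : ℂ → Prop} : (∀ᶠ z in codiscrete ℂ, p z) ↔ ∀ x, ∀ᶠ z in 𝓝[≠] x, p z := by
  rw [Filter.Eventually, codiscrete, mem_codiscreteWithin_iff_forall_mem_nhdsNE]
  simp [Filter.Eventually]

theorem cd_deriv {f g : ℂ → ℂ} (h : f =ᶠ[codiscrete ℂ] g) : deriv f =ᶠ[codiscrete ℂ] deriv g :=
  cd_iff.2 fun x => EventuallyEq.nhdsNE_deriv (cd_iff.1 h x)

theorem cd_analytic {f : ℂ → ℂ} (h : Meromorphic f) : ∀ᶠ z in codiscrete ℂ, AnalyticAt ℂ f z :=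
  (meromorphicOn_univ.2 h).analyticAt_mem_codiscreteWithin

theorem cd_eq {f g : ℂ → ℂ} (hf : Continuous f) (hg : Continuous g)
    (h : f =ᶠ[codiscrete ℂ] g) : f = g :=
  funext fun x => tendsto_nhds_unique_of_eventuallyEq
    (hf.continuousAt.tendsto.mono_left nhdsWithin_le_nhds)
    (hg.continuousAt.tendsto.mono_left nhdsWithin_le_nhds) (cd_iff.1 h x)

/-- germs of meromorphic functions -/
def merS : Subring (Germ (codiscrete ℂ) ℂ) where
  carrier := {g | ∃ f : ℂ → ℂ, Meromorphic f ∧ (f : Germ (codiscrete ℂ) ℂ) = g}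
  mul_mem' := by
    rintro _ _ ⟨f, hf, rfl⟩ ⟨g, hg, rfl⟩
    exact ⟨f * g, hf.mul hg, rfl⟩
  one_mem' := ⟨fun _ => 1, Meromorphic.const 1, rfl⟩
  add_mem' := by
    rintro _ _ ⟨f, hf, rfl⟩ ⟨g, hg, rfl⟩
    exact ⟨f + g, hf.add hg, rfl⟩
  zero_mem' := ⟨fun _ => 0, Meromorphic.const 0, rfl⟩
  neg_mem' := by
    rintro _ ⟨f, hf, rfl⟩
    exact ⟨-f, hf.neg, rfl⟩

theorem ne_top_of_ne {f : ℂ → ℂ} (hf : Meromorphic f) (h : ¬f =ᶠ[codiscrete ℂ] 0) (z : ℂ) :
    meromorphicOrderAt f z ≠ ⊤ := by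
  refine hf.exists_meromorphicOrderAt_ne_top_iff_forall.1 ?_ z
  by_contra h1
  push Not at h1
  exact h (cd_iff.2 fun x => meromorphicOrderAt_eq_top_iff.1 (h1 x))

theorem merS_isField : IsField merS where
  exists_pair_ne := ⟨0, 1, fun h => by
    have h1 : (fun _ : ℂ => (0 : ℂ)) =ᶠ[codiscrete ℂ] fun _ => 1 :=
      Germ.coe_eq.1 (congrArg Subtype.val h)
    simpa using congrFun (cd_eq continuous_const continuous_const h1) 0⟩
  mul_comm := mul_comm
  mul_inv_cancel := by
    rintro ⟨_, f, hf, rfl⟩ h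
    refine ⟨⟨_, f⁻¹, hf.inv, rfl⟩, Subtype.ext (Germ.coe_eq.2 ?_)⟩
    have h1 := (meromorphicOn_univ.2 hf).eventually_codiscreteWithin_apply_ne_zero
      fun z _ => ne_top_of_ne hf (fun h' => h (Subtype.ext (Germ.coe_eq.2 h'))) z
    filter_upwards [h1] with z hz
    exact mul_inv_cancel₀ hz

/-- the field of meromorphic functions on the plane -/
def Mer : Type := merS

noncomputable instance : CommRing Mer := inferInstanceAs (CommRing merS)

noncomputable instance : Field Mer := IsField.toField (R := Mer) merS_isField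

namespace Mer

/-- the germ -/
noncomputable def ev : Mer →+* Germ (codiscrete ℂ) ℂ := merS.subtype

theorem ev_inj : Function.Injective ev := Subtype.val_injective

noncomputable def rep (f : Mer) : ℂ → ℂ := Exists.choose (Subtype.property (p := (· ∈ merS)) f)

theorem mer_rep (f : Mer) : Meromorphic f.rep :=
  (Exists.choose_spec (Subtype.property (p := (· ∈ merS)) f)).1

theorem ev_rep (f : Mer) : ev f = (f.rep : Germ (codiscrete ℂ) ℂ) :=
  (Exists.choose_spec (Subtype.property (p := (· ∈ merS)) f)).2.symm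

noncomputable def mk (f : ℂ → ℂ) (hf : Meromorphic f) : Mer := (⟨_, f, hf, rfl⟩ : merS)

theorem ev_mk (f : ℂ → ℂ) (hf : Meromorphic f) : ev (mk f hf) = (f : Germ (codiscrete ℂ) ℂ) :=
  rfl

theorem rep_eq {f : Mer} {A : ℂ → ℂ} (h : ev f = (A : Germ (codiscrete ℂ) ℂ)) :
    f.rep =ᶠ[codiscrete ℂ] A := Germ.coe_eq.1 ((ev_rep f).symm.trans h)

theorem rep_mk (f : ℂ → ℂ) (hf : Meromorphic f) : (mk f hf).rep =ᶠ[codiscrete ℂ] f :=
  rep_eq rfl

theorem rep_add (f g : Mer) : (f + g).rep =ᶠ[codiscrete ℂ] f.rep + g.rep :=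
  rep_eq (by rw [map_add, ev_rep, ev_rep]; rfl)

theorem rep_mul (f g : Mer) : (f * g).rep =ᶠ[codiscrete ℂ] f.rep * g.rep :=
  rep_eq (by rw [map_mul, ev_rep, ev_rep]; rfl)

theorem rep_nat (n : ℕ) : (n : Mer).rep =ᶠ[codiscrete ℂ] fun _ => (n : ℂ) :=
  rep_eq (by rw [map_natCast]; rfl)

theorem ext' {f g : Mer} (h : f.rep =ᶠ[codiscrete ℂ] g.rep) : f = g :=
  ev_inj (by rw [ev_rep, ev_rep]; exact Germ.coe_eq.2 h)

theorem ne_top {f : Mer} (h : f ≠ 0) (z : ℂ) : meromorphicOrderAt f.rep z ≠ ⊤ :=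
  ne_top_of_ne f.mer_rep (fun h' => h (ev_inj (by
    rw [ev_rep, map_zero]; exact Germ.coe_eq.2 h'))) z

instance : CharZero Mer := ⟨fun m n h => by
  have h1 := (rep_nat m).symm.trans (h ▸ rep_nat n)
  exact_mod_cast congrFun (cd_eq continuous_const continuous_const h1) 0⟩

noncomputable def D (f : Mer) : Mer := mk (deriv f.rep) f.mer_rep.deriv

theorem rep_D (f : Mer) : (D f).rep =ᶠ[codiscrete ℂ] deriv f.rep := rep_mk _ _

noncomputable def der : Der Mer where
  D := D
  D_add f g := ext' (by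
    filter_upwards [rep_D (f + g), rep_add (D f) (D g), rep_D f, rep_D g, cd_deriv (rep_add f g),
      cd_analytic f.mer_rep, cd_analytic g.mer_rep] with z h1 h2 h3 h4 h5 h6 h7
    rw [h1, h2, Pi.add_apply, h3, h4, h5, deriv_add h6.differentiableAt h7.differentiableAt])
  D_mul f g := ext' (by
    filter_upwards [rep_D (f * g), rep_add (f * D g) (g * D f), rep_mul f (D g), rep_mul g (D f),
      rep_D f, rep_D g, cd_deriv (rep_mul f g),
      cd_analytic f.mer_rep, cd_analytic g.mer_rep] with z h1 h2 h2' h2'' h3 h4 h5 h6 h7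
    rw [h1, h2, Pi.add_apply, h2', h2'', Pi.mul_apply, Pi.mul_apply, h3, h4, h5,
      deriv_mul h6.differentiableAt h7.differentiableAt]
    ring)

noncomputable def ord (z : ℂ) (f : Mer) : ℤ := (meromorphicOrderAt f.rep z).untop₀

theorem coe_ord {f : Mer} (h : f ≠ 0) (z : ℂ) :
    (ord z f : WithTop ℤ) = meromorphicOrderAt f.rep z :=
  WithTop.coe_untop₀_of_ne_top (ne_top h z)

theorem order_congr {f : Mer} {A : ℂ → ℂ} (h : f.rep =ᶠ[codiscrete ℂ] A) (z : ℂ) :
    meromorphicOrderAt f.rep z = meromorphicOrderAt A z :=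
  meromorphicOrderAt_congr (cd_iff.1 h z)

theorem mer_lin (z : ℂ) : Meromorphic (· - z) := fun _ => by fun_prop

noncomputable def loc (z : ℂ) : Loc Mer where
  toDer := der
  ord := ord z
  p := mk (· - z) (mer_lin z)
  p_ne h := by
    have h1 := (rep_mk (· - z) (mer_lin z)).symm.trans (h ▸ rep_eq (map_zero ev))
    have := congrFun (cd_eq (by fun_prop) continuous_const h1) (z + 1)
    simp at this
  ord_mul x y hx hy := by
    have h := order_congr (rep_mul x y) z
    rw [meromorphicOrderAt_mul (x.mer_rep z) (y.mer_rep z), ← coe_ord hx, ← coe_ord hy,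
      ← coe_ord (mul_ne_zero hx hy)] at h
    exact_mod_cast h
  ord_add x y n hx hy hxy h1 h2 := by
    have h := meromorphicOrderAt_add (x.mer_rep z) (y.mer_rep z)
    rw [← order_congr (rep_add x y), ← coe_ord hx, ← coe_ord hy, ← coe_ord hxy] at h
    have h' : min (ord z x) (ord z y) ≤ ord z (x + y) := by exact_mod_cast h
    exact (le_min h1 h2).trans h'
  ord_p := by
    unfold ord
    rw [order_congr (rep_mk _ _), meromorphicOrderAt_id_sub_const]; rfl
  D_p := ext' (by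
    filter_upwards [rep_D (mk (· - z) (mer_lin z)), cd_deriv (rep_mk (· - z) (mer_lin z)),
      rep_eq (map_one ev)] with w h1 h2 h3
    exact (h1.trans h2).trans (by rw [h3]; simp))
  ord_D x hx hD h := by
    have h1 : 0 ≤ meromorphicOrderAt x.rep z := by rw [← coe_ord hx]; exact_mod_cast h
    obtain ⟨g, hg, hg'⟩ := (x.mer_rep z).meromorphicOrderAt_nonneg_iff.1 h1
    have h2 := hg.deriv.meromorphicOrderAt_nonneg
    rw [← meromorphicOrderAt_congr hg'.nhdsNE_deriv, ← order_congr (rep_D x)] at h2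
    have h3 := coe_ord (f := D x) hD z
    rw [← h3] at h2
    exact_mod_cast h2
  ord_nat n hn := by
    classical
    unfold ord
    rw [order_congr (rep_nat n), meromorphicOrderAt_const, if_neg (by exact_mod_cast hn)]; rfl

noncomputable def evM : Ev Mer where
  toDer := der
  loc := loc
  hD _ _ := rfl
  F := codiscrete ℂ
  ev := ev

theorem const_of_D {f : Mer} (h : D f = 0) : ∃ c : ℂ, f.rep =ᶠ[codiscrete ℂ] fun _ => c := by
  have h1 : deriv f.rep =ᶠ[codiscrete ℂ] 0 := (rep_D f).symm.trans (h ▸ rep_eq (map_zero ev))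
  have hm := meromorphicOn_univ.2 f.mer_rep
  have h2 : f.rep =ᶠ[codiscrete ℂ] toMeromorphicNFOn f.rep Set.univ :=
    toMeromorphicNFOn_eqOn_codiscrete hm
  have h3 : ∀ z, AnalyticAt ℂ (toMeromorphicNFOn f.rep Set.univ) z := by
    intro z
    rw [← (meromorphicNFOn_toMeromorphicNFOn f.rep Set.univ
      (Set.mem_univ z)).meromorphicOrderAt_nonneg_iff_analyticAt, ← order_congr h2]
    by_contra h4
    push Not at h4
    obtain ⟨n, hn⟩ := WithTop.ne_top_iff_exists.1 h4.ne_top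
    rw [← hn] at h4
    have h5 : n < 0 := by exact_mod_cast h4
    have h6 := meromorphicOrderAt_deriv_eq_sub_one (by exact_mod_cast h5.ne) hn.symm
    rw [meromorphicOrderAt_eq_top_iff.2 (cd_iff.1 h1 z)] at h6
    exact WithTop.top_ne_coe h6
  have h4 := cd_eq (continuous_iff_continuousAt.2 fun z => (h3 z).deriv.continuousAt)
    continuous_const ((cd_deriv h2).symm.trans h1)
  refine ⟨toMeromorphicNFOn f.rep Set.univ 0, h2.trans (Eventually.of_forall fun z => ?_)⟩
  exact is_const_of_deriv_eq_zero (fun z => (h3 z).differentiableAt) (congrFun h4) z 0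

end Mer

end Pool.Agent.P.MP_7ede32_ag.N
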