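import Pool.Agent.P.MP_7ede32_ag.NLdl2
import Pool.Agent.P.MP_7ede32_ag.NMer

namespace Pool.Agent.P.MP_7ede32_ag.N

open Filter Topology Metric Real ValueDistribution MeromorphicOn

/-- `u` is asymptotically small with respect to `T` along `F` -/
def Sm (F : Filter ℝ) (T u : ℝ → ℝ) : Prop := ∀ ε > 0, ∀ᶠ r in F, u r ≤ ε * T r

namespace Sm

variable {F : Filter ℝ} {T u v : ℝ → ℝ}

theorem mono (h : Sm F T v) (huv : ∀ᶠ r in F, u r ≤ v r) : Sm F T u := fun ε hε => by
  filter_upwards [h ε hε, huv] with r h1 h2 using h2.trans h1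

theorem add (h : Sm F T u) (h' : Sm F T v) : Sm F T fun r => u r + v r := fun ε hε => by
  filter_upwards [h (ε / 2) (by positivity), h' (ε / 2) (by positivity)] with r h1 h2
  linarith

theorem const (hT : Tendsto T F atTop) (c : ℝ) : Sm F T fun _ => c := fun ε hε => by
  filter_upwards [hT.eventually_ge_atTop (c / ε)] with r h
  rwa [div_le_iff₀' hε] at h

theorem smul (h : Sm F T u) {c : ℝ} (hc : 0 < c) : Sm F T fun r => c * u r := fun ε hε => by
  filter_upwards [h (ε / c) (by positivity)] with r h1
  rwa [div_mul_eq_mul_div, le_div_iff₀' hc] at h1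

theorem sum (hT : Tendsto T F atTop) {ι : Type*} (s : Finset ι) {w : ι → ℝ → ℝ}
    (h : ∀ i ∈ s, Sm F T (w i)) : Sm F T fun r => ∑ i ∈ s, w i r := by
  classical
  induction s using Finset.induction_on with
  | empty => simpa using const hT 0
  | insert a s ha ih =>
    simp only [Finset.sum_insert ha]
    exact (h a (Finset.mem_insert_self _ _)).add (ih fun i hi => h i (Finset.mem_insert_of_mem hi))

theorem log (hT : Tendsto T F atTop) : Sm F T fun r => Real.log (T r) := fun ε hε => by
  filter_upwards [hT.eventually (Real.isLittleO_log_id_atTop.bound hε),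
    hT.eventually_ge_atTop 0] with r h1 h2
  rw [id_eq, Real.norm_of_nonneg h2] at h1
  exact (le_abs_self _).trans h1

theorem not_self [F.NeBot] (hT : Tendsto T F atTop) : ¬Sm F T T := fun h => by
  obtain ⟨r, h1, h2⟩ := ((h (1 / 2) (by norm_num)).and (hT.eventually_gt_atTop 0)).exists
  linarith

end Sm

theorem char_tendsto {f : ℂ → ℂ} (hf : Meromorphic f) (h : ¬deriv f =ᶠ[codiscrete ℂ] 0) :
    Tendsto (characteristic f ⊤) atTop atTop := by
  classical
  obtain ⟨z, hz⟩ := (cd_iff.1 (cd_analytic hf) 0).exists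
  have hg : Meromorphic fun w => f w - f z := hf.sub (Meromorphic.const _)
  have h1 : meromorphicOrderAt (fun w => f w - f z) z ≠ ⊤ := ne_top_of_ne hg (fun h' => h (by
    have : f =ᶠ[codiscrete ℂ] fun _ => f z := h'.mono fun w hw => sub_eq_zero.1 hw
    exact (cd_deriv this).trans (Eventually.of_forall fun w => by simp))) z
  have h2 : 0 < meromorphicOrderAt (fun w => f w - f z) z := by
    rw [← tendsto_zero_iff_meromorphicOrderAt_pos (hg z)]
    have := (hz.continuousAt.tendsto.sub_const (f z)).mono_left (nhdsWithin_le_nhds (s := {z}ᶜ))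
    rwa [sub_self] at this
  have h3 : Function.locallyFinsuppWithin.single z 1 ≤
      (divisor (fun w => f w - f z) Set.univ)⁺ := by
    intro w
    simp only [Function.locallyFinsuppWithin.single_apply,
      Function.locallyFinsuppWithin.posPart_apply]
    split_ifs with hw
    · rw [hw, divisor_apply hg.meromorphicOn (Set.mem_univ z)]
      obtain ⟨n, hn⟩ := WithTop.ne_top_iff_exists.1 h1
      rw [← hn] at h2 ⊢
      have : 0 < n := by exact_mod_cast h2
      rw [WithTop.untop₀_coe, posPart_eq_self.2 this.le]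
      exact this
    · exact posPart_nonneg _
  refine tendsto_atTop_mono' _ ?_ (tendsto_atTop_add_const_right _ (-Real.log ‖z‖ +
    Real.log ‖meromorphicTrailingCoeffAt (fun w => f w - f z) 0‖ - (log⁺ ‖f z‖ + Real.log 2))
    Real.tendsto_log_atTop)
  filter_upwards [eventually_ge_atTop 1, eventually_ge_atTop ‖z‖] with r hr1 hr2
  have k1 := Function.locallyFinsuppWithin.logCounting_le h3 hr1
  rw [Function.locallyFinsuppWithin.logCounting_single_eq_log_sub_const hr2, ← logCounting_zero,
    ← logCounting_inv] at k1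
  have k2 := characteristic_sub_characteristic_inv_of_ne_zero hg (R := r) (by linarith)
  have k3 := (abs_le.1 (abs_characteristic_sub_characteristic_shift_le (a₀ := f z) (r := r) hf)).1
  have k4 := proximity_nonneg (f := (fun w => f w - f z)⁻¹) (a := ⊤) r
  simp only [characteristic, Pi.add_apply, Pi.zero_apply] at k2 k3 k4 ⊢
  push_cast at k1
  linarith

namespace Mer

theorem rep_inv (f : Mer) : f⁻¹.rep =ᶠ[codiscrete ℂ] f.rep⁻¹ :=
  rep_eq (Ev.Rep.inv (N := evM) (ev_rep f))

theorem small {F : Filter ℝ} (hF : F ≤ atTop) {T : ℝ → ℝ} (hT : Tendsto T F atTop) :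
    Small evM (fun f => Sm F T (proximity f.rep ⊤)) (fun f => Sm F T (characteristic f.rep ⊤)) := by
  have h1 : ∀ᶠ r in F, (1 : ℝ) ≤ r := hF (eventually_ge_atTop 1)
  have hc : ∀ {c : Mer}, evM.D c = 0 → Sm F T (characteristic c.rep ⊤) := by
    intro c h
    obtain ⟨a, ha⟩ := const_of_D h
    refine (Sm.const hT (log⁺ ‖a‖)).mono (h1.mono fun r hr => ?_)
    rw [characteristic_congr_codiscrete ha (by linarith)]
    simp [characteristic]
  refine ⟨?_, ?_, ?_, ?_, ?_, ?_, ?_, hc, ?_⟩
  · intro κ _ h H f A C M hS hH hA hb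
    refine ((Sm.const hT |C|).add ((Sm.sum hT Finset.univ fun k _ => hS k).smul
      (c := |M| + 1) (by positivity))).mono (h1.mono fun r hr => ?_)
    have hi := fun k => (h k).mer_rep.meromorphicOn.circleIntegrable_posLog_norm (c := 0) (R := r)
    have hs : CircleIntegrable (fun z => (|M| + 1) • ∑ k, log⁺ ‖(h k).rep z‖) 0 r :=
      (CircleIntegrable.fun_sum Finset.univ fun k _ => hi k).const_smul (a := |M| + 1)
    simp only [proximity_top]
    rw [← circleAverage_fun_sum fun k _ => hi k, ← smul_eq_mul, ← circleAverage_fun_smul,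
      ← circleAverage_const |C| 0 r, ← circleAverage_fun_add (circleIntegrable_const _ _ _) hs]
    refine circleAverage_le_of_cd (by linarith)
      f.mer_rep.meromorphicOn.circleIntegrable_posLog_norm
      ((circleIntegrable_const _ _ _).add hs)
      (codiscreteWithin_mono (Set.subset_univ _) ?_)
    have h2 : ∀ᶠ z in codiscrete ℂ, ∀ k, (h k).rep z = H k z :=
      eventually_all.2 fun k => rep_eq (hH k)
    filter_upwards [h2, rep_eq hA, hb] with z h2 h3 h4
    set σ := ∑ k, log⁺ ‖(h k).rep z‖ with hσ
    have h5 : 0 ≤ σ := Finset.sum_nonneg fun _ _ => posLog_nonneg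
    have h6 := h4 (Real.exp σ) (Real.one_le_exp h5) fun k => by
      rw [← h2]
      refine (Real.le_exp_log _).trans (Real.exp_le_exp.2 ?_)
      exact (le_max_right _ _).trans (Finset.single_le_sum (f := fun k => log⁺ ‖(h k).rep z‖)
        (fun _ _ => posLog_nonneg) (Finset.mem_univ k))
    rw [Real.log_exp, ← h3] at h6
    have h7 := le_abs_self C
    have h8 := mul_le_mul_of_nonneg_right (le_abs_self M) h5
    have h9 := mul_nonneg (abs_nonneg M) h5
    have h10 := abs_nonneg C
    change log⁺ ‖f.rep z‖ ≤ |C| + (|M| + 1) * σ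
    exact max_le (by linarith) (by linarith)
  · intro f g hf hg
    refine ((hf.add hg).add (Sm.const hT (Real.log 2))).mono (h1.mono fun r hr => ?_)
    rw [proximity_congr_codiscrete (rep_add f g) (by linarith)]
    exact proximity_add_top_le f.mer_rep g.mer_rep r
  · intro f g hf hg
    refine (hf.add hg).mono (h1.mono fun r hr => ?_)
    rw [proximity_congr_codiscrete (rep_mul f g) (by linarith)]
    exact proximity_mul_top_le f.mer_rep g.mer_rep r
  · intro f hf
    exact hf.mono (h1.mono fun r hr => le_add_of_nonneg_right (logCounting_nonneg hr))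
  · intro f g hf hg
    refine ((hf.add hg).add (Sm.const hT (Real.log 2))).mono (h1.mono fun r hr => ?_)
    rw [characteristic_congr_codiscrete (rep_add f g) (by linarith)]
    exact characteristic_add_top_le f.mer_rep g.mer_rep hr
  · intro f g hf hg
    by_cases hf0 : f = 0
    · rw [hf0, zero_mul]; exact hc evM.toDer.D_zero
    by_cases hg0 : g = 0
    · rw [hg0, mul_zero]; exact hc evM.toDer.D_zero
    refine (hf.add hg).mono (h1.mono fun r hr => ?_)
    rw [characteristic_congr_codiscrete (rep_mul f g) (by linarith)]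
    exact characteristic_mul_top_le hr f.mer_rep (ne_top hf0) g.mer_rep (ne_top hg0)
  · intro f hf
    refine (hf.add (Sm.const hT (-Real.log ‖meromorphicTrailingCoeffAt f.rep 0‖))).mono
      (h1.mono fun r hr => ?_)
    rw [characteristic_congr_codiscrete (rep_inv f) (by linarith)]
    have := characteristic_sub_characteristic_inv_of_ne_zero f.mer_rep (R := r) (by linarith)
    linarith
  · intro g ψ hg0 hg hgψ ho
    by_cases hψ : ψ = 0
    · rw [hψ]; exact hc evM.toDer.D_zero
    refine ((hg.add hgψ).add (Sm.const hT (-Real.log ‖meromorphicTrailingCoeffAt g.rep 0‖))).mono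
      (h1.mono fun r hr => ?_)
    have hd : ∀ (f : Mer) z, divisor f.rep Set.univ z = ord z f := fun f z =>
      divisor_apply f.mer_rep.meromorphicOn (Set.mem_univ z)
    have k1 : proximity ψ.rep ⊤ r ≤ proximity (g * ψ).rep ⊤ r + proximity g.rep⁻¹ ⊤ r := by
      have e : ψ.rep =ᶠ[codiscrete ℂ] (g * ψ).rep * g.rep⁻¹ := by
        have := rep_mul (g * ψ) g⁻¹
        rw [mul_right_comm, mul_inv_cancel₀ hg0, one_mul] at this
        exact this.trans (EventuallyEq.rfl.mul (rep_inv g))
      rw [proximity_congr_codiscrete e (by linarith)]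
      exact proximity_mul_top_le (g * ψ).mer_rep g.mer_rep.inv r
    have k2 := characteristic_sub_characteristic_inv_of_ne_zero g.mer_rep (R := r) (by linarith)
    have k3 : logCounting g.rep ⊤ r = 0 := by
      have : (divisor g.rep Set.univ)⁻ = 0 := by
        ext z
        rw [Function.locallyFinsuppWithin.negPart_apply, hd]
        exact negPart_eq_zero.2 (ho z).1
      rw [logCounting_top, this, map_zero]; rfl
    have k4 : logCounting ψ.rep ⊤ r ≤ logCounting g.rep⁻¹ ⊤ r := by
      rw [logCounting_inv, logCounting_top, logCounting_zero]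
      refine Function.locallyFinsuppWithin.logCounting_le (fun z => ?_) hr
      rw [Function.locallyFinsuppWithin.negPart_apply,
        Function.locallyFinsuppWithin.posPart_apply, hd, hd, ← posPart_neg]
      exact posPart_mono ((ho z).2 hψ)
    simp only [characteristic, Pi.add_apply] at k2 ⊢
    linarith

theorem nev : evM.Nev := by
  intro ι _ b hb ⟨i0, hi0⟩
  have hT : Tendsto (fun r => ∑ i, ch (b i).rep r) atTop atTop := by
    refine tendsto_atTop_mono' _ ?_ (char_tendsto (b i0).mer_rep fun h => hi0 (ev_inj (by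
      rw [map_zero]; exact Germ.coe_eq.2 h)))
    filter_upwards [eventually_ge_atTop 1] with r hr
    exact (le_add_of_nonneg_right (characteristic_nonneg hr)).trans
      (Finset.single_le_sum (f := fun i => ch (b i).rep r) (fun i _ => ch_nonneg _ hr)
        (Finset.mem_univ i0))
  have hl := ldl (fun i => (b i).rep) (fun i => (b i).mer_rep) (fun i => ne_top (hb i)) hT
  set F := atTop ⊓ 𝓟 {r : ℝ | ∀ i, proximity (logDeriv (b i).rep) ⊤ r ≤
    Real.log 2368 + 5 * Real.log (∑ i, ch (b i).rep r)} with hF
  have : F.NeBot := frequently_iff_neBot.1 hl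
  have hT' : Tendsto (fun r => ∑ i, ch (b i).rep r) F atTop := hT.mono_left inf_le_left
  have H := small (F := F) inf_le_left hT'
  have h1 : ∀ᶠ r in F, (1 : ℝ) ≤ r := mem_inf_of_left (eventually_ge_atTop 1)
  refine ⟨_, _, H, fun i => ?_, fun h => Sm.not_self hT' ?_⟩
  · refine ((Sm.const hT' (Real.log 2368)).add ((Sm.log hT').smul (c := 5) (by norm_num))).mono ?_
    filter_upwards [h1, mem_inf_of_right (mem_principal_self _)] with r hr h
    have e : (evM.toDer.L (b i)).rep =ᶠ[codiscrete ℂ] logDeriv (b i).rep :=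
      rep_eq (Ev.Rep.div (N := evM) (ev_mk _ (b i).mer_rep.deriv) (ev_rep (b i)))
    rw [proximity_congr_codiscrete e (by linarith)]
    exact h i
  · refine (Sm.sum hT' Finset.univ fun i _ => (h i).add (H.T_inv (h i))).mono
      (h1.mono fun r hr => Finset.sum_le_sum fun i _ => ?_)
    rw [characteristic_congr_codiscrete (rep_inv (b i)) (by linarith)]
    exact le_rfl

end Mer

end Pool.Agent.P.MP_7ede32_ag.N
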