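import Pool.Agent.P.MP_7ede32_ag.NMain
import Pool.Agent.P.MP_7ede32_ag.NNev

open Pool.Agent.P.MP_7ede32_ag Pool.Agent.P.MP_7ede32_ag.N

/-- Every entire curve in the variety `y i j ^ 2 + y j l ^ 2 = y i l ^ 2` (`i < j < l`, at least
72 indices) with no coordinate identically zero is constant in projective space. -/
theorem Pool.Agent.P.MP_7ede32_ag.braidEntire
    {n : ℕ} (hn : 72 ≤ n) (y : Fin n → Fin n → ℂ → ℂ)
    (hd : ∀ i j, i < j → Differentiable ℂ (y i j)) (hy0 : ∀ i j, i < j → y i j ≠ 0)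
    (hy : ∀ i j l, i < j → j < l → ∀ z, y i j z ^ 2 + y j l z ^ 2 = y i l z ^ 2) :
    ∃ (a : ℂ → ℂ) (c : Fin n → Fin n → ℂ), ∀ i j, i < j → ∀ z, y i j z = a z * c i j := by
  classical
  let Y : Fin n → Fin n → Mer := fun i j =>
    if h : i < j then Mer.mk (y i j) (fun z => ((hd i j h).analyticAt z).meromorphicAt) else 0
  have hY : ∀ i j, i < j → Mer.evM.Rep (Y i j) (y i j) := fun i j h => by
    simp only [Y, dif_pos h]; exact Mer.ev_mk _ _
  have hY0 : ∀ i j, i < j → Y i j ≠ 0 := fun i j h h' => hy0 i j h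
    (cd_eq (hd i j h).continuous continuous_const ((hY i j h).unique (h' ▸ Ev.Rep.zero)))
  have hYe : ∀ i j l, i < j → j < l → Y i j ^ 2 + Y j l ^ 2 = Y i l ^ 2 := fun i j l h h' =>
    Mer.ev_inj (((((hY i j h).pow 2).add ((hY j l h').pow 2)).congr
      (Filter.Eventually.of_forall (hy i j l h h'))).trans ((hY i l (h.trans h')).pow 2).symm)
  have h0 : 0 < n := by omega
  set z : Fin n := ⟨0, h0⟩ with hz
  let x : Fin n → Mer := fun i => if i = z then 0 else Y z i ^ 2
  have hzl : ∀ j : Fin n, j ≠ z → z < j := fun j hj =>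
    lt_of_le_of_ne (Nat.zero_le _) (Ne.symm hj)
  have hx : ∀ i j, i < j → x j - x i = Y i j ^ 2 := by
    intro i j hij
    have hj : j ≠ z := fun h => Nat.not_lt_zero _ (h ▸ hij : i < z)
    by_cases hi : i = z
    · simp [x, hi, hj]
    · simp only [x, hi, hj, if_false]
      linear_combination -hYe z i j (hzl i hi) hij
  have hinj : Function.Injective x := by
    intro i j h
    by_contra hne
    rcases lt_or_gt_of_ne hne with hij | hij
    · exact pow_ne_zero 2 (hY0 i j hij) (by rw [← hx i j hij, h, sub_self])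
    · exact pow_ne_zero 2 (hY0 j i hij) (by rw [← hx j i hij, h, sub_self])
  obtain ⟨i1, i2, h12, h⟩ := main_ev Mer.nev hn x hinj (fun q i j hne => by
    rcases lt_or_gt_of_ne hne with hij | hij
    · rw [Loc.ord_sub_comm, hx i j hij, Loc.ord_pow _ (hY0 i j hij)]
      exact even_two_mul _
    · rw [hx j i hij, Loc.ord_pow _ (hY0 j i hij)]
      exact even_two_mul _)
  have hd' : x i2 - x i1 ≠ 0 := sub_ne_zero.2 fun h' => h12 (hinj h').symm
  have h1 : ∀ i j, i < j → Mer.evM.D (Y i j ^ 2 / (x i2 - x i1)) = 0 := by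
    intro i j hij
    have e : Y i j ^ 2 / (x i2 - x i1) =
        (x j - x i1) / (x i2 - x i1) - (x i - x i1) / (x i2 - x i1) := by
      rw [← hx i j hij]; ring
    rw [e, Der.D_sub]
    exact sub_eq_zero.2 ((h j).trans (h i).symm)
  let o : Fin n := ⟨1, by omega⟩
  have hzo : z < o := Nat.zero_lt_one
  have ha := hY0 z o hzo
  have h2 : ∀ i j, ∃ c : ℂ, i < j → ∀ w, y i j w = y z o w * c := by
    intro i j
    by_cases hij : i < j
    · have hb := hY0 i j hij
      have e : (Y i j / Y z o) ^ 2 =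
          (Y i j ^ 2 / (x i2 - x i1)) / (Y z o ^ 2 / (x i2 - x i1)) := by
        field_simp
      have h3 : Mer.evM.D ((Y i j / Y z o) ^ 2) = 0 := by
        rw [e, Der.D_div _ _ _ (div_ne_zero (pow_ne_zero 2 ha) hd'), h1 i j hij, h1 z o hzo]
        simp
      rw [Der.D_sq] at h3
      obtain ⟨c, hc⟩ := Mer.const_of_D ((mul_eq_zero.1 h3).resolve_left
        (mul_ne_zero two_ne_zero (div_ne_zero hb ha)))
      have h4 := (hY z o hzo).mul
        (Ev.Rep.congr (N := Mer.evM) (Mer.ev_rep (Y i j / Y z o)) hc)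
      rw [mul_div_cancel₀ _ ha] at h4
      exact ⟨c, fun _ => congrFun (cd_eq (hd i j hij).continuous
        ((hd z o hzo).continuous.mul continuous_const) ((hY i j hij).unique h4))⟩
    · exact ⟨0, fun h => absurd h hij⟩
  choose c hc using h2
  exact ⟨y z o, c, hc⟩
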