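import Pool.Agent.P.MP_7ede32_ag.Tower2

namespace Pool.Agent.P.MP_7ede32_ag

open Finset Matrix

variable {K : Type*} [Field K]

/-- total order of all differences, over ordered pairs -/
def Loc.nu (L : Loc K) {m : ℕ} (y : Fin m → K) : ℤ :=
  ∑ i, ∑ j, if i = j then 0 else L.ord (y i - y j)

/-- size of a class -/
def csz {R Lam : Type*} [Fintype R] [DecidableEq Lam] (l : R → Lam) (c : Lam) : ℕ :=
  (univ.filter fun i => l i = c).card

theorem pairs_count {R Lam : Type*} [Fintype R] [DecidableEq R] [Fintype Lam] [DecidableEq Lam]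
    (l : R → Lam) :
    (∑ i, ∑ j, if i = j then 0 else if l i = l j then (1 : ℤ) else 0) =
      ∑ c, (csz l c : ℤ) * (csz l c - 1) := by
  have h1 : ∀ i, (∑ j, if i = j then 0 else if l i = l j then (1 : ℤ) else 0) =
      (csz l (l i) : ℤ) - 1 := by
    intro i
    have : ∀ j, (if i = j then 0 else if l i = l j then (1 : ℤ) else 0) =
        (if l j = l i then (1 : ℤ) else 0) - (if i = j then 1 else 0) := by
      intro j
      by_cases h : i = j
      · simp [h]
      · by_cases h' : l i = l j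
        · simp [h, h']
        · simp [h, h', Ne.symm h']
    simp only [this, sum_sub_distrib, sum_ite_eq, mem_univ, if_true]
    simp only [sum_boole, csz]
  simp only [h1]
  rw [← Finset.sum_fiberwise (s := univ) (g := l)]
  refine Finset.sum_congr rfl fun c _ => ?_
  rw [Finset.sum_congr rfl (g := fun _ => (csz l c : ℤ) - 1)
    (fun i hi => by rw [(mem_filter.1 hi).2])]
  simp [csz]
  ring

theorem nu_eq (L : Loc K) {m : ℕ} {Lam : Type*} [Fintype Lam] [DecidableEq Lam] (y : Fin m → K)
    (hy : Function.Injective y)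
    (h0 : ∀ i j, L.Ge 0 (y i - y j)) (he : ∀ i j, i ≠ j → Even (L.ord (y i - y j)))
    (lab : ℕ → Fin m → Lam) (hlab : ∀ (r : ℕ) i j, lab r i = lab r j ↔ L.Ge (2 * r) (y i - y j)) :
    ∃ R : ℕ, L.nu y = ∑ r ∈ range R, 2 * ∑ c, (csz (lab (r + 1)) c : ℤ) *
      (csz (lab (r + 1)) c - 1) := by
  obtain ⟨R, hR⟩ : ∃ R : ℕ, ∀ i j, L.ord (y i - y j) ≤ 2 * R := by
    obtain ⟨B, hB⟩ := (Set.finite_range fun q : Fin m × Fin m => L.ord (y q.1 - y q.2)).bddAbove
    refine ⟨B.toNat, fun i j => ?_⟩
    have := hB ⟨(i, j), rfl⟩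
    simp only at this
    omega
  refine ⟨R, ?_⟩
  simp only [← pairs_count, Finset.mul_sum]
  unfold Loc.nu
  rw [Finset.sum_comm (s := range R)]
  refine Finset.sum_congr rfl fun i _ => ?_
  rw [Finset.sum_comm (s := range R)]
  refine Finset.sum_congr rfl fun j _ => ?_
  by_cases hij : i = j
  · simp [hij]
  have hne : y i - y j ≠ 0 := sub_ne_zero.2 fun h => hij (hy h)
  simp only [hij, if_false]
  rw [even_eq_sum ((h0 i j).le hne) (hR i j) (he i j hij)]
  refine Finset.sum_congr rfl fun r _ => ?_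
  have : lab (r + 1) i = lab (r + 1) j ↔ 2 * ((r : ℤ) + 1) ≤ L.ord (y i - y j) := by
    rw [hlab]
    push_cast
    exact ⟨fun h => h.le hne, Loc.Ge.of_le⟩
  by_cases h : lab (r + 1) i = lab (r + 1) j
  · rw [if_pos h, if_pos (this.1 h)]; rfl
  · rw [if_neg h, if_neg (fun h' => h (this.2 h'))]; rfl

theorem nu_affine (L : Loc K) {m : ℕ} (y : Fin m → K) (hy : Function.Injective y) {a : K}
    (ha : a ≠ 0) (b : K) :
    L.nu (fun i => a * y i + b) = L.nu y + (m : ℤ) * (m - 1) * L.ord a := by
  unfold Loc.nu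
  have : ∀ i j, (if i = j then 0 else L.ord (a * y i + b - (a * y j + b))) =
      (if i = j then 0 else L.ord (y i - y j)) + (L.ord a - if i = j then L.ord a else 0) := by
    intro i j
    by_cases hij : i = j
    · simp [hij]
    have hne : y i - y j ≠ 0 := sub_ne_zero.2 fun h => hij (hy h)
    simp only [hij, if_false]
    rw [show a * y i + b - (a * y j + b) = a * (y i - y j) by ring, L.ord_mul _ _ ha hne]
    ring
  simp only [this, sum_add_distrib, sum_sub_distrib]
  simp
  ring

theorem nu_inv (L : Loc K) {m : ℕ} (y : Fin m → K) (hy : Function.Injective y)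
    (h0 : ∀ i, y i ≠ 0) :
    L.nu (fun i => (y i)⁻¹) = L.nu y - 2 * ((m : ℤ) - 1) * ∑ i, L.ord (y i) := by
  unfold Loc.nu
  have : ∀ i j, (if i = j then 0 else L.ord ((y i)⁻¹ - (y j)⁻¹)) =
      (if i = j then 0 else L.ord (y i - y j)) - (L.ord (y i) + L.ord (y j)) +
        (if i = j then 2 * L.ord (y i) else 0) := by
    intro i j
    by_cases hij : i = j
    · simp [hij]; ring
    have hne : y j - y i ≠ 0 := sub_ne_zero.2 fun h => hij (hy h).symm
    simp only [hij, if_false]
    rw [inv_sub_inv (h0 i) (h0 j), L.ord_div hne (mul_ne_zero (h0 i) (h0 j)),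
      L.ord_mul _ _ (h0 i) (h0 j), L.ord_sub_comm]
    ring
  simp only [this, sum_add_distrib, sum_sub_distrib]
  simp [← Finset.mul_sum]
  ring

end Pool.Agent.P.MP_7ede32_ag
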