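import Pool.Agent.P.MP_7ede32_ag.FDer
import Pool.Agent.P.MP_7ede32_ag.FFB

/-! Relative algebraic closure of a set, curve fields inside a big field, and descent of
coefficients along the field of constants. -/

open scoped IntermediateField Polynomial

namespace Pool.Agent.P.MP_7ede32_ag

variable {F : Type} [Field F] [CharZero F]

/-- the elements algebraic over the field generated by `S` -/
noncomputable def acl (S : Set F) : Subfield F :=
  (algebraicClosure (IntermediateField.adjoin ℚ S) F).toSubfield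

theorem mem_acl {S : Set F} {x : F} :
    x ∈ acl S ↔ IsAlgebraic (IntermediateField.adjoin ℚ S) x := mem_algebraicClosure_iff

theorem coe_acl (S : Set F) : (acl S : Set F) = (AlgebraicIndependent.matroid ℚ F).closure S := by
  ext x
  rw [AlgebraicIndependent.matroid_closure_eq, SetLike.mem_coe, SetLike.mem_coe, mem_acl,
    IntermediateField.isAlgebraic_adjoin_iff, Subalgebra.mem_algebraicClosure]

theorem subset_acl (S : Set F) : S ⊆ acl S := by
  rw [coe_acl]; exact Matroid.subset_closure _ _ (by simp)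

theorem acl_le {S T : Set F} (h : S ⊆ acl T) : acl S ≤ acl T := by
  intro x hx
  rw [← SetLike.mem_coe, coe_acl] at *
  exact Matroid.closure_subset_closure_of_subset_closure h hx

theorem acl_mono {S T : Set F} (h : S ⊆ T) : acl S ≤ acl T := acl_le (h.trans (subset_acl T))

theorem acl_exchange {S : Set F} {e f : F} (h1 : e ∈ acl (insert f S)) (h2 : e ∉ acl S) :
    f ∈ acl (insert e S) := by
  rw [← SetLike.mem_coe, coe_acl] at *
  exact (Matroid.closure_exchange ⟨h1, h2⟩).1

theorem card_le_of_acl {ι : Type} [Fintype ι] {v : ι → F} (hv : AlgebraicIndependent ℚ v)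
    (T : Finset F) (h : ∀ i, v i ∈ acl (T : Set F)) : Fintype.card ι ≤ T.card := by
  have h1 : (AlgebraicIndependent.matroid ℚ F).Indep (Set.range v) := hv.to_subtype_range
  have h2 : Set.range v ⊆ (AlgebraicIndependent.matroid ℚ F).closure T := by
    rw [← coe_acl]; rintro _ ⟨i, rfl⟩; exact h i
  have h3 := (h1.encard_le_eRk_of_subset h2).trans
    ((Matroid.eRk_closure_eq _ _).le.trans (Matroid.eRk_le_encard _ _))
  rw [Set.encard_coe_eq_coe_finsetCard, ← Set.image_univ, hv.injective.encard_image,
    Set.encard_univ, ENat.card_eq_coe_fintype_card] at h3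
  exact_mod_cast h3

theorem mem_acl_of_isAlgebraic {S : Set F} {R : Type*} [CommRing R] [Algebra R F]
    (hinj : Function.Injective (algebraMap R F)) (h : ∀ r, algebraMap R F r ∈ acl S) {x : F}
    (hx : IsAlgebraic R x) : x ∈ acl S := by
  obtain ⟨p, hp, hpx⟩ := hx
  let E := algebraicClosure (IntermediateField.adjoin ℚ S) F
  let φ : R →+* E := (algebraMap R F).codRestrict E h
  have hφ : Function.Injective φ := fun a b hab => hinj (congrArg Subtype.val hab)
  have h1 : IsAlgebraic E x := by
    refine ⟨p.map φ, (Polynomial.map_ne_zero_iff hφ).mpr hp, ?_⟩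
    rw [Polynomial.aeval_def, Polynomial.eval₂_map]
    exact hpx
  exact mem_acl.mpr (h1.restrictScalars _)

theorem isAlgebraic_of_mem_acl {S : Set F} (E : Type*) [Field E] [Algebra E F]
    (h : S ⊆ Set.range (algebraMap E F)) {x : F} (hx : x ∈ acl S) : IsAlgebraic E x := by
  obtain ⟨p, hp, hpx⟩ := mem_acl.mp hx
  have hle : ∀ y ∈ IntermediateField.adjoin ℚ S, y ∈ (algebraMap E F).fieldRange := by
    intro y hy
    have : IntermediateField.adjoin ℚ S ≤ (algebraMap E F).fieldRange.toIntermediateField
        (fun q => by simp) := by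
      rw [IntermediateField.adjoin_le_iff]; exact h
    exact this hy
  have hl : p.map (algebraMap _ F) ∈ Polynomial.lifts (algebraMap E F) := by
    rw [Polynomial.lifts_iff_coeff_lifts]
    intro n
    rw [Polynomial.coeff_map]
    exact hle _ (p.coeff n).2
  obtain ⟨q, hq⟩ := (Polynomial.mem_lifts _).mp hl
  refine ⟨q, ?_, ?_⟩
  · rintro rfl
    rw [Polynomial.map_zero] at hq
    exact (Polynomial.map_ne_zero_iff (RingHom.injective _)).mpr hp hq.symm
  · rw [← Polynomial.eval_map_algebraMap, hq, Polynomial.eval_map_algebraMap, hpx]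

theorem exists_mem_acl_of_not_indep {U : Type} (E : Subfield F) (v : U → F)
    (h : ¬ AlgebraicIndependent E v) : ∃ u, v u ∈ acl ((E : Set F) ∪ v '' {u}ᶜ) := by
  by_contra hne
  push Not at hne
  refine h (algebraicIndependent_of_finite_type' (algebraMap E F).injective
    fun t _ _ i hi halg => hne i ?_)
  refine mem_acl_of_isAlgebraic Subtype.val_injective (fun r => ?_) halg
  have : Algebra.adjoin E (v '' t) ≤ ((acl ((E : Set F) ∪ v '' {i}ᶜ)).toIntermediateField
      (fun e : E => subset_acl _ (Or.inl e.2))).toSubalgebra := by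
    rw [Algebra.adjoin_le_iff]
    rintro _ ⟨j, hj, rfl⟩
    exact subset_acl _ (Or.inr ⟨j, fun hji => hi (hji ▸ hj), rfl⟩)
  exact this r.2

theorem isAlgClosed_acl [IsAlgClosed F] (S : Set F) : IsAlgClosed (acl S) :=
  (algebraicClosure.isAlgClosure (IntermediateField.adjoin ℚ S) F).isAlgClosed

theorem isCurveField_adjoin (κ : Subfield F) (Γ : Finset F) {s : F} (hs : s ∈ Γ)
    (hsκ : s ∉ acl (κ : Set F)) (hΓ : (Γ : Set F) ⊆ acl (insert s (κ : Set F))) :
    FF.IsCurveField κ (IntermediateField.adjoin κ (Γ : Set F)) := by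
  set M := IntermediateField.adjoin κ (Γ : Set F)
  let s' : M := ⟨s, IntermediateField.subset_adjoin _ _ hs⟩
  have hM : ∀ u ∈ M, u ∈ acl (insert s (κ : Set F)) := by
    intro u hu
    have : M ≤ (acl (insert s (κ : Set F))).toIntermediateField
        (fun e => subset_acl _ (Or.inr e.2)) := by
      rw [IntermediateField.adjoin_le_iff]; exact hΓ
    exact this hu
  refine ⟨s', ?_, ?_⟩
  · intro halg
    exact hsκ (mem_acl_of_isAlgebraic (algebraMap κ F).injective (fun r => subset_acl _ r.2)
      (halg.algebraMap (A := F)))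
  · have h1 : Algebra.EssFiniteType κ M :=
      IntermediateField.essFiniteType_iff.mpr ⟨Γ, rfl⟩
    have h2 : Algebra.EssFiniteType κ⟮s'⟯ M := Algebra.EssFiniteType.of_comp κ _ _
    have h3 : Algebra.IsAlgebraic κ⟮s'⟯ M := by
      refine ⟨fun u => ?_⟩
      rw [← isAlgebraic_algebraMap_iff (algebraMap M F).injective]
      refine isAlgebraic_of_mem_acl _ ?_ (hM u u.2)
      rintro y (rfl | hy)
      · exact ⟨IntermediateField.AdjoinSimple.gen κ s', rfl⟩
      · exact ⟨algebraMap κ _ ⟨y, hy⟩, rfl⟩
    exact Algebra.finite_of_essFiniteType_of_isAlgebraic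

namespace Der

variable (d : Der F)

theorem acl_le_const {S : Set F} (h : S ⊆ d.const) : acl S ≤ d.const := fun _ hx =>
  d.D_eq_zero_of_algebraic d.const (fun _ hu => hu)
    (isAlgebraic_of_mem_acl d.const (fun y hy => ⟨⟨y, h hy⟩, rfl⟩) hx)

theorem D_mem_acl {S : Set F} (h : ∀ y ∈ S, d.D y ∈ acl S) {x : F} (hx : x ∈ acl S) :
    d.D x ∈ acl S :=
  d.D_mem_of_algebraic (d.stab (acl S)) (acl S) (fun _ hu => hu.1) (fun _ hu => hu.2)
    (isAlgebraic_of_mem_acl (d.stab (acl S))
      (fun y hy => ⟨⟨y, subset_acl S hy, h y hy⟩, rfl⟩) hx) hx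

/-- Constants that are independent over the constants of a stable field are independent over it. -/
theorem linearIndependent_of_const (k1 K1 : Subfield F) (hD : ∀ u ∈ K1, d.D u ∈ K1)
    (hc : ∀ u ∈ K1, d.D u = 0 → u ∈ k1) {ι : Type*} (β : ι → F) (hβ : ∀ i, d.D (β i) = 0)
    (hli : LinearIndependent k1 β) : LinearIndependent K1 β := by
  classical
  rw [linearIndependent_iff'] at hli ⊢
  intro s
  induction s using Finset.strongInduction with
  | H s ih =>
    intro g hg i hi
    by_contra hne
    have hne' : (g i : F) ≠ 0 := fun h => hne (Subtype.ext h)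
    let g' : ι → K1 := fun j => g j / g i
    have hg' : ∑ j ∈ s, (g' j : F) * β j = 0 := by
      have : ∀ j, (g' j : F) * β j = (g i : F)⁻¹ * (g j • β j) := by
        intro j
        simp only [g', Subfield.coe_div, Subfield.smul_def, smul_eq_mul]
        field_simp
      simp only [this, ← Finset.mul_sum, hg, mul_zero]
    have hi' : (g' i : F) = 1 := by simp [g', hne]
    have h1 : ∑ j ∈ s.erase i, (⟨d.D (g' j), hD _ (g' j).2⟩ : K1) • β j = 0 := by
      have := congrArg d.D hg'
      rw [d.D_zero, d.D_sum, ← Finset.add_sum_erase _ _ hi, hi', one_mul, hβ, zero_add] at this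
      rw [← this]
      refine Finset.sum_congr rfl fun j _ => ?_
      rw [d.D_mul, hβ, Subfield.smul_def, smul_eq_mul]; ring
    have h2 := ih _ (Finset.erase_ssubset hi) _ h1
    have h3 : ∀ j ∈ s, (g' j : F) ∈ k1 := by
      intro j hj
      refine hc _ (g' j).2 ?_
      by_cases hji : j = i
      · rw [hji, hi', d.D_one]
      · exact congrArg Subtype.val (h2 j (Finset.mem_erase.mpr ⟨hji, hj⟩))
    have h4 := hli s (fun j => if h : j ∈ s then ⟨g' j, h3 j h⟩ else 0) (by
      rw [← hg']
      refine Finset.sum_congr rfl fun j hj => ?_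
      rw [dif_pos hj, Subfield.smul_def, smul_eq_mul]) i hi
    simp only [dif_pos hi] at h4
    have h5 := congrArg Subtype.val h4
    simp only [hi'] at h5
    exact one_ne_zero h5

/-- Descent of the coefficients. -/
theorem mem_closure_descent (K0 k1 K1 : Subfield F) (h0 : K0 ≤ K1) (h1 : k1 ≤ K1)
    (hD : ∀ u ∈ K1, d.D u ∈ K1) (hc : ∀ u ∈ K1, d.D u = 0 → u ∈ k1) {u : F}
    (hu : u ∈ K1) (hu' : u ∈ Subfield.closure ((K0 : Set F) ∪ d.const)) :
    u ∈ Subfield.closure ((K0 : Set F) ∪ k1) := by
  classical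
  set F1 := Subfield.closure ((K0 : Set F) ∪ k1)
  have hF1 : F1 ≤ K1 := Subfield.closure_le.mpr (Set.union_subset h0 h1)
  obtain ⟨b, hbC, hsp, hli⟩ := exists_linearIndependent k1 (d.const : Set F)
  have hli' : LinearIndependent K1 ((↑) : b → F) :=
    d.linearIndependent_of_const k1 K1 hD hc _ (fun i => hbC i.2) hli
  let W := Submodule.span F1 b
  have hCW : ∀ c ∈ d.const, c ∈ W := by
    intro c hc
    have : c ∈ Submodule.span k1 b := hsp ▸ Submodule.subset_span hc
    refine Submodule.span_induction (fun x hx => Submodule.subset_span hx) W.zero_mem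
      (fun _ _ _ _ => W.add_mem) (fun a x _ hx => ?_) this
    exact W.smul_mem ⟨a, Subfield.subset_closure (Or.inr a.2)⟩ hx
  have hmulC : ∀ c ∈ d.const, ∀ x ∈ W, c * x ∈ W := by
    intro c hc x hx
    refine Submodule.span_induction (fun x hx => hCW _ (d.const.mul_mem hc (hbC hx)))
      (by simp) (fun _ _ _ _ a1 a2 => by rw [mul_add]; exact W.add_mem a1 a2)
      (fun a x _ hx => by rw [mul_smul_comm]; exact W.smul_mem a hx) hx
  have hW : ∀ y ∈ Subring.closure ((K0 : Set F) ∪ d.const), ∀ x ∈ W, y * x ∈ W := by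
    intro y hy
    induction hy using Subring.closure_induction with
    | mem y hy =>
      rcases hy with hy | hy
      · intro x hx
        exact W.smul_mem ⟨y, Subfield.subset_closure (Or.inl hy)⟩ hx
      · exact hmulC y hy
    | zero => intro x _; simp
    | one => intro x hx; simpa using hx
    | add y z _ _ a1 a2 => intro x hx; rw [add_mul]; exact W.add_mem (a1 x hx) (a2 x hx)
    | neg y _ a1 => intro x hx; rw [neg_mul]; exact W.neg_mem (a1 x hx)
    | mul y z _ _ a1 a2 => intro x hx; rw [mul_assoc]; exact a1 _ (a2 x hx)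
  obtain ⟨y, hy, z, hz, rfl⟩ := Subfield.mem_closure_iff.mp hu'
  by_cases hz0 : z = 0
  · simp [hz0]
  have hyW : y ∈ W := by simpa using hW y hy 1 (hCW 1 d.const.one_mem)
  have hzW : z ∈ W := by simpa using hW z hz 1 (hCW 1 d.const.one_mem)
  obtain ⟨cy, hcy⟩ := (Finsupp.mem_span_iff_linearCombination F1 b y).mp hyW
  obtain ⟨cz, hcz⟩ := (Finsupp.mem_span_iff_linearCombination F1 b z).mp hzW
  have hcz0 : cz ≠ 0 := by rintro rfl; simp at hcz; exact hz0 hcz.symm
  obtain ⟨ρ, hρ⟩ := Finsupp.ne_iff.mp hcz0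
  let s := cy.support ∪ cz.support
  have hys : y = ∑ j ∈ s, (cy j : F) * j := by
    rw [← hcy, Finsupp.linearCombination_apply,
      Finsupp.sum_of_support_subset _ Finset.subset_union_left _ (by simp)]
    rfl
  have hzs : z = ∑ j ∈ s, (cz j : F) * j := by
    rw [← hcz, Finsupp.linearCombination_apply,
      Finsupp.sum_of_support_subset _ Finset.subset_union_right _ (by simp)]
    rfl
  have key := linearIndependent_iff'.mp hli' s
    (fun j => ⟨y / z * cz j - cy j, K1.sub_mem (K1.mul_mem hu (hF1 (cz j).2)) (hF1 (cy j).2)⟩)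
    (by
      simp only [Subfield.smul_def, smul_eq_mul, sub_mul, Finset.sum_sub_distrib, mul_assoc,
        ← Finset.mul_sum, ← hys, ← hzs]
      field_simp
      ring) ρ (Finset.mem_union_right _ (Finsupp.mem_support_iff.mpr hρ))
  have key' : y / z * cz ρ - cy ρ = 0 := congrArg Subtype.val key
  have hρ' : (cz ρ : F) ≠ 0 := fun h => hρ (Subtype.ext h)
  have : y / z = cy ρ / cz ρ := by rw [eq_div_iff hρ']; linear_combination key'
  rw [this]
  exact F1.div_mem (cy ρ).2 (cz ρ).2

end Der

end Pool.Agent.P.MP_7ede32_ag
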