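import Pool.Agent.P.MP_7ede32_ag.Loc

/-! One-jets: dual numbers, derivations as ring maps, extension of derivations. -/

open scoped DualNumber Polynomial
open TrivSqZeroExt

namespace Pool.Agent.P.MP_7ede32_ag

/-- the dual number `a + b ε` -/
def dn {R : Type*} (a b : R) : R[ε] := (a, b)

@[simp] theorem fst_dn {R : Type*} (a b : R) : (dn a b).fst = a := rfl
@[simp] theorem snd_dn {R : Type*} (a b : R) : (dn a b).snd = b := rfl

theorem dn_eta {R : Type*} (x : R[ε]) : dn x.fst x.snd = x := rfl

/-- base change of dual numbers -/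
def dmap {R S : Type*} [CommRing R] [CommRing S] (φ : R →+* S) : R[ε] →+* S[ε] where
  toFun x := dn (φ x.fst) (φ x.snd)
  map_one' := by ext <;> simp
  map_mul' x y := by ext <;> simp
  map_zero' := by ext <;> simp
  map_add' x y := by ext <;> simp

@[simp] theorem fst_dmap {R S : Type*} [CommRing R] [CommRing S] (φ : R →+* S) (x : R[ε]) :
    (dmap φ x).fst = φ x.fst := rfl
@[simp] theorem snd_dmap {R S : Type*} [CommRing R] [CommRing S] (φ : R →+* S) (x : R[ε]) :
    (dmap φ x).snd = φ x.snd := rfl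

theorem dmap_dn {R S : Type*} [CommRing R] [CommRing S] (φ : R →+* S) (a b : R) :
    dmap φ (dn a b) = dn (φ a) (φ b) := rfl

theorem dmap_dmap {R S T : Type*} [CommRing R] [CommRing S] [CommRing T] (φ : R →+* S)
    (ψ : S →+* T) (x : R[ε]) : dmap ψ (dmap φ x) = dmap (ψ.comp φ) x := rfl

theorem dmap_id {R : Type*} [CommRing R] (x : R[ε]) : dmap (RingHom.id R) x = x := rfl

/-- the constant term as a ring map -/
def fstR (R : Type*) [CommRing R] : R[ε] →+* R := (TrivSqZeroExt.fstHom R R R).toRingHom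

@[simp] theorem fstR_apply {R : Type*} [CommRing R] (x : R[ε]) : fstR R x = x.fst := rfl

namespace Der

variable {K : Type*} [Field K] (d : Der K)

/-- the one-jet `u ↦ u + (D u) ε` -/
def jet : K →+* K[ε] where
  toFun u := dn u (d.D u)
  map_one' := by ext <;> simp [d.D_one]
  map_mul' x y := by
    ext
    · simp
    · simp [d.D_mul]; ring
  map_zero' := by ext <;> simp [d.D_zero]
  map_add' x y := by ext <;> simp [d.D_add]

@[simp] theorem fst_jet (u : K) : (d.jet u).fst = u := rfl
@[simp] theorem snd_jet (u : K) : (d.jet u).snd = d.D u := rfl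

/-- the derivation attached to a section of the dual numbers -/
def ofJet (J : K →+* K[ε]) (hJ : ∀ u, (J u).fst = u) : Der K where
  D u := (J u).snd
  D_add x y := by simp
  D_mul x y := by rw [map_mul, DualNumber.snd_mul, hJ, hJ]; ring

theorem D_sum {ι : Type*} (s : Finset ι) (f : ι → K) : d.D (∑ i ∈ s, f i) = ∑ i ∈ s, d.D (f i) := by
  classical
  induction s using Finset.induction_on with
  | empty => simp [d.D_zero]
  | insert a s ha ih => rw [Finset.sum_insert ha, Finset.sum_insert ha, d.D_add, ih]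

theorem D_pow' (x : K) (n : ℕ) : d.D (x ^ n) = n * x ^ (n - 1) * d.D x := by
  cases n with
  | zero => simp [d.D_one]
  | succ n => rw [d.D_pow]; simp

theorem D_eval (p : K[X]) (x : K) : d.D (p.eval x) =
    (∑ i ∈ p.support, d.D (p.coeff i) * x ^ i) + p.derivative.eval x * d.D x := by
  rw [Polynomial.eval_eq_sum, Polynomial.sum_def, d.D_sum, Polynomial.derivative_eval,
    Polynomial.sum_def, Finset.sum_mul, ← Finset.sum_add_distrib]
  refine Finset.sum_congr rfl fun i _ => ?_
  rw [d.D_mul, d.D_pow']; ring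

/-- The derivative of an algebraic element. -/
theorem D_of_algebraic [CharZero K] (E : Subfield K) {g : K} (hg : IsAlgebraic E g) :
    ∃ (p : E[X]), Polynomial.aeval g p.derivative ≠ 0 ∧ Polynomial.aeval g p.derivative * d.D g =
      -∑ i ∈ p.support, d.D (p.coeff i : K) * g ^ i := by
  have hint := hg.isIntegral
  refine ⟨minpoly E g, ?_, ?_⟩
  · have hsep : (minpoly E g).Separable := (minpoly.irreducible hint).separable
    exact hsep.aeval_derivative_ne_zero (minpoly.aeval E g)
  · have h0 : ((minpoly E g).map (algebraMap E K)).eval g = 0 := by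
      rw [Polynomial.eval_map_algebraMap]; exact minpoly.aeval E g
    have h1 := d.D_eval ((minpoly E g).map (algebraMap E K)) g
    rw [h0, d.D_zero, Polynomial.support_map_of_injective _ (algebraMap E K).injective,
      Polynomial.derivative_map, Polynomial.eval_map_algebraMap] at h1
    simp only [Polynomial.coeff_map] at h1
    have h2 : ∀ i, algebraMap E K ((minpoly E g).coeff i) = ((minpoly E g).coeff i : K) :=
      fun _ => rfl
    simp only [h2] at h1
    linear_combination -h1

theorem D_mem_of_algebraic [CharZero K] (E F : Subfield K) (hEF : E ≤ F)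
    (hD : ∀ u ∈ E, d.D u ∈ F) {g : K} (hg : IsAlgebraic E g) (hgF : g ∈ F) : d.D g ∈ F := by
  obtain ⟨p, h1, h2⟩ := d.D_of_algebraic E hg
  have h3 : d.D g = (Polynomial.aeval g p.derivative)⁻¹ *
      -∑ i ∈ p.support, d.D (p.coeff i : K) * g ^ i := by
    rw [← h2]; field_simp
  rw [h3]
  refine F.mul_mem (F.inv_mem ?_) (F.neg_mem (F.sum_mem fun i _ =>
    F.mul_mem (hD _ (p.coeff i).2) (F.pow_mem hgF i)))
  rw [Polynomial.aeval_eq_sum_range]
  refine F.sum_mem fun i _ => ?_
  rw [Algebra.smul_def]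
  exact F.mul_mem (hEF (p.derivative.coeff i).2) (F.pow_mem hgF i)

theorem D_eq_zero_of_algebraic [CharZero K] (E : Subfield K) (hD : ∀ u ∈ E, d.D u = 0) {g : K}
    (hg : IsAlgebraic E g) : d.D g = 0 := by
  obtain ⟨p, h1, h2⟩ := d.D_of_algebraic E hg
  rw [Finset.sum_eq_zero fun i _ => by rw [hD _ (p.coeff i).2, zero_mul], neg_zero] at h2
  exact (mul_eq_zero.mp h2).resolve_left h1

/-- the field of constants -/
def const : Subfield K where
  carrier := {u | d.D u = 0}
  mul_mem' {x y} hx hy := by
    simp only [Set.mem_ofPred_eq] at *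
    rw [d.D_mul, hx, hy]; ring
  one_mem' := d.D_one
  add_mem' {x y} hx hy := by
    simp only [Set.mem_ofPred_eq] at *
    rw [d.D_add, hx, hy]; ring
  zero_mem' := d.D_zero
  neg_mem' {x} hx := by
    simp only [Set.mem_ofPred_eq] at *
    rw [d.D_neg, hx]; ring
  inv_mem' x hx := by
    simp only [Set.mem_ofPred_eq] at *
    rw [d.D_inv, hx]; simp

theorem mem_const {u : K} : u ∈ d.const ↔ d.D u = 0 := Iff.rfl

/-- the elements of `F` whose derivative lies in `F` -/
def stab (F : Subfield K) : Subfield K where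
  carrier := {u | u ∈ F ∧ d.D u ∈ F}
  mul_mem' {x y} hx hy := ⟨F.mul_mem hx.1 hy.1, by
    rw [d.D_mul]; exact F.add_mem (F.mul_mem hx.1 hy.2) (F.mul_mem hy.1 hx.2)⟩
  one_mem' := ⟨F.one_mem, by rw [d.D_one]; exact F.zero_mem⟩
  add_mem' {x y} hx hy := ⟨F.add_mem hx.1 hy.1, by rw [d.D_add]; exact F.add_mem hx.2 hy.2⟩
  zero_mem' := ⟨F.zero_mem, by rw [d.D_zero]; exact F.zero_mem⟩
  neg_mem' {x} hx := ⟨F.neg_mem hx.1, by rw [d.D_neg]; exact F.neg_mem hx.2⟩
  inv_mem' x hx := ⟨F.inv_mem hx.1, by
    rw [d.D_inv]; exact F.div_mem (F.neg_mem hx.2) (F.pow_mem hx.1 2)⟩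

theorem mem_stab {F : Subfield K} {u : K} : u ∈ d.stab F ↔ u ∈ F ∧ d.D u ∈ F := Iff.rfl

/-- restriction of a derivation along a field embedding with stable image -/
theorem exists_restrict {M : Type*} [Field M] (φ : M →+* K) (h : ∀ u, ∃ v, d.D (φ u) = φ v) :
    ∃ d' : Der M, ∀ u, φ (d'.D u) = d.D (φ u) := by
  choose f hf using h
  refine ⟨⟨f, fun x y => φ.injective ?_, fun x y => φ.injective ?_⟩, fun u => (hf u).symm⟩
  · rw [← hf, map_add, d.D_add, map_add, hf, hf]
  · rw [← hf, map_mul, d.D_mul, map_add, map_mul, map_mul, hf, hf]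

end Der

/-- a copy of the dual numbers without algebra structure -/
def DCopy (L : Type*) := L[ε]

instance (L : Type*) [CommRing L] : CommRing (DCopy L) := inferInstanceAs (CommRing L[ε])

theorem exists_jet_lift {R L : Type*} [CommRing R] [Field L] [Algebra R L]
    [Algebra.FormallySmooth R L] (j : R →+* L[ε]) (hj : ∀ r, (j r).fst = algebraMap R L r) :
    ∃ d : Der L, ∀ r, d.D (algebraMap R L r) = (j r).snd := by
  let j' : R →+* DCopy L := j
  let : Algebra R (DCopy L) := j'.toAlgebra
  let g : DCopy L →ₐ[R] L := { (fstR L : DCopy L →+* L) with commutes' := hj }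
  have hg : Function.Surjective g := fun x => ⟨(dn x 0 : L[ε]), rfl⟩
  have hg' : IsNilpotent (RingHom.ker (g : DCopy L →+* L)) := by
    refine ⟨2, ?_⟩
    rw [sq, Ideal.zero_eq_bot, eq_bot_iff, Ideal.mul_le]
    intro x hx y hy
    have hx' : TrivSqZeroExt.fst (x : L[ε]) = 0 := hx
    have hy' : TrivSqZeroExt.fst (y : L[ε]) = 0 := hy
    rw [Ideal.mem_bot]
    have key : ∀ a b : L[ε], a.fst = 0 → b.fst = 0 → a * b = 0 := by
      intro a b ha hb
      ext
      · simp [ha]
      · simp [ha, hb]
    exact key x y hx' hy'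
  let J := Algebra.FormallySmooth.liftOfSurjective (AlgHom.id R L) g hg hg'
  have hJ : ∀ u, ((J u : DCopy L) : L[ε]).fst = u := fun u =>
    Algebra.FormallySmooth.liftOfSurjective_apply (AlgHom.id R L) g hg hg' u
  refine ⟨Der.ofJet (J.toRingHom : L →+* L[ε]) hJ, fun r => ?_⟩
  have := J.commutes r
  exact congrArg (fun z : L[ε] => z.snd) this

/-- Derivations extend along algebraic extensions in characteristic zero. -/
theorem Der.exists_extend {K L : Type*} [Field K] [CharZero K] [Field L] [Algebra K L]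
    [Algebra.IsAlgebraic K L] (d : Der K) :
    ∃ d' : Der L, ∀ u, d'.D (algebraMap K L u) = algebraMap K L (d.D u) := by
  have : Algebra.FormallyEtale K L := Algebra.FormallyEtale.of_isSeparable K L
  exact exists_jet_lift ((dmap (algebraMap K L)).comp d.jet) (fun _ => rfl)

end Pool.Agent.P.MP_7ede32_ag
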