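import Pool.Agent.P.MP_7ede32_ag.FKit
import Pool.Agent.P.MP_7ede32_ag.FAcl

/-! For general coefficients the invariant polynomials have no common zero. -/

open scoped DualNumber
open MvPolynomial Finset

namespace Pool.Agent.P.MP_7ede32_ag

variable {l : ℕ} {ι I J : Type}

/-- the invariant polynomial of the `j`-th group of linear forms -/
noncomputable def SigJ (G : MvPolynomial (Vr l) (R0 ι l)) (emb : J × (Fin (l + 2) ⊕ ι) → I)
    {F : Type*} [CommRing F] (A : I → Fin (l + 2) → F[ε]) (j : J) (z : Fin (l + 2) → F[ε]) : F :=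
  Sig G (Matrix.of fun a b => A (emb (j, Sum.inl a)) b) (fun i => A (emb (j, Sum.inr i))) z

theorem SigJ_map (G : MvPolynomial (Vr l) (R0 ι l)) (emb : J × (Fin (l + 2) ⊕ ι) → I)
    {F F' : Type*} [CommRing F] [CommRing F'] (φ : F →+* F') (A : I → Fin (l + 2) → F[ε]) (j : J)
    (z : Fin (l + 2) → F[ε]) :
    φ (SigJ G emb A j z) = SigJ G emb (fun i b => dmap φ (A i b)) j (fun b => dmap φ (z b)) := by
  unfold SigJ
  rw [Sig_map]
  rfl

/-- the values of the universal coefficients -/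
def vals {I F : Type*} {N : ℕ} (A : I → Fin N → F[ε]) : (I × Fin N) ⊕ (I × Fin N) → F :=
  Sum.elim (fun p => (A p.1 p.2).fst) (fun p => (A p.1 p.2).snd)

/-- the universal coefficients -/
noncomputable def univA (I : Type) (N : ℕ) (R : Type*) [CommRing R] :
    I → Fin N → (MvPolynomial ((I × Fin N) ⊕ (I × Fin N)) R)[ε] :=
  fun i b => dn (X (Sum.inl (i, b))) (X (Sum.inr (i, b)))

theorem Good.not_indep {G : MvPolynomial (Vr l) (R0 ι l)} (hG : Good G) {F : Type} [Field F]
    [CharZero F] (E : Subfield F) (z : Fin (l + 2) → E[ε]) (s : Fin (l + 2)) (hs : (z s).fst ≠ 0)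
    (A : Fin (l + 2) ⊕ ι → Fin (l + 2) → F[ε])
    (h : Sig G (Matrix.of fun a b => A (Sum.inl a) b) (fun i => A (Sum.inr i))
      (fun b => dmap (algebraMap E F) (z b)) = 0) : ¬ AlgebraicIndependent E (vals A) := by
  intro hind
  let U := univA (Fin (l + 2) ⊕ ι) (l + 2) E
  let σ := Sig G (Matrix.of fun a b => U (Sum.inl a) b) (fun i => U (Sum.inr i))
    (fun b => dmap C (z b))
  have key : ∀ {F' : Type} [CommRing F'] (θ : E →+* F')
      (A' : Fin (l + 2) ⊕ ι → Fin (l + 2) → F'[ε]), eval₂Hom θ (vals A') σ =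
      Sig G (Matrix.of fun a b => A' (Sum.inl a) b) (fun i => A' (Sum.inr i))
        (fun b => dmap θ (z b)) := by
    intro F' _ θ A'
    have h1 : ∀ i b, dmap (eval₂Hom θ (vals A')) (U i b) = A' i b := by
      intro i b; ext <;> simp [U, univA, vals]
    rw [Sig_map]
    congr 1
    · ext1 a b; exact h1 _ _
    · funext i b; exact h1 _ _
    · funext b; ext <;> simp
  have h0 : σ = 0 := hind (by
    rw [map_zero]
    exact (key (algebraMap E F) A).trans h)
  obtain ⟨B, A', hne⟩ := hG.exists_ne z s hs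
  have := key (RingHom.id E) (Sum.elim B A')
  rw [h0, map_zero] at this
  exact hne this.symm

theorem card_le_of_dep {S U F : Type} [Fintype S] [Fintype U] [Field F] [CharZero F]
    (v : S × U → F) (hv : AlgebraicIndependent ℚ v) (Z : Finset F)
    (h : ∀ j, ¬ AlgebraicIndependent (Subfield.closure (Z : Set F)) (fun u => v (j, u))) :
    Fintype.card S ≤ Z.card := by
  classical
  choose u hu using fun j => exists_mem_acl_of_not_indep _ _ (h j)
  let T : Finset F := Z ∪ (univ.filter fun p : S × U => p.2 ≠ u p.1).image v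
  have hT1 : ∀ y ∈ Z, y ∈ acl (T : Set F) := fun y hy => subset_acl _ (mem_union_left _ hy)
  have hT2 : ∀ j x, x ≠ u j → v (j, x) ∈ acl (T : Set F) := fun j x hx =>
    subset_acl _ (mem_union_right _ (mem_image_of_mem v (mem_filter.mpr ⟨mem_univ (j, x), hx⟩)))
  have hT : ∀ p, v p ∈ acl (T : Set F) := by
    rintro ⟨j, x⟩
    by_cases hx : x = u j
    · subst hx
      refine acl_le ?_ (hu j)
      rintro y (hy | ⟨x, hx, rfl⟩)
      · exact (Subfield.closure_le.mpr hT1) hy
      · exact hT2 j x hx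
    · exact hT2 j x hx
  have h1 := card_le_of_acl hv T hT
  have h2 : T.card ≤ Z.card + (univ.filter fun p : S × U => p.2 ≠ u p.1).card :=
    (card_union_le _ _).trans (Nat.add_le_add_left card_image_le _)
  have h3 := card_filter_add_card_filter_not (s := (univ : Finset (S × U)))
    (fun p : S × U => p.2 ≠ u p.1)
  have h4 : Fintype.card S ≤ (univ.filter fun p : S × U => ¬ p.2 ≠ u p.1).card := by
    rw [← card_univ]
    refine card_le_card_of_injOn (fun j => (j, u j)) (fun j _ => by simp) ?_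
    intro j _ j' _ h
    exact (Prod.mk.inj h).1
  rw [card_univ] at h3
  omega

theorem Good.exists_ne_generic [Fintype ι] {G : MvPolynomial (Vr l) (R0 ι l)} (hG : Good G)
    {emb : J × (Fin (l + 2) ⊕ ι) → I} (hemb : Function.Injective emb) {F : Type} [Field F]
    [CharZero F] (A : I → Fin (l + 2) → F[ε]) (hA : Function.Injective (theta A))
    (S : Finset J) (hS : 2 * (l + 2) < S.card) (z : Fin (l + 2) → F[ε]) (s : Fin (l + 2))
    (hs : (z s).fst ≠ 0) : ∃ j ∈ S, SigJ G emb A j z ≠ 0 := by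
  classical
  by_contra hne
  push Not at hne
  have hZ : AlgebraicIndependent ℤ (vals A) := by
    have : (aeval (vals A) : R0 I l →ₐ[ℤ] F).toRingHom = theta A := by
      refine MvPolynomial.ringHom_ext (fun r => by simp) fun p => ?_
      cases p <;> simp [theta, vals]
    rw [← this] at hA
    exact hA
  have := IsLocalization.isAlgebraic ℚ (nonZeroDivisors ℤ)
  have hQ : AlgebraicIndependent ℚ (vals A) := hZ.extendScalars ℚ
  let Z : Finset F := univ.image (fun b => (z b).fst) ∪ univ.image (fun b => (z b).snd)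
  have hZc : Z.card ≤ 2 * (l + 2) := by
    refine (card_union_le _ _).trans ?_
    have h1 := card_image_le (s := univ) (f := fun b => (z b).fst)
    have h2 := card_image_le (s := univ) (f := fun b => (z b).snd)
    simp only [card_univ, Fintype.card_fin] at h1 h2
    omega
  have hz1 : ∀ b, (z b).fst ∈ Subfield.closure (Z : Set F) := fun b =>
    Subfield.subset_closure (mem_union_left _ (mem_image_of_mem _ (mem_univ b)))
  have hz2 : ∀ b, (z b).snd ∈ Subfield.closure (Z : Set F) := fun b =>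
    Subfield.subset_closure (mem_union_right _ (mem_image_of_mem _ (mem_univ b)))
  let f : S × (((Fin (l + 2) ⊕ ι) × Fin (l + 2)) ⊕ ((Fin (l + 2) ⊕ ι) × Fin (l + 2))) →
      (I × Fin (l + 2)) ⊕ (I × Fin (l + 2)) := fun p =>
    Sum.map (Prod.map (fun x => emb (p.1.1, x)) id) (Prod.map (fun x => emb (p.1.1, x)) id) p.2
  have hf : Function.Injective f := by
    rintro ⟨j, ⟨x, b⟩ | ⟨x, b⟩⟩ ⟨j', ⟨x', b'⟩ | ⟨x', b'⟩⟩ h <;>
      simp only [f, Sum.map_inl, Sum.map_inr, Prod.map_apply, id, Sum.inl.injEq, Sum.inr.injEq,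
        Prod.mk.injEq, reduceCtorEq] at h
    all_goals
      obtain ⟨h1, rfl⟩ := h
      obtain ⟨h2, rfl⟩ := Prod.mk.inj (hemb h1)
      rw [Subtype.ext h2]
  have h := card_le_of_dep (vals A ∘ f) (hQ.comp f hf) Z fun j => by
    have e1 : (fun u => (vals A ∘ f) (j, u)) = vals (fun x => A (emb (j.1, x))) := by
      funext u
      rcases u with u | u <;> rfl
    rw [e1]
    refine hG.not_indep _ (fun b => dn ⟨_, hz1 b⟩ ⟨_, hz2 b⟩) s
      (fun h => hs (congrArg Subtype.val h)) _ ?_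
    have e2 : (fun b => dmap (algebraMap (Subfield.closure (Z : Set F)) F)
        (dn ⟨_, hz1 b⟩ ⟨_, hz2 b⟩)) = z := by
      funext b; rfl
    rw [e2]
    exact hne j.1 j.2
  rw [Fintype.card_coe] at h
  omega

theorem exists_field_of_disjoint {P : Type} [CommRing P] (I0 : Ideal P) (M : Submonoid P)
    (hd : Disjoint (I0 : Set P) M) : ∃ (F : Type) (_ : Field F) (φ : P →+* F),
      (∀ x ∈ I0, φ x = 0) ∧ ∀ x ∈ M, φ x ≠ 0 := by
  obtain ⟨𝔭, h𝔭, hI, hM⟩ := Ideal.exists_le_prime_disjoint I0 M hd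
  let φ : P →+* FractionRing (P ⧸ 𝔭) := (algebraMap (P ⧸ 𝔭) _).comp (Ideal.Quotient.mk 𝔭)
  have hφ : ∀ x, φ x = 0 ↔ x ∈ 𝔭 := fun x => by
    simp only [φ, RingHom.comp_apply]
    rw [map_eq_zero_iff _ (IsFractionRing.injective (P ⧸ 𝔭) _), Ideal.Quotient.eq_zero_iff_mem]
  exact ⟨_, inferInstance, φ, fun x hx => (hφ x).mpr (hI hx),
    fun x hx h => Set.disjoint_left.mp hM ((hφ x).mp h) hx⟩

/-- the universal ring of coefficients and jets -/
abbrev PP (I : Type) (l : ℕ) := MvPolynomial (Fin (l + 2) ⊕ Fin (l + 2)) (R0 I l)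

theorem Good.exists_delta [Fintype ι] {G : MvPolynomial (Vr l) (R0 ι l)} (hG : Good G)
    {emb : J × (Fin (l + 2) ⊕ ι) → I} (hemb : Function.Injective emb)
    (S : Finset J) (hS : 2 * (l + 2) < S.card) (s : Fin (l + 2)) :
    ∃ δ : R0 I l, δ ≠ 0 ∧ ∀ (F : Type) [Field F] (A : I → Fin (l + 2) → F[ε]), theta A δ ≠ 0 →
      ∀ z : Fin (l + 2) → F[ε], (z s).fst ≠ 0 → ∃ j ∈ S, SigJ G emb A j z ≠ 0 := by
  classical
  let A0 : I → Fin (l + 2) → (PP I l)[ε] := fun i b => dmap C (univA I (l + 2) ℤ i b)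
  let z0 : Fin (l + 2) → (PP I l)[ε] := fun b => dn (X (Sum.inl b)) (X (Sum.inr b))
  let σ : J → PP I l := fun j => SigJ G emb A0 j z0
  let I0 : Ideal (PP I l) := Ideal.span (σ '' S)
  let M : Submonoid (PP I l) := (nonZeroDivisors (R0 I l)).map (C : R0 I l →+* PP I l) ⊔
    Submonoid.powers (X (Sum.inl s))
  by_cases hd : Disjoint (I0 : Set (PP I l)) M
  · exfalso
    obtain ⟨F, _, φ, hI, hM⟩ := exists_field_of_disjoint I0 M hd
    have hinj : Function.Injective (φ.comp (C : R0 I l →+* PP I l)) := by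
      rw [injective_iff_map_eq_zero]
      intro r hr
      by_contra h0
      exact hM _ (Submonoid.mem_sup_left ⟨r, mem_nonZeroDivisors_of_ne_zero h0, rfl⟩) hr
    have : CharZero F := charZero_of_injective_ringHom hinj
    have hth : theta (fun i b => dmap φ (A0 i b)) = φ.comp (C : R0 I l →+* PP I l) := by
      refine MvPolynomial.ringHom_ext (fun r => by simp) fun p => ?_
      cases p <;> simp [theta, A0, univA]
    obtain ⟨j, hj, hne⟩ := hG.exists_ne_generic hemb (fun i b => dmap φ (A0 i b))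
      (hth ▸ hinj) S hS (fun b => dmap φ (z0 b)) s
      (hM _ (Submonoid.mem_sup_right (Submonoid.mem_powers _)))
    rw [← SigJ_map] at hne
    exact hne (hI _ (Ideal.subset_span ⟨j, hj, rfl⟩))
  · obtain ⟨x, hxI, hxM⟩ := Set.not_disjoint_iff.mp hd
    obtain ⟨_, ⟨δ, hδ, rfl⟩, _, ⟨n, rfl⟩, rfl⟩ := Submonoid.mem_sup.mp hxM
    refine ⟨δ, nonZeroDivisors.ne_zero hδ, fun F _ A hA z hz => ?_⟩
    by_contra hne
    push Not at hne
    let ψ : PP I l →+* F :=
      eval₂Hom (theta A) (Sum.elim (fun b => (z b).fst) (fun b => (z b).snd))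
    have h1 : I0 ≤ RingHom.ker ψ := by
      rw [Ideal.span_le]
      rintro _ ⟨j, hj, rfl⟩
      rw [SetLike.mem_coe, RingHom.mem_ker, SigJ_map, ← hne j hj]
      congr 1
      · funext i b; ext <;> simp [ψ, A0, univA, theta]
      · funext b; ext <;> simp [ψ, z0]
    have h2 := RingHom.mem_ker.mp (h1 hxI)
    simp only [ψ, map_mul, map_pow, coe_eval₂Hom, eval₂_C, eval₂_X, Sum.elim_inl] at h2
    exact mul_ne_zero hA (pow_ne_zero _ hz) h2

/-- all maximal minors of the coefficient matrix are nonzero -/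
def GenPos {I F : Type*} {N : ℕ} [CommRing F] (a : I → Fin N → F) : Prop :=
  ∀ T : Fin N → I, Function.Injective T → (Matrix.of fun i j => a (T i) j).det ≠ 0

theorem Good.exists_Delta [Fintype ι] [Fintype I] [Fintype J] {G : MvPolynomial (Vr l) (R0 ι l)}
    (hG : Good G) {emb : J × (Fin (l + 2) ⊕ ι) → I} (hemb : Function.Injective emb)
    (hJ : 3 * (l + 2) ≤ Fintype.card J) (i0 : I) :
    ∃ Δ : R0 I l, Δ ≠ 0 ∧ ∀ (F : Type) [Field F] (A : I → Fin (l + 2) → F[ε]), theta A Δ ≠ 0 →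
      GenPos (fun i b => (A i b).fst) ∧ (A i0 0).snd ≠ 0 ∧
      ∀ z : Fin (l + 2) → F[ε], (∃ s, (z s).fst ≠ 0) → ∃ j, SigJ G emb A j z ≠ 0 ∧
        ∀ i, ∑ b, (A (emb (j, Sum.inr i)) b).fst * (z b).fst ≠ 0 := by
  classical
  choose δ hδ0 hδ using fun p : {S : Finset J // 2 * (l + 2) < S.card} × Fin (l + 2) =>
    hG.exists_delta hemb p.1.1 p.1.2 p.2
  let μ : {T : Fin (l + 2) → I // Function.Injective T} → R0 I l := fun T =>
    (Matrix.of fun i j => (X (Sum.inl (T.1 i, j)) : R0 I l)).det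
  have hμ : ∀ {F : Type} [CommRing F] (A : I → Fin (l + 2) → F[ε]) T,
      theta A (μ T) = (Matrix.of fun i j => (A (T.1 i) j).fst).det := by
    intro F _ A T
    rw [RingHom.map_det]
    congr 1
    ext i j
    simp [theta]
  have hμ0 : ∀ T, μ T ≠ 0 := by
    intro T h
    have h1 := hμ (F := ℤ) (fun x j => dn (if x = T.1 j then 1 else 0) 0) T
    rw [h, map_zero] at h1
    have h2 : (Matrix.of fun i j => (dn (if T.1 i = T.1 j then (1 : ℤ) else 0) 0).fst) = 1 := by
      ext i j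
      simp [T.2.eq_iff, Matrix.one_apply]
    rw [h2, Matrix.det_one] at h1
    exact zero_ne_one h1
  refine ⟨(∏ p, δ p) * (∏ T, μ T) * X (Sum.inr (i0, 0)), ?_, fun F _ A hA => ?_⟩
  · exact mul_ne_zero (mul_ne_zero (prod_ne_zero_iff.mpr fun p _ => hδ0 p)
      (prod_ne_zero_iff.mpr fun T _ => hμ0 T)) (X_ne_zero _)
  rw [map_mul, map_mul, map_prod, map_prod] at hA
  have h1 := prod_ne_zero_iff.mp (left_ne_zero_of_mul (left_ne_zero_of_mul hA))
  have h2 := prod_ne_zero_iff.mp (right_ne_zero_of_mul (left_ne_zero_of_mul hA))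
  have h3 := right_ne_zero_of_mul hA
  have hgen : GenPos (fun i b => (A i b).fst) := fun T hT => by
    have := h2 ⟨T, hT⟩ (mem_univ _)
    rwa [hμ] at this
  refine ⟨hgen, by simpa [theta] using h3, ?_⟩
  rintro z ⟨s, hs⟩
  let bad : Finset J :=
    univ.filter fun j => ∃ i, ∑ b, (A (emb (j, Sum.inr i)) b).fst * (z b).fst = 0
  have hbad : bad.card < l + 2 := by
    by_contra hle
    push Not at hle
    obtain ⟨e, he⟩ := Function.Embedding.exists_of_card_le_finset (α := Fin (l + 2)) (s := bad)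
      (by simpa using hle)
    choose i hi using fun a => (mem_filter.mp (he ⟨a, rfl⟩)).2
    have hT : Function.Injective fun a => emb (e a, Sum.inr (i a)) := fun a b h =>
      e.injective (Prod.mk.inj (hemb h)).1
    have := Matrix.eq_zero_of_mulVec_eq_zero (hgen _ hT) (v := fun b => (z b).fst) (funext hi)
    exact hs (congrFun this s)
  have hS : 2 * (l + 2) < badᶜ.card := by
    rw [card_compl]; omega
  obtain ⟨j, hj, hne⟩ := hδ (⟨badᶜ, hS⟩, s) F A (h1 _ (mem_univ _)) z hs
  refine ⟨j, hne, fun i hi => ?_⟩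
  exact (mem_compl.mp hj) (mem_filter.mpr ⟨mem_univ _, i, hi⟩)

end Pool.Agent.P.MP_7ede32_ag
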