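import Pool.Agent.P.MP_7ede32_ag.FVal

/-! Functions with a bounded number of poles. -/

open scoped WithZero IntermediateField Polynomial
open WithZero

set_option linter.unusedSectionVars false

namespace Pool.Agent.P.MP_7ede32_ag.FF

variable {κ : Type} [Field κ] [IsAlgClosed κ] [CharZero κ] {K : Type} [Field K] [Algebra κ K]

open Classical in
/-- the space of functions whose poles are bounded by `E` -/
def LL (κ : Type) [Field κ] {K : Type} [Field K] [Algebra κ K] (E : Multiset (Valuation K ℤᵐ⁰)) :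
    Submodule κ K where
  carrier := {f | ∀ w, IsPlace κ w → w f ≤ exp (E.count w : ℤ)}
  add_mem' ha hb w hw := w.map_add_le (ha w hw) (hb w hw)
  zero_mem' w _ := by simp
  smul_mem' c x hx w hw := by
    rw [Algebra.smul_def, map_mul]
    refine (mul_le_of_le_one_left' ?_).trans (hx w hw)
    rcases eq_or_ne c 0 with rfl | hc
    · simp
    · exact (hw.2 c hc).le

open Classical in
lemma mem_LL {E : Multiset (Valuation K ℤᵐ⁰)} {f : K} :
    f ∈ LL κ E ↔ ∀ w, IsPlace κ w → w f ≤ exp (E.count w : ℤ) := Iff.rfl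

lemma mul_mem_LL {E E' : Multiset (Valuation K ℤᵐ⁰)} {f g : K} (hf : f ∈ LL κ E)
    (hg : g ∈ LL κ E') : f * g ∈ LL κ (E + E') := by
  classical
  intro w hw
  rw [map_mul, Multiset.count_add, Nat.cast_add, exp_add]
  exact mul_le_mul' (hf w hw) (hg w hw)

lemma LL_mono {E E' : Multiset (Valuation K ℤᵐ⁰)} (h : E ≤ E') : LL κ E ≤ LL κ E' := by
  classical
  intro f hf w hw
  refine (hf w hw).trans ?_
  rw [exp_le_exp, Nat.cast_le]
  exact Multiset.count_le_of_le _ h

lemma pow_mem_LL {E : Multiset (Valuation K ℤᵐ⁰)} {f : K} (hf : f ∈ LL κ E) (n : ℕ) :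
    f ^ n ∈ LL κ (n • E) := by
  induction n with
  | zero => intro w _; simp
  | succ n ih => rw [pow_succ, succ_nsmul]; exact mul_mem_LL ih hf

/-- `u` has at most `H` poles -/
def PB (κ : Type) [Field κ] {K : Type} [Field K] [Algebra κ K] (u : K) (H : ℕ) : Prop :=
  ∃ E : Multiset (Valuation K ℤᵐ⁰), E.card ≤ H ∧ u ∈ LL κ E

lemma PB_of {u : K} {H : ℕ} (S : Finset (Valuation K ℤᵐ⁰)) (n : Valuation K ℤᵐ⁰ → ℤ)
    (hn : ∀ w ∈ S, 0 ≤ n w) (hsum : ∑ w ∈ S, n w ≤ H)
    (h1 : ∀ w, IsPlace κ w → w ∈ S → w u ≤ exp (n w))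
    (h2 : ∀ w, IsPlace κ w → w ∉ S → w u ≤ 1) : PB κ u H := by
  classical
  refine ⟨∑ w ∈ S, Multiset.replicate (n w).toNat w, ?_, fun w hw => ?_⟩
  · rw [Multiset.card_sum]
    simp only [Multiset.card_replicate]
    zify
    rwa [Finset.sum_congr rfl fun w hw => Int.toNat_of_nonneg (hn w hw)]
  · have e : Multiset.count w (∑ w ∈ S, Multiset.replicate (n w).toNat w) =
        if w ∈ S then (n w).toNat else 0 := by
      rw [Multiset.count_sum']
      simp only [Multiset.count_replicate]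
      rw [Finset.sum_ite_eq']
    have key : w u ≤ exp ((Multiset.count w (∑ w ∈ S, Multiset.replicate (n w).toNat w) : ℕ) : ℤ) := by
      rw [e]
      split_ifs with h
      · rw [Int.toNat_of_nonneg (hn w h)]; exact h1 w hw h
      · simpa using h2 w hw h
    convert key

lemma IsCurveField.const_of_mem (hK : IsCurveField κ K) {u : K} (hu : u ∈ LL κ 0) :
    ∃ c, u = algebraMap κ K c := by
  by_contra h
  push Not at h
  have ht := transcendental_of_notMem_range h
  have ht' : Transcendental κ u⁻¹ := fun h' => ht (IsAlgebraic.inv_iff.mp h')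
  obtain ⟨S, hS, hsum⟩ := hK.sum_ord_zeros ht'
  have := hK.finite ht'
  have hpos : 0 < Module.finrank κ⟮u⁻¹⟯ K := Module.finrank_pos
  have hne : S.Nonempty := by
    rw [Finset.nonempty_iff_ne_empty]
    rintro rfl
    simp at hsum
    omega
  obtain ⟨w, hw⟩ := hne
  obtain ⟨hw1, hw2⟩ := (hS w).mp hw
  have h0 : u ≠ 0 := by rintro rfl; exact h 0 (by simp)
  have h3 := hu w hw1
  simp only [Multiset.count_zero, Nat.cast_zero, exp_zero] at h3
  exact absurd ((Valuation.one_lt_val_iff w h0).mpr hw2) (not_lt.mpr h3)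

lemma IsCurveField.const_of_PB (hK : IsCurveField κ K) {u : K} (hu : PB κ u 0) :
    ∃ c, u = algebraMap κ K c := by
  obtain ⟨E, hE, hu⟩ := hu
  rw [Nat.le_zero, Multiset.card_eq_zero] at hE
  exact hK.const_of_mem (hE ▸ hu)

lemma IsCurveField.finrank_le (hK : IsCurveField κ K) (E : Multiset (Valuation K ℤᵐ⁰)) :
    ∀ V : Submodule κ K, FiniteDimensional κ V → V ≤ LL κ E → Module.finrank κ V ≤ E.card + 1 := by
  classical
  induction E using Multiset.induction_on with
  | empty =>
    intro V _ hV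
    have : V ≤ Submodule.span κ {(1 : K)} := fun f hf => by
      obtain ⟨c, rfl⟩ := hK.const_of_mem (hV hf)
      exact Submodule.mem_span_singleton.mpr ⟨c, by simp [Algebra.smul_def]⟩
    refine (Submodule.finrank_mono this).trans ?_
    rw [finrank_span_singleton one_ne_zero]; simp
  | cons w0 E ih =>
    intro V _ hV
    rw [Multiset.card_cons]
    by_cases hle : V ≤ LL κ E
    · exact (ih V inferInstance hle).trans (by omega)
    obtain ⟨f0, hf0, hf1⟩ := Set.not_subset.mp hle
    have hoth : ∀ f ∈ V, ∀ w, IsPlace κ w → w ≠ w0 → w f ≤ exp (E.count w : ℤ) := by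
      intro f hf w hw hne
      have := hV hf w hw
      rw [Multiset.count_cons_of_ne hne] at this
      convert this
    have hw0 : ∀ f ∈ V, IsPlace κ w0 → w0 f ≤ exp ((E.count w0 : ℤ) + 1) := by
      intro f hf hw
      have := hV hf w0 hw
      rw [Multiset.count_cons_self, Nat.cast_succ] at this
      convert this
    obtain ⟨w, hw, hlt⟩ : ∃ w, IsPlace κ w ∧ exp (E.count w : ℤ) < w f0 := by
      by_contra hne
      push Not at hne
      exact hf1 fun w hw => by convert hne w hw
    obtain rfl : w = w0 := by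
      by_contra hne
      exact absurd (hoth f0 hf0 w hw hne) (not_le.mpr hlt)
    have he : w f0 = exp ((E.count w : ℤ) + 1) := le_antisymm (hw0 f0 hf0 hw) (exp_le_of_lt hlt)
    have h0 := ne_zero_of_val he
    have hsup : V ≤ (V ⊓ LL κ E) ⊔ Submodule.span κ {f0} := by
      intro f hf
      obtain ⟨c, hc⟩ := hK.exists_residue hw (f / f0) (by
        rw [map_div₀, he, div_le_one₀ exp_pos]; exact hw0 f hf hw)
      have hmem : f - c • f0 ∈ V := V.sub_mem hf (V.smul_mem c hf0)
      have : f = (f - c • f0) + c • f0 := by ring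
      rw [this]
      refine Submodule.add_mem_sup ⟨hmem, fun w' hw' => ?_⟩
        (Submodule.mem_span_singleton.mpr ⟨c, rfl⟩)
      by_cases hne : w' = w
      · subst hne
        have e : f - c • f0 = (f / f0 - algebraMap κ K c) * f0 := by
          rw [Algebra.smul_def]; field_simp
        have : w' (f - c • f0) ≤ exp (E.count w' : ℤ) := by
          refine le_exp_of_lt ?_
          rw [e, map_mul, he]
          exact mul_lt_of_lt_one_left exp_pos hc
        convert this
      · convert hoth _ hmem w' hw' hne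
    have h1 := ih (V ⊓ LL κ E) inferInstance inf_le_right
    have h2 := Submodule.finrank_add_le_finrank_add_finrank (V ⊓ LL κ E) (Submodule.span κ {f0})
    rw [finrank_span_singleton h0] at h2
    have h3 := Submodule.finrank_mono hsup
    omega

lemma IsCurveField.PB_of_local (hK : IsCurveField κ K) (h : Valuation K ℤᵐ⁰ → ℕ)
    (S0 : Finset (Valuation K ℤᵐ⁰)) (hS0 : ∀ w, IsPlace κ w → w ∉ S0 → h w = 0)
    (hS1 : ∀ w ∈ S0, IsPlace κ w) {ψ u : K}
    (hψ : ψ ≠ 0) (hloc : ∀ w, IsPlace κ w → w ψ * max 1 (w u) ≤ exp (h w : ℤ)) :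
    PB κ u (∑ w ∈ S0, h w) := by
  classical
  obtain ⟨S, hS, hsum⟩ := hK.exists_divisor hψ
  have hpl : ∀ w ∈ S0 ∪ S, IsPlace κ w := fun w hw => by
    rcases Finset.mem_union.mp hw with hw | hw
    · exact hS1 w hw
    · exact ((hS w).mp hw).1
  have key : ∀ w, IsPlace κ w → max 1 (w u) ≤ exp (h w + ord w ψ) := by
    intro w hw
    have h0 : w ψ ≠ 0 := (w.ne_zero_iff).mpr hψ
    rw [ord, exp_add, exp_neg, exp_log h0, le_mul_inv_iff₀ (zero_lt_iff.mpr h0), mul_comm]
    exact hloc w hw
  refine PB_of (S0 ∪ S) (fun w => h w + ord w ψ) (fun w hw => ?_) ?_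
    (fun w hw _ => (le_max_right _ _).trans (key w hw)) fun w hw hn => ?_
  · have := (le_max_left _ _).trans (key w (hpl w hw))
    rwa [← exp_zero, exp_le_exp] at this
  · rw [Finset.sum_add_distrib,
      ← Finset.sum_subset (Finset.subset_union_left (s₂ := S)) (fun w hw hn => by
        rw [hS0 w (hpl w hw) hn]; rfl),
      ← Finset.sum_subset (Finset.subset_union_right (s₁ := S0)) (fun w hw hn =>
        ord_eq_zero_of_eq_one (by
          by_contra hne
          exact hn ((hS w).mpr ⟨hpl w hw, hne⟩))), hsum]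
    simp
  · have := (le_max_right _ _).trans (key w hw)
    rw [Finset.mem_union, not_or] at hn
    rwa [hS0 w hw hn.1, ord_eq_zero_of_eq_one (by
      by_contra hne
      exact hn.2 ((hS w).mpr ⟨hw, hne⟩))] at this

/-- a uniform bound for the valuations of finitely many functions -/
lemma IsCurveField.exists_fun (hK : IsCurveField κ K) (𝒮 : Finset K) :
    ∃ (h : Valuation K ℤᵐ⁰ → ℕ) (S0 : Finset (Valuation K ℤᵐ⁰)),
      (∀ w, IsPlace κ w → w ∉ S0 → h w = 0) ∧ (∀ w ∈ S0, IsPlace κ w) ∧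
      ∀ w, ∀ c ∈ 𝒮, w c ≤ exp (h w : ℤ) := by
  classical
  choose S hS using fun c : {c : K // c ≠ 0} => hK.exists_divisor c.2
  refine ⟨fun w => 𝒮.sup fun g => (log (w g)).toNat,
    𝒮.biUnion fun c => if h : c ≠ 0 then S ⟨c, h⟩ else ∅, fun w hw hn => ?_, fun w hw => ?_,
    fun w c hc => ?_⟩
  · rw [← Nat.le_zero, Finset.sup_le_iff]
    intro c hc
    by_cases h : c = 0
    · simp [h]
    · have : w c = 1 := by
        by_contra hne
        exact hn (Finset.mem_biUnion.mpr ⟨c, hc, by
          rw [dif_pos h]; exact ((hS ⟨c, h⟩).1 w).mpr ⟨hw, hne⟩⟩)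
      simp [this]
  · obtain ⟨c, -, hc⟩ := Finset.mem_biUnion.mp hw
    split_ifs at hc with h
    · exact (((hS ⟨c, h⟩).1 w).mp hc).1
    · simp at hc
  · refine le_exp_of_log_le ((Int.self_le_toNat _).trans ?_)
    exact_mod_cast Finset.le_sup (f := fun g => (log (w g)).toNat) hc

lemma IsCurveField.exists_LL (hK : IsCurveField κ K) (u : K) : ∃ E, u ∈ LL κ E := by
  obtain ⟨h, S0, h1, h2, h3⟩ := hK.exists_fun {u}
  obtain ⟨E, -, hE⟩ := hK.PB_of_local h S0 h1 h2 (u := u) one_ne_zero fun w _ => by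
    rw [map_one, one_mul, max_le_iff]
    exact ⟨by rw [← exp_zero, exp_le_exp]; omega, h3 w u (Finset.mem_singleton_self u)⟩
  exact ⟨E, hE⟩

lemma linearIndependent_pow {A : Type*} [CommRing A] [Algebra κ A] {s : A}
    (hs : Transcendental κ s) (R : ℕ) : LinearIndependent κ fun a : Fin R => s ^ (a : ℕ) := by
  have h1 := (Polynomial.basisMonomials κ).linearIndependent.map' (Polynomial.aeval s).toLinearMap
    (LinearMap.ker_eq_bot.mpr (transcendental_iff_injective.mp hs))
  have h2 := h1.comp (fun a : Fin R => (a : ℕ)) Fin.val_injective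
  have e : (fun a : Fin R => s ^ (a : ℕ)) = ((Polynomial.aeval s).toLinearMap ∘
      Polynomial.basisMonomials κ) ∘ fun a : Fin R => (a : ℕ) := by
    funext a
    simp
  rw [e]
  exact h2

/-- Functions with a bounded number of poles are quotients from a fixed finite-dimensional space. -/
lemma IsCurveField.exists_param (hK : IsCurveField κ K) (H : ℕ) : ∃ 𝓔 : Finset K, ∀ u, PB κ u H →
    ∃ v ∈ Submodule.span κ (𝓔 : Set K), ∃ b ∈ Submodule.span κ (𝓔 : Set K), b ≠ 0 ∧ u * b = v := by
  classical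
  obtain ⟨t, ht, hfin⟩ := id hK
  have ht0 : t ≠ 0 := by rintro rfl; exact ht isAlgebraic_zero
  set n := Module.finrank κ⟮t⟯ K
  let e := Module.finBasis κ⟮t⟯ K
  obtain ⟨Et, hEt, hEt'⟩ : PB κ t⁻¹ n := by
    obtain ⟨S, hS, hsum⟩ := hK.sum_ord_zeros ht
    refine PB_of S (fun w => ord w t) (fun w hw => (ord_pos_of_lt_one ht0 ((hS w).mp hw).2).le)
      hsum.le (fun w _ _ => ?_) fun w hw hn => ?_
    · rw [ord, exp_neg, exp_log ((w.ne_zero_iff).mpr ht0), map_inv₀]
    · by_contra hlt
      refine hn ((hS w).mpr ⟨hw, ?_⟩)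
      have := (Valuation.one_lt_val_iff w (inv_ne_zero ht0)).mp (not_le.mp hlt)
      rwa [inv_inv] at this
  choose Ee hEe using fun i => hK.exists_LL (e i)
  let R := H + (∑ i, Ee i).card + 1
  let s : κ⟮t⟯ := (IntermediateField.AdjoinSimple.gen κ t)⁻¹
  have hs : (s : K) = t⁻¹ := rfl
  have hst : Transcendental κ s := fun h => ht (IsAlgebraic.inv_iff.mp (h.algebraMap (A := K)))
  let f1 : Fin (R + 1) × Fin n → K := fun p => s ^ (p.1 : ℕ) • e p.2
  let f2 : Fin (R + 1) → K := fun a => t⁻¹ ^ (a : ℕ)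
  have hf1 : LinearIndependent κ f1 :=
    linearIndependent_smul (linearIndependent_pow hst (R + 1)) e.linearIndependent
  have hf2 : LinearIndependent κ f2 :=
    linearIndependent_pow (fun h' => ht (IsAlgebraic.inv_iff.mp h')) (R + 1)
  refine ⟨Finset.univ.image f1 ∪ Finset.univ.image f2, ?_⟩
  have m1 : Submodule.span κ (Set.range f1) ≤
      Submodule.span κ (Finset.univ.image f1 ∪ Finset.univ.image f2 : Finset K) :=
    Submodule.span_mono (by simp)
  have m2 : Submodule.span κ (Set.range f2) ≤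
      Submodule.span κ (Finset.univ.image f1 ∪ Finset.univ.image f2 : Finset K) :=
    Submodule.span_mono (by simp)
  rintro u ⟨Eu, hEu, hu⟩
  rcases eq_or_ne u 0 with rfl | hu0
  · exact ⟨0, Submodule.zero_mem _, 1, m2 (Submodule.subset_span ⟨0, by simp [f2]⟩), one_ne_zero,
      by simp⟩
  let V1 := Submodule.span κ (Set.range f1)
  let μ : K →ₗ[κ] K := LinearMap.mulLeft κ u
  have hμ : Function.Injective μ := mul_right_injective₀ hu0
  let V2 := Submodule.span κ (Set.range (μ ∘ f2))
  have d1 : Module.finrank κ V1 = (R + 1) * n := by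
    rw [finrank_span_eq_card hf1]; simp
  have d2 : Module.finrank κ V2 = R + 1 := by
    rw [finrank_span_eq_card (hf2.map' μ (LinearMap.ker_eq_bot.mpr hμ))]; simp
  have i1 : FiniteDimensional κ V1 := FiniteDimensional.span_of_finite κ (Set.finite_range _)
  have i2 : FiniteDimensional κ V2 := FiniteDimensional.span_of_finite κ (Set.finite_range _)
  have hpow : ∀ a : Fin (R + 1), t⁻¹ ^ (a : ℕ) ∈ LL κ (R • Et) := fun a =>
    LL_mono (nsmul_le_nsmul_left (Multiset.zero_le _) (Nat.lt_succ_iff.mp a.2)) (pow_mem_LL hEt' a)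
  have hle : V1 ⊔ V2 ≤ LL κ (R • Et + (Eu + ∑ i, Ee i)) := by
    refine sup_le (Submodule.span_le.mpr ?_) (Submodule.span_le.mpr ?_)
    · rintro _ ⟨⟨a, i⟩, rfl⟩
      have : f1 (a, i) = t⁻¹ ^ (a : ℕ) * e i := by
        simp only [f1, Algebra.smul_def, map_pow]; rfl
      rw [this]
      refine LL_mono ?_ (mul_mem_LL (hpow a) (hEe i))
      refine add_le_add_right (le_add_left ?_) _
      exact Finset.single_le_sum (fun j _ => Multiset.zero_le _) (Finset.mem_univ i)
    · rintro _ ⟨a, rfl⟩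
      have : (μ ∘ f2) a = t⁻¹ ^ (a : ℕ) * u := mul_comm _ _
      rw [this]
      exact LL_mono (add_le_add_right le_self_add _) (mul_mem_LL (hpow a) hu)
  have h1 := hK.finrank_le _ _ inferInstance hle
  have h2 := Submodule.finrank_sup_add_finrank_inf_eq V1 V2
  rw [Multiset.card_add, Multiset.card_add, Multiset.card_nsmul] at h1
  have h3 : R * Et.card ≤ R * n := Nat.mul_le_mul_left _ hEt
  have h4 : 0 < Module.finrank κ (V1 ⊓ V2 : Submodule κ K) := by
    rw [d1, d2, add_mul] at h2
    omega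
  have h5 : (V1 ⊓ V2 : Submodule κ K) ≠ ⊥ := by
    intro h; rw [h, finrank_bot] at h4; omega
  obtain ⟨x, ⟨hx1, hx2⟩, hx0⟩ := Submodule.exists_mem_ne_zero_of_ne_bot h5
  simp only [V2, Set.range_comp, Submodule.span_image] at hx2
  obtain ⟨b, hb, rfl⟩ := hx2
  exact ⟨_, m1 hx1, b, m2 hb, fun h => hx0 (by rw [h, map_zero]), rfl⟩

end Pool.Agent.P.MP_7ede32_ag.FF
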