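import Pool.Agent.P.MP_7ede32_ag.FDer

/-! Invariant polynomials on one-jets that vanish on the jets of many hyperplanes. -/

open scoped DualNumber
open MvPolynomial Finset

namespace Pool.Agent.P.MP_7ede32_ag

theorem eval₂_scale {V R F : Type*} [CommRing R] [CommRing F] {G : MvPolynomial V R} {e : ℕ}
    (hG : G.IsHomogeneous e) (θ : R →+* F) (v : V → F) (t : F) :
    eval₂ θ (fun u => t * v u) G = t ^ e * eval₂ θ v G := by
  rw [eval₂_eq, eval₂_eq, Finset.mul_sum]
  refine Finset.sum_congr rfl fun s hs => ?_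
  simp only [mul_pow, Finset.prod_mul_distrib, Finset.prod_pow_eq_pow_sum]
  rw [← hG.degree_eq_sum_deg_support hs]
  ring

theorem exists_homogeneous_killed {V V' ι R : Type*} [Fintype V] [Fintype V'] [Fintype ι]
    [CommRing R] [Nontrivial R] (ψ : ι → V → MvPolynomial V' R)
    (hψ : ∀ i u, (ψ i u).IsHomogeneous 1) (e : ℕ)
    (hc : Fintype.card ι * (Fintype.card V' + e - 1).choose e <
      (Fintype.card V + e - 1).choose e) :
    ∃ G : MvPolynomial V R, G ≠ 0 ∧ G.IsHomogeneous e ∧ ∀ i, aeval (ψ i) G = 0 := by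
  classical
  let A := (univ : Finset V).finsuppAntidiag e
  let A' := (univ : Finset V').finsuppAntidiag e
  let P : (A → R) →ₗ[R] MvPolynomial V R := ∑ α : A, (monomial α.1).comp (LinearMap.proj α)
  have hP : ∀ g, P g = ∑ α : A, monomial α.1 (g α) := by
    intro g; simp [P, LinearMap.sum_apply]
  have hPh : ∀ g, (P g).IsHomogeneous e := by
    intro g
    rw [hP]
    refine IsHomogeneous.sum _ _ _ fun α _ => isHomogeneous_monomial _ ?_
    have := (mem_finsuppAntidiag.mp α.2).1
    rw [Finsupp.degree_eq_sum]; exact this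
  have hPc : ∀ g (α : A), coeff α.1 (P g) = g α := by
    intro g α
    rw [hP, coeff_sum, Finset.sum_eq_single α]
    · simp
    · intro β _ hβ
      rw [coeff_monomial, if_neg (fun h => hβ (Subtype.ext h))]
    · simp
  let Φ : (A → R) →ₗ[R] (ι × A' → R) :=
    LinearMap.pi fun p => (lcoeff R p.2.1).comp ((aeval (ψ p.1)).toLinearMap.comp P)
  have hni : ¬ Function.Injective Φ := by
    intro h
    have := card_le_of_injective R Φ h
    rw [Fintype.card_prod, Fintype.card_coe, Fintype.card_coe, card_finsuppAntidiag_nat_eq_choose,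
      card_finsuppAntidiag_nat_eq_choose, card_univ, card_univ] at this
    omega
  rw [injective_iff_map_eq_zero] at hni
  push Not at hni
  obtain ⟨g, hg, hg0⟩ := hni
  refine ⟨P g, fun h => hg0 (funext fun α => by rw [← hPc g α, h]; simp), hPh g, fun i => ?_⟩
  have hh : (aeval (ψ i) (P g)).IsHomogeneous e := by
    simpa using (hPh g).aeval (ψ i) (hψ i)
  ext β
  by_cases hβ : β ∈ A'
  · have := congrFun hg (i, ⟨β, hβ⟩)
    simpa [Φ] using this
  · rw [coeff_zero]
    refine hh.coeff_eq_zero fun h => hβ ?_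
    rw [mem_finsuppAntidiag]
    exact ⟨by rw [← h, Finsupp.degree_eq_sum], subset_univ _⟩

/-- the variables `x₀ x_j` and `x₀ x'_j - x_j x'₀` -/
abbrev Vr (l : ℕ) := Fin (l + 2) ⊕ Fin (l + 1)

/-- the invariants of a jet -/
def vz {l : ℕ} {F : Type*} [CommRing F] (z : Fin (l + 2) → F[ε]) : Vr l → F :=
  Sum.elim (fun j => (z 0).fst * (z j).fst)
    (fun j => (z 0).fst * (z j.succ).snd - (z j.succ).fst * (z 0).snd)

theorem vz_map {l : ℕ} {F F' : Type*} [CommRing F] [CommRing F'] (φ : F →+* F')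
    (z : Fin (l + 2) → F[ε]) : (fun u => φ (vz z u)) = vz (fun j => dmap φ (z j)) := by
  funext u; cases u <;> simp [vz]

theorem vz_scale {l : ℕ} {F : Type*} [CommRing F] (f : F[ε]) (z : Fin (l + 2) → F[ε]) :
    vz (fun j => f * z j) = fun u => f.fst ^ 2 * vz z u := by
  funext u; cases u <;> simp [vz] <;> ring

theorem count_ineq (l : ℕ) : (64 * (l + 1) ^ 2 + 1) *
    (2 * l + 1 + 16 * (l + 1) ^ 2 - 1).choose (16 * (l + 1) ^ 2) <
    (2 * l + 3 + 16 * (l + 1) ^ 2 - 1).choose (16 * (l + 1) ^ 2) := by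
  set e := 16 * (l + 1) ^ 2 with he
  have e1 : 2 * l + 1 + e - 1 = 2 * l + e := by omega
  have e2 : 2 * l + 3 + e - 1 = 2 * l + e + 1 + 1 := by omega
  rw [e1, e2]
  have h1 := Nat.choose_mul_succ_eq (2 * l + e) e
  have h2 := Nat.choose_mul_succ_eq (2 * l + e + 1) e
  have e3 : 2 * l + e + 1 - e = 2 * l + 1 := by omega
  have e4 : 2 * l + e + 1 + 1 - e = 2 * l + 2 := by omega
  rw [e3] at h1
  rw [e4] at h2
  have hpos : 0 < (2 * l + e).choose e := Nat.choose_pos (by omega)
  set a := (2 * l + e).choose e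
  set b := (2 * l + e + 1).choose e
  set c := (2 * l + e + 1 + 1).choose e
  have h3 : c * ((2 * l + 2) * (2 * l + 1)) = a * ((2 * l + e + 1) * (2 * l + e + 1 + 1)) := by
    calc c * ((2 * l + 2) * (2 * l + 1)) = (c * (2 * l + 2)) * (2 * l + 1) := by ring
      _ = (b * (2 * l + 1)) * (2 * l + e + 1 + 1) := by rw [← h2]; ring
      _ = _ := by rw [← h1]; ring
  have h4 : (64 * (l + 1) ^ 2 + 1) * ((2 * l + 2) * (2 * l + 1)) <
      (2 * l + e + 1) * (2 * l + e + 1 + 1) := by
    rw [he]; nlinarith [Nat.zero_le l, Nat.zero_le (l ^ 2), Nat.zero_le (l ^ 3)]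
  refine Nat.lt_of_mul_lt_mul_right (a := (2 * l + 2) * (2 * l + 1)) ?_
  rw [h3]
  calc (64 * (l + 1) ^ 2 + 1) * a * ((2 * l + 2) * (2 * l + 1))
      = a * ((64 * (l + 1) ^ 2 + 1) * ((2 * l + 2) * (2 * l + 1))) := by ring
    _ < _ := Nat.mul_lt_mul_of_pos_left h4 hpos

/-- The basic invariant polynomial. -/
theorem exists_G {l : ℕ} {ι R : Type*} [Fintype ι] [CommRing R] [IsDomain R]
    (hι : Fintype.card ι = 64 * (l + 1) ^ 2 + 1) (c c' : ι → Fin (l + 2) → R)
    (hc : ∀ i, c i (Fin.last _) ≠ 0) :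
    ∃ G : MvPolynomial (Vr l) R, G ≠ 0 ∧ G.IsHomogeneous (16 * (l + 1) ^ 2) ∧
      ∀ (F : Type) [CommRing F] (θ : R →+* F) (z : Fin (l + 2) → F[ε]) (i : ι),
        ∑ j, dn (θ (c i j)) (θ (c' i j)) * z j = 0 → eval₂ θ (vz z) G = 0 := by
  classical
  let U : Fin (l + 1) → MvPolynomial (Fin (l + 1) ⊕ Fin l) R := fun j => X (Sum.inl j)
  let W : Fin l → MvPolynomial (Fin (l + 1) ⊕ Fin l) R := fun j => X (Sum.inr j)
  let ψ : ι → Vr l → MvPolynomial (Fin (l + 1) ⊕ Fin l) R := fun i =>
    Sum.elim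
      (Fin.lastCases (∑ j, C (-(c i (Fin.last _) * c i j.castSucc)) * U j)
        fun j => C (c i (Fin.last _) ^ 2) * U j)
      (Fin.lastCases ((∑ j, C (c' i (Fin.last _) * c i j.castSucc -
            c i (Fin.last _) * c' i j.castSucc) * U j) +
          ∑ j, C (-(c i (Fin.last _) * c i j.castSucc.succ)) * W j)
        fun j => C (c i (Fin.last _) ^ 2) * W j)
  have hψ : ∀ i u, (ψ i u).IsHomogeneous 1 := by
    intro i u
    rcases u with j | j
    · induction j using Fin.lastCases with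
      | last =>
        simp only [ψ, Sum.elim_inl, Fin.lastCases_last]
        exact IsHomogeneous.sum _ _ _ fun j _ => isHomogeneous_C_mul_X _ _
      | cast j =>
        simp only [ψ, Sum.elim_inl, Fin.lastCases_castSucc]
        exact isHomogeneous_C_mul_X _ _
    · induction j using Fin.lastCases with
      | last =>
        simp only [ψ, Sum.elim_inr, Fin.lastCases_last]
        exact (IsHomogeneous.sum _ _ _ fun j _ => isHomogeneous_C_mul_X _ _).add
          (IsHomogeneous.sum _ _ _ fun j _ => isHomogeneous_C_mul_X _ _)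
      | cast j =>
        simp only [ψ, Sum.elim_inr, Fin.lastCases_castSucc]
        exact isHomogeneous_C_mul_X _ _
  obtain ⟨G, hG0, hGh, hG⟩ := exists_homogeneous_killed ψ hψ (16 * (l + 1) ^ 2) (by
    have := count_ineq l
    simp only [Fintype.card_sum, Fintype.card_fin, hι]
    have e1 : l + 1 + l = 2 * l + 1 := by ring
    have e2 : l + 2 + (l + 1) = 2 * l + 3 := by ring
    rw [e1, e2]; exact this)
  refine ⟨C (∏ i, (c i (Fin.last _) ^ 2) ^ (16 * (l + 1) ^ 2)) * G, ?_, hGh.C_mul _, ?_⟩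
  · refine mul_ne_zero ?_ hG0
    rw [Ne, C_eq_zero]
    exact Finset.prod_ne_zero_iff.mpr fun i _ => pow_ne_zero _ (pow_ne_zero _ (hc i))
  intro F _ θ z i hz
  have h1 : ∑ j, θ (c i j) * (z j).fst = 0 := by
    have := congrArg TrivSqZeroExt.fst hz
    simpa [TrivSqZeroExt.fst_sum] using this
  have h2 : ∑ j, (θ (c i j) * (z j).snd + θ (c' i j) * (z j).fst) = 0 := by
    have := congrArg TrivSqZeroExt.snd hz
    simpa [TrivSqZeroExt.snd_sum] using this
  have hU : ∑ j, θ (c i j) * vz z (Sum.inl j) = 0 := by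
    simp only [vz, Sum.elim_inl]
    have : ∀ j, θ (c i j) * ((z 0).fst * (z j).fst) = (z 0).fst * (θ (c i j) * (z j).fst) :=
      fun j => by ring
    simp only [this, ← Finset.mul_sum, h1, mul_zero]
  have hW : ∑ j, θ (c' i j) * vz z (Sum.inl j) +
      ∑ j : Fin (l + 1), θ (c i j.succ) * vz z (Sum.inr j) = 0 := by
    simp only [vz, Sum.elim_inl, Sum.elim_inr]
    rw [Finset.sum_add_distrib] at h2
    rw [Fin.sum_univ_succ] at h1
    rw [Fin.sum_univ_succ (fun j => θ (c i j) * (z j).snd)] at h2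
    have a1 : ∀ j, θ (c' i j) * ((z 0).fst * (z j).fst) = (z 0).fst * (θ (c' i j) * (z j).fst) :=
      fun j => by ring
    have a2 : ∀ j : Fin (l + 1), θ (c i j.succ) * ((z 0).fst * (z j.succ).snd -
        (z j.succ).fst * (z 0).snd) = (z 0).fst * (θ (c i j.succ) * (z j.succ).snd) -
        (z 0).snd * (θ (c i j.succ) * (z j.succ).fst) := fun j => by ring
    simp only [a1, a2, Finset.sum_sub_distrib, ← Finset.mul_sum]
    linear_combination (z 0).fst * h2 - (z 0).snd * h1
  let v' : Fin (l + 1) ⊕ Fin l → F :=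
    Sum.elim (fun j => vz z (Sum.inl j.castSucc)) (fun j => vz z (Sum.inr j.castSucc))
  have key : ∀ u, eval₂ θ v' (ψ i u) = θ (c i (Fin.last _)) ^ 2 * vz z u := by
    intro u
    rw [Fin.sum_univ_castSucc] at hU
    rw [Fin.sum_univ_castSucc,
      Fin.sum_univ_castSucc (fun j : Fin (l + 1) => θ (c i j.succ) * vz z (Sum.inr j)),
      Fin.succ_last] at hW
    rcases u with j | j
    · induction j using Fin.lastCases with
      | last =>
        simp only [ψ, Sum.elim_inl, Fin.lastCases_last, eval₂_sum, eval₂_mul, eval₂_C, U, eval₂_X,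
          v']
        simp only [map_neg, map_mul]
        have : ∀ j : Fin (l + 1), -(θ (c i (Fin.last _)) * θ (c i j.castSucc)) *
            vz z (Sum.inl j.castSucc) = -θ (c i (Fin.last _)) *
            (θ (c i j.castSucc) * vz z (Sum.inl j.castSucc)) := fun j => by ring
        simp only [this, ← Finset.mul_sum]
        linear_combination -θ (c i (Fin.last _)) * hU
      | cast j => simp [ψ, U, v']
    · induction j using Fin.lastCases with
      | last =>
        simp only [ψ, Sum.elim_inr, Fin.lastCases_last, eval₂_add, eval₂_sum, eval₂_mul, eval₂_C,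
          U, W, eval₂_X, v', Sum.elim_inl]
        simp only [map_neg, map_mul, map_sub]
        have a1 : ∀ j : Fin (l + 1), (θ (c' i (Fin.last _)) * θ (c i j.castSucc) -
            θ (c i (Fin.last _)) * θ (c' i j.castSucc)) * vz z (Sum.inl j.castSucc) =
            θ (c' i (Fin.last _)) * (θ (c i j.castSucc) * vz z (Sum.inl j.castSucc)) -
            θ (c i (Fin.last _)) * (θ (c' i j.castSucc) * vz z (Sum.inl j.castSucc)) :=
          fun j => by ring
        have a2 : ∀ j : Fin l, -(θ (c i (Fin.last _)) * θ (c i j.castSucc.succ)) *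
            vz z (Sum.inr j.castSucc) = -θ (c i (Fin.last _)) *
            (θ (c i j.castSucc.succ) * vz z (Sum.inr j.castSucc)) := fun j => by ring
        simp only [a1, a2, Finset.sum_sub_distrib, ← Finset.mul_sum]
        linear_combination θ (c' i (Fin.last _)) * hU - θ (c i (Fin.last _)) * hW
      | cast j => simp [ψ, W, v']
  have h3 : eval₂ θ v' (aeval (ψ i) G) =
      eval₂ θ (fun u => θ (c i (Fin.last _)) ^ 2 * vz z u) G := by
    have := eval₂Hom_bind₁ θ v' (ψ i) G
    simp only [coe_eval₂Hom, key] at this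
    exact this
  rw [hG i, eval₂_zero, eval₂_scale hGh] at h3
  rw [eval₂_mul, eval₂_C, ← Finset.mul_prod_erase _ _ (mem_univ i), map_mul, map_pow, map_pow,
    mul_right_comm, ← h3, zero_mul]

/-- the universal ring of coefficients -/
abbrev R0 (ι : Type) (l : ℕ) := MvPolynomial ((ι × Fin (l + 2)) ⊕ (ι × Fin (l + 2))) ℤ

/-- specialisation of the universal coefficients -/
noncomputable def theta {ι : Type} {l : ℕ} {F : Type*} [CommRing F]
    (c : ι → Fin (l + 2) → F[ε]) : R0 ι l →+* F :=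
  eval₂Hom (Int.castRingHom F) (Sum.elim (fun p => (c p.1 p.2).fst) (fun p => (c p.1 p.2).snd))

theorem theta_map {ι : Type} {l : ℕ} {F F' : Type*} [CommRing F] [CommRing F'] (φ : F →+* F')
    (c : ι → Fin (l + 2) → F[ε]) : φ.comp (theta c) = theta (fun i j => dmap φ (c i j)) := by
  refine MvPolynomial.ringHom_ext (fun r => by simp) fun p => ?_
  cases p <;> simp [theta]

/-- the invariant polynomial in the coordinates given by the frame `B` -/
noncomputable def Sig {ι : Type} {l : ℕ} (G : MvPolynomial (Vr l) (R0 ι l)) {F : Type*}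
    [CommRing F] (B : Matrix (Fin (l + 2)) (Fin (l + 2)) F[ε]) (A : ι → Fin (l + 2) → F[ε])
    (z : Fin (l + 2) → F[ε]) : F :=
  eval₂ (theta fun i => Matrix.vecMul (A i) B.adjugate) (vz (B.mulVec z)) G

theorem Sig_map {ι : Type} {l : ℕ} (G : MvPolynomial (Vr l) (R0 ι l)) {F F' : Type*}
    [CommRing F] [CommRing F'] (φ : F →+* F') (B : Matrix (Fin (l + 2)) (Fin (l + 2)) F[ε])
    (A : ι → Fin (l + 2) → F[ε]) (z : Fin (l + 2) → F[ε]) :
    φ (Sig G B A z) = Sig G (B.map (dmap φ)) (fun i j => dmap φ (A i j))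
      (fun j => dmap φ (z j)) := by
  unfold Sig
  rw [eval₂_comp_left, theta_map]
  have h1 : (φ ∘ vz (B.mulVec z)) = vz ((B.map (dmap φ)).mulVec fun j => dmap φ (z j)) := by
    have := vz_map φ (B.mulVec z)
    refine this.trans (congrArg vz (funext fun j => ?_))
    exact RingHom.map_mulVec (dmap φ) B z j
  have h2 : (fun i j => dmap φ (Matrix.vecMul (A i) B.adjugate j)) =
      fun i => Matrix.vecMul (fun j => dmap φ (A i j)) (B.map (dmap φ)).adjugate := by
    funext i j
    rw [RingHom.map_vecMul]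
    have := RingHom.map_adjugate (dmap φ) B
    simp only [RingHom.mapMatrix_apply] at this
    rw [this]; rfl
  rw [h1, h2]

theorem Sig_scale {ι : Type} {l e : ℕ} {G : MvPolynomial (Vr l) (R0 ι l)}
    (hG : G.IsHomogeneous e) {F : Type*} [CommRing F]
    (B : Matrix (Fin (l + 2)) (Fin (l + 2)) F[ε]) (A : ι → Fin (l + 2) → F[ε])
    (f : F[ε]) (z : Fin (l + 2) → F[ε]) :
    Sig G B A (fun j => f * z j) = f.fst ^ (2 * e) * Sig G B A z := by
  unfold Sig
  have h1 : B.mulVec (fun j => f * z j) = fun j => f * B.mulVec z j := by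
    funext j
    simp only [Matrix.mulVec, dotProduct, Finset.mul_sum]
    exact Finset.sum_congr rfl fun _ _ => by ring
  rw [h1, vz_scale, eval₂_scale hG, pow_mul]

/-- the properties of the universal polynomial -/
structure Good {ι : Type} {l : ℕ} (G : MvPolynomial (Vr l) (R0 ι l)) : Prop where
  ne : G ≠ 0
  hom : G.IsHomogeneous (16 * (l + 1) ^ 2)
  van : ∀ (F : Type) [CommRing F] (c : ι → Fin (l + 2) → F[ε]) (z : Fin (l + 2) → F[ε]) (i : ι),
    ∑ j, c i j * z j = 0 → eval₂ (theta c) (vz z) G = 0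

theorem exists_good {ι : Type} [Fintype ι] {l : ℕ} (hι : Fintype.card ι = 64 * (l + 1) ^ 2 + 1) :
    ∃ G : MvPolynomial (Vr l) (R0 ι l), Good G := by
  obtain ⟨G, h0, h1, h2⟩ := exists_G (R := R0 ι l) hι (fun i j => X (Sum.inl (i, j)))
    (fun i j => X (Sum.inr (i, j))) (fun i => X_ne_zero _)
  refine ⟨G, h0, h1, fun F _ c z i h => h2 F (theta c) z i ?_⟩
  simpa [theta, dn_eta] using h

theorem Good.vanish {ι : Type} {l : ℕ} {G : MvPolynomial (Vr l) (R0 ι l)} (hG : Good G)
    {F : Type} [CommRing F] (B : Matrix (Fin (l + 2)) (Fin (l + 2)) F[ε])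
    (A : ι → Fin (l + 2) → F[ε]) (z : Fin (l + 2) → F[ε]) (i : ι) (h : ∑ j, A i j * z j = 0) :
    Sig G B A z = 0 := by
  refine hG.van F _ _ i ?_
  change Matrix.vecMul (A i) B.adjugate ⬝ᵥ B.mulVec z = 0
  rw [← Matrix.dotProduct_mulVec, Matrix.mulVec_mulVec, Matrix.adjugate_mul, Matrix.smul_mulVec,
    Matrix.one_mulVec, dotProduct_smul]
  change B.det • ∑ j, A i j * z j = 0
  rw [h, smul_zero]

theorem exists_eval_ne {σ F : Type*} [Field F] [CharZero F] {P : MvPolynomial σ F} (hP : P ≠ 0) :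
    ∃ v, eval v P ≠ 0 := by
  by_contra h
  push Not at h
  exact hP (MvPolynomial.funext fun v => by simpa using h v)

theorem Good.exists_base {ι : Type} {l : ℕ} {G : MvPolynomial (Vr l) (R0 ι l)} (hG : Good G)
    (F : Type) [Field F] [CharZero F] : ∃ (c : ι → Fin (l + 2) → F[ε]) (z : Fin (l + 2) → F[ε]),
      z 0 = 1 ∧ eval₂ (theta c) (vz z) G ≠ 0 := by
  obtain ⟨α, hα⟩ := ne_zero_iff.mp hG.ne
  have h1 : map (Int.castRingHom F) (coeff α G) ≠ 0 := fun h =>
    hα (map_injective _ (RingHom.injective_int _) (by rw [h, map_zero]))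
  obtain ⟨u, hu⟩ := exists_eval_ne h1
  let c : ι → Fin (l + 2) → F[ε] := fun i j => dn (u (Sum.inl (i, j))) (u (Sum.inr (i, j)))
  have hc : theta c = eval₂Hom (Int.castRingHom F) u := by
    unfold theta
    congr 1
    funext p
    cases p <;> rfl
  have h2 : map (theta c) G ≠ 0 := by
    intro h
    have := congrArg (coeff α) h
    rw [coeff_map, hc, coeff_zero] at this
    rw [eval_map] at hu
    exact hu this
  obtain ⟨v, hv⟩ := exists_eval_ne (mul_ne_zero h2 (X_ne_zero (Sum.inl 0)))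
  rw [map_mul, eval_X, eval_map] at hv
  have hv0 := right_ne_zero_of_mul hv
  let z : Fin (l + 2) → F[ε] := Fin.cases 1
    fun j => dn ((v (Sum.inl 0))⁻¹ * v (Sum.inl j.succ)) ((v (Sum.inl 0))⁻¹ * v (Sum.inr j))
  have hz : vz z = fun u => (v (Sum.inl 0))⁻¹ * v u := by
    funext u
    rcases u with j | j
    · induction j using Fin.cases with
      | zero => simp [vz, z, hv0]
      | succ j => simp [vz, z]
    · simp [vz, z]
  refine ⟨c, z, rfl, ?_⟩
  rw [hz, eval₂_scale hG.hom]
  exact mul_ne_zero (pow_ne_zero _ (inv_ne_zero hv0)) (left_ne_zero_of_mul hv)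

theorem exists_frame {N : ℕ} {R : Type*} [CommRing R] (z z0 : Fin (N + 1) → R) (s : Fin (N + 1))
    (hz : IsUnit (z s)) (h0 : z0 0 = 1) :
    ∃ B : Matrix (Fin (N + 1)) (Fin (N + 1)) R, IsUnit B.det ∧ B.mulVec z = z0 := by
  classical
  obtain ⟨ι, hι⟩ := hz.exists_right_inv
  let P : Matrix (Fin (N + 1)) (Fin (N + 1)) R := (Equiv.swap 0 s).permMatrix R
  let z1 : Fin (N + 1) → R := z ∘ Equiv.swap 0 s
  have hP : P.mulVec z = z1 := by
    simp only [P, z1, Matrix.permMatrix_mulVec]
  have hz1 : z1 0 = z s := by simp [z1]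
  let L : Matrix (Fin (N + 1)) (Fin (N + 1)) R :=
    1 + Matrix.replicateCol Unit (ι • (z0 - z1)) * 
      Matrix.replicateRow Unit (Pi.single 0 1 : Fin (N + 1) → R)
  refine ⟨L * P, ?_, ?_⟩
  · rw [Matrix.det_mul]
    refine IsUnit.mul ?_ ?_
    · rw [Matrix.det_one_add_replicateCol_mul_replicateRow]
      simp only [single_dotProduct, one_mul, Pi.smul_apply, Pi.sub_apply, smul_eq_mul, h0, hz1]
      have : 1 + ι * (1 - z s) = ι := by linear_combination -hι
      rw [this]
      exact IsUnit.of_mul_eq_one_right _ hι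
    · rw [Matrix.det_permutation]
      exact (Units.isUnit _).map (Int.castRingHom R)
  · rw [← Matrix.mulVec_mulVec, hP, Matrix.add_mulVec, Matrix.one_mulVec, ← Matrix.mulVec_mulVec]
    funext j
    simp only [Matrix.mulVec, dotProduct, Pi.add_apply, Matrix.replicateCol_apply,
      Matrix.replicateRow_apply, Finset.univ_unique, Finset.sum_singleton, Pi.smul_apply,
      Pi.sub_apply, smul_eq_mul]
    have : ∑ i, (Pi.single 0 1 : Fin (N + 1) → R) i * z1 i = z s := by
      rw [← hz1]; exact single_one_dotProduct 0 z1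
    rw [this]
    linear_combination (z0 j - z1 j) * hι

theorem Good.exists_ne {ι : Type} {l : ℕ} {G : MvPolynomial (Vr l) (R0 ι l)} (hG : Good G)
    {F : Type} [Field F] [CharZero F] (z : Fin (l + 2) → F[ε]) (s : Fin (l + 2))
    (hs : (z s).fst ≠ 0) : ∃ B A, Sig G B A z ≠ 0 := by
  obtain ⟨c, z0, h0, hne⟩ := hG.exists_base F
  obtain ⟨B, hB, hBz⟩ := exists_frame z z0 s
    (TrivSqZeroExt.isUnit_iff_isUnit_fst.mpr hs.isUnit) h0
  obtain ⟨δ, hδ⟩ := hB.exists_right_inv
  refine ⟨B, fun i => δ • Matrix.vecMul (c i) B, ?_⟩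
  unfold Sig
  have : (fun i => Matrix.vecMul (δ • Matrix.vecMul (c i) B) B.adjugate) = c := by
    funext i
    rw [Matrix.smul_vecMul, Matrix.vecMul_vecMul, Matrix.mul_adjugate, Matrix.vecMul_smul,
      Matrix.vecMul_one, smul_smul, mul_comm, hδ, one_smul]
  rw [this, hBz]
  exact hne

end Pool.Agent.P.MP_7ede32_ag
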