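import Pool.Agent.P.MP_7ede32_ag.FGen

/-! The local estimate for the invariant polynomial at a valuation. -/

open scoped DualNumber WithZero
open MvPolynomial Finset

namespace Pool.Agent.P.MP_7ede32_ag

variable {l : ℕ} {ι : Type}

theorem isUnit_det_of_fst {N : ℕ} {K0 : Type} [Field K0] (B : Matrix (Fin N) (Fin N) K0[ε])
    (h : (Matrix.of fun i j => (B i j).fst).det ≠ 0) : IsUnit B.det := by
  rw [TrivSqZeroExt.isUnit_iff_isUnit_fst, ← fstR_apply, RingHom.map_det]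
  exact h.isUnit

theorem Good.exists_tau {G : MvPolynomial (Vr l) (R0 ι l)} (hG : Good G) {K0 : Type} [Field K0]
    (B0 : Matrix (Fin (l + 2)) (Fin (l + 2)) K0[ε]) (A0 : ι → Fin (l + 2) → K0[ε])
    (T : Fin (l + 2) → ι) (hT : (Matrix.of fun i j => (A0 (T i) j).fst).det ≠ 0) :
    ∃ τ : MvPolynomial (Fin (l + 2) ⊕ Fin (l + 2)) K0,
      (∀ m ∈ τ.support, ∀ i, m (Sum.inl i) ≠ 0 ∨ m (Sum.inr i) ≠ 0) ∧
      ∀ (K : Type) [CommRing K] (φ : K0 →+* K) (z : Fin (l + 2) → K[ε]),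
        Sig G (B0.map (dmap φ)) (fun i j => dmap φ (A0 i j)) z =
          eval₂ φ (Sum.elim (fun i => (∑ b, dmap φ (A0 (T i) b) * z b).fst)
            (fun i => (∑ b, dmap φ (A0 (T i) b) * z b).snd)) τ := by
  classical
  let BT : Matrix (Fin (l + 2)) (Fin (l + 2)) K0[ε] := Matrix.of fun i j => A0 (T i) j
  have hu : IsUnit BT.det := isUnit_det_of_fst BT hT
  have h1 : BT * BT⁻¹ = 1 := Matrix.mul_nonsing_inv _ hu
  have h2 : BT⁻¹ * BT = 1 := Matrix.nonsing_inv_mul _ hu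
  generalize BT⁻¹ = Bi at h1 h2
  let τ : MvPolynomial (Fin (l + 2) ⊕ Fin (l + 2)) K0 :=
    Sig G (B0.map (dmap C)) (fun i j => dmap C (A0 i j))
      ((Bi.map (dmap C)).mulVec fun i => dn (X (Sum.inl i)) (X (Sum.inr i)))
  have key : ∀ (K : Type) [CommRing K] (φ : K0 →+* K) (v : Fin (l + 2) ⊕ Fin (l + 2) → K),
      eval₂Hom φ v τ = Sig G (B0.map (dmap φ)) (fun i j => dmap φ (A0 i j))
        ((Bi.map (dmap φ)).mulVec fun i => dn (v (Sum.inl i)) (v (Sum.inr i))) := by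
    intro K _ φ v
    have e : ∀ x : K0[ε], dmap (eval₂Hom φ v) (dmap C x) = dmap φ x := by
      intro x; ext <;> simp
    rw [Sig_map]
    congr 1
    · ext1 i j; exact e _
    · funext i j; exact e _
    · funext j
      simp only [Matrix.mulVec, dotProduct, map_sum, map_mul, Matrix.map_apply, e, dmap_dn,
        coe_eval₂Hom, eval₂_X]
  refine ⟨τ, fun m hm i => ?_, fun K _ φ z => ?_⟩
  · let v : Fin (l + 2) ⊕ Fin (l + 2) → MvPolynomial (Fin (l + 2) ⊕ Fin (l + 2)) K0 :=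
      fun u => if u = Sum.inl i ∨ u = Sum.inr i then 0 else X u
    have h0 : eval₂Hom C v τ = 0 := by
      rw [key]
      refine hG.vanish _ _ _ (T i) ?_
      change ((BT.map (dmap C)).mulVec ((Bi.map (dmap C)).mulVec _)) i = 0
      rw [Matrix.mulVec_mulVec, ← Matrix.map_mul, h1, Matrix.map_one _ (map_zero _) (map_one _),
        Matrix.one_mulVec]
      ext <;> simp [v]
    let I0 : Ideal (MvPolynomial (Fin (l + 2) ⊕ Fin (l + 2)) K0) :=
      Ideal.span (X '' {Sum.inl i, Sum.inr i})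
    have h3 : (Ideal.Quotient.mk I0).comp (eval₂Hom C v) = Ideal.Quotient.mk I0 := by
      refine MvPolynomial.ringHom_ext (fun r => by simp) fun u => ?_
      simp only [RingHom.comp_apply, coe_eval₂Hom, eval₂_X, v]
      split_ifs with h
      · rw [map_zero, eq_comm, Ideal.Quotient.eq_zero_iff_mem]
        exact Ideal.subset_span ⟨u, h, rfl⟩
      · rfl
    have h4 : τ ∈ I0 := by
      rw [← Ideal.Quotient.eq_zero_iff_mem, ← h3, RingHom.comp_apply, h0, map_zero]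
    obtain ⟨u, hu, hne⟩ := mem_ideal_span_X_image.mp h4 m hm
    rcases hu with rfl | rfl
    · exact Or.inl hne
    · exact Or.inr hne
  · rw [← coe_eval₂Hom, key]
    congr 1
    change z = (Bi.map (dmap φ)).mulVec ((BT.map (dmap φ)).mulVec z)
    rw [Matrix.mulVec_mulVec, ← Matrix.map_mul, h2, Matrix.map_one _ (map_zero _) (map_one _),
      Matrix.one_mulVec]

theorem sq_factor_le {a b γ : ℤᵐ⁰} (h1 : 1 ≤ γ) (ha : a ≤ γ) (hb : b ≤ γ) (hab : b ^ 2 ≤ γ * a)
    {r s : ℕ} (h : r ≠ 0 ∨ s ≠ 0) : (a ^ r * b ^ s) ^ 2 ≤ γ ^ (2 * (r + s)) * a := by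
  rcases h with h | h
  · obtain ⟨r, rfl⟩ := Nat.exists_eq_succ_of_ne_zero h
    calc (a ^ (r + 1) * b ^ s) ^ 2 = (a ^ (2 * r + 1) * b ^ (2 * s)) * a := by
          rw [two_mul, two_mul]
          simp only [pow_succ, pow_add, pow_zero, one_mul]
          generalize a ^ r = x
          generalize b ^ s = y
          simp only [mul_assoc, mul_comm, mul_left_comm]
      _ ≤ (γ ^ (2 * r + 1) * γ ^ (2 * s)) * a :=
          mul_le_mul_left (mul_le_mul' (pow_le_pow_left' ha _) (pow_le_pow_left' hb _)) _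
      _ ≤ _ := by
          rw [← pow_add]
          exact mul_le_mul_left (pow_le_pow_right' h1 (by omega)) _
  · obtain ⟨s, rfl⟩ := Nat.exists_eq_succ_of_ne_zero h
    calc (a ^ r * b ^ (s + 1)) ^ 2 = (a ^ (2 * r) * b ^ (2 * s)) * b ^ 2 := by
          rw [two_mul, two_mul]
          simp only [pow_succ, pow_add, pow_zero, one_mul]
          generalize a ^ r = x
          generalize b ^ s = y
          simp only [mul_assoc, mul_comm, mul_left_comm]
      _ ≤ (γ ^ (2 * r) * γ ^ (2 * s)) * (γ * a) :=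
          mul_le_mul' (mul_le_mul' (pow_le_pow_left' ha _) (pow_le_pow_left' hb _)) hab
      _ ≤ _ := by
          rw [← pow_add, ← mul_assoc, ← pow_succ]
          exact mul_le_mul_left (pow_le_pow_right' h1 (by omega)) _

theorem val_eval_le {N : ℕ} {K0 K : Type} [Field K0] [Field K] (w : Valuation K ℤᵐ⁰)
    (φ : K0 →+* K) (τ : MvPolynomial (Fin N ⊕ Fin N) K0)
    (hτ : ∀ m ∈ τ.support, ∀ i, m (Sum.inl i) ≠ 0 ∨ m (Sum.inr i) ≠ 0) {γ : ℤᵐ⁰} (h1 : 1 ≤ γ)
    (hc : ∀ m ∈ τ.support, w (φ (coeff m τ)) ≤ γ) (p p' : Fin N → K) (hp : ∀ i, w (p i) ≤ γ)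
    (hp' : ∀ i, w (p' i) ≤ γ) (hpp : ∀ i, w (p' i) ^ 2 ≤ γ * w (p i)) :
    w (eval₂ φ (Sum.elim p p') τ) ^ 2 ≤ γ ^ (2 + 2 * τ.totalDegree) * ∏ i, w (p i) := by
  rw [eval₂_eq']
  refine Finset.sum_induction _ (fun x => w x ^ 2 ≤ γ ^ (2 + 2 * τ.totalDegree) * ∏ i, w (p i))
    (fun x y hx hy => ?_) (by simp) fun m hm => ?_
  · rcases w.map_add' x y with h | h
    · exact (pow_le_pow_left' h 2).trans hx
    · exact (pow_le_pow_left' h 2).trans hy
  · rw [Fintype.prod_sum_type, ← prod_mul_distrib, map_mul, map_prod, mul_pow, ← prod_pow]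
    simp only [Sum.elim_inl, Sum.elim_inr, map_mul, map_pow]
    have h2 := Finset.prod_le_prod' (s := univ) fun i _ =>
      sq_factor_le h1 (hp i) (hp' i) (hpp i) (hτ m hm i)
    rw [prod_mul_distrib, prod_pow_eq_pow_sum, ← mul_sum] at h2
    have h3 : ∑ i, (m (Sum.inl i) + m (Sum.inr i)) ≤ τ.totalDegree := by
      have := le_totalDegree hm
      rw [Finsupp.sum_fintype _ _ (by simp), Fintype.sum_sum_type, ← sum_add_distrib] at this
      exact this
    rw [pow_add, mul_assoc]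
    exact mul_le_mul' (pow_le_pow_left' (hc m hm) 2)
      (h2.trans (mul_le_mul_left (pow_le_pow_right' h1 (by omega)) _))

theorem exists_small {N q : ℕ} (h : N ≤ q) (f : Fin q → ℤᵐ⁰) : ∃ T : Fin N → Fin q,
    Function.Injective T ∧ ∀ i, i ∉ Set.range T → ∀ k, f (T k) ≤ f i := by
  refine ⟨fun k => Tuple.sort f (Fin.castLE h k),
    (Tuple.sort f).injective.comp (Fin.castLE_injective h), fun i hi k => ?_⟩
  obtain ⟨i, rfl⟩ := (Tuple.sort f).surjective i
  refine Tuple.monotone_sort f ?_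
  by_contra hlt
  push Not at hlt
  have : i.val < N := lt_trans hlt k.2
  exact hi ⟨⟨i.val, this⟩, rfl⟩

/-- The local estimate. -/
theorem Good.exists_pkg {q : ℕ} {G : MvPolynomial (Vr l) (R0 (Fin q) l)} (hG : Good G)
    (hq : l + 2 ≤ q) {K0 : Type} [Field K0] (B0 : Matrix (Fin (l + 2)) (Fin (l + 2)) K0[ε])
    (A0 : Fin q → Fin (l + 2) → K0[ε]) (hgen : GenPos fun i b => (A0 i b).fst) :
    ∃ (𝒞 : Finset K0) (E : ℕ), ∀ (K : Type) [Field K] (φ : K0 →+* K) (w : Valuation K ℤᵐ⁰)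
      (γ : ℤᵐ⁰), 1 ≤ γ → (∀ c ∈ 𝒞, w (φ c) ≤ γ) → ∀ (z : Fin (l + 2) → K[ε])
      (p : Fin q → K[ε]), (∀ i, p i = ∑ b, dmap φ (A0 i b) * z b) → (∃ s, w (z s).fst = 1) →
      (∃ i, 1 ≤ γ * w (p i).fst) ∧
      ((∀ i, w (p i).fst ≤ γ ∧ w (p i).snd ≤ γ ∧ w (p i).snd ^ 2 ≤ γ * w (p i).fst) →
        w (Sig G (B0.map (dmap φ)) (fun i j => dmap φ (A0 i j)) z) ^ 2 ≤
          γ ^ E * ∏ i, w (p i).fst) := by
  classical
  choose τ hτ1 hτ2 using fun T : {T : Fin (l + 2) → Fin q // Function.Injective T} =>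
    hG.exists_tau B0 A0 T.1 (hgen T.1 T.2)
  let M : {T : Fin (l + 2) → Fin q // Function.Injective T} → Matrix (Fin (l + 2)) (Fin (l + 2)) K0 :=
    fun T => Matrix.of fun i j => (A0 (T.1 i) j).fst
  let 𝒞 : Finset K0 := univ.biUnion fun T =>
    (τ T).support.image (fun m => coeff m (τ T)) ∪
      univ.image fun p : Fin (l + 2) × Fin (l + 2) => (M T)⁻¹ p.1 p.2
  refine ⟨𝒞, 2 + 2 * (univ.sup fun T => (τ T).totalDegree) + q,
    fun K _ φ w γ h1 hc z p hp hs => ?_⟩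
  obtain ⟨s, hs⟩ := hs
  obtain ⟨T, hT, hsm⟩ := exists_small hq fun i => w (p i).fst
  have hbig : ∃ k, 1 ≤ γ * w (p (T k)).fst := by
    by_contra hne
    push Not at hne
    have e1 : ((M ⟨T, hT⟩).map φ).mulVec (fun b => (z b).fst) = fun k => (p (T k)).fst := by
      funext k
      simp [hp, M, Matrix.mulVec, dotProduct, TrivSqZeroExt.fst_sum]
    have e2 : (fun b => (z b).fst) = (((M ⟨T, hT⟩)⁻¹).map φ).mulVec fun k => (p (T k)).fst := by
      rw [← e1, Matrix.mulVec_mulVec, ← Matrix.map_mul,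
        Matrix.nonsing_inv_mul _ (hgen T hT).isUnit, Matrix.map_one _ (map_zero _) (map_one _),
        Matrix.one_mulVec]
    have e3 := congrFun e2 s
    simp only [Matrix.mulVec, dotProduct, Matrix.map_apply] at e3
    rw [e3] at hs
    refine absurd hs (ne_of_lt (w.map_sum_lt one_ne_zero fun k _ => ?_))
    rw [map_mul]
    refine lt_of_le_of_lt (mul_le_mul_left (hc _ ?_) _) (hne k)
    exact mem_biUnion.mpr ⟨⟨T, hT⟩, mem_univ _,
      mem_union_right _ (mem_image.mpr ⟨(s, k), mem_univ _, rfl⟩)⟩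
  obtain ⟨k, hk⟩ := hbig
  refine ⟨⟨_, hk⟩, fun hpp => ?_⟩
  rw [hτ2 ⟨T, hT⟩]
  simp only [← hp]
  refine (val_eval_le w φ _ (hτ1 ⟨T, hT⟩) h1 (fun m hm => hc _ ?_) _ _ (fun i => (hpp _).1)
    (fun i => (hpp _).2.1) (fun i => (hpp _).2.2)).trans ?_
  · exact mem_biUnion.mpr ⟨⟨T, hT⟩, mem_univ _, mem_union_left _ (mem_image_of_mem _ hm)⟩
  have e4 : ∏ i, w (p (T i)).fst ≤ γ ^ q * ∏ i, w (p i).fst := by
    rw [← prod_image (s := univ) (g := T) (f := fun i => w (p i).fst) hT.injOn,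
      ← prod_mul_prod_compl (univ.image T) (fun i => w (p i).fst), mul_left_comm]
    refine le_mul_of_one_le_right' ?_
    calc (1 : ℤᵐ⁰) ≤ ∏ i ∈ (univ.image T)ᶜ, (γ * w (p i).fst) :=
          one_le_prod' fun i hi => hk.trans (mul_le_mul_right (hsm i (by simpa using hi) k) _)
      _ ≤ _ := by
          rw [prod_mul_distrib, prod_const]
          refine mul_le_mul_left (pow_le_pow_right' h1 ?_) _
          simpa using card_le_univ (univ.image T)ᶜ
  have e5 : (τ ⟨T, hT⟩).totalDegree ≤ univ.sup fun T => (τ T).totalDegree :=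
    le_sup (f := fun T => (τ T).totalDegree) (mem_univ _)
  rw [pow_add _ _ q, mul_assoc]
  exact mul_le_mul' (pow_le_pow_right' h1 (by omega)) e4

end Pool.Agent.P.MP_7ede32_ag
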