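import Pool.Agent.P.MP_7ede32_ag.FDer
import Pool.Agent.P.MP_7ede32_ag.FFB

/-! Derivations and places of a function field. -/

open scoped WithZero IntermediateField Polynomial
open IsDedekindDomain WithZero

set_option linter.unusedSectionVars false

namespace Pool.Agent.P.MP_7ede32_ag

theorem le_exp_of_lt {x : ℤᵐ⁰} {n : ℤ} (h : x < exp (n + 1)) : x ≤ exp n := by
  induction x using expRecOn with
  | zero => exact zero_le
  | exp a => rw [exp_lt_exp] at h; rw [exp_le_exp]; omega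

theorem exp_le_of_lt {x : ℤᵐ⁰} {n : ℤ} (h : exp n < x) : exp (n + 1) ≤ x := by
  by_contra h'
  exact absurd (le_exp_of_lt (not_le.mp h')) (not_le.mpr h)

theorem val_natCast_le {K : Type*} [Field K] (w : Valuation K ℤᵐ⁰) (n : ℕ) : w (n : K) ≤ 1 := by
  induction n with
  | zero => simp
  | succ n ih => rw [Nat.cast_succ]; exact w.map_add_le ih (by simp)

theorem val_intCast_le {K : Type*} [Field K] (w : Valuation K ℤᵐ⁰) (n : ℤ) : w (n : K) ≤ 1 := by
  obtain ⟨m, rfl | rfl⟩ := n.eq_nat_or_neg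
  · simpa using val_natCast_le w m
  · simpa using val_natCast_le w m

theorem ne_zero_of_val {K : Type*} [Field K] {w : Valuation K ℤᵐ⁰} {x : K} {n : ℤ}
    (h : w x = exp n) : x ≠ 0 := by
  rintro rfl
  exact exp_ne_zero (h.symm.trans w.map_zero)

/-- decomposition of the derivative along a uniformizer -/
theorem Der.D_decomp {K : Type*} [Field K] (d : Der K) (w : Valuation K ℤᵐ⁰) {π u : K}
    (hπ : w π = exp (-1)) {n : ℤ} (hu : w u = exp n) : ∃ v, w v = 1 ∧
      d.D u = -((n : K) * u * (d.D π / π)) + u * (d.D v / v) := by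
  have h0 := ne_zero_of_val hπ
  have hu0 := ne_zero_of_val hu
  refine ⟨u * π ^ n, ?_, ?_⟩
  · rw [map_mul, map_zpow₀, hu, hπ, ← exp_zsmul, ← exp_add]; simp
  · rw [d.D_mul, d.D_zpow _ h0]
    have := zpow_ne_zero n h0
    field_simp
    ring

theorem Der.val_D_le {K : Type*} [Field K] (d : Der K) (w : Valuation K ℤᵐ⁰) {π : K}
    (hπ : w π = exp (-1)) {g : ℤᵐ⁰} (hD : ∀ u, w u ≤ 1 → w (d.D u) ≤ g) (u : K) :
    w (d.D u) ≤ exp 1 * g * w u := by
  rcases eq_or_ne u 0 with rfl | hu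
  · simp [d.D_zero]
  obtain ⟨v, hv, h⟩ := d.D_decomp w hπ (exp_log ((w.ne_zero_iff).mpr hu)).symm
  rw [h]
  refine w.map_add_le ?_ ?_
  · rw [Valuation.map_neg, map_mul, map_mul, map_div₀, hπ, exp_neg, div_inv_eq_mul]
    calc w ((log (w u) : ℤ) : K) * w u * (w (d.D π) * exp 1) ≤ 1 * w u * (g * exp 1) :=
          mul_le_mul' (mul_le_mul_left (val_intCast_le w _) _) (mul_le_mul_left
            (hD π (by rw [hπ, ← exp_zero, exp_le_exp]; norm_num)) _)
      _ = _ := by rw [one_mul, mul_comm, mul_comm g]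
  · rw [map_mul, map_div₀, hv, div_one, mul_comm]
    refine mul_le_mul_left ((hD v hv.le).trans (le_mul_of_one_le_left' ?_)) _
    rw [← exp_zero, exp_le_exp]; norm_num

namespace FF

variable {κ : Type} [Field κ] [IsAlgClosed κ] [CharZero κ]

section core

variable {K : Type} [Field K] [Algebra κ K] [Algebra κ[X] K] [Algebra (RatFunc κ) K]
  [IsScalarTower κ[X] (RatFunc κ) K] [IsScalarTower κ κ[X] K] [FunctionField κ K]

open FunctionField

lemma exists_bound_core (d : Der K)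
    (hd : ∀ c : κ, ∃ c' : κ, d.D (algebraMap κ K c) = algebraMap κ K c') :
    ∃ 𝒟 : Finset K, ∀ w, IsPlace κ w → w (algebraMap κ[X] K Polynomial.X) ≤ 1 → ∀ γ : ℤᵐ⁰, 1 ≤ γ →
      (∀ g ∈ 𝒟, w g ≤ γ) → ∀ u, w u ≤ 1 → w (d.D u) ≤ γ := by
  classical
  obtain ⟨s, hs⟩ : (⊤ : Submodule κ[X] (ringOfIntegers κ K)).FG := Module.Finite.fg_top
  refine ⟨insert (d.D (algebraMap κ[X] K Polynomial.X)) 
    (s.image fun r : ringOfIntegers κ K => d.D (r : K)),
    fun w hw hx γ h1 hg u hu => ?_⟩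
  obtain ⟨P, rfl⟩ := exists_heightOne_of_isPlace hw hx
  have hA : ∀ r : ringOfIntegers κ K, P.valuation K (r : K) ≤ 1 := fun r => P.valuation_le_one r
  have hp1 : ∀ p : κ[X], P.valuation K (algebraMap κ[X] K p) ≤ 1 := fun p =>
    hA (algebraMap κ[X] _ p)
  have hp : ∀ p : κ[X], P.valuation K (d.D (algebraMap κ[X] K p)) ≤ γ := by
    intro p
    induction p using Polynomial.induction_on with
    | C a =>
      have : algebraMap κ[X] K (Polynomial.C a) = algebraMap κ K a :=
        (IsScalarTower.algebraMap_apply κ κ[X] K a).symm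
      obtain ⟨c', hc'⟩ := hd a
      rw [this, hc']; exact (hw.const_le_one c').trans h1
    | add p q hp hq => rw [map_add, d.D_add]; exact Valuation.map_add_le _ hp hq
    | monomial n a h =>
      rw [pow_succ, ← mul_assoc, map_mul, d.D_mul]
      refine Valuation.map_add_le _ ?_ ?_ <;> rw [map_mul]
      · exact (mul_le_of_le_one_left' (hp1 _)).trans (hg _ (Finset.mem_insert_self _ _))
      · exact (mul_le_of_le_one_left' (hp1 _)).trans h
  have hr : ∀ r : ringOfIntegers κ K, P.valuation K (d.D (r : K)) ≤ γ := by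
    intro r
    have : r ∈ Submodule.span κ[X] (s : Set (ringOfIntegers κ K)) := hs ▸ Submodule.mem_top
    induction this using Submodule.span_induction with
    | mem x hx => exact hg _ (Finset.mem_insert_of_mem (Finset.mem_image_of_mem _ hx))
    | zero => simp [d.D_zero]
    | add x y _ _ hx hy =>
      rw [Subalgebra.coe_add, d.D_add]; exact Valuation.map_add_le _ hx hy
    | smul a x _ hx =>
      rw [Subalgebra.coe_smul, Algebra.smul_def, d.D_mul]
      refine Valuation.map_add_le _ ?_ ?_ <;> rw [map_mul]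
      · exact (mul_le_of_le_one_left' (hp1 _)).trans hx
      · exact (mul_le_of_le_one_left' (hA _)).trans (hp a)
  obtain ⟨n, e, hne⟩ := P.exists_primeCompl_mul_eq_of_integer u hu
  have he : P.valuation K (algebraMap (ringOfIntegers κ K) K e) = 1 :=
    (HeightOneSpectrum.valuation_eq_one_iff_notMem _).mpr e.2
  have h2 := congrArg d.D hne
  rw [d.D_mul] at h2
  have h3 : algebraMap (ringOfIntegers κ K) K e * d.D u = d.D (n : K) - u * d.D ((e : ringOfIntegers κ K) : K) :=
    eq_sub_of_add_eq' h2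
  have h4 := congrArg (P.valuation K) h3
  rw [map_mul, he, one_mul] at h4
  rw [h4]
  refine Valuation.map_sub_le _ (hr n) ?_
  rw [map_mul]
  exact (mul_le_of_le_one_left' hu).trans (hr _)

end core

variable {K : Type} [Field K] [Algebra κ K]

lemma IsCurveField.exists_bound (hK : IsCurveField κ K) (d : Der K)
    (hd : ∀ c : κ, ∃ c' : κ, d.D (algebraMap κ K c) = algebraMap κ K c') :
    ∃ 𝒟 : Finset K, ∀ w, IsPlace κ w → ∀ γ : ℤᵐ⁰, 1 ≤ γ →
      (∀ g ∈ 𝒟, w g ≤ γ) → ∀ u, w u ≤ 1 → w (d.D u) ≤ γ := by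
  classical
  have key : ∀ t : K, Transcendental κ t → ∃ 𝒟 : Finset K, ∀ w, IsPlace κ w → w t ≤ 1 →
      ∀ γ : ℤᵐ⁰, 1 ≤ γ → (∀ g ∈ 𝒟, w g ≤ γ) → ∀ u, w u ≤ 1 → w (d.D u) ≤ γ := by
    intro t ht
    have := hK.finite ht
    obtain ⟨_, _, _, _, _, _, hX, -⟩ := exists_ratFunc_structure t ht
    rw [← hX]
    exact exists_bound_core d hd
  obtain ⟨t, ht, -⟩ := id hK
  obtain ⟨D1, h1⟩ := key t ht
  obtain ⟨D2, h2⟩ := key t⁻¹ fun h' => ht (IsAlgebraic.inv_iff.mp h')
  refine ⟨D1 ∪ D2, fun w hw γ hγ hg => ?_⟩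
  rcases w.val_le_one_or_val_inv_le_one t with h | h
  · exact h1 w hw h γ hγ fun g hg' => hg g (Finset.mem_union_left _ hg')
  · exact h2 w hw h γ hγ fun g hg' => hg g (Finset.mem_union_right _ hg')

/-- If the function field is generated by constants, the derivation preserves all local rings. -/
lemma IsCurveField.val_D_le_one (hK : IsCurveField κ K) (d : Der K)
    (hd : ∀ c : κ, ∃ c' : κ, d.D (algebraMap κ K c) = algebraMap κ K c')
    (hgen : ∀ u, u ∈ Subfield.closure (Set.range (algebraMap κ K) ∪ d.const))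
    {w : Valuation K ℤᵐ⁰} (hw : IsPlace κ w) : ∀ u, w u ≤ 1 → w (d.D u) ≤ 1 := by
  classical
  have hex : ∃ n : ℕ, ∀ u, w u ≤ 1 → w (d.D u) ≤ exp (n : ℤ) := by
    obtain ⟨𝒟, h⟩ := hK.exists_bound d hd
    refine ⟨𝒟.sup fun g => (log (w g)).toNat, h w hw _ ?_ fun g hg => ?_⟩
    · rw [← exp_zero, exp_le_exp]; omega
    · refine le_exp_of_log_le ((Int.self_le_toNat _).trans ?_)
      exact_mod_cast Finset.le_sup (f := fun g => (log (w g)).toNat) hg
  have hc := Nat.find_spec hex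
  rcases hc0 : Nat.find hex with _ | c
  · simpa [hc0] using hc
  exfalso
  have hmin := Nat.find_min hex (m := c) (by omega)
  rw [hc0] at hc
  push Not at hmin
  obtain ⟨u0, hu0, hu1⟩ := hmin
  have hu2 : w (d.D u0) = exp ((c : ℤ) + 1) :=
    le_antisymm (by exact_mod_cast hc u0 hu0) (exp_le_of_lt hu1)
  obtain ⟨r, hr⟩ := hK.exists_residue hw u0 hu0
  obtain ⟨r', hr'⟩ := hd r
  set π := u0 - algebraMap κ K r with hπ
  have hDπ : w (d.D π) = exp ((c : ℤ) + 1) := by
    rw [hπ, d.D_sub, hr', Valuation.map_sub_eq_of_lt_left, hu2]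
    rw [hu2]
    refine (hw.const_le_one r').trans_lt ?_
    rw [← exp_zero, exp_lt_exp]; omega
  obtain ⟨ϖ, hϖ⟩ := hw.1 (exp (-1))
  have hπ1 : w π = exp (-1) := by
    have h1 : w π ≤ exp (-1) := le_exp_of_lt (by simpa using hr)
    by_contra hne
    have h2 : w π ≤ exp (-2) := le_exp_of_lt (lt_of_le_of_ne h1 hne)
    have h0 := ne_zero_of_val hϖ
    have h3 : w (π / ϖ) ≤ exp (-1) := by
      rw [map_div₀, hϖ, div_le_iff₀ exp_pos, ← exp_add]; exact h2
    have h4 : exp (-1 : ℤ) ≤ (1 : ℤᵐ⁰) := by rw [← exp_zero, exp_le_exp]; norm_num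
    have h5 : d.D π = ϖ * d.D (π / ϖ) + π / ϖ * d.D ϖ := by
      rw [← d.D_mul, mul_div_cancel₀ _ h0]
    have h6 : w (d.D π) ≤ exp (-1) * exp ((c + 1 : ℕ) : ℤ) := by
      rw [h5]
      refine Valuation.map_add_le _ ?_ ?_ <;> rw [map_mul]
      · exact mul_le_mul' hϖ.le (hc _ (h3.trans h4))
      · exact mul_le_mul' h3 (hc _ (hϖ.le.trans h4))
    rw [hDπ, ← exp_add, exp_le_exp] at h6
    omega
  have hstep : ∀ (u : K) (n : ℤ), n ≠ 0 → w u = exp n → w (d.D u) = exp (n + (c + 2)) := by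
    intro u n hn hu
    obtain ⟨v, hv, h⟩ := d.D_decomp w hπ1 hu
    have e1 : w (-((n : K) * u * (d.D π / π))) = exp (n + (c + 2)) := by
      have : w (n : K) = 1 := by
        rw [← map_intCast (algebraMap κ K)]; exact hw.2 _ (by exact_mod_cast hn)
      rw [Valuation.map_neg, map_mul, map_mul, map_div₀, this, hu, hDπ, hπ1, one_mul, ← exp_sub,
        ← exp_add]
      congr 1
    rw [h, Valuation.map_add_eq_of_lt_left, e1]
    rw [e1, map_mul, map_div₀, hv, div_one, hu]
    refine (mul_le_mul_right (hc v hv.le) _).trans_lt ?_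
    rw [← exp_add, exp_lt_exp]; push_cast; omega
  let T := Subring.closure (Set.range (algebraMap κ K) ∪ {x | d.D x = 0 ∧ w x ≤ 1})
  have hT : ∀ u ∈ T, w u ≤ 1 ∧ d.D u ∈ T := by
    intro u hu
    induction hu using Subring.closure_induction with
    | mem x hx =>
      rcases hx with ⟨a, rfl⟩ | hx
      · obtain ⟨a', ha'⟩ := hd a
        exact ⟨hw.const_le_one a, ha' ▸ Subring.subset_closure (Or.inl ⟨a', rfl⟩)⟩
      · exact ⟨hx.2, hx.1 ▸ T.zero_mem⟩
    | zero => exact ⟨by simp, by rw [d.D_zero]; exact T.zero_mem⟩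
    | one => exact ⟨by simp, d.D_one ▸ T.zero_mem⟩
    | add x y _ _ a1 a2 => exact ⟨w.map_add_le a1.1 a2.1, d.D_add x y ▸ T.add_mem a1.2 a2.2⟩
    | neg x _ a1 => exact ⟨by simpa using a1.1, d.D_neg x ▸ T.neg_mem a1.2⟩
    | mul x y hx hy a1 a2 =>
      exact ⟨by rw [map_mul]; exact mul_le_one' a1.1 a2.1,
        d.D_mul x y ▸ T.add_mem (T.mul_mem hx a2.2) (T.mul_mem hy a1.2)⟩
  have hdiv : ∀ n : ℕ, ∀ u ∈ T, w u = exp (-(n : ℤ)) → ((c : ℤ) + 2) ∣ n := by
    intro n
    induction n using Nat.strong_induction_on with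
    | _ n ih =>
      intro u hu hn
      rcases Nat.eq_zero_or_pos n with rfl | hpos
      · simp
      have h1 := hstep u _ (by omega) hn
      have h2 := (hT _ (hT u hu).2).1
      rw [h1, ← exp_zero, exp_le_exp] at h2
      have h3 := ih (n - (c + 2)) (by omega) _ (hT u hu).2 (by rw [h1]; congr 1; omega)
      have h4 : (n : ℤ) = ((n - (c + 2) : ℕ) : ℤ) + (c + 2) := by omega
      rw [h4]
      exact dvd_add h3 dvd_rfl
  have hdiv' : ∀ u ∈ T, u ≠ 0 → ((c : ℤ) + 2) ∣ log (w u) := by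
    intro u hu h0
    have h1 : w u ≠ 0 := (w.ne_zero_iff).mpr h0
    have h2 : log (w u) ≤ 0 := by rw [log_le_iff_le_exp h1]; exact (hT u hu).1
    have := hdiv (-log (w u)).toNat u hu (by rw [← exp_log h1]; congr 1; simp; omega)
    rw [Int.toNat_of_nonneg (by omega)] at this
    exact (dvd_neg).mp this
  have hle : Subfield.closure (Set.range (algebraMap κ K) ∪ d.const) ≤
      Subfield.closure (T : Set K) := by
    rw [Subfield.closure_le]
    rintro x (hx | hx)
    · exact Subfield.subset_closure (Subring.subset_closure (Or.inl hx))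
    · rcases w.val_le_one_or_val_inv_le_one x with h | h
      · exact Subfield.subset_closure (Subring.subset_closure (Or.inr ⟨hx, h⟩))
      · rw [← inv_inv x]
        exact Subfield.inv_mem _
          (Subfield.subset_closure (Subring.subset_closure (Or.inr ⟨d.const.inv_mem hx, h⟩)))
  obtain ⟨y, hy, z, hz, hyz⟩ := Subfield.mem_closure_iff.mp (hle (hgen ϖ))
  rw [Subring.closure_eq] at hy hz
  have h0 := ne_zero_of_val hϖ
  rw [← hyz] at h0 hϖ
  have hy0 : y ≠ 0 := (div_ne_zero_iff.mp h0).1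
  have hz0 : z ≠ 0 := (div_ne_zero_iff.mp h0).2
  have h1 := dvd_sub (hdiv' y hy hy0) (hdiv' z hz hz0)
  rw [← log_div ((w.ne_zero_iff).mpr hy0) ((w.ne_zero_iff).mpr hz0), ← map_div₀, hϖ, log_exp,
    dvd_neg] at h1
  have := Int.le_of_dvd one_pos h1
  omega

end FF

end Pool.Agent.P.MP_7ede32_ag
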