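import Pool.Agent.P.MP_7ede32_ag.FLoc
import Pool.Agent.P.MP_7ede32_ag.FVal

/-! The auxiliary function attached to a point of the Fermat cover. -/

open scoped DualNumber WithZero
open MvPolynomial Finset WithZero

namespace Pool.Agent.P.MP_7ede32_ag

variable {l : ℕ} {I J : Type}

theorem jet_est {K : Type} [Field K] (d : Der K) (w : Valuation K ℤᵐ⁰) {π : K}
    (hπ : w π = exp (-1)) {g : ℤᵐ⁰} (h1 : 1 ≤ g) (hD : ∀ u, w u ≤ 1 → w (d.D u) ≤ g) {p : K}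
    (h2 : w (d.D p) ≤ g ^ 2) (h3 : w p = exp (-1) → g ≠ 1) : w (d.D p) ^ 2 ≤ g ^ 4 * w p := by
  have h4 := d.val_D_le w hπ hD p
  rcases le_or_gt 1 (w p) with h | h
  · calc w (d.D p) ^ 2 ≤ (g ^ 2) ^ 2 := pow_le_pow_left' h2 2
      _ = g ^ 4 := by rw [← pow_mul]
      _ ≤ _ := le_mul_of_one_le_right' h
  have h5 : w p ≤ exp (-1) := le_exp_of_lt (by simpa using h)
  have h6 : exp 1 * exp 1 * w p ≤ g ^ 2 := by
    rcases h5.lt_or_eq with h5 | h5
    · have h7 : w p ≤ exp (-2) := le_exp_of_lt h5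
      refine (mul_le_mul_right h7 _).trans ?_
      rw [← exp_add, ← exp_add]
      exact one_le_pow_of_one_le' h1 2
    · have h7 : exp (0 + 1) ≤ g := exp_le_of_lt (lt_of_le_of_ne h1 (h3 h5).symm)
      rw [h5, ← exp_add, ← exp_add, sq]
      exact h7.trans (le_mul_of_one_le_right' h1)
  calc w (d.D p) ^ 2 ≤ (exp 1 * g * w p) ^ 2 := pow_le_pow_left' h4 2
    _ = g ^ 2 * (exp 1 * exp 1 * w p) * w p := by
        simp only [sq, mul_assoc, mul_comm, mul_left_comm]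
    _ ≤ g ^ 2 * g ^ 2 * w p := mul_le_mul_left (mul_le_mul_right h6 _) _
    _ = _ := by rw [← pow_add]

theorem Good.exists_local [Fintype I] {G : MvPolynomial (Vr l) (R0 (Fin (64 * (l + 1) ^ 2 + 1)) l)}
    (hG : Good G) {emb : J × (Fin (l + 2) ⊕ Fin (64 * (l + 1) ^ 2 + 1)) → I}
    (hemb : Function.Injective emb) {K0 : Type} [Field K0] (A0 : I → Fin (l + 2) → K0[ε])
    (hgen : GenPos fun i b => (A0 i b).fst) (j : J) :
    ∃ (𝒞 : Finset K0) (E : ℕ), ∀ (K : Type) [Field K] (φ : K0 →+* K) (d : Der K),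
      (∀ i b, dmap φ (A0 i b) = d.jet (φ (A0 i b).fst)) → ∀ (m : ℕ), 2 ≤ m → ∀ (y : I → K)
      (x : Fin (l + 2) → K), (∀ i, y i ^ m = ∑ b, φ (A0 i b).fst * x b) → ∀ i0, y i0 = 1 →
      ∀ (w : Valuation K ℤᵐ⁰) (π : K), w π = exp (-1) → ∀ g : ℤᵐ⁰, 1 ≤ g →
      (∀ c ∈ 𝒞, w (φ c) ≤ g) → (∀ u, w u ≤ 1 → w (d.D u) ≤ g) → ∀ i,
      w (SigJ G emb (fun i b => dmap φ (A0 i b)) j fun b => d.jet (x b)) ^ 2 * max 1 (w (y i)) ≤
        g ^ E * ∏ i', w (y (emb (j, Sum.inr i')) ^ m) := by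
  classical
  obtain ⟨𝒞, E, hP⟩ := hG.exists_pkg (by nlinarith [Nat.zero_le l])
    (Matrix.of fun a b => A0 (emb (j, Sum.inl a)) b) (fun i => A0 (emb (j, Sum.inr i)))
    (fun T hT => hgen (fun k => emb (j, Sum.inr (T k))) fun a b h =>
      hT (Sum.inr_injective (Prod.mk.inj (hemb h)).2))
  refine ⟨𝒞 ∪ (univ.image (fun p : I × Fin (l + 2) => (A0 p.1 p.2).fst) ∪
    univ.image (fun p : I × Fin (l + 2) => (A0 p.1 p.2).snd)), 4 * E + 1,
    fun K _ φ d hjet m hm y x hy i0 hi0 w π hπ g h1 hc hD i => ?_⟩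
  have ha : ∀ i b, w (φ (A0 i b).fst) ≤ g := fun i b =>
    hc _ (mem_union_right _ (mem_union_left _ (mem_image.mpr ⟨(i, b), mem_univ _, rfl⟩)))
  have ha' : ∀ i b, w (d.D (φ (A0 i b).fst)) ≤ g := fun i b => by
    have := congrArg TrivSqZeroExt.snd (hjet i b)
    rw [snd_dmap, Der.snd_jet] at this
    rw [← this]
    exact hc _ (mem_union_right _ (mem_union_right _ (mem_image.mpr ⟨(i, b), mem_univ _, rfl⟩)))
  obtain ⟨s, -, hs⟩ := exists_max_image univ (fun b => w (x b)) univ_nonempty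
  have hyb : ∀ i, w (y i) ^ m ≤ g * w (x s) := fun i => by
    rw [← map_pow, hy]
    refine w.map_sum_le fun b _ => ?_
    rw [map_mul]
    exact mul_le_mul' (ha i b) (hs b (mem_univ _))
  have hf0 : w (x s) ≠ 0 := by
    intro h
    have := hyb i0
    rw [hi0, h] at this
    simp at this
  have hf : x s ≠ 0 := (w.ne_zero_iff).mp hf0
  have hmax : max 1 (w (y i)) ≤ g * w (x s) := by
    rcases le_total (w (y i)) 1 with h | h
    · rw [max_eq_left h]; simpa [hi0] using hyb i0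
    · rw [max_eq_right h]; exact (le_self_pow h (by omega)).trans (hyb i)
  have hx1 : ∀ b, w ((x s)⁻¹ * x b) ≤ 1 := fun b => by
    rw [map_mul, map_inv₀, inv_mul_le_one₀ (zero_lt_iff.mpr hf0)]; exact hs b (mem_univ _)
  let p : I → K := fun i => (x s)⁻¹ * y i ^ m
  have hp : ∀ i, p i = ∑ b, φ (A0 i b).fst * ((x s)⁻¹ * x b) := fun i => by
    simp only [p, hy, mul_sum]
    exact sum_congr rfl fun b _ => by ring
  have hp1 : ∀ i, w (p i) ≤ g := fun i => by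
    rw [hp]
    refine w.map_sum_le fun b _ => ?_
    rw [map_mul]
    exact (mul_le_of_le_one_right' (hx1 b)).trans (ha i b)
  have hp2 : ∀ i, w (d.D (p i)) ≤ g ^ 2 := fun i => by
    rw [hp, d.D_sum]
    refine w.map_sum_le fun b _ => ?_
    rw [d.D_mul, sq]
    refine w.map_add_le ?_ ?_ <;> rw [map_mul]
    · exact mul_le_mul' (ha i b) (hD _ (hx1 b))
    · exact mul_le_mul' ((hx1 b).trans h1) (ha' i b)
  have hg4 : ∀ k, k ≤ 4 → g ^ k ≤ g ^ 4 := fun k hk => pow_le_pow_right' h1 hk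
  obtain ⟨⟨i1, hi1⟩, hmain⟩ := hP K φ w (g ^ 4) (by simpa using hg4 0 (by norm_num))
    (fun c hc' => (hc c (mem_union_left _ hc')).trans (by simpa using hg4 1 (by norm_num)))
    (fun b => d.jet (x s)⁻¹ * d.jet (x b)) (fun i => d.jet (p (emb (j, Sum.inr i))))
    (fun i => by simp only [hp, map_sum, map_mul, hjet]) ⟨s, by simp [hf]⟩
  have h3 : ∀ i, w (p i) = exp (-1) → g ≠ 1 := by
    rintro i hi rfl
    have e1 : w (p (emb (j, Sum.inr i1))) = 1 := le_antisymm (hp1 _) (by simpa using hi1)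
    simp only [p, map_mul, map_inv₀, map_pow] at e1 hi
    have n1 : w (y (emb (j, Sum.inr i1))) ≠ 0 := by
      intro h; rw [h, zero_pow (by omega), mul_zero] at e1; exact zero_ne_one e1
    have n2 : w (y i) ≠ 0 := by
      intro h; rw [h, zero_pow (by omega), mul_zero] at hi; exact exp_ne_zero hi.symm
    have e2 := congrArg log e1
    have e3 := congrArg log hi
    rw [log_mul (inv_ne_zero hf0) (pow_ne_zero _ ‹_›), log_pow] at e2 e3
    rw [log_one] at e2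
    rw [log_exp] at e3
    have e4 : (m : ℤ) ∣ 1 := ⟨log (w (y (emb (j, Sum.inr i1)))) - log (w (y i)), by
      simp only [nsmul_eq_mul] at e2 e3
      linear_combination e3 - e2⟩
    have := Int.le_of_dvd one_pos e4
    omega
  have h5 := hmain fun i => ⟨(hp1 _).trans (by simpa using hg4 1 (by norm_num)),
    (hp2 _).trans (hg4 2 (by norm_num)), jet_est d w hπ h1 hD (hp2 _) (h3 _)⟩
  rw [Sig_scale hG.hom] at h5
  simp only [Der.fst_jet] at h5
  simp only [p, map_mul, map_pow, map_inv₀, prod_mul_distrib, prod_const, card_univ,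
    Fintype.card_fin, mul_pow, ← pow_mul] at h5
  have e5 : 2 * (16 * (l + 1) ^ 2) * 2 = 64 * (l + 1) ^ 2 := by ring
  rw [e5, pow_succ (w (x s))⁻¹, mul_assoc, mul_left_comm (g ^ (4 * E)),
    mul_le_mul_iff_right₀ (pow_pos (inv_pos.mpr (zero_lt_iff.mpr hf0)) _)] at h5
  simp only [map_pow]
  refine (mul_le_mul' h5 hmax).trans (le_of_eq ?_)
  rw [pow_succ g]
  field_simp

/-- the output of the construction -/
structure Mach (Δ : R0 I l) : Prop where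
  gen : ∀ (F : Type) [Field F] (A : I → Fin (l + 2) → F[ε]), theta A Δ ≠ 0 →
    GenPos (fun i b => (A i b).fst) ∧ ∃ i b, (A i b).snd ≠ 0
  loc : ∀ (K0 : Type) [Field K0] (A0 : I → Fin (l + 2) → K0[ε]), theta A0 Δ ≠ 0 →
    ∃ (𝒞 : Finset K0) (E : ℕ), ∀ (K : Type) [Field K] (φ : K0 →+* K) (d : Der K),
      (∀ i b, dmap φ (A0 i b) = d.jet (φ (A0 i b).fst)) → ∀ (m : ℕ), 2 ≤ m → ∀ (y : I → K)
      (x : Fin (l + 2) → K), (∀ i, y i ^ m = ∑ b, φ (A0 i b).fst * x b) → ∀ i0, y i0 = 1 →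
      ∃ ψ : K, ψ ≠ 0 ∧ ∀ (w : Valuation K ℤᵐ⁰) (π : K), w π = exp (-1) → ∀ g : ℤᵐ⁰, 1 ≤ g →
      (∀ c ∈ 𝒞, w (φ c) ≤ g) → (∀ u, w u ≤ 1 → w (d.D u) ≤ g) → ∀ i,
      w ψ * max 1 (w (y i)) ≤ g ^ E

theorem exists_mach (l : ℕ) (I : Type) [Fintype I]
    (hI : 3 * (l + 2) * (l + 2 + (64 * (l + 1) ^ 2 + 1)) ≤ Fintype.card I) :
    ∃ Δ : R0 I l, Δ ≠ 0 ∧ Mach Δ := by
  classical
  obtain ⟨G, hG⟩ := exists_good (ι := Fin (64 * (l + 1) ^ 2 + 1)) (l := l) (Fintype.card_fin _)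
  obtain ⟨emb⟩ := Function.Embedding.nonempty_of_card_le
    (α := Fin (3 * (l + 2)) × (Fin (l + 2) ⊕ Fin (64 * (l + 1) ^ 2 + 1))) (β := I) (by simpa using hI)
  obtain ⟨Δ, h0, hΔ⟩ := hG.exists_Delta emb.injective (by simp) (emb (0, Sum.inl 0))
  refine ⟨Δ, h0, fun F _ A hA => ⟨(hΔ F A hA).1, _, _, (hΔ F A hA).2.1⟩, fun K0 _ A0 hA0 => ?_⟩
  choose 𝒞 E hloc using hG.exists_local emb.injective A0 (hΔ K0 A0 hA0).1
  refine ⟨univ.biUnion 𝒞, univ.sup E, fun K _ φ d hjet m hm y x hy i0 hi0 => ?_⟩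
  have hA : theta (fun i b => dmap φ (A0 i b)) Δ ≠ 0 := by
    rw [← theta_map]
    exact (map_ne_zero φ).mpr hA0
  obtain ⟨j, hj1, hj2⟩ := (hΔ K _ hA).2.2 (fun b => d.jet (x b)) (by
    by_contra hne
    push Not at hne
    have := hy i0
    simp only [Der.fst_jet] at hne
    simp [hi0, hne] at this)
  simp only [fst_dmap, Der.fst_jet, ← hy] at hj2
  have hpr : ∏ i', y (emb (j, Sum.inr i')) ^ m ≠ 0 := prod_ne_zero_iff.mpr fun i _ => hj2 i
  refine ⟨_ ^ 2 / _, div_ne_zero (pow_ne_zero 2 hj1) hpr, fun w π hπ g h1 hc hD i => ?_⟩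
  have := hloc j K φ d hjet m hm y x hy i0 hi0 w π hπ g h1
    (fun c hc' => hc c (mem_biUnion.mpr ⟨j, mem_univ _, hc'⟩)) hD i
  rw [map_div₀, div_mul_eq_mul_div, div_le_iff₀ (zero_lt_iff.mpr ((w.ne_zero_iff).mpr hpr)),
    map_pow, map_prod]
  exact this.trans (mul_le_mul_left (pow_le_pow_right' h1 (le_sup (mem_univ j))) _)

end Pool.Agent.P.MP_7ede32_ag
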