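import Pool.Agent.P.MP_7ede32_ag.FRig

/-! Finiteness over the function field of a curve. -/

open scoped DualNumber WithZero IntermediateField
open Finset WithZero Filter

namespace Pool.Agent.P.MP_7ede32_ag

variable {l : ℕ} {I : Type}

theorem acl_map {F F' : Type} [Field F] [CharZero F] [Field F'] [CharZero F'] (φ : F →+* F')
    {S : Set F} {x : F} (hx : x ∈ acl S) : φ x ∈ acl (φ '' S) := by
  let _ : Algebra F F' := φ.toAlgebra
  let E := (acl (φ '' S)).comap φ
  have h1 : IsAlgebraic E x :=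
    isAlgebraic_of_mem_acl E (fun y hy => ⟨⟨y, subset_acl (φ '' S) ⟨y, hy, rfl⟩⟩, rfl⟩) hx
  exact mem_acl_of_isAlgebraic (algebraMap E F').injective (fun r => r.2)
    (h1.algebraMap (A := F'))

theorem exists_ultra {K : Type} [Field K] [CharZero K] (d : Der K) :
    ∃ (F : Type) (_ : Field F) (_ : CharZero F) (_ : IsAlgClosed F) (Φ : (ℕ → K) →+* F)
      (d' : Der F), (∀ f, d'.D (Φ f) = Φ fun r => d.D (f r)) ∧
      ∀ f, Φ f = 0 → ∀ᶠ r in (hyperfilter ℕ : Filter ℕ), f r = 0 := by
  let U := Germ (hyperfilter ℕ : Filter ℕ) K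
  let Ψ : (ℕ → K) →+* U := Germ.coeRingHom _
  have : CharZero U := charZero_of_injective_ringHom (Ψ.comp (Pi.constRingHom ℕ K)).injective
  let d0 : Der U :=
    { D := Germ.map d.D
      D_add := fun x y => Germ.inductionOn₂ x y fun f g =>
        congrArg Ψ (funext fun r => d.D_add (f r) (g r))
      D_mul := fun x y => Germ.inductionOn₂ x y fun f g =>
        congrArg Ψ (funext fun r => d.D_mul (f r) (g r)) }
  obtain ⟨d', hd'⟩ := d0.exists_extend (L := AlgebraicClosure U)
  refine ⟨AlgebraicClosure U, inferInstance, inferInstance, inferInstance,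
    (algebraMap U _).comp Ψ, d', fun f => hd' _, fun f hf => ?_⟩
  have h1 : Ψ f = Ψ 0 := by
    rw [map_zero]; exact (map_eq_zero_iff _ (algebraMap U _).injective).mp hf
  exact Germ.coe_eq.mp h1

variable {κ K : Type} [Field κ] [IsAlgClosed κ] [CharZero κ] [Field K] [Algebra κ K]

theorem Mach.exists_height {Δ : R0 I l} (hM : Mach Δ) (hK : FF.IsCurveField κ K) (d : Der K)
    (hd : ∀ c, d.D (algebraMap κ K c) = 0) (a : I → Fin (l + 2) → K)
    (hΔ : theta (fun i b => d.jet (a i b)) Δ ≠ 0) : ∃ H, ∀ m, 2 ≤ m → ∀ (y : I → K)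
      (x : Fin (l + 2) → K), (∀ i, y i ^ m = ∑ b, a i b * x b) → ∀ i0, y i0 = 1 →
      ∀ i, FF.PB κ (y i) H := by
  classical
  obtain ⟨𝒞, E, hloc⟩ := hM.loc K _ hΔ
  obtain ⟨𝒟, hD⟩ := hK.exists_bound d fun c => ⟨0, by rw [hd, map_zero]⟩
  obtain ⟨h, S0, h1, h2, h3⟩ := hK.exists_fun (𝒞 ∪ 𝒟)
  refine ⟨∑ w ∈ S0, E * h w, fun m hm y x hy i0 hi0 i => ?_⟩
  obtain ⟨ψ, hψ, hw⟩ := hloc K (RingHom.id K) d (fun _ _ => rfl) m hm y x hy i0 hi0
  refine hK.PB_of_local (fun w => E * h w) S0 (fun w hw hn => by rw [h1 w hw hn, mul_zero]) h2 hψ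
    fun w hpl => ?_
  obtain ⟨π, hπ⟩ := hpl.1 (exp (-1))
  have hg : (1 : ℤᵐ⁰) ≤ exp (h w : ℤ) := by rw [← exp_zero, exp_le_exp]; omega
  have := hw w π hπ _ hg (fun c hc => h3 w c (mem_union_left _ hc))
    (hD w hpl _ hg fun c hc => h3 w c (mem_union_right _ hc)) i
  rwa [← exp_nsmul, nsmul_eq_mul, ← Nat.cast_mul] at this

theorem Mach.finite_curve [Fintype I] {Δ : R0 I l} (hM : Mach Δ) (hK : FF.IsCurveField κ K)
    (d : Der K) (hd : ∀ c, d.D (algebraMap κ K c) = 0) (a : I → Fin (l + 2) → K)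
    (hΔ : theta (fun i b => d.jet (a i b)) Δ ≠ 0) {m : ℕ} (hm : 2 ≤ m) (i0 : I) :
    {y : I → K | y i0 = 1 ∧ ∃ x : Fin (l + 2) → K, ∀ i, y i ^ m = ∑ b, a i b * x b}.Finite := by
  classical
  have : CharZero K := charZero_of_injective_algebraMap (algebraMap κ K).injective
  obtain ⟨H, hH⟩ := hM.exists_height hK d hd a hΔ
  obtain ⟨𝓔, h𝓔⟩ := hK.exists_param H
  obtain ⟨t, -, hfin⟩ := id hK
  have hall : ∀ u : K, u ∈ acl (insert t (Set.range (algebraMap κ K))) := by
    intro u
    refine mem_acl_of_isAlgebraic (R := κ⟮t⟯) (RingHom.injective _) (fun r => ?_)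
      (Algebra.IsAlgebraic.isAlgebraic u)
    have : κ⟮t⟯ ≤ (acl (insert t (Set.range (algebraMap κ K)))).toIntermediateField
        (fun c => subset_acl _ (Or.inr ⟨c, rfl⟩)) := by
      rw [IntermediateField.adjoin_simple_le_iff]; exact subset_acl _ (Or.inl rfl)
    exact this r.2
  have ht0 : d.D t ≠ 0 := by
    intro h
    obtain ⟨i, b, hne⟩ := (hM.gen K _ hΔ).2
    exact hne (d.acl_le_const (Set.insert_subset h (by rintro _ ⟨c, rfl⟩; exact hd c)) (hall _))
  by_contra hinf
  let ys := Set.Infinite.natEmbedding _ hinf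
  choose xs hxs using fun r => (ys r).2.2
  choose v hv b hb hb0 hvb using fun r i => h𝓔 _ (hH m hm _ _ (hxs r) i0 (ys r).2.1 i)
  choose cv _ hcv using fun r i => Submodule.mem_span_finset.mp (hv r i)
  choose cb _ hcb using fun r i => Submodule.mem_span_finset.mp (hb r i)
  obtain ⟨F, _, _, _, Φ, d', hΦ, hΦ0⟩ := exists_ultra d
  let ι : K →+* F := Φ.comp (Pi.constRingHom ℕ K)
  have hι : ∀ u, d'.D (ι u) = ι (d.D u) := fun u => hΦ _
  have hK0 : ∀ u, ι u ∈ acl (insert (ι t) (ι '' Set.range (algebraMap κ K))) := fun u => by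
    rw [← Set.image_insert_eq]; exact acl_map ι (hall u)
  let co : (ℕ → κ) → F := fun c => Φ fun r => algebraMap κ K (c r)
  let S : Finset F := (univ ×ˢ 𝓔).image (fun p : I × K => co fun r => cv r p.1 p.2) ∪
    (univ ×ˢ 𝓔).image (fun p : I × K => co fun r => cb r p.1 p.2)
  have hco : ∀ c, d'.D (co c) = 0 := fun c => by
    simp only [co, hΦ, hd]; exact map_zero Φ
  have hsum : ∀ (c : ℕ → K → κ), (∀ e ∈ 𝓔, co (fun r => c r e) ∈ S) →
      Φ (fun r => ∑ e ∈ 𝓔, c r e • e) ∈ Subfield.closure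
        ((acl (insert (ι t) (ι '' Set.range (algebraMap κ K))) : Set F) ∪
          acl (ι '' Set.range (algebraMap κ K) ∪ S)) := by
    intro c hc
    have : (fun r => ∑ e ∈ 𝓔, c r e • e) =
        ∑ e ∈ 𝓔, (fun r => algebraMap κ K (c r e)) * Pi.constRingHom ℕ K e := by
      funext r; simp [Algebra.smul_def]
    rw [this, map_sum]
    refine Subfield.sum_mem _ fun e he => ?_
    rw [map_mul]
    exact Subfield.mul_mem _ (Subfield.subset_closure (Or.inr (subset_acl _ (Or.inr (hc e he)))))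
      (Subfield.subset_closure (Or.inl (hK0 e)))
  have key := hM.rigid d' (fun i b => ι (a i b)) (by
      have := (map_ne_zero ι).mpr hΔ
      rw [← RingHom.comp_apply, theta_map] at this
      have e : (fun i b => d'.jet (ι (a i b))) = fun i b => dmap ι (d.jet (a i b)) := by
        funext i b; ext
        · rfl
        · exact hι _
      rwa [e])
    (ι '' Set.range (algebraMap κ K))
    (by rintro _ ⟨_, ⟨c, rfl⟩, rfl⟩; exact (hι _).trans (by rw [hd, map_zero]))
    (t := ι t) (by rw [hι]; exact (map_ne_zero ι).mpr ht0) (by rw [hι]; exact hK0 _)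
    (fun i b => hK0 _) hm (fun i => Φ fun r => (ys r).1 i) (fun b => Φ fun r => xs r b)
    (fun i => by
      have : ((fun r => (ys r).1 i) ^ m : ℕ → K) =
          ∑ b, Pi.constRingHom ℕ K (a i b) * fun r => xs r b := by
        funext r; simp [hxs r i]
      rw [← map_pow, this, map_sum]
      exact sum_congr rfl fun b _ => map_mul _ _ _)
    (i0 := i0) (by rw [← map_one Φ]; exact congrArg Φ (funext fun r => (ys r).2.1)) S
    (by
      intro u hu
      rcases mem_union.mp hu with hu | hu <;> obtain ⟨p, -, rfl⟩ := mem_image.mp hu <;>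
        exact hco _)
    (fun i => by
      have h1 : Φ (fun r => b r i) ≠ 0 := fun h => by
        obtain ⟨r, hr⟩ := (hΦ0 _ h).exists
        exact hb0 r i hr
      have h2 : Φ (fun r => (ys r).1 i) = Φ (fun r => v r i) / Φ (fun r => b r i) := by
        rw [eq_div_iff h1, ← map_mul]
        exact congrArg Φ (funext fun r => hvb r i)
      rw [h2]
      simp only [← hcv, ← hcb]
      exact Subfield.div_mem _
        (hsum _ fun e he => mem_union_left _ (mem_image.mpr ⟨(i, e), by simp [he], rfl⟩))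
        (hsum _ fun e he => mem_union_right _ (mem_image.mpr ⟨(i, e), by simp [he], rfl⟩)))
  let _ : Algebra K F := ι.toAlgebra
  choose p hp0 hp using fun i => isAlgebraic_of_mem_acl K (by
    rw [← Set.image_insert_eq]; exact Set.image_subset_range _ _) (key i)
  have hev : ∀ i, ∀ᶠ r in (hyperfilter ℕ : Filter ℕ), (p i).eval ((ys r).1 i) = 0 := by
    intro i
    refine hΦ0 _ ?_
    have e : (fun r => (p i).eval ((ys r).1 i)) =
        (p i).eval₂ (Pi.constRingHom ℕ K) fun r => (ys r).1 i := by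
      funext r
      exact (Polynomial.hom_eval₂ (p i) (Pi.constRingHom ℕ K) (Pi.evalRingHom (fun _ => K) r)
        fun r => (ys r).1 i).symm
    rw [e, Polynomial.hom_eval₂]
    exact hp i
  have hfin' : {r | ∀ i, (p i).eval ((ys r).1 i) = 0}.Finite := by
    have h1 : {y : I → K | ∀ i, y i ∈ {u | (p i).IsRoot u}}.Finite :=
      Set.Finite.pi' fun i => Polynomial.finite_setOfPred_isRoot (hp0 i)
    exact h1.preimage (f := fun r => (ys r).1)
      (Subtype.val_injective.comp ys.injective).injOn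
  exact hfin'.notMem_hyperfilter (eventually_all.mpr hev)

end Pool.Agent.P.MP_7ede32_ag
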