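import Pool.Agent.P.MP_7ede32_ag.FMain

/-! Reduction from finitely generated fields to function fields of curves. -/

open scoped DualNumber IntermediateField
open Finset MvPolynomial

namespace Pool.Agent.P.MP_7ede32_ag

variable {l : ℕ} {I : Type}

/-- a linear combination of derivations -/
def Der.comb {K ι : Type*} [Field K] [Fintype ι] (v : ι → K) (e : ι → Der K) : Der K where
  D u := ∑ j, v j * (e j).D u
  D_add x y := by simp only [Der.D_add, mul_add, sum_add_distrib]
  D_mul x y := by
    simp only [Der.D_mul, mul_sum, ← sum_add_distrib]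
    exact sum_congr rfl fun j _ => by ring

/-- the difference of two derivations -/
def Der.diff {K : Type*} [Field K] (d e : Der K) : Der K where
  D u := d.D u - e.D u
  D_add x y := by simp only [Der.D_add]; ring
  D_mul x y := by simp only [Der.D_mul]; ring

theorem exists_dual_der {k K ι : Type} [Field k] [CharZero k] [Field K] [CharZero K] [Algebra k K]
    [DecidableEq ι] (x : ι → K) (hx : AlgebraicIndependent k x)
    (hall : ∀ u : K, u ∈ acl (Set.range (algebraMap k K) ∪ Set.range x)) (j : ι) :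
    ∃ e : Der K, (∀ c, e.D (algebraMap k K c) = 0) ∧ ∀ i, e.D (x i) = if i = j then 1 else 0 := by
  let F0 := FractionRing (MvPolynomial ι k)
  have : Algebra.FormallySmooth (MvPolynomial ι k) F0 :=
    Algebra.FormallySmooth.of_isLocalization (nonZeroDivisors (MvPolynomial ι k))
  let jt : MvPolynomial ι k →+* F0[ε] :=
    eval₂Hom ((algebraMap F0 F0[ε]).comp ((algebraMap (MvPolynomial ι k) F0).comp C))
      fun i => dn (algebraMap (MvPolynomial ι k) F0 (X i)) (if i = j then 1 else 0)
  have hj : (fstR F0).comp jt = algebraMap (MvPolynomial ι k) F0 := by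
    refine MvPolynomial.ringHom_ext (fun r => ?_) fun i => ?_
    · simp [jt, TrivSqZeroExt.algebraMap_eq_inl]
    · simp [jt]
  obtain ⟨e0, he0⟩ := exists_jet_lift jt fun r => RingHom.congr_fun hj r
  let φ : F0 →+* K := IsFractionRing.lift (g := (aeval x : MvPolynomial ι k →ₐ[k] K).toRingHom) hx
  have hφ : ∀ r, φ (algebraMap (MvPolynomial ι k) F0 r) = aeval x r := fun r =>
    IsFractionRing.lift_algebraMap _ r
  let _ : Algebra F0 K := φ.toAlgebra
  have h1 : ∀ c, algebraMap k K c = algebraMap F0 K (algebraMap (MvPolynomial ι k) F0 (C c)) :=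
    fun c => ((hφ _).trans (aeval_C _ _)).symm
  have h2 : ∀ i, x i = algebraMap F0 K (algebraMap (MvPolynomial ι k) F0 (X i)) :=
    fun i => ((hφ _).trans (aeval_X _ _)).symm
  have : Algebra.IsAlgebraic F0 K := ⟨fun u => isAlgebraic_of_mem_acl F0 (by
    rintro _ (⟨c, rfl⟩ | ⟨i, rfl⟩)
    · exact ⟨_, (h1 c).symm⟩
    · exact ⟨_, (h2 i).symm⟩) (hall u)⟩
  have : CharZero F0 := RingHom.charZero φ
  obtain ⟨e, he⟩ := e0.exists_extend (L := K)
  refine ⟨e, fun c => ?_, fun i => ?_⟩
  · rw [h1, he, he0]; simp [jt, TrivSqZeroExt.algebraMap_eq_inl]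
  · rw [h2, he, he0]; simp [jt]

theorem theta_jet_ne {K L : Type} [Field K] [Field L] (φ : K →+* L) {d : Der K} {d' : Der L}
    (h : ∀ u, d'.D (φ u) = φ (d.D u)) {a : I → Fin (l + 2) → K} {Δ : R0 I l}
    (hΔ : theta (fun i b => d.jet (a i b)) Δ ≠ 0) :
    theta (fun i b => d'.jet (φ (a i b))) Δ ≠ 0 := by
  have := (map_ne_zero φ).mpr hΔ
  rw [← RingHom.comp_apply, theta_map] at this
  have e : (fun i b => d'.jet (φ (a i b))) = fun i b => dmap φ (d.jet (a i b)) := by
    funext i b; ext
    · rfl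
    · exact h _
  rwa [e]

variable {k K : Type} [Field k] [CharZero k] [Field K] [Algebra k K] [Algebra.EssFiniteType k K]

/-- A derivation whose constants have corank one. -/
theorem Mach.exists_corank_one [CharZero K] {Δ : R0 I l} (hM : Mach Δ) (d : Der K)
    (hd : ∀ c, d.D (algebraMap k K c) = 0) (a : I → Fin (l + 2) → K)
    (hΔ : theta (fun i b => d.jet (a i b)) Δ ≠ 0) : ∃ (d1 : Der K) (t : K),
      (∀ c, d1.D (algebraMap k K c) = 0) ∧ theta (fun i b => d1.jet (a i b)) Δ ≠ 0 ∧
      d1.D t ≠ 0 ∧ ∀ u, u ∈ acl (insert t (d1.const : Set K)) := by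
  classical
  obtain ⟨s, hs⟩ := exists_finset_isTranscendenceBasis k K
  let x : s → K := (↑)
  have hall : ∀ u : K, u ∈ acl (Set.range (algebraMap k K) ∪ Set.range x) := by
    intro u
    refine mem_acl_of_isAlgebraic (R := Algebra.adjoin k (Set.range x)) Subtype.val_injective
      (fun r => ?_) (hs.isAlgebraic.isAlgebraic u)
    have : Algebra.adjoin k (Set.range x) ≤
        ((acl (Set.range (algebraMap k K) ∪ Set.range x)).toIntermediateField
          (fun c => subset_acl _ (Or.inl ⟨c, rfl⟩))).toSubalgebra := by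
      rw [Algebra.adjoin_le_iff]; exact fun y hy => subset_acl _ (Or.inr hy)
    exact this r.2
  choose e he1 he2 using exists_dual_der x hs.1 hall
  have hc1 : ∀ v c, (Der.comb v e).D (algebraMap k K c) = 0 := fun v c => by simp [Der.comb, he1]
  have hc2 : ∀ v i, (Der.comb v e).D (x i) = v i := fun v i => by simp [Der.comb, he2]
  have hdec : ∀ u, d.D u = (Der.comb (fun i => d.D (x i)) e).D u := fun u =>
    sub_eq_zero.mp ((d.diff (Der.comb (fun i => d.D (x i)) e)).acl_le_const (by
      rintro _ (⟨c, rfl⟩ | ⟨i, rfl⟩)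
      · exact sub_eq_zero.mpr ((hd c).trans (hc1 _ c).symm)
      · exact sub_eq_zero.mpr (hc2 (fun i => d.D (x i)) i).symm) (hall u))
  let Φ : MvPolynomial s K :=
    theta (fun i b => dn (C (a i b)) (∑ j, X j * C ((e j).D (a i b)))) Δ
  have hΦ : ∀ v, eval v Φ = theta (fun i b => (Der.comb v e).jet (a i b)) Δ := by
    intro v
    rw [← RingHom.comp_apply, theta_map]
    congr 2
    funext i b
    ext <;> simp [Der.comb]
  have hΦ0 : Φ ≠ 0 := by
    intro h
    have := hΦ fun i => d.D (x i)
    rw [h, map_zero] at this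
    refine hΔ (Eq.trans ?_ this.symm)
    congr 2
    funext i b
    ext
    · rfl
    · exact hdec _
  obtain ⟨v, hv, hv0⟩ : ∃ v ∈ Set.pi Set.univ (fun _ : s => Set.range (Nat.cast : ℕ → K)),
      eval v Φ ≠ 0 := by
    by_contra hne
    push Not at hne
    exact hΦ0 (funext_set _ (fun _ => Set.infinite_range_of_injective Nat.cast_injective)
      fun v hv => by rw [hne v hv, map_zero])
  rw [hΦ] at hv0
  have hvc : ∀ i, v i ∈ (Der.comb v e).const := fun i => by
    obtain ⟨n, hn⟩ := hv i (Set.mem_univ _)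
    rw [← hn]; exact Der.D_natCast _ n
  obtain ⟨j, hj⟩ : ∃ j, v j ≠ 0 := by
    by_contra hne
    push Not at hne
    obtain ⟨i, b, h⟩ := (hM.gen K _ hv0).2
    exact h (by simp [Der.comb, hne])
  refine ⟨Der.comb v e, x j, hc1 v, hv0, by rwa [hc2], fun u => acl_le ?_ (hall u)⟩
  have hsub : ∀ y ∈ (Der.comb v e).const, y ∈ acl (insert (x j) ((Der.comb v e).const : Set K)) :=
    fun y hy => subset_acl _ (Or.inr hy)
  rintro _ (⟨c, rfl⟩ | ⟨i, rfl⟩)
  · exact hsub _ (hc1 v c)
  · have h1 : v i / v j ∈ (Der.comb v e).const := div_mem (hvc i) (hvc j)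
    have h2 : x i - v i / v j * x j ∈ (Der.comb v e).const := by
      rw [Der.mem_const, Der.D_sub, Der.D_mul, hc2, hc2, h1]
      field_simp
      ring
    have : x i = (x i - v i / v j * x j) + v i / v j * x j := by ring
    rw [this]
    exact add_mem (hsub _ h2) (mul_mem (hsub _ h1) (subset_acl _ (Or.inl rfl)))

theorem Mach.finite_fg [Fintype I] {Δ : R0 I l} (hM : Mach Δ) (d : Der K)
    (hd : ∀ c, d.D (algebraMap k K c) = 0) (a : I → Fin (l + 2) → K)
    (hΔ : theta (fun i b => d.jet (a i b)) Δ ≠ 0) {m : ℕ} (hm : 2 ≤ m) (i0 : I) :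
    {y : I → K | y i0 = 1 ∧ ∃ x : Fin (l + 2) → K, ∀ i, y i ^ m = ∑ b, a i b * x b}.Finite := by
  classical
  have : CharZero K := charZero_of_injective_algebraMap (algebraMap k K).injective
  obtain ⟨d1, t, hd1, hΔ1, ht, hall⟩ := hM.exists_corank_one d hd a hΔ
  let F := AlgebraicClosure K
  obtain ⟨d2, hd2⟩ := d1.exists_extend (L := F)
  let φ := algebraMap K F
  let κ := d2.const
  have hκ : acl (κ : Set F) = κ := le_antisymm (d2.acl_le_const subset_rfl) (subset_acl _)
  have : IsAlgClosed κ := hκ ▸ isAlgClosed_acl _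
  obtain ⟨Γ0, hΓ0⟩ := IntermediateField.fg_top k K
  let Γ : Finset F := (insert t Γ0).image φ
  have hφκ : ∀ u ∈ d1.const, φ u ∈ κ := fun u hu => (hd2 u).trans (by rw [hu, map_zero])
  have hK := isCurveField_adjoin κ Γ (s := φ t) (mem_image_of_mem _ (mem_insert_self _ _))
    (by rw [hκ]; exact fun h => ht ((map_eq_zero φ).mp ((hd2 t).symm.trans h)))
    (by
      intro y hy
      obtain ⟨u, -, rfl⟩ := mem_image.mp hy
      refine acl_mono ?_ (acl_map φ (hall u))
      rw [Set.image_insert_eq]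
      exact Set.insert_subset_insert (by rintro _ ⟨w, hw, rfl⟩; exact hφκ w hw))
  let M := IntermediateField.adjoin κ (Γ : Set F)
  have hφM : ∀ u, φ u ∈ M := by
    intro u
    have hu : u ∈ IntermediateField.adjoin k (Γ0 : Set K) := hΓ0 ▸ IntermediateField.mem_top
    induction hu using IntermediateField.adjoin_induction with
    | mem u hu =>
      exact IntermediateField.subset_adjoin _ _ (mem_image_of_mem _ (mem_insert_of_mem hu))
    | algebraMap c => exact M.algebraMap_mem ⟨_, hφκ _ (hd1 c)⟩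
    | add u v _ _ a1 a2 => rw [map_add]; exact add_mem a1 a2
    | inv u _ a1 => rw [map_inv₀]; exact inv_mem a1
    | mul u v _ _ a1 a2 => rw [map_mul]; exact mul_mem a1 a2
  obtain ⟨d3, hd3⟩ := d2.exists_restrict_adjoin κ Γ
    (fun u hu => by rw [d2.mem_const.mp hu]; exact zero_mem _) (fun y hy => by
      obtain ⟨u, -, rfl⟩ := mem_image.mp hy
      rw [hd2]; exact hφM _)
  let ψ : K →+* M := φ.codRestrict M hφM
  have hfin := hM.finite_curve hK d3 (fun c => Subtype.ext ((hd3 _).trans c.2))
    (fun i b => ψ (a i b))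
    (theta_jet_ne ψ (fun u => Subtype.ext ((hd3 _).trans (hd2 u))) hΔ1) hm i0
  refine (hfin.preimage (f := fun (y : I → K) i => ψ (y i))
    (fun y _ y' _ h => funext fun i => ψ.injective (congrFun h i))).subset ?_
  rintro y ⟨h1, x, hx⟩
  exact ⟨by simp [h1], fun b => ψ (x b), fun i => by rw [← map_pow, hx, map_sum]; simp⟩

end Pool.Agent.P.MP_7ede32_ag
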