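import Pool.Agent.P.MP_7ede32_ag.FMach
import Pool.Agent.P.MP_7ede32_ag.FHt

/-! Rigidity: a point defined over an extension of the constants is algebraic. -/

open scoped DualNumber WithZero
open Finset WithZero

namespace Pool.Agent.P.MP_7ede32_ag

variable {l : ℕ} {I : Type}

theorem exists_sol_descend {M F J : Type*} [Field M] [Field F] [Algebra M F] [Fintype J]
    (a : I → J → M) (b : I → M) (x : J → F)
    (h : ∀ i, algebraMap M F (b i) = ∑ j, algebraMap M F (a i j) * x j) :
    ∃ x' : J → M, ∀ i, b i = ∑ j, a i j * x' j := by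
  obtain ⟨ρ, hρ⟩ := (Algebra.linearMap M F).exists_leftInverse_of_injective
    (LinearMap.ker_eq_bot.mpr (algebraMap M F).injective)
  refine ⟨fun j => ρ (x j), fun i => ?_⟩
  have h1 : ρ (algebraMap M F (b i)) = b i := LinearMap.congr_fun hρ (b i)
  rw [← h1, h, map_sum]
  refine sum_congr rfl fun j _ => ?_
  rw [← Algebra.smul_def, map_smul, smul_eq_mul]

variable {F : Type} [Field F] [CharZero F]

omit [CharZero F] in
theorem Der.exists_restrict_adjoin (d : Der F) (κ : Subfield F) (Γ : Set F)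
    (h1 : ∀ u ∈ κ, d.D u ∈ κ) (h2 : ∀ u ∈ Γ, d.D u ∈ IntermediateField.adjoin κ Γ) :
    ∃ d' : Der (IntermediateField.adjoin κ Γ), ∀ u, (d'.D u : F) = d.D u := by
  set M := IntermediateField.adjoin κ Γ
  have : M ≤ (d.stab M.toSubfield).toIntermediateField
      (fun e => ⟨M.algebraMap_mem e, M.algebraMap_mem ⟨_, h1 _ e.2⟩⟩) := by
    rw [IntermediateField.adjoin_le_iff]
    exact fun u hu => ⟨IntermediateField.subset_adjoin _ _ hu, h2 u hu⟩
  exact d.exists_restrict (algebraMap M F) fun u => ⟨⟨_, (this u.2).2⟩, rfl⟩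

theorem Mach.height_zero {Δ : R0 I l} (hM : Mach Δ) (d : Der F) (a : I → Fin (l + 2) → F)
    (hΔ : theta (fun i b => d.jet (a i b)) Δ ≠ 0) (κ : Subfield F) [IsAlgClosed κ]
    (hκ : ∀ u ∈ κ, d.D u ∈ κ) (ha : ∀ i b, a i b ∈ κ) (Γ : Finset F) (hΓ : ∀ u ∈ Γ, d.D u = 0)
    {s : F} (hs : s ∈ Γ) (hsκ : s ∉ acl (κ : Set F)) (hΓ' : (Γ : Set F) ⊆ acl (insert s (κ : Set F)))
    {m : ℕ} (hm : 2 ≤ m) (y : I → F) (x : Fin (l + 2) → F) (hy : ∀ i, y i ^ m = ∑ b, a i b * x b)
    {i0 : I} (hi0 : y i0 = 1) (hyM : ∀ i, y i ∈ IntermediateField.adjoin κ (Γ : Set F)) (i : I) :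
    y i ∈ κ := by
  have hK := isCurveField_adjoin κ Γ hs hsκ hΓ'
  obtain ⟨d', hd'⟩ := d.exists_restrict_adjoin κ Γ hκ
    (fun u hu => by rw [hΓ u hu]; exact zero_mem _)
  have hgen : ∀ u, u ∈ Subfield.closure
      (Set.range (algebraMap κ (IntermediateField.adjoin κ (Γ : Set F))) ∪ d'.const) := by
    rintro ⟨u, hu⟩
    induction hu using IntermediateField.adjoin_induction with
    | mem u hu =>
      exact Subfield.subset_closure (Or.inr (Subtype.ext ((hd' _).trans (hΓ u hu))))
    | algebraMap c => exact Subfield.subset_closure (Or.inl ⟨c, rfl⟩)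
    | add u v _ _ a1 a2 => exact Subfield.add_mem _ a1 a2
    | inv u _ a1 => exact Subfield.inv_mem _ a1
    | mul u v _ _ a1 a2 => exact Subfield.mul_mem _ a1 a2
  let M := IntermediateField.adjoin κ (Γ : Set F)
  have hd : ∀ c : κ, ∃ c' : κ, d'.D (algebraMap κ M c) = algebraMap κ M c' := fun c =>
    ⟨⟨_, hκ _ c.2⟩, Subtype.ext (hd' _)⟩
  let A0 : I → Fin (l + 2) → κ[ε] := fun i b => dn ⟨_, ha i b⟩ ⟨_, hκ _ (ha i b)⟩
  have hA0 : theta A0 Δ ≠ 0 := by
    intro h
    have := congrArg κ.subtype h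
    rw [map_zero, ← RingHom.comp_apply, theta_map] at this
    exact hΔ this
  obtain ⟨𝒞, E, hloc⟩ := hM.loc κ A0 hA0
  let y' : I → M := fun i => ⟨y i, hyM i⟩
  obtain ⟨x', hx'⟩ := exists_sol_descend (F := F) (fun i b => algebraMap κ M (A0 i b).fst)
    (fun i => y' i ^ m) x (fun i => by rw [map_pow]; exact hy i)
  obtain ⟨ψ, hψ, hw⟩ := hloc M (algebraMap κ M) d' (fun i b => by
    ext
    · rfl
    · exact (hd' (algebraMap κ M (A0 i b).fst)).symm) m hm y' x' hx' i0 (Subtype.ext hi0)
  have hPB := hK.PB_of_local (fun _ => 0) ∅ (fun _ _ _ => rfl) (by simp) (u := y' i) hψ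
    fun w hpl => by
      obtain ⟨π, hπ⟩ := hpl.1 (exp (-1))
      simpa using hw w π hπ 1 le_rfl (fun c _ => hpl.const_le_one c)
        (hK.val_D_le_one d' hd hgen hpl) i
  obtain ⟨c, hc⟩ := hK.const_of_PB (by simpa using hPB)
  have : y i = c := congrArg Subtype.val hc
  rw [this]; exact c.2

theorem Mach.rigid [Fintype I] [IsAlgClosed F] {Δ : R0 I l} (hM : Mach Δ) (d : Der F)
    (a : I → Fin (l + 2) → F) (hΔ : theta (fun i b => d.jet (a i b)) Δ ≠ 0) (k0 : Set F)
    (hk0 : k0 ⊆ d.const) {t : F} (ht0 : d.D t ≠ 0) (ht : d.D t ∈ acl (insert t k0))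
    (ha : ∀ i b, a i b ∈ acl (insert t k0)) {m : ℕ} (hm : 2 ≤ m) (y : I → F)
    (x : Fin (l + 2) → F) (hy : ∀ i, y i ^ m = ∑ b, a i b * x b) {i0 : I} (hi0 : y i0 = 1)
    (S : Finset F) (hS : (S : Set F) ⊆ d.const)
    (hyS : ∀ i, y i ∈ Subfield.closure ((acl (insert t k0) : Set F) ∪ acl (k0 ∪ S))) :
    ∀ i, y i ∈ acl (insert t k0) := by
  classical
  induction S using Finset.induction_on with
  | empty =>
    refine fun i => Subfield.closure_le.mpr (Set.union_subset subset_rfl ?_) (hyS i)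
    exact acl_mono (by simp)
  | insert s S _ ih =>
    rw [coe_insert, Set.insert_subset_iff] at hS
    refine ih hS.2 fun i => ?_
    set k1 := acl (k0 ∪ (S : Set F)) with hk1
    set K1 := acl (insert t (k1 : Set F)) with hK1
    set k2 := acl (k0 ∪ (insert s S : Finset F)) with hk2
    have hk1c : k1 ≤ d.const := d.acl_le_const (Set.union_subset hk0 hS.2)
    have hk2c : k2 ≤ d.const := d.acl_le_const (Set.union_subset hk0
      (by rw [coe_insert]; exact Set.insert_subset hS.1 hS.2))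
    have h01 : acl (insert t k0) ≤ K1 := acl_mono (Set.insert_subset_insert
      (Set.subset_union_left.trans (subset_acl _)))
    have h11 : k1 ≤ K1 := fun u hu => subset_acl _ (Or.inr hu)
    have hD1 : ∀ u ∈ K1, d.D u ∈ K1 := fun u hu => d.D_mem_acl (by
      rintro v (rfl | hv)
      · exact h01 ht
      · rw [hk1c hv]; exact zero_mem _) hu
    have hc1 : ∀ u ∈ K1, d.D u = 0 → u ∈ k1 := by
      intro u hu hu0
      by_contra hne
      have h1 : u ∉ acl (k1 : Set F) := fun h => hne (acl_le subset_rfl h)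
      exact ht0 (d.acl_le_const (Set.insert_subset hu0 hk1c) (acl_exchange hu h1))
    have h2s : (k2 : Set F) ⊆ acl (insert s (K1 : Set F)) := acl_mono (by
      rw [coe_insert, Set.union_insert]
      exact Set.insert_subset_insert ((subset_acl _).trans h11))
    have hy1 : ∀ i, y i ∈ K1 := by
      by_cases hs : s ∈ acl (K1 : Set F)
      · intro i
        refine Subfield.closure_le.mpr (Set.union_subset h01 (h2s.trans ?_)) (hyS i)
        exact acl_le (Set.insert_subset (acl_le subset_rfl hs) subset_rfl)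
      have hadj : ∀ i, y i ∈ IntermediateField.adjoin K1 (k2 : Set F) := fun i =>
        (Subfield.closure_le (t := (IntermediateField.adjoin K1 (k2 : Set F)).toSubfield)).mpr
          (Set.union_subset (fun u hu => IntermediateField.algebraMap_mem _ (⟨u, h01 hu⟩ : K1))
            (IntermediateField.subset_adjoin _ _)) (hyS i)
      choose T hT1 hT2 using fun i => IntermediateField.exists_finset_of_mem_adjoin (hadj i)
      have := isAlgClosed_acl (insert t (k1 : Set F))
      refine hM.height_zero d a hΔ K1 hD1 (fun i b => h01 (ha i b)) (insert s (univ.biUnion T))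
        ?_ (mem_insert_self _ _) hs ?_ hm y x hy hi0 fun i => ?_
      · intro u hu
        rcases mem_insert.mp hu with rfl | hu
        · exact hS.1
        · obtain ⟨i, -, hi⟩ := mem_biUnion.mp hu
          exact hk2c (hT1 i hi)
      · intro u hu
        rcases mem_insert.mp hu with rfl | hu
        · exact subset_acl _ (Or.inl rfl)
        · obtain ⟨i, -, hi⟩ := mem_biUnion.mp hu
          exact h2s (hT1 i hi)
      · refine IntermediateField.adjoin.mono _ _ _ ?_ (hT2 i)
        exact fun u hu => mem_insert_of_mem (mem_biUnion.mpr ⟨i, mem_univ _, hu⟩)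
    exact d.mem_closure_descent _ k1 K1 h01 h11 hD1 hc1 (hy1 i)
      (Subfield.closure_mono (Set.union_subset_union_right _ hk2c) (hyS i))

end Pool.Agent.P.MP_7ede32_ag
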