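import Pool.Agent.P.MP_7ede32_ag.FRed

open Pool.Agent.P.MP_7ede32_ag

/-- Lang's finiteness over finitely generated fields of characteristic zero for Fermat covers
`y i ^ m = ∑ j, a (i, j) * x j` of a hyperplane arrangement whose moduli move generically: there is
a nonzero integer polynomial `Δ` in the coefficients and their derivatives such that, whenever
`Δ (a, D a) ≠ 0`, the cover has finitely many points over every finite extension. -/
theorem Pool.Agent.P.MP_7ede32_ag.fermatMordell
    (n q : ℕ) (hn : 1 ≤ n) (hq : 3 * (n + 1) * (64 * n ^ 2 + n + 2) ≤ q) :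
    ∃ Δ : MvPolynomial ((Fin q × Fin (n + 1)) ⊕ (Fin q × Fin (n + 1))) ℤ, Δ ≠ 0 ∧
      ∀ (k K : Type) [Field k] [CharZero k] [Field K] [Algebra k K] [Algebra.EssFiniteType k K]
        (D : Derivation k K K) (a : Fin q × Fin (n + 1) → K),
        MvPolynomial.aeval (Sum.elim a fun p => D (a p)) Δ ≠ 0 →
        ∀ (L : Type) [Field L] [Algebra K L] [FiniteDimensional K L] (m : ℕ), 2 ≤ m →
          {y : Projectivization L (Fin q → L) | ∃ x : Fin (n + 1) → L,
            ∀ i, y.rep i ^ m = ∑ j, algebraMap K L (a (i, j)) * x j}.Finite := by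
  obtain ⟨l, rfl⟩ : ∃ l, n = l + 1 := ⟨n - 1, by omega⟩
  obtain ⟨Δ, h0, hM⟩ := exists_mach l (Fin q) (by
    rw [Fintype.card_fin]
    refine le_trans (le_of_eq ?_) hq
    ring)
  refine ⟨Δ, h0, fun k K _ _ _ _ _ D a hΔ L _ _ _ m hm => ?_⟩
  have : CharZero K := charZero_of_injective_algebraMap (algebraMap k K).injective
  let d : Der K := ⟨D, fun x y => map_add D x y, fun x y => D.leibniz x y⟩
  have hΔ' : theta (fun i b => d.jet (a (i, b))) Δ ≠ 0 := by
    have : (MvPolynomial.aeval (Sum.elim a fun p => D (a p)) :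
        R0 (Fin q) l →ₐ[ℤ] K).toRingHom = theta (fun i b => d.jet (a (i, b))) := by
      refine MvPolynomial.ringHom_ext (fun r => by simp) fun p => ?_
      cases p <;> simp [theta, d]
    rw [← this]
    exact hΔ
  obtain ⟨d', hd'⟩ := d.exists_extend (L := L)
  let _ : Algebra k L := ((algebraMap K L).comp (algebraMap k K)).toAlgebra
  have : IsScalarTower k K L := IsScalarTower.of_algebraMap_eq fun _ => rfl
  have : Algebra.EssFiniteType k L := Algebra.EssFiniteType.comp k K L
  have hfin := fun i0 => hM.finite_fg (k := k) d'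
    (fun c => (hd' (algebraMap k K c)).trans (by
      rw [show d.D (algebraMap k K c) = 0 from D.map_algebraMap c, map_zero]))
    (fun i b => algebraMap K L (a (i, b))) (theta_jet_ne _ hd' hΔ') hm i0
  refine (Set.finite_iUnion fun i0 => Set.Finite.of_finite_image
    (f := fun (y : Projectivization L (Fin q → L)) i => (y.rep i0)⁻¹ * y.rep i)
    (s := {y | y.rep i0 ≠ 0 ∧ ∃ x : Fin (l + 1 + 1) → L,
      ∀ i, y.rep i ^ m = ∑ j, algebraMap K L (a (i, j)) * x j})
    ((hfin i0).subset ?_) ?_).subset ?_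
  · rintro _ ⟨y, ⟨h1, x, hx⟩, rfl⟩
    refine ⟨inv_mul_cancel₀ h1, fun b => (y.rep i0)⁻¹ ^ m * x b, fun i => ?_⟩
    rw [mul_pow, hx, Finset.mul_sum]
    exact Finset.sum_congr rfl fun _ _ => by ring
  · rintro y ⟨h1, -⟩ y' ⟨h2, -⟩ h
    rw [← y.mk_rep, ← y'.mk_rep, Projectivization.mk_eq_mk_iff']
    refine ⟨y.rep i0 * (y'.rep i0)⁻¹, funext fun i => ?_⟩
    have := congrFun h i
    simp only at this
    rw [Pi.smul_apply, smul_eq_mul, mul_assoc, ← this, mul_inv_cancel_left₀ h1]
  · intro y hy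
    obtain ⟨i0, hi0⟩ := Function.ne_iff.mp y.rep_nonzero
    exact Set.mem_iUnion.mpr ⟨i0, hi0, hy⟩
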