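import Pool.Agent.P.MP_7ede32_ag.NLdl1

namespace Pool.Agent.P.MP_7ede32_ag.N

open Filter Topology Metric Real Complex ValueDistribution MeromorphicOn

theorem borel (T : ℝ → ℝ) (hT : ∀ r s, 0 < r → r ≤ s → T r ≤ T s) {a : ℝ} (ha : 0 < a)
    (h1 : 1 ≤ T a) : ∃ r, a ≤ r ∧ T (r * (1 + 1 / T r)) ≤ 2 * T r := by
  by_contra h
  push Not at h
  let x : ℕ → ℝ := fun k => Nat.rec a (fun _ r => r * (1 + 1 / T r)) k
  have hx : ∀ k, x (k + 1) = x k * (1 + 1 / T (x k)) := fun k => rfl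
  have key : ∀ k, a ≤ x k ∧ 2 ^ k ≤ T (x k) ∧ x k ≤ a * Real.exp (2 - 2 / 2 ^ k) := by
    intro k
    induction k with
    | zero => exact ⟨le_rfl, by simpa [x] using h1, by simp [x]⟩
    | succ k ih =>
      obtain ⟨i1, i2, i3⟩ := ih
      have p1 : (0 : ℝ) < 2 ^ k := by positivity
      have p2 : 0 < T (x k) := p1.trans_le i2
      have p3 : 0 < x k := ha.trans_le i1
      have p4 : 0 < 1 / T (x k) := by positivity
      rw [hx]
      refine ⟨by nlinarith, ?_, ?_⟩
      · have := h _ i1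
        rw [pow_succ]; linarith
      · have p5 : 1 + 1 / T (x k) ≤ Real.exp (1 / 2 ^ k) := by
          have := Real.add_one_le_exp (1 / 2 ^ k)
          have : 1 / T (x k) ≤ 1 / 2 ^ k := by gcongr
          linarith
        calc _ ≤ a * Real.exp (2 - 2 / 2 ^ k) * Real.exp (1 / 2 ^ k) := by gcongr
          _ = _ := by rw [mul_assoc, ← Real.exp_add]; congr 2; ring
  obtain ⟨k, hk⟩ := pow_unbounded_of_one_lt (T (a * Real.exp 2)) (show (1 : ℝ) < 2 by norm_num)
  obtain ⟨i1, i2, i3⟩ := key k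
  have := hT (x k) (a * Real.exp 2) (ha.trans_le i1) (i3.trans (by
    have : (0 : ℝ) < 2 / 2 ^ k := by positivity
    gcongr; linarith))
  linarith

theorem pigeon (s : Finset ℂ) (a : ℝ) {L : ℝ} (hL : 0 < L) :
    ∃ r, a ≤ r ∧ r ≤ a + L ∧ ∀ u ∈ s, L / (2 * (s.card + 1)) ≤ |r - ‖u‖| := by
  by_contra h
  push Not at h
  set δ := L / (2 * (s.card + 1)) with hδ
  have hδ0 : 0 < δ := by positivity
  have hL' : L = 2 * (s.card + 1) * δ := by rw [hδ]; field_simp
  have h1 : ∀ k ∈ Finset.range (s.card + 1), ∃ u ∈ s, |a + 2 * k * δ - ‖u‖| < δ := by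
    intro k hk
    have : (k : ℝ) ≤ s.card := by exact_mod_cast Nat.lt_succ_iff.1 (Finset.mem_range.1 hk)
    exact h _ (by nlinarith [Nat.cast_nonneg (α := ℝ) k]) (by nlinarith)
  choose! g hg hg' using h1
  obtain ⟨k, hk, l, hl, hkl, e⟩ := Finset.exists_ne_map_eq_of_card_lt_of_maps_to
    (s := Finset.range (s.card + 1)) (t := s) (by simp) (f := g) hg
  have h2 := abs_lt.1 (hg' k hk)
  have h3 := abs_lt.1 (hg' l hl)
  rw [e] at h2
  have h4 : (k : ℝ) < l + 1 := lt_of_mul_lt_mul_right (by linarith [h2.2, h3.1]) hδ0.le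
  have h5 : (l : ℝ) < k + 1 := lt_of_mul_lt_mul_right (by linarith [h2.1, h3.2]) hδ0.le
  have h6 : k < l + 1 := by exact_mod_cast h4
  have h7 : l < k + 1 := by exact_mod_cast h5
  omega

theorem exists_supp (f : ℂ → ℂ) {R : ℝ} (hR : 0 ≤ R) :
    ∃ s : Finset ℂ, ∀ u, u ∈ s ↔ ‖u‖ ≤ R ∧ divisor f Set.univ u ≠ 0 := by
  have h := ((divisor f Set.univ).toClosedBall R).finiteSupport (isCompact_closedBall _ _)
  refine ⟨h.toFinset, fun u => ?_⟩
  rw [Set.Finite.mem_toFinset]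
  constructor
  · intro hu
    have h1 := Function.locallyFinsuppWithin.toClosedBall_support_subset_closedBall _ hu
    refine ⟨by simpa [abs_of_nonneg hR] using h1, ?_⟩
    rwa [← Function.locallyFinsuppWithin.toClosedBall_eval_within _ h1]
  · rintro ⟨h1, h2⟩
    rwa [← Function.locallyFinsuppWithin.toClosedBall_eval_within (r := R) _
      (by simpa [abs_of_nonneg hR] using h1)] at h2

theorem ldl_step {ι : Type*} [Fintype ι] (b : ι → ℂ → ℂ) (hb : ∀ i, Meromorphic (b i))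
    (h0 : ∀ i z, meromorphicOrderAt (b i) z ≠ ⊤) {a t : ℝ} (ha : 1 ≤ a) (ht : 1 ≤ t)
    (h2 : ∑ i, ch (b i) (a * (1 + 1 / t)) ≤ 2 * t) :
    ∃ r, a ≤ r ∧ ∀ i, proximity (logDeriv (b i)) ⊤ r ≤ Real.log 2368 + 5 * Real.log t := by
  classical
  set η := 1 / t with hη
  have hη0 : 0 < η := by positivity
  have hηt : η * t = 1 := by rw [hη]; field_simp
  have hη1 : η ≤ 1 := by nlinarith
  set ρ := a * (1 + η) with hρ
  set R2 := a * (1 + 3 * η / 4) with hR2
  have hR21 : 1 ≤ R2 := by nlinarith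
  have hR2ρ : R2 ≤ ρ := by nlinarith
  have hlog : η / 8 ≤ Real.log (ρ / R2) := by
    have h1 := Real.one_sub_inv_le_log_of_pos (show 0 < ρ / R2 by positivity)
    refine le_trans ?_ h1
    rw [inv_div, hρ, hR2, mul_div_mul_left _ _ (by positivity), le_sub_comm,
      div_le_iff₀ (by positivity)]
    nlinarith
  choose s hs using fun i => exists_supp (b i) (show 0 ≤ R2 by linarith)
  set n : ι → ℝ := fun i => ∑ u ∈ s i, |(divisor (b i) Set.univ u : ℝ)| with hn
  have hn0 : ∀ i, 0 ≤ n i := fun i => Finset.sum_nonneg fun _ _ => abs_nonneg _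
  have hch := fun i => ch_nonneg (b i) (hR21.trans hR2ρ)
  have hn1 : ∑ i, n i ≤ 16 * t ^ 2 := by
    have h1 : (∑ i, n i) * (η / 8) ≤ 2 * t := by
      rw [Finset.sum_mul]
      refine (Finset.sum_le_sum fun i _ => ?_).trans h2
      exact (mul_le_mul_of_nonneg_left hlog (hn0 i)).trans
        (count_le (b i) (s i) hR21 hR2ρ fun u hu => ((hs i u).1 hu).1)
    have h3 := mul_le_mul_of_nonneg_right h1 (show 0 ≤ 8 * t by positivity)
    have h4 : (∑ i, n i) * (η / 8) * (8 * t) = (∑ i, n i) * (η * t) := by ring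
    rw [h4, hηt] at h3
    linarith
  have hcard : ((Finset.univ.biUnion s).card : ℝ) ≤ 16 * t ^ 2 := by
    refine le_trans ?_ hn1
    have h1 : (Finset.univ.biUnion s).card ≤ ∑ i, (s i).card := Finset.card_biUnion_le
    refine le_trans (Nat.cast_le.2 h1) ?_
    push_cast
    refine Finset.sum_le_sum fun i _ => ?_
    rw [Finset.card_eq_sum_ones]
    push_cast
    refine Finset.sum_le_sum fun u hu => ?_
    exact_mod_cast Int.one_le_abs ((hs i u).1 hu).2
  obtain ⟨r, hr1, hr2, hr3⟩ := pigeon (Finset.univ.biUnion s) a (show 0 < a * η / 4 by positivity)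
  refine ⟨r, hr1, fun i => ?_⟩
  obtain ⟨R, ⟨hR1, hR3⟩, hR4⟩ := (Set.Ioo_infinite (show a * (1 + η / 2) < R2 by
    nlinarith)).exists_notMem_finset ((s i).image fun u => ‖u‖)
  set δ := a * η / 4 / (2 * ((Finset.univ.biUnion s).card + 1)) with hδ
  have hδ0 : 0 < δ := by positivity
  have hRr : a * η / 4 ≤ R - r := by nlinarith
  have hRr0 : 0 < R - r := lt_of_lt_of_le (by positivity) hRr
  have key := ldl_disc (hb i) (h0 i) (ha.trans hr1) (show r < R by linarith) hδ0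
    (fun u hu => by
      by_contra h
      exact hR4 (Finset.mem_image.2 ⟨u, (hs i u).2 ⟨by linarith, h⟩, hu⟩)) (s i)
    (fun u hu h => by
      have h1 := (hs i u).2 ⟨by linarith, h⟩
      exact ⟨h1, hr3 u (Finset.mem_biUnion.2 ⟨i, Finset.mem_univ i, h1⟩)⟩)
  have b1 : n i ≤ 16 * t ^ 2 :=
    (Finset.single_le_sum (fun j _ => hn0 j) (Finset.mem_univ i)).trans hn1
  have b2 : 1 / (R - r) ≤ 4 * t := by
    rw [div_le_iff₀ hRr0]; nlinarith
  have b3 : 1 / δ ≤ 136 * t ^ 3 := by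
    rw [hδ, one_div_div, div_le_iff₀ (by positivity)]
    have : 136 * t ^ 3 * (a * η / 4) = 34 * t ^ 2 * a * (η * t) := by ring
    rw [this, hηt]
    nlinarith
  have b4 : 2 * R / (R - r) ^ 2 ≤ 64 * t ^ 2 := by
    rw [div_le_iff₀ (by positivity)]
    have h1 : a ≤ 4 * t * (R - r) := by nlinarith
    have h3 : a ^ 2 ≤ (4 * t * (R - r)) ^ 2 := by gcongr
    nlinarith
  have b5 : ch (b i) R ≤ 2 * t := (ch_mono (hb i) (by linarith) (by linarith)).trans
    ((Finset.single_le_sum (fun j _ => hch j) (Finset.mem_univ i)).trans h2)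
  have b6 : n i * (1 / (R - r) + 1 / δ) + 2 * R / (R - r) ^ 2 * ch (b i) R ≤ 2368 * t ^ 5 := by
    have h1 : 0 ≤ ch (b i) R := ch_nonneg _ (by linarith)
    have h3 : t ^ 3 ≤ t ^ 5 := pow_le_pow_right₀ ht (by norm_num)
    calc _ ≤ 16 * t ^ 2 * (4 * t + 136 * t ^ 3) + 64 * t ^ 2 * (2 * t) := by gcongr
      _ = 192 * t ^ 3 + 2176 * t ^ 5 := by ring
      _ ≤ _ := by linarith
  have b7 : (1 : ℝ) ≤ 2368 * t ^ 5 := by nlinarith [one_le_pow₀ (n := 5) ht]
  have hr0 : 0 < r := by linarith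
  rw [proximity_top, ← circleAverage_const (Real.log 2368 + 5 * Real.log t) 0 r]
  refine circleAverage_le_of_cd hr0.ne'
    (hb i).logDeriv.meromorphicOn.circleIntegrable_posLog_norm (circleIntegrable_const _ _ _) ?_
  rw [abs_of_pos hr0]
  filter_upwards [key] with z hz
  refine (posLog_le_posLog (norm_nonneg _) (hz.trans b6)).trans (le_of_eq ?_)
  rw [posLog_eq_log (by rwa [abs_of_nonneg (by positivity)]),
    Real.log_mul (by norm_num) (by positivity), Real.log_pow]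
  rfl

/-- lemma on the logarithmic derivative for a finite family -/
theorem ldl {ι : Type*} [Fintype ι] (b : ι → ℂ → ℂ) (hb : ∀ i, Meromorphic (b i))
    (h0 : ∀ i z, meromorphicOrderAt (b i) z ≠ ⊤)
    (hT : Tendsto (fun r => ∑ i, ch (b i) r) atTop atTop) :
    ∃ᶠ r in atTop, ∀ i, proximity (logDeriv (b i)) ⊤ r ≤
      Real.log 2368 + 5 * Real.log (∑ i, ch (b i) r) := by
  have hm : ∀ r s, 0 < r → r ≤ s → ∑ i, ch (b i) r ≤ ∑ i, ch (b i) s :=
    fun r s hr h => Finset.sum_le_sum fun i _ => ch_mono (hb i) hr h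
  refine frequently_atTop.2 fun a => ?_
  obtain ⟨a', h1, h2, h3⟩ := ((eventually_ge_atTop a).and ((eventually_ge_atTop 1).and
    (hT.eventually_ge_atTop 1))).exists
  obtain ⟨r0, h4, h5⟩ := borel _ hm (by linarith) h3
  have h6 := h3.trans (hm _ _ (by linarith) h4)
  obtain ⟨r, h7, h8⟩ := ldl_step b hb h0 (h2.trans h4) h6 h5
  refine ⟨r, by linarith, fun i => (h8 i).trans ?_⟩
  have := Real.log_le_log (by linarith) (hm _ _ (by linarith) h7)
  linarith

end Pool.Agent.P.MP_7ede32_ag.N
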