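import Pool.Agent.P.MP_7ede32_ag.GFin

/-! The auxiliary function for a generic complete intersection. -/

open scoped WithZero
open Finset WithZero MvPolynomial

namespace Pool.Agent.P.MP_7ede32_ag

theorem exists_extend_indep {M V ι : Type*} [Field M] [AddCommGroup V] [Module M V]
    [FiniteDimensional M V] [Fintype ι] (u : ι → V) (hu : LinearIndependent M u) (G : Set V)
    (hG : ⊤ ≤ Submodule.span M (Set.range u ∪ G)) (r : ℕ)
    (hr : Fintype.card ι + r ≤ Module.finrank M V) :
    ∃ w : Fin r → V, (∀ i, w i ∈ G) ∧ LinearIndependent M (Sum.elim u w) := by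
  induction r with
  | zero =>
    refine ⟨Fin.elim0, fun i => i.elim0, ?_⟩
    have := hu.comp (Equiv.sumEmpty ι (Fin 0)) (Equiv.injective _)
    convert this using 1
    funext i
    rcases i with i | i
    · rfl
    · exact i.elim0
  | succ r ih =>
    obtain ⟨w, h1, h2⟩ := ih (by omega)
    obtain ⟨g, hg, hgn⟩ : ∃ g ∈ G, g ∉ Submodule.span M (Set.range (Sum.elim u w)) := by
      by_contra hne
      push Not at hne
      have h3 : ⊤ ≤ Submodule.span M (Set.range (Sum.elim u w)) :=
        hG.trans (Submodule.span_le.mpr (Set.union_subset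
          (by rintro _ ⟨i, rfl⟩; exact Submodule.subset_span ⟨Sum.inl i, rfl⟩) hne))
      have h4 := Submodule.finrank_mono h3
      rw [finrank_span_eq_card h2, finrank_top, Fintype.card_sum, Fintype.card_fin] at h4
      omega
    refine ⟨Fin.cons g w, fun i => Fin.cases hg h1 i, ?_⟩
    have h5 := h2.option hgn
    let f : ι ⊕ Fin (r + 1) → Option (ι ⊕ Fin r) :=
      Sum.elim (fun i => some (Sum.inl i)) (Fin.cases none fun i => some (Sum.inr i))
    have hf : Function.Injective f := by
      rintro (a | a) (b | b) h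
      · simpa [f] using h
      · induction b using Fin.cases <;> simp [f] at h
      · induction a using Fin.cases <;> simp [f] at h
      · induction a using Fin.cases <;> induction b using Fin.cases <;> simp_all [f]
    convert h5.comp f hf using 1
    funext i
    rcases i with i | i
    · rfl
    · induction i using Fin.cases <;> rfl

theorem val_det_le {M ι : Type*} [Field M] [Fintype ι] [DecidableEq ι] (w : Valuation M ℤᵐ⁰)
    (A : Matrix ι ι M) (β : ι → ℤᵐ⁰) (h : ∀ i j, w (A i j) ≤ β i) : w A.det ≤ ∏ i, β i := by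
  rw [← Matrix.det_transpose, Matrix.det_apply']
  refine w.map_sum_le fun s _ => ?_
  rw [map_mul, map_prod]
  exact (mul_le_of_le_one_left' (val_intCast_le w _)).trans (prod_le_prod' fun i _ => h _ _)

theorem Der.D_eval_monomial {M σ : Type*} [Field M] [Fintype σ] (d : Der M) (x : σ → M)
    (α : σ →₀ ℕ) (c : M) : d.D (eval x (monomial α c)) = d.D c * eval x (monomial α 1) +
      ∑ j, eval x (pderiv j (monomial α c)) * d.D (x j) := by
  classical
  let S : MvPolynomial σ M → M := fun P => d.D (eval x P) - ∑ j, eval x (pderiv j P) * d.D (x j)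
  have hmul : ∀ P Q, S (P * Q) = eval x P * S Q + eval x Q * S P := by
    intro P Q
    simp only [S, map_mul, d.D_mul, pderiv_mul, map_add, add_mul, sum_add_distrib, mul_sub, mul_sum]
    have e1 : ∀ j, eval x (pderiv j P) * eval x Q * d.D (x j) =
        eval x Q * (eval x (pderiv j P) * d.D (x j)) := fun j => by ring
    simp only [e1, mul_assoc]
    ring
  have hX : ∀ i, S (X i) = 0 := fun i => by
    simp [S, pderiv_X, Pi.single_apply, apply_ite]
  have hC : ∀ c, S (C c) = d.D c := fun c => by simp [S]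
  have h1 : S (monomial α 1) = 0 := by
    rw [monomial_eq, C_1, one_mul]
    refine Finset.prod_induction _ (fun P => S P = 0) (fun P Q a b => by simp [hmul, a, b])
      (by simpa [d.D_one] using hC 1) fun i _ => ?_
    change S (X i ^ α i) = 0
    induction α i with
    | zero => simpa [d.D_one] using hC 1
    | succ n ih => rw [pow_succ, hmul, hX, ih]; simp
  have h2 := hmul (C c) (monomial α 1)
  rw [h1, hC, C_mul_monomial, mul_one] at h2
  simp only [S] at h2
  linear_combination h2

variable {M σ : Type} [Field M] [Fintype σ] [DecidableEq σ]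

/-- the vector attached to a form of degree `d` -/
noncomputable def Vk (d : ℕ) (v : (σ →₀ ℕ) → σ → M) : MvPolynomial σ M →ₗ[M] (σ → M) :=
  ∑ α ∈ (univ : Finset σ).finsuppAntidiag d, (lcoeff M α).smulRight (v α)

theorem Vk_apply (d : ℕ) (v : (σ →₀ ℕ) → σ → M) (P : MvPolynomial σ M) :
    Vk d v P = ∑ α ∈ (univ : Finset σ).finsuppAntidiag d, coeff α P • v α := by
  simp [Vk, LinearMap.sum_apply]

omit [Field M] in
theorem mem_anti {d : ℕ} {α : σ →₀ ℕ} :
    α ∈ (univ : Finset σ).finsuppAntidiag d ↔ α.degree = d := by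
  simp [mem_finsuppAntidiag, Finsupp.degree_eq_sum]

theorem hom_eq_sum {d : ℕ} {P : MvPolynomial σ M} (hP : P.IsHomogeneous d) :
    P = ∑ α ∈ (univ : Finset σ).finsuppAntidiag d, monomial α (coeff α P) := by
  conv_lhs => rw [P.as_sum]
  refine sum_subset (fun α hα => mem_anti.mpr ?_) fun α _ hα => by
    rw [notMem_support_iff.mp hα, map_zero]
  by_contra h
  exact mem_support_iff.mp hα (hP.coeff_eq_zero h)

theorem eval_hom {d : ℕ} {P : MvPolynomial σ M} (hP : P.IsHomogeneous d) (x : σ → M) :
    eval x P = ∑ α ∈ (univ : Finset σ).finsuppAntidiag d, coeff α P * eval x (monomial α 1) := by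
  conv_lhs => rw [hom_eq_sum hP]
  simp [eval_monomial]

theorem Vk_mem {d : ℕ} (v : (σ →₀ ℕ) → σ → M) (x : σ → M) (i0 : σ)
    (W : Submodule M (σ → M)) (hW : ∀ γ : σ →₀ ℕ, γ.degree + 1 = d → ∀ j,
      Vk d v (X j * monomial γ 1) - x j • Vk d v (X i0 * monomial γ 1) ∈ W)
    {P : MvPolynomial σ M} (hP : P.IsHomogeneous d) :
    Vk d v P - eval x P • Vk d v (X i0 ^ d) ∈ W := by
  have key : ∀ (e : ℕ) (β γ : σ →₀ ℕ), β.degree = e → e + γ.degree = d →
      Vk d v (monomial β 1 * monomial γ 1) -
        eval x (monomial β 1) • Vk d v (X i0 ^ e * monomial γ 1) ∈ W := by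
    intro e
    induction e with
    | zero =>
      intro β γ h _
      rw [(Finsupp.degree_eq_zero_iff β).mp h]
      simp
    | succ e ih =>
      intro β γ h1 h2
      obtain ⟨j, hj⟩ : ∃ j, β j ≠ 0 := by
        by_contra hne
        push Not at hne
        rw [show β = 0 from Finsupp.ext hne] at h1
        simp at h1
      obtain ⟨β', rfl⟩ : ∃ β', β = β' + Finsupp.single j 1 :=
        ⟨_, (Finsupp.sub_add_single_one_cancel hj).symm⟩
      rw [map_add, Finsupp.degree_single] at h1
      have h3 := ih β' (γ + Finsupp.single j 1) (by omega)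
        (by rw [map_add, Finsupp.degree_single]; omega)
      have h4 := W.smul_mem (eval x (monomial β' 1)) (hW (γ + Finsupp.single i0 e)
        (by rw [map_add, Finsupp.degree_single]; omega) j)
      have e1 : ∀ (δ : σ →₀ ℕ) (i : σ) (n : ℕ), (monomial (δ + Finsupp.single i n) 1 :
          MvPolynomial σ M) = monomial δ 1 * X i ^ n := fun δ i n => monomial_add_single
      rw [e1, pow_one] at h3
      rw [e1] at h4
      rw [e1, pow_one, map_mul (eval x), eval_X]
      convert W.add_mem h3 h4 using 1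
      rw [smul_sub, smul_smul]
      have e2 : (monomial β' 1 * X j * monomial γ 1 : MvPolynomial σ M) =
          monomial β' 1 * (monomial γ 1 * X j) := by ring
      have e3 : (X i0 ^ e * (monomial γ 1 * X j) : MvPolynomial σ M) =
          X j * (monomial γ 1 * X i0 ^ e) := by ring
      have e4 : (X i0 ^ (e + 1) * monomial γ 1 : MvPolynomial σ M) =
          X i0 * (monomial γ 1 * X i0 ^ e) := by ring
      rw [e2, e3, e4]
      abel
  rw [eval_hom hP, sum_smul, Vk_apply d v P, ← sum_sub_distrib]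
  refine sum_mem fun α hα => ?_
  have h := W.smul_mem (coeff α P) (key d α 0 (mem_anti.mp hα) (by simp))
  have e : Vk d v (monomial α 1) = v α := by
    rw [Vk_apply, sum_eq_single α]
    · simp
    · intro β _ hβ
      rw [coeff_monomial, if_neg hβ.symm, zero_smul]
    · exact fun h => absurd hα h
  simpa [smul_sub, smul_smul, e] using h

/-- `r` is bounded by `β` modulo the vector `x` -/
def Bd (w : Valuation M ℤᵐ⁰) (x r : σ → M) (β : ℤᵐ⁰) : Prop := ∃ c : M, ∀ j, w (r j - c * x j) ≤ β

section Bd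

variable {w : Valuation M ℤᵐ⁰} {x r r' : σ → M} {β β' : ℤᵐ⁰}

omit [Fintype σ] [DecidableEq σ]

theorem Bd.mono (h : Bd w x r β) (h' : β ≤ β') : Bd w x r β' :=
  h.imp fun _ hc j => (hc j).trans h'

theorem Bd.of_le (h : ∀ j, w (r j) ≤ β) : Bd w x r β := ⟨0, by simpa using h⟩

theorem Bd.add (h : Bd w x r β) (h' : Bd w x r' β) : Bd w x (r + r') β := by
  obtain ⟨c, h⟩ := h
  obtain ⟨c', h'⟩ := h'
  refine ⟨c + c', fun j => ?_⟩
  convert w.map_add_le (h j) (h' j) using 2
  simp only [Pi.add_apply]; ring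

theorem Bd.smul (h : Bd w x r β) {a : M} (ha : w a ≤ β') : Bd w x (a • r) (β' * β) := by
  obtain ⟨c, h⟩ := h
  refine ⟨a * c, fun j => ?_⟩
  rw [Pi.smul_apply, smul_eq_mul, mul_assoc, ← mul_sub, map_mul]
  exact mul_le_mul' ha (h j)

theorem Bd.sum {ι : Type*} (s : Finset ι) {f : ι → σ → M} (h : ∀ i ∈ s, Bd w x (f i) β) :
    Bd w x (∑ i ∈ s, f i) β :=
  sum_induction _ (fun r => Bd w x r β) (fun _ _ => Bd.add) (Bd.of_le (by simp)) h

end Bd

theorem Bd.vk {w : Valuation M ℤᵐ⁰} {x : σ → M} {β γ : ℤᵐ⁰} {d : ℕ} {v : (σ →₀ ℕ) → σ → M}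
    (h : ∀ α : σ →₀ ℕ, α.degree = d → Bd w x (v α) β) {P : MvPolynomial σ M}
    (hP : ∀ α, w (coeff α P) ≤ γ) : Bd w x (Vk d v P) (γ * β) := by
  rw [Vk_apply]
  exact Bd.sum _ fun α hα => (h α (mem_anti.mp hα)).smul (hP α)

theorem ci_core {C : Type} [Fintype C] [DecidableEq C] {n : ℕ}
    (hcard : Fintype.card σ = Fintype.card C + 1 + n) (d : C → ℕ) (hd1 : ∀ k, 1 ≤ d k)
    (hd : 2 * n + Fintype.card C + 2 ≤ ∑ k, d k) (F : C → MvPolynomial σ M)
    (hF : ∀ k, (F k).IsHomogeneous (d k)) (x : σ → M) {i0 : σ} (hx : x i0 = 1)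
    (hF0 : ∀ k, eval x (F k) = 0) (v : C → (σ →₀ ℕ) → σ → M)
    (hrel : ∀ k (α : σ →₀ ℕ), α.degree = d k → ∀ k', v k α ⬝ᵥ (fun j => eval x (pderiv j (F k'))) =
      if k' = k then -eval x (monomial α 1) else 0) :
    ∃ θ : M, θ ≠ 0 ∧ ∀ (w : Valuation M ℤᵐ⁰) (g : ℤᵐ⁰), 1 ≤ g → (∀ k β, w (coeff β (F k)) ≤ g) →
      ∀ s, (∀ j, w (x j) ≤ w (x s)) →
      (∀ k (α : σ →₀ ℕ), α.degree = d k → Bd w x (v k α) (w (x s) * g)) →
      w θ * w (x s) ≤ g ^ (Fintype.card C + 2 * n) := by
  let N : C → σ → M := fun k j => eval x (pderiv j (F k))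
  let V := fun k => Vk (d k) (v k)
  have hV : ∀ k (P : MvPolynomial σ M), P.IsHomogeneous (d k) → ∀ k',
      V k P ⬝ᵥ N k' = if k' = k then -eval x P else 0 := by
    intro k P hP k'
    rw [Vk_apply, sum_dotProduct, eval_hom hP]
    rw [sum_congr rfl fun α hα => by rw [smul_dotProduct, hrel k α (mem_anti.mp hα)]]
    split_ifs <;> simp
  have hxN : ∀ k, x ⬝ᵥ N k = 0 := fun k => by
    have := congrArg (eval x) (hF k).sum_X_mul_pderiv
    simpa [hF0, dotProduct, N] using this
  have hXp : ∀ k s, (X s ^ d k : MvPolynomial σ M).IsHomogeneous (d k) := fun k s =>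
    isHomogeneous_X_pow s (d k)
  have hXm : ∀ k j (γ : σ →₀ ℕ), γ.degree + 1 = d k →
      (X j * monomial γ 1 : MvPolynomial σ M).IsHomogeneous (d k) := fun k j γ h => by
    rw [← h, add_comm]; exact (isHomogeneous_X M j).mul (isHomogeneous_monomial _ rfl)
  have hXF : ∀ k j, (X i0 * pderiv j (F k)).IsHomogeneous (d k) := fun k j => by
    have := (isHomogeneous_X M i0).mul ((hF k).pderiv (i := j))
    rwa [Nat.add_sub_cancel' (hd1 k)] at this
  let G : Set (σ → M) := {r | ∃ k, ∃ γ : σ →₀ ℕ, γ.degree + 1 = d k ∧ ∃ j,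
      r = V k (X j * monomial γ 1) - x j • V k (X i0 * monomial γ 1)} ∪
    {r | ∃ j, r = Pi.single j 1 + ∑ k, V k (X i0 * pderiv j (F k))}
  have hGN : ∀ r ∈ G, ∀ k', r ⬝ᵥ N k' = 0 := by
    rintro r (⟨k, γ, h, j, rfl⟩ | ⟨j, rfl⟩) k'
    · rw [sub_dotProduct, smul_dotProduct, hV _ _ (hXm k j γ h), hV _ _ (hXm k i0 γ h)]
      split_ifs <;> simp [hx]
    · rw [add_dotProduct, sum_dotProduct, sum_congr rfl fun k _ => hV k _ (hXF k j) k']
      simp [hx, N]
  let u : (C → MvPolynomial σ M) → Option C → σ → M := fun P o => o.elim x fun k => V k (P k)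
  let P0 : C → MvPolynomial σ M := fun k => X i0 ^ d k
  have hP0 : ∀ k, eval x (P0 k) = 1 := fun k => by simp [P0, hx]
  have hx0 : x ≠ 0 := fun h => by rw [h] at hx; exact zero_ne_one hx
  have hind : LinearIndependent M (u P0) := by
    rw [Fintype.linearIndependent_iff]
    intro c hc
    rw [Fintype.sum_option] at hc
    have h1 : ∀ k, c (some k) = 0 := fun k => by
      have := congrArg (· ⬝ᵥ N k) hc
      simpa [u, sum_dotProduct, hxN, hV _ _ (hXp _ _), P0, hx] using this
    rintro (_ | k)
    · simpa [u, h1, hx0] using hc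
    · exact h1 k
  have hspan : ⊤ ≤ Submodule.span M (Set.range (u P0) ∪ G) := by
    set W := Submodule.span M (Set.range (u P0) ∪ G)
    have h1 : ∀ k (P : MvPolynomial σ M), P.IsHomogeneous (d k) → V k P ∈ W := fun k P hP => by
      have := W.add_mem (Vk_mem (v k) x i0 W (fun γ h j =>
        Submodule.subset_span (Or.inr (Or.inl ⟨k, γ, h, j, rfl⟩))) hP)
        (W.smul_mem (eval x P) (Submodule.subset_span (Or.inl ⟨some k, rfl⟩)))
      simpa [u, P0, V] using this
    rw [← (Pi.basisFun M σ).span_eq, Submodule.span_le]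
    rintro _ ⟨j, rfl⟩
    have := W.sub_mem (Submodule.subset_span (Or.inr (Or.inr ⟨j, rfl⟩)))
      (sum_mem fun k (_ : k ∈ univ) => h1 k _ (hXF k j))
    simpa using this
  obtain ⟨ws, hws, hli⟩ := exists_extend_indep (u P0) hind G hspan n (by simp [hcard])
  let e : σ ≃ Option C ⊕ Fin n := Fintype.equivOfCardEq (by simp [hcard])
  let A : (C → MvPolynomial σ M) → Matrix (Option C ⊕ Fin n) (Option C ⊕ Fin n) M :=
    fun P => Matrix.of fun i j => Sum.elim (u P) ws i (e.symm j)
  have hupd : ∀ (P : C → MvPolynomial σ M) k Q, A (Function.update P k Q) =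
      (A P).updateRow (Sum.inl (some k)) fun j => V k Q (e.symm j) := by
    intro P k Q
    ext i j
    rw [Matrix.updateRow_apply]
    split_ifs with h
    · simp [A, u, h]
    · rcases i with (_ | k') | i
      · rfl
      · have : k' ≠ k := fun h' => h (by rw [h'])
        simp [A, u, this]
      · rfl
  have hzero : ∀ (P : C → MvPolynomial σ M), (∀ k, (P k).IsHomogeneous (d k)) →
      ∀ k, eval x (P k) = 0 → (A P).det = 0 := by
    intro P hP k hk
    refine Matrix.exists_mulVec_eq_zero_iff.mp ⟨fun j => N k (e.symm j), fun h => ?_, ?_⟩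
    · have h1 : N k = 0 := funext fun j => by simpa using congrFun h (e j)
      have := hV k _ (hXp k i0) k
      simp [h1, hx] at this
    · funext i
      have : (A P).mulVec (fun j => N k (e.symm j)) i = Sum.elim (u P) ws i ⬝ᵥ N k :=
        e.symm.sum_comp fun j => Sum.elim (u P) ws i j * N k j
      rw [this]
      rcases i with (_ | k') | i
      · exact hxN k
      · refine (hV k' _ (hP k') k).trans ?_
        split_ifs with h
        · rw [← h, hk, neg_zero]; rfl
        · rfl
      · exact hGN _ (hws i) k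
  have hprod : ∀ (P : C → MvPolynomial σ M), (∀ k, (P k).IsHomogeneous (d k)) → ∀ S : Finset C,
      (A fun k => if k ∈ S then P k else P0 k).det = (∏ k ∈ S, eval x (P k)) * (A P0).det := by
    intro P hP S
    induction S using Finset.induction_on with
    | empty => simp
    | insert k S hk ih =>
      set Q : C → MvPolynomial σ M := fun k => if k ∈ S then P k else P0 k
      have hQ : ∀ k, (Q k).IsHomogeneous (d k) := fun k => by
        simp only [Q]; split_ifs
        · exact hP k
        · exact hXp k i0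
      have e1 : (fun k' => if k' ∈ insert k S then P k' else P0 k') = Function.update Q k (P k) := by
        funext k'
        by_cases h : k' = k
        · simp [h]
        · simp [h, Q]
      have e2 : Q = Function.update Q k (P0 k) := by
        rw [eq_comm, Function.update_eq_self_iff]; simp [Q, hk]
      have h0 := hzero (Function.update Q k (P k - eval x (P k) • P0 k)) (fun k' => by
        by_cases h : k' = k
        · subst h
          rw [Function.update_self]
          exact (homogeneousSubmodule σ M _).sub_mem (hP k')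
            ((homogeneousSubmodule σ M _).smul_mem _ (hXp k' i0))
        · rw [Function.update_of_ne h]; exact hQ k') k (by simp [hP0])
      have e3 : (fun j => V k (P k) (e.symm j)) = (fun j => V k (P k - eval x (P k) • P0 k)
          (e.symm j)) + eval x (P k) • fun j => V k (P0 k) (e.symm j) := by
        funext j; simp
      rw [hupd] at h0
      rw [e1, hupd, e3, Matrix.det_updateRow_add, h0, Matrix.det_updateRow_smul, ← hupd, ← e2, ih,
        prod_insert hk, zero_add, mul_assoc]
  refine ⟨(A P0).det, ?_, fun w g h1 hc s hs hv => ?_⟩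
  · have h := hli.map' (LinearEquiv.funCongrLeft M M e.symm).toLinearMap (LinearEquiv.ker _)
    exact ((Matrix.isUnit_iff_isUnit_det _).mp
      (Matrix.linearIndependent_rows_iff_isUnit.mp h)).ne_zero
  have hμ : 1 ≤ w (x s) := by simpa [hx] using hs i0
  have hm : ∀ j (γ β : σ →₀ ℕ), w (coeff β (X j * monomial γ (1 : M))) ≤ 1 := fun j γ β => by
    rw [X, monomial_mul, coeff_monomial]; split_ifs <;> simp
  have hG : ∀ r ∈ G, Bd w x r ((w (x s) * g) ^ 2) := by
    have h2 : 1 ≤ w (x s) * g := one_le_mul hμ h1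
    rintro r (⟨k, γ, -, j, rfl⟩ | ⟨j, rfl⟩)
    · rw [sub_eq_add_neg, ← neg_smul, sq]
      refine ((Bd.vk (hv k) (hm j γ)).mono (mul_le_mul_left h2 _)).add
        (((Bd.vk (hv k) (hm i0 γ)).smul (β' := w (x s) * g) ?_).mono (by rw [one_mul]))
      rw [Valuation.map_neg]
      exact (hs j).trans (le_mul_of_one_le_right' h1)
    · refine (Bd.of_le fun i => ?_).add (Bd.sum _ fun k _ => (Bd.vk (hv k) (γ := g) fun β => ?_).mono
        (by rw [sq]; exact mul_le_mul_left (le_mul_of_one_le_left' hμ) _))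
      · refine le_trans ?_ (one_le_pow_of_one_le' h2 2)
        rw [Pi.single_apply]; split_ifs <;> simp
      · rw [coeff_X_mul']
        split_ifs
        · rw [coeff_pderiv, map_mul, ← Nat.cast_succ]
          exact (mul_le_of_le_one_right' (val_natCast_le w _)).trans (hc _ _)
        · simp
  let β : Option C ⊕ Fin n → ℤᵐ⁰ :=
    Sum.elim (fun o => o.elim (w (x s)) fun _ => w (x s) * g) fun _ => (w (x s) * g) ^ 2
  let Ps : C → MvPolynomial σ M := fun k => X s ^ d k
  have hB : ∀ i, ∃ c : M, (i = Sum.inl none → c = 0) ∧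
      ∀ j, w (Sum.elim (u Ps) ws i j - c * x j) ≤ β i := by
    rintro ((_ | k) | i)
    · exact ⟨0, fun _ => rfl, by simpa [u, β] using hs⟩
    · obtain ⟨c, h⟩ := (Bd.vk (hv k) (P := X s ^ d k) (γ := 1) fun β => by
        rw [coeff_X_pow]; split_ifs <;> simp)
      exact ⟨c, by simp, by simpa [u, β] using h⟩
    · obtain ⟨c, h⟩ := hG _ (hws i)
      exact ⟨c, by simp, h⟩
  choose c hc0 hcB using hB
  have h3 : (A Ps).det = (Matrix.of fun i j => A Ps i j - c i * x (e.symm j)).det :=
    Matrix.det_eq_of_forall_row_eq_smul_add_const c (Sum.inl none) (hc0 _ rfl) fun i j => by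
      simp [A, u, hc0 _ rfl]
  have h4 := val_det_le w (Matrix.of fun i j => A Ps i j - c i * x (e.symm j)) β
    fun i j => hcB i _
  have h5 := hprod Ps (fun k => hXp k s) univ
  simp only [mem_univ, if_true] at h5
  rw [← h3, h5] at h4
  simp only [β, Fintype.prod_sum_type, Fintype.prod_option, Sum.elim_inl, Sum.elim_inr, Option.elim,
    prod_const, card_univ, Fintype.card_fin] at h4
  simp only [Ps, map_mul, map_pow, eval_X, prod_pow_eq_pow_sum] at h4
  have h6 : w (x s) ^ (2 * n + Fintype.card C + 1) * (w (A P0).det * w (x s)) ≤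
      w (x s) ^ (2 * n + Fintype.card C + 1) * g ^ (Fintype.card C + 2 * n) :=
    calc _ = w (x s) ^ (2 * n + Fintype.card C + 2) * w (A P0).det := by
          rw [pow_succ _ (2 * n + Fintype.card C + 1), mul_assoc, mul_comm (w (x s))]
      _ ≤ _ := (mul_le_mul_left (pow_le_pow_right' hμ hd) _).trans h4
      _ = _ := by
          simp only [mul_pow, ← pow_mul, pow_add, pow_one]
          generalize w (x s) ^ Fintype.card C = a1
          generalize w (x s) ^ (2 * n) = a2
          generalize g ^ Fintype.card C = a3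
          generalize g ^ (2 * n) = a4
          simp only [mul_assoc, mul_comm, mul_left_comm]
  exact (mul_le_mul_iff_right₀ (pow_pos (zero_lt_one.trans_le hμ) _)).mp h6

variable {C : Type} {d : C → ℕ}

/-- the index set of the coefficients -/
abbrev Cf (σ : Type) {C : Type} (d : C → ℕ) := Σ k : C, {α : σ →₀ ℕ // α.degree = d k}

/-- the form with given coefficients -/
noncomputable def form {R : Type} [CommRing R] (a : Cf σ d → R) (k : C) : MvPolynomial σ R :=
  ∑ α : (univ : Finset σ).finsuppAntidiag (d k), monomial α.1 (a ⟨k, α.1, mem_anti.mp α.2⟩)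

theorem coeff_form {R : Type} [CommRing R] (a : Cf σ d → R) (k : C) (β : σ →₀ ℕ) :
    coeff β (form a k) = if h : β.degree = d k then a ⟨k, β, h⟩ else 0 := by
  rw [form, coeff_sum]
  split_ifs with h
  · rw [sum_eq_single ⟨β, mem_anti.mpr h⟩]
    · simp
    · intro α _ hα
      rw [coeff_monomial, if_neg fun h' => hα (Subtype.ext h')]
    · simp
  · refine sum_eq_zero fun α _ => ?_
    rw [coeff_monomial, if_neg fun h' : α.1 = β => h (h' ▸ mem_anti.mp α.2)]

theorem form_hom {R : Type} [CommRing R] (a : Cf σ d → R) (k : C) :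
    (form a k).IsHomogeneous (d k) :=
  IsHomogeneous.sum _ _ _ fun α _ => isHomogeneous_monomial _ (mem_anti.mp α.2)

/-- the universal equations, in the chart `x i0 = 1` -/
def ciEq (d : C → ℕ) (i0 : σ) : Set (MvPolynomial (Cf σ d ⊕ σ) ℤ) :=
  insert (X (Sum.inr i0) - 1)
    (Set.range fun k => eval (fun j => X (Sum.inr j)) (form (fun α => X (Sum.inl α)) k))

theorem sol_ciEq {i0 : σ} {R : Type} [CommRing R] {a : Cf σ d → R} {y : σ → R} :
    Sol (ciEq d i0) a y ↔ y i0 = 1 ∧ ∀ k, eval y (form a k) = 0 := by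
  simp [Sol, ciEq, form, eval_monomial, sub_eq_zero, Finsupp.prod_fintype]

theorem umach_ci [Fintype C] {n : ℕ} (hcard : Fintype.card σ = Fintype.card C + 1 + n)
    (hd : 2 * n + Fintype.card C + 2 ≤ ∑ k, d k) (i0 : σ) :
    UMach (ciEq d i0) (Fintype.card C + 2 * n) := by
  classical
  intro M _ a e he y hy
  obtain ⟨hy1, hy0⟩ := sol_ciEq.mp hy
  let v : C → (σ →₀ ℕ) → σ → M := fun k α =>
    if h : α.degree = d k then fun j => (e ⟨k, α, h⟩).D (y j) else 0
  have hrel : ∀ k (α : σ →₀ ℕ), α.degree = d k → ∀ k', v k α ⬝ᵥ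
      (fun j => eval y (pderiv j (form a k'))) = if k' = k then -eval y (monomial α 1) else 0 := by
    intro k α h k'
    have h1 := congrArg (e ⟨k, α, h⟩).D (hy0 k')
    rw [Der.D_zero, form, map_sum, Der.D_sum] at h1
    simp only [Der.D_eval_monomial, sum_add_distrib, he] at h1
    rw [sum_comm] at h1
    have h2 : v k α ⬝ᵥ (fun j => eval y (pderiv j (form a k'))) =
        ∑ j, ∑ β : (univ : Finset σ).finsuppAntidiag (d k'), eval y (pderiv j (monomial β.1
          (a ⟨k', β.1, mem_anti.mp β.2⟩))) * (e ⟨k, α, h⟩).D (y j) := by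
      simp only [v, dif_pos h, dotProduct, form, map_sum, mul_sum, mul_comm]
    rw [h2, eq_neg_of_add_eq_zero_right h1]
    split_ifs with hk
    · subst hk
      rw [sum_eq_single ⟨α, mem_anti.mpr h⟩]
      · simp
      · intro β _ hβ
        rw [if_neg, zero_mul]
        intro h'
        exact hβ (Subtype.ext (congrArg (fun p : Cf σ d => p.2.1) h'))
      · simp
    · rw [neg_eq_zero]
      refine sum_eq_zero fun β _ => ?_
      rw [if_neg fun h' => hk (congrArg Sigma.fst h'), zero_mul]
  have hd1 : ∀ k, 1 ≤ d k := fun k => by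
    by_contra h
    have h0 : d k = 0 := by omega
    have h1 := hrel k 0 (by simp [h0]) k
    have h2 : ∀ j, pderiv j (form a k) = 0 := fun j => by
      have := form_hom a k
      rw [h0, ← totalDegree_zero_iff_isHomogeneous, totalDegree_eq_zero_iff_eq_C] at this
      rw [this, pderiv_C]
    simp [h2, dotProduct] at h1
  obtain ⟨θ, h0, hθ⟩ := ci_core hcard d hd1 hd (form a) (form_hom a) y hy1 hy0 v hrel
  refine ⟨θ, h0, fun w g h1 ha hD i => ?_⟩
  have : Nonempty σ := ⟨i0⟩
  obtain ⟨s, -, hs⟩ := exists_max_image univ (fun j => w (y j)) univ_nonempty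
  have hs' : ∀ j, w (y j) ≤ w (y s) := fun j => hs j (mem_univ _)
  have hμ : 1 ≤ w (y s) := by simpa [hy1] using hs' i0
  have hf0 : w (y s) ≠ 0 := (zero_lt_one.trans_le hμ).ne'
  have hf : y s ≠ 0 := (w.ne_zero_iff).mp hf0
  refine (mul_le_mul_right (max_le hμ (hs' i)) _).trans (hθ w g h1 (fun k β => ?_) s hs'
    fun k α h => ⟨(e ⟨k, α, h⟩).D (y s) / y s, fun j => ?_⟩)
  · rw [coeff_form]; split_ifs
    · exact ha _
    · simp
  · have e1 : v k α j - (e ⟨k, α, h⟩).D (y s) / y s * y j = y s * (e ⟨k, α, h⟩).D (y j / y s) := by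
      simp only [v, dif_pos h]
      rw [Der.D_div _ _ _ hf]
      field_simp
    rw [e1, map_mul]
    refine mul_le_mul_right (hD _ _ ?_) _
    rw [map_div₀, div_le_one₀ (zero_lt_iff.mpr hf0)]
    exact hs' j

end Pool.Agent.P.MP_7ede32_ag
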