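import Pool.Agent.P.MP_7ede32_ag.GRig

/-! Finiteness of solutions over a finitely generated field from the auxiliary function. -/

open scoped WithZero IntermediateField
open Finset WithZero Filter

set_option linter.unusedSectionVars false

namespace Pool.Agent.P.MP_7ede32_ag

namespace FF

variable {κ : Type} [Field κ] [IsAlgClosed κ] [CharZero κ] {K : Type} [Field K] [Algebra κ K]

lemma PB.mul {u v : K} {H H' : ℕ} (hu : PB κ u H) (hv : PB κ v H') : PB κ (u * v) (H + H') := by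
  obtain ⟨E, h1, h2⟩ := hu
  obtain ⟨E', h3, h4⟩ := hv
  exact ⟨E + E', by rw [Multiset.card_add]; omega, mul_mem_LL h2 h4⟩

lemma PB.sum {ι : Type*} (s : Finset ι) {u : ι → K} {H : ι → ℕ} (h : ∀ i ∈ s, PB κ (u i) (H i)) :
    PB κ (∑ i ∈ s, u i) (∑ i ∈ s, H i) := by
  classical
  induction s using Finset.induction_on with
  | empty => exact ⟨0, by simp, by simp⟩
  | insert a s ha ih =>
    obtain ⟨E, h1, h2⟩ := h a (mem_insert_self _ _)
    obtain ⟨E', h3, h4⟩ := ih fun i hi => h i (mem_insert_of_mem hi)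
    rw [sum_insert ha, sum_insert ha]
    exact ⟨E + E', by rw [Multiset.card_add]; omega,
      add_mem (LL_mono le_self_add h2) (LL_mono le_add_self h4)⟩

lemma IsCurveField.exists_param_adjoin (hK : IsCurveField κ K) {t : K} (ht : Transcendental κ t)
    (H : ℕ) : ∃ 𝓔 : Finset κ⟮t⟯, ∀ f : κ⟮t⟯, PB κ (f : K) H →
      ∃ v ∈ Submodule.span κ (𝓔 : Set κ⟮t⟯), ∃ b ∈ Submodule.span κ (𝓔 : Set κ⟮t⟯),
        b ≠ 0 ∧ f * b = v := by
  classical
  have := hK.finite ht
  obtain ⟨𝓔, h⟩ := hK.exists_param H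
  let e := Module.finBasis κ⟮t⟯ K
  refine ⟨(univ ×ˢ 𝓔).image fun p => e.coord p.1 p.2, fun f hf => ?_⟩
  obtain ⟨v, hv, b, hb, hb0, hfb⟩ := h _ hf
  obtain ⟨i, hi⟩ : ∃ i, e.coord i b ≠ 0 := by
    by_contra hne
    push Not at hne
    exact hb0 (e.forall_coord_eq_zero_iff.mp hne)
  have key : ∀ x ∈ Submodule.span κ (𝓔 : Set K), e.coord i x ∈ Submodule.span κ
      (((univ ×ˢ 𝓔).image fun p => e.coord p.1 p.2 : Finset κ⟮t⟯) : Set κ⟮t⟯) := by
    intro x hx
    induction hx using Submodule.span_induction with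
    | mem x hx => exact Submodule.subset_span (mem_image.mpr ⟨(i, x), by simpa using hx, rfl⟩)
    | zero => simp
    | add x y _ _ a1 a2 => rw [map_add]; exact add_mem a1 a2
    | smul c x _ a1 => rw [LinearMap.map_smul_of_tower]; exact Submodule.smul_mem _ c a1
  refine ⟨_, key v hv, _, key b hb, hi, ?_⟩
  rw [← hfb, ← smul_eq_mul, ← map_smul]
  rfl

end FF

/-- the bracket of two derivations -/
def Der.bracket {K : Type*} [Field K] (d e : Der K) : Der K where
  D u := d.D (e.D u) - e.D (d.D u)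
  D_add x y := by simp only [Der.D_add]; ring
  D_mul x y := by simp only [Der.D_mul, Der.D_add]; ring

theorem Der.comm_of_acl {F : Type} [Field F] [CharZero F] (d e : Der F) {S : Set F}
    (h : ∀ y ∈ S, d.D (e.D y) = e.D (d.D y)) {u : F} (hu : u ∈ acl S) :
    d.D (e.D u) = e.D (d.D u) :=
  sub_eq_zero.mp ((d.bracket e).acl_le_const (fun y hy => sub_eq_zero.mpr (h y hy)) hu)

theorem exists_ultra' (K : Type) [Field K] [CharZero K] :
    ∃ (F : Type) (_ : Field F) (_ : CharZero F) (_ : IsAlgClosed F) (Φ : (ℕ → K) →+* F),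
      (∀ d : Der K, ∃ d' : Der F, ∀ f, d'.D (Φ f) = Φ fun r => d.D (f r)) ∧
      (∀ f, Φ f = 0 → ∀ᶠ r in (hyperfilter ℕ : Filter ℕ), f r = 0) ∧
      ∀ u, u ∈ acl (Set.range Φ) := by
  let U := Germ (hyperfilter ℕ : Filter ℕ) K
  let Ψ : (ℕ → K) →+* U := Germ.coeRingHom _
  have : CharZero U := charZero_of_injective_ringHom (Ψ.comp (Pi.constRingHom ℕ K)).injective
  refine ⟨AlgebraicClosure U, inferInstance, inferInstance, inferInstance,
    (algebraMap U _).comp Ψ, fun d => ?_, fun f hf => ?_, fun u => ?_⟩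
  · let d0 : Der U :=
      { D := Germ.map d.D
        D_add := fun x y => Germ.inductionOn₂ x y fun f g =>
          congrArg Ψ (funext fun r => d.D_add (f r) (g r))
        D_mul := fun x y => Germ.inductionOn₂ x y fun f g =>
          congrArg Ψ (funext fun r => d.D_mul (f r) (g r)) }
    obtain ⟨d', hd'⟩ := d0.exists_extend (L := AlgebraicClosure U)
    exact ⟨d', fun f => hd' _⟩
  · have h1 : Ψ f = Ψ 0 := by
      rw [map_zero]; exact (map_eq_zero_iff _ (algebraMap U _).injective).mp hf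
    exact Germ.coe_eq.mp h1
  · exact mem_acl_of_isAlgebraic (R := U) (algebraMap U _).injective
      (fun r => Germ.inductionOn r fun f => subset_acl _ ⟨f, rfl⟩)
      (Algebra.IsAlgebraic.isAlgebraic u)

variable {A B I : Type} [Fintype B] [DecidableEq B] {𝓕 : Set (MvPolynomial (A ⊕ I) ℤ)} {E : ℕ}

theorem UMach.exists_height (hM : UMach 𝓕 E) (j : A ↪ B) {κ K : Type} [Field κ] [IsAlgClosed κ]
    [CharZero κ] [Field K] [Algebra κ K] (hK : FF.IsCurveField κ K) (e : B → Der K) (t : B → K)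
    (ht : ∀ α β, (e α).D (t β) = if β = α then 1 else 0)
    (hd : ∀ β, ∀ c : κ, ∃ c' : κ, (e β).D (algebraMap κ K c) = algebraMap κ K c') :
    ∃ H, ∀ y : I → K, Sol 𝓕 (fun α => t (j α)) y → ∀ i, FF.PB κ (y i) H := by
  classical
  choose 𝒟 hD using fun β => hK.exists_bound (e β) (hd β)
  obtain ⟨h, S0, h1, h2, h3⟩ := hK.exists_fun (univ.image t ∪ univ.biUnion 𝒟)
  refine ⟨∑ w ∈ S0, E * h w, fun y hy i => ?_⟩
  obtain ⟨ψ, hψ, hw⟩ := hM.apply j t e ht y hy
  refine hK.PB_of_local (fun w => E * h w) S0 (fun w hw hn => by rw [h1 w hw hn, mul_zero]) h2 hψ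
    fun w hpl => ?_
  have hg : (1 : ℤᵐ⁰) ≤ exp (h w : ℤ) := by rw [← exp_zero, exp_le_exp]; omega
  have := hw w _ hg (fun β => h3 w _ (mem_union_left _ (mem_image_of_mem _ (mem_univ β))))
    (fun β => hD β w hpl _ hg fun c hc =>
      h3 w c (mem_union_right _ (mem_biUnion.mpr ⟨β, mem_univ _, hc⟩))) i
  rwa [← exp_nsmul, nsmul_eq_mul, ← Nat.cast_mul] at this

theorem UMach.exists_rep (hM : UMach 𝓕 E) (j : A ↪ B) {F : Type} [Field F] [CharZero F]
    [IsAlgClosed F] (e : B → Der F) (t : B → F)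
    (ht : ∀ α β, (e α).D (t β) = if β = α then 1 else 0)
    (hcomm : ∀ α β u, (e α).D ((e β).D u) = (e β).D ((e α).D u)) (α : B)
    (hall : ∀ u, u ∈ acl (insert (t α) ((e α).const : Set F))) (Γ : Finset F) (hα : t α ∈ Γ)
    {ι : Type} [Fintype ι] (m : ι → F)
    (hm : ∀ σ, m σ ∈ IntermediateField.adjoin (e α).const (Γ : Set F)) :
    ∃ 𝓔 : Finset F, (∀ x ∈ 𝓔, x ∈ Subfield.closure (insert (t α) ((e α).const : Set F))) ∧
      ∀ (y : ι → I → F) (i : I), (∀ σ, Sol 𝓕 (fun a => t (j a)) (y σ)) →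
        (∀ σ i, y σ i ∈ IntermediateField.adjoin (e α).const (Γ : Set F)) →
        ∑ σ, y σ i * m σ ∈ Subfield.closure (insert (t α) ((e α).const : Set F)) →
        ∃ cv cb : F → F, (∀ x, cv x ∈ (e α).const ∧ cb x ∈ (e α).const) ∧
          ∑ x ∈ 𝓔, cb x * x ≠ 0 ∧ (∑ σ, y σ i * m σ) * ∑ x ∈ 𝓔, cb x * x = ∑ x ∈ 𝓔, cv x * x := by
  classical
  let κ := (e α).const
  have hκ : acl (κ : Set F) = κ := le_antisymm ((e α).acl_le_const subset_rfl) (subset_acl _)
  have : IsAlgClosed κ := hκ ▸ isAlgClosed_acl _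
  have htκ : t α ∉ acl (κ : Set F) := by
    rw [hκ, Der.mem_const, ht, if_pos rfl]; exact one_ne_zero
  have hK := isCurveField_adjoin κ Γ hα htκ fun u _ => hall u
  let M := IntermediateField.adjoin κ (Γ : Set F)
  let E0 := Subfield.closure (insert (t α) (κ : Set F))
  have hE0 : E0 ≤ M.toSubfield := Subfield.closure_le.mpr
    (Set.insert_subset (IntermediateField.subset_adjoin _ _ hα) fun u hu => M.algebraMap_mem ⟨u, hu⟩)
  have hκD : ∀ β, ∀ u ∈ κ, (e β).D u ∈ κ := fun β u hu => by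
    rw [Der.mem_const, hcomm, hu, Der.D_zero]
  have hE0D : ∀ β, ∀ u ∈ E0, (e β).D u ∈ E0 := fun β u hu => (e β).D_mem_closure (by
    rintro y (rfl | hy)
    · rw [ht]; split_ifs
      · exact one_mem _
      · exact zero_mem _
    · exact Subfield.subset_closure (Or.inr (hκD β y hy))) hu
  choose e' he' using fun β => (e β).exists_restrict_adjoin κ Γ (hκD β) fun u hu =>
    (e β).D_mem_of_algebraic E0 M.toSubfield hE0 (fun v hv => hE0 (hE0D β v hv))
      (isAlgebraic_of_mem_acl E0 (fun y hy => ⟨⟨y, Subfield.subset_closure hy⟩, rfl⟩) (hall u))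
      (IntermediateField.subset_adjoin _ _ hu)
  have htM : ∀ β, t β ∈ M := fun β => by
    by_cases h : β = α
    · exact h ▸ IntermediateField.subset_adjoin _ _ hα
    · exact M.algebraMap_mem ⟨t β, by rw [Der.mem_const, ht, if_neg h]⟩
  let t' : B → M := fun β => ⟨t β, htM β⟩
  obtain ⟨H, hH⟩ := hM.exists_height j hK e' t'
    (fun α β => Subtype.ext ((he' α _).trans ((ht α β).trans (by split_ifs <;> rfl))))
    fun β c => ⟨⟨_, hκD β _ c.2⟩, Subtype.ext (he' β _)⟩
  choose Em hEm using fun σ => hK.exists_LL (⟨m σ, hm σ⟩ : M)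
  have htr : Transcendental κ (t' α) := fun halg => htκ (mem_acl_of_isAlgebraic
    (algebraMap κ F).injective (fun r => subset_acl _ r.2) (halg.algebraMap (A := F)))
  obtain ⟨𝓔, h𝓔⟩ := hK.exists_param_adjoin htr (∑ σ, (H + (Em σ).card))
  let ρ : κ⟮t' α⟯ →ₐ[κ] F := M.val.comp (κ⟮t' α⟯).val
  have hρ : Function.Injective ρ := ρ.toRingHom.injective
  have hρ1 : ∀ x, ρ x ∈ E0 := by
    rintro ⟨x, hx⟩
    induction hx using IntermediateField.adjoin_induction with
    | mem u hu => exact Subfield.subset_closure (Or.inl (congrArg Subtype.val hu))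
    | algebraMap c => exact Subfield.subset_closure (Or.inr c.2)
    | add u v _ _ a1 a2 => exact add_mem a1 a2
    | inv u _ a1 => exact inv_mem a1
    | mul u v _ _ a1 a2 => exact mul_mem a1 a2
  have hρ2 : E0 ≤ ρ.toRingHom.fieldRange := Subfield.closure_le.mpr (Set.insert_subset
    ⟨IntermediateField.AdjoinSimple.gen κ (t' α), rfl⟩ fun u hu => ⟨algebraMap κ _ ⟨u, hu⟩, rfl⟩)
  refine ⟨𝓔.image ρ, fun x hx => ?_, fun y i hy hyM hu => ?_⟩
  · obtain ⟨z, -, rfl⟩ := mem_image.mp hx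
    exact hρ1 z
  obtain ⟨f, hf⟩ := hρ2 hu
  have hf' : (f : M) = ∑ σ, (⟨y σ i, hyM σ i⟩ : M) * ⟨m σ, hm σ⟩ :=
    Subtype.ext (hf.trans (by simp))
  obtain ⟨v, hv, b, hb, hb0, hfb⟩ := h𝓔 f (by
    rw [hf']
    exact FF.PB.sum _ fun σ _ => (hH (fun i => ⟨y σ i, hyM σ i⟩)
      (Sol.of_map (algebraMap M F) (hy σ)) i).mul ⟨Em σ, le_rfl, hEm σ⟩)
  have key : ∀ x ∈ Submodule.span κ (𝓔 : Set κ⟮t' α⟯), ∃ c : F → F, (∀ z, c z ∈ κ) ∧
      ∑ z ∈ 𝓔.image ρ, c z * z = ρ x := by
    intro x hx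
    have h1 : ρ x ∈ Submodule.span κ ((𝓔.image ρ : Finset F) : Set F) := by
      rw [coe_image]
      exact Submodule.apply_mem_span_image_of_mem_span ρ.toLinearMap hx
    obtain ⟨c, -, hc⟩ := Submodule.mem_span_finset.mp h1
    exact ⟨fun z => c z, fun z => (c z).2, hc⟩
  obtain ⟨cv, h1, h2⟩ := key v hv
  obtain ⟨cb, h3, h4⟩ := key b hb
  refine ⟨cv, cb, fun x => ⟨h1 x, h3 x⟩, ?_, ?_⟩
  · rw [h4]; exact fun h => hb0 (hρ (h.trans (map_zero ρ).symm))
  · rw [h2, h4, ← hfb, map_mul]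
    exact congrArg (· * ρ b) hf.symm

theorem UMach.finite [Fintype I] (hM : UMach 𝓕 E) (j : A ↪ B) {k L : Type} [Field k] [CharZero k]
    [Field L] [CharZero L] [Algebra k L] [Algebra.EssFiniteType k L] (t : B → L)
    (ht : AlgebraicIndependent k t)
    (hall : ∀ u : L, u ∈ acl (Set.range (algebraMap k L) ∪ Set.range t)) :
    {y : I → L | Sol 𝓕 (fun α => t (j α)) y}.Finite := by
  classical
  choose e0 he01 he02 using exists_dual_der t ht hall
  let 𝕂 := AlgebraicClosure L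
  let φ := algebraMap L 𝕂
  choose e1 he1 using fun β => (e0 β).exists_extend (L := 𝕂)
  let t1 : B → 𝕂 := fun β => φ (t β)
  have ht1 : ∀ α β, (e1 α).D (t1 β) = if β = α then 1 else 0 := fun α β => by
    simp only [t1, φ, he1, he02]; split_ifs <;> simp
  have hk1 : ∀ α c, (e1 α).D (φ (algebraMap k L c)) = 0 := fun α c => by
    simp only [φ, he1, he01, map_zero]
  have hall1 : ∀ u : 𝕂, u ∈ acl (φ '' (Set.range (algebraMap k L) ∪ Set.range t)) := fun u =>
    mem_acl_of_isAlgebraic (R := L) φ.injective (fun r => acl_map φ (hall r))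
      (Algebra.IsAlgebraic.isAlgebraic u)
  have hcomm1 : ∀ α β u, (e1 α).D ((e1 β).D u) = (e1 β).D ((e1 α).D u) := fun α β u =>
    Der.comm_of_acl _ _ (by
      rintro _ ⟨_, ⟨c, rfl⟩ | ⟨γ, rfl⟩, rfl⟩
      · simp only [hk1, Der.D_zero]
      · change (e1 α).D ((e1 β).D (t1 γ)) = (e1 β).D ((e1 α).D (t1 γ))
        rw [ht1, ht1]
        split_ifs <;> simp only [Der.D_zero, Der.D_one]) (hall1 u)
  have hsub : ∀ α, φ '' (Set.range (algebraMap k L) ∪ Set.range t) ⊆
      insert (t1 α) ((e1 α).const : Set 𝕂) := by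
    rintro α _ ⟨_, ⟨c, rfl⟩ | ⟨γ, rfl⟩, rfl⟩
    · exact Or.inr (hk1 α c)
    · by_cases h : γ = α
      · exact Or.inl (by rw [h])
      · exact Or.inr ((ht1 α γ).trans (if_neg h))
  let K0 := IntermediateField.adjoin k (Set.range t)
  have : Algebra.EssFiniteType K0 L := Algebra.EssFiniteType.of_comp k _ _
  have : Algebra.IsAlgebraic K0 L := ⟨fun u => isAlgebraic_of_mem_acl K0 (by
    rintro _ (⟨c, rfl⟩ | ⟨γ, rfl⟩)
    · exact ⟨algebraMap k K0 c, rfl⟩
    · exact ⟨⟨t γ, IntermediateField.subset_adjoin _ _ ⟨γ, rfl⟩⟩, rfl⟩) (hall u)⟩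
  have : FiniteDimensional K0 L := Algebra.finite_of_essFiniteType_of_isAlgebraic
  let b := Module.finBasis K0 L
  have hK0 : ∀ α (c : K0), algebraMap K0 𝕂 c ∈
      Subfield.closure (insert (t1 α) ((e1 α).const : Set 𝕂)) := by
    rintro α ⟨c, hc⟩
    change φ c ∈ _
    induction hc using IntermediateField.adjoin_induction with
    | mem u hu => exact Subfield.subset_closure (hsub α ⟨u, Or.inr hu, rfl⟩)
    | algebraMap c => exact Subfield.subset_closure (hsub α ⟨_, Or.inl ⟨c, rfl⟩, rfl⟩)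
    | add u v _ _ a1 a2 => rw [map_add]; exact add_mem a1 a2
    | inv u _ a1 => rw [map_inv₀]; exact inv_mem a1
    | mul u v _ _ a1 a2 => rw [map_mul]; exact mul_mem a1 a2
  let Γ : B → Finset 𝕂 := fun α =>
    insert (t1 α) (univ.image fun p : (L →ₐ[K0] 𝕂) × Fin (Module.finrank K0 L) => p.1 (b p.2))
  have hσ : ∀ α (σ : L →ₐ[K0] 𝕂) u, σ u ∈ IntermediateField.adjoin (e1 α).const (Γ α : Set 𝕂) := by
    intro α σ u
    rw [← b.sum_repr u, map_sum]
    refine sum_mem fun i _ => ?_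
    rw [Algebra.smul_def, map_mul, σ.commutes]
    refine mul_mem ?_ (IntermediateField.subset_adjoin _ _
      (mem_insert_of_mem (mem_image.mpr ⟨(σ, i), mem_univ _, rfl⟩)))
    exact (Subfield.closure_le
      (t := (IntermediateField.adjoin (e1 α).const (Γ α : Set 𝕂)).toSubfield)).mpr
      (Set.insert_subset (IntermediateField.subset_adjoin _ _ (mem_insert_self _ _))
        fun u hu => IntermediateField.algebraMap_mem _ (⟨u, hu⟩ : (e1 α).const)) (hK0 α _)
  choose 𝓔 h𝓔1 h𝓔2 using fun α n => hM.exists_rep j e1 t1 ht1 hcomm1 α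
    (fun u => acl_mono (hsub α) (hall1 u)) (Γ α) (mem_insert_self _ _)
    (fun σ : L →ₐ[K0] 𝕂 => σ (b n)) fun σ => hσ α σ _
  by_contra hinf
  let ys := Set.Infinite.natEmbedding _ hinf
  let u : ℕ → I → Fin (Module.finrank K0 L) → 𝕂 := fun r i n =>
    algebraMap K0 𝕂 (Algebra.trace K0 L ((ys r).1 i * b n))
  have hu : ∀ r i n, ∑ σ : L →ₐ[K0] 𝕂, σ ((ys r).1 i) * σ (b n) = u r i n := fun r i n => by
    simp only [u, trace_eq_sum_embeddings, map_mul]
  have hsol : ∀ r (σ : L →ₐ[K0] 𝕂), Sol 𝓕 (fun a => t1 (j a)) fun i => σ ((ys r).1 i) := by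
    intro r σ
    have e : (fun a => t1 (j a)) = fun a => σ.toRingHom (t (j a)) := funext fun a =>
      (σ.commutes ⟨t (j a), IntermediateField.subset_adjoin _ _ ⟨_, rfl⟩⟩).symm
    rw [e]
    exact Sol.map σ.toRingHom (ys r).2
  choose cv cb hc hb0 hvb using fun α n r i => h𝓔2 α n (fun σ i => σ ((ys r).1 i)) i (hsol r)
    (fun σ i => hσ α σ _) (by rw [hu]; exact hK0 α _)
  simp only [hu] at hvb
  obtain ⟨F, _, _, _, Φ, hΦ, hΦ0, hΦ1⟩ := exists_ultra' 𝕂
  choose e2 he2 using fun β => hΦ (e1 β)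
  let ι : 𝕂 →+* F := Φ.comp (Pi.constRingHom ℕ 𝕂)
  have hι : ∀ β x, (e2 β).D (ι x) = ι ((e1 β).D x) := fun β x => he2 β _
  let t2 : B → F := fun β => ι (t1 β)
  have ht2 : ∀ α β, (e2 α).D (t2 β) = if β = α then 1 else 0 := fun α β => by
    simp only [t2, hι, ht1]; split_ifs <;> simp
  have hcomm2 : ∀ α β x, (e2 α).D ((e2 β).D x) = (e2 β).D ((e2 α).D x) := fun α β x =>
    Der.comm_of_acl _ _ (by rintro _ ⟨f, rfl⟩; simp only [he2, hcomm1 α β]) (hΦ1 x)
  have hsum : ∀ α n (c : ℕ → 𝕂 → 𝕂), (∀ r x, c r x ∈ (e1 α).const) →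
      Φ (fun r => ∑ x ∈ 𝓔 α n, c r x * x) ∈
        Subfield.closure (insert (t2 α) ((e2 α).const : Set F)) := by
    intro α n c hc
    have : (fun r => ∑ x ∈ 𝓔 α n, c r x * x) =
        ∑ x ∈ 𝓔 α n, (fun r => c r x) * Pi.constRingHom ℕ 𝕂 x := by
      funext r; simp
    rw [this, map_sum]
    refine sum_mem fun x hx => ?_
    rw [map_mul]
    refine mul_mem (Subfield.subset_closure (Or.inr ?_)) ?_
    · rw [SetLike.mem_coe, Der.mem_const, he2, ← map_zero Φ]
      exact congrArg Φ (funext fun r => hc r x)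
    · refine (Subfield.closure_le
        (t := (Subfield.closure (insert (t2 α) ((e2 α).const : Set F))).comap ι)).mpr
        ?_ (h𝓔1 α n x hx)
      rintro z (rfl | hz)
      · exact Subfield.subset_closure (Or.inl rfl)
      · exact Subfield.subset_closure (Or.inr ((hι α z).trans (by rw [hz, map_zero])))
  have hu2 : ∀ i n, Φ (fun r => u r i n) ∈ Subfield.closure (Set.range t2 ∪ cst e2) := by
    intro i n
    refine mem_closure_of_forall e2 t2 ht2 hcomm2 fun α => ?_
    have h1 : Φ (fun r => ∑ x ∈ 𝓔 α n, cb α n r i x * x) ≠ 0 := fun h => by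
      obtain ⟨r, hr⟩ := (hΦ0 _ h).exists
      exact hb0 α n r i hr
    have h2 : Φ (fun r => u r i n) = Φ (fun r => ∑ x ∈ 𝓔 α n, cv α n r i x * x) /
        Φ (fun r => ∑ x ∈ 𝓔 α n, cb α n r i x * x) := by
      rw [eq_div_iff h1, ← map_mul]
      exact congrArg Φ (funext fun r => hvb α n r i)
    rw [h2]
    exact div_mem (hsum α n _ fun r x => (hc α n r i x).1) (hsum α n _ fun r x => (hc α n r i x).2)
  let χ : L →+* F := ι.comp φ
  let k0 := χ '' Set.range (algebraMap k L)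
  have hχ : ∀ x, χ x ∈ acl (k0 ∪ Set.range t2) := fun x => by
    have := acl_map χ (hall x)
    rwa [Set.image_union, ← Set.range_comp χ t] at this
  let y2 : I → F := fun i => Φ fun r => φ ((ys r).1 i)
  have hy2 : ∀ i, y2 i ∈ IntermediateField.adjoin (acl (k0 ∪ Set.range t2)) (cst e2 : Set F) := by
    intro i
    have : (fun r => φ ((ys r).1 i)) =
        ∑ n, (fun r => u r i n) * Pi.constRingHom ℕ 𝕂 (φ (b.traceDual n)) := by
      funext r
      conv_lhs => rw [← b.traceDual.sum_repr ((ys r).1 i)]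
      simp only [u, φ, Algebra.smul_def, map_sum, map_mul, Module.Basis.traceDual_repr_apply,
        Algebra.traceForm_apply, Finset.sum_apply, Pi.mul_apply, Pi.constRingHom_apply,
        Function.const_apply]
      rfl
    simp only [y2]
    rw [this, map_sum]
    refine sum_mem fun n _ => ?_
    rw [map_mul]
    refine mul_mem ?_ (IntermediateField.algebraMap_mem _ (⟨_, hχ _⟩ : acl (k0 ∪ Set.range t2)))
    exact (Subfield.closure_le (t := (IntermediateField.adjoin (acl (k0 ∪ Set.range t2))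
      (cst e2 : Set F)).toSubfield)).mpr (Set.union_subset
        (fun x hx => IntermediateField.algebraMap_mem _
          (⟨x, subset_acl _ (Or.inr hx)⟩ : acl (k0 ∪ Set.range t2)))
        (IntermediateField.subset_adjoin _ _)) (hu2 i n)
  choose T hT1 hT2 using fun i => IntermediateField.exists_finset_of_mem_adjoin (hy2 i)
  have key := hM.rigid j e2 t2 ht2 k0
    (by
      rintro _ ⟨_, ⟨c, rfl⟩, rfl⟩
      exact mem_cst.mpr fun β => (hι β _).trans (by rw [hk1, map_zero]))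
    y2 (Sol.map Φ (Sol.pi fun r => Sol.map φ (ys r).2)) (univ.biUnion T)
    (fun x hx => by
      obtain ⟨i, -, hi⟩ := mem_biUnion.mp hx
      exact hT1 i hi)
    fun i => by
      have : IntermediateField.adjoin (acl (k0 ∪ Set.range t2)) (T i : Set F) ≤
          (Subfield.closure ((acl (k0 ∪ Set.range t2) : Set F) ∪
            acl (k0 ∪ (univ.biUnion T : Finset F)))).toIntermediateField
            fun c => Subfield.subset_closure (Or.inl c.2) := by
        rw [IntermediateField.adjoin_le_iff]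
        exact fun x hx => Subfield.subset_closure (Or.inr (subset_acl _
          (Or.inr (mem_biUnion.mpr ⟨i, mem_univ _, hx⟩))))
      exact this (hT2 i)
  let _ : Algebra L F := χ.toAlgebra
  choose p hp0 hp using fun i => isAlgebraic_of_mem_acl L (by
    rintro _ (⟨x, -, rfl⟩ | ⟨β, rfl⟩)
    · exact ⟨x, rfl⟩
    · exact ⟨t β, rfl⟩) (key i)
  have hev : ∀ i, ∀ᶠ r in (hyperfilter ℕ : Filter ℕ), (p i).eval ((ys r).1 i) = 0 := by
    intro i
    refine (hΦ0 (fun r => φ ((p i).eval ((ys r).1 i))) ?_).mono fun r hr => (map_eq_zero φ).mp hr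
    have e : (fun r => φ ((p i).eval ((ys r).1 i))) =
        (p i).eval₂ ((Pi.constRingHom ℕ 𝕂).comp φ) fun r => φ ((ys r).1 i) := by
      funext r
      exact (Polynomial.hom_eval₂ (p i) (RingHom.id L) φ _).trans (Polynomial.hom_eval₂ (p i)
        ((Pi.constRingHom ℕ 𝕂).comp φ) (Pi.evalRingHom (fun _ => 𝕂) r)
          fun r => φ ((ys r).1 i)).symm
    rw [e, Polynomial.hom_eval₂]
    exact hp i
  have hfin' : {r | ∀ i, (p i).eval ((ys r).1 i) = 0}.Finite := by
    have h1 : {y : I → L | ∀ i, y i ∈ {u | (p i).IsRoot u}}.Finite :=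
      Set.Finite.pi' fun i => Polynomial.finite_setOfPred_isRoot (hp0 i)
    exact h1.preimage (f := fun r => (ys r).1)
      (Subtype.val_injective.comp ys.injective).injOn
  exact hfin'.notMem_hyperfilter (eventually_all.mpr hev)

end Pool.Agent.P.MP_7ede32_ag
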