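import Pool.Agent.P.MP_7ede32_ag.FRed

/-! Rigidity and descent for a family of derivations. -/

open scoped WithZero
open Finset WithZero MvPolynomial

namespace Pool.Agent.P.MP_7ede32_ag

variable {A B I : Type}

/-- solutions of a system of equations with parameters -/
def Sol (𝓕 : Set (MvPolynomial (A ⊕ I) ℤ)) {R : Type} [CommRing R] (a : A → R) (y : I → R) : Prop :=
  ∀ f ∈ 𝓕, eval₂Hom (Int.castRingHom R) (Sum.elim a y) f = 0

theorem eval_sol_map {R R' : Type} [CommRing R] [CommRing R'] (φ : R →+* R') (a : A → R)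
    (y : I → R) (f : MvPolynomial (A ⊕ I) ℤ) :
    φ (eval₂Hom (Int.castRingHom R) (Sum.elim a y) f) =
      eval₂Hom (Int.castRingHom R') (Sum.elim (fun α => φ (a α)) (fun i => φ (y i))) f := by
  rw [← RingHom.comp_apply]
  congr 1
  refine MvPolynomial.ringHom_ext (fun r => by simp) fun p => ?_
  cases p <;> simp

theorem Sol.map {𝓕 : Set (MvPolynomial (A ⊕ I) ℤ)} {R R' : Type} [CommRing R] [CommRing R']
    (φ : R →+* R') {a : A → R} {y : I → R} (h : Sol 𝓕 a y) :
    Sol 𝓕 (fun α => φ (a α)) (fun i => φ (y i)) := fun f hf => by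
  rw [← eval_sol_map, h f hf, map_zero]

theorem Sol.of_map {𝓕 : Set (MvPolynomial (A ⊕ I) ℤ)} {R R' : Type} [Field R] [Field R']
    (φ : R →+* R') {a : A → R} {y : I → R} (h : Sol 𝓕 (fun α => φ (a α)) (fun i => φ (y i))) :
    Sol 𝓕 a y := fun f hf => (map_eq_zero φ).mp ((eval_sol_map φ a y f).trans (h f hf))

theorem Sol.pi {𝓕 : Set (MvPolynomial (A ⊕ I) ℤ)} {R : Type} [CommRing R] {a : A → R}
    {y : ℕ → I → R} (h : ∀ r, Sol 𝓕 a (y r)) :
    Sol 𝓕 (fun α => Pi.constRingHom ℕ R (a α)) (fun i r => y r i) := by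
  intro f hf
  funext r
  exact (eval_sol_map (Pi.evalRingHom (fun _ => R) r) (fun α => Pi.constRingHom ℕ R (a α))
    (fun i r => y r i) f).trans (h r f hf)

open Classical in
/-- the auxiliary function attached to a solution, when the parameters carry dual derivations -/
def UMach (𝓕 : Set (MvPolynomial (A ⊕ I) ℤ)) (E : ℕ) : Prop :=
  ∀ (M : Type) [Field M] (a : A → M) (e : A → Der M),
    (∀ α β, (e α).D (a β) = if β = α then 1 else 0) → ∀ y : I → M, Sol 𝓕 a y →
    ∃ ψ : M, ψ ≠ 0 ∧ ∀ (w : Valuation M ℤᵐ⁰) (g : ℤᵐ⁰), 1 ≤ g → (∀ α, w (a α) ≤ g) →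
      (∀ α u, w u ≤ 1 → w ((e α).D u) ≤ g) → ∀ i, w ψ * max 1 (w (y i)) ≤ g ^ E

variable {F : Type} [Field F]

/-- the common constants of a family of derivations -/
def cst (e : B → Der F) : Subfield F := ⨅ β, (e β).const

theorem mem_cst {e : B → Der F} {u : F} : u ∈ cst e ↔ ∀ β, (e β).D u = 0 := Subfield.mem_iInf

theorem linearIndependent_of_cst (e : B → Der F) (k1 K1 : Subfield F)
    (hD : ∀ β, ∀ u ∈ K1, (e β).D u ∈ K1) (hc : ∀ u ∈ K1, u ∈ cst e → u ∈ k1) {ι : Type*}
    (b : ι → F) (hb : ∀ i, b i ∈ cst e) (hli : LinearIndependent k1 b) :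
    LinearIndependent K1 b := by
  classical
  rw [linearIndependent_iff'] at hli ⊢
  intro s
  induction s using Finset.strongInduction with
  | H s ih =>
    intro g hg i hi
    by_contra hne
    have hne' : (g i : F) ≠ 0 := fun h => hne (Subtype.ext h)
    let g' : ι → K1 := fun j => g j / g i
    have hg' : ∑ j ∈ s, (g' j : F) * b j = 0 := by
      have : ∀ j, (g' j : F) * b j = (g i : F)⁻¹ * (g j • b j) := by
        intro j
        simp only [g', Subfield.coe_div, Subfield.smul_def, smul_eq_mul]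
        field_simp
      simp only [this, ← Finset.mul_sum, hg, mul_zero]
    have hi' : (g' i : F) = 1 := by simp [g', hne]
    have h3 : ∀ j ∈ s, (g' j : F) ∈ k1 := by
      intro j hj
      refine hc _ (g' j).2 (mem_cst.mpr fun β => ?_)
      have h1 : ∑ j ∈ s.erase i, (⟨(e β).D (g' j), hD β _ (g' j).2⟩ : K1) • b j = 0 := by
        have := congrArg (e β).D hg'
        rw [Der.D_zero, Der.D_sum, ← Finset.add_sum_erase _ _ hi, hi', one_mul,
          mem_cst.mp (hb i), zero_add] at this
        rw [← this]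
        refine Finset.sum_congr rfl fun j _ => ?_
        rw [Der.D_mul, mem_cst.mp (hb j), Subfield.smul_def, smul_eq_mul]; ring
      by_cases hji : j = i
      · rw [hji, hi', Der.D_one]
      · exact congrArg Subtype.val
          (ih _ (Finset.erase_ssubset hi) _ h1 j (Finset.mem_erase.mpr ⟨hji, hj⟩))
    have h4 := hli s (fun j => if h : j ∈ s then ⟨g' j, h3 j h⟩ else 0) (by
      rw [← hg']
      refine Finset.sum_congr rfl fun j hj => ?_
      rw [dif_pos hj, Subfield.smul_def, smul_eq_mul]) i hi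
    simp only [dif_pos hi] at h4
    have h5 := congrArg Subtype.val h4
    simp only [hi'] at h5
    exact one_ne_zero h5

theorem mem_closure_descent_cst (e : B → Der F) (K0 k1 K1 : Subfield F) (h0 : K0 ≤ K1)
    (h1 : k1 ≤ K1) (hD : ∀ β, ∀ u ∈ K1, (e β).D u ∈ K1) (hc : ∀ u ∈ K1, u ∈ cst e → u ∈ k1)
    {u : F} (hu : u ∈ K1) (hu' : u ∈ Subfield.closure ((K0 : Set F) ∪ cst e)) :
    u ∈ Subfield.closure ((K0 : Set F) ∪ k1) := by
  classical
  set F1 := Subfield.closure ((K0 : Set F) ∪ k1)
  have hF1 : F1 ≤ K1 := Subfield.closure_le.mpr (Set.union_subset h0 h1)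
  obtain ⟨b, hbC, hsp, hli⟩ := exists_linearIndependent k1 (cst e : Set F)
  have hli' : LinearIndependent K1 ((↑) : b → F) :=
    linearIndependent_of_cst e k1 K1 hD hc _ (fun i => hbC i.2) hli
  let W := Submodule.span F1 b
  have hCW : ∀ c ∈ cst e, c ∈ W := by
    intro c hc
    have : c ∈ Submodule.span k1 b := hsp ▸ Submodule.subset_span hc
    refine Submodule.span_induction (fun x hx => Submodule.subset_span hx) W.zero_mem
      (fun _ _ _ _ => W.add_mem) (fun a x _ hx => ?_) this
    exact W.smul_mem ⟨a, Subfield.subset_closure (Or.inr a.2)⟩ hx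
  have hmulC : ∀ c ∈ cst e, ∀ x ∈ W, c * x ∈ W := by
    intro c hc x hx
    refine Submodule.span_induction (fun x hx => hCW _ ((cst e).mul_mem hc (hbC hx)))
      (by simp) (fun _ _ _ _ a1 a2 => by rw [mul_add]; exact W.add_mem a1 a2)
      (fun a x _ hx => by rw [mul_smul_comm]; exact W.smul_mem a hx) hx
  have hW : ∀ y ∈ Subring.closure ((K0 : Set F) ∪ cst e), ∀ x ∈ W, y * x ∈ W := by
    intro y hy
    induction hy using Subring.closure_induction with
    | mem y hy =>
      rcases hy with hy | hy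
      · intro x hx
        exact W.smul_mem ⟨y, Subfield.subset_closure (Or.inl hy)⟩ hx
      · exact hmulC y hy
    | zero => intro x _; simp
    | one => intro x hx; simpa using hx
    | add y z _ _ a1 a2 => intro x hx; rw [add_mul]; exact W.add_mem (a1 x hx) (a2 x hx)
    | neg y _ a1 => intro x hx; rw [neg_mul]; exact W.neg_mem (a1 x hx)
    | mul y z _ _ a1 a2 => intro x hx; rw [mul_assoc]; exact a1 _ (a2 x hx)
  obtain ⟨y, hy, z, hz, rfl⟩ := Subfield.mem_closure_iff.mp hu'
  by_cases hz0 : z = 0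
  · simp [hz0]
  have hyW : y ∈ W := by simpa using hW y hy 1 (hCW 1 (cst e).one_mem)
  have hzW : z ∈ W := by simpa using hW z hz 1 (hCW 1 (cst e).one_mem)
  obtain ⟨cy, hcy⟩ := (Finsupp.mem_span_iff_linearCombination F1 b y).mp hyW
  obtain ⟨cz, hcz⟩ := (Finsupp.mem_span_iff_linearCombination F1 b z).mp hzW
  have hcz0 : cz ≠ 0 := by rintro rfl; simp at hcz; exact hz0 hcz.symm
  obtain ⟨ρ, hρ⟩ := Finsupp.ne_iff.mp hcz0
  let s := cy.support ∪ cz.support
  have hys : y = ∑ j ∈ s, (cy j : F) * j := by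
    rw [← hcy, Finsupp.linearCombination_apply,
      Finsupp.sum_of_support_subset _ Finset.subset_union_left _ (by simp)]
    rfl
  have hzs : z = ∑ j ∈ s, (cz j : F) * j := by
    rw [← hcz, Finsupp.linearCombination_apply,
      Finsupp.sum_of_support_subset _ Finset.subset_union_right _ (by simp)]
    rfl
  have key := linearIndependent_iff'.mp hli' s
    (fun j => ⟨y / z * cz j - cy j, K1.sub_mem (K1.mul_mem hu (hF1 (cz j).2)) (hF1 (cy j).2)⟩)
    (by
      simp only [Subfield.smul_def, smul_eq_mul, sub_mul, Finset.sum_sub_distrib, mul_assoc,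
        ← Finset.mul_sum, ← hys, ← hzs]
      field_simp
      ring) ρ (Finset.mem_union_right _ (Finsupp.mem_support_iff.mpr hρ))
  have key' : y / z * cz ρ - cy ρ = 0 := congrArg Subtype.val key
  have hρ' : (cz ρ : F) ≠ 0 := fun h => hρ (Subtype.ext h)
  have : y / z = cy ρ / cz ρ := by rw [eq_div_iff hρ']; linear_combination key'
  rw [this]
  exact F1.div_mem (cy ρ).2 (cz ρ).2

theorem Der.D_mem_closure (d : Der F) {S : Set F} (h : ∀ y ∈ S, d.D y ∈ Subfield.closure S) {u : F}
    (hu : u ∈ Subfield.closure S) : d.D u ∈ Subfield.closure S :=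
  ((Subfield.closure_le (t := d.stab (Subfield.closure S))).mpr
    (fun y hy => ⟨Subfield.subset_closure hy, h y hy⟩) hu).2

variable [CharZero F] [DecidableEq B]

/-- An element that is rational in each variable over the constants of the dual derivation is
rational in all variables over the common constants. -/
theorem mem_closure_of_forall [Fintype B] (e : B → Der F) (t : B → F)
    (ht : ∀ α β, (e α).D (t β) = if β = α then 1 else 0)
    (hcomm : ∀ α β u, (e α).D ((e β).D u) = (e β).D ((e α).D u)) {u : F}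
    (hu : ∀ β, u ∈ Subfield.closure (insert (t β) ((e β).const : Set F))) :
    u ∈ Subfield.closure (Set.range t ∪ cst e) := by
  have key : ∀ T : Finset B, ∀ u, (∀ β ∉ T, u ∈ (e β).const) →
      (∀ β ∈ T, u ∈ Subfield.closure (insert (t β) ((e β).const : Set F))) →
      u ∈ Subfield.closure (Set.range t ∪ cst e) := by
    intro T
    induction T using Finset.induction_on with
    | empty => exact fun u h _ => Subfield.subset_closure (Or.inr (mem_cst.mpr fun β => h β (by simp)))
    | insert α T hα ih =>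
      intro u h1 h2
      let K1 : Subfield F := (⨅ β, ⨅ (_ : β ∉ insert α T), (e β).const) ⊓
        ⨅ β, ⨅ (_ : β ∈ T), Subfield.closure (insert (t β) ((e β).const : Set F))
      have hK1 : ∀ v, v ∈ K1 ↔ (∀ β ∉ insert α T, v ∈ (e β).const) ∧
          ∀ β ∈ T, v ∈ Subfield.closure (insert (t β) ((e β).const : Set F)) := fun v => by
        simp only [K1, Subfield.mem_inf, Subfield.mem_iInf]
      have hc : ∀ β, ∀ v ∈ (e β).const, (e α).D v ∈ (e β).const := fun β v hv => by
        rw [Der.mem_const, hcomm, hv, Der.D_zero]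
      have htc : ∀ β, β ≠ α → t α ∈ (e β).const := fun β hβ => by
        rw [Der.mem_const, ht, if_neg hβ.symm]
      have h3 := (e α).mem_closure_descent (Subfield.closure {t α}) (K1 ⊓ (e α).const) K1
        (by
          rw [Subfield.closure_le, Set.singleton_subset_iff, SetLike.mem_coe, hK1]
          exact ⟨fun β hβ => htc β fun h => hβ (h ▸ mem_insert_self _ _),
            fun β hβ => Subfield.subset_closure (Or.inr (htc β fun h => hα (h ▸ hβ)))⟩)
        inf_le_left
        (fun v hv => by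
          rw [hK1] at hv ⊢
          refine ⟨fun β hβ => hc β v (hv.1 β hβ), fun β hβ => (e α).D_mem_closure ?_ (hv.2 β hβ)⟩
          rintro y (rfl | hy)
          · rw [ht, if_neg fun h : β = α => hα (h ▸ hβ)]; exact zero_mem _
          · exact Subfield.subset_closure (Or.inr (hc β y hy)))
        (fun v hv h => ⟨hv, h⟩) (u := u)
        ((hK1 u).mpr ⟨h1, fun β hβ => h2 β (mem_insert_of_mem hβ)⟩)
        (Subfield.closure_mono (Set.insert_subset
          (Set.mem_union_left _ (Subfield.subset_closure (Set.mem_singleton _)))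
          Set.subset_union_right) (h2 α (mem_insert_self _ _)))
      refine Subfield.closure_le.mpr (Set.union_subset ?_ fun v hv => ?_) h3
      · exact Subfield.closure_mono (Set.singleton_subset_iff.mpr (Or.inl ⟨α, rfl⟩))
      · obtain ⟨hv1, hv2⟩ := (hK1 v).mp hv.1
        refine ih v (fun β hβ => ?_) hv2
        by_cases h : β = α
        · exact h ▸ hv.2
        · exact hv1 β (by simp [h, hβ])
  exact key univ u (by simp) fun β _ => hu β

theorem mem_acl_of_cst [Fintype B] (e : B → Der F) (t : B → F)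
    (ht : ∀ α β, (e α).D (t β) = if β = α then 1 else 0) {S : Set F} (hS : S ⊆ cst e) {u : F}
    (hu : u ∈ acl (S ∪ Set.range t)) (hc : u ∈ cst e) : u ∈ acl S := by
  have key : ∀ T : Finset B, u ∈ acl (S ∪ t '' T) → u ∈ acl S := by
    intro T
    induction T using Finset.induction_on with
    | empty => simp
    | insert α T hα ih =>
      intro h
      refine ih ?_
      by_contra hne
      rw [coe_insert, Set.image_insert_eq, Set.union_insert] at h
      have h1 := (e α).acl_le_const (by
        rintro y (rfl | hy | ⟨β, hβ, rfl⟩)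
        · exact mem_cst.mp hc α
        · exact mem_cst.mp (hS hy) α
        · rw [SetLike.mem_coe, Der.mem_const, ht, if_neg fun h : β = α => hα (h ▸ hβ)])
        (acl_exchange h hne)
      rw [Der.mem_const, ht, if_pos rfl] at h1
      exact one_ne_zero h1
  exact key univ (by simpa using hu)

omit [DecidableEq B] in
theorem acl_le_cst (e : B → Der F) {S : Set F} (h : S ⊆ cst e) : acl S ≤ cst e := fun _ hu =>
  mem_cst.mpr fun β => (e β).acl_le_const (fun _ hy => mem_cst.mp (h hy) β) hu

variable {𝓕 : Set (MvPolynomial (A ⊕ I) ℤ)} {E : ℕ}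

theorem UMach.apply (hM : UMach 𝓕 E) (j : A ↪ B) {M : Type} [Field M] (t : B → M) (e : B → Der M)
    (ht : ∀ α β, (e α).D (t β) = if β = α then 1 else 0) (y : I → M)
    (hy : Sol 𝓕 (fun α => t (j α)) y) :
    ∃ ψ : M, ψ ≠ 0 ∧ ∀ (w : Valuation M ℤᵐ⁰) (g : ℤᵐ⁰), 1 ≤ g → (∀ β, w (t β) ≤ g) →
      (∀ β u, w u ≤ 1 → w ((e β).D u) ≤ g) → ∀ i, w ψ * max 1 (w (y i)) ≤ g ^ E := by
  obtain ⟨ψ, h0, h⟩ := hM M (fun α => t (j α)) (fun α => e (j α))
    (fun α β => by rw [ht]; by_cases h : β = α <;> simp [h]) y hy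
  exact ⟨ψ, h0, fun w g h1 h2 h3 => h w g h1 (fun α => h2 _) fun α => h3 _⟩

theorem UMach.height_zero (hM : UMach 𝓕 E) (j : A ↪ B) (e : B → Der F) (t : B → F)
    (ht : ∀ α β, (e α).D (t β) = if β = α then 1 else 0) (κ : Subfield F) [IsAlgClosed κ]
    (hκ : ∀ β, ∀ u ∈ κ, (e β).D u ∈ κ) (htκ : ∀ β, t β ∈ κ) (Γ : Finset F)
    (hΓ : ∀ u ∈ Γ, u ∈ cst e) {s : F} (hs : s ∈ Γ) (hsκ : s ∉ acl (κ : Set F))
    (hΓ' : (Γ : Set F) ⊆ acl (insert s (κ : Set F))) (y : I → F)
    (hy : Sol 𝓕 (fun α => t (j α)) y)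
    (hyM : ∀ i, y i ∈ IntermediateField.adjoin κ (Γ : Set F)) (i : I) : y i ∈ κ := by
  have hK := isCurveField_adjoin κ Γ hs hsκ hΓ'
  choose e' he' using fun β => (e β).exists_restrict_adjoin κ Γ (hκ β)
    (fun u hu => by rw [mem_cst.mp (hΓ u hu)]; exact zero_mem _)
  have hgen : ∀ β u, u ∈ Subfield.closure
      (Set.range (algebraMap κ (IntermediateField.adjoin κ (Γ : Set F))) ∪ (e' β).const) := by
    rintro β ⟨u, hu⟩
    induction hu using IntermediateField.adjoin_induction with
    | mem u hu => exact Subfield.subset_closure (Or.inr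
        (Subtype.ext ((he' β _).trans (mem_cst.mp (hΓ u hu) β))))
    | algebraMap c => exact Subfield.subset_closure (Or.inl ⟨c, rfl⟩)
    | add u v _ _ a1 a2 => exact Subfield.add_mem _ a1 a2
    | inv u _ a1 => exact Subfield.inv_mem _ a1
    | mul u v _ _ a1 a2 => exact Subfield.mul_mem _ a1 a2
  let M := IntermediateField.adjoin κ (Γ : Set F)
  have hd : ∀ β, ∀ c : κ, ∃ c' : κ, (e' β).D (algebraMap κ M c) = algebraMap κ M c' := fun β c =>
    ⟨⟨_, hκ β _ c.2⟩, Subtype.ext (he' β _)⟩
  let y' : I → M := fun i => ⟨y i, hyM i⟩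
  obtain ⟨ψ, hψ, hw⟩ := hM.apply j (fun β => algebraMap κ M ⟨t β, htκ β⟩) e'
    (fun α β => Subtype.ext ((he' α _).trans ((ht α β).trans (by split_ifs <;> rfl)))) y'
    (Sol.of_map (algebraMap M F) hy)
  have hPB := hK.PB_of_local (fun _ => 0) ∅ (fun _ _ _ => rfl) (by simp) (u := y' i) hψ
    fun w hpl => by
      simpa using hw w 1 le_rfl (fun β => hpl.const_le_one _)
        (fun β => hK.val_D_le_one (e' β) (hd β) (hgen β) hpl) i
  obtain ⟨c, hc⟩ := hK.const_of_PB (by simpa using hPB)
  have : y i = c := congrArg Subtype.val hc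
  rw [this]; exact c.2

theorem UMach.rigid [Fintype I] [Fintype B] [IsAlgClosed F] (hM : UMach 𝓕 E) (j : A ↪ B)
    (e : B → Der F) (t : B → F) (ht : ∀ α β, (e α).D (t β) = if β = α then 1 else 0) (k0 : Set F)
    (hk0 : k0 ⊆ cst e) (y : I → F) (hy : Sol 𝓕 (fun α => t (j α)) y)
    (S : Finset F) (hS : (S : Set F) ⊆ cst e)
    (hyS : ∀ i, y i ∈ Subfield.closure ((acl (k0 ∪ Set.range t) : Set F) ∪ acl (k0 ∪ S))) :
    ∀ i, y i ∈ acl (k0 ∪ Set.range t) := by
  classical
  induction S using Finset.induction_on with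
  | empty =>
    refine fun i => Subfield.closure_le.mpr (Set.union_subset subset_rfl ?_) (hyS i)
    exact acl_mono (by simp)
  | insert s S _ ih =>
    rw [coe_insert, Set.insert_subset_iff] at hS
    refine ih hS.2 fun i => ?_
    set k1 := acl (k0 ∪ (S : Set F)) with hk1
    set K1 := acl ((k1 : Set F) ∪ Set.range t) with hK1
    set k2 := acl (k0 ∪ (insert s S : Finset F)) with hk2
    have hk1c : k1 ≤ cst e := acl_le_cst e (Set.union_subset hk0 hS.2)
    have hk2c : k2 ≤ cst e := acl_le_cst e (Set.union_subset hk0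
      (by rw [coe_insert]; exact Set.insert_subset hS.1 hS.2))
    have h01 : acl (k0 ∪ Set.range t) ≤ K1 := acl_mono (Set.union_subset_union_left _
      (Set.subset_union_left.trans (subset_acl _)))
    have h11 : k1 ≤ K1 := fun u hu => subset_acl _ (Or.inl hu)
    have hD1 : ∀ β, ∀ u ∈ K1, (e β).D u ∈ K1 := fun β u hu => (e β).D_mem_acl (by
      rintro v (hv | ⟨α, rfl⟩)
      · rw [mem_cst.mp (hk1c hv)]; exact zero_mem _
      · rw [ht]; split_ifs
        · exact one_mem _
        · exact zero_mem _) hu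
    have hc1 : ∀ u ∈ K1, u ∈ cst e → u ∈ k1 := fun u hu hu0 =>
      acl_le subset_rfl (mem_acl_of_cst e t ht hk1c hu hu0)
    have h2s : (k2 : Set F) ⊆ acl (insert s (K1 : Set F)) := acl_mono (by
      rw [coe_insert, Set.union_insert]
      exact Set.insert_subset_insert ((subset_acl _).trans h11))
    have hy1 : ∀ i, y i ∈ K1 := by
      by_cases hs : s ∈ acl (K1 : Set F)
      · intro i
        refine Subfield.closure_le.mpr (Set.union_subset h01 (h2s.trans ?_)) (hyS i)
        exact acl_le (Set.insert_subset (acl_le subset_rfl hs) subset_rfl)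
      have hadj : ∀ i, y i ∈ IntermediateField.adjoin K1 (k2 : Set F) := fun i =>
        (Subfield.closure_le (t := (IntermediateField.adjoin K1 (k2 : Set F)).toSubfield)).mpr
          (Set.union_subset (fun u hu => IntermediateField.algebraMap_mem _ (⟨u, h01 hu⟩ : K1))
            (IntermediateField.subset_adjoin _ _)) (hyS i)
      choose T hT1 hT2 using fun i => IntermediateField.exists_finset_of_mem_adjoin (hadj i)
      have := isAlgClosed_acl ((k1 : Set F) ∪ Set.range t)
      refine hM.height_zero j e t ht K1 hD1 (fun β => subset_acl _ (Or.inr ⟨β, rfl⟩))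
        (insert s (univ.biUnion T)) ?_ (mem_insert_self _ _) hs ?_ y hy fun i => ?_
      · intro u hu
        rcases mem_insert.mp hu with rfl | hu
        · exact hS.1
        · obtain ⟨i, -, hi⟩ := mem_biUnion.mp hu
          exact hk2c (hT1 i hi)
      · intro u hu
        rcases mem_insert.mp hu with rfl | hu
        · exact subset_acl _ (Or.inl rfl)
        · obtain ⟨i, -, hi⟩ := mem_biUnion.mp hu
          exact h2s (hT1 i hi)
      · refine IntermediateField.adjoin.mono _ _ _ ?_ (hT2 i)
        exact fun u hu => mem_insert_of_mem (mem_biUnion.mpr ⟨i, mem_univ _, hu⟩)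
    exact mem_closure_descent_cst e _ k1 K1 h01 h11 hD1 hc1 (hy1 i)
      (Subfield.closure_mono (Set.union_subset_union_right _ hk2c) (hyS i))

end Pool.Agent.P.MP_7ede32_ag
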