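import Pool.Agent.P.MP_7ede32_ag.HJet

/-! Finiteness of moving points. -/

open scoped WithZero IntermediateField
open Finset WithZero Filter MvPolynomial

namespace Pool.Agent.P.MP_7ede32_ag

variable {I K0 : Type} [Field K0] {d0 : Der K0} {P : MvPolynomial I K0}

theorem eval₂_hom {R R' : Type} [CommRing R] [CommRing R'] (φ : K0 →+* R) (ψ : R →+* R')
    (y : I → R) : ψ (eval₂ φ y P) = eval₂ (ψ.comp φ) (fun i => ψ (y i)) P :=
  eval₂_comp_left ψ φ y P

section

variable {F : Type} [Field F] [CharZero F]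

theorem DMach.height_zero (hM : DMach d0 P) (φ : K0 →+* F) (d : Der F)
    (hd0 : ∀ u, d.D (φ u) = φ (d0.D u)) (κ : Subfield F) [IsAlgClosed κ]
    (hκ : ∀ u ∈ κ, d.D u ∈ κ) (ha : ∀ u, φ u ∈ κ) (Γ : Finset F) (hΓ : ∀ u ∈ Γ, d.D u = 0)
    {s : F} (hs : s ∈ Γ) (hsκ : s ∉ acl (κ : Set F)) (hΓ' : (Γ : Set F) ⊆ acl (insert s (κ : Set F)))
    (y : I → F) (hy : eval₂ φ y P = 0) {i0 i1 : I} (hi0 : y i0 = 1) (hi1 : d.D (y i1) ≠ 0)
    (hyM : ∀ i, y i ∈ IntermediateField.adjoin κ (Γ : Set F)) (i : I) : y i ∈ κ := by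
  have hK := isCurveField_adjoin κ Γ hs hsκ hΓ'
  obtain ⟨d', hd'⟩ := d.exists_restrict_adjoin κ Γ hκ
    (fun u hu => by rw [hΓ u hu]; exact zero_mem _)
  have hgen : ∀ u, u ∈ Subfield.closure
      (Set.range (algebraMap κ (IntermediateField.adjoin κ (Γ : Set F))) ∪ d'.const) := by
    rintro ⟨u, hu⟩
    induction hu using IntermediateField.adjoin_induction with
    | mem u hu =>
      exact Subfield.subset_closure (Or.inr (Subtype.ext ((hd' _).trans (hΓ u hu))))
    | algebraMap c => exact Subfield.subset_closure (Or.inl ⟨c, rfl⟩)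
    | add u v _ _ a1 a2 => exact Subfield.add_mem _ a1 a2
    | inv u _ a1 => exact Subfield.inv_mem _ a1
    | mul u v _ _ a1 a2 => exact Subfield.mul_mem _ a1 a2
  let M := IntermediateField.adjoin κ (Γ : Set F)
  have hd : ∀ c : κ, ∃ c' : κ, d'.D (algebraMap κ M c) = algebraMap κ M c' := fun c =>
    ⟨⟨_, hκ _ c.2⟩, Subtype.ext (hd' _)⟩
  obtain ⟨𝒞, E, hloc⟩ := hM
  let y' : I → M := fun i => ⟨y i, hyM i⟩
  let φ' : K0 →+* M := (algebraMap κ M).comp (φ.codRestrict κ ha)
  obtain ⟨ψ, hψ, hw⟩ := hloc M φ' d' (fun u => Subtype.ext ((hd' _).trans (hd0 u))) y'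
    ((map_eq_zero (algebraMap M F)).mp ((eval₂_hom _ _ _).trans hy)) i0 i1 (Subtype.ext hi0)
    fun h => hi1 ((hd' (y' i1)).symm.trans (congrArg Subtype.val h))
  have hPB := hK.PB_of_local (fun _ => 0) ∅ (fun _ _ _ => rfl) (by simp) (u := y' i) hψ
    fun w hpl => by
      obtain ⟨π, hπ⟩ := hpl.1 (exp (-1))
      simpa using hw w π hπ 1 le_rfl
        (fun n hn => by simpa using hpl.2 n (Nat.cast_ne_zero.mpr hn))
        (fun c _ => hpl.const_le_one _) (hK.val_D_le_one d' hd hgen hpl) i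
  obtain ⟨c, hc⟩ := hK.const_of_PB (by simpa using hPB)
  have : y i = c := congrArg Subtype.val hc
  rw [this]; exact c.2

theorem DMach.rigid [Fintype I] [IsAlgClosed F] (hM : DMach d0 P) (φ : K0 →+* F) (d : Der F)
    (hd0 : ∀ u, d.D (φ u) = φ (d0.D u)) (k0 : Set F)
    (hk0 : k0 ⊆ d.const) {t : F} (ht0 : d.D t ≠ 0) (ht : d.D t ∈ acl (insert t k0))
    (ha : ∀ u, φ u ∈ acl (insert t k0)) (y : I → F) (hy : eval₂ φ y P = 0) {i0 i1 : I}
    (hi0 : y i0 = 1) (hi1 : d.D (y i1) ≠ 0) (S : Finset F) (hS : (S : Set F) ⊆ d.const)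
    (hyS : ∀ i, y i ∈ Subfield.closure ((acl (insert t k0) : Set F) ∪ acl (k0 ∪ S))) :
    ∀ i, y i ∈ acl (insert t k0) := by
  classical
  induction S using Finset.induction_on with
  | empty =>
    refine fun i => Subfield.closure_le.mpr (Set.union_subset subset_rfl ?_) (hyS i)
    exact acl_mono (by simp)
  | insert s S _ ih =>
    rw [coe_insert, Set.insert_subset_iff] at hS
    refine ih hS.2 fun i => ?_
    set k1 := acl (k0 ∪ (S : Set F)) with hk1
    set K1 := acl (insert t (k1 : Set F)) with hK1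
    set k2 := acl (k0 ∪ (insert s S : Finset F)) with hk2
    have hk1c : k1 ≤ d.const := d.acl_le_const (Set.union_subset hk0 hS.2)
    have hk2c : k2 ≤ d.const := d.acl_le_const (Set.union_subset hk0
      (by rw [coe_insert]; exact Set.insert_subset hS.1 hS.2))
    have h01 : acl (insert t k0) ≤ K1 := acl_mono (Set.insert_subset_insert
      (Set.subset_union_left.trans (subset_acl _)))
    have h11 : k1 ≤ K1 := fun u hu => subset_acl _ (Or.inr hu)
    have hD1 : ∀ u ∈ K1, d.D u ∈ K1 := fun u hu => d.D_mem_acl (by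
      rintro v (rfl | hv)
      · exact h01 ht
      · rw [hk1c hv]; exact zero_mem _) hu
    have hc1 : ∀ u ∈ K1, d.D u = 0 → u ∈ k1 := by
      intro u hu hu0
      by_contra hne
      have h1 : u ∉ acl (k1 : Set F) := fun h => hne (acl_le subset_rfl h)
      exact ht0 (d.acl_le_const (Set.insert_subset hu0 hk1c) (acl_exchange hu h1))
    have h2s : (k2 : Set F) ⊆ acl (insert s (K1 : Set F)) := acl_mono (by
      rw [coe_insert, Set.union_insert]
      exact Set.insert_subset_insert ((subset_acl _).trans h11))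
    have hy1 : ∀ i, y i ∈ K1 := by
      by_cases hs : s ∈ acl (K1 : Set F)
      · intro i
        refine Subfield.closure_le.mpr (Set.union_subset h01 (h2s.trans ?_)) (hyS i)
        exact acl_le (Set.insert_subset (acl_le subset_rfl hs) subset_rfl)
      have hadj : ∀ i, y i ∈ IntermediateField.adjoin K1 (k2 : Set F) := fun i =>
        (Subfield.closure_le (t := (IntermediateField.adjoin K1 (k2 : Set F)).toSubfield)).mpr
          (Set.union_subset (fun u hu => IntermediateField.algebraMap_mem _ (⟨u, h01 hu⟩ : K1))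
            (IntermediateField.subset_adjoin _ _)) (hyS i)
      choose T hT1 hT2 using fun i => IntermediateField.exists_finset_of_mem_adjoin (hadj i)
      have := isAlgClosed_acl (insert t (k1 : Set F))
      refine hM.height_zero φ d hd0 K1 hD1 (fun u => h01 (ha u)) (insert s (univ.biUnion T))
        ?_ (mem_insert_self _ _) hs ?_ y hy hi0 hi1 fun i => ?_
      · intro u hu
        rcases mem_insert.mp hu with rfl | hu
        · exact hS.1
        · obtain ⟨i, -, hi⟩ := mem_biUnion.mp hu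
          exact hk2c (hT1 i hi)
      · intro u hu
        rcases mem_insert.mp hu with rfl | hu
        · exact subset_acl _ (Or.inl rfl)
        · obtain ⟨i, -, hi⟩ := mem_biUnion.mp hu
          exact h2s (hT1 i hi)
      · refine IntermediateField.adjoin.mono _ _ _ ?_ (hT2 i)
        exact fun u hu => mem_insert_of_mem (mem_biUnion.mpr ⟨i, mem_univ _, hu⟩)
    exact d.mem_closure_descent _ k1 K1 h01 h11 hD1 hc1 (hy1 i)
      (Subfield.closure_mono (Set.union_subset_union_right _ hk2c) (hyS i))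

end

section

variable {κ K : Type} [Field κ] [IsAlgClosed κ] [CharZero κ] [Field K] [CharZero K] [Algebra κ K]

theorem DMach.exists_height (hM : DMach d0 P) (hK : FF.IsCurveField κ K) (φ : K0 →+* K) (d : Der K)
    (hd0 : ∀ u, d.D (φ u) = φ (d0.D u)) (hd : ∀ c, d.D (algebraMap κ K c) = 0) :
    ∃ H, ∀ y : I → K, eval₂ φ y P = 0 → ∀ i0 i1, y i0 = 1 → d.D (y i1) ≠ 0 →
      ∀ i, FF.PB κ (y i) H := by
  classical
  obtain ⟨𝒞, E, hloc⟩ := hM
  obtain ⟨𝒟, hD⟩ := hK.exists_bound d fun c => ⟨0, by rw [hd, map_zero]⟩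
  obtain ⟨h, S0, h1, h2, h3⟩ := hK.exists_fun (𝒞.image φ ∪ 𝒟)
  refine ⟨∑ w ∈ S0, E * h w, fun y hy i0 i1 hi0 hi1 i => ?_⟩
  obtain ⟨ψ, hψ, hw⟩ := hloc K φ d hd0 y hy i0 i1 hi0 hi1
  refine hK.PB_of_local (fun w => E * h w) S0 (fun w hw hn => by rw [h1 w hw hn, mul_zero]) h2 hψ
    fun w hpl => ?_
  obtain ⟨π, hπ⟩ := hpl.1 (exp (-1))
  have hg : (1 : ℤᵐ⁰) ≤ exp (h w : ℤ) := by rw [← exp_zero, exp_le_exp]; omega
  have := hw w π hπ _ hg (fun n hn => by simpa using hpl.2 n (Nat.cast_ne_zero.mpr hn))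
    (fun c hc => h3 w _ (mem_union_left _ (mem_image_of_mem _ hc)))
    (hD w hpl _ hg fun c hc => h3 w c (mem_union_right _ hc)) i
  rwa [← exp_nsmul, nsmul_eq_mul, ← Nat.cast_mul] at this

theorem DMach.finite_curve [Fintype I] (hM : DMach d0 P) (hK : FF.IsCurveField κ K) (φ : K0 →+* K)
    (d : Der K) (hd0 : ∀ u, d.D (φ u) = φ (d0.D u)) (hd : ∀ c, d.D (algebraMap κ K c) = 0)
    (i0 i1 : I) : {y : I → K | y i0 = 1 ∧ d.D (y i1) ≠ 0 ∧ eval₂ φ y P = 0}.Finite := by
  classical
  obtain ⟨H, hH⟩ := hM.exists_height hK φ d hd0 hd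
  obtain ⟨𝓔, h𝓔⟩ := hK.exists_param H
  obtain ⟨t, -, hfin⟩ := id hK
  have hall : ∀ u : K, u ∈ acl (insert t (Set.range (algebraMap κ K))) := by
    intro u
    refine mem_acl_of_isAlgebraic (R := κ⟮t⟯) (RingHom.injective _) (fun r => ?_)
      (Algebra.IsAlgebraic.isAlgebraic u)
    have : κ⟮t⟯ ≤ (acl (insert t (Set.range (algebraMap κ K)))).toIntermediateField
        (fun c => subset_acl _ (Or.inr ⟨c, rfl⟩)) := by
      rw [IntermediateField.adjoin_simple_le_iff]; exact subset_acl _ (Or.inl rfl)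
    exact this r.2
  by_contra hinf
  let ys := Set.Infinite.natEmbedding _ hinf
  have ht0 : d.D t ≠ 0 := fun h => (ys 0).2.2.1
    (d.acl_le_const (Set.insert_subset h (by rintro _ ⟨c, rfl⟩; exact hd c)) (hall _))
  choose v hv b hb hb0 hvb using fun r i =>
    h𝓔 _ (hH _ (ys r).2.2.2 i0 i1 (ys r).2.1 (ys r).2.2.1 i)
  choose cv _ hcv using fun r i => Submodule.mem_span_finset.mp (hv r i)
  choose cb _ hcb using fun r i => Submodule.mem_span_finset.mp (hb r i)
  obtain ⟨F, _, _, _, Φ, d', hΦ, hΦ0⟩ := exists_ultra d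
  let ι : K →+* F := Φ.comp (Pi.constRingHom ℕ K)
  have hι : ∀ u, d'.D (ι u) = ι (d.D u) := fun u => hΦ _
  have hK0 : ∀ u, ι u ∈ acl (insert (ι t) (ι '' Set.range (algebraMap κ K))) := fun u => by
    rw [← Set.image_insert_eq]; exact acl_map ι (hall u)
  let co : (ℕ → κ) → F := fun c => Φ fun r => algebraMap κ K (c r)
  let S : Finset F := (univ ×ˢ 𝓔).image (fun p : I × K => co fun r => cv r p.1 p.2) ∪
    (univ ×ˢ 𝓔).image (fun p : I × K => co fun r => cb r p.1 p.2)
  have hco : ∀ c, d'.D (co c) = 0 := fun c => by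
    simp only [co, hΦ, hd]; exact map_zero Φ
  have hsum : ∀ (c : ℕ → K → κ), (∀ e ∈ 𝓔, co (fun r => c r e) ∈ S) →
      Φ (fun r => ∑ e ∈ 𝓔, c r e • e) ∈ Subfield.closure
        ((acl (insert (ι t) (ι '' Set.range (algebraMap κ K))) : Set F) ∪
          acl (ι '' Set.range (algebraMap κ K) ∪ S)) := by
    intro c hc
    have : (fun r => ∑ e ∈ 𝓔, c r e • e) =
        ∑ e ∈ 𝓔, (fun r => algebraMap κ K (c r e)) * Pi.constRingHom ℕ K e := by
      funext r; simp [Algebra.smul_def]
    rw [this, map_sum]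
    refine Subfield.sum_mem _ fun e he => ?_
    rw [map_mul]
    exact Subfield.mul_mem _ (Subfield.subset_closure (Or.inr (subset_acl _ (Or.inr (hc e he)))))
      (Subfield.subset_closure (Or.inl (hK0 e)))
  have key := hM.rigid (ι.comp φ) d' (fun u => (hι _).trans (congrArg ι (hd0 u)))
    (ι '' Set.range (algebraMap κ K))
    (by rintro _ ⟨_, ⟨c, rfl⟩, rfl⟩; exact (hι _).trans (by rw [hd, map_zero]))
    (t := ι t) (by rw [hι]; exact (map_ne_zero ι).mpr ht0) (by rw [hι]; exact hK0 _)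
    (fun u => hK0 _) (fun i => Φ fun r => (ys r).1 i)
    (by
      have : eval₂ ((Pi.constRingHom ℕ K).comp φ) (fun i r => (ys r).1 i) P = 0 :=
        _root_.funext fun r => (eval₂_hom _ (Pi.evalRingHom (fun _ => K) r) _).trans (ys r).2.2.2
      exact (eval₂_hom _ Φ _).symm.trans (by rw [this, map_zero]))
    (i0 := i0) (i1 := i1) (by rw [← map_one Φ]; exact congrArg Φ (_root_.funext fun r => (ys r).2.1))
    (by
      rw [hΦ]
      intro h
      obtain ⟨r, hr⟩ := (hΦ0 _ h).exists
      exact (ys r).2.2.1 hr) S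
    (by
      intro u hu
      rcases mem_union.mp hu with hu | hu <;> obtain ⟨p, -, rfl⟩ := mem_image.mp hu <;>
        exact hco _)
    (fun i => by
      have h1 : Φ (fun r => b r i) ≠ 0 := fun h => by
        obtain ⟨r, hr⟩ := (hΦ0 _ h).exists
        exact hb0 r i hr
      have h2 : Φ (fun r => (ys r).1 i) = Φ (fun r => v r i) / Φ (fun r => b r i) := by
        rw [eq_div_iff h1, ← map_mul]
        exact congrArg Φ (_root_.funext fun r => hvb r i)
      rw [h2]
      simp only [← hcv, ← hcb]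
      exact Subfield.div_mem _
        (hsum _ fun e he => mem_union_left _ (mem_image.mpr ⟨(i, e), by simp [he], rfl⟩))
        (hsum _ fun e he => mem_union_right _ (mem_image.mpr ⟨(i, e), by simp [he], rfl⟩)))
  let _ : Algebra K F := ι.toAlgebra
  choose p hp0 hp using fun i => isAlgebraic_of_mem_acl K (by
    rw [← Set.image_insert_eq]; exact Set.image_subset_range _ _) (key i)
  have hev : ∀ i, ∀ᶠ r in (hyperfilter ℕ : Filter ℕ), (p i).eval ((ys r).1 i) = 0 := by
    intro i
    refine hΦ0 _ ?_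
    have e : (fun r => (p i).eval ((ys r).1 i)) =
        (p i).eval₂ (Pi.constRingHom ℕ K) fun r => (ys r).1 i := by
      funext r
      exact (Polynomial.hom_eval₂ (p i) (Pi.constRingHom ℕ K) (Pi.evalRingHom (fun _ => K) r)
        fun r => (ys r).1 i).symm
    rw [e, Polynomial.hom_eval₂]
    exact hp i
  have hfin' : {r | ∀ i, (p i).eval ((ys r).1 i) = 0}.Finite := by
    have h1 : {y : I → K | ∀ i, y i ∈ {u | (p i).IsRoot u}}.Finite :=
      Set.Finite.pi' fun i => Polynomial.finite_setOfPred_isRoot (hp0 i)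
    exact h1.preimage (f := fun r => (ys r).1)
      (Subtype.val_injective.comp ys.injective).injOn
  exact hfin'.notMem_hyperfilter (eventually_all.mpr hev)

end

variable {k K : Type} [Field k] [Field K] [CharZero K] [Algebra k K] [Algebra.EssFiniteType k K]

theorem DMach.finite_fg [Fintype I] (hM : DMach d0 P) (φ0 : K0 →+* K) (d1 : Der K)
    (hd0 : ∀ u, d1.D (φ0 u) = φ0 (d0.D u)) (hd1 : ∀ c, d1.D (algebraMap k K c) = 0) {t : K}
    (ht : d1.D t ≠ 0) (hall : ∀ u, u ∈ acl (insert t (d1.const : Set K))) (i0 i1 : I) :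
    {y : I → K | y i0 = 1 ∧ d1.D (y i1) ≠ 0 ∧ eval₂ φ0 y P = 0}.Finite := by
  classical
  let F := AlgebraicClosure K
  obtain ⟨d2, hd2⟩ := d1.exists_extend (L := F)
  let φ := algebraMap K F
  let κ := d2.const
  have hκ : acl (κ : Set F) = κ := le_antisymm (d2.acl_le_const subset_rfl) (subset_acl _)
  have : IsAlgClosed κ := hκ ▸ isAlgClosed_acl _
  obtain ⟨Γ0, hΓ0⟩ := IntermediateField.fg_top k K
  let Γ : Finset F := (insert t Γ0).image φ
  have hφκ : ∀ u ∈ d1.const, φ u ∈ κ := fun u hu => (hd2 u).trans (by rw [hu, map_zero])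
  have hK := isCurveField_adjoin κ Γ (s := φ t) (mem_image_of_mem _ (mem_insert_self _ _))
    (by rw [hκ]; exact fun h => ht ((map_eq_zero φ).mp ((hd2 t).symm.trans h)))
    (by
      intro y hy
      obtain ⟨u, -, rfl⟩ := mem_image.mp hy
      refine acl_mono ?_ (acl_map φ (hall u))
      rw [Set.image_insert_eq]
      exact Set.insert_subset_insert (by rintro _ ⟨w, hw, rfl⟩; exact hφκ w hw))
  let M := IntermediateField.adjoin κ (Γ : Set F)
  have hφM : ∀ u, φ u ∈ M := by
    intro u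
    have hu : u ∈ IntermediateField.adjoin k (Γ0 : Set K) := hΓ0 ▸ IntermediateField.mem_top
    induction hu using IntermediateField.adjoin_induction with
    | mem u hu =>
      exact IntermediateField.subset_adjoin _ _ (mem_image_of_mem _ (mem_insert_of_mem hu))
    | algebraMap c => exact M.algebraMap_mem ⟨_, hφκ _ (hd1 c)⟩
    | add u v _ _ a1 a2 => rw [map_add]; exact add_mem a1 a2
    | inv u _ a1 => rw [map_inv₀]; exact inv_mem a1
    | mul u v _ _ a1 a2 => rw [map_mul]; exact mul_mem a1 a2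
  obtain ⟨d3, hd3⟩ := d2.exists_restrict_adjoin κ Γ
    (fun u hu => by rw [d2.mem_const.mp hu]; exact zero_mem _) (fun y hy => by
      obtain ⟨u, -, rfl⟩ := mem_image.mp hy
      rw [hd2]; exact hφM _)
  let ψ : K →+* M := φ.codRestrict M hφM
  have hψ : ∀ u, d3.D (ψ u) = ψ (d1.D u) := fun u => Subtype.ext ((hd3 _).trans (hd2 u))
  have hfin := hM.finite_curve hK (ψ.comp φ0) d3 (fun u => (hψ _).trans (congrArg ψ (hd0 u)))
    (fun c => Subtype.ext ((hd3 _).trans c.2)) i0 i1
  refine (hfin.preimage (f := fun (y : I → K) i => ψ (y i))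
    (fun y _ y' _ h => _root_.funext fun i => ψ.injective (congrFun h i))).subset ?_
  rintro y ⟨h1, h2, h3⟩
  exact ⟨by simp [h1], by rw [hψ]; exact (map_ne_zero ψ).mpr h2,
    (eval₂_hom _ ψ _).symm.trans (by rw [h3, map_zero])⟩

theorem mem_acl_of_basis {k K ι : Type} [Field k] [Field K] [CharZero K] [Algebra k K] {x : ι → K}
    (hx : IsTranscendenceBasis k x) (u : K) :
    u ∈ acl (Set.range (algebraMap k K) ∪ Set.range x) := by
  refine mem_acl_of_isAlgebraic (R := Algebra.adjoin k (Set.range x)) Subtype.val_injective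
    (fun r => ?_) (hx.isAlgebraic.isAlgebraic u)
  have : Algebra.adjoin k (Set.range x) ≤
      ((acl (Set.range (algebraMap k K) ∪ Set.range x)).toIntermediateField
        (fun c => subset_acl _ (Or.inl ⟨c, rfl⟩))).toSubalgebra := by
    rw [Algebra.adjoin_le_iff]; exact fun y hy => subset_acl _ (Or.inr hy)
  exact this r.2

theorem finite_moving {k K L : Type} [Field k] [CharZero k] [Field K] [Field L] [Algebra k K]
    [Algebra K L] [Algebra k L] [IsScalarTower k K L] [Algebra.EssFiniteType k L] [Fintype I]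
    {F : MvPolynomial I K} (h : ∀ d : Der K, (∀ c, d.D (algebraMap k K c) = 0) → DMach d F)
    (i0 : I) : {y : I → L | y i0 = 1 ∧ aeval y F = 0 ∧ ∃ i, Transcendental k (y i)}.Finite := by
  classical
  have : CharZero K := charZero_of_injective_algebraMap (algebraMap k K).injective
  have : CharZero L := charZero_of_injective_algebraMap (algebraMap k L).injective
  let φ := algebraMap K L
  obtain ⟨s0, hs0⟩ := exists_isTranscendenceBasis k K
  obtain ⟨s, hs1, hs⟩ := exists_isTranscendenceBasis_superset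
    (hs0.1.map' (f := IsScalarTower.toAlgHom k K L) φ.injective).to_subtype_range
  have : Finite s := finite_of_isTranscendenceBasis hs
  let _ : Fintype s := Fintype.ofFinite s
  have hall := mem_acl_of_basis hs
  choose e he1 he2 using exists_dual_der _ hs.1 hall
  have hres : ∀ β, ∃ d : Der K, ∀ u, φ (d.D u) = (e β).D (φ u) := fun β =>
    (e β).exists_restrict φ fun u => by
      let S := φ '' (Set.range (algebraMap k K) ∪ Set.range ((↑) : s0 → K))
      have h1 : Subfield.closure S ≤ φ.fieldRange :=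
        Subfield.closure_le.mpr (Set.image_subset_range _ _)
      obtain ⟨v, hv⟩ := (e β).D_mem_of_algebraic (Subfield.closure S) φ.fieldRange h1
        (fun v hv => h1 ((e β).D_mem_closure (by
          rintro _ ⟨_, ⟨c, rfl⟩ | ⟨x, rfl⟩, rfl⟩
          · rw [← IsScalarTower.algebraMap_apply, he1]; exact zero_mem _
          · rw [show (e β).D (φ x) = _ from he2 β ⟨_, hs1 ⟨x, rfl⟩⟩]
            split_ifs
            exacts [one_mem _, zero_mem _]) hv))
        (isAlgebraic_of_mem_acl _ (fun y hy => ⟨⟨y, Subfield.subset_closure hy⟩, rfl⟩)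
          (acl_map φ (mem_acl_of_basis hs0 u))) ⟨u, rfl⟩
      exact ⟨v, hv.symm⟩
  choose d hd using hres
  refine (Set.finite_iUnion fun β => Set.finite_iUnion fun i1 => (h (d β) fun c =>
    φ.injective (by rw [hd, ← IsScalarTower.algebraMap_apply, he1, map_zero])).finite_fg φ (e β)
      (fun u => (hd β u).symm) (he1 β) (t := β) (by simp [he2]) (fun u => acl_mono ?_ (hall u))
      i0 i1).subset ?_
  · rintro _ (⟨c, rfl⟩ | ⟨γ, rfl⟩)
    · exact Or.inr (he1 β c)
    · by_cases hγ : γ = β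
      · exact Or.inl (by rw [hγ])
      · exact Or.inr ((he2 β γ).trans (if_neg hγ))
  · rintro y ⟨h1, h2, i, h3⟩
    by_contra hne
    simp only [Set.mem_iUnion, not_exists] at hne
    refine h3 (isAlgebraic_of_mem_acl k subset_rfl (mem_acl_of_cst e _ he2 ?_ (hall _)
      (mem_cst.mpr fun β => by_contra fun h4 => hne β i ⟨h1, h4, h2⟩)))
    rintro _ ⟨c, rfl⟩
    exact mem_cst.mpr fun β => he1 β c

end Pool.Agent.P.MP_7ede32_ag
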