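import Pool.Agent.P.MP_7ede32_ag.HNull

/-! Bigraded Hilbert functions: additivity, dévissage and specialisation. -/

open Finset MvPolynomial Module
open scoped Polynomial

namespace Pool.Agent.P.MP_7ede32_ag

/-- bidegrees -/
def bd (a M : ℕ) : ℕ ×ₗ ℕ := toLex (a, M)

theorem bd_add (a M a' M' : ℕ) : bd a M + bd a' M' = bd (a + a') (M + M') := rfl

theorem smul_bd (n a M : ℕ) : n • bd a M = bd (n * a) (n * M) := rfl

theorem bd_inj {a M a' M' : ℕ} : bd a M = bd a' M' ↔ a = a' ∧ M = M' := Prod.mk_inj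

/-- the bidegrees of the variables -/
def wt (σ P : Type) : σ ⊕ P → ℕ ×ₗ ℕ := Sum.elim (fun _ => bd 1 0) fun _ => bd 0 1

/-- bihomogeneous polynomials -/
abbrev VV (σ P R : Type) [CommRing R] : ℕ ×ₗ ℕ → Submodule R (MvPolynomial (σ ⊕ P) R) :=
  weightedHomogeneousSubmodule R (wt σ P)

variable {σ P : Type} [Fintype σ] [Fintype P]

theorem weight_wt (μ : σ ⊕ P →₀ ℕ) :
    Finsupp.weight (wt σ P) μ = bd (∑ j, μ (Sum.inl j)) (∑ f, μ (Sum.inr f)) := by
  have : ∀ (ι : Type) (s : Finset ι) (a M : ι → ℕ),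
      ∑ i ∈ s, bd (a i) (M i) = bd (∑ i ∈ s, a i) (∑ i ∈ s, M i) := fun ι s a M => by
    classical
    induction s using Finset.induction_on with
    | empty => rfl
    | insert i s hi ih => rw [sum_insert hi, sum_insert hi, sum_insert hi, ih, bd_add]
  simp only [Finsupp.weight_eq_sum, wt, smul_bd, this, bd_add, Fintype.sum_sum_type, Sum.elim_inl,
    Sum.elim_inr, mul_one, mul_zero, sum_const_zero, add_zero, zero_add]

theorem exists_monos (σ P : Type) [Fintype σ] [Fintype P] (a M : ℕ) : ∃ T : Finset (σ ⊕ P →₀ ℕ),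
    (∀ μ, μ ∈ T ↔ Finsupp.weight (wt σ P) μ = bd a M) ∧
      T.card ≤ (a + 1) ^ Fintype.card σ * (M + 1) ^ Fintype.card P := by
  classical
  let t : σ ⊕ P →₀ ℕ := Finsupp.equivFunOnFinite.symm (Sum.elim (fun _ => a) fun _ => M)
  refine ⟨(Iic t).filter fun μ => Finsupp.weight (wt σ P) μ = bd a M, fun μ => ?_, ?_⟩
  · rw [mem_filter, mem_Iic, and_iff_right_iff_imp, weight_wt, bd_inj]
    rintro ⟨h1, h2⟩ (j | f)
    · exact (single_le_sum (f := fun j => μ (Sum.inl j)) (fun _ _ => Nat.zero_le _)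
        (mem_univ j)).trans h1.le
    · exact (single_le_sum (f := fun f => μ (Sum.inr f)) (fun _ _ => Nat.zero_le _)
        (mem_univ f)).trans h2.le
  · refine (card_filter_le _ _).trans ?_
    rw [Finsupp.card_Iic]
    refine (prod_le_prod_of_subset_of_one_le' (subset_univ _) fun i _ _ => by simp).trans ?_
    simp [t]

section ring

variable {R : Type} [CommRing R]

omit [Fintype σ] [Fintype P] in
theorem VV_eq_span (d : ℕ ×ₗ ℕ) : VV σ P R d = Submodule.span R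
    ((fun μ => monomial μ (1 : R)) '' {μ | Finsupp.weight (wt σ P) μ = d}) := by
  refine le_antisymm (fun f hf => ?_) (Submodule.span_le.mpr ?_)
  · rw [f.as_sum]
    refine Submodule.sum_mem _ fun μ hμ => ?_
    rw [← mul_one (coeff μ f), ← smul_eq_mul, ← smul_monomial]
    exact Submodule.smul_mem _ _ (Submodule.subset_span ⟨μ, hf (mem_support_iff.mp hμ), rfl⟩)
  · rintro _ ⟨μ, h, rfl⟩
    exact isWeightedHomogeneous_monomial _ _ _ h

instance finite_VV (d : ℕ ×ₗ ℕ) : Module.Finite R (VV σ P R d) := by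
  obtain ⟨T, hT, -⟩ := exists_monos σ P (ofLex d).1 (ofLex d).2
  rw [VV_eq_span]
  exact Module.Finite.span_of_finite R ((T.finite_toSet.subset fun μ h => (hT μ).mpr h).image _)

omit [Fintype σ] [Fintype P] in
theorem map_mem_VV {R' : Type} [CommRing R'] (φ : R →+* R') {d : ℕ ×ₗ ℕ}
    {f : MvPolynomial (σ ⊕ P) R} (hf : f ∈ VV σ P R d) : map φ f ∈ VV σ P R' d := fun μ h =>
  hf fun h0 => h (by rw [coeff_map, h0, map_zero])

/-- values of bihomogeneous polynomials -/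
noncomputable abbrev Val (R : Type) [CommRing R] {Ω : Type} [CommRing Ω] [Algebra R Ω]
    (z : σ ⊕ P → Ω) (d : ℕ ×ₗ ℕ) : Submodule R Ω := (VV σ P R d).map (aeval z).toLinearMap

omit [Fintype σ] [Fintype P] in
theorem graded_Val {Ω : Type} [CommRing Ω] [Algebra R Ω] (z : σ ⊕ P → Ω) :
    SetLike.GradedMonoid (Val R z) where
  one_mem := ⟨1, isWeightedHomogeneous_one _ _, map_one (aeval z)⟩
  mul_mem := by
    rintro a b _ _ ⟨f, hf, rfl⟩ ⟨g, hg, rfl⟩
    exact ⟨f * g, IsWeightedHomogeneous.mul hf hg, map_mul (aeval z) f g⟩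

omit [Fintype σ] [Fintype P] in
theorem mem_Val {Ω : Type} [CommRing Ω] [Algebra R Ω] (z : σ ⊕ P → Ω) (v : σ ⊕ P) :
    z v ∈ Val R z (wt σ P v) := ⟨X v, isWeightedHomogeneous_X _ _ _, aeval_X _ _⟩

omit [Fintype σ] [Fintype P] in
theorem exists_generic (I : Ideal (MvPolynomial (σ ⊕ P) R)) [I.IsPrime] :
    ∃ (Ω : Type) (_ : Field Ω) (_ : IsAlgClosed Ω) (χ : R →+* Ω) (z : σ ⊕ P → Ω),
      ∀ f, eval₂ χ z f = 0 ↔ f ∈ I := by
  let Ω := AlgebraicClosure (FractionRing (MvPolynomial (σ ⊕ P) R ⧸ I))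
  let φ : MvPolynomial (σ ⊕ P) R →+* Ω := ((algebraMap _ Ω).comp (algebraMap _
    (FractionRing (MvPolynomial (σ ⊕ P) R ⧸ I)))).comp (Ideal.Quotient.mk I)
  refine ⟨Ω, inferInstance, inferInstance, φ.comp C, fun v => φ (X v), fun f => ?_⟩
  rw [show eval₂ (φ.comp C) (fun v => φ (X v)) f = φ f by
    rw [← coe_eval₂Hom]; congr 1; ext <;> simp]
  simp only [φ, RingHom.comp_apply, map_eq_zero, IsFractionRing.to_map_eq_zero_iff,
    Ideal.Quotient.eq_zero_iff_mem]

end ring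

/-- the colon ideal -/
def col {S : Type} [CommRing S] (I : Ideal S) (f : S) : Ideal S :=
  Submodule.comap (LinearMap.mulLeft S f) I

theorem mem_col {S : Type} [CommRing S] {I : Ideal S} {f g : S} : g ∈ col I f ↔ f * g ∈ I := Iff.rfl

theorem ideal_ind {S : Type} [CommRing S] [IsNoetherianRing S] {p : Ideal S → Prop}
    (h : ∀ I, (∀ J, I < J → p J) → p I) (I : Ideal S) : p I := IsNoetherian.induction h I

theorem finrank_map_add {E S Q : Type} [Field E] [AddCommGroup S] [Module E S] [AddCommGroup Q]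
    [Module E Q] (φ : S →ₗ[E] Q) (W : Submodule E S) [Module.Finite E W] :
    finrank E (W.map φ) + finrank E (W ⊓ LinearMap.ker φ : Submodule E S) = finrank E W := by
  rw [← (φ.domRestrict W).finrank_range_add_finrank_ker, LinearMap.range_domRestrict,
    LinearMap.ker_domRestrict, ← Submodule.finrank_map_subtype_eq W, Submodule.map_comap_subtype]

variable {E : Type} [Field E]

/-- the Hilbert function -/
noncomputable def HF (I : Ideal (MvPolynomial (σ ⊕ P) E)) (d : ℕ ×ₗ ℕ) : ℕ :=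
  finrank E ((VV σ P E d).map (Ideal.Quotient.mkₐ E I).toLinearMap)

theorem HF_add (I : Ideal (MvPolynomial (σ ⊕ P) E)) (d : ℕ ×ₗ ℕ) :
    HF I d + finrank E (VV σ P E d ⊓ I.restrictScalars E : Submodule E _) =
      finrank E (VV σ P E d) := by
  rw [← finrank_map_add (Ideal.Quotient.mkₐ E I).toLinearMap (VV σ P E d), HF,
    show LinearMap.ker (Ideal.Quotient.mkₐ E I).toLinearMap = I.restrictScalars E from
      Submodule.ext fun f => Ideal.Quotient.eq_zero_iff_mem]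

theorem HF_le (I : Ideal (MvPolynomial (σ ⊕ P) E)) (a M : ℕ) :
    HF I (bd a M) ≤ (a + 1) ^ Fintype.card σ * (M + 1) ^ Fintype.card P := by
  classical
  obtain ⟨T, hT, h⟩ := exists_monos σ P a M
  refine (Submodule.finrank_map_le _ _).trans (le_trans ?_
    ((card_image_le (f := fun μ => monomial μ (1 : E))).trans h))
  rw [VV_eq_span, show {μ | Finsupp.weight (wt σ P) μ = bd a M} = (T : Set (σ ⊕ P →₀ ℕ)) from
    Set.ext fun μ => (hT μ).symm, ← coe_image]
  exact finrank_span_finset_le_card _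

attribute [local instance] MvPolynomial.weightedGradedAlgebra

theorem HF_exact {I : Ideal (MvPolynomial (σ ⊕ P) E)} (hI : I.IsHomogeneous (VV σ P E))
    {f : MvPolynomial (σ ⊕ P) E} {e : ℕ ×ₗ ℕ} (hf : f ∈ VV σ P E e) (h0 : f ≠ 0) (d : ℕ ×ₗ ℕ) :
    HF I (e + d) = HF (col I f) d + HF (I ⊔ Ideal.span {f}) (e + d) := by
  let L := LinearMap.mulLeft E f
  have hL : Function.Injective L := mul_right_injective₀ h0
  have h1 : (VV σ P E (e + d) ⊓ (I ⊔ Ideal.span {f}).restrictScalars E : Submodule E _) =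
      (VV σ P E (e + d) ⊓ I.restrictScalars E) ⊔ (VV σ P E d).map L := by
    refine le_antisymm ?_ (sup_le (inf_le_inf_left _ fun g hg => Ideal.mem_sup_left hg) ?_)
    · rintro g ⟨hg1, hg2⟩
      obtain ⟨u, hu, _, hv, rfl⟩ := Submodule.mem_sup.mp hg2
      obtain ⟨v, rfl⟩ := Ideal.mem_span_singleton.mp hv
      rw [← DirectSum.decompose_of_mem_same (VV σ P E) hg1, DirectSum.decompose_add,
        DirectSum.add_apply, Submodule.coe_add, DirectSum.coe_decompose_mul_add_of_left_mem _ hf]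
      exact Submodule.add_mem_sup ⟨Subtype.property _, hI _ hu⟩ ⟨_, Subtype.property _, rfl⟩
    · rintro _ ⟨g, hg, rfl⟩
      exact ⟨IsWeightedHomogeneous.mul hf hg,
        Ideal.mem_sup_right (Ideal.mem_span_singleton.mpr (dvd_mul_right _ _))⟩
  have h2 : (VV σ P E (e + d) ⊓ I.restrictScalars E) ⊓ (VV σ P E d).map L =
      (VV σ P E d ⊓ (col I f).restrictScalars E : Submodule E _).map L := by
    refine le_antisymm ?_ ?_
    · rintro _ ⟨⟨-, h1⟩, g, hg, rfl⟩
      exact ⟨g, ⟨hg, h1⟩, rfl⟩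
    · rintro _ ⟨g, ⟨hg, h1⟩, rfl⟩
      exact ⟨⟨IsWeightedHomogeneous.mul hf hg, h1⟩, g, hg, rfl⟩
  have h3 := Submodule.finrank_sup_add_finrank_inf_eq (VV σ P E (e + d) ⊓ I.restrictScalars E)
    ((VV σ P E d).map L)
  rw [← h1, h2, ← (Submodule.equivMapOfInjective L hL _).finrank_eq,
    ← (Submodule.equivMapOfInjective L hL _).finrank_eq] at h3
  have h4 := HF_add I (e + d)
  have h5 := HF_add (col I f) d
  have h6 := HF_add (I ⊔ Ideal.span {f}) (e + d)
  omega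

theorem HF_prime {Ω : Type} [Field Ω] [Algebra E Ω] (z : σ ⊕ P → Ω) {b m : ℕ}
    (H : (∃ i, z (Sum.inl i) ≠ 0) → (∃ f, z (Sum.inr f) ≠ 0) →
      ∃ s : Ω, s ≠ 0 ∧ ∃ N, ∀ i, s * z (Sum.inl i) ^ (N + b) ∈ Val E z (bd N m)) :
    ∃ a0 M0, ∀ a M, a0 ≤ a → M0 ≤ M →
      finrank E (Val E z (bd (a + b) M)) ≤ finrank E (Val E z (bd a (M + m))) := by
  classical
  have hz : ∀ a M (s : Ω) (W : Submodule E Ω), (∀ μ : σ ⊕ P →₀ ℕ, ∑ j, μ (Sum.inl j) = a →
      ∑ f, μ (Sum.inr f) = M → s * aeval z (monomial μ (1 : E)) ∈ W) →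
      (Val E z (bd a M)).map (LinearMap.mulLeft E s) ≤ W := by
    intro a M s W h
    rw [Val, VV_eq_span, Submodule.map_span, Submodule.map_span, Submodule.span_le]
    rintro _ ⟨_, ⟨_, ⟨μ, hμ, rfl⟩, rfl⟩, rfl⟩
    have := bd_inj.mp ((weight_wt μ).symm.trans hμ)
    exact h μ this.1 this.2
  have key : ∀ a M (s : Ω), s ≠ 0 → ∀ (W : Submodule E Ω) [Module.Finite E W],
      (Val E z (bd a M)).map (LinearMap.mulLeft E s) ≤ W →
      finrank E (Val E z (bd a M)) ≤ finrank E W := fun a M s hs W _ h =>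
    (Submodule.equivMapOfInjective _ (mul_right_injective₀ hs) _).finrank_eq.le.trans
      (Submodule.finrank_mono h)
  have hv : ∀ (μ : σ ⊕ P →₀ ℕ) v, μ v ≠ 0 → z v = 0 → aeval z (monomial μ (1 : E)) = 0 := by
    intro μ v h1 h2
    rw [aeval_monomial, Finsupp.prod_fintype _ _ (by simp),
      prod_eq_zero (mem_univ v) (by rw [h2, zero_pow h1]), mul_zero]
  by_cases h1 : ∃ i, z (Sum.inl i) ≠ 0
  swap
  · push Not at h1
    refine ⟨1, 0, fun a M ha _ => key _ _ 1 one_ne_zero _ (hz _ _ _ _ fun μ h2 _ => ?_)⟩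
    obtain ⟨j, -, hj⟩ := exists_ne_zero_of_sum_ne_zero (h2.trans_ne (by omega))
    rw [hv μ _ hj (h1 j), mul_zero]; exact zero_mem _
  by_cases h2 : ∃ f, z (Sum.inr f) ≠ 0
  swap
  · push Not at h2
    refine ⟨0, 1, fun a M _ hM => key _ _ 1 one_ne_zero _ (hz _ _ _ _ fun μ _ h3 => ?_)⟩
    obtain ⟨j, -, hj⟩ := exists_ne_zero_of_sum_ne_zero (h3.trans_ne (by omega))
    rw [hv μ _ hj (h2 j), mul_zero]; exact zero_mem _
  obtain ⟨s, hs, N, hN⟩ := H h1 h2
  refine ⟨Fintype.card σ * (N + b) + 1, 0, fun a M ha _ =>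
    key _ _ s hs _ (hz _ _ _ _ fun μ h3 h4 => ?_)⟩
  obtain ⟨i, hi⟩ : ∃ i, N + b ≤ μ (Sum.inl i) := by
    by_contra hne
    push Not at hne
    have := sum_le_card_nsmul univ (fun j => μ (Sum.inl j)) _ fun j _ => (hne j).le
    rw [h3, card_univ, smul_eq_mul] at this
    omega
  obtain ⟨ν, rfl⟩ := exists_add_of_le (Finsupp.single_le_iff.mpr hi)
  have := graded_Val (R := E) z
  have h5 := SetLike.GradedMul.mul_mem (hN i) (show aeval z (monomial ν (1 : E)) ∈ Val E z _ from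
    ⟨_, isWeightedHomogeneous_monomial _ _ _ (weight_wt ν), rfl⟩)
  simp [sum_add_distrib, Finsupp.single_apply] at h3 h4
  rw [bd_add, h4, show N + ∑ j, ν (Sum.inl j) = a by omega, add_comm m, mul_assoc] at h5
  rwa [monomial_single_add, map_mul, map_pow, aeval_X]

theorem HF_devissage {Q : Type} (e : Q → MvPolynomial (σ ⊕ P) E) {b m : ℕ}
    (H : ∀ (Ω : Type) [Field Ω] [IsAlgClosed Ω] [Algebra E Ω] (z : σ ⊕ P → Ω),
      (∀ q, aeval z (e q) = 0) → (∃ i, z (Sum.inl i) ≠ 0) → (∃ f, z (Sum.inr f) ≠ 0) →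
      ∃ s : Ω, s ≠ 0 ∧ ∃ N, ∀ i, s * z (Sum.inl i) ^ (N + b) ∈ Val E z (bd N m))
    (I : Ideal (MvPolynomial (σ ⊕ P) E)) : I.IsHomogeneous (VV σ P E) → (∀ q, e q ∈ I) →
    ∃ a0 M0, ∀ a M, a0 ≤ a → M0 ≤ M → HF I (bd (a + b) M) ≤ HF I (bd a (M + m)) := by
  induction I using ideal_ind with
  | h I ih =>
  intro hI he
  by_cases hp : I.IsPrime
  · obtain ⟨Ω, _, _, χ, z, hz⟩ := exists_generic I
    let _ := χ.toAlgebra
    have h1 : ∀ d, HF I d = finrank E (Val E z d) := fun d => by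
      have h2 := HF_add I d
      have h3 := finrank_map_add (aeval z).toLinearMap (VV σ P E d)
      rw [show LinearMap.ker (aeval z).toLinearMap = I.restrictScalars E from
        Submodule.ext hz] at h3
      exact Nat.add_right_cancel (h2.trans h3.symm)
    simpa only [h1] using HF_prime z (H Ω z fun q => (hz _).mpr (he q))
  by_cases ht : I = ⊤
  · refine ⟨0, 0, fun a M _ _ => ?_⟩
    have := HF_add I (bd (a + b) M)
    rw [ht, Submodule.restrictScalars_top, inf_top_eq] at this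
    rw [ht]
    omega
  obtain ⟨f, g, ⟨d, hf⟩, -, hfg, hf', hg'⟩ : ∃ f g, SetLike.IsHomogeneousElem (VV σ P E) f ∧
      SetLike.IsHomogeneousElem (VV σ P E) g ∧ f * g ∈ I ∧ f ∉ I ∧ g ∉ I := by
    by_contra hne
    push Not at hne
    exact hp (hI.isPrime_of_homogeneous_mem_or_mem ht fun h1 h2 h3 =>
      or_iff_not_imp_left.mpr (hne _ _ h1 h2 h3))
  have hle : I ≤ col I f := fun u hu => I.mul_mem_left f hu
  obtain ⟨a1, M1, h1⟩ := ih (col I f) (lt_of_le_of_ne hle fun h =>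
      hg' (by rw [h]; exact hfg))
    (fun i u hu => by
      have := hI (d + i) (mem_col.mp hu)
      rwa [DirectSum.coe_decompose_mul_add_of_left_mem _ hf] at this)
    fun q => hle (he q)
  obtain ⟨a2, M2, h2⟩ := ih (I ⊔ Ideal.span {f}) (lt_of_le_of_ne le_sup_left fun h =>
      hf' (by rw [h]; exact Ideal.mem_sup_right (Ideal.mem_span_singleton_self f)))
    (hI.sup (Ideal.homogeneous_span _ _ (by rintro _ rfl; exact ⟨d, hf⟩)))
    fun q => Ideal.mem_sup_left (he q)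
  obtain ⟨a3, M3, rfl⟩ : ∃ a3 M3, d = bd a3 M3 := ⟨_, _, rfl⟩
  refine ⟨a3 + a1 + a2, M3 + M1 + M2, fun a M ha hM => ?_⟩
  obtain ⟨a, rfl⟩ : ∃ a', a = a3 + a' := ⟨a - a3, by omega⟩
  obtain ⟨M, rfl⟩ : ∃ M', M = M3 + M' := ⟨M - M3, by omega⟩
  have h0 : f ≠ 0 := fun h => hf' (h ▸ I.zero_mem)
  have h3 := HF_exact hI hf h0 (bd (a + b) M)
  have h4 := HF_exact hI hf h0 (bd a (M + m))
  have h5 := h1 a M (by omega) (by omega)
  have h6 := h2 (a3 + a) (M3 + M) (by omega) (by omega)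
  simp only [bd_add, ← add_assoc] at h3 h4 h6 ⊢
  omega

end Pool.Agent.P.MP_7ede32_ag
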