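import Pool.Agent.P.MP_7ede32_ag.HSpec

/-! Noetherian induction and spreading out. -/

open Finset MvPolynomial
open scoped Polynomial WithZero

namespace Pool.Agent.P.MP_7ede32_ag

variable {σ P : Type}

/-- the local estimate at a point -/
def Est {Ω : Type} [Field Ω] (κ E : ℕ) (cs : Set Ω) (z : σ ⊕ P → Ω) : Prop :=
  ∃ ψ : Ω, ψ ≠ 0 ∧ ∀ (w : Valuation Ω ℤᵐ⁰) (g : ℤᵐ⁰) (s : σ), 1 ≤ g → (∀ c ∈ cs, w c ≤ g) →
    1 ≤ w (z (Sum.inl s)) → (∀ j, w (z (Sum.inl j)) ≤ w (z (Sum.inl s))) →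
    (∀ f, w (z (Sum.inr f)) ≤ w (z (Sum.inl s)) ^ κ * g) → w ψ * w (z (Sum.inl s)) ≤ g ^ E

theorem Est.mono {Ω : Type} [Field Ω] {κ E E' : ℕ} {cs cs' : Set Ω} {z : σ ⊕ P → Ω}
    (h : Est κ E cs z) (h1 : cs ⊆ cs') (h2 : E ≤ E') : Est κ E' cs' z :=
  h.imp fun _ h => ⟨h.1, fun w g s a b c d e =>
    (h.2 w g s a (fun c hc => b c (h1 hc)) c d e).trans (pow_le_pow_right' a h2)⟩

variable [Fintype σ] [Fintype P]

theorem val_VV_le {A Ω : Type} [CommRing A] [Field Ω] (χ : A →+* Ω) (z : σ ⊕ P → Ω)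
    (w : Valuation Ω ℤᵐ⁰) {g a b : ℤᵐ⁰} {c M : ℕ} {G : MvPolynomial (σ ⊕ P) A}
    (hG : G ∈ VV σ P A (bd c M)) (h1 : ∀ u ∈ G.coeffs, w (χ u) ≤ g)
    (h2 : ∀ j, w (z (Sum.inl j)) ≤ a) (h3 : ∀ f, w (z (Sum.inr f)) ≤ b) :
    w (eval₂ χ z G) ≤ g * (a ^ c * b ^ M) := by
  rw [eval₂_eq']
  refine w.map_sum_le fun μ hμ => ?_
  obtain ⟨e1, e2⟩ := bd_inj.mp ((weight_wt μ).symm.trans (hG (mem_support_iff.mp hμ)))
  rw [map_mul, map_prod, Fintype.prod_sum_type, ← e1, ← e2, ← prod_pow_eq_pow_sum,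
    ← prod_pow_eq_pow_sum]
  refine mul_le_mul' (h1 _ (coeff_mem_coeffs _ (mem_support_iff.mp hμ))) (mul_le_mul'
    (prod_le_prod' fun j _ => ?_) (prod_le_prod' fun j _ => ?_)) <;> rw [map_pow]
  exacts [pow_le_pow_left' (h2 j) _, pow_le_pow_left' (h3 j) _]

theorem good_ind {A Q : Type} [CommRing A] [IsDomain A] [IsNoetherianRing A] {κ : ℕ}
    (e : Q → MvPolynomial (σ ⊕ P) A)
    (H : ∀ (Ω : Type) [Field Ω] (χ : A →+* Ω), Function.Injective χ → ∀ z : σ ⊕ P → Ω,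
      (∀ q, eval₂ χ z (e q) = 0) → (∃ i, z (Sum.inl i) ≠ 0) → (∃ f, z (Sum.inr f) ≠ 0) →
      ∃ c M B, c + κ * M < B ∧ ∃ ψ : Ω, ψ ≠ 0 ∧
        ∀ i, ∃ G ∈ VV σ P A (bd c M), eval₂ χ z G = ψ * z (Sum.inl i) ^ B)
    (I : Ideal (MvPolynomial (σ ⊕ P) A)) : (∀ q, e q ∈ I) →
    ∃ Δ : A, Δ ≠ 0 ∧ ∃ (𝒞 : Finset A) (E : ℕ), ∀ (Ω : Type) [Field Ω] (χ : A →+* Ω)
      (z : σ ⊕ P → Ω), I ≤ RingHom.ker (eval₂Hom χ z) → χ Δ ≠ 0 → (∃ i, z (Sum.inl i) ≠ 0) →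
      (∃ f, z (Sum.inr f) ≠ 0) → Est κ E (χ '' 𝒞) z := by
  classical
  induction I using ideal_ind with
  | h I ih =>
  intro he
  have hsup : ∀ f, f ∉ I → I < I ⊔ Ideal.span {f} := fun f hf => lt_of_le_of_ne le_sup_left
    fun h => hf (by rw [h]; exact Ideal.mem_sup_right (Ideal.mem_span_singleton_self f))
  have hker : ∀ (J : Ideal _) f, I ≤ J → f ∈ J → I ⊔ Ideal.span {f} ≤ J :=
    fun J f h1 h2 => sup_le h1 ((Ideal.span_singleton_le_iff_mem J).mpr h2)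
  by_cases hp : I.IsPrime
  swap
  · rcases Ideal.not_isPrime_iff.mp hp with h | ⟨f, hf, g, hg, hfg⟩
    · refine ⟨1, one_ne_zero, ∅, 0, fun Ω _ χ z h1 => absurd (h1 (x := 1) (by simp [h])) (by simp)⟩
    obtain ⟨Δ1, a1, 𝒞1, E1, h1⟩ := ih _ (hsup f hf) fun q => Ideal.mem_sup_left (he q)
    obtain ⟨Δ2, a2, 𝒞2, E2, h2⟩ := ih _ (hsup g hg) fun q => Ideal.mem_sup_left (he q)
    refine ⟨Δ1 * Δ2, mul_ne_zero a1 a2, 𝒞1 ∪ 𝒞2, E1 + E2, fun Ω _ χ z hI hΔ hx hp => ?_⟩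
    rw [map_mul, mul_ne_zero_iff] at hΔ
    rcases mul_eq_zero.mp ((map_mul _ f g).symm.trans (hI hfg)) with h | h
    · exact (h1 Ω χ z (hker _ f hI h) hΔ.1 hx hp).mono (Set.image_mono (by simp)) (by omega)
    · exact (h2 Ω χ z (hker _ g hI h) hΔ.2 hx hp).mono (Set.image_mono (by simp)) (by omega)
  obtain ⟨Ω0, _, -, χ0, z0, h0⟩ := exists_generic I
  by_cases hinj : Function.Injective χ0
  swap
  · rw [injective_iff_map_eq_zero] at hinj
    push Not at hinj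
    obtain ⟨a, h1, h2⟩ := hinj
    exact ⟨a, h2, ∅, 0, fun Ω _ χ z hI hΔ =>
      absurd ((eval₂Hom_C _ _ _).symm.trans (hI ((h0 (C a)).mp (by simpa using h1)))) hΔ⟩
  have hz : ∀ v, z0 v = 0 → ∀ (Ω : Type) [Field Ω] (χ : A →+* Ω) (z : σ ⊕ P → Ω),
      I ≤ RingHom.ker (eval₂Hom χ z) → z v = 0 := fun v hv Ω _ χ z hI =>
    (eval₂Hom_X' _ _ _).symm.trans (hI ((h0 (X v)).mp (by simpa using hv)))
  by_cases hx0 : ∃ i, z0 (Sum.inl i) ≠ 0
  swap
  · push Not at hx0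
    exact ⟨1, one_ne_zero, ∅, 0, fun Ω _ χ z hI _ ⟨i, hi⟩ => absurd (hz _ (hx0 i) Ω χ z hI) hi⟩
  by_cases hp0 : ∃ f, z0 (Sum.inr f) ≠ 0
  swap
  · push Not at hp0
    exact ⟨1, one_ne_zero, ∅, 0, fun Ω _ χ z hI _ _ ⟨i, hi⟩ => absurd (hz _ (hp0 i) Ω χ z hI) hi⟩
  obtain ⟨c, M, B, hB, ψ, hψ, hG⟩ := H Ω0 χ0 hinj z0 (fun q => (h0 _).mpr (he q)) hx0 hp0
  choose G hG1 hG2 using hG
  obtain ⟨i0, hi0⟩ := hx0
  obtain ⟨Δ, a1, 𝒞, E, h1⟩ := ih _ (hsup (G i0 * X (Sum.inl i0)) fun h => by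
    simpa [hG2, hψ, hi0] using (h0 _).mpr h) fun q => Ideal.mem_sup_left (he q)
  refine ⟨Δ, a1, 𝒞 ∪ univ.biUnion fun i => (G i).coeffs, E + (M + 1),
    fun Ω _ χ z hI hΔ hx hp => ?_⟩
  by_cases h : eval₂Hom χ z (G i0 * X (Sum.inl i0)) = 0
  · exact (h1 Ω χ z (hker _ _ hI h) hΔ hx hp).mono (Set.image_mono (by simp)) (by omega)
  rw [map_mul, eval₂Hom_X', mul_eq_zero, not_or] at h
  refine Est.mono (E := M + 1) ⟨eval₂ χ z (G i0) / z (Sum.inl i0) ^ B,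
    div_ne_zero h.1 (pow_ne_zero _ h.2), fun w g s h2 h3 h4 h5 h6 => ?_⟩ subset_rfl (by omega)
  have h7 : eval₂ χ z (G i0) / z (Sum.inl i0) ^ B * z (Sum.inl s) ^ B = eval₂ χ z (G s) := by
    have := hI ((h0 (G i0 * X (Sum.inl s) ^ B - G s * X (Sum.inl i0) ^ B)).mp (by
      simp only [eval₂_sub, eval₂_mul, eval₂_pow, eval₂_X, hG2]; ring))
    rw [div_mul_eq_mul_div, div_eq_iff (pow_ne_zero _ h.2)]
    simpa [sub_eq_zero] using this
  have h8 := val_VV_le χ z w (hG1 s) (fun u hu => h3 _ ⟨u, by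
    simpa using Or.inr ⟨s, hu⟩, rfl⟩) h5 h6
  rw [← h7, map_mul, map_pow] at h8
  refine (mul_le_mul_iff_left₀ (pow_pos (zero_lt_one.trans_le h4) (c + κ * M))).mp ?_
  rw [mul_assoc, ← pow_succ']
  refine ((mul_le_mul_right (pow_le_pow_right' h4 hB) _).trans h8).trans (le_of_eq ?_)
  simp only [mul_pow, pow_add, pow_mul, pow_one, mul_assoc, mul_comm, mul_left_comm]

omit [Fintype P] in
attribute [local instance] MvPolynomial.algebraMvPolynomial in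
theorem exists_clear {A R : Type} [CommRing A] [IsDomain A] [CommRing R] [Algebra A R]
    (M : Submonoid A) (hM : M ≤ nonZeroDivisors A) [IsLocalization M R] {d : ℕ ×ₗ ℕ}
    (G : σ → MvPolynomial (σ ⊕ P) R) (hG : ∀ i, G i ∈ VV σ P R d) : ∃ a : A, a ≠ 0 ∧
      ∀ i, ∃ G' ∈ VV σ P A d, map (algebraMap A R) G' = C (algebraMap A R a) * G i := by
  obtain ⟨⟨_, a, ha, rfl⟩, h⟩ :=
    IsLocalization.exist_integer_multiples_of_finite (M.map (C (σ := σ ⊕ P))) G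
  refine ⟨a, nonZeroDivisors.ne_zero (hM ha), fun i => ?_⟩
  obtain ⟨G', h1⟩ := h i
  have h2 : map (algebraMap A R) G' = C (algebraMap A R a) * G i := by
    rw [← map_C]
    exact h1.trans (Algebra.smul_def _ _)
  refine ⟨G', fun μ hμ => hG i fun h0 => hμ (IsLocalization.injective R hM ?_), h2⟩
  rw [← coeff_map, h2, coeff_C_mul, h0, mul_zero, map_zero]

theorem exists_spread {S T : Type} [Fintype S] (e : S → T) {Δ : (MvPolynomial (S ⊕ T) ℤ)[X]}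
    (h : Δ ≠ 0) : ∃ θ : (MvPolynomial (S ⊕ T) ℤ)[X] →+* MvPolynomial T ℤ, θ Δ ≠ 0 ∧ ∃ u, ∀ v,
      θ (Polynomial.C (pf e (fun β => X (Sum.inl β)) v) +
        Polynomial.X * Polynomial.C (X (Sum.inr v))) = u * X v := by
  let A := (MvPolynomial (S ⊕ T) ℤ)[X]
  obtain ⟨Θ, t1, t2, t3⟩ : ∃ Θ : A →+* MvPolynomial (Option S) (MvPolynomial T ℤ),
      (∀ β, Θ (Polynomial.C (X (Sum.inl β))) = X none * X (some β)) ∧
      (∀ v, Θ (Polynomial.C (X (Sum.inr v))) = C (X v) - pf e (fun β => X (some β)) v) ∧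
      Θ Polynomial.X = X none := ⟨Polynomial.eval₂RingHom
    (eval₂Hom (Int.castRingHom _) (Sum.elim (fun β => X none * X (some β))
      fun v => C (X v) - pf e (fun β => X (some β)) v)) (X none), by simp [A], by simp [A], by simp [A]⟩
  let ι := algebraMap A (FractionRing A)
  have hX : ι Polynomial.X ≠ 0 := fun h =>
    Polynomial.X_ne_zero (IsFractionRing.to_map_eq_zero_iff.mp h)
  let y : S → FractionRing A := fun β => ι (Polynomial.C (X (Sum.inl β))) / ι Polynomial.X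
  obtain ⟨Λ, l1, l2, l3⟩ : ∃ Λ : MvPolynomial (Option S) (MvPolynomial T ℤ) →+* FractionRing A,
      (∀ v, Λ (C (X v)) = ι (Polynomial.C (X (Sum.inr v))) + pf e y v) ∧
      Λ (X none) = ι Polynomial.X ∧ ∀ β, Λ (X (some β)) = y β := ⟨eval₂Hom
    (eval₂Hom (Int.castRingHom _) fun v => ι (Polynomial.C (X (Sum.inr v))) + pf e y v)
    fun o => o.elim (ι Polynomial.X) y, by simp, by simp, by simp⟩
  have h1 : Λ.comp Θ = ι := by
    refine Polynomial.ringHom_ext' (MvPolynomial.ringHom_ext (fun r => by simp) ?_)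
      (by simp [t3, l2])
    rintro (β | v)
    · simp [t1, l2, l3, y, mul_div_cancel₀ _ hX]
    · simp [t2, l1, l3, pf_map]
  have h2 : Θ Δ ≠ 0 := fun h0 => h (IsFractionRing.to_map_eq_zero_iff.mp
    ((RingHom.congr_fun h1 Δ).symm.trans (by rw [RingHom.comp_apply, h0, map_zero])))
  obtain ⟨pt, hpt⟩ : ∃ pt, eval pt (Θ Δ) ≠ 0 := by
    by_contra hne
    push Not at hne
    exact h2 (MvPolynomial.funext fun pt => by rw [hne, map_zero])
  refine ⟨(eval pt).comp Θ, hpt, pt none, fun v => ?_⟩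
  simp [t1, t2, t3, pf_map, pf_mul]
  ring

theorem indep_of_injective {V E : Type} [Field E] [CharZero E] (φ : MvPolynomial V ℤ →+* E)
    (h : Function.Injective φ) : AlgebraicIndependent ℚ fun v => φ (X v) :=
  have : Algebra.IsAlgebraic ℤ ℚ := (IsFractionRing.isAlgebraic_iff' ℤ ℤ ℚ).mp inferInstance
  ((MvPolynomial.algebraicIndependent_X V ℤ).map' (f := φ.toIntAlgHom) h).extendScalars ℚ

attribute [local instance] Polynomial.algebra in
theorem exists_amach (σ J : Type) [Fintype σ] [DecidableEq σ] [Fintype J] {k : ℕ}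
    (hσ : Fintype.card σ = k + 2) (κ : ℕ) : ∃ d0, ∀ d, d0 ≤ d →
      ∃ Δ : MvPolynomial (J × Mon σ d) ℤ, Δ ≠ 0 ∧ ∃ (𝒞 : Finset (MvPolynomial (J × Mon σ d) ℤ))
        (E : ℕ), ∀ (Ω : Type) [Field Ω] (s : J × Mon σ d → Ω), aeval s Δ ≠ 0 →
        ∀ z : σ ⊕ Pl σ J k → Ω, (∀ q, eqn s z q = 0) → (∃ i, z (Sum.inl i) ≠ 0) →
        (∃ f, z (Sum.inr f) ≠ 0) → Est κ E (aeval s '' (𝒞 : Set (MvPolynomial (J × Mon σ d) ℤ))) z := by
  classical
  obtain ⟨δ, hδ⟩ : ∃ δ, δ = Fintype.card σ + Fintype.card (Pl σ J k) := ⟨_, rfl⟩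
  obtain ⟨m, hm, H0⟩ := exists_special_section σ J hσ hδ
  obtain ⟨b0, H1⟩ := exists_section σ (Pl σ J k) κ m hm
  refine ⟨k + (k + (b0 + 1 + m * (k + δ + k * δ))) * δ, fun d hd0 => ?_⟩
  have hδ0 : 0 < δ := by omega
  obtain ⟨ε, r, b, hd, hε, hb, hr⟩ : ∃ ε r b, d = ε + (r + k) * δ ∧ k ≤ ε ∧ b0 + 1 ≤ b ∧
      r = b + m * (ε + k * δ) := by
    have h1 := Nat.mod_add_div' (d - k) δ
    have h2 := Nat.mod_lt (d - k) hδ0
    have h3 : k + (b0 + 1 + m * (k + δ + k * δ)) ≤ (d - k) / δ :=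
      (Nat.le_div_iff_mul_le hδ0).mpr (by omega)
    have h4 : m * (k + (d - k) % δ + k * δ) ≤ m * (k + δ + k * δ) := Nat.mul_le_mul_left _ (by omega)
    refine ⟨k + (d - k) % δ, (d - k) / δ - k, (d - k) / δ - k - m * (k + (d - k) % δ + k * δ),
      ?_, by omega, by omega, by omega⟩
    rw [Nat.sub_add_cancel (by omega)]; omega
  let A0 := MvPolynomial ((Mon σ δ × J × Mon σ ε) ⊕ (J × Mon σ d)) ℤ
  let E := FractionRing A0
  let s : J × Mon σ d → A0[X] := fun v => Polynomial.C (pf (emb r hd) (fun β => X (Sum.inl β)) v) +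
    Polynomial.X * Polynomial.C (X (Sum.inr v))
  have hev : ∀ {A Ω : Type} [CommRing A] [CommRing Ω] (χ : A →+* Ω) (z : σ ⊕ Pl σ J k → Ω)
      (s : J × Mon σ d → A) q, eval₂ χ z (eqn (fun v => C (s v)) X q) =
        eqn (fun v => χ (s v)) z q := fun χ z s q => by
    simpa using eqn_map (eval₂Hom χ z) (fun v => C (s v)) X q
  have := Polynomial.isLocalization (nonZeroDivisors A0) E
  have hM : (nonZeroDivisors A0).map Polynomial.C ≤ nonZeroDivisors A0[X] := by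
    rintro _ ⟨a, ha, rfl⟩
    exact mem_nonZeroDivisors_of_ne_zero (Polynomial.C_ne_zero.mpr (nonZeroDivisors.ne_zero ha))
  have hc : AlgebraicIndependent ℚ fun β => algebraMap A0 E (X (Sum.inl β)) :=
    (indep_of_injective _ (IsFractionRing.injective A0 E)).comp _ Sum.inl_injective
  have hs : ∀ v, Polynomial.evalRingHom 0 (algebraMap A0[X] E[X] (s v)) =
      pf (emb r hd) (fun β => algebraMap A0 E (X (Sum.inl β))) v := fun v => by
    rw [← pf_map]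
    change Polynomial.eval 0 ((s v).map (algebraMap A0 E)) = _
    simp [s]
  obtain ⟨Δ, hΔ, 𝒞, N, H2⟩ := good_ind (κ := κ) (eqn (k := k) (fun v => C (s v)) X) (by
    intro Ω _ χ hχ z hz hx hp
    have hu : ∀ y : (nonZeroDivisors A0).map Polynomial.C, IsUnit (χ y) := fun y =>
      ((map_ne_zero_iff χ hχ).mpr (nonZeroDivisors.ne_zero (hM y.2))).isUnit
    let χ' : E[X] →+* Ω := IsLocalization.lift hu
    have h1 : ∀ a, χ' (algebraMap A0[X] E[X] a) = χ a := IsLocalization.lift_eq hu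
    let _ := χ'.toAlgebra
    have : FaithfulSMul E[X] Ω := (faithfulSMul_iff_algebraMap_injective _ _).mpr
      ((IsLocalization.lift_injective_iff hu).mpr fun x y =>
        (IsLocalization.injective E[X] hM).eq_iff.trans hχ.eq_iff.symm)
    obtain ⟨c, M, B, hB, ψ, hψ, hG⟩ := H1 b (by omega) E _
      (eqn (k := k) (fun v => C (algebraMap A0[X] E[X] (s v))) X) (eqn_mem _)
      (fun Ω' _ _ _ z' hz' => H0 ε r b d hd hε (by omega) hr E Ω' _ hc z' fun q => by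
        have := hz' q
        rw [aeval_def, eval₂_map, hev] at this
        simpa only [RingHom.comp_apply, hs] using this) Ω z
      (fun q => by
        have := hz q
        rw [hev] at this
        rw [aeval_def, hev]
        simp only [← h1] at this
        exact this) hx hp
    choose G hG1 hG2 using hG
    obtain ⟨a, ha, hG3⟩ := exists_clear _ hM G hG1
    refine ⟨c, M, B, hB, χ a * ψ, mul_ne_zero ((map_ne_zero_iff χ hχ).mpr ha) hψ, fun i => ?_⟩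
    obtain ⟨G', h2, h3⟩ := hG3 i
    refine ⟨G', h2, ?_⟩
    have := congrArg (eval₂ χ' z) h3
    rw [eval₂_map, eval₂_mul, eval₂_C, h1, show χ'.comp (algebraMap A0[X] E[X]) = χ from
      RingHom.ext h1] at this
    rw [this, mul_assoc, ← hG2]
    rfl) (Ideal.span (Set.range _)) fun q => Ideal.subset_span ⟨q, rfl⟩
  obtain ⟨θ, h1, u, h2⟩ := exists_spread (emb r hd) hΔ
  refine ⟨θ Δ, h1, 𝒞.image θ, N, fun Ω _ t ht z hz hx hp => ?_⟩
  have := H2 Ω ((aeval t).toRingHom.comp θ) z (Ideal.span_le.mpr (by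
    rintro _ ⟨q, rfl⟩
    have := eqn_smul (aeval t u) (hz q)
    rw [SetLike.mem_coe, RingHom.mem_ker, coe_eval₂Hom, hev]
    simp only [s, RingHom.comp_apply, h2]
    simpa using this)) ht hx hp
  rwa [coe_image, Set.image_image]

end Pool.Agent.P.MP_7ede32_ag
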