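import Pool.Agent.P.MP_7ede32_ag.HInd

/-! Jets of points and their Plücker coordinates. -/

open Finset MvPolynomial WithZero
open scoped WithZero PowerSeries

namespace Pool.Agent.P.MP_7ede32_ag

variable {M : Type} [Field M] [CharZero M]

/-- the exponential generating series -/
noncomputable def egf (c : ℕ → M) : M⟦X⟧ := PowerSeries.mk fun a => c a / a.factorial

omit [CharZero M] in
theorem Der.iter_add (d : Der M) (a : ℕ) (x y : M) : d.D^[a] (x + y) = d.D^[a] x + d.D^[a] y := by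
  induction a generalizing x y with
  | zero => rfl
  | succ a ih => simp only [Function.iterate_succ_apply, d.D_add, ih]

omit [CharZero M] in
theorem Der.egf_add (d : Der M) (x y : M) :
    egf (fun a => d.D^[a] (x + y)) = egf (fun a => d.D^[a] x) + egf fun a => d.D^[a] y := by
  ext a; simp [egf, d.iter_add, add_div]

theorem Der.egf_D (d : Der M) (x : M) :
    PowerSeries.derivative M (egf fun a => d.D^[a] x) = egf fun a => d.D^[a] (d.D x) := by
  ext a
  have : (a.factorial : M) ≠ 0 := Nat.cast_ne_zero.mpr a.factorial_ne_zero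
  have : (a : M) + 1 ≠ 0 := Nat.cast_add_one_ne_zero a
  simp only [egf, PowerSeries.coeff_derivative, PowerSeries.coeff_mk, Nat.factorial_succ,
    Function.iterate_succ_apply]
  push_cast
  field_simp

/-- the Taylor expansion -/
noncomputable def Der.tay (d : Der M) : M →+* M⟦X⟧ where
  toFun x := egf fun a => d.D^[a] x
  map_one' := by
    ext a
    cases a with
    | zero => simp [egf]
    | succ a => simp [egf, d.D_one, Function.iterate_fixed d.D_zero, PowerSeries.coeff_one]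
  map_mul' x y := by
    ext a
    induction a generalizing x y with
    | zero => simp [egf]
    | succ a ih =>
      refine mul_right_cancel₀ (Nat.cast_add_one_ne_zero a) ?_
      rw [← PowerSeries.coeff_derivative, ← PowerSeries.coeff_derivative, d.egf_D, d.D_mul,
        d.egf_add, Derivation.leibniz, d.egf_D, d.egf_D, map_add, map_add, ih, ih, smul_eq_mul,
        smul_eq_mul]
  map_zero' := by ext a; simp [egf, Function.iterate_fixed d.D_zero]
  map_add' := d.egf_add

theorem Der.coeff_tay (d : Der M) (x : M) (a : ℕ) :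
    PowerSeries.coeff a (d.tay x) = d.D^[a] x / a.factorial :=
  PowerSeries.coeff_mk a fun a => d.D^[a] x / a.factorial

theorem Der.const_tay (d : Der M) (x : M) : PowerSeries.constantCoeff (d.tay x) = x := by
  rw [← PowerSeries.coeff_zero_eq_constantCoeff_apply, d.coeff_tay]; simp

omit [CharZero M] in
theorem det_coeff_mul {k : ℕ} (V : M⟦X⟧) (φ : Fin (k + 1) → M⟦X⟧) :
    (Matrix.of fun a b : Fin (k + 1) => PowerSeries.coeff a (V * φ b)).det =
      PowerSeries.constantCoeff V ^ (k + 1) *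
        (Matrix.of fun a b : Fin (k + 1) => PowerSeries.coeff a (φ b)).det := by
  let L : Matrix (Fin (k + 1)) (Fin (k + 1)) M :=
    fun a b => if (b : ℕ) ≤ a then PowerSeries.coeff (a - b) V else 0
  have h1 : L.det = PowerSeries.constantCoeff V ^ (k + 1) := by
    rw [Matrix.det_of_isLowerTriangular L fun a b h => if_neg (not_le.mpr h)]
    simp [L]
  rw [← h1, ← Matrix.det_mul]
  congr 1
  ext a b
  rw [Matrix.mul_apply, Matrix.of_apply, mul_comm, PowerSeries.coeff_mul,
    Nat.sum_antidiagonal_eq_sum_range_succ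
      (fun i j => PowerSeries.coeff i (φ b) * PowerSeries.coeff j V)]
  refine Eq.trans ?_ (Fin.sum_univ_eq_sum_range (fun i =>
    (if i ≤ a then PowerSeries.coeff (a - i) V else 0) * PowerSeries.coeff i (φ b)) _).symm
  rw [← sum_subset (range_subset_range.mpr a.2) fun i _ hi => by
    rw [if_neg (by simpa using hi), zero_mul]]
  exact sum_congr rfl fun i hi => by rw [if_pos (Nat.lt_succ_iff.mp (mem_range.mp hi)), mul_comm]

variable {σ J : Type} [Fintype σ] [DecidableEq σ] [Fintype J] {k n : ℕ}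

/-- the Plücker coordinates of a jet -/
noncomputable def pl (t : J → M⟦X⟧) (Y : σ → M⟦X⟧) (f : Pl σ J k) : M :=
  (Matrix.of fun a b : Fin (k + 1) => PowerSeries.coeff a (t (f b).2 * ∏ j, Y j ^ (f b).1.1 j)).det

omit [CharZero M] in
theorem eqn_pl (s : J × Mon σ n → M) (t : J → M⟦X⟧) (y : σ → M) (Y : σ → M⟦X⟧)
    (hY : ∀ j, PowerSeries.constantCoeff (Y j) = y j)
    (h : PowerSeries.X ^ (k + 1) ∣ ∑ v, PowerSeries.C (s v) * (t v.1 * ∏ j, Y j ^ v.2.1 j)) (q) :
    eqn s (Sum.elim y (pl (k := k) t Y)) q = 0 := by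
  rcases q with f | ⟨i, f, l⟩
  · simp only [eqn, Sum.elim_inl, Sum.elim_inr, ite_eq_left_iff]
    intro hf
    obtain ⟨a, b, h1, h2⟩ := Function.not_injective_iff.mp hf
    exact Matrix.det_zero_of_column_eq h2 fun c => by simp [h1]
  simp only [eqn, Sum.elim_inl, Sum.elim_inr, mul_eq_zero, or_iff_not_imp_left]
  intro hi
  let A : Matrix (Fin (k + 1)) (Fin (k + 1)) M :=
    Matrix.of fun a b => PowerSeries.coeff a (t (f b).2 * ∏ j, Y j ^ (f b).1.1 j)
  let L : M⟦X⟧ →ₗ[M] M := LinearMap.proj l ∘ₗ A.cramer ∘ₗ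
    LinearMap.pi fun a : Fin (k + 1) => PowerSeries.coeff (a : ℕ)
  have h1 : ∀ α j, pl t Y (Function.update f l (α, j)) = L (t j * ∏ j, Y j ^ α.1 j) := fun α j => by
    refine congrArg Matrix.det (Matrix.ext fun a b => ?_)
    rw [Matrix.updateCol_apply]
    split_ifs with hb
    · simp [hb]
    · simp [A, hb]
  have h2 : ∀ v : J × Mon σ n, s v * con y (pl t Y) i v.2.1 v.2.1 v.1 f l = L (PowerSeries.C (s v) *
      (t v.1 * eval Y (Tr k (fun j => PowerSeries.C (y j)) i v.2.1 v.2.1))) := fun v => by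
    rw [← Tr_map, eval_map, eval₂_hom_mon (Tr_hom _ _ _ _ _), mul_sum, ← PowerSeries.smul_eq_C_mul,
      map_smul, map_sum, con, smul_eq_mul]
    congr 1
    refine sum_congr rfl fun α _ => ?_
    rw [h1, mul_left_comm, ← PowerSeries.smul_eq_C_mul, map_smul, smul_eq_mul]
  have h3 := dvd_sum (s := univ) fun (v : J × Mon σ n) _ => ((Tr_dvd k
    (fun j => PowerSeries.C (y j)) Y i v.2.1 (τ := PowerSeries.X) fun j => by
      simp [PowerSeries.X_dvd_iff, hY]).mul_left (t v.1)).mul_left (PowerSeries.C (s v))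
  have h4 := dvd_sub (h.mul_left (Y i ^ k * PowerSeries.C (y i) ^ n)) h3
  rw [mul_sum, ← sum_sub_distrib, sum_congr rfl (g := fun v => Y i ^ n * (PowerSeries.C (s v) *
    (t v.1 * eval Y (Tr k (fun j => PowerSeries.C (y j)) i v.2.1 v.2.1))))
    fun v _ => by rw [v.2.2]; ring, ← mul_sum, ((PowerSeries.isUnit_iff_constantCoeff.mpr
      (hY i ▸ IsUnit.mk0 _ hi)).pow n).dvd_mul_left, PowerSeries.X_pow_dvd_iff] at h4
  simp only [h2, ← map_sum]
  rw [LinearMap.comp_apply, LinearMap.comp_apply, show LinearMap.pi _ _ = 0 from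
    _root_.funext fun a : Fin (k + 1) => h4 a a.2, map_zero, map_zero]

omit [CharZero M] [Fintype J] in
theorem pl_ne (t : J → M⟦X⟧) (Y : σ → M⟦X⟧) {j : J} (ht : PowerSeries.constantCoeff (t j) ≠ 0)
    {i0 i1 : σ} (h0 : Y i0 = 1) (h1 : PowerSeries.coeff 1 (Y i1) ≠ 0) :
    ∃ f : Pl σ J k, pl t Y f ≠ 0 := by
  refine ⟨fun b => (⟨Finsupp.single i1 (b : ℕ) + Finsupp.single i0 (k - b), by
    rw [map_add, Finsupp.degree_single, Finsupp.degree_single]; omega⟩, j), fun h => ?_⟩
  obtain ⟨c, hc0, hc⟩ := Matrix.exists_mulVec_eq_zero_iff.mpr h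
  let Q : Polynomial M := ∑ b : Fin (k + 1), Polynomial.monomial b (c b)
  have hQ : Q ≠ 0 := fun h => hc0 (_root_.funext fun b => by
    simpa [Q, Polynomial.coeff_monomial, Fin.val_inj] using congrArg (Polynomial.coeff · b) h)
  have h2 : PowerSeries.X ^ (k + 1) ∣ t j * Polynomial.aeval (Y i1) Q := by
    rw [PowerSeries.X_pow_dvd_iff]
    intro a ha
    have := congrFun hc ⟨a, ha⟩
    simp only [Matrix.mulVec, dotProduct, Matrix.of_apply, Finsupp.add_apply, pow_add,
      prod_mul_distrib, Finsupp.single_apply, pow_ite, pow_zero, prod_ite_eq, mem_univ, if_true, h0,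
      one_pow, mul_one] at this
    simpa [Q, mul_sum, mul_left_comm (t j), mul_comm (c _)] using this
  obtain ⟨R, h3, h4⟩ := Q.exists_eq_pow_rootMultiplicity_mul_and_not_dvd hQ
    (PowerSeries.constantCoeff (Y i1))
  have h5 : Q.rootMultiplicity (PowerSeries.constantCoeff (Y i1)) ≤ k := by
    have := Polynomial.natDegree_le_of_dvd ⟨R, h3⟩ hQ
    rw [Polynomial.natDegree_pow, Polynomial.natDegree_X_sub_C, mul_one] at this
    exact this.trans (Polynomial.natDegree_sum_le_of_forall_le _ _ fun b _ =>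
      (Polynomial.natDegree_monomial_le _).trans (Nat.lt_succ_iff.mp b.2))
  rw [(PowerSeries.isUnit_iff_constantCoeff.mpr (IsUnit.mk0 _ ht)).dvd_mul_left, h3, map_mul,
    (PowerSeries.isUnit_iff_constantCoeff.mpr (IsUnit.mk0 _ (by
      rw [Polynomial.aeval_def, Polynomial.hom_eval₂]
      rw [Polynomial.dvd_iff_isRoot] at h4
      convert h4 using 1
      rw [Polynomial.IsRoot, Polynomial.eval]
      congr! 2))).dvd_mul_right, map_pow, map_sub, Polynomial.aeval_X, Polynomial.aeval_C,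
    show algebraMap M M⟦X⟧ _ = PowerSeries.C _ from rfl, PowerSeries.sub_const_eq_shift_mul_X,
    mul_pow, ((PowerSeries.isUnit_iff_constantCoeff.mpr (IsUnit.mk0 _ (by
      simpa using h1))).pow _).dvd_mul_left,
    pow_dvd_pow_iff PowerSeries.X_ne_zero PowerSeries.X_prime.not_isUnit] at h2
  omega

omit [CharZero M] [Fintype J] [DecidableEq σ] in
theorem pl_scale (t : J → M⟦X⟧) (U : M⟦X⟧) (Y : σ → M⟦X⟧) (f : Pl σ J k) :
    pl t (fun j => U * Y j) f = PowerSeries.constantCoeff U ^ (k * (k + 1)) * pl t Y f := by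
  rw [pow_mul, ← map_pow, pl, pl, ← det_coeff_mul]
  congr 1
  ext a b
  simp only [Matrix.of_apply, mul_pow, prod_mul_distrib, prod_pow_eq_pow_sum,
    ← Finsupp.degree_eq_sum, (f b).1.2, mul_left_comm]

omit [CharZero M] [Fintype J] [DecidableEq σ] in
theorem val_pl_le (w : Valuation M ℤᵐ⁰) {g : ℤᵐ⁰} (t : J → M⟦X⟧) (Y : σ → M⟦X⟧)
    (ht : ∀ j a, a ≤ k → w (PowerSeries.coeff a (t j)) ≤ g)
    (hY : ∀ j a, a ≤ k → w (PowerSeries.coeff a (Y j)) ≤ g) (f : Pl σ J k) :
    w (pl t Y f) ≤ g ^ ((k + 1) * (k + 1)) := by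
  let S : ℕ → AddSubgroup M⟦X⟧ := fun e =>
    { carrier := {φ | ∀ a, a ≤ k → w (PowerSeries.coeff a φ) ≤ g ^ e}
      add_mem' := fun h1 h2 a ha => by rw [map_add]; exact w.map_add_le (h1 a ha) (h2 a ha)
      zero_mem' := fun a _ => by simp
      neg_mem' := fun h a ha => by simpa using h a ha }
  have : SetLike.GradedMonoid S :=
    { one_mem := fun a _ => by rw [PowerSeries.coeff_one]; split_ifs <;> simp
      mul_mem := fun e e' φ ψ h1 h2 a ha => by
        rw [PowerSeries.coeff_mul]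
        refine w.map_sum_le fun p hp => ?_
        have := mem_antidiagonal.mp hp
        rw [map_mul, pow_add]
        exact mul_le_mul' (h1 _ (by omega)) (h2 _ (by omega)) }
  refine (val_det_le w _ (fun _ => g ^ (k + 1)) fun a b => ?_).trans (by simp [← pow_mul])
  have := SetLike.GradedMul.mul_mem (A := S) (i := 1) (fun a ha => by simpa using ht (f b).2 a ha)
    (SetLike.prod_pow_mem_graded S (F := univ) (fun _ => 1) Y (f b).1.1
      fun j _ a ha => by simpa using hY j a ha) a (Nat.lt_succ_iff.mp a.2)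
  simpa [← Finsupp.degree_eq_sum, (f b).1.2, add_comm] using this

omit [CharZero M] in
theorem Der.val_iter_le (d : Der M) (w : Valuation M ℤᵐ⁰) {π : M} (hπ : w π = exp (-1)) {g : ℤᵐ⁰}
    (hg : 1 ≤ g) (hD : ∀ u, w u ≤ 1 → w (d.D u) ≤ g) {u : M} (hu : w u ≤ 1) (a : ℕ) :
    w (d.D^[a] u) ≤ g ^ (2 * a) := by
  induction a with
  | zero => simpa using hu
  | succ a ih =>
    rw [Function.iterate_succ_apply']
    rcases hg.eq_or_lt with rfl | h
    · simpa using hD _ (by simpa using ih)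
    · refine (d.val_D_le w hπ hD _).trans ((mul_le_mul' (mul_le_mul_left
        (by simpa using exp_le_of_lt (n := 0) h) g) ih).trans (le_of_eq ?_))
      rw [mul_add, pow_add, mul_one, sq, mul_comm]

/-- the auxiliary function attached to a moving point -/
def DMach {I K : Type} [Field K] (d0 : Der K) (F : MvPolynomial I K) : Prop :=
  ∃ (𝒞 : Finset K) (E : ℕ), ∀ (M : Type) [Field M] [CharZero M] (φ : K →+* M) (d : Der M),
    (∀ u, d.D (φ u) = φ (d0.D u)) → ∀ y : I → M, eval₂ φ y F = 0 → ∀ i0 i1, y i0 = 1 →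
    d.D (y i1) ≠ 0 → ∃ ψ : M, ψ ≠ 0 ∧ ∀ (w : Valuation M ℤᵐ⁰) (π : M), w π = exp (-1) →
      ∀ g : ℤᵐ⁰, 1 ≤ g → (∀ n : ℕ, n ≠ 0 → w n = 1) → (∀ c ∈ 𝒞, w (φ c) ≤ g) →
      (∀ u, w u ≤ 1 → w (d.D u) ≤ g) → ∀ i, w ψ * max 1 (w (y i)) ≤ g ^ E

theorem exists_dmach (σ J : Type) [Fintype σ] [DecidableEq σ] [Fintype J] {k : ℕ}
    (hσ : Fintype.card σ = k + 2) : ∃ d0, ∀ n, d0 ≤ n →
      ∃ Δ : MvPolynomial (J × Mon σ n) ℤ, Δ ≠ 0 ∧ ∀ (K : Type) [Field K] (d : Der K)
        (G : J → MvPolynomial σ K) (F : MvPolynomial σ K), (∀ j, (G j).IsHomogeneous n) →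
        aeval (fun v : J × Mon σ n => coeff v.2.1 (G v.1)) Δ ≠ 0 → F ≠ 0 →
        (∀ a ≤ k, ∃ c : J → K, ∀ α, d.D^[a] (coeff α F) = ∑ j, c j * coeff α (G j)) →
        DMach d F := by
  classical
  obtain ⟨d0, H⟩ := exists_amach σ J hσ (k * (k + 1))
  refine ⟨d0, fun n hn => ?_⟩
  obtain ⟨Δ, h0, 𝒞, E, H⟩ := H n hn
  refine ⟨Δ, h0, fun K _ d0 G F hG hΔ hF hc => ?_⟩
  choose! c hc using hc
  let s : J × Mon σ n → K := fun v => coeff v.2.1 (G v.1)
  refine ⟨𝒞.image (aeval s) ∪ (range (k + 1) ×ˢ univ).image fun p => c p.1 p.2,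
    (2 * k + 1) * ((k + 1) * (k + 1)) * E, fun M _ _ φ d hd y hy i0 i1 h1 h2 => ?_⟩
  have hφ : ∀ P : MvPolynomial (J × Mon σ n) ℤ, aeval (fun v => φ (s v)) P = φ (aeval s P) :=
    fun P => (comp_aeval_apply s φ.toIntAlgHom P).symm
  have hit : ∀ a u, d.D^[a] (φ u) = φ (d0.D^[a] u) := fun a => by
    induction a with
    | zero => exact fun _ => rfl
    | succ a ih => intro u; simp only [Function.iterate_succ_apply, hd, ih]
  let t : J → M⟦X⟧ := fun j => egf fun a => φ (c a j)
  have hFh : F.IsHomogeneous n := fun α hα => by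
    by_contra hne
    refine hα ((hc 0 k.zero_le α).trans (sum_eq_zero fun j _ => ?_))
    rw [by_contra fun h => hne (hG j (d := α) h), mul_zero]
  obtain ⟨j0, hj0⟩ : ∃ j, c 0 j ≠ 0 := by
    by_contra hne
    push Not at hne
    exact hF (MvPolynomial.ext _ _ fun α => by simpa [hne] using hc 0 k.zero_le α)
  obtain ⟨ψ, hψ, hw⟩ := H M (fun v => φ (s v)) (by rw [hφ]; exact (map_ne_zero φ).mpr hΔ)
    (Sum.elim y (pl t fun j => d.tay (y j))) (eqn_pl _ t y _ (fun j => d.const_tay _) (by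
      have h3 := congrArg d.tay hy
      rw [eval₂_hom_mon hFh, map_sum, map_zero] at h3
      rw [← sub_zero (Finset.sum _ _), ← h3, Fintype.sum_prod_type_right, ← sum_sub_distrib]
      refine dvd_sum fun α _ => ?_
      simp only [← mul_assoc, ← sum_mul, map_mul, map_prod, map_pow, ← sub_mul]
      refine Dvd.dvd.mul_right (PowerSeries.X_pow_dvd_iff.mpr fun a ha => ?_) _
      simp [d.coeff_tay, hit, hc a (Nat.lt_succ_iff.mp ha), t, egf, s, sum_div, mul_div_assoc,
        mul_div_left_comm]))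
    ⟨i0, by simp [h1]⟩ (pl_ne t _ (j := j0) (by simpa [t, egf] using hj0) (i0 := i0) (i1 := i1)
      (by rw [h1, map_one]) (by simpa [d.coeff_tay] using h2))
  refine ⟨ψ, hψ, fun w π hπ g hg hn h3 hD i => ?_⟩
  have : Nonempty σ := ⟨i0⟩
  obtain ⟨s0, -, hs⟩ := exists_max_image univ (fun j => w (y j)) univ_nonempty
  have hs' : ∀ j, w (y j) ≤ w (y s0) := fun j => hs j (mem_univ _)
  have hμ : 1 ≤ w (y s0) := by simpa [h1] using hs' i0
  have hf0 : w (y s0) ≠ 0 := (zero_lt_one.trans_le hμ).ne'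
  have hf : y s0 ≠ 0 := (w.ne_zero_iff).mp hf0
  have hfac : ∀ (u : M) (a : ℕ), w (u / a.factorial) = w u := fun u a => by
    rw [map_div₀, hn _ a.factorial_ne_zero, div_one]
  have hle : ∀ e, e ≠ 0 → g ≤ g ^ e := fun e he => le_self_pow hg he
  rw [pow_mul]
  refine (mul_le_mul_right (max_le hμ (hs' i)) _).trans (hw w _ s0 (one_le_pow_of_one_le' hg _)
    ?_ hμ hs' fun f => ?_)
  · rintro _ ⟨P, hP, rfl⟩
    rw [hφ]
    exact (h3 _ (mem_union_left _ (mem_image_of_mem _ hP))).trans (hle _ (by positivity))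
  · have h4 : (fun j => d.tay (y j)) = fun j => d.tay (y s0) * d.tay (y j / y s0) := by
      funext j; rw [← map_mul, mul_div_cancel₀ _ hf]
    rw [Sum.elim_inr, Sum.elim_inl, h4, pl_scale, map_mul, map_pow, d.const_tay, pow_mul g]
    refine mul_le_mul_right (val_pl_le w _ _ (fun j a ha => ?_)
      (fun j a ha => ?_) f) _
    · simp only [t, egf, PowerSeries.coeff_mk, hfac]
      exact (h3 _ (mem_union_right _ (mem_image.mpr ⟨(a, j), by simp; omega, rfl⟩))).trans
        (hle _ (by positivity))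
    · rw [d.coeff_tay, hfac]
      exact (d.val_iter_le w hπ hg hD (by
        rw [map_div₀, div_le_one₀ (zero_lt_iff.mpr hf0)]; exact hs' j) a).trans
        (pow_le_pow_right' hg (by omega))

end Pool.Agent.P.MP_7ede32_ag
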