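import Pool.Agent.P.MP_7ede32_ag.HTr

/-! A uniform Nullstellensatz through Macaulay determinants. -/

open Finset MvPolynomial

namespace Pool.Agent.P.MP_7ede32_ag

variable {σ ι : Type} [Fintype σ] [DecidableEq σ] [Fintype ι]

/-- a square submatrix of the Macaulay matrix -/
noncomputable def Mac {B : Type*} [CommRing B] (P : ι → MvPolynomial σ B) {ρ : ℕ}
    (κ : Mon σ ρ → ι × (σ →₀ ℕ)) : Matrix (Mon σ ρ) (Mon σ ρ) B :=
  fun μ a => coeff μ.1 (monomial (κ a).2 1 * P (κ a).1)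

theorem exists_Mac {Ω : Type} [Field Ω] [IsAlgClosed Ω] (dg : ι → ℕ) (P : ι → MvPolynomial σ Ω)
    (hP : ∀ c, (P c).IsHomogeneous (dg c)) (h0 : ∀ T, (∀ c, eval T (P c) = 0) → T = 0) :
    ∃ (ρ : ℕ) (κ : Mon σ ρ → ι × (σ →₀ ℕ)), (∀ a, (κ a).2.degree + dg (κ a).1 = ρ) ∧
      (Mac P κ).det ≠ 0 := by
  have h1 : ∀ i, ∃ n, X i ^ n ∈ Ideal.span (Set.range P) := fun i => by
    refine Ideal.mem_radical_iff.mp ?_
    rw [← vanishingIdeal_zeroLocus_eq_radical (K := Ω), mem_vanishingIdeal_iff]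
    intro T hT
    rw [h0 T fun c => hT _ (Ideal.subset_span ⟨c, rfl⟩)]
    simp
  choose n hn using h1
  let ρ := ∑ i, n i + 1
  let G : Set (Mon σ ρ → Ω) := {v | ∃ p : ι × (σ →₀ ℕ), p.2.degree + dg p.1 = ρ ∧
    v = fun μ => coeff μ.1 (monomial p.2 1 * P p.1)}
  let L : MvPolynomial σ Ω →ₗ[Ω] (Mon σ ρ → Ω) := LinearMap.pi fun μ => lcoeff Ω μ.1
  have hL : ∀ f ∈ Ideal.span (Set.range P), L f ∈ Submodule.span Ω G := by
    intro f hf
    obtain ⟨Q, rfl⟩ := Ideal.mem_span_range_iff_exists_fun.mp hf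
    rw [map_sum]
    refine Submodule.sum_mem _ fun c _ => ?_
    rw [(Q c).as_sum, sum_mul, map_sum]
    refine Submodule.sum_mem _ fun ν _ => ?_
    rw [show monomial ν (coeff ν (Q c)) * P c = coeff ν (Q c) • (monomial ν 1 * P c) by
      rw [← smul_mul_assoc, smul_monomial, smul_eq_mul, mul_one], map_smul]
    refine Submodule.smul_mem _ _ ?_
    by_cases h : ν.degree + dg c = ρ
    · exact Submodule.subset_span ⟨(c, ν), h, rfl⟩
    · have : L (monomial ν 1 * P c) = 0 := _root_.funext fun μ =>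
        ((isHomogeneous_monomial 1 rfl).mul (hP c)).coeff_eq_zero (by rw [μ.2]; exact Ne.symm h)
      rw [this]; exact zero_mem _
  have hG : ⊤ ≤ Submodule.span Ω G := by
    rw [← (Pi.basisFun Ω (Mon σ ρ)).span_eq, Submodule.span_le]
    rintro _ ⟨μ, rfl⟩
    obtain ⟨i, hi⟩ : ∃ i, n i ≤ μ.1 i := by
      by_contra hne
      push Not at hne
      have h2 : ∑ i, μ.1 i ≤ ∑ i, n i := sum_le_sum fun i _ => (hne i).le
      rw [← Finsupp.degree_eq_sum, μ.2] at h2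
      omega
    have h3 : (monomial μ.1 1 : MvPolynomial σ Ω) =
        monomial (μ.1 - Finsupp.single i (n i)) 1 * X i ^ n i := by
      rw [X_pow_eq_monomial, monomial_mul, mul_one,
        tsub_add_cancel_of_le (Finsupp.single_le_iff.mpr hi)]
    have h4 := hL (monomial μ.1 1) (h3 ▸ Ideal.mul_mem_left _ _ (hn i))
    rwa [show L (monomial μ.1 1) = Pi.basisFun Ω (Mon σ ρ) μ by
      ext ν
      simp [L, coeff_monomial, Pi.single_apply, Subtype.val_inj, eq_comm]] at h4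
  obtain ⟨w, hw1, hw2⟩ := exists_extend_indep (ι := Empty) Empty.elim linearIndependent_empty_type G
    (hG.trans (Submodule.span_mono Set.subset_union_right)) (Fintype.card (Mon σ ρ)) (by simp)
  choose p hp1 hp2 using hw1
  refine ⟨ρ, fun a => p (Fintype.equivFin _ a), fun a => hp1 _, ?_⟩
  rw [← isUnit_iff_ne_zero, ← Matrix.isUnit_iff_isUnit_det,
    ← Matrix.linearIndependent_cols_iff_isUnit]
  have h5 := hw2.comp (fun a => Sum.inr (Fintype.equivFin (Mon σ ρ) a))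
    (Sum.inr_injective.comp (Equiv.injective _))
  rwa [show (Sum.elim Empty.elim w ∘ fun a => Sum.inr (Fintype.equivFin (Mon σ ρ) a)) = _ from
    _root_.funext fun a => hp2 _] at h5

theorem exists_unif_Mac (dg : ι → ℕ) : ∃ ρ0 : ℕ, ∀ (Ω : Type) [Field Ω] [IsAlgClosed Ω]
    (P : ι → MvPolynomial σ Ω), (∀ c, (P c).IsHomogeneous (dg c)) →
    (∀ T, (∀ c, eval T (P c) = 0) → T = 0) → ∃ ρ ≤ ρ0, ∃ κ : Mon σ ρ → ι × (σ →₀ ℕ),
      (∀ a, (κ a).2.degree + dg (κ a).1 = ρ) ∧ (Mac P κ).det ≠ 0 := by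
  let A := MvPolynomial (Cf σ dg) ℤ
  let S : ℕ → Set A := fun N => {a | ∃ ρ ≤ N, ∃ κ : Mon σ ρ → ι × (σ →₀ ℕ),
    (∀ a, (κ a).2.degree + dg (κ a).1 = ρ) ∧ a = (Mac (form X) κ).det}
  obtain ⟨ρ0, h⟩ := monotone_stabilizes_iff_noetherian.mpr (inferInstanceAs (IsNoetherian A A))
    ⟨fun N => Submodule.span A (S N), fun N N' h => Submodule.span_mono
      fun _ ⟨ρ, h1, h2⟩ => ⟨ρ, h1.trans h, h2⟩⟩
  refine ⟨ρ0, fun Ω _ _ P hP h0 => ?_⟩
  let χ : A →+* Ω := eval₂Hom (Int.castRingHom Ω) fun p => coeff p.2.1 (P p.1)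
  have hχ : ∀ c, map χ (form X c) = P c := fun c => by
    ext β
    rw [coeff_map, coeff_form]
    split_ifs with h
    · exact eval₂Hom_X' _ _ _
    · rw [map_zero, (hP c).coeff_eq_zero h]
  have hdet : ∀ ρ (κ : Mon σ ρ → ι × (σ →₀ ℕ)), χ (Mac (form X) κ).det = (Mac P κ).det := by
    intro ρ κ
    rw [RingHom.map_det]
    congr 1
    ext μ a
    simp only [RingHom.mapMatrix_apply, Matrix.map_apply, Mac, ← coeff_map, map_mul, hχ,
      map_monomial, map_one]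
  obtain ⟨ρ, κ, h1, h2⟩ := exists_Mac dg P hP h0
  by_contra hne
  push Not at hne
  have h3 : Submodule.span A (S ρ0) ≤ RingHom.ker χ := Submodule.span_le.mpr
    fun _ ⟨ρ, h1, κ, h2, h3⟩ => by rw [h3]; exact (hdet ρ κ).trans (hne ρ h1 κ h2)
  refine h2 ((hdet ρ κ).symm.trans (h3 ?_))
  rw [show Submodule.span A (S ρ0) = Submodule.span A (S (max ρ ρ0)) from h _ (le_max_right _ _)]
  exact Submodule.subset_span ⟨ρ, le_max_left _ _, κ, h1, rfl⟩

theorem det_mem_graded {R B Γ n : Type*} [CommRing R] [CommRing B] [Algebra R B] [AddCommMonoid Γ]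
    (𝒱 : Γ → Submodule R B) [SetLike.GradedMonoid 𝒱] [Fintype n] [DecidableEq n] {c : Γ}
    (A : Matrix n n B) (h : ∀ i j, A i j ∈ 𝒱 c) : A.det ∈ 𝒱 (Fintype.card n • c) := by
  rw [Matrix.det_apply']
  refine Submodule.sum_mem _ fun s _ => ?_
  rw [← zsmul_eq_mul]
  simpa using zsmul_mem (SetLike.prod_mem_graded 𝒱 (F := univ) (fun _ => c) (fun i => A (s i) i)
    fun i _ => h _ _) _

theorem exists_sigma (σ ι : Type) [Fintype σ] [DecidableEq σ] [Fintype ι] (δ : ℕ) :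
    ∃ m : ℕ, 1 ≤ m ∧ ∀ (E Ω Γ : Type) [Field E] [Field Ω] [Algebra E Ω] [IsAlgClosed Ω]
      [AddCommMonoid Γ] (𝒱 : Γ → Submodule E Ω) [SetLike.GradedMonoid 𝒱] (e c : Γ) (x : σ → Ω),
      (∀ j, x j ∈ 𝒱 e) → (∃ j, x j ≠ 0) → ∀ c0 : Ω, c0 ≠ 0 → c0 ∈ 𝒱 c →
      ∀ P : ι → MvPolynomial σ Ω, (∀ l, (P l).IsHomogeneous δ) → (∀ l α, coeff α (P l) ∈ 𝒱 c) →
      ∀ r : ℕ, (∀ l, eval (fun j => x j ^ r) (P l) = 0) → ∀ u : σ → ℕ,
      (∀ T, (∀ l, eval T (P l) = 0) → ∑ j, (u j : Ω) * T j = 0 → T = 0) →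
      ∃ s : Ω, s ≠ 0 ∧ ∃ ρ : ℕ, ∀ i, s * x i ^ (r * (ρ + 1)) ∈ 𝒱 ((r * ρ) • e + m • c) := by
  classical
  obtain ⟨ρ0, h⟩ := exists_unif_Mac (σ := σ) (fun o : Option ι => o.elim 1 fun _ => δ)
  refine ⟨(range (ρ0 + 1)).sup (fun ρ => Fintype.card (Mon σ ρ)) + 1, by omega,
    fun E Ω Γ _ _ _ _ _ 𝒱 _ e c x hx hx0 c0 hc0 hc P hP hPc r hPx u hu => ?_⟩
  set m := (range (ρ0 + 1)).sup (fun ρ => Fintype.card (Mon σ ρ)) + 1
  let P' : Option ι → MvPolynomial σ Ω := fun o => o.elim (∑ j, C (c0 * u j) * X j) P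
  have hev : ∀ T, eval T (P' none) = c0 * ∑ j, (u j : Ω) * T j := fun T => by
    simp [P', mul_sum, mul_assoc]
  have hP' : ∀ o, (P' o).IsHomogeneous (o.elim 1 fun _ => δ) := by
    rintro (_ | l)
    · exact IsHomogeneous.sum _ _ _ fun j _ => isHomogeneous_C_mul_X _ _
    · exact hP l
  obtain ⟨ρ, hρ, κ, hκ, hdet⟩ := h Ω P' hP' fun T hT => hu T (fun l => hT (some l))
    ((mul_eq_zero.mp ((hev T).symm.trans (hT none))).resolve_left hc0)
  have hm : Fintype.card (Mon σ ρ) ≤ m :=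
    (le_sup (f := fun ρ => Fintype.card (Mon σ ρ)) (mem_range.mpr (Nat.lt_succ_of_le hρ))).trans
      (Nat.le_succ _)
  have hA : ∀ μ a, Mac P' κ μ a ∈ 𝒱 c := fun μ a => by
    rw [Mac, coeff_monomial_mul']
    split_ifs
    · rw [one_mul]
      rcases (κ a).1 with _ | l
      · refine (Submodule.sum_mem (coeffsIn σ (𝒱 c)) fun j _ =>
          mul_X_mem_coeffsIn.mpr (C_mem_coeffsIn.mpr ?_)) _
        rw [mul_comm, ← nsmul_eq_mul]; exact nsmul_mem hc _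
      · exact hPc l _
    · exact zero_mem _
  have hl : ∑ j, (u j : Ω) * x j ^ r ≠ 0 := fun h0 => by
    obtain ⟨j, hj⟩ := hx0
    exact pow_ne_zero r hj (congrFun (hu _ hPx h0) j)
  refine ⟨(Mac P' κ).det * c0 ^ (m - Fintype.card (Mon σ ρ)) / ∑ j, (u j : Ω) * x j ^ r,
    div_ne_zero (mul_ne_zero hdet (pow_ne_zero _ hc0)) hl, ρ, fun i => ?_⟩
  let μ0 : Mon σ ρ := ⟨Finsupp.single i ρ, Finsupp.degree_single _ _⟩
  let cr := (Mac P' κ).cramer (Pi.single μ0 1)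
  have h1 : (Mac P' κ).det * (x i ^ r) ^ ρ =
      ∑ a, cr a * ((∏ j, (x j ^ r) ^ (κ a).2 j) * eval (fun j => x j ^ r) (P' (κ a).1)) := by
    have h2 : ∀ a, (∏ j, (x j ^ r) ^ (κ a).2 j) * eval (fun j => x j ^ r) (P' (κ a).1) =
        ∑ μ, Mac P' κ μ a * ∏ j, (x j ^ r) ^ μ.1 j := fun a => by
      have := eval₂_hom_mon ((hκ a) ▸ (isHomogeneous_monomial (1 : Ω) rfl).mul (hP' (κ a).1))
        (RingHom.id Ω) fun j => x j ^ r
      rw [eval₂_id, map_mul, eval_monomial, one_mul, Finsupp.prod_fintype _ _ (by simp)] at this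
      exact this
    have h3 : ∀ μ, ∑ a, Mac P' κ μ a * cr a = (Mac P' κ).det * (Pi.single μ0 1 : _ → Ω) μ :=
      fun μ => congrFun ((Mac P' κ).mulVec_cramer (Pi.single μ0 1)) μ
    simp only [h2, mul_sum, ← mul_assoc]
    simp only [mul_comm (cr _)]
    rw [sum_comm]
    simp only [← sum_mul, h3]
    simp [Pi.single_apply, μ0, Finsupp.single_apply]
  have h4 : (Mac P' κ).det * c0 ^ (m - Fintype.card (Mon σ ρ)) / (∑ j, (u j : Ω) * x j ^ r) *
      x i ^ (r * (ρ + 1)) = ∑ a, if (κ a).1 = none then (x i ^ r * ∏ j, (x j ^ r) ^ (κ a).2 j) *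
        ((c0 * cr a) * c0 ^ (m - Fintype.card (Mon σ ρ))) else 0 := by
    rw [div_mul_eq_mul_div, div_eq_iff hl, mul_add, pow_add, pow_mul, mul_one, mul_mul_mul_comm, h1,
      sum_mul, sum_mul]
    refine sum_congr rfl fun a _ => ?_
    rcases (κ a).1 with _ | l
    · rw [hev, if_pos rfl]; ring
    · simp [P', hPx]
  rw [h4]
  refine Submodule.sum_mem _ fun a _ => ?_
  split_ifs with ha
  · have h5 : c0 * cr a ∈ 𝒱 (Fintype.card (Mon σ ρ) • c) := by
      rw [← smul_eq_mul, ← Pi.smul_apply, ← map_smul, Matrix.cramer_apply]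
      refine det_mem_graded 𝒱 _ fun μ b => ?_
      rw [Matrix.updateCol_apply]
      split_ifs
      · rw [Pi.smul_apply, Pi.single_apply]
        split_ifs
        · simpa using hc
        · simp
      · exact hA _ _
    have h6 := SetLike.GradedMul.mul_mem (SetLike.GradedMul.mul_mem
      (SetLike.pow_mem_graded r (hx i)) (SetLike.prod_pow_mem_graded 𝒱 (F := univ)
        (fun _ => r • e) (fun j => x j ^ r) (κ a).2 fun j _ => SetLike.pow_mem_graded r (hx j)))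
      (SetLike.GradedMul.mul_mem h5 (SetLike.pow_mem_graded (m - Fintype.card (Mon σ ρ)) hc))
    have h7 := hκ a
    rw [ha, Option.elim_none] at h7
    rwa [← add_nsmul, Nat.add_sub_cancel' hm, ← sum_smul, ← Finsupp.degree_eq_sum, ← succ_nsmul',
      h7, ← mul_nsmul] at h6
  · exact zero_mem _

end Pool.Agent.P.MP_7ede32_ag
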