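import Pool.Agent.P.MP_7ede32_ag.HHilb

/-! From the special fibre to a section on every subvariety of the generic fibre. -/

open Finset MvPolynomial Module Filter
open scoped Polynomial Topology

namespace Pool.Agent.P.MP_7ede32_ag

theorem exists_growth (q N κ m : ℕ) (hm : 1 ≤ m) : ∃ b0, ∀ b, b0 ≤ b → ∀ h : ℕ → ℕ → ℕ,
    (∀ a M, 1 ≤ h a M) → (∀ a, ∃ C, ∀ M, h a M ≤ C * (M + 1) ^ q) →
    (∃ a0 M0, ∀ a M, a0 ≤ a → M0 ≤ M → h (a + b) M ≤ h a (M + m)) →
    ∃ c M B, c + κ * M < B ∧ N * h (c + B) M < (N + 1) * h c M := by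
  obtain ⟨L, hL, hL1⟩ : ∃ L : ℕ, (N : ℝ) * (1 + 1 / (L : ℝ)) ^ q < N + 1 ∧ 1 ≤ L := by
    have h1 : Tendsto (fun L : ℕ => (N : ℝ) * (1 + 1 / (L : ℝ)) ^ q) atTop (𝓝 (N * (1 + 0) ^ q)) :=
      ((tendsto_one_div_atTop_nhds_zero_nat.const_add 1).pow q).const_mul _
    exact ((h1.eventually_lt_const (by simp)).and (eventually_ge_atTop 1)).exists
  refine ⟨2 * (κ + 1) * (L * m), fun b hb h h1 h2 ⟨c, M0, h3⟩ => ?_⟩
  have h4 : ∀ j M, M0 ≤ M → h (c + j * b) M ≤ h c (M + j * m) := by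
    intro j
    induction j with
    | zero => simp
    | succ j ih =>
      intro M hM
      rw [add_mul, one_mul, ← add_assoc, add_mul, one_mul, add_comm (j * m), ← add_assoc]
      exact (h3 _ M le_self_add hM).trans (ih _ (by omega))
  by_contra hne
  push Not at hne
  obtain ⟨C, hC⟩ := h2 c
  obtain ⟨u, hu1, hu⟩ : ∃ u : ℕ → ℕ, u 0 = M0 + c + L * m ∧
      ∀ t, u (t + 1) = u t + u t / (L * m) * m :=
    ⟨fun t => Nat.rec (M0 + c + L * m) (fun _ M => M + M / (L * m) * m) t, rfl, fun _ => rfl⟩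
  have hu0 : ∀ t, M0 + c + L * m ≤ u t := fun t => by
    induction t with
    | zero => exact hu1.ge
    | succ t ih => rw [hu]; omega
  have hLm : 0 < L * m := Nat.mul_pos hL1 hm
  have h5 : ∀ t, (N + 1) * h c (u t) ≤ N * h c (u (t + 1)) := fun t => by
    refine (hne c (u t) (u t / (L * m) * b) ?_).trans
      (Nat.mul_le_mul_left _ (hu t ▸ h4 _ (u t) (by have := hu0 t; omega)))
    have e1 : 1 ≤ u t / (L * m) := (Nat.one_le_div_iff hLm).mpr (by have := hu0 t; omega)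
    have e2 : u t < (u t / (L * m) + 1) * (L * m) := by
      rw [mul_comm]; exact Nat.lt_mul_div_succ _ hLm
    have e3 := hu0 t
    calc c + κ * u t ≤ (κ + 1) * u t := by nlinarith
      _ < (κ + 1) * ((u t / (L * m) + 1) * (L * m)) := Nat.mul_lt_mul_of_pos_left e2 (by omega)
      _ ≤ (κ + 1) * ((2 * (u t / (L * m))) * (L * m)) := by gcongr; omega
      _ = u t / (L * m) * (2 * (κ + 1) * (L * m)) := by ring
      _ ≤ _ := Nat.mul_le_mul_left _ hb
  have h6 : ∀ t, (N + 1) ^ t ≤ N ^ t * h c (u t) := fun t => by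
    induction t with
    | zero => simpa using h1 _ _
    | succ t ih =>
      calc (N + 1) ^ (t + 1) = (N + 1) ^ t * (N + 1) := pow_succ _ _
        _ ≤ N ^ t * h c (u t) * (N + 1) := Nat.mul_le_mul_right _ ih
        _ = N ^ t * ((N + 1) * h c (u t)) := by ring
        _ ≤ N ^ t * (N * h c (u (t + 1))) := Nat.mul_le_mul_left _ (h5 t)
        _ = _ := by ring
  have hL0 : (0 : ℝ) < L := by exact_mod_cast hL1
  have h7 : ∀ t : ℕ, ((u t : ℕ) : ℝ) + 1 ≤ (1 + 1 / (L : ℝ)) ^ t * (((u 0 : ℕ) : ℝ) + 1) := fun t => by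
    induction t with
    | zero => simp
    | succ t ih =>
      have e1 : ((u t / (L * m) * m : ℕ) : ℝ) * L ≤ u t := by
        exact_mod_cast (le_of_eq (by ring)).trans (Nat.div_mul_le_self (u t) (L * m))
      have e2 : ((u t / (L * m) * m : ℕ) : ℝ) ≤ 1 / L * (u t + 1) := by
        rw [one_div, inv_mul_eq_div, le_div_iff₀ hL0]; linarith
      rw [hu, Nat.cast_add, pow_succ', mul_assoc]
      calc ((u t : ℕ) : ℝ) + (u t / (L * m) * m : ℕ) + 1 ≤ (1 + 1 / (L : ℝ)) * (u t + 1) := by linarith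
        _ ≤ _ := by gcongr
  have h8 : Tendsto (fun t : ℕ => ((N : ℝ) * (1 + 1 / (L : ℝ)) ^ q / (N + 1)) ^ t *
      (C * (((u 0 : ℕ) : ℝ) + 1) ^ q)) atTop (𝓝 (0 * (C * (((u 0 : ℕ) : ℝ) + 1) ^ q))) :=
    (tendsto_pow_atTop_nhds_zero_of_lt_one (by positivity)
      ((div_lt_one (by positivity)).mpr hL)).mul_const _
  obtain ⟨t, ht⟩ := (h8.eventually_lt_const (show (0 : ℝ) * _ < 1 by simp)).exists
  rw [div_pow, div_mul_eq_mul_div, div_lt_one (by positivity)] at ht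
  refine absurd ht (not_lt.mpr ?_)
  calc ((N : ℝ) + 1) ^ t ≤ N ^ t * (C * (((u t : ℕ) : ℝ) + 1) ^ q) := by
        exact_mod_cast (h6 t).trans (Nat.mul_le_mul_left _ (hC _))
    _ ≤ N ^ t * (C * ((1 + 1 / (L : ℝ)) ^ t * (((u 0 : ℕ) : ℝ) + 1)) ^ q) := by gcongr; exact h7 t
    _ = _ := by rw [mul_pow, mul_pow, ← pow_mul, ← pow_mul, mul_comm t q]; ring

variable {σ P : Type} [Fintype σ] [Fintype P] {E : Type} [Field E]

attribute [local instance] MvPolynomial.weightedGradedAlgebra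

theorem exists_special {Ω : Type} [Field Ω] [Algebra E[X] Ω] [FaithfulSMul E[X] Ω]
    (z : σ ⊕ P → Ω) : ∃ I : Ideal (MvPolynomial (σ ⊕ P) E), I.IsHomogeneous (VV σ P E) ∧
      (∀ d, ∀ g ∈ VV σ P E[X] d, aeval z g = 0 → map (Polynomial.evalRingHom 0) g ∈ I) ∧
      ∀ d, HF I d = finrank E[X] (Val E[X] z d) := by
  let ρ : MvPolynomial (σ ⊕ P) E[X] →+* MvPolynomial (σ ⊕ P) E := map (Polynomial.evalRingHom 0)
  let S : Set (MvPolynomial (σ ⊕ P) E[X]) := {g | (∃ d, g ∈ VV σ P E[X] d) ∧ aeval z g = 0}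
  have hJ : (Ideal.span S).IsHomogeneous (VV σ P E[X]) := Ideal.homogeneous_span _ _ fun g h => h.1
  have hJ0 : ∀ g ∈ Ideal.span S, aeval z g = 0 :=
    fun g hg => (Ideal.span_le (I := RingHom.ker (aeval z))).mpr (fun g h => h.2) hg
  have hI : ∀ d, ∀ g ∈ VV σ P E[X] d, aeval z g = 0 → ρ g ∈ (Ideal.span S).map ρ :=
    fun d g h1 h2 => Ideal.mem_map_of_mem _ (Ideal.subset_span ⟨⟨d, h1⟩, h2⟩)
  have hρ : ∀ f, ρ (map Polynomial.C f) = f := fun f => by
    simp only [ρ, MvPolynomial.map_map]; convert MvPolynomial.map_id f; ext; simp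
  have hs : ∀ (r : E[X]) g, ρ (r • g) = r.eval 0 • ρ g := fun r g => by
    simp [smul_eq_C_mul, ρ]
  refine ⟨(Ideal.span S).map ρ, ?_, hI, fun d => ?_⟩
  · rw [Ideal.map_span]
    exact Ideal.homogeneous_span _ _ (by
      rintro _ ⟨g, ⟨⟨d, h⟩, -⟩, rfl⟩; exact ⟨d, map_mem_VV _ h⟩)
  let q := Module.finBasis E[X] (Val E[X] z d)
  choose v hv1 hv2 using fun i => (q i).2
  have hrep : ∀ g ∈ VV σ P E[X] d, ∃ r : _ → E[X], aeval z g = ∑ i, r i • (q i : Ω) :=
    fun g hg => ⟨q.repr ⟨_, g, hg, rfl⟩, by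
      have := (congrArg Subtype.val (q.sum_repr ⟨_, g, hg, rfl⟩)).symm
      rwa [Submodule.coe_sum] at this⟩
  have hev : ∀ r : _ → E[X], aeval z (∑ i, r i • v i) = ∑ i, r i • (q i : Ω) := fun r => by
    simp only [map_sum, map_smul, ← hv2]; rfl
  have hmem : ∀ r : _ → E[X], ∑ i, r i • v i ∈ VV σ P E[X] d :=
    fun r => Submodule.sum_mem _ fun i _ => Submodule.smul_mem _ _ (hv1 i)
  let π := Ideal.Quotient.mkₐ E ((Ideal.span S).map ρ)
  have hind : LinearIndependent E fun i => π (ρ (v i)) := by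
    rw [Fintype.linearIndependent_iff]
    intro c hc i
    have h1 : π (ρ (∑ i, (Polynomial.C (c i) : E[X]) • v i)) = 0 := by
      simpa [map_sum, hs] using hc
    obtain ⟨g, hg, hg'⟩ := (Ideal.mem_map_iff_of_surjective ρ fun f => ⟨_, hρ f⟩).mp
      (Ideal.Quotient.eq_zero_iff_mem.mp h1)
    obtain ⟨u, hu⟩ : C Polynomial.X ∣ (∑ i, (Polynomial.C (c i) : E[X]) • v i) - g :=
      (C_dvd_iff_dvd_coeff _ _).mpr fun μ => by
        rw [Polynomial.X_dvd_iff, Polynomial.coeff_zero_eq_eval_zero]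
        exact (coeff_map _ _ _).symm.trans (congrArg (coeff μ) (show ρ (_ - g) = 0 by
          rw [map_sub, hg', sub_self]))
    have h2 := congrArg (fun f => aeval z (weightedHomogeneousComponent (wt σ P) d f)) hu
    obtain ⟨r, hr⟩ := hrep _ (weightedHomogeneousComponent_mem (wt σ P) u d)
    simp only [map_sub, weightedHomogeneousComponent_C_mul] at h2
    rw [weightedHomogeneousComponent_eq_self (hmem _), hev,
      hJ0 _ (weightedHomogeneousComponent_mem_of_mem _ _ hJ hg d), sub_zero, ← smul_eq_C_mul,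
      map_smul, hr, smul_sum] at h2
    have h3 := Fintype.linearIndependent_iff.mp (q.linearIndependent.map' (Submodule.subtype _)
      (Submodule.ker_subtype _)) (fun i => Polynomial.C (c i) - Polynomial.X * r i) (by
        simp only [sub_smul, sum_sub_distrib, mul_smul]; exact sub_eq_zero.mpr h2) i
    simpa using congrArg (Polynomial.eval 0) h3
  rw [← Fintype.card_fin (finrank _ _), ← finrank_span_eq_card hind, HF]
  refine congrArg (fun W : Submodule E _ => finrank E W) (le_antisymm ?_ (Submodule.span_le.mpr ?_))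
  · rintro _ ⟨f, hf, rfl⟩
    obtain ⟨r, hr⟩ := hrep _ (map_mem_VV Polynomial.C hf)
    have h1 := Ideal.Quotient.eq.mpr (map_sub ρ _ _ ▸ hI d _ (Submodule.sub_mem _
      (map_mem_VV Polynomial.C hf) (hmem r)) (by rw [map_sub, hev, hr, sub_self]))
    rw [hρ] at h1
    have h2 : π f = ∑ i, (r i).eval 0 • π (ρ (v i)) := by
      simpa only [map_sum, hs, map_smul] using show π f = π (ρ (∑ i, r i • v i)) from h1
    rw [AlgHom.toLinearMap_apply, h2]
    exact Submodule.sum_mem _ fun i _ => Submodule.smul_mem _ _ (Submodule.subset_span ⟨i, rfl⟩)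
  · rintro _ ⟨i, rfl⟩
    exact ⟨_, map_mem_VV _ (hv1 i), rfl⟩

theorem exists_section (σ P : Type) [Fintype σ] [Fintype P] (κ m : ℕ) (hm : 1 ≤ m) :
    ∃ b0, ∀ b, b0 ≤ b → ∀ (E : Type) [Field E] (Q : Type) (e : Q → MvPolynomial (σ ⊕ P) E[X]),
      (∀ q, ∃ d, e q ∈ VV σ P E[X] d) →
      (∀ (Ω : Type) [Field Ω] [IsAlgClosed Ω] [Algebra E Ω] (z : σ ⊕ P → Ω),
        (∀ q, aeval z (map (Polynomial.evalRingHom 0) (e q)) = 0) → (∃ i, z (Sum.inl i) ≠ 0) →
        (∃ f, z (Sum.inr f) ≠ 0) →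
        ∃ s : Ω, s ≠ 0 ∧ ∃ N, ∀ i, s * z (Sum.inl i) ^ (N + b) ∈ Val E z (bd N m)) →
      ∀ (Ω : Type) [Field Ω] [Algebra E[X] Ω] [FaithfulSMul E[X] Ω] (z : σ ⊕ P → Ω),
        (∀ q, aeval z (e q) = 0) → (∃ i, z (Sum.inl i) ≠ 0) → (∃ f, z (Sum.inr f) ≠ 0) →
        ∃ c M B, c + κ * M < B ∧ ∃ ψ : Ω, ψ ≠ 0 ∧
          ∀ i, ψ * z (Sum.inl i) ^ B ∈ Val E[X] z (bd c M) := by
  obtain ⟨b0, hb0⟩ := exists_growth (Fintype.card P) (Fintype.card σ) κ m hm
  refine ⟨b0, fun b hb E _ Q e he H Ω _ _ _ z hz ⟨i0, hi0⟩ ⟨f0, hf0⟩ => ?_⟩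
  obtain ⟨I, hI, hI1, hI2⟩ := exists_special (E := E) z
  have := graded_Val (R := E[X]) z
  have hx : ∀ i B, z (Sum.inl i) ^ B ∈ Val E[X] z (bd B 0) := fun i B => by
    simpa only [wt, smul_bd, Sum.elim_inl, mul_one, mul_zero] using
      SetLike.pow_mem_graded B (mem_Val (R := E[X]) z (Sum.inl i))
  obtain ⟨c, M, B, h1, h2⟩ := hb0 b hb (fun a M => HF I (bd a M))
    (fun a M => by
      rw [hI2]
      refine Module.finrank_pos_iff_exists_ne_zero.mpr ⟨⟨z (Sum.inl i0) ^ a * z (Sum.inr f0) ^ M,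
        ?_⟩, fun h => mul_ne_zero (pow_ne_zero _ hi0) (pow_ne_zero _ hf0) (congrArg Subtype.val h)⟩
      simpa only [wt, smul_bd, bd_add, Sum.elim_inr, mul_one, mul_zero, add_zero, zero_add] using
        SetLike.GradedMul.mul_mem (hx i0 a)
        (SetLike.pow_mem_graded M (mem_Val (R := E[X]) z (Sum.inr f0))))
    (fun a => ⟨_, HF_le I a⟩)
    (HF_devissage _ H I hI fun q => (he q).elim fun d hd => hI1 d _ hd (hz q))
  let μ : σ → (Val E[X] z (bd c M) →ₗ[E[X]] Val E[X] z (bd (c + B) M)) := fun i =>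
    (LinearMap.mulRight E[X] (z (Sum.inl i) ^ B)).restrict
      fun u hu => SetLike.GradedMul.mul_mem hu (hx i B)
  let Φ : (Val E[X] z (bd c M) × (σ → Val E[X] z (bd c M))) →ₗ[E[X]]
      (σ → Val E[X] z (bd (c + B) M)) := LinearMap.pi fun i =>
    μ i ∘ₗ LinearMap.fst _ _ _ - μ i0 ∘ₗ LinearMap.proj i ∘ₗ LinearMap.snd _ _ _
  obtain ⟨⟨G, G'⟩, hG, hG0⟩ : ∃ x, Φ x = 0 ∧ x ≠ 0 := by
    by_contra hne
    push Not at hne
    have := LinearMap.finrank_le_finrank_of_injective ((injective_iff_map_eq_zero Φ).mpr hne)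
    simp only [Module.finrank_prod, Module.finrank_pi_fintype, sum_const, card_univ, smul_eq_mul,
      ← hI2] at this
    linarith
  have h3 : ∀ i, (G : Ω) * z (Sum.inl i) ^ B = G' i * z (Sum.inl i0) ^ B := fun i =>
    sub_eq_zero.mp (congrArg Subtype.val (congrFun hG i))
  have h4 := pow_ne_zero B hi0
  refine ⟨c, M, B, h1, G / z (Sum.inl i0) ^ B, div_ne_zero (fun h => hG0 ?_) h4, fun i => ?_⟩
  · refine Prod.ext (Subtype.ext h) (_root_.funext fun i => Subtype.ext ?_)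
    exact (mul_eq_zero.mp ((h3 i).symm.trans (by rw [h, zero_mul]))).resolve_right h4
  · rw [div_mul_eq_mul_div, h3, mul_div_cancel_right₀ _ h4]
    exact (G' i).2

end Pool.Agent.P.MP_7ede32_ag
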