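import Pool.Agent.P.MP_7ede32_ag.HSec

/-! The equations of the Wronskian variety and its special fibre. -/

open Finset MvPolynomial Module

namespace Pool.Agent.P.MP_7ede32_ag

theorem card_le_of_lin {Ω B Q : Type} [Field Ω] [CharZero Ω] [Fintype B] [Fintype Q] {v : B → Ω}
    (hv : AlgebraicIndependent ℚ v) (S : Finset Ω) (a : Q → B → Ω)
    (ha : ∀ q β, a q β ∈ acl (S : Set Ω)) (hli : LinearIndependent Ω a)
    (h0 : ∀ q, ∑ β, a q β * v β = 0) : Fintype.card Q ≤ S.card := by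
  classical
  obtain ⟨s, hs1, hs⟩ := exists_isTranscendenceBasis_superset hv.to_subtype_range
  have hall : ∀ u : Ω, u ∈ acl (Set.range (algebraMap ℚ Ω) ∪ Set.range ((↑) : s → Ω)) := by
    intro u
    refine mem_acl_of_isAlgebraic (R := Algebra.adjoin ℚ (Set.range ((↑) : s → Ω)))
      Subtype.val_injective (fun r => ?_) (hs.isAlgebraic.isAlgebraic u)
    have : Algebra.adjoin ℚ (Set.range ((↑) : s → Ω)) ≤
        ((acl (Set.range (algebraMap ℚ Ω) ∪ Set.range ((↑) : s → Ω))).toIntermediateField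
          (fun c => subset_acl _ (Or.inl ⟨c, rfl⟩))).toSubalgebra := by
      rw [Algebra.adjoin_le_iff]; exact fun y hy => subset_acl _ (Or.inr hy)
    exact this r.2
  choose e _ he using exists_dual_der _ hs.1 hall
  let e' : B → Der Ω := fun β => e ⟨v β, hs1 ⟨β, rfl⟩⟩
  have he' : ∀ (c : B → Ω) β, (Der.comb c e').D (v β) = c β := fun c β => by
    have : ∀ γ, (e' γ).D (v β) = if β = γ then 1 else 0 := fun γ =>
      (he _ ⟨v β, hs1 ⟨β, rfl⟩⟩).trans (by simp [hv.injective.eq_iff])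
    simp [Der.comb, this]
  let L1 := (Matrix.of fun (u : S) β => (e' β).D u).mulVecLin
  let L2 := (Matrix.of a).mulVecLin
  have hker : LinearMap.ker L1 ≤ LinearMap.ker L2 := fun c hc => by
    have h1 : acl (S : Set Ω) ≤ (Der.comb c e').const := (Der.comb c e').acl_le_const fun u hu => by
      simpa [L1, Matrix.mulVec, dotProduct, Der.comb, Der.mem_const, mul_comm] using
        congrFun hc ⟨u, hu⟩
    funext q
    have h2 := congrArg (Der.comb c e').D (h0 q)
    rw [Der.D_zero, Der.D_sum] at h2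
    simp only [Der.D_mul, he', (Der.comb c e').mem_const.mp (h1 (ha q _)), mul_zero, add_zero] at h2
    exact h2
  have h1 := L1.finrank_range_add_finrank_ker
  have h2 := L2.finrank_range_add_finrank_ker
  have h3 := Submodule.finrank_mono hker
  have h4 : finrank Ω (LinearMap.range L1) ≤ S.card :=
    (Submodule.finrank_le _).trans (by simp)
  have h5 : finrank Ω (LinearMap.range L2) = Fintype.card Q :=
    LinearIndependent.rank_matrix (M := Matrix.of a) hli
  omega

/-- the index set of the Plücker coordinates -/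
abbrev Pl (σ J : Type) (k : ℕ) := Fin (k + 1) → Mon σ k × J

variable {σ J : Type} [Fintype σ] [DecidableEq σ] [Fintype J] {k d : ℕ}

section ring

variable {B B' : Type} [CommRing B] [CommRing B']

/-- contraction of the Plücker vector with a truncated monomial -/
noncomputable def con (x : σ → B) (p : Pl σ J k → B) (i : σ) (ν μ : σ →₀ ℕ) (j : J) (f : Pl σ J k)
    (l : Fin (k + 1)) : B :=
  ∑ α : Mon σ k, coeff α.1 (Tr k x i ν μ) * p (Function.update f l (α, j))

omit [Fintype J] in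
theorem con_map (φ : B →+* B') (x : σ → B) (p : Pl σ J k → B) (i : σ) (ν μ : σ →₀ ℕ) (j : J)
    (f : Pl σ J k) (l : Fin (k + 1)) :
    φ (con x p i ν μ j f l) = con (fun j => φ (x j)) (fun f => φ (p f)) i ν μ j f l := by
  simp only [con, map_sum, map_mul, ← Tr_map, coeff_map]

open Classical in
/-- the equations -/
noncomputable def eqn (s : J × Mon σ d → B) (z : σ ⊕ Pl σ J k → B) :
    Pl σ J k ⊕ σ × Pl σ J k × Fin (k + 1) → B :=
  Sum.elim (fun f => if Function.Injective f then 0 else z (Sum.inr f)) fun q =>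
    z (Sum.inl q.1) * ∑ v, s v * con (fun j => z (Sum.inl j)) (fun f => z (Sum.inr f)) q.1 v.2.1
      v.2.1 v.1 q.2.1 q.2.2

theorem eqn_map (φ : B →+* B') (s : J × Mon σ d → B) (z : σ ⊕ Pl σ J k → B) (q) :
    φ (eqn s z q) = eqn (fun v => φ (s v)) (fun v => φ (z v)) q := by
  rcases q with f | q
  · simp only [eqn, Sum.elim_inl, apply_ite φ, map_zero]
  · simp only [eqn, Sum.elim_inr, map_mul, map_sum, con_map]

theorem eqn_smul (u : B) {s : J × Mon σ d → B} {z : σ ⊕ Pl σ J k → B} {q} (h : eqn s z q = 0) :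
    eqn (fun v => u * s v) z q = 0 := by
  rcases q with f | q
  · exact h
  · simp only [eqn, Sum.elim_inr, mul_assoc, ← mul_sum] at h ⊢
    rw [mul_left_comm, h, mul_zero]

omit [Fintype J] in
theorem con_mem {R : Type} [CommRing R] [Algebra R B] (𝒜 : ℕ ×ₗ ℕ → Submodule R B)
    [SetLike.GradedMonoid 𝒜] (z : σ ⊕ Pl σ J k → B) (hz : ∀ v, z v ∈ 𝒜 (wt _ _ v)) (r : ℕ) (i : σ)
    (β I : σ →₀ ℕ) (j : J) (f : Pl σ J k) (l : Fin (k + 1)) :
    con (fun j => z (Sum.inl j)) (fun f => z (Sum.inr f)) i (β + k • I) (β + (r + k) • I) j f l ∈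
      𝒜 (bd (β + k • I).degree 1) := by
  refine Submodule.sum_mem _ fun α _ => ?_
  simpa only [wt, Sum.elim_inr, smul_bd, bd_add, mul_one, mul_zero, add_zero,
    zero_add] using SetLike.GradedMul.mul_mem
      (Tr_mem 𝒜 (e := bd 1 0) k r _ (fun j => hz (Sum.inl j)) i β I α.1) (hz (Sum.inr _))

theorem eqn_mem (s : J × Mon σ d → B) (q) :
    ∃ e, eqn (k := k) (fun v => C (s v)) X q ∈ VV σ (Pl σ J k) B e := by
  have : SetLike.GradedMonoid (VV σ (Pl σ J k) B) := WeightedHomogeneousSubmodule.gradedMonoid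
  rcases q with f | q
  · refine ⟨bd 0 1, ?_⟩
    simp only [eqn, Sum.elim_inl]
    split_ifs
    · exact zero_mem _
    · exact isWeightedHomogeneous_X _ _ _
  · refine ⟨_, SetLike.GradedMul.mul_mem (isWeightedHomogeneous_X _ _ _)
      (Submodule.sum_mem (VV σ (Pl σ J k) B (bd d 1)) fun v _ => ?_)⟩
    have := con_mem (VV σ (Pl σ J k) B) X (fun v => isWeightedHomogeneous_X _ _ _) 0 q.1 v.2.1 0
      v.1 q.2.1 q.2.2
    simp only [smul_zero, add_zero, v.2.2] at this
    exact IsWeightedHomogeneous.C_mul this _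

end ring

variable {Ω : Type} [Field Ω] [CharZero Ω] {δ ε : ℕ}

omit [CharZero Ω] in
theorem exists_points {j0 : σ} {Z : Set (σ → Ω)} (hZ : Z.Infinite) (h1 : ∀ T ∈ Z, T j0 = 1) (δ : ℕ) :
    ∃ T : Fin (δ + 1) → σ → Ω, (∀ a, T a ∈ Z) ∧ ∀ g : Fin (δ + 1) → Ω,
      (∀ I : Mon σ δ, ∑ a, g a * ∏ j, T a j ^ I.1 j = 0) → ∀ a, g a = 0 := by
  let T : Fin (δ + 1) → σ → Ω := fun a => hZ.natEmbedding _ a
  have hT : ∀ a, T a ∈ Z := fun a => Subtype.property _
  have hinj : Function.Injective T :=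
    Subtype.val_injective.comp ((hZ.natEmbedding _).injective.comp Fin.val_injective)
  refine ⟨T, hT, fun g hg a => ?_⟩
  have h2 : ∀ b, ∃ j, b ≠ a → T a j ≠ T b j := fun b => by
    by_cases h : b = a
    · exact ⟨j0, fun h' => absurd h h'⟩
    · obtain ⟨j, hj⟩ := Function.ne_iff.mp (hinj.ne (Ne.symm h))
      exact ⟨j, fun _ => hj⟩
  choose j hj using h2
  let Q : MvPolynomial σ Ω := ∏ b ∈ univ.erase a, (X (j b) - C (T b (j b)) * X j0)
  have hQ : Q.IsHomogeneous δ := by
    simpa using IsHomogeneous.prod (univ.erase a) _ (fun _ => 1)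
      fun b _ => (isHomogeneous_X Ω (j b)).sub (isHomogeneous_C_mul_X (T b (j b)) j0)
  have h3 : ∀ b, eval (T b) Q = ∏ c ∈ univ.erase a, (T b (j c) - T c (j c)) := fun b => by
    simp [Q, h1 _ (hT b)]
  have h4 : ∑ b, g b * eval (T b) Q = 0 := by
    simp only [← eval₂_id, eval₂_hom_mon hQ, mul_sum, mul_left_comm (g _)]
    rw [sum_comm]
    simp only [← mul_sum, hg, mul_zero, sum_const_zero]
  rw [sum_eq_single a (fun b _ hb => by
    rw [h3, prod_eq_zero (mem_erase.mpr ⟨hb, mem_univ _⟩) (sub_self _), mul_zero]) (by simp),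
    h3] at h4
  exact (mul_eq_zero.mp h4).resolve_right
    (prod_ne_zero_iff.mpr fun b hb => sub_ne_zero.mpr (hj b (mem_erase.mp hb).1))

theorem exists_line (hσ : Fintype.card σ = k + 2)
    (hδ : δ = Fintype.card σ + Fintype.card (Pl σ J k)) (hε : k ≤ ε) (r : ℕ)
    {b : Mon σ δ × J × Mon σ ε → Ω} (hb : AlgebraicIndependent ℚ b) (x : σ → Ω) (p : Pl σ J k → Ω)
    {i : σ} (hi : x i ≠ 0) {f : Pl σ J k} (hf : p f ≠ 0)
    (hp : ∀ f, ¬ Function.Injective f → p f = 0) : ∃ u : σ → ℕ, ∀ T : σ → Ω,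
      (∀ l, ∑ β, (∏ j, T j ^ β.1.1 j) * con x p i (β.2.2.1 + k • β.1.1) (β.2.2.1 + (r + k) • β.1.1)
        β.2.1 f l * b β = 0) → (∀ j, x j = 0 → T j = 0) → ∑ j, (u j : Ω) * T j = 0 → T = 0 := by
  classical
  by_contra hne
  push Not at hne
  let u : ℕ → σ → ℕ := fun t j => (t + 1) ^ (Fintype.equivFin σ j : ℕ)
  let Z : σ → Set (σ → Ω) := fun j0 => {T | T j0 = 1 ∧ (∀ l, ∑ β, (∏ j, T j ^ β.1.1 j) *
    con x p i (β.2.2.1 + k • β.1.1) (β.2.2.1 + (r + k) • β.1.1) β.2.1 f l * b β = 0) ∧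
    (∀ j, x j = 0 → T j = 0) ∧ ∃ t, ∑ j, (u t j : Ω) * T j = 0}
  obtain ⟨j0, hj0⟩ : ∃ j0, (Z j0).Infinite := by
    by_contra hfin
    push Not at hfin
    have h1 : ∀ j0, ∀ T ∈ Z j0, {t : ℕ | ∑ j, (u t j : Ω) * T j = 0}.Finite := by
      intro j0 T hT
      let Q : Polynomial Ω := ∑ j, Polynomial.monomial (Fintype.equivFin σ j) (T j)
      have hQ : Q ≠ 0 := fun h => by
        have := congrArg (Polynomial.coeff · (Fintype.equivFin σ j0)) h
        simp [Q, Polynomial.coeff_monomial, Fin.val_inj, hT.1] at this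
      refine ((Polynomial.finite_setOfPred_isRoot hQ).preimage (f := fun t : ℕ => (t : Ω) + 1)
        fun a _ b _ h => Nat.cast_injective (add_right_cancel h)).subset fun t ht => ?_
      simpa [Q, Polynomial.eval_finsetSum, u, mul_comm] using ht
    obtain ⟨t, ht⟩ := (Set.finite_iUnion fun j0 => (hfin j0).biUnion (h1 j0)).exists_notMem
    obtain ⟨T, h2, h3, h4, h5⟩ := hne (u t)
    obtain ⟨j0, h6⟩ := Function.ne_iff.mp h5
    have h7 : ∑ j, (u t j : Ω) * ((T j0)⁻¹ * T j) = 0 := by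
      simp only [mul_left_comm _ (T j0)⁻¹, ← mul_sum, h4, mul_zero]
    refine ht (Set.mem_iUnion.mpr ⟨j0, Set.mem_biUnion (x := fun j => (T j0)⁻¹ * T j)
      ⟨inv_mul_cancel₀ h6, fun l => ?_, fun j hj => by simp [h3 j hj], t, h7⟩ h7⟩)
    have : ∀ I : Mon σ δ, ∏ j, ((T j0)⁻¹ * T j) ^ I.1 j = (T j0)⁻¹ ^ δ * ∏ j, T j ^ I.1 j := fun I => by
      simp only [mul_pow, prod_mul_distrib, prod_pow_eq_pow_sum, ← Finsupp.degree_eq_sum, I.2]
    simp only [this, mul_assoc _ (∏ j, _), mul_assoc ((T j0)⁻¹ ^ δ), ← mul_sum]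
    simp only [h2, mul_zero]
  obtain ⟨T, hT, hsep⟩ := exists_points hj0 (fun T h => h.1) δ
  obtain ⟨j1, hj1⟩ := Fintype.exists_ne_of_one_lt_card (by omega) j0
  let S : Finset Ω := univ.image x ∪ univ.image p ∪
    univ.biUnion fun a => ((univ.erase j0).erase j1).image (T a)
  have hS : S.card ≤ δ + (δ + 1) * k := by
    refine (card_union_le _ _).trans (add_le_add ((card_union_le _ _).trans
      ((add_le_add card_image_le card_image_le).trans hδ.ge)) ?_)
    refine (card_biUnion_le_card_mul _ _ k fun a _ => card_image_le.trans ?_).trans (by simp)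
    rw [card_erase_of_mem (by simp [hj1]), card_erase_of_mem (mem_univ _), card_univ, hσ]
    rfl
  have hTS : ∀ a j, T a j ∈ acl (S : Set Ω) := by
    intro a
    have h1 : ∀ j, j ≠ j1 → T a j ∈ acl (S : Set Ω) := fun j hj => by
      by_cases h : j = j0
      · rw [h, (hT a).1]; exact one_mem _
      · exact subset_acl _ (mem_union_right _ (mem_biUnion.mpr
          ⟨a, mem_univ _, mem_image_of_mem _ (by simp [h, hj])⟩))
    intro j
    by_cases h : j = j1
    swap
    · exact h1 j h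
    obtain ⟨t, ht⟩ := (hT a).2.2.2
    rw [← add_sum_erase _ _ (mem_univ j1), add_eq_zero_iff_eq_neg, ← eq_inv_mul_iff_mul_eq₀
      (Nat.cast_ne_zero.mpr (pow_ne_zero _ t.succ_ne_zero))] at ht
    rw [h, ht]
    exact mul_mem (inv_mem (natCast_mem _ _)) (neg_mem (sum_mem fun j hj =>
      mul_mem (natCast_mem _ _) (h1 j (mem_erase.mp hj).1)))
  have key := card_le_of_lin hb S (fun (q : Fin (k + 1) × Fin (δ + 1)) β => (∏ j, T q.2 j ^ β.1.1 j) *
      con x p i (β.2.2.1 + k • β.1.1) (β.2.2.1 + (r + k) • β.1.1) β.2.1 f q.1)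
    (fun q β => mul_mem (prod_mem fun j _ => pow_mem (hTS _ _) _) (by
      have := con_map (acl (S : Set Ω)).subtype
        (fun j => ⟨x j, subset_acl _ (by simp [S])⟩) (fun f => ⟨p f, subset_acl _ (by simp [S])⟩)
        i (β.2.2.1 + k • β.1.1) (β.2.2.1 + (r + k) • β.1.1) β.2.1 f q.1
      exact this ▸ Subtype.property _)) ?_ fun q => (hT q.2).2.1 q.1
  · rw [Fintype.card_prod, Fintype.card_fin, Fintype.card_fin] at key
    nlinarith
  rw [Fintype.linearIndependent_iff]
  rintro g hg ⟨l, a⟩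
  refine hsep (fun a => g (l, a)) (fun I => ?_) a
  by_cases hI : ∀ j, I.1 j ≠ 0 → x j ≠ 0
  swap
  · push Not at hI
    obtain ⟨j, h1, h2⟩ := hI
    exact sum_eq_zero fun a _ => by
      rw [prod_eq_zero (mem_univ j) (by rw [(hT a).2.2.1 j h2, zero_pow h1]), mul_zero]
  have h1 := congrFun (Tr_span hε r x hi I.1 hI (fun α => ∑ q, (g q * ∏ j, T q.2 j ^ I.1 j) *
    p (Function.update f q.1 (α, (f l).2))) fun β => by
      have := congrFun hg (I, (f l).2, β)
      simp only [Finset.sum_apply, Pi.smul_apply, smul_eq_mul, con, mul_sum, Pi.zero_apply] at this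
      rw [sum_comm] at this
      simp only [sum_mul]
      exact (sum_congr rfl fun _ _ => sum_congr rfl fun _ _ => by ring).trans this) (f l).1
  rw [Fintype.sum_prod_type, sum_eq_single l (fun l' _ hl => sum_eq_zero fun a _ => by
    rw [hp _ fun h => hl (h (by simp [Function.update_of_ne hl.symm])), mul_zero]) (by simp)] at h1
  simp only [Prod.mk.eta, Function.update_eq_self, ← sum_mul] at h1
  exact (mul_eq_zero.mp h1).resolve_right hf

/-- the coefficients of the special fibre -/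
noncomputable def emb (r : ℕ) (hd : d = ε + (r + k) * δ) (β : Mon σ δ × J × Mon σ ε) : J × Mon σ d :=
  (β.2.1, ⟨β.2.2.1 + (r + k) • β.1.1, by rw [map_add, map_nsmul, β.1.2, β.2.2.2, hd, smul_eq_mul]⟩)

open Classical in
/-- push forward of coefficients -/
noncomputable def pf {S T B : Type} [Fintype S] [CommRing B] (e : S → T) (b : S → B) (v : T) : B :=
  ∑ β, if e β = v then b β else 0

theorem pf_map {S T B B' : Type} [Fintype S] [CommRing B] [CommRing B'] (φ : B →+* B') (e : S → T)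
    (b : S → B) (v : T) : φ (pf e b v) = pf e (fun β => φ (b β)) v := by
  simp only [pf, map_sum, apply_ite φ, map_zero]

theorem pf_mul {S T B : Type} [Fintype S] [CommRing B] (e : S → T) (u : B) (b : S → B) (v : T) :
    pf e (fun β => u * b β) v = u * pf e b v := by
  simp only [pf, mul_sum, mul_ite, mul_zero]

theorem sum_pf {S T B : Type} [Fintype S] [Fintype T] [CommRing B] (e : S → T) (b : S → B)
    (F : T → B) : ∑ v, pf e b v * F v = ∑ β, b β * F (e β) := by
  classical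
  simp only [pf, sum_mul]
  rw [sum_comm]
  simp

theorem exists_special_section (σ J : Type) [Fintype σ] [DecidableEq σ] [Fintype J] {k δ : ℕ}
    (hσ : Fintype.card σ = k + 2) (hδ : δ = Fintype.card σ + Fintype.card (Pl σ J k)) :
    ∃ m : ℕ, 1 ≤ m ∧ ∀ (ε r b d : ℕ) (hd : d = ε + (r + k) * δ), k ≤ ε → 1 ≤ b →
      r = b + m * (ε + k * δ) → ∀ (E Ω : Type) [Field E] [CharZero E] [Field Ω] [IsAlgClosed Ω]
      [Algebra E Ω] (c : Mon σ δ × J × Mon σ ε → E), AlgebraicIndependent ℚ c →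
      ∀ z : σ ⊕ Pl σ J k → Ω, (∀ q, eqn (fun v => algebraMap E Ω (pf (emb r hd) c v)) z q = 0) →
      (∃ i, z (Sum.inl i) ≠ 0) → (∃ f, z (Sum.inr f) ≠ 0) →
      ∃ s : Ω, s ≠ 0 ∧ ∃ N, ∀ i, s * z (Sum.inl i) ^ (N + b) ∈ Val E z (bd N m) := by
  classical
  obtain ⟨m, hm, H⟩ := exists_sigma σ (Fin (k + 1) ⊕ σ) δ
  refine ⟨m, hm, fun ε r b d hd hε hb hr E Ω _ _ _ _ _ c hc z hz ⟨i, hi⟩ ⟨f, hf⟩ => ?_⟩
  have : CharZero Ω := charZero_of_injective_algebraMap (algebraMap E Ω).injective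
  have := graded_Val (R := E) z
  let x : σ → Ω := fun j => z (Sum.inl j)
  let p : Pl σ J k → Ω := fun f => z (Sum.inr f)
  obtain ⟨u, hu⟩ := exists_line hσ hδ hε r (hc.map' (f := IsScalarTower.toAlgHom ℚ E Ω)
    (algebraMap E Ω).injective) x p hi hf fun f h => by simpa [eqn, h] using hz (Sum.inl f)
  let c0 := x i ^ (ε + k * δ) * p f
  have hc0 : c0 ∈ Val E z (bd (ε + k * δ) 1) := by
    simpa only [wt, smul_bd, bd_add, Sum.elim_inl, Sum.elim_inr, mul_one, mul_zero, add_zero,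
      zero_add] using SetLike.GradedMul.mul_mem (SetLike.pow_mem_graded (ε + k * δ)
        (mem_Val (R := E) z (Sum.inl i))) (mem_Val (R := E) z (Sum.inr f))
  have hc1 : c0 ≠ 0 := mul_ne_zero (pow_ne_zero _ hi) hf
  let P : Fin (k + 1) ⊕ σ → MvPolynomial σ Ω := Sum.elim
    (fun l => ∑ β : Mon σ δ × J × Mon σ ε, monomial β.1.1 (c β • con x p i (β.2.2.1 + k • β.1.1)
      (β.2.2.1 + (r + k) • β.1.1) β.2.1 f l))
    fun j => if x j = 0 then monomial (Finsupp.single j δ) c0 else 0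
  have hP : ∀ T l, eval T (P (Sum.inl l)) = ∑ β : Mon σ δ × J × Mon σ ε, (∏ j, T j ^ β.1.1 j) *
      con x p i (β.2.2.1 + k • β.1.1) (β.2.2.1 + (r + k) • β.1.1) β.2.1 f l *
        algebraMap E Ω (c β) := fun T l => by
    simp only [P, Sum.elim_inl, map_sum, eval_monomial, Finsupp.prod_fintype _ _ fun _ => pow_zero _,
      Algebra.smul_def]
    exact sum_congr rfl fun _ _ => by ring
  have hP' : ∀ T j, x j = 0 → eval T (P (Sum.inr j)) = c0 * T j ^ δ := fun T j h => by
    simp [P, h, eval_monomial]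
  have key := H E Ω _ (Val E z) (bd 1 0) (bd (ε + k * δ) 1) x
    (fun j => mem_Val z (Sum.inl j)) ⟨i, hi⟩ c0 hc1 hc0 P ?_ ?_ r ?_ u ?_
  · obtain ⟨s, hs, ρ, h⟩ := key
    refine ⟨s, hs, r * ρ + m * (ε + k * δ), fun j => ?_⟩
    have := h j
    rwa [smul_bd, smul_bd, bd_add, mul_one, mul_zero, mul_one, zero_add,
      show r * (ρ + 1) = r * ρ + m * (ε + k * δ) + b by rw [mul_add_one]; omega] at this
  · rintro (l | j)
    · exact IsHomogeneous.sum _ _ _ fun β _ => isHomogeneous_monomial _ β.1.2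
    · simp only [P, Sum.elim_inr]
      split_ifs
      · exact isHomogeneous_monomial _ (Finsupp.degree_single _ _)
      · exact isHomogeneous_zero _ _ _
  · rintro (l | j)
    · refine Submodule.sum_mem (coeffsIn σ _) fun β _ =>
        monomial_mem_coeffsIn.mpr (Submodule.smul_mem _ _ ?_)
      have := con_mem (Val E z) z (mem_Val z) r i β.2.2.1 β.1.1 β.2.1 f l
      rwa [map_add, map_nsmul, β.1.2, β.2.2.2, smul_eq_mul] at this
    · simp only [P, Sum.elim_inr]
      split_ifs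
      · exact monomial_mem_coeffsIn.mpr hc0
      · simp
  · rintro (l | j)
    · have h1 := (mul_eq_zero.mp (hz (Sum.inr (i, f, l)))).resolve_left hi
      simp only [pf_map] at h1
      rw [sum_pf] at h1
      rw [hP, ← h1]
      refine sum_congr rfl fun β _ => ?_
      simp only [emb, con, Tr_factor, coeff_C_mul, mul_assoc, ← mul_sum]
      ring
    · by_cases h : x j = 0
      · rw [hP' _ _ h, h, zero_pow (by omega), zero_pow (by omega), mul_zero]
      · simp [P, h]
  · refine fun T hT => hu T (fun l => (hP T l).symm.trans (hT _)) fun j h => ?_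
    exact pow_eq_zero_iff (by omega) |>.mp
      ((mul_eq_zero.mp ((hP' T j h).symm.trans (hT _))).resolve_left hc1)

end Pool.Agent.P.MP_7ede32_ag
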