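import Pool.Agent.P.MP_7ede32_ag.GCi

/-! Truncation of a form to order `k` at a point. -/

open Finset MvPolynomial

namespace Pool.Agent.P.MP_7ede32_ag

/-- monomials of degree `d` -/
abbrev Mon (σ : Type) (d : ℕ) := {α : σ →₀ ℕ // α.degree = d}

variable {σ : Type} [Fintype σ] [DecidableEq σ]

noncomputable instance instFintypeMon (d : ℕ) : Fintype (Mon σ d) :=
  Fintype.subtype ((univ : Finset σ).finsuppAntidiag d) fun _ => mem_anti

theorem hom_eq_sum_mon {B : Type*} [CommRing B] {d : ℕ} {P : MvPolynomial σ B}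
    (hP : P.IsHomogeneous d) : P = ∑ α : Mon σ d, monomial α.1 (coeff α.1 P) := by
  rw [← sum_subtype ((univ : Finset σ).finsuppAntidiag d) (fun _ => mem_anti)
    fun α => monomial α (coeff α P)]
  conv_lhs => rw [P.as_sum]
  refine sum_subset (fun α hα => mem_anti.mpr ?_) fun α _ hα => by
    rw [notMem_support_iff.mp hα, map_zero]
  by_contra h
  exact mem_support_iff.mp hα (hP.coeff_eq_zero h)

theorem eval₂_hom_mon {B B' : Type*} [CommRing B] [CommRing B'] {d : ℕ} {P : MvPolynomial σ B}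
    (hP : P.IsHomogeneous d) (φ : B →+* B') (Y : σ → B') :
    eval₂ φ Y P = ∑ α : Mon σ d, φ (coeff α.1 P) * ∏ j, Y j ^ α.1 j := by
  conv_lhs => rw [hom_eq_sum_mon hP]
  simp [eval₂_sum, Finsupp.prod_fintype]

variable {B : Type*} [CommRing B]

/-- the truncation at `x` of the monomial `μ`, with the exponents `ν` on `x` -/
noncomputable def Tr (k : ℕ) (x : σ → B) (i : σ) (ν μ : σ →₀ ℕ) : MvPolynomial σ B :=
  ∑ γ ∈ (Fintype.piFinset fun j => range (μ j + 1)).filter (fun γ => ∑ j, γ j ≤ k),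
    X i ^ (k - ∑ j, γ j) *
      ∏ j, ((C (x i) * X j - C (x j) * X i) ^ γ j * C (x j ^ (ν j - γ j) * (μ j).choose (γ j)))

theorem Tr_map {B' : Type*} [CommRing B'] (φ : B →+* B') (k : ℕ) (x : σ → B) (i : σ)
    (ν μ : σ →₀ ℕ) : map φ (Tr k x i ν μ) = Tr k (fun j => φ (x j)) i ν μ := by
  simp [Tr]

theorem Tr_hom (k : ℕ) (x : σ → B) (i : σ) (ν μ : σ →₀ ℕ) : (Tr k x i ν μ).IsHomogeneous k := by
  refine IsHomogeneous.sum _ _ _ fun γ hγ => ?_
  have h := (isHomogeneous_X_pow (R := B) i (k - ∑ j, γ j)).mul (IsHomogeneous.prod univ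
    (fun j => (C (x i) * X j - C (x j) * X i) ^ γ j * C (x j ^ (ν j - γ j) * (μ j).choose (γ j)))
    γ fun j _ => by
      simpa using (((isHomogeneous_C_mul_X (x i) j).sub (isHomogeneous_C_mul_X (x j) i)).pow
        (γ j)).mul (isHomogeneous_C σ (x j ^ (ν j - γ j) * (μ j).choose (γ j))))
  rwa [Nat.sub_add_cancel (mem_filter.mp hγ).2] at h

theorem Tr_factor (k r : ℕ) (x : σ → B) (i : σ) (β I : σ →₀ ℕ) :
    Tr k x i (β + (r + k) • I) (β + (r + k) • I) =
      C (∏ j, (x j ^ r) ^ I j) * Tr k x i (β + k • I) (β + (r + k) • I) := by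
  rw [Tr, Tr, mul_sum]
  refine sum_congr rfl fun γ hγ => ?_
  obtain ⟨h1, h2⟩ := mem_filter.mp hγ
  rw [mul_left_comm, map_prod, ← prod_mul_distrib]
  congr 1
  refine prod_congr rfl fun j _ => ?_
  have h3 := mem_range.mp (Fintype.mem_piFinset.mp h1 j)
  have h4 : γ j ≤ k := (single_le_sum (fun _ _ => Nat.zero_le _) (mem_univ j)).trans h2
  have h5 : (β + (r + k) • I) j - γ j = r * I j + ((β + k • I) j - γ j) := by
    simp only [Finsupp.add_apply, Finsupp.smul_apply, smul_eq_mul, add_mul] at h3 ⊢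
    rcases Nat.eq_zero_or_pos (I j) with h | h
    · simp [h]
    · have : k ≤ k * I j := Nat.le_mul_of_pos_right _ h
      omega
  rw [h5, pow_add, pow_mul, mul_left_comm, ← map_mul, mul_assoc]

theorem Tr_mem {R ι : Type*} [CommRing R] [Algebra R B] [AddCommMonoid ι] (𝒜 : ι → Submodule R B)
    [SetLike.GradedMonoid 𝒜] {e : ι} (k r : ℕ) (x : σ → B) (hx : ∀ j, x j ∈ 𝒜 e) (i : σ)
    (β I α : σ →₀ ℕ) :
    coeff α (Tr k x i (β + k • I) (β + (r + k) • I)) ∈ 𝒜 ((β + k • I).degree • e) := by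
  have : SetLike.GradedMonoid fun d => coeffsIn σ (𝒜 d) :=
    { one_mem := one_coeffsIn.mpr SetLike.GradedOne.one_mem
      mul_mem := fun a b p q hp hq α => by
        rw [coeff_mul]
        exact Submodule.sum_mem _ fun _ _ => SetLike.GradedMul.mul_mem (hp _) (hq _) }
  have hX : ∀ j, X j ∈ coeffsIn σ (𝒜 0) := fun j => by
    simpa using (X_mul_mem_coeffsIn (p := 1)).mpr (one_coeffsIn.mpr SetLike.GradedOne.one_mem)
  refine (Submodule.sum_mem (coeffsIn σ (𝒜 _)) fun γ hγ => ?_) α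
  obtain ⟨h1, h2⟩ := mem_filter.mp hγ
  have h3 := SetLike.GradedMul.mul_mem (A := fun d => coeffsIn σ (𝒜 d))
    (SetLike.pow_mem_graded (A := fun d => coeffsIn σ (𝒜 d)) (k - ∑ j, γ j) (hX i))
    (SetLike.prod_mem_graded (fun d => coeffsIn σ (𝒜 d)) (F := univ)
      (fun j => ((β + k • I) j) • e)
      (fun j => (C (x i) * X j - C (x j) * X i) ^ γ j *
        C (x j ^ ((β + k • I) j - γ j) * ((β + (r + k) • I) j).choose (γ j))) fun j _ => by
      have h3 := mem_range.mp (Fintype.mem_piFinset.mp h1 j)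
      have h4 : γ j ≤ k := (single_le_sum (fun _ _ => Nat.zero_le _) (mem_univ j)).trans h2
      have h5 : (β + k • I) j = γ j + ((β + k • I) j - γ j) := by
        simp only [Finsupp.add_apply, Finsupp.smul_apply, smul_eq_mul, add_mul] at h3 ⊢
        rcases Nat.eq_zero_or_pos (I j) with h | h
        · simp only [h] at h3 ⊢; omega
        · have : k ≤ k * I j := Nat.le_mul_of_pos_right _ h
          omega
      have h6 := SetLike.GradedMul.mul_mem (A := fun d => coeffsIn σ (𝒜 d))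
        (SetLike.pow_mem_graded (A := fun d => coeffsIn σ (𝒜 d)) (γ j) (Submodule.sub_mem _
          (mul_X_mem_coeffsIn.mpr (C_mem_coeffsIn.mpr (hx i)) : C (x i) * X j ∈ _)
          (mul_X_mem_coeffsIn.mpr (C_mem_coeffsIn.mpr (hx j)) : C (x j) * X i ∈ _)))
        (C_mem_coeffsIn.mpr (nsmul_mem (SetLike.pow_mem_graded ((β + k • I) j - γ j) (hx j))
          (((β + (r + k) • I) j).choose (γ j))))
      rwa [← add_nsmul, ← h5, nsmul_eq_mul, mul_comm (Nat.cast _ : B)] at h6)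
  rwa [smul_zero, zero_add, ← sum_smul, ← Finsupp.degree_eq_sum] at h3

theorem Tr_dvd (k : ℕ) (x Y : σ → B) (i : σ) (μ : σ →₀ ℕ) {τ : B} (h : ∀ j, τ ∣ Y j - x j) :
    τ ^ (k + 1) ∣ Y i ^ k * x i ^ μ.degree * ∏ j, Y j ^ μ j -
      Y i ^ μ.degree * eval Y (Tr k x i μ μ) := by
  let H : σ → B := fun j => x i * Y j - x j * Y i
  let t : (σ → ℕ) → B := fun γ => ∏ j, H j ^ γ j * (x j ^ (μ j - γ j) * (μ j).choose (γ j))
  have h1 : x i ^ μ.degree * ∏ j, Y j ^ μ j =
      ∑ γ ∈ Fintype.piFinset fun j => range (μ j + 1), Y i ^ (∑ j, (μ j - γ j)) * t γ := by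
    rw [Finsupp.degree_eq_sum, ← prod_pow_eq_pow_sum, ← prod_mul_distrib]
    have : ∀ j, x i ^ μ j * Y j ^ μ j = ∑ g ∈ range (μ j + 1),
        Y i ^ (μ j - g) * (H j ^ g * (x j ^ (μ j - g) * (μ j).choose g)) := fun j => by
      rw [← mul_pow, show x i * Y j = H j + x j * Y i by simp [H], add_pow]
      exact sum_congr rfl fun g _ => by rw [mul_pow]; ring
    simp only [this, prod_univ_sum, prod_mul_distrib (f := fun j => Y i ^ _), prod_pow_eq_pow_sum,
      t]
  have h2 : Y i ^ μ.degree * eval Y (Tr k x i μ μ) =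
      ∑ γ ∈ (Fintype.piFinset fun j => range (μ j + 1)).filter (fun γ => ∑ j, γ j ≤ k),
        Y i ^ k * (Y i ^ (∑ j, (μ j - γ j)) * t γ) := by
    rw [Tr, map_sum, mul_sum]
    refine sum_congr rfl fun γ hγ => ?_
    obtain ⟨h1, h2⟩ := mem_filter.mp hγ
    have h3 : ∑ j, (μ j - γ j) + ∑ j, γ j = μ.degree := by
      rw [← sum_add_distrib, Finsupp.degree_eq_sum]
      exact sum_congr rfl fun j _ => Nat.sub_add_cancel
        (Nat.lt_succ_iff.mp (mem_range.mp (Fintype.mem_piFinset.mp h1 j)))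
    rw [← mul_assoc (Y i ^ k), ← pow_add,
      show k + ∑ j, (μ j - γ j) = μ.degree + (k - ∑ j, γ j) by omega, pow_add, mul_assoc]
    simp [t, H]
  rw [mul_assoc, h1, h2, mul_sum, ← sum_filter_add_sum_filter_not _ fun γ => ∑ j, γ j ≤ k,
    add_sub_cancel_left]
  refine dvd_sum fun γ hγ => Dvd.dvd.mul_left (Dvd.dvd.mul_left ?_ _) _
  refine (pow_dvd_pow τ (not_le.mp (mem_filter.mp hγ).2)).trans ?_
  rw [← prod_pow_eq_pow_sum]
  refine prod_dvd_prod_of_dvd _ _ fun j _ => Dvd.dvd.mul_right (pow_dvd_pow_of_dvd ?_ _) _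
  have : H j = x i * (Y j - x j) - x j * (Y i - x i) := by simp only [H]; ring
  rw [this]
  exact dvd_sub ((h j).mul_left _) ((h i).mul_left _)

theorem arc_zero {Ω : Type} [Field Ω] {k : ℕ} (x v : σ → Ω) (A : Mon σ k → Ω) (U : Polynomial Ω)
    (hU : U.eval 0 ≠ 0) (Y : σ → Polynomial Ω)
    (hY : ∀ j, Y j = Polynomial.C (x j) + Polynomial.X * Polynomial.C (v j - x j))
    (h : Polynomial.X ^ (k + 1) ∣ U * ∑ β : Mon σ k, Polynomial.C (A β) * ∏ j, Y j ^ β.1 j) :
    ∑ β : Mon σ k, A β * ∏ j, v j ^ β.1 j = 0 := by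
  have h3 : ¬ Polynomial.X ∣ U := by
    rwa [Polynomial.X_dvd_iff, Polynomial.coeff_zero_eq_eval_zero]
  have h4 : (∑ β : Mon σ k, Polynomial.C (A β) * ∏ j, Y j ^ β.1 j).natDegree ≤ k := by
    refine Polynomial.natDegree_sum_le_of_forall_le _ _ fun β _ =>
      (Polynomial.natDegree_C_mul_le _ _).trans ((Polynomial.natDegree_prod_le _ _).trans ?_)
    refine le_trans (sum_le_sum fun j _ => ?_) ((Finsupp.degree_eq_sum β.1).symm.trans β.2).le
    have : (Y j).natDegree ≤ 1 := by rw [hY]; compute_degree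
    exact Polynomial.natDegree_pow_le.trans ((Nat.mul_le_mul_left _ this).trans (by simp))
  have h5 := Polynomial.eq_zero_of_dvd_of_natDegree_lt
    (Polynomial.prime_X.pow_dvd_of_dvd_mul_left _ h3 h) (by
      rw [Polynomial.natDegree_X_pow]; omega)
  simpa [hY, Polynomial.eval_finsetSum, Polynomial.eval_prod] using
    congrArg (Polynomial.eval 1) h5

theorem Tr_span {Ω : Type} [Field Ω] [CharZero Ω] {k ε : ℕ} (hε : k ≤ ε) (r : ℕ) (x : σ → Ω) {i : σ}
    (hi : x i ≠ 0) (I : σ →₀ ℕ) (hI : ∀ j, I j ≠ 0 → x j ≠ 0) (z : Mon σ k → Ω)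
    (hz : ∀ β : Mon σ ε,
      ∑ α : Mon σ k, z α * coeff α.1 (Tr k x i (β.1 + k • I) (β.1 + (r + k) • I)) = 0) :
    z = 0 := by
  let sh : Mon σ k → σ →₀ ℕ := fun β => β.1 + Finsupp.single i (ε - k)
  have hsh : ∀ β, (sh β).degree = ε := fun β => by
    simp only [sh, map_add, β.2, Finsupp.degree_single]; omega
  let M : Matrix (Mon σ k) (Mon σ k) Ω :=
    fun α β => coeff α.1 (Tr k x i (sh β + k • I) (sh β + (r + k) • I))
  by_contra hne
  obtain ⟨A, hA0, hA⟩ := Matrix.exists_mulVec_eq_zero_iff.mpr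
    ((Matrix.exists_vecMul_eq_zero_iff (M := M)).mp ⟨z, hne, _root_.funext fun β => hz ⟨_, hsh β⟩⟩)
  have key : ∀ v : σ → Ω, ∑ β : Mon σ k, A β * ∏ j, v j ^ β.1 j = 0 := by
    intro v
    obtain ⟨Y, hY⟩ : ∃ Y : σ → Polynomial Ω, ∀ j,
      Y j = Polynomial.C (x j) + Polynomial.X * Polynomial.C (v j - x j) := ⟨_, fun _ => rfl⟩
    have h1 : ∑ β : Mon σ k, Polynomial.C (A β) * eval Y (Tr k (fun j => Polynomial.C (x j)) i
        (sh β + (r + k) • I) (sh β + (r + k) • I)) = 0 := by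
      have e1 : ∀ β : Mon σ k, Polynomial.C (A β) * eval Y (Tr k (fun j => Polynomial.C (x j)) i
          (sh β + (r + k) • I) (sh β + (r + k) • I)) = ∑ α : Mon σ k,
            (Polynomial.C (∏ j, (x j ^ r) ^ I j) * ∏ j, Y j ^ α.1 j) * Polynomial.C (M α β * A β) := by
        intro β
        rw [← Tr_map, eval_map, Tr_factor, eval₂_mul, eval₂_C, eval₂_hom_mon (Tr_hom _ _ _ _ _),
          mul_sum, mul_sum]
        exact sum_congr rfl fun α _ => by rw [map_mul]; ring
      rw [sum_congr rfl fun β _ => e1 β, sum_comm]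
      refine sum_eq_zero fun α _ => ?_
      rw [← mul_sum, ← map_sum, show ∑ β, M α β * A β = 0 from congrFun hA α, map_zero, mul_zero]
    refine arc_zero x v A (Y i ^ k * Polynomial.C (x i) ^ (ε + (r + k) * I.degree) *
      (Y i ^ (ε - k) * ∏ j, (Y j ^ (r + k)) ^ I j)) ?_ Y hY ?_
    · simp only [hY, Polynomial.eval_mul, Polynomial.eval_pow, Polynomial.eval_prod,
        Polynomial.eval_add, Polynomial.eval_C, Polynomial.eval_X, zero_mul, add_zero]
      refine mul_ne_zero (mul_ne_zero (pow_ne_zero _ hi) (pow_ne_zero _ hi))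
        (mul_ne_zero (pow_ne_zero _ hi) (prod_ne_zero_iff.mpr fun j _ => ?_))
      rcases eq_or_ne (I j) 0 with h | h
      · simp [h]
      · exact pow_ne_zero _ (pow_ne_zero _ (hI j h))
    have h2 := dvd_sum (s := univ) fun (β : Mon σ k) _ => (Tr_dvd k (fun j => Polynomial.C (x j)) Y i
      (sh β + (r + k) • I) (τ := Polynomial.X) fun j => by simp [hY]).mul_left (Polynomial.C (A β))
    simp only [map_add, hsh, map_nsmul, smul_eq_mul, mul_sub, sum_sub_distrib,
      mul_left_comm _ (Y i ^ (ε + _)), ← mul_sum, h1, mul_zero, sub_zero] at h2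
    convert h2 using 1
    rw [mul_sum]
    refine sum_congr rfl fun β _ => ?_
    simp only [sh, Finsupp.add_apply, Finsupp.smul_apply, smul_eq_mul, pow_add (Y _) (_ + _),
      pow_add (Y _) (β.1 _), prod_mul_distrib, pow_mul, Finsupp.single_apply, pow_ite, pow_zero,
      prod_ite_eq, mem_univ, if_true]
    ring
  have h6 : (∑ β : Mon σ k, monomial β.1 (A β) : MvPolynomial σ Ω) = 0 :=
    MvPolynomial.funext fun v => by simpa [eval_monomial, Finsupp.prod_fintype] using key v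
  refine hA0 (_root_.funext fun β => ?_)
  simpa [coeff_sum, coeff_monomial, Subtype.val_inj] using congrArg (coeff β.1) h6

end Pool.Agent.P.MP_7ede32_ag
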