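import Mathlib

namespace Pool.Agent.P.MP_7ede32_ag

universe u

/-- A derivation on a field, as a bare function. -/
structure Der (K : Type*) [Field K] where
  D : K → K
  D_add : ∀ x y, D (x + y) = D x + D y
  D_mul : ∀ x y, D (x * y) = x * D y + y * D x

namespace Der

variable {K : Type*} [Field K] (d : Der K)

theorem D_zero : d.D 0 = 0 := by
  have := d.D_add 0 0
  simp only [add_zero] at this
  linear_combination -this

theorem D_one : d.D 1 = 0 := by
  have := d.D_mul 1 1
  simp only [mul_one, one_mul] at this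
  linear_combination -this

theorem D_neg (x : K) : d.D (-x) = -d.D x := by
  have := d.D_add x (-x)
  rw [add_neg_cancel, d.D_zero] at this
  linear_combination -this

theorem D_sub (x y : K) : d.D (x - y) = d.D x - d.D y := by
  rw [sub_eq_add_neg, d.D_add, d.D_neg]; ring

theorem D_natCast (n : ℕ) : d.D (n : K) = 0 := by
  induction n with
  | zero => simpa using d.D_zero
  | succ n ih => rw [Nat.cast_succ, d.D_add, ih, d.D_one, add_zero]

theorem D_inv (x : K) : d.D x⁻¹ = -d.D x / x ^ 2 := by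
  by_cases hx : x = 0
  · simp [hx, d.D_zero]
  have := d.D_mul x x⁻¹
  rw [mul_inv_cancel₀ hx, d.D_one] at this
  field_simp
  field_simp at this
  linear_combination -this

theorem D_div (x y : K) (hy : y ≠ 0) : d.D (x / y) = (y * d.D x - x * d.D y) / y ^ 2 := by
  rw [div_eq_mul_inv, d.D_mul, d.D_inv]
  field_simp
  ring

theorem D_pow (x : K) (n : ℕ) : d.D (x ^ (n + 1)) = (n + 1) * x ^ n * d.D x := by
  induction n with
  | zero => simp
  | succ n ih => rw [pow_succ, d.D_mul, ih]; push_cast; ring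

theorem D_sq (x : K) : d.D (x ^ 2) = 2 * x * d.D x := by
  rw [sq, d.D_mul]; ring

theorem D_zpow (x : K) (hx : x ≠ 0) (n : ℤ) : d.D (x ^ n) = n * x ^ n * (d.D x / x) := by
  induction n using Int.induction_on with
  | zero => simp [d.D_one]
  | succ n ih =>
    rw [zpow_add_one₀ hx, d.D_mul, ih]; push_cast; field_simp; ring
  | pred n ih =>
    rw [zpow_sub_one₀ hx, d.D_mul, ih, d.D_inv]; push_cast; field_simp; ring

/-- logarithmic derivative -/
def L (x : K) : K := d.D x / x

theorem L_mul {x y : K} (hx : x ≠ 0) (hy : y ≠ 0) : d.L (x * y) = d.L x + d.L y := by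
  unfold L; rw [d.D_mul]; field_simp; ring

theorem L_div {x y : K} (hx : x ≠ 0) (hy : y ≠ 0) : d.L (x / y) = d.L x - d.L y := by
  unfold L; rw [d.D_div _ _ hy]; field_simp

theorem D_eq_zero_of_L {x : K} (hx : x ≠ 0) (h : d.L x = 0) : d.D x = 0 := by
  unfold L at h
  rcases div_eq_zero_iff.1 h with h | h
  · exact h
  · exact absurd h hx

end Der

/-- A discrete valuation with a uniformizer and a derivation that preserves the integers. -/
structure Loc (K : Type*) [Field K] extends Der K where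
  ord : K → ℤ
  p : K
  p_ne : p ≠ 0
  ord_mul : ∀ x y, x ≠ 0 → y ≠ 0 → ord (x * y) = ord x + ord y
  ord_add : ∀ x y (n : ℤ), x ≠ 0 → y ≠ 0 → x + y ≠ 0 → n ≤ ord x → n ≤ ord y → n ≤ ord (x + y)
  ord_p : ord p = 1
  D_p : D p = 1
  ord_D : ∀ x, x ≠ 0 → D x ≠ 0 → 0 ≤ ord x → 0 ≤ ord (D x)
  ord_nat : ∀ n : ℕ, n ≠ 0 → ord (n : K) = 0

namespace Loc

variable {K : Type*} [Field K] (L : Loc K)

/-- valuation at least `n` -/
def Ge (n : ℤ) (x : K) : Prop := x = 0 ∨ n ≤ L.ord x

theorem ord_one : L.ord 1 = 0 := by simpa using L.ord_nat 1 one_ne_zero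

theorem ord_inv {x : K} (hx : x ≠ 0) : L.ord x⁻¹ = -L.ord x := by
  have := L.ord_mul x x⁻¹ hx (inv_ne_zero hx)
  rw [mul_inv_cancel₀ hx, L.ord_one] at this
  omega

theorem ord_div {x y : K} (hx : x ≠ 0) (hy : y ≠ 0) : L.ord (x / y) = L.ord x - L.ord y := by
  rw [div_eq_mul_inv, L.ord_mul _ _ hx (inv_ne_zero hy), L.ord_inv hy]; ring

theorem ord_neg_one : L.ord (-1) = 0 := by
  have := L.ord_mul (-1) (-1) (by simp) (by simp)
  rw [neg_mul_neg, one_mul, L.ord_one] at this
  omega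

theorem ord_neg (x : K) : L.ord (-x) = L.ord x := by
  by_cases hx : x = 0
  · simp [hx]
  rw [← neg_one_mul, L.ord_mul _ _ (by simp) hx, L.ord_neg_one, zero_add]

theorem ord_sub_comm (x y : K) : L.ord (x - y) = L.ord (y - x) := by
  rw [← L.ord_neg, neg_sub]

theorem ord_pow {x : K} (hx : x ≠ 0) (n : ℕ) : L.ord (x ^ n) = n * L.ord x := by
  induction n with
  | zero => simp [L.ord_one]
  | succ n ih => rw [pow_succ, L.ord_mul _ _ (pow_ne_zero _ hx) hx, ih]; push_cast; ring

theorem ord_zpow {x : K} (hx : x ≠ 0) (n : ℤ) : L.ord (x ^ n) = n * L.ord x := by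
  cases n with
  | ofNat n => simpa using L.ord_pow hx n
  | negSucc n =>
    rw [zpow_negSucc, L.ord_inv (pow_ne_zero _ hx), L.ord_pow hx]
    simp [Int.negSucc_eq]; ring

theorem ord_p_zpow (n : ℤ) : L.ord (L.p ^ n) = n := by
  rw [L.ord_zpow L.p_ne, L.ord_p, mul_one]

theorem ord_p_pow (n : ℕ) : L.ord (L.p ^ n) = n := by
  rw [L.ord_pow L.p_ne, L.ord_p, mul_one]

theorem ord_prod {ι : Type*} (s : Finset ι) (f : ι → K) (hf : ∀ i ∈ s, f i ≠ 0) :
    L.ord (∏ i ∈ s, f i) = ∑ i ∈ s, L.ord (f i) := by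
  classical
  induction s using Finset.induction_on with
  | empty => simp [L.ord_one]
  | insert a s ha ih =>
    rw [Finset.prod_insert ha, Finset.sum_insert ha,
      L.ord_mul _ _ (hf a (Finset.mem_insert_self _ _))
        (Finset.prod_ne_zero_iff.2 fun i hi => hf i (Finset.mem_insert_of_mem hi)),
      ih fun i hi => hf i (Finset.mem_insert_of_mem hi)]

theorem ord_int [CharZero K] (n : ℤ) (hn : n ≠ 0) : L.ord (n : K) = 0 := by
  cases n with
  | ofNat n =>
    have : n ≠ 0 := by rintro rfl; exact hn rfl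
    simpa using L.ord_nat n this
  | negSucc n =>
    rw [Int.cast_negSucc, L.ord_neg]; exact L.ord_nat _ (Nat.succ_ne_zero n)

variable {L}

theorem Ge.zero (n : ℤ) : L.Ge n 0 := Or.inl rfl

theorem Ge.of_le {n : ℤ} {x : K} (h : n ≤ L.ord x) : L.Ge n x := Or.inr h

theorem Ge.self (x : K) : L.Ge (L.ord x) x := Or.inr le_rfl

theorem Ge.le {n : ℤ} {x : K} (h : L.Ge n x) (hx : x ≠ 0) : n ≤ L.ord x := h.resolve_left hx

theorem Ge.mono {n m : ℤ} {x : K} (h : L.Ge n x) (hm : m ≤ n) : L.Ge m x :=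
  h.imp id fun h => hm.trans h

theorem Ge.add {n : ℤ} {x y : K} (hx : L.Ge n x) (hy : L.Ge n y) : L.Ge n (x + y) := by
  by_cases h1 : x = 0
  · simpa [h1] using hy
  by_cases h2 : y = 0
  · simpa [h2] using hx
  by_cases h3 : x + y = 0
  · exact Or.inl h3
  exact Or.inr (L.ord_add x y n h1 h2 h3 (hx.le h1) (hy.le h2))

theorem Ge.neg {n : ℤ} {x : K} (hx : L.Ge n x) : L.Ge n (-x) := by
  rcases hx with h | h
  · exact Or.inl (by simp [h])
  · exact Or.inr (by rwa [L.ord_neg])

theorem Ge.sub {n : ℤ} {x y : K} (hx : L.Ge n x) (hy : L.Ge n y) : L.Ge n (x - y) := by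
  rw [sub_eq_add_neg]; exact hx.add hy.neg

theorem Ge.mul {n m : ℤ} {x y : K} (hx : L.Ge n x) (hy : L.Ge m y) : L.Ge (n + m) (x * y) := by
  by_cases h1 : x = 0
  · exact Or.inl (by simp [h1])
  by_cases h2 : y = 0
  · exact Or.inl (by simp [h2])
  exact Or.inr (by rw [L.ord_mul _ _ h1 h2]; exact add_le_add (hx.le h1) (hy.le h2))

theorem Ge.mul' {n m k : ℤ} {x y : K} (hx : L.Ge n x) (hy : L.Ge m y) (h : k ≤ n + m) :
    L.Ge k (x * y) := (hx.mul hy).mono h

theorem Ge.mul0 {n : ℤ} {x y : K} (hx : L.Ge 0 x) (hy : L.Ge n y) : L.Ge n (x * y) :=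
  hx.mul' hy (by omega)

theorem Ge.mul00 {x y : K} (hx : L.Ge 0 x) (hy : L.Ge 0 y) : L.Ge 0 (x * y) := hx.mul0 hy

theorem Ge.div {n : ℤ} {x y : K} (hx : L.Ge n x) (hy : y ≠ 0) : L.Ge (n - L.ord y) (x / y) := by
  rw [div_eq_mul_inv]
  exact hx.mul' (Ge.self y⁻¹) (by rw [L.ord_inv hy]; omega)

theorem Ge.one : L.Ge 0 (1 : K) := Or.inr (by rw [L.ord_one])

theorem Ge.natCast (n : ℕ) : L.Ge 0 (n : K) := by
  by_cases h : n = 0
  · exact Or.inl (by simp [h])
  · exact Or.inr (by rw [L.ord_nat n h])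

theorem Ge.ofNat (n : ℕ) [n.AtLeastTwo] : L.Ge 0 (OfNat.ofNat n : K) :=
  Ge.natCast n

theorem Ge.intCast (n : ℤ) : L.Ge 0 (n : K) := by
  cases n with
  | ofNat n => simpa using Ge.natCast (L := L) n
  | negSucc n => rw [Int.cast_negSucc]; exact (Ge.natCast _).neg

theorem Ge.pow0 {x : K} (hx : L.Ge 0 x) (n : ℕ) : L.Ge 0 (x ^ n) := by
  induction n with
  | zero => simpa using Ge.one
  | succ n ih => rw [pow_succ]; exact ih.mul00 hx

theorem Ge.pp : L.Ge 1 L.p := Or.inr (by rw [L.ord_p])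

theorem Ge.pp0 : L.Ge 0 L.p := Ge.pp.mono (by omega)

theorem Ge.ppow (n : ℕ) : L.Ge n (L.p ^ n) := Or.inr (by rw [L.ord_p_pow])

theorem Ge.pzpow (n : ℤ) : L.Ge n (L.p ^ n) := Or.inr (by rw [L.ord_p_zpow])

theorem Ge.sum {ι : Type*} {n : ℤ} (s : Finset ι) (f : ι → K) (h : ∀ i ∈ s, L.Ge n (f i)) :
    L.Ge n (∑ i ∈ s, f i) := by
  classical
  induction s using Finset.induction_on with
  | empty => simpa using Ge.zero n
  | insert a s ha ih =>
    rw [Finset.sum_insert ha]
    exact (h a (Finset.mem_insert_self _ _)).add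
      (ih fun i hi => h i (Finset.mem_insert_of_mem hi))

theorem Ge.prod {ι : Type*} (s : Finset ι) (f : ι → K) (n : ι → ℤ)
    (h : ∀ i ∈ s, L.Ge (n i) (f i)) : L.Ge (∑ i ∈ s, n i) (∏ i ∈ s, f i) := by
  classical
  induction s using Finset.induction_on with
  | empty => simpa using Ge.one
  | insert a s ha ih =>
    rw [Finset.sum_insert ha, Finset.prod_insert ha]
    exact (h a (Finset.mem_insert_self _ _)).mul
      (ih fun i hi => h i (Finset.mem_insert_of_mem hi))

theorem Ge.D0 {x : K} (hx : L.Ge 0 x) : L.Ge 0 (L.D x) := by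
  by_cases h1 : x = 0
  · exact Or.inl (by rw [h1, L.toDer.D_zero])
  by_cases h2 : L.D x = 0
  · exact Or.inl h2
  exact Or.inr (L.ord_D x h1 h2 (hx.le h1))

theorem Ge.of_mul_left {n : ℤ} {c x : K} (hc : c ≠ 0) (h : L.Ge n (c * x)) :
    L.Ge (n - L.ord c) x := by
  have := h.div hc
  rwa [mul_div_cancel_left₀ _ hc] at this

/-- the order of a sum when one summand is strictly smaller -/
theorem ord_add_eq {x y : K} (hx : x ≠ 0) (hy : L.Ge (L.ord x + 1) y) :
    x + y ≠ 0 ∧ L.ord (x + y) = L.ord x := by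
  have h0 : x + y ≠ 0 := by
    intro h
    have hxy : y = -x := by linear_combination h
    have := hy.le (by rw [hxy]; exact neg_ne_zero.2 hx)
    rw [hxy, L.ord_neg] at this
    omega
  refine ⟨h0, le_antisymm ?_ ?_⟩
  · by_contra hlt
    push Not at hlt
    have h1 : L.Ge (L.ord x + 1) (x + y) := Or.inr hlt
    have h2 := h1.sub hy
    rw [add_sub_cancel_right] at h2
    have := h2.le hx
    omega
  · exact ((Ge.self x).add (hy.mono (by omega))).le h0

/-- key: `D s - n s / p` has order at least `n` when `s` has order at least `n`. -/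
theorem Ge.D_sub {n : ℤ} {s : K} (hs : L.Ge n s) : L.Ge n (L.D s - n * s / L.p) := by
  have hp := L.p_ne
  have h1 : L.Ge 0 (s / L.p ^ n) := by
    have := hs.div (zpow_ne_zero n hp)
    rwa [L.ord_p_zpow, sub_self] at this
  have h2 := h1.D0
  have h3 : L.D s - n * s / L.p = L.p ^ n * L.D (s / L.p ^ n) := by
    rw [L.toDer.D_div _ _ (zpow_ne_zero n hp), L.toDer.D_zpow _ hp, L.D_p]
    have := zpow_ne_zero n hp
    field_simp
  rw [h3]
  exact (Ge.pzpow n).mul' h2 (by omega)

theorem Ge.D {n : ℤ} {s : K} (hs : L.Ge n s) : L.Ge (n - 1) (L.D s) := by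
  have h1 := hs.D_sub
  have h2 : L.Ge (n - 1) (n * s / L.p) := by
    have := ((Ge.intCast n).mul0 hs).div L.p_ne
    rwa [L.ord_p] at this
  have := (h1.mono (by omega : n - 1 ≤ n)).add h2
  rwa [sub_add_cancel] at this

variable (L) in
/-- the logarithmic derivative is `ord x / p` up to an integer of the valuation. -/
theorem L_sub {x : K} (hx : x ≠ 0) : L.Ge 0 (L.toDer.L x - (L.ord x : K) / L.p) := by
  have h1 := ((Ge.self (L := L) x).D_sub).div hx
  rw [sub_self] at h1
  have : L.toDer.L x - (L.ord x : K) / L.p = (L.D x - (L.ord x : K) * x / L.p) / x := by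
    unfold Der.L
    have := L.p_ne
    field_simp
  rwa [this]

variable (L) in
/-- if `z - n / p` is integral and `n ≠ 0`, then `z` has order exactly `-1`. -/
theorem ord_of_res [CharZero K] {z : K} {n : ℤ} (hn : n ≠ 0) (h : L.Ge 0 (z - (n : K) / L.p)) :
    z ≠ 0 ∧ L.ord z = -1 := by
  have hn' : (n : K) ≠ 0 := by exact_mod_cast hn
  have h0 : (n : K) / L.p ≠ 0 := div_ne_zero hn' L.p_ne
  have h1 : L.ord ((n : K) / L.p) = -1 := by
    rw [L.ord_div hn' L.p_ne, L.ord_int n hn, L.ord_p]; rfl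
  have := ord_add_eq h0 (y := z - (n : K) / L.p) (by rw [h1]; simpa using h)
  rw [add_sub_cancel, h1] at this
  exact this

variable (L) in
theorem Ge_of_res {z : K} {n : ℤ} (h : L.Ge 0 (z - (n : K) / L.p)) : L.Ge (-1) z := by
  have h2 : L.Ge (-1) ((n : K) / L.p) := by
    have := (Ge.intCast (L := L) n).div L.p_ne
    rwa [L.ord_p] at this
  have := (h.mono (by omega : (-1 : ℤ) ≤ 0)).add h2
  rwa [sub_add_cancel] at this

variable (L) in
theorem ord_const [CharZero K] {c : K} (hc : c ≠ 0) (h : L.D c = 0) : L.ord c = 0 := by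
  by_contra hn
  have h1 := L.L_sub hc
  have h2 := (L.ord_of_res hn h1).1
  apply h2
  unfold Der.L
  rw [h, zero_div]

theorem Ge.half [CharZero K] : L.Ge 0 (2⁻¹ : K) := by
  refine Or.inr ?_
  rw [L.ord_inv (by norm_num)]
  have := L.ord_nat 2 (by norm_num)
  simp only [Nat.cast_ofNat] at this
  omega

end Loc

/-- Global data: a family of places, a global derivation, and the absence of regular
pluri-differentials. -/
structure Glob (K : Type u) [Field K] extends Der K where
  Pl : Type u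
  loc : Pl → Loc K
  u : Pl → K
  u_ne : ∀ q, u q ≠ 0
  hD : ∀ q x, D x = u q * (loc q).D x
  no_sec : ∀ (f : K) (g : ℤ), f ≠ 0 → 0 < g →
    ¬ ∀ q, g * (loc q).ord (u q) ≤ (loc q).ord f

end Pool.Agent.P.MP_7ede32_ag
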