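import Pool.Agent.P.MP_7ede32_ag.Alg2
import Pool.Agent.P.MP_7ede32_ag.Abel

namespace Pool.Agent.P.MP_7ede32_ag

open Finset Polynomial

variable {K : Type*} [Field K]

theorem eval_le_three {P : K[X]} (h : P.natDegree ≤ 3) (z : K) :
    P.eval z = P.coeff 3 * z ^ 3 + P.coeff 2 * z ^ 2 + P.coeff 1 * z + P.coeff 0 := by
  rw [Polynomial.eval_eq_sum_range' (n := 4) (by omega)]
  simp [Finset.sum_range_succ]
  ring

theorem eval_le_two {P : K[X]} (h : P.natDegree ≤ 2) (z : K) :
    P.eval z = P.coeff 2 * z ^ 2 + P.coeff 1 * z + P.coeff 0 := by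
  rw [Polynomial.eval_eq_sum_range' (n := 3) (by omega)]
  simp [Finset.sum_range_succ]
  ring

theorem eval_le_one {P : K[X]} (h : P.natDegree ≤ 1) (z : K) :
    P.eval z = P.coeff 1 * z + P.coeff 0 := by
  rw [Polynomial.eval_eq_sum_range' (n := 2) (by omega)]
  simp [Finset.sum_range_succ]
  ring

theorem cubic_case [CharZero K] (G : Glob K) (v : Fin 18 → K) (hv : Function.Injective v)
    (c0 c1 c2 c3 : K) (hD : ∀ i, G.D (v i) = c3 * v i ^ 3 + c2 * v i ^ 2 + c1 * v i + c0)
    (he : ∀ q i j k l, i ≠ j → i ≠ k → i ≠ l → j ≠ k → j ≠ l → k ≠ l →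
      Even ((G.loc q).ord (v i - v j) + (G.loc q).ord (v k - v l) - (G.loc q).ord (v i - v k) -
        (G.loc q).ord (v j - v l))) : G.D (cr (v 0) (v 1) (v 2) (v 3)) = 0 := by
  by_cases h3 : c3 = 0
  · have hD' : ∀ i, G.D (v i) = c2 * v i ^ 2 + c1 * v i + c0 := fun i => by
      rw [hD, h3]; ring
    exact riccati G.toDer c0 c1 c2 (sub_ne_zero.2 fun h => absurd (hv h) (by decide))
      (sub_ne_zero.2 fun h => absurd (hv h) (by decide)) (hD' 0) (hD' 1) (hD' 2) (hD' 3)
  · exact (abel G v hv h3 hD he).elim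

theorem exists_cr [CharZero K] (G : Glob K) (x : Fin 71 → K) (hx : Function.Injective x)
    (he : ∀ q i j, i ≠ j → Even ((G.loc q).ord (x i - x j))) :
    ∃ i1 i2 i3 i4, i1 ≠ i2 ∧ i1 ≠ i3 ∧ i1 ≠ i4 ∧ i2 ≠ i3 ∧ i2 ≠ i4 ∧ i3 ≠ i4 ∧
      G.D (cr (x i1) (x i2) (x i3) (x i4)) = 0 := by
  have hd : ∀ i j, i ≠ j → x i - x j ≠ 0 := fun i j hij => sub_ne_zero.2 fun h => hij (hx h)
  rcases alg_main x (fun i => G.D (x i)) hx
    (fun e he' => Delta8_eq_zero G _ (hx.comp he') fun q i j hij => he q _ _ (he'.ne hij))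
    (fun e he' => not_good G _ (hx.comp he') fun q i j hij => he q _ _ (he'.ne hij)) with
    ⟨q, hq, T, hT, h⟩ | ⟨B, E, hB0, hB, hE, T, hT, h⟩
  · obtain ⟨a, b, c, d, ha, hb, hc, hd', hab, hac, had, hbc, hbd, hcd⟩ :=
      Finset.three_lt_card_iff.1 (show 3 < T.card by omega)
    simp only [eval_le_two hq] at h
    exact ⟨a, b, c, d, hab, hac, had, hbc, hbd, hcd, riccati G.toDer _ _ _ (hd _ _ had.symm)
      (hd _ _ hbc.symm) (h a ha) (h b hb) (h c hc) (h d hd')⟩
  obtain ⟨T1, hT1, hT2, hT3⟩ := few_roots x hx T B hB0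
  obtain ⟨S, hS, hS18⟩ := Finset.exists_subset_card_eq (show 18 ≤ T1.card by omega)
  let e := S.orderEmbOfFin hS18
  have he1 : ∀ i, e i ∈ T1 := fun i => hS (S.orderEmbOfFin_mem hS18 i)
  have h1 := fun i => h (e i) (hT1 (he1 i))
  have h2 := fun i => hT3 (e i) (he1 i)
  simp only [eval_le_one hB, eval_le_three hE] at h1 h2
  refine ⟨e 0, e 1, e 2, e 3, e.injective.ne (by decide), e.injective.ne (by decide),
    e.injective.ne (by decide), e.injective.ne (by decide), e.injective.ne (by decide),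
    e.injective.ne (by decide), ?_⟩
  generalize B.coeff 0 = b0 at h1 h2
  generalize B.coeff 1 = b1 at h1 h2
  generalize E.coeff 0 = e0 at h1
  generalize E.coeff 1 = e1 at h1
  generalize E.coeff 2 = e2 at h1
  generalize E.coeff 3 = e3 at h1
  by_cases hb : b1 = 0
  · have hb0 : b0 ≠ 0 := by simpa [hb] using h2 0
    refine cubic_case G (fun i => x (e i)) (hx.comp e.injective) (-e0 / b0) (-e1 / b0) (-e2 / b0)
      (-e3 / b0) (fun i => ?_) fun q i j k l hij hik _ _ hjl hkl => ?_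
    · have := h1 i
      rw [hb] at this
      field_simp
      linear_combination this
    · exact (((he q _ _ (e.injective.ne hij)).add (he q _ _ (e.injective.ne hkl))).sub
        (he q _ _ (e.injective.ne hik))).sub (he q _ _ (e.injective.ne hjl))
  · obtain ⟨s, rfl⟩ : ∃ s, b0 = -(b1 * s) := ⟨-b0 / b1, by field_simp⟩
    have hy : ∀ i, x (e i) - s ≠ 0 := fun i h => h2 i (by linear_combination b1 * h)
    have hord : ∀ q i j, i ≠ j → (G.loc q).ord ((x (e i) - s)⁻¹ - (x (e j) - s)⁻¹) =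
        (G.loc q).ord (x (e i) - x (e j)) - (G.loc q).ord (x (e i) - s) -
          (G.loc q).ord (x (e j) - s) := by
      intro q i j hij
      rw [inv_sub_inv (hy i) (hy j), sub_sub_sub_cancel_right,
        (G.loc q).ord_div (hd _ _ (e.injective.ne hij.symm)) (mul_ne_zero (hy i) (hy j)),
        (G.loc q).ord_mul _ _ (hy i) (hy j), (G.loc q).ord_sub_comm (x (e j))]
      ring
    have key := cubic_case G (fun i => (x (e i) - s)⁻¹)
      (fun i j h => e.injective (hx (sub_left_injective (inv_injective h)))) (e3 / b1)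
      ((e2 + 3 * e3 * s) / b1) ((e1 + 2 * e2 * s + 3 * e3 * s ^ 2) / b1 + G.D s)
      ((e3 * s ^ 3 + e2 * s ^ 2 + e1 * s + e0) / b1) (fun i => by
        have h3 := h1 i
        have h4 := hy i
        rw [G.toDer.D_inv, G.toDer.D_sub]
        field_simp
        linear_combination -h3)
      (fun q i j k l hij hik _ _ hjl hkl => by
        rw [hord q i j hij, hord q k l hkl, hord q i k hik, hord q j l hjl]
        obtain ⟨m, hm⟩ := (((he q _ _ (e.injective.ne hij)).add
          (he q _ _ (e.injective.ne hkl))).sub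
          (he q _ _ (e.injective.ne hik))).sub (he q _ _ (e.injective.ne hjl))
        exact ⟨m, by omega⟩)
    rw [← key]
    congr 1
    have h3 := hd _ _ (e.injective.ne (show (0 : Fin 18) ≠ 3 by decide))
    have h4 := hd _ _ (e.injective.ne (show (1 : Fin 18) ≠ 2 by decide))
    have h5 := hd _ _ (e.injective.ne (show (3 : Fin 18) ≠ 0 by decide))
    have h6 := hd _ _ (e.injective.ne (show (2 : Fin 18) ≠ 1 by decide))
    have y0 := hy 0
    have y1 := hy 1
    have y2 := hy 2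
    have y3 := hy 3
    simp only [cr, inv_sub_inv (hy _) (hy _), sub_sub_sub_cancel_right]
    field_simp
    ring

theorem main_glob [CharZero K] (G : Glob K) {n : ℕ} (hn : 71 ≤ n) (x : Fin n → K)
    (hx : Function.Injective x) (he : ∀ q i j, i ≠ j → Even ((G.loc q).ord (x i - x j))) :
    ∃ i1 i2, i1 ≠ i2 ∧ ∀ j, G.D ((x j - x i1) / (x i2 - x i1)) = 0 := by
  have hc := Fin.castLE_injective hn
  obtain ⟨i1, i2, i3, i4, h12, h13, h14, h23, h24, h34, h⟩ := exists_cr G
    (fun i => x (Fin.castLE hn i)) (hx.comp hc) fun q i j hij => he q _ _ (hc.ne hij)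
  exact ⟨_, _, hc.ne h12, of_cr G x hx he (hc.ne h12) (hc.ne h13) (hc.ne h14) (hc.ne h23)
    (hc.ne h24) (hc.ne h34) h⟩

end Pool.Agent.P.MP_7ede32_ag
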