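import Pool.Agent.P.MP_7ede32_ag.Tower

namespace Pool.Agent.P.MP_7ede32_ag

open Finset Matrix

variable {K : Type*} [Field K]

def mon12 (s w : K) : Fin 12 → K := ![1, s, s ^ 2, s ^ 3, s ^ 4, s ^ 5, w, s * w, s ^ 2 * w, s ^ 3 * w, w ^ 2, s * w ^ 2]

def dmon12 (s w : K) : Fin 12 → K := ![0, 0, 0, 0, 0, 0, 1, s, s ^ 2, s ^ 3, 2 * w, 2 * s * w]

def A12 (a b g a1 b1 : K) : Matrix (Fin 12) (Fin 12) K :=
  !![1, 0, 0, 0, 0, 0, 0, 0, 0, 0, 0, 0;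
     b, a, 0, 0, 0, 0, 0, 0, 0, 0, 0, 0;
     b ^ 2, 2 * a * b, a ^ 2, 0, 0, 0, 0, 0, 0, 0, 0, 0;
     b ^ 3, 3 * a * b ^ 2, 3 * a ^ 2 * b, a ^ 3, 0, 0, 0, 0, 0, 0, 0, 0;
     b ^ 4, 4 * a * b ^ 3, 6 * a ^ 2 * b ^ 2, 4 * a ^ 3 * b, a ^ 4, 0, 0, 0, 0, 0, 0, 0;
     b ^ 5, 5 * a * b ^ 4, 10 * a ^ 2 * b ^ 3, 10 * a ^ 3 * b ^ 2, 5 * a ^ 4 * b, a ^ 5, 0, 0, 0, 0, 0, 0;
     b1, a1, 0, 0, 0, 0, g, 0, 0, 0, 0, 0;
     b * b1, a * b1 + a1 * b, a * a1, 0, 0, 0, b * g, a * g, 0, 0, 0, 0;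
     b ^ 2 * b1, 2 * a * b * b1 + a1 * b ^ 2, 2 * a * a1 * b + a ^ 2 * b1, a ^ 2 * a1, 0, 0, b ^ 2 * g, 2 * a * b * g, a ^ 2 * g, 0, 0, 0;
     b ^ 3 * b1, 3 * a * b ^ 2 * b1 + a1 * b ^ 3, 3 * a * a1 * b ^ 2 + 3 * a ^ 2 * b * b1, 3 * a ^ 2 * a1 * b + a ^ 3 * b1, a ^ 3 * a1, 0, b ^ 3 * g, 3 * a * b ^ 2 * g, 3 * a ^ 2 * b * g, a ^ 3 * g, 0, 0;
     b1 ^ 2, 2 * a1 * b1, a1 ^ 2, 0, 0, 0, 2 * b1 * g, 2 * a1 * g, 0, 0, g ^ 2, 0;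
     b * b1 ^ 2, a * b1 ^ 2 + 2 * a1 * b * b1, 2 * a * a1 * b1 + a1 ^ 2 * b, a * a1 ^ 2, 0, 0, 2 * b * b1 * g, 2 * a * b1 * g + 2 * a1 * b * g, 2 * a * a1 * g, 0, b * g ^ 2, a * g ^ 2]

def La12 (p : K) : Matrix (Fin 12) (Fin 12) K :=
  !![1, 0, 0, 0, 0, 0, 0, 0, 0, 0, 0, 0;
     0, 2, 0, 0, 0, 0, p, 0, 0, 0, 0, 0;
     0, 0, 4, 0, 0, 0, 0, 4 * p, 0, 0, p ^ 2, 0;
     0, 0, 0, 0, 0, 0, -(1), 0, 0, 0, 0, 0;
     0, 0, 0, 0, 0, 0, 0, -(2), 0, 0, -(p), 0;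
     0, 0, 0, 4, 0, 0, 0, 0, 4 * p, 0, 0, p ^ 2;
     0, 0, 0, 0, 0, 0, 0, 0, 0, 0, 1, 0;
     0, 0, 0, 0, 0, 0, 0, 0, -(2), 0, 0, -(p);
     0, 0, 0, 0, 2, 0, 0, 0, 0, p, 0, 0;
     0, 0, 0, 0, 0, 0, 0, 0, 0, 0, 0, 1;
     0, 0, 0, 0, 0, 0, 0, 0, 0, -(1), 0, 0;
     0, 0, 0, 0, 0, 1, 0, 0, 0, 0, 0, 0]

def E12 (p h : K) : Matrix (Fin 12) (Fin 12) K :=
  !![1, 0, 0, 0, 0, 0, 0, 0, 0, 0, 0, 0;
     0, h * p, 0, 0, 0, 0, 1, 0, 0, 0, 0, 0;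
     0, 0, h ^ 2 * p ^ 2, 0, 0, 0, 0, h * p, 0, 0, 1, 0;
     0, h, 0, 0, 0, 0, 0, 0, 0, 0, 0, 0;
     0, 0, 2 * h ^ 2 * p, 0, 0, 0, 0, h, 0, 0, 0, 0;
     0, 0, 0, h ^ 2 * p ^ 2, 0, 0, 0, 0, h * p, 0, 0, 1;
     0, 0, h ^ 2, 0, 0, 0, 0, 0, 0, 0, 0, 0;
     0, 0, 0, 2 * h ^ 2 * p, 0, 0, 0, 0, h, 0, 0, 0;
     0, 0, 0, 0, h * p, 0, 0, 0, 0, 1, 0, 0;
     0, 0, 0, h ^ 2, 0, 0, 0, 0, 0, 0, 0, 0;
     0, 0, 0, 0, h, 0, 0, 0, 0, 0, 0, 0;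
     0, 0, 0, 0, 0, 1, 0, 0, 0, 0, 0, 0]

def La12T (p : K) : Matrix (Fin 12) (Fin 12) K :=
  !![1, 0, 0, 0, 0, 0, 0, 0, 0, 0, 0, 0;
     0, 2, 0, 0, 0, 0, p, 0, 0, 0, 0, 0;
     0, 1, 0, 0, 0, 0, 0, 0, 0, 0, 0, 0;
     0, 0, 4, 0, 0, 0, 0, 4 * p, 0, 0, p ^ 2, 0;
     0, 0, 0, 0, 0, 0, 0, -(2), 0, 0, -(p), 0;
     0, 0, 0, 4, 0, 0, 0, 0, 4 * p, 0, 0, p ^ 2;
     0, 0, 0, 0, 0, 0, 0, 0, 0, 0, 1, 0;
     0, 0, 0, 0, 0, 0, 0, 0, -(2), 0, 0, -(p);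
     0, 0, 0, 0, 2, 0, 0, 0, 0, p, 0, 0;
     0, 0, 0, 0, 0, 0, 0, 0, 0, 0, 0, 1;
     0, 0, 0, 0, 0, 0, 0, 0, 0, -(1), 0, 0;
     0, 0, 0, 0, 0, 1, 0, 0, 0, 0, 0, 0]

def E12T (p h : K) : Matrix (Fin 12) (Fin 12) K :=
  !![1, 0, 0, 0, 0, 0, 0, 0, 0, 0, 0, 0;
     0, 0, 0, 0, 0, 0, 1, 0, 0, 0, 0, 0;
     0, 1, 0, 0, 0, 0, 0, 0, 0, 0, 0, 0;
     0, 0, h ^ 2 * p ^ 2, 0, 0, 0, 0, h * p, 0, 0, 1, 0;
     0, 0, 2 * h ^ 2 * p, 0, 0, 0, 0, h, 0, 0, 0, 0;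
     0, 0, 0, h ^ 2 * p ^ 2, 0, 0, 0, 0, h * p, 0, 0, 1;
     0, 0, h ^ 2, 0, 0, 0, 0, 0, 0, 0, 0, 0;
     0, 0, 0, 2 * h ^ 2 * p, 0, 0, 0, 0, h, 0, 0, 0;
     0, 0, 0, 0, h * p, 0, 0, 0, 0, 1, 0, 0;
     0, 0, 0, h ^ 2, 0, 0, 0, 0, 0, 0, 0, 0;
     0, 0, 0, 0, h, 0, 0, 0, 0, 0, 0, 0;
     0, 0, 0, 0, 0, 1, 0, 0, 0, 0, 0, 0]

def wt12 : Fin 12 → ℕ := ![0, 1, 2, 3, 4, 4, 6, 6, 7, 8, 9, 10]

def wt12T : Fin 12 → ℕ := ![0, 1, 2, 2, 4, 4, 6, 6, 7, 8, 9, 10]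

/-- the signed permutation matrix of the inversion -/
def J12 : Matrix (Fin 12) (Fin 12) ℤ :=
  !![0, 0, 0, 0, 0, 1, 0, 0, 0, 0, 0, 0;
     0, 0, 0, 0, 1, 0, 0, 0, 0, 0, 0, 0;
     0, 0, 0, 1, 0, 0, 0, 0, 0, 0, 0, 0;
     0, 0, 1, 0, 0, 0, 0, 0, 0, 0, 0, 0;
     0, 1, 0, 0, 0, 0, 0, 0, 0, 0, 0, 0;
     1, 0, 0, 0, 0, 0, 0, 0, 0, 0, 0, 0;
     0, 0, 0, 0, 0, 0, 0, 0, 0, -1, 0, 0;
     0, 0, 0, 0, 0, 0, 0, 0, -1, 0, 0, 0;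
     0, 0, 0, 0, 0, 0, 0, -1, 0, 0, 0, 0;
     0, 0, 0, 0, 0, 0, -1, 0, 0, 0, 0, 0;
     0, 0, 0, 0, 0, 0, 0, 0, 0, 0, 0, 1;
     0, 0, 0, 0, 0, 0, 0, 0, 0, 0, 1, 0]

theorem J12_sq : J12 * J12 = 1 := by decide +kernel

theorem J12_mon (s w : K) (hs : s ≠ 0) :
    (J12.map (Int.cast : ℤ → K)).mulVec (mon12 s w) = s ^ 5 • mon12 s⁻¹ (-w / s ^ 2) := by
  ext i
  fin_cases i <;> simp [J12, mon12, Matrix.mulVec, dotProduct, Fin.sum_univ_succ] <;>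
    field_simp

theorem J12_dmon (s w : K) (hs : s ≠ 0) :
    (J12.map (Int.cast : ℤ → K)).mulVec (dmon12 s w) =
      (-s ^ 3) • dmon12 s⁻¹ (-w / s ^ 2) := by
  ext i
  fin_cases i <;> simp [J12, dmon12, Matrix.mulVec, dotProduct, Fin.sum_univ_succ] <;>
    field_simp

theorem A12_mon (a b g a1 b1 s w : K) :
    (A12 a b g a1 b1).mulVec (mon12 s w) = mon12 (a * s + b) (g * w + a1 * s + b1) := by
  ext i
  fin_cases i <;> simp [A12, mon12, Matrix.mulVec, dotProduct, Fin.sum_univ_succ] <;> ring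

theorem A12_dmon (a b g a1 b1 s w : K) :
    (A12 a b g a1 b1).mulVec (dmon12 s w) = g • dmon12 (a * s + b) (g * w + a1 * s + b1) := by
  ext i
  fin_cases i <;> simp [A12, dmon12, Matrix.mulVec, dotProduct, Fin.sum_univ_succ] <;> ring

theorem A12_det (a b g a1 b1 : K) : (A12 a b g a1 b1).det = a ^ 22 * g ^ 8 := by
  rw [Matrix.det_of_isLowerTriangular]
  · simp [A12, Fin.prod_univ_succ]; ring
  · intro i j hij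
    fin_cases i <;> fin_cases j <;> first | rfl | (exfalso; revert hij; decide)

theorem A12_one : A12 (1 : K) 0 1 0 0 = 1 := by
  ext i j
  fin_cases i <;> fin_cases j <;> simp [A12]

theorem zoom12 [CharZero K] (p s w : K) :
    ∑ a, (p ^ wt12 a * (La12 p).mulVec (mon12 s w) a) • E12 p 2⁻¹ a =
      mon12 (p ^ 2 * s) (p ^ 2 * w + 2 * p * s) := by
  ext i
  fin_cases i <;>
    simp [La12, E12, wt12, mon12, Matrix.mulVec, dotProduct, Fin.sum_univ_succ] <;> ring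

theorem zoom12d [CharZero K] (p s w : K) :
    ∑ a, (p ^ wt12 a * (La12 p).mulVec (dmon12 s w) a) • E12 p 2⁻¹ a =
      p ^ 2 • dmon12 (p ^ 2 * s) (p ^ 2 * w + 2 * p * s) := by
  ext i
  fin_cases i <;>
    simp [La12, E12, wt12, dmon12, Matrix.mulVec, dotProduct, Fin.sum_univ_succ] <;>
    first | ring1 | (left; ring1)

theorem zoom12T [CharZero K] (p s w : K) :
    ∑ a, (p ^ wt12T a * (La12T p).mulVec (mon12 s w) a) • E12T p 2⁻¹ a =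
      mon12 (p ^ 2 * s) (p ^ 2 * w + 2 * p * s) := by
  ext i
  fin_cases i <;>
    simp [La12T, E12T, wt12T, mon12, Matrix.mulVec, dotProduct, Fin.sum_univ_succ] <;> ring

theorem zoom12Td [CharZero K] (p s w : K) :
    ∑ a, (p ^ wt12T a * (La12T p).mulVec (dmon12 s w) a) • E12T p 2⁻¹ a =
      p ^ 2 • dmon12 (p ^ 2 * s) (p ^ 2 * w + 2 * p * s) := by
  ext i
  fin_cases i <;>
    simp [La12T, E12T, wt12T, dmon12, Matrix.mulVec, dotProduct, Fin.sum_univ_succ] <;>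
    first | ring1 | (left; ring1)

theorem La12T_mon0 (p : K) : (La12T p).mulVec (mon12 0 0) = Pi.single 0 1 := by
  ext i
  fin_cases i <;> simp [La12T, mon12, Matrix.mulVec, dotProduct, Fin.sum_univ_succ]

theorem La12T_dmon0 (p : K) : (La12T p).mulVec (dmon12 0 0) = Pi.single 1 p := by
  ext i
  fin_cases i <;> simp [La12T, dmon12, Matrix.mulVec, dotProduct, Fin.sum_univ_succ]

theorem E12T_zero (p h : K) : E12T p h 0 = mon12 0 0 := by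
  ext i
  fin_cases i <;> simp [E12T, mon12]

theorem E12T_one (p h : K) : E12T p h 1 = dmon12 0 0 := by
  ext i
  fin_cases i <;> simp [E12T, dmon12]

theorem A12_int (L : Loc K) (a b g a1 b1 : K) (ha : L.Ge 0 a) (hb : L.Ge 0 b) (hg : L.Ge 0 g)
    (ha1 : L.Ge 0 a1) (hb1 : L.Ge 0 b1) (i j : Fin 12) :
    L.Ge 0 (A12 a b g a1 b1 i j) := by
  fin_cases i <;> fin_cases j <;> simp only [A12, Matrix.of_apply, Matrix.cons_val',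
    Matrix.cons_val, Matrix.cons_val_fin_one, Fin.reduceFinMk, Fin.zero_eta, Fin.mk_one,
    Fin.isValue] <;>
    repeat' first
      | exact Loc.Ge.zero _ | exact Loc.Ge.one | assumption | exact Loc.Ge.ofNat _
      | apply Loc.Ge.add | apply Loc.Ge.neg | apply Loc.Ge.pow0 | apply Loc.Ge.mul00

theorem La12_int (L : Loc K) (p : K) (hp : L.Ge 0 p) (i j : Fin 12) :
    L.Ge 0 (La12 p i j) := by
  fin_cases i <;> fin_cases j <;> simp only [La12, Matrix.of_apply, Matrix.cons_val',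
    Matrix.cons_val, Matrix.cons_val_fin_one, Fin.reduceFinMk, Fin.zero_eta, Fin.mk_one,
    Fin.isValue] <;>
    repeat' first
      | exact Loc.Ge.zero _ | exact Loc.Ge.one | assumption | exact Loc.Ge.ofNat _
      | apply Loc.Ge.add | apply Loc.Ge.neg | apply Loc.Ge.pow0 | apply Loc.Ge.mul00

theorem E12_int (L : Loc K) (p h : K) (hp : L.Ge 0 p) (hh : L.Ge 0 h) (i j : Fin 12) :
    L.Ge 0 (E12 p h i j) := by
  fin_cases i <;> fin_cases j <;> simp only [E12, Matrix.of_apply, Matrix.cons_val',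
    Matrix.cons_val, Matrix.cons_val_fin_one, Fin.reduceFinMk, Fin.zero_eta, Fin.mk_one,
    Fin.isValue] <;>
    repeat' first
      | exact Loc.Ge.zero _ | exact Loc.Ge.one | assumption | exact Loc.Ge.ofNat _
      | apply Loc.Ge.add | apply Loc.Ge.neg | apply Loc.Ge.pow0 | apply Loc.Ge.mul00

theorem La12T_int (L : Loc K) (p : K) (hp : L.Ge 0 p) (i j : Fin 12) :
    L.Ge 0 (La12T p i j) := by
  fin_cases i <;> fin_cases j <;> simp only [La12T, Matrix.of_apply, Matrix.cons_val',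
    Matrix.cons_val, Matrix.cons_val_fin_one, Fin.reduceFinMk, Fin.zero_eta, Fin.mk_one,
    Fin.isValue] <;>
    repeat' first
      | exact Loc.Ge.zero _ | exact Loc.Ge.one | assumption | exact Loc.Ge.ofNat _
      | apply Loc.Ge.add | apply Loc.Ge.neg | apply Loc.Ge.pow0 | apply Loc.Ge.mul00

theorem E12T_int (L : Loc K) (p h : K) (hp : L.Ge 0 p) (hh : L.Ge 0 h) (i j : Fin 12) :
    L.Ge 0 (E12T p h i j) := by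
  fin_cases i <;> fin_cases j <;> simp only [E12T, Matrix.of_apply, Matrix.cons_val',
    Matrix.cons_val, Matrix.cons_val_fin_one, Fin.reduceFinMk, Fin.zero_eta, Fin.mk_one,
    Fin.isValue] <;>
    repeat' first
      | exact Loc.Ge.zero _ | exact Loc.Ge.one | assumption | exact Loc.Ge.ofNat _
      | apply Loc.Ge.add | apply Loc.Ge.neg | apply Loc.Ge.pow0 | apply Loc.Ge.mul00

theorem mon12_int (L : Loc K) {s w : K} (hs : L.Ge 0 s) (hw : L.Ge 0 w) :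
    L.IntV (mon12 s w) := by
  intro i
  fin_cases i <;> simp only [mon12, Matrix.cons_val, Fin.reduceFinMk, Fin.zero_eta, Fin.mk_one,
    Fin.isValue] <;>
    repeat' first
      | exact Loc.Ge.zero _ | exact Loc.Ge.one | assumption | exact Loc.Ge.ofNat _
      | apply Loc.Ge.add | apply Loc.Ge.neg | apply Loc.Ge.pow0 | apply Loc.Ge.mul00

theorem dmon12_int (L : Loc K) {s w : K} (hs : L.Ge 0 s) (hw : L.Ge 0 w) :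
    L.IntV (dmon12 s w) := by
  intro i
  fin_cases i <;> simp only [dmon12, Matrix.cons_val, Fin.reduceFinMk, Fin.zero_eta, Fin.mk_one,
    Fin.isValue] <;>
    repeat' first
      | exact Loc.Ge.zero _ | exact Loc.Ge.one | assumption | exact Loc.Ge.ofNat _
      | apply Loc.Ge.add | apply Loc.Ge.neg | apply Loc.Ge.pow0 | apply Loc.Ge.mul00

end Pool.Agent.P.MP_7ede32_ag
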