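import Pool.Agent.P.MP_7ede32_ag.NSys

namespace Pool.Agent.P.MP_7ede32_ag.N

open Finset Filter

section
variable {K : Type*} [Field K]

/-- the invariant as an element of the field -/
noncomputable def Phi (e1 e2 : Bool) (s w : Fin 12 → K) : K :=
  (∏ q ∈ QS, Th e1 e2 q.1 q.2.1 q.2.2.1 q.2.2.2 s w) /
    (∏ i, ∏ j, if i = j then 1 else (s i - s j)) ^ cJ e1 e2

theorem Phi_ord (M : MOrd K) {e1 e2 : Bool} {s w : Fin 12 → K} (hs : Function.Injective s)
    (hG : Gd e1 e2 s w) : Phi e1 e2 s w ≠ 0 ∧ M.ord (Phi e1 e2 s w) = M.del e1 e2 s w := by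
  obtain ⟨h1, h2⟩ := M.ord_nuProd s hs
  have h3 : ∀ q ∈ QS, Th e1 e2 q.1 q.2.1 q.2.2.1 q.2.2.2 s w ≠ 0 :=
    fun q hq => hG _ _ _ _ (mem_QS hq)
  have h4 := Finset.prod_ne_zero_iff.2 h3
  refine ⟨div_ne_zero h4 (zpow_ne_zero _ h1), ?_⟩
  obtain ⟨n, hn⟩ : ∃ n : ℕ, cJ e1 e2 = n := by
    cases e1 <;> cases e2
    exacts [⟨2700, rfl⟩, ⟨2610, rfl⟩, ⟨2610, rfl⟩, ⟨2520, rfl⟩]
  unfold Phi MOrd.del
  rw [M.ord_div h4 (zpow_ne_zero _ h1), M.ord_prod _ _ h3, hn, zpow_natCast, M.ord_pow h1, h2]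
  rfl

/-- cross ratio of four of the points -/
def crq {ι : Type*} (x : ι → K) (i j k l : ι) : K :=
  (x i - x j) * (x k - x l) / ((x i - x k) * (x j - x l))

theorem L_crq (d : Der K) {ι : Type*} (x : ι → K) {i j k l : ι} (hij : x i - x j ≠ 0)
    (hkl : x k - x l ≠ 0) (hik : x i - x k ≠ 0) (hjl : x j - x l ≠ 0) :
    d.L (crq x i j k l) = lam x (fun i => d.D (x i)) i j k l := by
  unfold crq
  rw [d.L_div (mul_ne_zero hij hkl) (mul_ne_zero hik hjl), d.L_mul hij hkl, d.L_mul hik hjl]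
  simp only [Der.L, lam, th, d.D_sub]
  ring

theorem one_sub_crq {ι : Type*} (x : ι → K) {i j k l : ι} (hik : x i - x k ≠ 0)
    (hjl : x j - x l ≠ 0) : 1 - crq x i j k l = crq x i l k j := by
  have : x l - x j ≠ 0 := fun h => hjl (by linear_combination -h)
  unfold crq
  field_simp
  ring

end

variable {K : Type} [Field K]

theorem three_bound [CharZero K] {N : Ev K} {S T : K → Prop} (H : Small N S T) {Φ c : K}
    (hΦ : Φ ≠ 0) (hS : S Φ) (h0 : c ≠ 0) (h1 : 1 - c ≠ 0) (s0 : S (N.toDer.L c))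
    (s1 : S (N.toDer.L (1 - c)))
    (ho : ∀ q, 0 ≤ (N.loc q).ord Φ ∧ ((N.loc q).ord Φ < 1 →
      (N.loc q).ord c = 0 ∧ (N.loc q).ord (1 - c) = 0)) : T c := by
  by_cases hc : N.D c = 0
  · exact H.T_const hc
  have hD : N.D (1 - c) = -N.D c := by rw [N.toDer.D_sub, N.toDer.D_one, zero_sub]
  simp only [Der.L, hD] at s0 s1
  have hP := mul_ne_zero h0 h1
  refine H.bound (g := Φ * (N.D c / (c * (1 - c)))) (mul_ne_zero hΦ (div_ne_zero hc hP)) ?_ ?_
    fun q => ?_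
  · convert H.S_mul hS (H.S_sub s0 s1) using 2
    field_simp
    ring
  · convert H.S_mul hS (H.S_neg s1) using 1
    field_simp
  · set L := N.loc q with hL
    rw [L.ord_mul _ _ hΦ (div_ne_zero hc hP), L.ord_div hc hP, L.ord_mul _ _ h0 h1]
    have k0 : L.ord c - 1 ≤ L.ord (N.D c) := by
      have := (Loc.Ge.self (L := L) c).D
      rw [hL, N.hD] at this
      exact this.le hc
    have k1 : L.ord (1 - c) - 1 ≤ L.ord (N.D c) := by
      have := (Loc.Ge.self (L := L) (1 - c)).D.neg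
      rw [hL, N.hD, hD, neg_neg] at this
      exact this.le hc
    have k2 : 0 ≤ L.ord c → 0 ≤ L.ord (N.D c) := fun h => by
      have := (Loc.Ge.of_le (L := L) h).D0
      rw [hL, N.hD] at this
      exact this.le hc
    have k3 := (L.ord_tri (neg_ne_zero.2 h0) h1 (x := -c) (y := 1 - c)
      (by rw [show -c - (1 - c) = -1 by ring]; exact neg_ne_zero.2 one_ne_zero)
      (by rw [show -c - (1 - c) = -1 by ring, L.ord_neg_one])).1
    rw [L.ord_neg] at k3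
    obtain ⟨k4, k5⟩ := ho q
    rw [← hL] at k4 k5
    constructor
    · omega
    · intro _; omega

theorem goodA [CharZero K] {N : Ev K} (hN : N.Nev) {e1 e2 : Bool} (h21 : e2 = true → e1 = true)
    (x : Fin 12 → K) (hx : Function.Injective x)
    (he : ∀ q i j, i ≠ j → Even ((N.loc q).ord (x i - x j)))
    (hG : Gd e1 e2 x (fun i => N.D (x i))) {i j k l : Fin 12} (h : Dist i j k l) :
    N.D (crq x i j k l) = 0 := by
  by_contra hne
  have hd : ∀ i j, i ≠ j → x i - x j ≠ 0 := fun i j hij => sub_ne_zero.2 fun h => hij (hx h)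
  let ι := {q : Fin 12 × Fin 12 × Fin 12 × Fin 12 // Dist q.1 q.2.1 q.2.2.1 q.2.2.2}
  have : Fintype ι := Fintype.ofFinite ι
  let b : ι → K := fun q => crq x q.1.1 q.1.2.1 q.1.2.2.1 q.1.2.2.2
  have hb : ∀ q, b q ≠ 0 := fun ⟨⟨i, j, k, l⟩, h1, h2, _, _, h5, h6⟩ =>
    div_ne_zero (mul_ne_zero (hd _ _ h1) (hd _ _ h6)) (mul_ne_zero (hd _ _ h2) (hd _ _ h5))
  obtain ⟨S, T, H, hL, hT⟩ := hN b hb ⟨⟨(i, j, k, l), h⟩, hne⟩
  have hΦ := (Phi_ord (toM (N.loc 0)) hx hG).1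
  have hS : S (Phi e1 e2 x fun i => N.D (x i)) := by
    choose X hX using fun i => N.exists_rep (x i)
    choose W hW using fun i => N.exists_rep (N.D (x i))
    obtain ⟨C, hC⟩ := arch_bound
    have hth : ∀ i j, N.Rep (th x (fun i => N.D (x i)) i j)
        (fun z => th (fun i => X i z) (fun i => W i z) i j) :=
      fun i j => ((hW i).sub (hW j)).div ((hX i).sub (hX j))
    refine H.dom (fun q => N.toDer.L (b q))
      (fun q z => lam (fun i => X i z) (fun i => W i z) q.1.1 q.1.2.1 q.1.2.2.1 q.1.2.2.2) _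
      (fun z => Phi e1 e2 (fun i => X i z) (fun i => W i z)) C 95040 hL ?_ ?_ ?_
    · rintro ⟨⟨i, j, k, l⟩, h1, h2, _, _, h5, h6⟩
      simp only [b]
      rw [L_crq _ _ (hd _ _ h1) (hd _ _ h6) (hd _ _ h2) (hd _ _ h5)]
      exact (((hth _ _).add (hth _ _)).sub (hth _ _)).sub (hth _ _)
    · exact (Ev.Rep.prod _ fun q _ => Ev.Rep.Th _ _ _ _ _ _ hX hW).div
        ((Ev.Rep.prod _ fun i _ => Ev.Rep.prod _ fun j _ =>
          Ev.Rep.one.ite ((hX i).sub (hX j))).zpow _)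
    · have h1 : ∀ᶠ z in N.F, ∀ i j, i ≠ j → X i z - X j z ≠ 0 := by
        refine eventually_all.2 fun i => eventually_all.2 fun j => ?_
        by_cases hij : i = j
        · simp [hij]
        · exact (((hX i).sub (hX j)).ne_zero (hd i j hij)).mono fun z hz _ => hz
      have h2 : ∀ᶠ z in N.F, ∀ q : ι, Th e1 e2 q.1.1 q.1.2.1 q.1.2.2.1 q.1.2.2.2
          (fun i => X i z) (fun i => W i z) ≠ 0 :=
        eventually_all.2 fun q => (Ev.Rep.Th _ _ _ _ _ _ hX hW).ne_zero (hG _ _ _ _ q.2)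
      filter_upwards [h1, h2] with z h1 h2 Λ hΛ h3
      have h4 : Function.Injective fun i => X i z := fun i j h => by
        by_contra hij
        exact h1 i j hij (sub_eq_zero.2 h)
      have h5 : Gd e1 e2 (fun i => X i z) (fun i => W i z) :=
        fun a b c d h => h2 ⟨(a, b, c, d), h⟩
      have h6 := hC e1 e2 _ _ h4 h5 Λ hΛ fun i j k l h1 h2 h3' h4 h5 h6 =>
        h3 ⟨(i, j, k, l), h1, h2, h3', h4, h5, h6⟩
      rw [← (Phi_ord archM h4 h5).2] at h6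
      change _ ≤ -Real.log _ at h6
      linarith
  refine hT ?_
  rintro ⟨⟨i, j, k, l⟩, h1, h2, h3, h4, h5, h6⟩
  have e := one_sub_crq x (hd _ _ h2) (hd _ _ h5)
  have hq : Dist i l k j := ⟨h3, h2, h1, Ne.symm h6, Ne.symm h5, Ne.symm h4⟩
  refine three_bound H hΦ hS (hb ⟨(i, j, k, l), h1, h2, h3, h4, h5, h6⟩)
    (by rw [e]; exact hb ⟨(i, l, k, j), hq⟩) (hL ⟨(i, j, k, l), h1, h2, h3, h4, h5, h6⟩)
    (by rw [e]; exact hL ⟨(i, l, k, j), hq⟩) fun q => ?_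
  have hG' : Gd e1 e2 x (fun i => (N.loc q).D (x i)) := by simpa only [N.hD] using hG
  obtain ⟨k1, k2⟩ := del_local (N.loc q) h21 x hx (he q) hG'
  rw [← (Phi_ord _ hx hG').2] at k1 k2
  simp only [N.hD, toM] at k1 k2
  refine ⟨by exact_mod_cast k1, fun k3 => ?_⟩
  have k4 := k2 (by exact_mod_cast k3)
  have k5 : ∀ i j k l, Dist i j k l → (N.loc q).ord (crq x i j k l) = 0 := by
    rintro i j k l ⟨h1, h2, _, _, h5, h6⟩
    unfold crq
    rw [Loc.ord_div _ (mul_ne_zero (hd _ _ h1) (hd _ _ h6)) (mul_ne_zero (hd _ _ h2) (hd _ _ h5)),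
      Loc.ord_mul _ _ _ (hd _ _ h1) (hd _ _ h6), Loc.ord_mul _ _ _ (hd _ _ h2) (hd _ _ h5),
      k4 i j k l h1 h6 h2 h5, sub_self]
  exact ⟨k5 _ _ _ _ ⟨h1, h2, h3, h4, h5, h6⟩, by rw [e]; exact k5 _ _ _ _ hq⟩

theorem five_points' [CharZero K] {N : Ev K} (hN : N.Nev) (f a b c : K) (ha : N.D a = 0)
    (hb : N.D b = 0) (hc : N.D c = 0) (ha0 : a ≠ 0) (hb0 : b ≠ 0) (hc0 : c ≠ 0) (hab : a ≠ b)
    (hac : a ≠ c) (hbc : b ≠ c) (e0 : ∀ q, f ≠ 0 ∧ Even ((N.loc q).ord f))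
    (ea : ∀ q, f - a ≠ 0 ∧ Even ((N.loc q).ord (f - a)))
    (eb : ∀ q, f - b ≠ 0 ∧ Even ((N.loc q).ord (f - b)))
    (ec : ∀ q, f - c ≠ 0 ∧ Even ((N.loc q).ord (f - c))) : N.D f = 0 := by
  have h : ∀ q i, f - ![0, a, b, c] i ≠ 0 ∧ Even ((N.loc q).ord (f - ![0, a, b, c] i)) := by
    intro q i
    fin_cases i
    · simpa using e0 q
    · exact ea q
    · exact eb q
    · exact ec q
  refine five_points hN f ![0, a, b, c] (fun i => ?_) (fun i j hij => ?_) (fun i => (h 0 i).1)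
    fun q i => (h q i).2
  · fin_cases i
    · exact N.toDer.D_zero
    · exact ha
    · exact hb
    · exact hc
  · fin_cases i <;> fin_cases j <;> simp_all [eq_comm]

/-- two constant cross ratios force all points onto a constant configuration -/
theorem of_cr5 [CharZero K] {N : Ev K} (hN : N.Nev) {ι : Type*} (x : ι → K)
    (hx : Function.Injective x)
    (he : ∀ q i j, i ≠ j → Even ((N.loc q).ord (x i - x j))) {i1 i2 i3 i4 i5 : ι}
    (h12 : i1 ≠ i2) (h13 : i1 ≠ i3) (h14 : i1 ≠ i4) (h15 : i1 ≠ i5) (h23 : i2 ≠ i3)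
    (h24 : i2 ≠ i4) (h25 : i2 ≠ i5) (h34 : i3 ≠ i4) (h35 : i3 ≠ i5) (h45 : i4 ≠ i5)
    (hcr : N.D (cr (x i1) (x i2) (x i3) (x i4)) = 0)
    (hcr' : N.D (cr (x i1) (x i2) (x i3) (x i5)) = 0) (j : ι) :
    N.D ((x j - x i1) / (x i2 - x i1)) = 0 := by
  have hd : ∀ i j, i ≠ j → x i - x j ≠ 0 := fun i j hij => sub_ne_zero.2 fun h => hij (hx h)
  have hev : ∀ q i j, i ≠ j → x i - x j ≠ 0 ∧ Even ((N.loc q).ord (x i - x j)) :=
    fun q i j hij => ⟨hd i j hij, he q i j hij⟩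
  have d21 := hd _ _ h12.symm
  have d31 := hd _ _ h13.symm
  have d32 := hd _ _ h23.symm
  have c0 : ∀ q j, j ≠ i1 → j ≠ i2 → cr (x i1) (x i2) (x i3) (x j) ≠ 0 ∧
      Even ((N.loc q).ord (cr (x i1) (x i2) (x i3) (x j))) := fun q j h1 h2 =>
    (N.loc q).even_div ((N.loc q).even_mul (hev q _ _ h2) (hev q _ _ h13.symm))
      ((N.loc q).even_mul (hev q _ _ h1) (hev q _ _ h23.symm))
  have c1 : ∀ q j, j ≠ i1 → j ≠ i3 → cr (x i1) (x i2) (x i3) (x j) - 1 ≠ 0 ∧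
      Even ((N.loc q).ord (cr (x i1) (x i2) (x i3) (x j) - 1)) := fun q j h1 h3 => by
    have := hd _ _ h1
    rw [show cr (x i1) (x i2) (x i3) (x j) - 1 =
      (x j - x i3) * (x i2 - x i1) / ((x j - x i1) * (x i3 - x i2)) by rw [cr]; field_simp; ring]
    exact (N.loc q).even_div ((N.loc q).even_mul (hev q _ _ h3) (hev q _ _ h12.symm))
      ((N.loc q).even_mul (hev q _ _ h1) (hev q _ _ h23.symm))
  have c2 : ∀ q j k, j ≠ i1 → k ≠ i1 → j ≠ k →
      cr (x i1) (x i2) (x i3) (x j) - cr (x i1) (x i2) (x i3) (x k) ≠ 0 ∧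
      Even ((N.loc q).ord (cr (x i1) (x i2) (x i3) (x j) - cr (x i1) (x i2) (x i3) (x k))) :=
    fun q j k h1 h2 h3 => by
      have := hd _ _ h1
      have := hd _ _ h2
      rw [show cr (x i1) (x i2) (x i3) (x j) - cr (x i1) (x i2) (x i3) (x k) =
        (x i3 - x i1) * (x i2 - x i1) * (x j - x k) /
          ((x i3 - x i2) * (x j - x i1) * (x k - x i1)) by rw [cr, cr]; field_simp; ring]
      exact (N.loc q).even_div ((N.loc q).even_mul
        ((N.loc q).even_mul (hev q _ _ h13.symm) (hev q _ _ h12.symm)) (hev q _ _ h3))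
        ((N.loc q).even_mul ((N.loc q).even_mul (hev q _ _ h23.symm) (hev q _ _ h1))
          (hev q _ _ h2))
  have c3 : ∀ q k, k ≠ i1 →
      (x i3 - x i1) / (x i3 - x i2) - cr (x i1) (x i2) (x i3) (x k) ≠ 0 ∧
      Even ((N.loc q).ord ((x i3 - x i1) / (x i3 - x i2) - cr (x i1) (x i2) (x i3) (x k))) :=
    fun q k h1 => by
      have := hd _ _ h1
      rw [show (x i3 - x i1) / (x i3 - x i2) - cr (x i1) (x i2) (x i3) (x k) =
        (x i3 - x i1) * (x i2 - x i1) / ((x i3 - x i2) * (x k - x i1)) by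
          rw [cr]; field_simp; ring]
      exact (N.loc q).even_div ((N.loc q).even_mul (hev q _ _ h13.symm) (hev q _ _ h12.symm))
        ((N.loc q).even_mul (hev q _ _ h23.symm) (hev q _ _ h1))
  have five : ∀ f, (∀ q, f ≠ 0 ∧ Even ((N.loc q).ord f)) →
      (∀ q, f - 1 ≠ 0 ∧ Even ((N.loc q).ord (f - 1))) →
      (∀ q k, k = i4 ∨ k = i5 → f - cr (x i1) (x i2) (x i3) (x k) ≠ 0 ∧
        Even ((N.loc q).ord (f - cr (x i1) (x i2) (x i3) (x k)))) → N.D f = 0 :=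
    fun f h0 h1 h2 => five_points' hN f 1 _ _ N.toDer.D_one hcr hcr' one_ne_zero
      (c0 0 _ h14.symm h24.symm).1 (c0 0 _ h15.symm h25.symm).1
      (sub_ne_zero.1 (c1 0 _ h14.symm h34.symm).1).symm
      (sub_ne_zero.1 (c1 0 _ h15.symm h35.symm).1).symm
      (sub_ne_zero.1 (c2 0 _ _ h14.symm h15.symm h45).1) h0 h1
      (fun q => h2 q _ (Or.inl rfl)) (fun q => h2 q _ (Or.inr rfl))
  have hinf : N.D ((x i3 - x i1) / (x i3 - x i2)) = 0 := by
    refine five _ (fun q => (N.loc q).even_div (hev q _ _ h13.symm) (hev q _ _ h23.symm))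
      (fun q => ?_) fun q k hk => c3 q k (by rcases hk with h | h <;> rw [h] <;> symm <;> assumption)
    rw [show (x i3 - x i1) / (x i3 - x i2) - 1 = (x i2 - x i1) / (x i3 - x i2) by
      field_simp; ring]
    exact (N.loc q).even_div (hev q _ _ h12.symm) (hev q _ _ h23.symm)
  by_cases hj1 : j = i1
  · rw [hj1, sub_self, zero_div, N.toDer.D_zero]
  have dj1 := hd _ _ hj1
  have hy : N.D (cr (x i1) (x i2) (x i3) (x j)) = 0 := by
    by_cases hj2 : j = i2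
    · rw [hj2, cr, sub_self, zero_mul, zero_div, N.toDer.D_zero]
    by_cases hj3 : j = i3
    · rw [hj3, cr, mul_comm, div_self (mul_ne_zero d31 d32), N.toDer.D_one]
    by_cases hj4 : j = i4
    · rw [hj4]; exact hcr
    by_cases hj5 : j = i5
    · rw [hj5]; exact hcr'
    refine five _ (fun q => c0 q j hj1 hj2) (fun q => c1 q j hj1 hj3) fun q k hk => ?_
    rcases hk with h | h <;> rw [h]
    · exact c2 q j _ hj1 h14.symm hj4
    · exact c2 q j _ hj1 h15.symm hj5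
  have e : (x j - x i1) / (x i2 - x i1) =
      (1 - cr (x i1) (x i2) (x i3) (x j) / ((x i3 - x i1) / (x i3 - x i2)))⁻¹ := by
    rw [cr]
    refine eq_inv_of_mul_eq_one_left ?_
    field_simp
    ring
  rw [e, N.toDer.D_inv, N.toDer.D_sub, N.toDer.D_div _ _ (div_ne_zero d31 d32), hy, hinf,
    N.toDer.D_one]
  simp

theorem bernoulli5 [CharZero K] {N : Ev K} (hN : N.Nev) {y1 y2 y3 y4 y5 ε β : K} (hε : ε ≠ 0)
    (s12 : y1 - y2 ≠ 0) (s13 : y1 - y3 ≠ 0) (s14 : y1 - y4 ≠ 0) (s51 : y5 - y1 ≠ 0)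
    (s23 : y2 - y3 ≠ 0) (s24 : y2 - y4 ≠ 0) (s52 : y5 - y2 ≠ 0) (s34 : y3 - y4 ≠ 0)
    (s53 : y5 - y3 ≠ 0) (s54 : y5 - y4 ≠ 0)
    (e1 : N.D y1 = ε + β * y1) (e2 : N.D y2 = ε + β * y2) (e3 : N.D y3 = ε + β * y3)
    (e4 : N.D y4 = ε + β * y4) (e5 : N.D y5 = ε + β * y5)
    (v1 : ∀ q, y1 ≠ 0 ∧ Even ((N.loc q).ord y1)) (v2 : ∀ q, y2 ≠ 0 ∧ Even ((N.loc q).ord y2))
    (v3 : ∀ q, y3 ≠ 0 ∧ Even ((N.loc q).ord y3)) (v4 : ∀ q, y4 ≠ 0 ∧ Even ((N.loc q).ord y4))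
    (v5 : ∀ q, y5 ≠ 0 ∧ Even ((N.loc q).ord y5)) : False := by
  have n5 := (v5 0).1
  have hc : ∀ {a b c d : K}, N.D a = ε + β * a → N.D b = ε + β * b →
      N.D c = ε + β * c → N.D d = ε + β * d → c - d ≠ 0 → N.D ((a - b) / (c - d)) = 0 := by
    intro a b c d ha hb hc hd hcd
    rw [N.toDer.D_div _ _ hcd, N.toDer.D_sub, N.toDer.D_sub, ha, hb, hc, hd, div_eq_zero_iff]
    left; ring
  have ev : ∀ {y : K}, N.D y = ε + β * y → y5 - y ≠ 0 →
      (∀ q, y ≠ 0 ∧ Even ((N.loc q).ord y)) → ∀ q, y1 / y5 - (y1 - y) / (y5 - y) ≠ 0 ∧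
        Even ((N.loc q).ord (y1 / y5 - (y1 - y) / (y5 - y))) := by
    intro y e s v q
    rw [show y1 / y5 - (y1 - y) / (y5 - y) = y / y5 * ((y5 - y1) / (y5 - y)) by
      field_simp; ring]
    refine (N.loc q).even_mul ((N.loc q).even_div (v q) (v5 q)) ⟨div_ne_zero s51 s, ?_⟩
    rw [N.ord_const q (div_ne_zero s51 s) (hc e5 e1 e5 e s)]
    exact Even.zero
  have ne : ∀ {y z : K}, y5 - y ≠ 0 → y5 - z ≠ 0 → y - z ≠ 0 →
      (y1 - y) / (y5 - y) ≠ (y1 - z) / (y5 - z) := by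
    intro y z h1 h2 h3
    rw [Ne, div_eq_div_iff h1 h2]
    intro h
    exact mul_ne_zero s51 h3 (by linear_combination -h)
  have key := five_points' hN (y1 / y5) _ _ _ (hc e1 e2 e5 e2 s52) (hc e1 e3 e5 e3 s53)
    (hc e1 e4 e5 e4 s54) (div_ne_zero s12 s52) (div_ne_zero s13 s53) (div_ne_zero s14 s54)
    (ne s52 s53 s23) (ne s52 s54 s24) (ne s53 s54 s34)
    (fun q => (N.loc q).even_div (v1 q) (v5 q)) (ev e2 s52 v2) (ev e3 s53 v3) (ev e4 s54 v4)
  rw [N.toDer.D_div _ _ n5, e1, e5, div_eq_zero_iff] at key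
  rcases key with h | h
  · exact mul_ne_zero hε s51 (by linear_combination h)
  · exact pow_ne_zero _ n5 h

theorem abel_J0 [CharZero K] {N : Ev K} (hN : N.Nev) (v : Fin 19 → K)
    (hv : Function.Injective v) {ε β : K} (hε : ε ≠ 0)
    (hD : ∀ i, N.D (v i) = -(ε * v i ^ 3 + β * v i)) : False := by
  classical
  let S := (univ : Finset (Fin 19)).filter fun i => v i ≠ 0
  have hS : 18 ≤ S.card := by
    have h1 := Finset.card_filter_add_card_filter_not (s := (univ : Finset (Fin 19)))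
      (fun i => v i ≠ 0)
    have h2 : (univ.filter fun i => ¬v i ≠ 0).card ≤ 1 := by
      refine Finset.card_le_one.2 fun i hi j hj => hv ?_
      rw [not_not.1 (mem_filter.1 hi).2, not_not.1 (mem_filter.1 hj).2]
    simp only [card_univ, Fintype.card_fin] at h1
    simp only [S]
    omega
  have h1 := Finset.card_le_mul_card_image (f := fun i => v i ^ 2) S 2 (fun a _ => by
    have : ((S.filter fun i => v i ^ 2 = a).image v).card ≤ 2 := by
      rcases (S.filter fun i => v i ^ 2 = a).eq_empty_or_nonempty with h | ⟨i, hi⟩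
      · simp [h]
      · refine le_trans (Finset.card_le_card (t := {v i, -v i}) fun z hz => ?_)
          Finset.card_le_two
        obtain ⟨j, hj, rfl⟩ := mem_image.1 hz
        have := sq_eq_sq_iff_eq_or_eq_neg.1
          ((mem_filter.1 hj).2.trans (mem_filter.1 hi).2.symm)
        simpa using this
    rwa [Finset.card_image_of_injective _ hv] at this)
  obtain ⟨U, hU, hU5⟩ := Finset.exists_subset_card_eq
    (show 5 ≤ (S.image fun i => v i ^ 2).card by omega)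
  let e := (U.equivFinOfCardEq hU5).symm
  have hy : ∀ k : Fin 5, N.D ((e k).1)⁻¹ = 2 * ε + 2 * β * ((e k).1)⁻¹ ∧
      ∀ q, ((e k).1)⁻¹ ≠ 0 ∧ Even ((N.loc q).ord ((e k).1)⁻¹) := by
    intro k
    obtain ⟨i, hi, h⟩ := mem_image.1 (hU (e k).2)
    have h0 := (mem_filter.1 hi).2
    rw [← h]
    refine ⟨?_, fun q => ⟨inv_ne_zero (pow_ne_zero _ h0), ?_⟩⟩
    · rw [N.toDer.D_inv, N.toDer.D_sq, hD]
      field_simp
    · rw [(N.loc q).ord_inv (pow_ne_zero _ h0), (N.loc q).ord_pow h0]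
      exact (even_two_mul _).neg
  have sb : ∀ k l : Fin 5, k ≠ l → ((e k).1)⁻¹ - ((e l).1)⁻¹ ≠ 0 := fun k l h =>
    sub_ne_zero.2 fun h' => h (e.injective (Subtype.ext (inv_injective h')))
  exact bernoulli5 hN (mul_ne_zero two_ne_zero hε) (sb 0 1 (by decide)) (sb 0 2 (by decide))
    (sb 0 3 (by decide)) (sb 4 0 (by decide)) (sb 1 2 (by decide)) (sb 1 3 (by decide))
    (sb 4 1 (by decide)) (sb 2 3 (by decide)) (sb 4 2 (by decide)) (sb 4 3 (by decide))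
    (hy 0).1 (hy 1).1 (hy 2).1 (hy 3).1 (hy 4).1 (hy 0).2 (hy 1).2 (hy 2).2 (hy 3).2 (hy 4).2

end Pool.Agent.P.MP_7ede32_ag.N
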