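import Pool.Agent.P.MP_7ede32_ag.NComb
import Pool.Agent.P.MP_7ede32_ag.NGood
import Pool.Agent.P.MP_7ede32_ag.Abel

namespace Pool.Agent.P.MP_7ede32_ag.N

open Finset Filter

section
variable {K : Type*} [Field K]

theorem abel_local [CharZero K] (L : Loc K) (v : Fin 19 → K) (hv : Function.Injective v)
    {ε β J : K} (hε : ε ≠ 0) (hJ : J ≠ 0) (hD : ∀ i, L.D (v i) = -(ε * v i ^ 3 + β * v i + J))
    (he : ∀ i j k l, i ≠ j → i ≠ k → i ≠ l → j ≠ k → j ≠ l → k ≠ l →
      Even (L.ord (v i - v j) + L.ord (v k - v l) - L.ord (v i - v k) - L.ord (v j - v l))) :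
    (0 ≤ 2 * L.nu v + 361 * L.ord ε + 38 * L.ord J ∧
      ∃ r, ∀ i j, i ≠ j → L.ord (v i - v j) = r) ∨
      1 ≤ 2 * L.nu v + 361 * L.ord ε + 38 * L.ord J := by
  have hp := L.p_ne
  have hd : ∀ i j, i ≠ j → v i - v j ≠ 0 := fun i j hij => sub_ne_zero.2 fun h => hij (hv h)
  set n : Fin 19 → Fin 19 → ℤ := fun i j => L.ord (v i - v j) with hn
  set e := L.ord ε with hee
  have hth : ∀ i j, i ≠ j →
      L.Ge 0 (-(ε * (v i ^ 2 + v i * v j + v j ^ 2) + β) - (n i j : K) / L.p) := by
    intro i j hij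
    rw [← theta_eq L.toDer (hd i j hij) (hD i) (hD j)]
    exact L.L_sub (hd i j hij)
  have hq : ∀ i j k l, i ≠ j → i ≠ k → i ≠ l → j ≠ k → j ≠ l → k ≠ l →
      -1 ≤ e + n i l + n j k ∧ (n i j + n k l - n i k - n j l ≠ 0 → e + n i l + n j k = -1) ∧
        (n i j + n k l - n i k - n j l = 0 → 0 ≤ e + n i l + n j k) := by
    intro i j k l hij hik hil hjk hjl hkl
    have h1 := (((hth i j hij).add (hth k l hkl)).sub (hth i k hik)).sub (hth j l hjl)
    have h2 : -(ε * (v i - v l) * (v j - v k)) ≠ 0 :=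
      neg_ne_zero.2 (mul_ne_zero (mul_ne_zero hε (hd _ _ hil)) (hd _ _ hjk))
    have h3 := L.res_cases (N := n i j + n k l - n i k - n j l) h2 (by
      convert h1 using 1
      push_cast
      ring)
    rwa [L.ord_neg, L.ord_mul _ _ (mul_ne_zero hε (hd _ _ hil)) (hd _ _ hjk),
      L.ord_mul _ _ hε (hd _ _ hil)] at h3
  have H : AbelData n e :=
    { sym := fun i j => L.ord_sub_comm _ _
      ult := fun i j k z hij hjk hik h1 h2 => by
        have := ((Loc.Ge.of_le h1).add (Loc.Ge.of_le h2))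
        rw [sub_add_sub_cancel] at this
        exact this.le (hd i k hik)
      q1 := fun i j k l hij hik hil hjk hjl hkl => (hq i j k l hij hik hil hjk hjl hkl).1
      q2 := fun i j k l hij hik hil hjk hjl hkl h =>
        (hq i j k l hij hik hil hjk hjl hkl).2.1 (by omega)
      q3 := fun i j k l hij hik hil hjk hjl hkl h =>
        (hq i j k l hij hik hil hjk hjl hkl).2.2 (by omega)
      q4 := he }
  obtain ⟨a, b, hab, hmin⟩ := exists_min_diff L v
  set r := L.ord (v a - v b) with hr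
  have hs : ∀ i j k, i ≠ j → i ≠ k → j ≠ k → L.Ge (-1 - e - n j k) (v i + v j + v k) ∧
      (n i j = n i k → L.Ge (-e - n j k) (v i + v j + v k)) := by
    intro i j k hij hik hjk
    have h1 : L.Ge 0 (ε * (v j - v k) * (v i + v j + v k) - ((n i k - n i j : ℤ) : K) / L.p) := by
      convert (hth i k hik).sub (hth i j hij) using 1
      push_cast
      ring
    have h2 := mul_ne_zero hε (hd _ _ hjk)
    have h3 : L.ord (ε * (v j - v k)) = e + n j k := L.ord_mul _ _ hε (hd _ _ hjk)
    constructor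
    · have := (L.Ge_of_res h1).of_mul_left h2
      rw [h3] at this
      exact this.mono (by omega)
    · intro h
      rw [h, sub_self, Int.cast_zero, zero_div, sub_zero] at h1
      have := h1.of_mul_left h2
      rw [h3] at this
      exact this.mono (by omega)
  have hv3 : ∀ (z : ℤ) i j k, z ≤ r → L.Ge z (v i + v j + v k) → ∀ m, L.Ge z (v m) := by
    intro z i j k hz h m
    refine Loc.Ge.of_three ?_
    rw [show 3 * v m = v i + v j + v k + (v m - v i) + (v m - v j) + (v m - v k) by ring]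
    exact ((h.add ((hmin m i).mono hz)).add ((hmin m j).mono hz)).add ((hmin m k).mono hz)
  have hε' : L.Ge e ε := Loc.Ge.self ε
  have hJ1 : J = -L.D (v 0) + -(ε * (v 0 ^ 2 + v 0 * v 1 + v 1 ^ 2) + β) * v 0 +
      ε * (v 0 * (v 1 * (v 0 + v 1))) := by
    rw [hD]; ring
  obtain ⟨c, hc⟩ : ∃ c, c ∉ ({a, b} : Finset (Fin 19)) := by
    refine Finset.exists_mem_notMem_of_card_lt_card (s := {a, b}) (t := univ) ?_
      |>.imp fun k hk => hk.2
    have := Finset.card_le_two (a := a) (b := b)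
    simp only [card_univ, Fintype.card_fin]; omega
  simp only [mem_insert, mem_singleton, not_or] at hc
  have key := H.main (Y := L.ord J) hab rfl (fun i j hij => (hmin i j).le (hd i j hij))
    (fun μ h1 h2 => by
      have h3 := hv3 μ c a b h1 ((hs c a b hc.1 hc.2 hab).1.mono h2)
      have h4 : L.Ge (min (μ - 1) (e + 3 * μ)) J := by
        rw [hJ1]
        refine (((h3 0).D.neg.mono (min_le_left _ _)).add ?_).add ?_
        · exact (L.Ge_of_res (hth 0 1 (by decide))).mul' (h3 0)
            ((min_le_left _ _).trans (by omega))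
        · exact hε'.mul' ((h3 0).mul ((h3 1).mul ((h3 0).add (h3 1))))
            ((min_le_right _ _).trans (by omega))
      have := h4.le hJ
      omega)
    (fun h1 h2 => by
      have h3 := hv3 r c a b le_rfl (((hs c a b hc.1 hc.2 hab).2
        (by rw [h1 c a hc.1, h1 c b hc.2])).mono (by change r ≤ -e - r; change e + 2 * r = 0 at h2; omega))
      have h4 : J = -(L.D (v 0) - (r : K) * v 0 / L.p) +
          (-(ε * (v 0 ^ 2 + v 0 * v 1 + v 1 ^ 2) + β) - (r : K) / L.p) * v 0 +
          ε * (v 0 * (v 1 * (v 0 + v 1))) := by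
        rw [hD]; ring
      have h5 := hth 0 1 (by decide)
      rw [h1 0 1 (by decide)] at h5
      refine Loc.Ge.le ?_ hJ
      rw [h4]
      refine (((h3 0).D_sub.neg).add (h5.mul0 (h3 0))).add ?_
      exact hε'.mul' ((h3 0).mul ((h3 1).mul ((h3 0).add (h3 1))))
        (by change e + 2 * r = 0 at h2; omega))
    (fun i j k l hij hik hjk hkl h1 h2 h3 h4 h5 => by
      change e + 2 * r = -1 at h1
      change n i j = r + 1 at h2
      change n k l = r + 1 at h3
      change n i k = r at h4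
      change n j k = r at h5
      change r + 1 ≤ _
      have h6 := hv3 r i j k le_rfl ((hs i j k hij hik hjk).1.mono (by omega))
      have h7 : L.Ge (r + 1) (v i - v j) := Loc.Ge.of_le h2.ge
      have h8 : L.Ge (r + 1) (v k - v l) := Loc.Ge.of_le h3.ge
      have h9 : ∀ {s : K} m, L.Ge (r + 1) s → L.Ge (2 * r + 1) (s * (s - 3 * v m)) := by
        intro s m h
        exact h.mul' ((h.mono (by omega)).sub ((Loc.Ge.ofNat 3).mul0 (h6 m))) (by omega)
      have t1 := hth i j hij
      have t2 := hth k l hkl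
      rw [h2] at t1
      rw [h3] at t2
      have h10 : L.Ge (r + 1) (v i + v k) := by
        have h11 : L.Ge 0 (ε * (v i - v k) * (3 * (v i + v k))) := by
          have := (t2.sub t1).sub (hε'.mul' ((h9 i h7).sub (h9 k h8)) (by omega : (0 : ℤ) ≤ e + (2 * r + 1)))
          convert this using 1
          ring
        have := h11.of_mul_left (mul_ne_zero hε (hd _ _ hik))
        rw [L.ord_mul _ _ hε (hd _ _ hik)] at this
        refine (Loc.Ge.of_three this).mono ?_
        change _ ≤ 0 - (e + n i k)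
        omega
      have h12 : 2 * J = -(L.D (v i + v k) - ((r + 1 : ℤ) : K) * (v i + v k) / L.p) +
          (-(ε * (v i ^ 2 + v i * v j + v j ^ 2) + β) - ((r + 1 : ℤ) : K) / L.p) * (v i + v k) +
          ε * ((v i - v j) * (v i - v j - 3 * v i) - (v i + v k) * (v i + v k - 3 * v i)) *
            (v i + v k) := by
        rw [L.toDer.D_add, hD, hD]; ring
      have h13 : L.Ge (r + 1) (2 * J) := by
        rw [h12]
        refine ((h10.D_sub.neg).add (t1.mul0 h10)).add ?_
        exact (hε'.mul ((h9 i h7).sub (h9 i h10))).mul' h10 (by omega)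
      have := (Loc.Ge.half.mul0 h13)
      rw [show 2⁻¹ * (2 * J) = J by ring] at this
      exact this.le hJ)
  have h1 : (∑ i, ∑ j, if i = j then 0 else e + 2 * n i j) = 342 * e + 2 * L.nu v := by
    unfold Loc.nu
    have : ∀ i j : Fin 19, (if i = j then 0 else e + 2 * n i j) =
        (e - if i = j then e else 0) + 2 * (if i = j then 0 else L.ord (v i - v j)) := by
      intro i j
      split_ifs <;> simp [hn]
    simp only [this, sum_add_distrib, sum_sub_distrib, ← Finset.mul_sum]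
    simp
    ring
  rw [h1] at key
  rcases key with ⟨h2, h3⟩ | h2
  · exact Or.inl ⟨by omega, r, h3⟩
  · exact Or.inr (by omega)

end

theorem sum_pairs (u : ℝ) (f : Fin 19 → ℝ) (a : Fin 19 → Fin 19 → ℝ)
    (h : ∀ i j, i ≠ j → a i j ≤ u + f i + f j) :
    (∑ i, ∑ j, if i = j then 0 else a i j) ≤ 342 * u + 36 * ∑ i, f i := by
  have h1 : ∀ i j, (if i = j then 0 else a i j) ≤
      u + f i + f j - if i = j then u + 2 * f i else 0 := by
    intro i j
    by_cases hij : i = j
    · simp only [hij, if_true]; linarith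
    · simpa only [hij, if_false, sub_zero] using h i j hij
  refine (Finset.sum_le_sum fun i _ => Finset.sum_le_sum fun j _ => h1 i j).trans (le_of_eq ?_)
  simp only [sum_sub_distrib, sum_add_distrib, sum_ite_eq, mem_univ, if_true, sum_const,
    card_univ, Fintype.card_fin, nsmul_eq_mul, ← Finset.mul_sum]
  push_cast
  ring

theorem abel_arch (v : Fin 19 → ℂ) (hv : Function.Injective v) {ε β J : ℂ} (hε : ε ≠ 0)
    (hJ : J ≠ 0) (h0 : v 0 ≠ 0) {Λ : ℝ} (hΛ : 1 ≤ Λ)
    (hth : ∀ i j, i ≠ j → ‖-(ε * (v i ^ 2 + v i * v j + v j ^ 2) + β)‖ ≤ Λ)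
    (hw : ‖-(ε * v 0 ^ 3 + β * v 0 + J) / v 0‖ ≤ Λ) :
    Real.log ‖(∏ i, ∏ j, if i = j then 1 else (v i - v j)) ^ 2 * ε ^ 361 * J ^ 38‖ ≤
      (342 * Real.log 16 + 19 * Real.log 4840) + 399 * Real.log Λ := by
  classical
  have hd : ∀ i j, i ≠ j → v i - v j ≠ 0 := fun i j hij => sub_ne_zero.2 fun h => hij (hv h)
  obtain ⟨hP, hP'⟩ := archM.ord_nuProd v hv
  obtain ⟨⟨a, b⟩, hq, hmax⟩ := Finset.exists_max_image
    (univ.filter fun q : Fin 19 × Fin 19 => q.1 ≠ q.2) (fun q => ‖v q.1 - v q.2‖)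
    ⟨(0, 1), by simp⟩
  have hab : a ≠ b := (mem_filter.1 hq).2
  set δ := ‖v a - v b‖ with hδ
  set E := ‖ε‖ with hE
  have hδ0 : 0 < δ := norm_pos_iff.2 (hd a b hab)
  have hE0 : 0 < E := norm_pos_iff.2 hε
  have hm : ∀ i j, ‖v i - v j‖ ≤ δ := fun i j => by
    by_cases hij : i = j
    · simp [hij, hδ0.le]
    · exact hmax (i, j) (by simpa using hij)
  obtain ⟨c, hc⟩ : ∃ c, c ∉ ({a, b} : Finset (Fin 19)) := by
    refine Finset.exists_mem_notMem_of_card_lt_card (s := {a, b}) (t := univ) ?_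
      |>.imp fun k hk => hk.2
    have := Finset.card_le_two (a := a) (b := b)
    simp only [card_univ, Fintype.card_fin]; omega
  simp only [mem_insert, mem_singleton, not_or] at hc
  set s := ‖v c + v a + v b‖ with hs
  have hs0 : 0 ≤ s := norm_nonneg _
  have h1 : E * δ * s ≤ 2 * Λ := by
    have := norm_sub_le (-(ε * (v c ^ 2 + v c * v b + v b ^ 2) + β))
      (-(ε * (v c ^ 2 + v c * v a + v a ^ 2) + β))
    rw [show -(ε * (v c ^ 2 + v c * v b + v b ^ 2) + β) -
      -(ε * (v c ^ 2 + v c * v a + v a ^ 2) + β) = ε * (v a - v b) * (v c + v a + v b) by ring,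
      norm_mul, norm_mul] at this
    linarith [hth c a hc.1, hth c b hc.2]
  have h2 : ∀ m, ‖v m‖ ≤ s + δ := fun m => by
    have e1 : (3 : ℂ) * v m = v c + v a + v b + (v m - v c) + (v m - v a) + (v m - v b) := by ring
    have e2 := congrArg norm e1
    rw [norm_mul, show ‖(3 : ℂ)‖ = 3 by simp] at e2
    have := norm_add_le (v c + v a + v b + (v m - v c) + (v m - v a)) (v m - v b)
    have := norm_add_le (v c + v a + v b + (v m - v c)) (v m - v a)
    have := norm_add_le (v c + v a + v b) (v m - v c)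
    linarith [hm m a, hm m b, hm m c]
  have h3 : ‖J‖ ≤ 2 * (s + δ) * (Λ + E * (s + δ) ^ 2) := by
    have e1 : J = -(-(ε * v 0 ^ 3 + β * v 0 + J) / v 0) * v 0 +
        -(ε * (v 0 ^ 2 + v 0 * v 1 + v 1 ^ 2) + β) * v 0 + ε * (v 0 * (v 1 * (v 0 + v 1))) := by
      field_simp; ring
    have n1 : ‖-(-(ε * v 0 ^ 3 + β * v 0 + J) / v 0) * v 0‖ ≤ Λ * (s + δ) := by
      rw [norm_mul, norm_neg]
      exact mul_le_mul hw (h2 0) (norm_nonneg _) (by linarith)
    have n2 : ‖-(ε * (v 0 ^ 2 + v 0 * v 1 + v 1 ^ 2) + β) * v 0‖ ≤ Λ * (s + δ) := by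
      rw [norm_mul]
      exact mul_le_mul (hth 0 1 (by decide)) (h2 0) (norm_nonneg _) (by linarith)
    have n3 : ‖ε * (v 0 * (v 1 * (v 0 + v 1)))‖ ≤ E * ((s + δ) * ((s + δ) * (2 * (s + δ)))) := by
      rw [norm_mul, norm_mul, norm_mul]
      have := norm_add_le (v 0) (v 1)
      have := h2 0
      have := h2 1
      gcongr
      linarith
    rw [e1]
    refine (norm_add₃_le).trans ?_
    nlinarith
  have h4 : ∀ Z, E * δ ^ 2 ≤ Z → Λ ^ 2 ≤ E * δ ^ 2 * Z → Λ ≤ Z →
      Real.log E + 2 * Real.log ‖J‖ ≤ Real.log 4840 + 3 * Real.log Z := by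
    intro Z z1 z2 z3
    have hZ : 0 < Z := by linarith
    have z4 : E * s ^ 2 ≤ 4 * Z := by
      have hA : 0 < E * δ ^ 2 := by positivity
      refine le_of_mul_le_mul_left ?_ hA
      have : (E * δ * s) ^ 2 ≤ (2 * Λ) ^ 2 := pow_le_pow_left₀ (by positivity) h1 2
      nlinarith
    have z5 : E * (s + δ) ^ 2 ≤ 10 * Z := by nlinarith [sq_nonneg (s - δ)]
    have z6 : E * ‖J‖ ^ 2 ≤ 4840 * Z ^ 3 := by
      calc E * ‖J‖ ^ 2 ≤ E * (2 * (s + δ) * (Λ + E * (s + δ) ^ 2)) ^ 2 := by gcongr
        _ = 4 * (E * (s + δ) ^ 2) * (Λ + E * (s + δ) ^ 2) ^ 2 := by ring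
        _ ≤ 4 * (10 * Z) * (Z + 10 * Z) ^ 2 := by gcongr
        _ = 4840 * Z ^ 3 := by ring
    have z7 := Real.log_le_log (by have := norm_pos_iff.2 hJ; positivity) z6
    rw [Real.log_mul hE0.ne' (pow_ne_zero _ (norm_ne_zero_iff.2 hJ)),
      Real.log_mul (by norm_num) (pow_ne_zero _ hZ.ne'), Real.log_pow, Real.log_pow] at z7
    exact_mod_cast z7
  have h5 : Real.log ‖(∏ i, ∏ j, if i = j then 1 else (v i - v j)) ^ 2 * ε ^ 361 * J ^ 38‖ =
      (∑ i, ∑ j, if i = j then 0 else Real.log E + 2 * Real.log ‖v i - v j‖) +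
        19 * (Real.log E + 2 * Real.log ‖J‖) := by
    have e1 := archM.ord_mul _ _ (mul_ne_zero (pow_ne_zero 2 hP) (pow_ne_zero 361 hε))
      (pow_ne_zero 38 hJ)
    rw [archM.ord_mul _ _ (pow_ne_zero 2 hP) (pow_ne_zero 361 hε), archM.ord_pow hP,
      archM.ord_pow hε, archM.ord_pow hJ, hP'] at e1
    have e2 : ∀ i j : Fin 19, (if i = j then 0 else Real.log E + 2 * Real.log ‖v i - v j‖) =
        (Real.log E - if i = j then Real.log E else 0) -
          2 * (if i = j then 0 else archM.ord (v i - v j)) := by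
      intro i j
      split_ifs <;> simp [archM]
    simp only [e2, sum_sub_distrib, ← Finset.mul_sum, sum_ite_eq, mem_univ, if_true, sum_const,
      card_univ, Fintype.card_fin, nsmul_eq_mul]
    simp only [MOrd.nu] at e1
    change -Real.log _ = _ + _ * -Real.log E + _ * -Real.log ‖J‖ at e1
    push_cast at e1 ⊢
    linarith
  rw [h5]
  set α := Real.log E + 2 * Real.log δ with hα
  have hαe : Real.log (E * δ ^ 2) = α := by
    rw [Real.log_mul hE0.ne' (by positivity), Real.log_pow]; rfl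
  have hl := Real.log_nonneg hΛ
  have h16 := Real.log_nonneg (show (1 : ℝ) ≤ 16 by norm_num)
  have h6 : ∀ i j, i ≠ j → Real.log E + 2 * Real.log ‖v i - v j‖ ≤ α := fun i j hij => by
    have := Real.log_le_log (norm_pos_iff.2 (hd i j hij)) (hm i j)
    linarith
  have hA : 0 < E * δ ^ 2 := by positivity
  rcases le_total (E * δ ^ 2) Λ with h | h
  · have h7 := h4 (Λ ^ 2 / (E * δ ^ 2)) (by rw [le_div_iff₀ hA]; nlinarith)
      (by rw [mul_div_cancel₀ _ hA.ne']) (by rw [le_div_iff₀ hA]; nlinarith)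
    rw [Real.log_div (by positivity) hA.ne', Real.log_pow, hαe] at h7
    have h8 := sum_pairs α (fun _ => 0) _ fun i j hij => by simpa using h6 i j hij
    have h9 := Real.log_le_log hA h
    rw [hαe] at h9
    simp only [sum_const_zero] at h8
    push_cast at h7
    linarith
  · have h7 := h4 (E * δ ^ 2) le_rfl (by nlinarith) h
    have h9 := Real.log_le_log (by linarith) h
    rw [hαe] at h7 h9
    have h8 := sum_pairs (Real.log 16 + 2 * Real.log Λ - α)
      (fun i => if i ∈ ({a, b} : Finset (Fin 19)) then 2 * α - 2 * Real.log Λ else 0)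
      (fun i j => Real.log E + 2 * Real.log ‖v i - v j‖) fun i j hij => by
        have := h6 i j hij
        split_ifs with t1 t2 t2
        · linarith
        · linarith
        · linarith
        simp only [mem_insert, mem_singleton, not_or] at t1 t2
        have e1 : ε * (v a - v b) * (v i - v j) =
            -(ε * (v a ^ 2 + v a * v j + v j ^ 2) + β) + -(ε * (v i ^ 2 + v i * v b + v b ^ 2) + β)
            - -(ε * (v a ^ 2 + v a * v i + v i ^ 2) + β)
            - -(ε * (v j ^ 2 + v j * v b + v b ^ 2) + β) := by ring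
        have e2 : E * δ * ‖v i - v j‖ ≤ 4 * Λ := by
          have := congrArg norm e1
          rw [norm_mul, norm_mul] at this
          rw [this]
          refine (norm_sub_le _ _).trans ?_
          have := hth j b t2.2
          have := hth a i (Ne.symm t1.1)
          have := hth a j (Ne.symm t2.1)
          have := hth i b t1.2
          have := norm_sub_le (-(ε * (v a ^ 2 + v a * v j + v j ^ 2) + β) +
            -(ε * (v i ^ 2 + v i * v b + v b ^ 2) + β)) (-(ε * (v a ^ 2 + v a * v i + v i ^ 2) + β))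
          have := norm_add_le (-(ε * (v a ^ 2 + v a * v j + v j ^ 2) + β))
            (-(ε * (v i ^ 2 + v i * v b + v b ^ 2) + β))
          linarith
        have e3 := norm_pos_iff.2 (hd i j hij)
        have e4 := Real.log_le_log (by positivity) e2
        rw [Real.log_mul (by positivity) e3.ne', Real.log_mul hE0.ne' hδ0.ne',
          Real.log_mul (by norm_num) (by linarith)] at e4
        have e5 : Real.log 16 = 2 * Real.log 4 := by
          rw [show (16 : ℝ) = 4 ^ 2 by norm_num, Real.log_pow]; rfl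
        linarith
    rw [sum_ite_mem, univ_inter, sum_const, card_pair hab] at h8
    simp only [nsmul_eq_mul] at h8
    push_cast at h8
    linarith

variable {K : Type} [Field K]

theorem abel_J1 [CharZero K] {N : Ev K} (hN : N.Nev) (v : Fin 19 → K)
    (hv : Function.Injective v) (h01 : v 0 - v 1 = 1) {ε β J : K} (hε : ε ≠ 0) (hJ : J ≠ 0)
    (hD : ∀ i, N.D (v i) = -(ε * v i ^ 3 + β * v i + J))
    (he : ∀ q i j k l, i ≠ j → i ≠ k → i ≠ l → j ≠ k → j ≠ l → k ≠ l →
      Even ((N.loc q).ord (v i - v j) + (N.loc q).ord (v k - v l) - (N.loc q).ord (v i - v k) -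
        (N.loc q).ord (v j - v l))) : False := by
  classical
  have hd : ∀ i j, i ≠ j → v i - v j ≠ 0 := fun i j hij => sub_ne_zero.2 fun h => hij (hv h)
  have h0 : v 0 ≠ 0 := fun h => hJ (by
    have := hD 0
    rw [h, N.toDer.D_zero] at this
    linear_combination this)
  have hth : ∀ i j, i ≠ j → N.toDer.L (v i - v j) =
      -(ε * (v i ^ 2 + v i * v j + v j ^ 2) + β) :=
    fun i j hij => theta_eq N.toDer (hd i j hij) (hD i) (hD j)
  let ι := Option {q : Fin 19 × Fin 19 // q.1 ≠ q.2}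
  let b : ι → K := fun q => q.elim (v 0) fun q => v q.1.1 - v q.1.2
  have hb : ∀ q, b q ≠ 0 := fun q => by
    cases q with
    | none => exact h0
    | some q => exact hd _ _ q.2
  have hlam : ∀ i j k l, i ≠ j → k ≠ l → i ≠ k → j ≠ l → ε * ((v i - v l) * (v j - v k)) =
      N.toDer.L (v i - v k) + N.toDer.L (v j - v l) - N.toDer.L (v i - v j) -
        N.toDer.L (v k - v l) := by
    intro i j k l h1 h2 h3 h4
    rw [hth _ _ h1, hth _ _ h2, hth _ _ h3, hth _ _ h4]; ring
  obtain ⟨S, T, H, hL, hT⟩ := hN b hb (by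
    by_contra h
    push Not at h
    have h1 : ∀ i j, i ≠ j → N.toDer.L (v i - v j) = 0 := fun i j hij => by
      have := h (some ⟨(i, j), hij⟩)
      simp only [b, Option.elim] at this
      rw [Der.L, this, zero_div]
    have := hlam 0 1 2 3 (by decide) (by decide) (by decide) (by decide)
    rw [h1 _ _ (by decide), h1 _ _ (by decide), h1 _ _ (by decide), h1 _ _ (by decide)] at this
    exact mul_ne_zero hε (mul_ne_zero (hd 0 3 (by decide)) (hd 1 2 (by decide)))
      (by linear_combination this))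
  have hP := ((N.loc 0).ord_nuProd v hv).1
  set Φ := (∏ i, ∏ j, if i = j then 1 else (v i - v j)) ^ 2 * ε ^ 361 * J ^ 38 with hΦ
  have hΦ0 : Φ ≠ 0 :=
    mul_ne_zero (mul_ne_zero (pow_ne_zero _ hP) (pow_ne_zero _ hε)) (pow_ne_zero _ hJ)
  have hS : S Φ := by
    choose V hV using fun i => N.exists_rep (v i)
    obtain ⟨E, hE⟩ := N.exists_rep ε
    obtain ⟨B, hB⟩ := N.exists_rep β
    obtain ⟨A, hA⟩ := N.exists_rep J
    refine H.dom (fun q => N.toDer.L (b q))
      (fun q z => q.elim (-(E z * V 0 z ^ 3 + B z * V 0 z + A z) / V 0 z) fun q =>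
        -(E z * (V q.1.1 z ^ 2 + V q.1.1 z * V q.1.2 z + V q.1.2 z ^ 2) + B z)) _
      (fun z => (∏ i, ∏ j, if i = j then 1 else (V i z - V j z)) ^ 2 * E z ^ 361 * A z ^ 38)
      (342 * Real.log 16 + 19 * Real.log 4840) 399 hL (fun q => ?_) ?_ ?_
    · cases q with
      | none =>
        simp only [b, Option.elim, Der.L, hD]
        exact (((hE.mul ((hV 0).pow 3)).add (hB.mul (hV 0))).add hA).neg.div (hV 0)
      | some q =>
        simp only [b, Option.elim, hth _ _ q.2]
        exact ((hE.mul ((((hV _).pow 2).add ((hV _).mul (hV _))).add ((hV _).pow 2))).add hB).neg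
    · exact (((Ev.Rep.prod _ fun i _ => Ev.Rep.prod _ fun j _ =>
        Ev.Rep.one.ite ((hV i).sub (hV j))).pow 2).mul (hE.pow 361)).mul (hA.pow 38)
    · have h1 : ∀ᶠ z in N.F, ∀ i j, i ≠ j → V i z - V j z ≠ 0 := by
        refine eventually_all.2 fun i => eventually_all.2 fun j => ?_
        by_cases hij : i = j
        · simp [hij]
        · exact (((hV i).sub (hV j)).ne_zero (hd i j hij)).mono fun z hz _ => hz
      filter_upwards [h1, hE.ne_zero hε, hA.ne_zero hJ, (hV 0).ne_zero h0]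
        with z h1 h2 h3 h4 Λ hΛ h5
      refine abel_arch (fun i => V i z) (fun i j h => ?_) h2 h3 h4 hΛ (β := B z)
        (fun i j hij => h5 (some ⟨(i, j), hij⟩)) (h5 none)
      by_contra hij
      exact h1 i j hij (sub_eq_zero.2 h)
  have hθ : ∀ i j, i ≠ j → T (N.toDer.L (v i - v j)) := by
    intro i j hij
    refine H.bound hΦ0 hS (H.S_mul hS (hL (some ⟨(i, j), hij⟩))) fun q => ?_
    have h1 := abel_local (N.loc q) v hv hε hJ (fun i => by rw [N.hD, hD]) (he q)
    have h2 : (N.loc q).ord Φ =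
        2 * (N.loc q).nu v + 361 * (N.loc q).ord ε + 38 * (N.loc q).ord J := by
      rw [hΦ, (N.loc q).ord_mul _ _ (mul_ne_zero (pow_ne_zero _ hP) (pow_ne_zero _ hε))
        (pow_ne_zero _ hJ), (N.loc q).ord_mul _ _ (pow_ne_zero _ hP) (pow_ne_zero _ hε),
        (N.loc q).ord_pow hP, (N.loc q).ord_pow hε, (N.loc q).ord_pow hJ,
        ((N.loc q).ord_nuProd v hv).2]
      push_cast; ring
    rw [← h2] at h1
    have h3 := (N.loc q).L_sub (hd i j hij)
    rw [N.L_eq] at h3
    rcases h1 with ⟨h1, r, hr⟩ | h1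
    · refine ⟨h1, fun h4 => ?_⟩
      have h5 := hr 0 1 (by decide)
      rw [h01, Loc.ord_one] at h5
      rw [hr i j hij, ← h5] at h3
      have := ((N.loc q).res_cases h4 h3).2.2 rfl
      omega
    · refine ⟨by omega, fun h4 => ?_⟩
      have := ((N.loc q).res_cases h4 h3).1
      omega
  have hlam' : ∀ i j k l, i ≠ j → k ≠ l → i ≠ k → j ≠ l → T (ε * ((v i - v l) * (v j - v k))) := by
    intro i j k l h1 h2 h3 h4
    rw [hlam i j k l h1 h2 h3 h4]
    exact H.T_sub (H.T_sub (H.T_add (hθ _ _ h3) (hθ _ _ h4)) (hθ _ _ h1)) (hθ _ _ h2)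
  have hdT : ∀ i l, T (v i - v l) := by
    intro i l
    obtain ⟨j, hj, k, hk, hjk⟩ := Finset.one_lt_card.1
      (show 1 < (univ \ ({i, l, 0, 1} : Finset (Fin 19))).card by
        have := Finset.card_le_four (a := i) (b := l) (c := (0 : Fin 19)) (d := 1)
        rw [card_univ_sdiff, Fintype.card_fin]; omega)
    simp only [Finset.mem_sdiff, Finset.mem_univ, Finset.mem_insert, Finset.mem_singleton, not_or,
      true_and] at hj hk
    have := H.T_div (hlam' i j k l (Ne.symm hj.1) hk.2.1 (Ne.symm hk.1) hj.2.1)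
      (hlam' 0 j k 1 (Ne.symm hj.2.2.1) hk.2.2.2 (Ne.symm hk.2.2.1) hj.2.2.2)
    convert this using 1
    have := hd j k hjk
    rw [h01]
    field_simp
  have hεT : T ε := by
    have := H.T_div (hlam' 0 2 3 1 (by decide) (by decide) (by decide) (by decide)) (hdT 2 3)
    convert this using 1
    have := hd 2 3 (by decide)
    rw [h01]
    field_simp
  refine hT fun q => ?_
  cases q with
  | some q => exact hdT _ _
  | none =>
    have h3 : N.D 3 = 0 := by simpa using N.toDer.D_natCast 3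
    have := H.T_div (H.T_add (H.T_add (H.T_div (H.T_sub (hθ 0 2 (by decide)) (hθ 0 1 (by decide)))
      (H.T_mul hεT (hdT 1 2))) (hdT 0 1)) (hdT 0 2)) (H.T_const h3)
    convert this using 1
    rw [hth _ _ (by decide), hth _ _ (by decide)]
    have := hd 1 2 (by decide)
    simp only [b, Option.elim]
    field_simp
    ring

theorem abel [CharZero K] {N : Ev K} (hN : N.Nev) (v : Fin 19 → K) (hv : Function.Injective v)
    {c0 c1 c2 c3 : K} (h3 : c3 ≠ 0)
    (hD : ∀ i, N.D (v i) = c3 * v i ^ 3 + c2 * v i ^ 2 + c1 * v i + c0)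
    (he : ∀ q i j k l, i ≠ j → i ≠ k → i ≠ l → j ≠ k → j ≠ l → k ≠ l →
      Even ((N.loc q).ord (v i - v j) + (N.loc q).ord (v k - v l) - (N.loc q).ord (v i - v k) -
        (N.loc q).ord (v j - v l))) : False := by
  set h := c2 / (3 * c3) with hh
  have hc2 : c2 = 3 * c3 * h := by rw [hh]; field_simp
  have hd : ∀ i j, i ≠ j → v i - v j ≠ 0 := fun i j hij => sub_ne_zero.2 fun h => hij (hv h)
  set d := v 0 - v 1 with hdd
  have hd0 : d ≠ 0 := hd 0 1 (by decide)
  have hz : ∀ i, N.D ((v i + h) / d) = -(-c3 * d ^ 2 * ((v i + h) / d) ^ 3 +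
      (N.D d / d - (c1 - 3 * c3 * h ^ 2)) * ((v i + h) / d) +
      -(N.D h + c0 - c1 * h + 2 * c3 * h ^ 3) / d) := by
    intro i
    rw [N.toDer.D_div _ _ hd0, N.toDer.D_add, hD, hc2]
    field_simp
    ring
  have hs : ∀ i j, (v i + h) / d - (v j + h) / d = (v i - v j) / d := fun i j => by ring
  have hi : Function.Injective fun i => (v i + h) / d := fun i j hij => by
    by_contra hne
    exact div_ne_zero (hd i j hne) hd0 (by rw [← hs]; exact sub_eq_zero.2 hij)
  have hε : -c3 * d ^ 2 ≠ 0 := mul_ne_zero (neg_ne_zero.2 h3) (pow_ne_zero _ hd0)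
  by_cases hJ : -(N.D h + c0 - c1 * h + 2 * c3 * h ^ 3) / d = 0
  · refine abel_J0 hN _ hi hε (β := N.D d / d - (c1 - 3 * c3 * h ^ 2)) fun i => ?_
    rw [hz, hJ, add_zero]
  · refine abel_J1 hN _ hi (by rw [hs, div_self hd0]) hε hJ hz
      fun q i j k l h1 h2 h3 h4 h5 h6 => ?_
    simp only [hs]
    rw [Loc.ord_div _ (hd _ _ h1) hd0, Loc.ord_div _ (hd _ _ h6) hd0,
      Loc.ord_div _ (hd _ _ h2) hd0, Loc.ord_div _ (hd _ _ h5) hd0]
    obtain ⟨m, hm⟩ := he q i j k l h1 h2 h3 h4 h5 h6
    exact ⟨m, by omega⟩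

end Pool.Agent.P.MP_7ede32_ag.N
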