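import Pool.Agent.P.MP_7ede32_ag.NSumQ
import Pool.Agent.P.MP_7ede32_ag.ThetaG

namespace Pool.Agent.P.MP_7ede32_ag.N

open Finset

variable {K : Type*} [Field K]

/-- a real valued multiplicative order function -/
structure MOrd (K : Type*) [Field K] where
  ord : K → ℝ
  ord_mul : ∀ x y, x ≠ 0 → y ≠ 0 → ord (x * y) = ord x + ord y

namespace MOrd

variable (M : MOrd K)

theorem ord_one : M.ord 1 = 0 := by
  have := M.ord_mul 1 1 one_ne_zero one_ne_zero
  rw [one_mul] at this
  linarith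

theorem ord_inv {x : K} (hx : x ≠ 0) : M.ord x⁻¹ = -M.ord x := by
  have := M.ord_mul x x⁻¹ hx (inv_ne_zero hx)
  rw [mul_inv_cancel₀ hx, M.ord_one] at this
  linarith

theorem ord_div {x y : K} (hx : x ≠ 0) (hy : y ≠ 0) : M.ord (x / y) = M.ord x - M.ord y := by
  rw [div_eq_mul_inv, M.ord_mul _ _ hx (inv_ne_zero hy), M.ord_inv hy]; ring

theorem ord_pow {x : K} (hx : x ≠ 0) (n : ℕ) : M.ord (x ^ n) = n * M.ord x := by
  induction n with
  | zero => simp [M.ord_one]
  | succ n ih => rw [pow_succ, M.ord_mul _ _ (pow_ne_zero _ hx) hx, ih]; push_cast; ring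

theorem ord_neg (x : K) : M.ord (-x) = M.ord x := by
  by_cases hx : x = 0
  · simp [hx]
  have h1 : M.ord (-1) = 0 := by
    have := M.ord_mul (-1) (-1) (by simp) (by simp)
    rw [neg_mul_neg, one_mul, M.ord_one] at this
    linarith
  rw [← neg_one_mul, M.ord_mul _ _ (by simp) hx, h1, zero_add]

theorem ord_sub_comm (x y : K) : M.ord (x - y) = M.ord (y - x) := by
  rw [← M.ord_neg, neg_sub]

theorem ord_prod {ι : Type*} (s : Finset ι) (f : ι → K) (hf : ∀ i ∈ s, f i ≠ 0) :
    M.ord (∏ i ∈ s, f i) = ∑ i ∈ s, M.ord (f i) := by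
  classical
  induction s using Finset.induction_on with
  | empty => simp [M.ord_one]
  | insert a s ha ih =>
    rw [Finset.prod_insert ha, Finset.sum_insert ha,
      M.ord_mul _ _ (hf a (Finset.mem_insert_self _ _))
        (Finset.prod_ne_zero_iff.2 fun i hi => hf i (Finset.mem_insert_of_mem hi)),
      ih fun i hi => hf i (Finset.mem_insert_of_mem hi)]

/-- total order of all differences, over ordered pairs -/
noncomputable def nu {m : ℕ} (y : Fin m → K) : ℝ :=
  ∑ i, ∑ j, if i = j then 0 else M.ord (y i - y j)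

theorem nu_affine {m : ℕ} (y : Fin m → K) (hy : Function.Injective y) {a : K}
    (ha : a ≠ 0) (b : K) :
    M.nu (fun i => a * y i + b) = M.nu y + (m : ℝ) * (m - 1) * M.ord a := by
  unfold nu
  have : ∀ i j, (if i = j then 0 else M.ord (a * y i + b - (a * y j + b))) =
      (if i = j then 0 else M.ord (y i - y j)) + (M.ord a - if i = j then M.ord a else 0) := by
    intro i j
    by_cases hij : i = j
    · simp [hij]
    have hne : y i - y j ≠ 0 := sub_ne_zero.2 fun h => hij (hy h)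
    simp only [hij, if_false]
    rw [show a * y i + b - (a * y j + b) = a * (y i - y j) by ring, M.ord_mul _ _ ha hne]
    ring
  simp only [this, sum_add_distrib, sum_sub_distrib]
  simp
  ring

theorem nu_inv {m : ℕ} (y : Fin m → K) (hy : Function.Injective y) (h0 : ∀ i, y i ≠ 0) :
    M.nu (fun i => (y i)⁻¹) = M.nu y - 2 * ((m : ℝ) - 1) * ∑ i, M.ord (y i) := by
  unfold nu
  have : ∀ i j, (if i = j then 0 else M.ord ((y i)⁻¹ - (y j)⁻¹)) =
      (if i = j then 0 else M.ord (y i - y j)) - (M.ord (y i) + M.ord (y j)) +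
        (if i = j then 2 * M.ord (y i) else 0) := by
    intro i j
    by_cases hij : i = j
    · simp [hij]; ring
    have hne : y j - y i ≠ 0 := sub_ne_zero.2 fun h => hij (hy h).symm
    simp only [hij, if_false]
    rw [inv_sub_inv (h0 i) (h0 j), M.ord_div hne (mul_ne_zero (h0 i) (h0 j)),
      M.ord_mul _ _ (h0 i) (h0 j), M.ord_sub_comm]
    ring
  simp only [this, sum_add_distrib, sum_sub_distrib]
  simp [← Finset.mul_sum]
  ring

theorem ord_nuProd {m : ℕ} (x : Fin m → K) (hx : Function.Injective x) :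
    (∏ i, ∏ j, if i = j then 1 else (x i - x j)) ≠ 0 ∧
      M.ord (∏ i, ∏ j, if i = j then 1 else (x i - x j)) = M.nu x := by
  have h1 : ∀ i j, (if i = j then 1 else (x i - x j)) ≠ 0 := fun i j => by
    split_ifs with h
    · exact one_ne_zero
    · exact sub_ne_zero.2 fun h' => h (hx h')
  have h2 : ∀ i, (∏ j, if i = j then 1 else (x i - x j)) ≠ 0 := fun i =>
    Finset.prod_ne_zero_iff.2 fun j _ => h1 i j
  refine ⟨Finset.prod_ne_zero_iff.2 fun i _ => h2 i, ?_⟩
  rw [M.ord_prod _ _ fun i _ => h2 i]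
  refine Finset.sum_congr rfl fun i _ => ?_
  rw [M.ord_prod _ _ fun j _ => h1 i j]
  refine Finset.sum_congr rfl fun j _ => ?_
  split_ifs
  · exact M.ord_one
  · rfl

/-- the invariant -/
noncomputable def del (e1 e2 : Bool) (s w : Fin 12 → K) : ℝ :=
  sumR (fun a b c d => M.ord (Th e1 e2 a b c d s w)) - cJ e1 e2 * M.nu s

end MOrd

/-- all the determinants are nonzero -/
def Gd (e1 e2 : Bool) (s w : Fin 12 → K) : Prop :=
  ∀ a b c d, Dist a b c d → Th e1 e2 a b c d s w ≠ 0

theorem del_affine (M : MOrd K) {e1 e2 : Bool} {s w : Fin 12 → K} (hs : Function.Injective s)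
    (hG : Gd e1 e2 s w) {a0 g : K} (ha : a0 ≠ 0) (hg : g ≠ 0) (b0 a1 b1 : K) :
    Gd e1 e2 (fun i => a0 * s i + b0) (fun i => g * w i + a1 * s i + b1) ∧
      M.del e1 e2 (fun i => a0 * s i + b0) (fun i => g * w i + a1 * s i + b1) =
        M.del e1 e2 s w + 11880 * (8 - nD e1 e2) * (M.ord g - M.ord a0) := by
  have h1 := fun a b c d (h : Dist a b c d) =>
    Th_affine e1 e2 (a := a) (b := b) h.2.2.2.2.2 s w a0 b0 g a1 b1
  have h2 : Gd e1 e2 (fun i => a0 * s i + b0) (fun i => g * w i + a1 * s i + b1) := by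
    intro a b c d h h'
    have := h1 a b c d h
    rw [h', mul_zero] at this
    exact mul_ne_zero (mul_ne_zero (pow_ne_zero _ ha) (pow_ne_zero _ hg)) (hG a b c d h) this.symm
  refine ⟨h2, ?_⟩
  unfold MOrd.del
  rw [M.nu_affine s hs ha, sumR_congr (G := fun a b c d =>
    (22 * M.ord a0 + (8 - nD e1 e2) * M.ord g) + M.ord (Th e1 e2 a b c d s w)), sumR_add,
    sumR_const]
  · simp only [cJ]; push_cast; ring
  · intro a b c d h
    have := congrArg M.ord (h1 a b c d h)
    rw [M.ord_mul _ _ (pow_ne_zero _ hg) (h2 a b c d h),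
      M.ord_mul _ _ (mul_ne_zero (pow_ne_zero _ ha) (pow_ne_zero _ hg)) (hG a b c d h),
      M.ord_mul _ _ (pow_ne_zero _ ha) (pow_ne_zero _ hg), M.ord_pow ha, M.ord_pow hg,
      M.ord_pow hg] at this
    push_cast at this
    linarith

theorem del_inv (M : MOrd K) {e1 e2 : Bool} {s w : Fin 12 → K} (hs : Function.Injective s)
    (h0 : ∀ i, s i ≠ 0) (hG : Gd e1 e2 s w) :
    Gd e1 e2 (fun i => (s i)⁻¹) (fun i => -w i / s i ^ 2) ∧
      M.del e1 e2 (fun i => (s i)⁻¹) (fun i => -w i / s i ^ 2) = M.del e1 e2 s w := by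
  have hJ : (J12.map (Int.cast : ℤ → K)).det ≠ 0 := by
    intro h
    have := J12_det_sq (K := K)
    rw [h] at this
    simp at this
  have hJo : M.ord (J12.map (Int.cast : ℤ → K)).det = 0 := by
    have := congrArg M.ord (J12_det_sq (K := K))
    rw [M.ord_pow hJ, M.ord_one] at this
    push_cast at this
    linarith
  have hc : ∀ a b c d i : Fin 12, (if isD e1 e2 c d i then -s (pt e1 e2 a b c d i) ^ 3
      else s (pt e1 e2 a b c d i) ^ 5) ≠ 0 := by
    intro a b c d i
    split_ifs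
    · exact neg_ne_zero.2 (pow_ne_zero _ (h0 _))
    · exact pow_ne_zero _ (h0 _)
  have h1 := fun a b c d => Th_inv e1 e2 a b c d s w h0
  have h2 : Gd e1 e2 (fun i => (s i)⁻¹) (fun i => -w i / s i ^ 2) := by
    intro a b c d h h'
    have := h1 a b c d
    rw [h', mul_zero] at this
    exact mul_ne_zero hJ (hG a b c d h) this.symm
  refine ⟨h2, ?_⟩
  unfold MOrd.del
  rw [M.nu_inv s hs h0, sumR_congr (G := fun a b c d =>
    (M.ord (Th e1 e2 a b c d s w) + -5 * ∑ i, M.ord (s i)) + -1 *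
      (e1.toNat * (3 * M.ord (s a) - 5 * M.ord (s c)) +
        e2.toNat * (3 * M.ord (s b) - 5 * M.ord (s d)))),
    sumR_add, sumR_add, sumR_mul (-1), sumR_lin e1 e2 (fun i => M.ord (s i)), sumR_const]
  · simp only [cJ]; push_cast; ring
  · intro a b c d h
    have hcd := h.2.2.2.2.2
    have h3 := congrArg M.ord (h1 a b c d)
    rw [M.ord_mul _ _ hJ (hG a b c d h), hJo,
      M.ord_mul _ _ (Finset.prod_ne_zero_iff.2 fun i _ => hc a b c d i) (h2 a b c d h),
      M.ord_prod _ _ fun i _ => hc a b c d i] at h3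
    have h4 := sum_pt e1 e2 (a := a) (b := b) hcd
      (fun i j => (if isD e1 e2 c d i then 3 else 5) * M.ord (s j))
    have h5 : ∀ i, M.ord (if isD e1 e2 c d i then -s (pt e1 e2 a b c d i) ^ 3
        else s (pt e1 e2 a b c d i) ^ 5) =
        (if isD e1 e2 c d i then 3 else 5) * M.ord (s (pt e1 e2 a b c d i)) := by
      intro i
      split_ifs
      · rw [M.ord_neg, M.ord_pow (h0 _)]; rfl
      · rw [M.ord_pow (h0 _)]; rfl
    have h6 : ∑ i, (if isD e1 e2 c d i then 3 else 5) * M.ord (s i) =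
        5 * ∑ i, M.ord (s i) - e1.toNat * (2 * M.ord (s c)) - e2.toNat * (2 * M.ord (s d)) := by
      have : ∀ i, (if isD e1 e2 c d i then 3 else 5) * M.ord (s i) = 5 * M.ord (s i) -
          (if i = c then e1.toNat * (2 * M.ord (s c)) else 0) -
          (if i = d then e2.toNat * (2 * M.ord (s d)) else 0) := by
        intro i
        by_cases h7 : i = c
        · subst h7; cases e1 <;> simp [hcd, isD]; ring
        · by_cases h8 : i = d
          · subst h8; cases e2 <;> simp [h7, isD]; ring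
          · simp [h7, h8, isD]
      simp only [this, Finset.sum_sub_distrib, sum_ite_eq', mem_univ, if_true, ← Finset.mul_sum]
    simp only [h5, h4, h6] at h3
    cases e1 <;> cases e2 <;> simp [isD, hcd, hcd.symm] at h3 ⊢ <;> linarith

theorem del_quad (M : MOrd K) {e1 e2 : Bool} {s w : Fin 12 → K} (hs : Function.Injective s)
    (h0 : ∀ i, s i ≠ 0) (hG : Gd e1 e2 s w) (q0 q1 q2 : K) :
    Gd e1 e2 s (fun i => w i + q2 * s i ^ 2 + q1 * s i + q0) ∧
      M.del e1 e2 s (fun i => w i + q2 * s i ^ 2 + q1 * s i + q0) = M.del e1 e2 s w := by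
  have hs' : Function.Injective fun i => (s i)⁻¹ := fun i j h => hs (inv_injective h)
  obtain ⟨g1, d1⟩ := del_inv M hs h0 hG
  obtain ⟨g2, d2⟩ := del_affine M hs' g1 one_ne_zero one_ne_zero 0 0 (-q2)
  simp only [one_mul, add_zero, zero_mul, sub_self, mul_zero] at g2 d2
  obtain ⟨g3, d3⟩ := del_inv M hs' (fun i => inv_ne_zero (h0 i)) g2
  simp only [inv_inv] at g3 d3
  obtain ⟨g4, d4⟩ := del_affine M hs g3 one_ne_zero one_ne_zero 0 q1 q0
  simp only [one_mul, add_zero, sub_self, mul_zero] at g4 d4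
  have : (fun i => -(-w i / s i ^ 2 + -q2) / (s i)⁻¹ ^ 2 + q1 * s i + q0) =
      fun i => w i + q2 * s i ^ 2 + q1 * s i + q0 := by
    funext i
    have := h0 i
    field_simp
    ring
  rw [this] at g4 d4
  exact ⟨g4, by rw [d4, d3, d2, d1]⟩

/-- the order function of a place -/
noncomputable def toM (L : Loc K) : MOrd K where
  ord x := L.ord x
  ord_mul x y hx hy := by rw [L.ord_mul x y hx hy]; push_cast; rfl

theorem toM_del (L : Loc K) (e1 e2 : Bool) (s w : Fin 12 → K) :
    (toM L).del e1 e2 s w =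
      ((sumQ (fun a b c d => L.ord (Th e1 e2 a b c d s w)) - cJ e1 e2 * L.nu s : ℤ) : ℝ) := by
  unfold MOrd.del
  push_cast
  rw [← sumR_cast]
  congr 2
  simp only [MOrd.nu, Loc.nu, toM]
  push_cast
  rfl

theorem del_local0 [CharZero K] (L : Loc K) {e1 e2 : Bool} (h21 : e2 = true → e1 = true)
    (y : Fin 12 → K) (hy : Function.Injective y)
    (h0 : ∀ i, L.Ge 0 (y i)) (he : ∀ i j, i ≠ j → Even (L.ord (y i - y j)))
    (h6 : ∀ i, (univ.filter fun j => j = i ∨ 2 ≤ L.ord (y i - y j)).card ≤ 6)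
    (hG : Gd e1 e2 y (fun i => L.D (y i))) :
    0 ≤ (toM L).del e1 e2 y (fun i => L.D (y i)) ∧
      ((toM L).del e1 e2 y (fun i => L.D (y i)) < 1 → ∀ i j, i ≠ j → L.ord (y i - y j) = 0) := by
  classical
  obtain ⟨lab, hlab⟩ := exists_lab L y
  obtain ⟨R, hR⟩ := nu_eq L y hy (fun i j => (h0 i).sub (h0 j)) he lab hlab
  have hd : ∀ i j, i ≠ j → y i - y j ≠ 0 := fun i j hij => sub_ne_zero.2 fun h => hij (hy h)
  have hc : ∀ r x, csz (lab (r + 1)) x ≤ 6 := by
    intro r x
    unfold csz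
    rcases (univ.filter fun i => lab (r + 1) i = x).eq_empty_or_nonempty with h | ⟨i, hi⟩
    · rw [h]; simp
    · refine le_trans (Finset.card_le_card fun j hj => ?_) (h6 i)
      have h1 := (hlab (r + 1) i j).1 ((mem_filter.1 hi).2.trans (mem_filter.1 hj).2.symm)
      simp only [mem_filter, mem_univ, true_and]
      by_cases hji : j = i
      · exact Or.inl hji
      · have := h1.le (sub_ne_zero.2 fun h => hji (hy h).symm)
        push_cast at this
        exact Or.inr (by omega)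
  have key : ∑ r ∈ range R, ∑ x, (if 2 ≤ csz (lab (r + 1)) x then (1 : ℤ) else 0) ≤
      sumQ (fun a b c d => L.ord (Th e1 e2 a b c d y fun i => L.D (y i))) - cJ e1 e2 * L.nu y := by
    rw [hR, le_sub_iff_add_le, Finset.mul_sum, ← Finset.sum_add_distrib]
    refine le_trans (Finset.sum_le_sum (g := fun r => sumQ (fun a b c d =>
      (∑ x, ∑ k ∈ range (csz (fun i => lab (r + 1) (pt e1 e2 a b c d i)) x),
        (if isT e1 e2 (lab (r + 1) a) (lab (r + 1) b) x then wT else wN) k) + -2 * nD e1 e2))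
      fun r _ => ?_) ?_
    · rw [level_eq, Finset.mul_sum, Finset.mul_sum, ← Finset.sum_add_distrib]
      refine Finset.sum_le_sum fun x _ => ?_
      have := lpE e1 e2 h21 ⟨csz (lab (r + 1)) x, by have := hc r x; omega⟩
      simp only at this
      omega
    · rw [← sumQ_sum]
      refine sumQ_mono fun a b c d h => ?_
      exact (Th_local0 L h21 h.2.1 h.2.2.1 h.2.2.2.1 h.2.2.2.2.1 h.2.2.2.2.2 y h0 lab hlab R).le
        (hG a b c d h)
  have hnn : ∀ r, 0 ≤ ∑ x, (if 2 ≤ csz (lab (r + 1)) x then (1 : ℤ) else 0) := fun r =>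
    Finset.sum_nonneg fun x _ => by split_ifs <;> norm_num
  rw [toM_del]
  refine ⟨by exact_mod_cast (Finset.sum_nonneg fun r _ => hnn r).trans key, fun hlt i j hij => ?_⟩
  by_contra hne
  have h1 := ((h0 i).sub (h0 j)).le (hd i j hij)
  obtain ⟨m, hm⟩ := he i j hij
  have h2 : lab 1 i = lab 1 j := (hlab 1 i j).2 (Loc.Ge.of_le (by push_cast; omega))
  have h3 : 2 ≤ csz (lab 1) (lab 1 i) := by
    unfold csz
    rw [← card_pair hij]
    exact Finset.card_le_card (by intro k hk; simp at hk ⊢; rcases hk with h | h <;> simp [h, h2])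
  have h4 : 0 < R := by
    rcases Nat.eq_zero_or_pos R with h | h
    · exfalso
      rw [h, sum_range_zero] at hR
      have h5 : ∀ i j, 0 ≤ if i = j then 0 else L.ord (y i - y j) := fun i j => by
        split_ifs with h
        · exact le_rfl
        · exact ((h0 i).sub (h0 j)).le (hd i j h)
      have h7 := (Finset.sum_eq_zero_iff_of_nonneg fun k _ => h5 i k).1
        ((Finset.sum_eq_zero_iff_of_nonneg fun k _ => Finset.sum_nonneg fun l _ => h5 k l).1 hR i
          (mem_univ i)) j (mem_univ j)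
      rw [if_neg hij] at h7
      exact hne h7
    · exact h
  have h5 : (1 : ℤ) ≤ ∑ x, (if 2 ≤ csz (lab (0 + 1)) x then (1 : ℤ) else 0) := by
    refine le_trans ?_ (Finset.single_le_sum (f := fun x =>
      if 2 ≤ csz (lab (0 + 1)) x then (1 : ℤ) else 0) (fun x _ => by split_ifs <;> norm_num)
      (mem_univ (lab 1 i)))
    simp [h3]
  have h8 := h5.trans ((Finset.single_le_sum (f := fun r =>
    ∑ x, (if 2 ≤ csz (lab (r + 1)) x then (1 : ℤ) else 0)) (fun r _ => hnn r)
    (mem_range.2 h4)).trans key)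
  have : ((1 : ℤ) : ℝ) < 1 := lt_of_le_of_lt (by exact_mod_cast h8) hlt
  simp at this

theorem del_local [CharZero K] (L : Loc K) {e1 e2 : Bool} (h21 : e2 = true → e1 = true)
    (x : Fin 12 → K) (hx : Function.Injective x)
    (he : ∀ i j, i ≠ j → Even (L.ord (x i - x j)))
    (hG : Gd e1 e2 x (fun i => L.D (x i))) :
    0 ≤ (toM L).del e1 e2 x (fun i => L.D (x i)) ∧
      ((toM L).del e1 e2 x (fun i => L.D (x i)) < 1 → ∀ i j k l, i ≠ j → k ≠ l → i ≠ k → j ≠ l →
        L.ord (x i - x j) + L.ord (x k - x l) = L.ord (x i - x k) + L.ord (x j - x l)) := by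
  classical
  obtain ⟨r, c, hr, h7, h6⟩ := exists_ball L x he
  set a := L.p ^ (-r) with ha
  have ha0 : a ≠ 0 := zpow_ne_zero _ L.p_ne
  have hoa : L.ord a = -r := L.ord_p_zpow _
  obtain ⟨m, hm⟩ := exists_shift L (fun i => a * (x i - x c))
  set z : Fin 12 → K := fun i => a * x i + (-(a * x c) - m) with hz
  have hz1 : ∀ i, z i = a * (x i - x c) - m := fun i => by simp only [hz]; ring
  have hz0 : ∀ i, z i ≠ 0 := fun i => by rw [hz1]; exact (hm i).1
  have hz2 : ∀ i, L.ord (z i) ≤ 0 := fun i => by rw [hz1]; exact (hm i).2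
  have hd : ∀ i j, i ≠ j → x i - x j ≠ 0 := fun i j hij => sub_ne_zero.2 fun h => hij (hx h)
  have hzd : ∀ i j, z i - z j = a * (x i - x j) := fun i j => by simp only [hz]; ring
  have hzi : Function.Injective z := fun i j h => by
    by_contra hij
    exact mul_ne_zero ha0 (hd i j hij) (by rw [← hzd, h, sub_self])
  have hin : ∀ j, (j = c ∨ r ≤ L.ord (x c - x j)) → L.ord (z j) = 0 := by
    intro j hj
    refine le_antisymm (hz2 j) (Loc.Ge.le ?_ (hz0 j))
    rw [hz1]
    refine Loc.Ge.sub ?_ (Loc.Ge.natCast m)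
    rcases hj with h | h
    · exact Or.inl (by simp [h])
    · exact (Loc.Ge.self a).mul' (Loc.Ge.of_le (n := r) (by rwa [L.ord_sub_comm])) (by omega)
  have hev : ∀ j, Even (L.ord (z j)) := by
    intro j
    by_cases hj : j = c ∨ r ≤ L.ord (x c - x j)
    · rw [hin j hj]; exact Even.zero
    · push Not at hj
      have h1 : L.ord (a * (x j - x c)) = -r + L.ord (x j - x c) := by
        rw [L.ord_mul _ _ ha0 (hd _ _ hj.1), hoa]
      have h2 := (Loc.ord_add_eq (L := L) (mul_ne_zero ha0 (hd _ _ hj.1)) (y := -(m : K))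
        ((Loc.Ge.natCast m).neg.mono (by rw [h1, L.ord_sub_comm]; omega))).2
      rw [hz1, sub_eq_add_neg, h2, h1]
      exact hr.neg.add (he _ _ hj.1)
  obtain ⟨hG1, hd1⟩ := del_affine (toM L) hx hG ha0 ha0 (-(a * x c) - m) (L.D a)
    (L.D (-(a * x c) - m))
  have e1' : (fun i => a * L.D (x i) + L.D a * x i + L.D (-(a * x c) - m)) =
      fun i => L.D (z i) := by
    funext i
    simp only [hz]
    rw [L.toDer.D_add, L.toDer.D_mul]; ring
  rw [e1'] at hG1 hd1
  obtain ⟨hG2, hd2⟩ := del_inv (toM L) hzi hz0 hG1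
  simp only [← L.toDer.D_inv] at hG2 hd2
  rw [sub_self, mul_zero, add_zero] at hd1
  rw [← hd1, ← hd2]
  have hord : ∀ i j, i ≠ j → L.ord ((z i)⁻¹ - (z j)⁻¹) =
      -r + L.ord (x i - x j) - L.ord (z i) - L.ord (z j) := by
    intro i j hij
    rw [inv_sub_inv (hz0 i) (hz0 j), hzd,
      L.ord_div (mul_ne_zero ha0 (hd _ _ hij.symm)) (mul_ne_zero (hz0 i) (hz0 j)),
      L.ord_mul _ _ (hz0 i) (hz0 j), L.ord_mul _ _ ha0 (hd _ _ hij.symm), hoa,
      L.ord_sub_comm (x j)]
    ring
  have key := del_local0 L h21 _ (fun i j h => hzi (inv_injective h))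
    (fun i => Loc.Ge.of_le (by rw [L.ord_inv (hz0 i)]; have := hz2 i; omega))
    (fun i j hij => by
      rw [hord i j hij]
      exact ((hr.neg.add (he i j hij)).sub (hev i)).sub (hev j)) (fun i => ?_) hG2
  · refine ⟨key.1, fun h i j k l hij hkl hik hjl => ?_⟩
    have t1 := key.2 h i j hij
    have t2 := key.2 h k l hkl
    have t3 := key.2 h i k hik
    have t4 := key.2 h j l hjl
    rw [hord _ _ hij] at t1
    rw [hord _ _ hkl] at t2
    rw [hord _ _ hik] at t3
    rw [hord _ _ hjl] at t4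
    omega
  by_contra hlt
  push Not at hlt
  obtain ⟨i0, hi0⟩ := Finset.inter_nonempty_of_card_lt_card_add_card (Finset.subset_univ _)
    (Finset.subset_univ _)
    (show (univ : Finset (Fin 12)).card <
      (univ.filter fun j => j = i ∨ 2 ≤ L.ord ((z i)⁻¹ - (z j)⁻¹)).card +
      (univ.filter fun j => j = c ∨ r ≤ L.ord (x c - x j)).card by
        rw [card_univ, Fintype.card_fin]; omega)
  obtain ⟨hi1, hi2⟩ := Finset.mem_inter.1 hi0
  have hi3 := hin i0 (mem_filter.1 hi2).2
  have hge : ∀ j, (j = i ∨ 2 ≤ L.ord ((z i)⁻¹ - (z j)⁻¹)) → L.Ge 2 ((z i)⁻¹ - (z j)⁻¹) := by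
    intro j hj
    rcases hj with h | h
    · exact Or.inl (by simp [h])
    · exact Or.inr h
  have : (univ.filter fun j => j = i ∨ 2 ≤ L.ord ((z i)⁻¹ - (z j)⁻¹)) ⊆
      (univ.filter fun j => j = i0 ∨ r + 1 ≤ L.ord (x i0 - x j)) := by
    intro j hj
    simp only [mem_filter, mem_univ, true_and]
    by_cases hji : j = i0
    · exact Or.inl hji
    right
    have h1 := (hge j (mem_filter.1 hj).2).sub (hge i0 (mem_filter.1 hi1).2)
    rw [sub_sub_sub_cancel_left] at h1
    have h2 := (Loc.ord_add_eq (L := L) (inv_ne_zero (hz0 i0)) (y := -((z i0)⁻¹ - (z j)⁻¹))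
      (h1.neg.mono (by rw [L.ord_inv (hz0 i0), hi3]; omega))).2
    rw [show (z i0)⁻¹ + -((z i0)⁻¹ - (z j)⁻¹) = (z j)⁻¹ by ring, L.ord_inv (hz0 i0),
      L.ord_inv (hz0 j)] at h2
    have h3 := h1.le (sub_ne_zero.2 fun h => hji (hzi (inv_injective h)).symm)
    rw [hord _ _ (Ne.symm hji)] at h3
    omega
  have := Finset.card_le_card this
  have := h6 i0
  omega

end Pool.Agent.P.MP_7ede32_ag.N
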