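import Pool.Agent.P.MP_7ede32_ag.Alg2
import Pool.Agent.P.MP_7ede32_ag.NDel

namespace Pool.Agent.P.MP_7ede32_ag.N

open Finset Polynomial

variable {K : Type*} [Field K]

/-- five of the points lie on a parabola -/
def Ric {ι : Type*} (x w : ι → K) : Prop :=
  ∃ q : K[X], q.natDegree ≤ 2 ∧ ∃ T : Finset ι, 5 ≤ T.card ∧ ∀ i ∈ T, w i = q.eval (x i)

/-- twenty of the points lie on the graph of a cubic over a linear polynomial -/
def Ab {ι : Type*} (x w : ι → K) : Prop :=
  ∃ B E : K[X], B ≠ 0 ∧ B.natDegree ≤ 1 ∧ E.natDegree ≤ 3 ∧ ∃ T : Finset ι,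
    20 ≤ T.card ∧ ∀ i ∈ T, B.eval (x i) * w i + E.eval (x i) = 0

theorem exists_g (A B E : K[X]) (hA : A.natDegree ≤ 1) (hB : B.natDegree ≤ 3)
    (hE : E.natDegree ≤ 5) : ∃ g : Fin 12 → K, pA g = A ∧ pB g = B ∧ pE g = E := by
  refine ⟨![E.coeff 0, E.coeff 1, E.coeff 2, E.coeff 3, E.coeff 4, E.coeff 5, B.coeff 0,
    B.coeff 1, B.coeff 2, B.coeff 3, A.coeff 0, A.coeff 1], ?_, ?_, ?_⟩
  · conv_rhs => rw [A.as_sum_range_C_mul_X_pow' (n := 2) (by omega)]
    simp [pA, Finset.sum_range_succ]
  · conv_rhs => rw [B.as_sum_range_C_mul_X_pow' (n := 4) (by omega)]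
    simp [pB, Finset.sum_range_succ]
  · conv_rhs => rw [E.as_sum_range_C_mul_X_pow' (n := 6) (by omega)]
    simp [pE, Finset.sum_range_succ]

theorem factor {A B E b e : K[X]} (hb : b ≠ 0) (h : IsCoprime b e)
    (hN : A * (e * e) - B * (b * e) + E * (b * b) = 0) :
    ∃ a c, A = b * a ∧ E = e * c ∧ B = b * c + a * e := by
  obtain ⟨a, ha⟩ : b ∣ A := by
    have : b ∣ A * e * e := ⟨B * e - E * b, by linear_combination hN⟩
    exact h.dvd_of_dvd_mul_right (h.dvd_of_dvd_mul_right this)
  have h1 : (B - a * e) * e = b * E := by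
    apply mul_left_cancel₀ hb
    rw [ha] at hN
    linear_combination -hN
  obtain ⟨c, hc⟩ : b ∣ B - a * e := h.dvd_of_dvd_mul_right ⟨E, h1⟩
  refine ⟨a, c, ha, ?_, by linear_combination hc⟩
  apply mul_left_cancel₀ hb
  rw [← h1, hc]; ring

theorem zero_of_deg {a P : K[X]} {n : ℕ} (h : (a * P).natDegree ≤ n) (hP : n < P.natDegree) :
    a = 0 := by
  by_contra ha
  have h0 : P ≠ 0 := by rintro rfl; simp at hP
  rw [natDegree_mul ha h0] at h
  omega

theorem deg_of_mul {a P : K[X]} {n m : ℕ} (h : (a * P).natDegree ≤ n) (h0 : P ≠ 0)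
    (hP : n ≤ P.natDegree + m) : a.natDegree ≤ m := by
  by_cases ha : a = 0
  · simp [ha]
  rw [natDegree_mul ha h0] at h
  omega

theorem zero_bound2 {ι : Type*} (x w : ι → K) (hx : Function.Injective x) (c : K)
    (Q R A B E : K[X]) (hQ : Q.natDegree ≤ 2) (hR : R.natDegree ≤ 4) (hA : A.natDegree ≤ 1)
    (hB : B.natDegree ≤ 3) (hE : E.natDegree ≤ 5) (S : Finset ι) (hS : 11 ≤ S.card)
    (hF : ∀ i ∈ S, c * w i ^ 2 + Q.eval (x i) * w i + R.eval (x i) = 0)
    (hG : ∀ i ∈ S, A.eval (x i) * w i ^ 2 + B.eval (x i) * w i + E.eval (x i) = 0)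
    (hc : c ≠ 0 ∨ (c = 0 ∧ Q ≠ 0 ∧ IsCoprime Q R ∧ (Q.natDegree = 2 ∨ R.natDegree = 4))) :
    (∃ H : K[X], H.natDegree ≤ 1 ∧ A = H * C c ∧ B = H * Q ∧ E = H * R) ∨
      Ric x w := by
  rcases hc with hc | ⟨hc, hQ0, hcop, hdeg⟩
  · set H := A * C c⁻¹ with hH
    have hHd : H.natDegree ≤ 1 := deg_mul hA (deg_C _) le_rfl
    have hA' : A = H * C c := by
      rw [hH, mul_assoc, ← C_mul, inv_mul_cancel₀ hc, C_1, mul_one]
    set B' := B - H * Q with hB'
    set E' := E - H * R with hE'
    have hB'd : B'.natDegree ≤ 3 := deg_sub hB (deg_mul hHd hQ le_rfl)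
    have hE'd : E'.natDegree ≤ 5 := deg_sub hE (deg_mul hHd hR (by norm_num))
    have h1 : ∀ i ∈ S, B'.eval (x i) * w i + E'.eval (x i) = 0 := by
      intro i hi
      have e1 := hF i hi
      have e2 := hG i hi
      rw [hA'] at e2
      simp only [hB', hE', eval_sub, eval_mul, eval_C] at e2 ⊢
      linear_combination e2 - H.eval (x i) * e1
    have hN : C c * (E' * E') - Q * (B' * E') + R * (B' * B') = 0 := by
      refine vanish x hx S _ (fun i hi => ?_) (lt_of_le_of_lt (b := 10) ?_ (by omega))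
      · have e1 := hF i hi
        have e2 := h1 i hi
        simp only [eval_add, eval_sub, eval_mul, eval_C]
        linear_combination B'.eval (x i) ^ 2 * e1 +
          (c * (E'.eval (x i) - B'.eval (x i) * w i) - Q.eval (x i) * B'.eval (x i)) * e2
      · exact deg_add (deg_sub (deg_mul (deg_C _) (deg_mul hE'd hE'd le_rfl) le_rfl)
          (deg_mul hQ (deg_mul hB'd hE'd le_rfl) le_rfl))
          (deg_mul hR (deg_mul hB'd hB'd le_rfl) (by norm_num))
    by_cases hB0 : B' = 0
    · left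
      refine ⟨H, hHd, hA', sub_eq_zero.1 hB0, sub_eq_zero.1 ?_⟩
      rw [hB0] at hN
      simp only [zero_mul, mul_zero, sub_zero, add_zero] at hN
      exact mul_self_eq_zero.1 ((mul_eq_zero.1 hN).resolve_left (C_ne_zero.2 hc))
    right
    obtain ⟨b, e, d, hbe, hb, he⟩ := UniqueFactorizationMonoid.exists_reduced_factors B' hB0 E'
    have hd0 : d ≠ 0 := by rintro rfl; exact hB0 (by rw [← hb, zero_mul])
    have h2 : C c * (e * e) - Q * (b * e) + R * (b * b) = 0 := by
      apply mul_left_cancel₀ (mul_ne_zero hd0 hd0)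
      rw [mul_zero, ← hN, ← hb, ← he]; ring
    have h3 : IsUnit b := by
      have h4 : b ∣ C c * e * e := ⟨Q * e - R * b, by linear_combination h2⟩
      exact isUnit_of_dvd_unit (hbe.dvd_of_dvd_mul_right (hbe.dvd_of_dvd_mul_right h4))
        (isUnit_C.2 hc.isUnit)
    obtain ⟨u, rfl⟩ := h3
    set q : K[X] := -(e * ↑u⁻¹) with hq
    have h5 : E' = -(B' * q) := by
      rw [hq, ← hb, ← he, mul_neg, neg_neg, mul_assoc, mul_left_comm (u : K[X]), Units.mul_inv,
        mul_one]
    have h6 : C c * (q * q) = -(Q * q + R) := by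
      apply mul_left_cancel₀ (mul_ne_zero hB0 hB0)
      rw [h5] at hN
      linear_combination hN
    obtain ⟨T, hT, hT1, hT2⟩ := few_roots x hx S B' hB0
    refine ⟨q, ?_, T, by omega, fun i hi => ?_⟩
    · by_contra h7
      have hq0 : q ≠ 0 := by rintro h; rw [h] at h7; simp at h7
      have h8 := congrArg natDegree h6
      rw [natDegree_C_mul hc, natDegree_mul hq0 hq0, natDegree_neg (Q * q + R)] at h8
      have h9 : (Q * q + R).natDegree ≤ q.natDegree + 2 :=
        deg_add (deg_mul hQ le_rfl (by omega)) (by omega)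
      omega
    · have e2 := h1 i (hT hi)
      rw [h5] at e2
      simp only [eval_neg, eval_mul] at e2
      apply mul_left_cancel₀ (hT2 i hi)
      linear_combination e2
  · left
    subst hc
    have hN : A * (R * R) - B * (Q * R) + E * (Q * Q) = 0 := by
      refine vanish x hx S _ (fun i hi => ?_) (lt_of_le_of_lt (b := 9) ?_ (by omega))
      · have e1 := hF i hi
        have e2 := hG i hi
        simp only [eval_add, eval_sub, eval_mul]
        linear_combination Q.eval (x i) ^ 2 * e2 +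
          (A.eval (x i) * (R.eval (x i) - Q.eval (x i) * w i) - Q.eval (x i) * B.eval (x i)) * e1
      · exact deg_add (deg_sub (deg_mul hA (deg_mul hR hR le_rfl) (by norm_num))
          (deg_mul hB (deg_mul hQ hR le_rfl) (by norm_num)))
          (deg_mul hE (deg_mul hQ hQ le_rfl) (by norm_num))
    obtain ⟨a, H, h1, h2, h3⟩ := factor hQ0 hcop hN
    have h4 : a = 0 ∧ H.natDegree ≤ 1 := by
      rcases hdeg with h | h
      · have h5 : a = 0 := zero_of_deg (n := 1) (by rw [mul_comm, ← h1]; exact hA) (by omega)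
        refine ⟨h5, deg_of_mul (P := Q) (n := 3) ?_ hQ0 (by omega)⟩
        rwa [h3, h5, zero_mul, add_zero, mul_comm] at hB
      · have h5 : H.natDegree ≤ 1 := deg_of_mul (P := R) (n := 5) (by rwa [mul_comm, ← h2])
          (by rintro rfl; simp at h) (by omega)
        refine ⟨zero_of_deg (P := R) (n := 3) ?_ (by omega), h5⟩
        rw [show a * R = B - Q * H by rw [h3]; ring]
        exact deg_sub hB (deg_mul hQ h5 le_rfl)
    refine ⟨H, h4.2, by simp [h1, h4.1], by rw [h3, h4.1]; ring, by rw [h2, mul_comm]⟩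

theorem zero_bound1 (x w : Fin 72 → K) (hx : Function.Injective x)
    (A B E A' B' E' : K[X]) (hA : A.natDegree ≤ 1) (hB : B.natDegree ≤ 3) (hE : E.natDegree ≤ 5)
    (hA' : A'.natDegree ≤ 1) (hB' : B'.natDegree ≤ 3) (hE' : E'.natDegree ≤ 5)
    (hp : ∀ d, d ∣ A → d ∣ B → d ∣ E → IsUnit d)
    (hdeg : A.natDegree = 1 ∨ B.natDegree = 3 ∨ E.natDegree = 5)
    (hG : ∀ i, A.eval (x i) * w i ^ 2 + B.eval (x i) * w i + E.eval (x i) = 0)
    (S : Finset (Fin 72)) (hS : 14 ≤ S.card)
    (hG' : ∀ i ∈ S, A'.eval (x i) * w i ^ 2 + B'.eval (x i) * w i + E'.eval (x i) = 0) :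
    (∃ h : K, A' = C h * A ∧ B' = C h * B ∧ E' = C h * E) ∨ Ab x w := by
  classical
  have hc : ∀ h : K[X], A' = h * A → B' = h * B → E' = h * E →
      ∃ h : K, A' = C h * A ∧ B' = C h * B ∧ E' = C h * E := by
    intro h h1 h2 h3
    have h4 : h.natDegree ≤ 0 := by
      rcases hdeg with h5 | h5 | h5
      · exact deg_of_mul (h1 ▸ hA') (by rintro rfl; simp at h5) (by omega)
      · exact deg_of_mul (h2 ▸ hB') (by rintro rfl; simp at h5) (by omega)
      · exact deg_of_mul (h3 ▸ hE') (by rintro rfl; simp at h5) (by omega)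
    rw [eq_C_of_natDegree_le_zero h4] at h1 h2 h3
    exact ⟨_, h1, h2, h3⟩
  by_cases hA0 : A = 0
  · left
    subst hA0
    have hB0 : B ≠ 0 := by
      rintro rfl
      have : E = 0 := vanish x hx univ E (fun i _ => by simpa using hG i) (by simp; omega)
      subst this
      simp at hdeg
    have hcop : IsCoprime B E :=
      isRelPrime_iff_isCoprime.1 fun d h1 h2 => hp d (dvd_zero d) h1 h2
    have hN : A' * (E * E) - B' * (B * E) + E' * (B * B) = 0 := by
      refine vanish x hx S _ (fun i hi => ?_) (lt_of_le_of_lt (b := 11) ?_ (by omega))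
      · have e1 := hG i
        have e2 := hG' i hi
        simp only [eval_add, eval_sub, eval_mul, eval_zero] at e1 ⊢
        linear_combination B.eval (x i) ^ 2 * e2 +
          (A'.eval (x i) * (E.eval (x i) - B.eval (x i) * w i) -
            B.eval (x i) * B'.eval (x i)) * e1
      · exact deg_add (deg_sub (deg_mul hA' (deg_mul hE hE le_rfl) (by norm_num))
          (deg_mul hB' (deg_mul hB hE le_rfl) (by norm_num)))
          (deg_mul hE' (deg_mul hB hB le_rfl) (by norm_num))
    obtain ⟨a, c, h1, h2, h3⟩ := factor hB0 hcop hN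
    have h4 : a = 0 := by
      rcases hdeg with h | h | h
      · simp at h
      · exact zero_of_deg (n := 1) (by rw [mul_comm, ← h1]; exact hA') (by omega)
      · have h5 : c.natDegree ≤ 0 := deg_of_mul (P := E) (n := 5) (by rwa [mul_comm, ← h2])
          (by rintro rfl; simp at h) (by omega)
        refine zero_of_deg (P := E) (n := 3) ?_ (by omega)
        rw [show a * E = B' - B * c by rw [h3]; ring]
        exact deg_sub hB' (deg_mul hB h5 le_rfl)
    exact hc c (by simp [h1, h4]) (by rw [h3, h4]; ring) (by rw [h2, mul_comm])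
  set B2 := A * B' - A' * B with hB2
  set E2 := A * E' - A' * E with hE2
  have dB2 : B2.natDegree ≤ 4 := deg_sub (deg_mul hA hB' le_rfl) (deg_mul hA' hB le_rfl)
  have dE2 : E2.natDegree ≤ 6 := deg_sub (deg_mul hA hE' le_rfl) (deg_mul hA' hE le_rfl)
  have hN : A * (E2 * E2) - B * (B2 * E2) + E * (B2 * B2) = 0 := by
    refine vanish x hx S _ (fun i hi => ?_) (lt_of_le_of_lt (b := 13) ?_ (by omega))
    · have e1 := hG i
      have e2 : B2.eval (x i) * w i + E2.eval (x i) = 0 := by
        simp only [hB2, hE2, eval_sub, eval_mul]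
        linear_combination A.eval (x i) * hG' i hi - A'.eval (x i) * e1
      simp only [eval_add, eval_sub, eval_mul]
      linear_combination B2.eval (x i) ^ 2 * e1 +
        (A.eval (x i) * (E2.eval (x i) - B2.eval (x i) * w i) - B.eval (x i) * B2.eval (x i)) * e2
    · exact deg_add (deg_sub (deg_mul hA (deg_mul dE2 dE2 le_rfl) (by norm_num))
        (deg_mul hB (deg_mul dB2 dE2 le_rfl) (by norm_num)))
        (deg_mul hE (deg_mul dB2 dB2 le_rfl) (by norm_num))
  by_cases hB0 : B2 = 0
  · left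
    have hE0 : E2 = 0 := by
      rw [hB0] at hN
      simp only [zero_mul, mul_zero, sub_zero, add_zero] at hN
      exact mul_self_eq_zero.1 ((mul_eq_zero.1 hN).resolve_left hA0)
    obtain ⟨a, a', d, hcop, ha, ha'⟩ := UniqueFactorizationMonoid.exists_reduced_factors A hA0 A'
    have hd0 : d ≠ 0 := by rintro rfl; exact hA0 (by rw [← ha, zero_mul])
    have h1 : ∀ P P' : K[X], A * P' - A' * P = 0 → a ∣ P := by
      intro P P' h
      refine hcop.dvd_of_dvd_mul_left ⟨P', mul_left_cancel₀ hd0 ?_⟩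
      rw [← ha, ← ha'] at h
      linear_combination -h
    obtain ⟨u, hu⟩ := (hp a ⟨d, by rw [← ha, mul_comm]⟩ (h1 B B' hB0) (h1 E E' hE0)).exists_left_inv
    have h2 : A' = u * a' * A := by
      rw [← ha, ← ha']; linear_combination -(d * a') * hu
    refine hc (u * a') h2 (mul_left_cancel₀ hA0 ?_) (mul_left_cancel₀ hA0 ?_)
    · linear_combination hB0 - hB2 + B * h2
    · linear_combination hE0 - hE2 + E * h2
  right
  obtain ⟨b, e, d, hbe, hb, he⟩ := UniqueFactorizationMonoid.exists_reduced_factors B2 hB0 E2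
  have hd0 : d ≠ 0 := by rintro rfl; exact hB0 (by rw [← hb, zero_mul])
  have hb0 : b ≠ 0 := by rintro rfl; exact hB0 (by rw [← hb, mul_zero])
  obtain ⟨a, c, h1, h2, h3⟩ := factor (A := A) (B := B) (E := E) hb0
    (isRelPrime_iff_isCoprime.1 hbe) (by
      apply mul_left_cancel₀ (mul_ne_zero hd0 hd0)
      rw [mul_zero, ← hN, ← hb, ← he]; ring)
  have ha0 : a ≠ 0 := by rintro rfl; exact hA0 (by rw [h1, mul_zero])
  have h4 : b.natDegree + a.natDegree ≤ 1 := by rwa [← natDegree_mul hb0 ha0, ← h1]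
  have h5 : ∀ {b a e c : K[X]}, a ≠ 0 → b.natDegree ≤ 1 → E = e * c → B = b * c + a * e →
      e.natDegree ≤ 3 := by
    intro b a e c ha hb h2 h3
    by_contra h
    have h6 : c.natDegree ≤ 1 := deg_of_mul (P := e) (n := 5) (by rwa [mul_comm, ← h2])
      (by rintro rfl; simp at h) (by omega)
    refine ha (zero_of_deg (P := e) (n := 3) ?_ (by omega))
    rw [show a * e = B - b * c by rw [h3]; ring]
    exact deg_sub hB (deg_mul hb h6 (by norm_num))
  have h6 := Finset.card_filter_add_card_filter_not (s := (univ : Finset (Fin 72)))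
    (fun i => b.eval (x i) * w i + e.eval (x i) = 0)
  simp only [card_univ, Fintype.card_fin] at h6
  by_cases h7 : 20 ≤ (univ.filter fun i => b.eval (x i) * w i + e.eval (x i) = 0).card
  · exact ⟨b, e, hb0, by omega, h5 ha0 (by omega) h2 h3, _, h7, fun i hi => (mem_filter.1 hi).2⟩
  · refine ⟨a, c, ha0, by omega, h5 (a := b) (b := a) (c := e) hb0 (by omega)
      (by rw [h2, mul_comm]) (by rw [h3]; ring),
      univ.filter fun i => ¬b.eval (x i) * w i + e.eval (x i) = 0, by omega, fun i hi => ?_⟩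
    have h8 := hG i
    rw [h1, h2, h3] at h8
    simp only [eval_add, eval_mul] at h8
    apply mul_left_cancel₀ (mem_filter.1 hi).2
    linear_combination h8

theorem greedy {ι : Type*} [DecidableEq ι] (v : ι → Fin 12 → K) (pool : Finset ι) (t z : ℕ)
    (h67 : ∀ k ≤ 11, k + k.choose (min t k) * (z - min t k) < pool.card)
    (hZ : ∀ T ⊆ pool, T.card ≤ t → ∃ g : Fin 12 → K, (∀ i ∈ T, g ⬝ᵥ v i = 0) ∧
      ∀ Z ⊆ pool, (∀ i ∈ Z, g ⬝ᵥ v i = 0) → Z.card ≤ z) (k : ℕ) (hk : k ≤ 12) :
    ∃ S ⊆ pool, S.card = k ∧ ∀ T ⊆ S, T.card ≤ t + 1 → ∀ l : ι → K,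
      ∑ i ∈ T, l i • v i = 0 → ∀ i ∈ T, l i = 0 := by
  classical
  induction k with
  | zero =>
    refine ⟨∅, empty_subset _, rfl, fun T hT _ l _ i hi => ?_⟩
    exact absurd (hT hi) (notMem_empty i)
  | succ k ih =>
    obtain ⟨S, hS, hSc, hI⟩ := ih (by omega)
    choose! g hg using hZ
    set m := min t k with hm
    let Z : Finset ι → Finset ι := fun T => pool.filter fun i => g T ⬝ᵥ v i = 0
    have h1 : (S ∪ (S.powersetCard m).biUnion fun T => Z T \ T).card < pool.card := by
      have h2 : ((S.powersetCard m).biUnion fun T => Z T \ T).card ≤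
          (S.powersetCard m).card * (z - m) := by
        refine Finset.card_biUnion_le_card_mul _ _ _ fun T hT => ?_
        obtain ⟨h3, h4⟩ := mem_powersetCard.1 hT
        obtain ⟨h5, h6⟩ := hg T (h3.trans hS) (by omega)
        have h7 := h6 (Z T) (filter_subset _ _) fun i hi => (mem_filter.1 hi).2
        have h8 : T ⊆ Z T := fun i hi => mem_filter.2 ⟨hS (h3 hi), h5 i hi⟩
        rw [Finset.card_sdiff_of_subset h8]
        omega
      rw [card_powersetCard, hSc] at h2
      have h3 := h67 k (by omega)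
      rw [← hm] at h3
      have := Finset.card_union_le S ((S.powersetCard m).biUnion fun T => Z T \ T)
      omega
    obtain ⟨P, hP, hP1⟩ := Finset.exists_mem_notMem_of_card_lt_card h1
    simp only [mem_union, not_or, mem_biUnion, not_exists, not_and] at hP1
    refine ⟨insert P S, insert_subset hP hS, by rw [card_insert_of_notMem hP1.1, hSc],
      fun T hT hT10 l hl => ?_⟩
    by_cases hPT : P ∈ T
    · have h2 : T.erase P ⊆ S := fun i hi =>
        (mem_insert.1 (hT (mem_of_mem_erase hi))).resolve_left (ne_of_mem_erase hi)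
      have h3 := Finset.card_erase_of_mem hPT
      have h4 := Finset.card_le_card h2
      obtain ⟨U, hU1, hU2, hU3⟩ := Finset.exists_subsuperset_card_eq (n := m) h2 (by omega)
        (by omega)
      obtain ⟨h5, _⟩ := hg U (hU2.trans hS) (by omega)
      have h6 : g U ⬝ᵥ v P ≠ 0 := fun h => hP1.2 U (mem_powersetCard.2 ⟨hU2, hU3⟩)
        (mem_sdiff.2 ⟨mem_filter.2 ⟨hP, h⟩, fun h' => hP1.1 (hU2 h')⟩)
      rw [← Finset.add_sum_erase _ _ hPT] at hl
      have h7 : l P = 0 := by
        have := congrArg (fun z => g U ⬝ᵥ z) hl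
        simp only [dotProduct_add, dotProduct_sum, dotProduct_smul, dotProduct_zero,
          smul_eq_mul] at this
        rw [Finset.sum_eq_zero fun i hi => by rw [h5 i (hU1 hi), mul_zero], add_zero] at this
        exact (mul_eq_zero.1 this).resolve_right h6
      rw [h7, zero_smul, zero_add] at hl
      intro i hi
      by_cases hiP : i = P
      · rw [hiP, h7]
      · exact hI _ h2 (by omega) l hl i (mem_erase.2 ⟨hiP, hi⟩)
    · exact hI T (fun i hi => (mem_insert.1 (hT hi)).resolve_left fun h => hPT (h ▸ hi))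
        hT10 l hl

end Pool.Agent.P.MP_7ede32_ag.N
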