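import Pool.Agent.P.MP_7ede32_ag.NAlg

namespace Pool.Agent.P.MP_7ede32_ag.N

open Finset Polynomial

variable {K : Type*} [Field K]

theorem good1 (g : Fin 12 → K) (s w : Fin 12 → K)
    (hF : ∀ i, g ⬝ᵥ mon12 (s i) (w i) = 0) (hw : ∀ i, g ⬝ᵥ dmon12 (s i) (w i) ≠ 0)
    (hI : ∀ T : Finset (Fin 12), T.card ≤ 11 → ∀ l : Fin 12 → K,
      ∑ i ∈ T, l i • mon12 (s i) (w i) = 0 → ∀ i ∈ T, l i = 0) : Gd true false s w := by
  intro a b c d _ h0
  rw [Th, detM_apply] at h0
  obtain ⟨l, hl0, hl⟩ := Matrix.exists_vecMul_eq_zero_iff.2 h0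
  rw [Matrix.vecMul_eq_sum] at hl
  have hrow : ∀ i ∈ univ.erase c,
      Matrix.of (row true false a b c d s w) i = mon12 (s i) (w i) := by
    intro i hi
    simp only [mem_erase, mem_univ, and_true] at hi
    change row true false a b c d s w i = _
    simp [row, pt, isD, hi]
  have hc : Matrix.of (row true false a b c d s w) c = dmon12 (s a) (w a) := by
    change row true false a b c d s w c = _
    simp [row, pt, isD]
  rw [← Finset.add_sum_erase _ _ (mem_univ c), hc,
    Finset.sum_congr rfl fun i hi => by rw [hrow i hi]] at hl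
  have key : l c * (g ⬝ᵥ dmon12 (s a) (w a)) = 0 := by
    have := congrArg (fun z => g ⬝ᵥ z) hl
    simpa only [dotProduct_add, dotProduct_sum, dotProduct_smul, dotProduct_zero, smul_eq_mul,
      hF, mul_zero, Finset.sum_const_zero, add_zero] using this
  have hlc : l c = 0 := (mul_eq_zero.1 key).resolve_right (hw a)
  rw [hlc, zero_smul, zero_add] at hl
  have h1 := hI _ (by rw [Finset.card_erase_of_mem (mem_univ c)]; simp) l hl
  apply hl0
  ext i
  by_cases hic : i = c
  · rw [hic, hlc]; rfl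
  exact h1 i (by simp [hic])

theorem good2 (g : K → Fin 12 → K) (s w u : Fin 12 → K) (hs : Function.Injective s)
    (hF : ∀ e i, g e ⬝ᵥ mon12 (s i) (w i) = 0)
    (hw : ∀ e i, g e ⬝ᵥ dmon12 (s i) (w i) = (s i - e) * u i) (hu : ∀ i, u i ≠ 0)
    (hI : ∀ T : Finset (Fin 12), T.card ≤ 10 → ∀ l : Fin 12 → K,
      ∑ i ∈ T, l i • mon12 (s i) (w i) = 0 → ∀ i ∈ T, l i = 0) : Gd true true s w := by
  intro a b c d ⟨hab, _, _, _, _, hcd⟩ h0
  rw [Th, detM_apply] at h0
  obtain ⟨l, hl0, hl⟩ := Matrix.exists_vecMul_eq_zero_iff.2 h0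
  rw [Matrix.vecMul_eq_sum] at hl
  have hrow : ∀ i ∈ (univ.erase c).erase d,
      Matrix.of (row true true a b c d s w) i = mon12 (s i) (w i) := by
    intro i hi
    simp only [mem_erase, mem_univ, and_true] at hi
    change row true true a b c d s w i = _
    simp [row, pt, isD, hi.1, hi.2]
  have hc : Matrix.of (row true true a b c d s w) c = dmon12 (s a) (w a) := by
    change row true true a b c d s w c = _
    simp [row, pt, isD]
  have hd : Matrix.of (row true true a b c d s w) d = dmon12 (s b) (w b) := by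
    change row true true a b c d s w d = _
    simp [row, pt, isD, hcd.symm]
  rw [← Finset.add_sum_erase _ _ (mem_univ c),
    ← Finset.add_sum_erase _ _ (mem_erase.2 ⟨hcd.symm, mem_univ d⟩), hc, hd,
    Finset.sum_congr rfl fun i hi => by rw [hrow i hi]] at hl
  have key : ∀ e, l c * ((s a - e) * u a) + l d * ((s b - e) * u b) = 0 := by
    intro e
    have := congrArg (fun z => g e ⬝ᵥ z) hl
    simpa only [dotProduct_add, dotProduct_sum, dotProduct_smul, dotProduct_zero, smul_eq_mul,
      hw, hF, mul_zero, Finset.sum_const_zero, add_zero] using this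
  have hsab : s a - s b ≠ 0 := sub_ne_zero.2 fun h => hab (hs h)
  have hsba : s b - s a ≠ 0 := sub_ne_zero.2 fun h => hab (hs h).symm
  have hlc : l c = 0 := by
    have := key (s b)
    rw [sub_self, zero_mul, mul_zero, add_zero] at this
    exact (mul_eq_zero.1 this).resolve_right (mul_ne_zero hsab (hu a))
  have hld : l d = 0 := by
    have := key (s a)
    rw [sub_self, zero_mul, mul_zero, zero_add] at this
    exact (mul_eq_zero.1 this).resolve_right (mul_ne_zero hsba (hu b))
  rw [hlc, hld, zero_smul, zero_smul, zero_add, zero_add] at hl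
  have h1 := hI _ (by
    rw [Finset.card_erase_of_mem (mem_erase.2 ⟨hcd.symm, mem_univ d⟩),
      Finset.card_erase_of_mem (mem_univ c)]
    simp) l hl
  apply hl0
  ext i
  by_cases hic : i = c
  · rw [hic, hlc]; rfl
  by_cases hid : i = d
  · rw [hid, hld]; rfl
  exact h1 i (by simp [hic, hid])

theorem indep_emb {n t : ℕ} (v : Fin n → Fin 12 → K) (S : Finset (Fin n)) (hS : S.card = 12)
    (hI : ∀ T ⊆ S, T.card ≤ t → ∀ l : Fin n → K, ∑ i ∈ T, l i • v i = 0 → ∀ i ∈ T, l i = 0) :
    ∃ e : Fin 12 → Fin n, Function.Injective e ∧ (∀ i, e i ∈ S) ∧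
      ∀ T : Finset (Fin 12), T.card ≤ t → ∀ l : Fin 12 → K,
        ∑ i ∈ T, l i • v (e i) = 0 → ∀ i ∈ T, l i = 0 := by
  let e := S.orderEmbOfFin hS
  have he : ∀ i, e i ∈ S := S.orderEmbOfFin_mem hS
  refine ⟨e, e.injective, he, fun T hT l hl i hi => ?_⟩
  have h1 := hI (T.image e) (fun j hj => by
      obtain ⟨i, _, rfl⟩ := mem_image.1 hj
      exact he i)
    (card_image_le.trans hT) (Function.extend e l 0)
    (by
      rw [Finset.sum_image fun i _ j _ h => e.injective h]
      simpa only [e.injective.extend_apply] using hl) (e i) (mem_image_of_mem _ hi)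
  rwa [e.injective.extend_apply] at h1

theorem generic2 (x w : Fin 72 → K) (hx : Function.Injective x) (c : K) (Q R : K[X])
    (hQ : Q.natDegree ≤ 2) (hR : R.natDegree ≤ 4)
    (hc : c ≠ 0 ∨ (c = 0 ∧ Q ≠ 0 ∧ IsCoprime Q R ∧ (Q.natDegree = 2 ∨ R.natDegree = 4)))
    (pool : Finset (Fin 72)) (h67 : 67 ≤ pool.card)
    (hF : ∀ i ∈ pool, c * w i ^ 2 + Q.eval (x i) * w i + R.eval (x i) = 0)
    (hw : ∀ i ∈ pool, 2 * c * w i + Q.eval (x i) ≠ 0)
    (hG : ∀ e : Fin 12 → Fin 72, Function.Injective e →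
      ¬Gd true true (fun i => x (e i)) (fun i => w (e i))) : Ric x w := by
  classical
  by_contra hRic
  obtain ⟨a, ha, b, hb, hab⟩ := Finset.one_lt_card.1 (show 1 < pool.card by omega)
  obtain ⟨S, hS, hS12, hI⟩ := greedy (fun i => mon12 (x i) (w i)) pool 9 10
    (fun k hk => lt_of_le_of_lt (b := 66) (by interval_cases k <;> decide) (by omega))
    (fun T hT hT9 => by
    obtain ⟨g, hg0, hg⟩ := exists_sol (K := K) (κ := T ⊕ Bool) (n := 12)
      (Sum.elim (fun i => mon12 (x i) (w i))
        (fun t => if t then dmon12 (x a) (w a) else dmon12 (x b) (w b)))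
      (by simp; omega)
    refine ⟨g, fun i hi => hg (Sum.inl ⟨i, hi⟩), fun Z hZp hZ => ?_⟩
    by_contra h11
    rcases zero_bound2 x w hx c Q R (pA g) (pB g) (pE g) hQ hR
      (pA_deg g) (pB_deg g) (pE_deg g) Z (by omega) (fun i hi => hF i (hZp hi))
      (fun i hi => by rw [← dot12, hZ i hi]) hc with ⟨H, hH, h1, h2, h3⟩ | h
    · have h4 : ∀ i ∈ pool, g ⬝ᵥ dmon12 (x i) (w i) = 0 → H.eval (x i) = 0 := by
        intro i hi h
        rw [dot12d, h1, h2] at h
        simp only [eval_mul, eval_C] at h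
        exact (mul_eq_zero.1 (show H.eval (x i) * (2 * c * w i + Q.eval (x i)) = 0 by
          linear_combination h)).resolve_right (hw i hi)
      have h5 : H = 0 := by
        refine vanish x hx {a, b} H (fun i hi => ?_) (by rw [card_pair hab]; omega)
        rcases mem_insert.1 hi with h | h
        · rw [h]; exact h4 a ha (hg (Sum.inr true))
        · rw [mem_singleton.1 h]; exact h4 b hb (hg (Sum.inr false))
      rw [h5, zero_mul] at h1 h2 h3
      exact hg0 (g_eq_zero g h1 h2 h3)
    · exact hRic h) 12 le_rfl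
  obtain ⟨e, he, heS, hI'⟩ := indep_emb _ S hS12 hI
  have hl : ∀ t : K, (X - C t).natDegree ≤ 1 := fun t => (natDegree_X_sub_C t).le
  choose g g1 g2 g3 using fun t : K => exists_g ((X - C t) * C c) ((X - C t) * Q) ((X - C t) * R)
    (deg_mul (hl t) (deg_C c) le_rfl) (deg_mul (hl t) hQ le_rfl) (deg_mul (hl t) hR le_rfl)
  refine hG e he (good2 g _ _ (fun i => 2 * c * w (e i) + Q.eval (x (e i))) (hx.comp he)
    (fun t i => ?_) (fun t i => ?_) (fun i => hw _ (hS (heS i))) hI')
  · rw [dot12, g1, g2, g3]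
    simp only [eval_mul, eval_sub, eval_X, eval_C]
    linear_combination (x (e i) - t) * hF _ (hS (heS i))
  · rw [dot12d, g1, g2]
    simp only [eval_mul, eval_sub, eval_X, eval_C]
    ring

theorem level2 [CharZero K] (x w : Fin 72 → K) (hx : Function.Injective x) (c : K) (Q R : K[X])
    (hQ : Q.natDegree ≤ 2) (hR : R.natDegree ≤ 4) (h0 : c = 0 → Q ≠ 0)
    (S : Finset (Fin 72)) (hS : 71 ≤ S.card)
    (hF : ∀ i ∈ S, c * w i ^ 2 + Q.eval (x i) * w i + R.eval (x i) = 0)
    (hG : ∀ e : Fin 12 → Fin 72, Function.Injective e →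
      ¬Gd true true (fun i => x (e i)) (fun i => w (e i))) : Ric x w ∨ Ab x w := by
  by_cases hc : c = 0
  · have hQ0 := h0 hc
    obtain ⟨b, e, d, hbe, hb, he⟩ := UniqueFactorizationMonoid.exists_reduced_factors Q hQ0 R
    have hd0 : d ≠ 0 := by rintro rfl; exact hQ0 (by rw [← hb, zero_mul])
    have hb0 : b ≠ 0 := by rintro rfl; exact hQ0 (by rw [← hb, mul_zero])
    have h4 : d.natDegree + b.natDegree ≤ 2 := by rwa [← natDegree_mul hd0 hb0, hb]
    obtain ⟨T, hT, hT1, hT2⟩ := few_roots x hx S Q hQ0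
    have h5 : ∀ i ∈ T, b.eval (x i) * w i + e.eval (x i) = 0 := by
      intro i hi
      have h1 := hF i (hT hi)
      have h2 := hT2 i hi
      rw [← hb] at h2
      rw [← hb, ← he, hc] at h1
      simp only [eval_mul] at h1 h2
      apply mul_left_cancel₀ (left_ne_zero_of_mul h2)
      linear_combination h1
    by_cases h1 : b.natDegree ≤ 1 ∧ e.natDegree ≤ 3
    · exact Or.inr ⟨b, e, hb0, h1.1, h1.2, T, by omega, h5⟩
    · have h6 : e.natDegree ≤ 4 := deg_of_mul (P := d) (n := 4) (by rwa [mul_comm, he]) hd0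
        (by omega)
      refine Or.inl (generic2 x w hx 0 b e (by omega) h6 (Or.inr ⟨rfl, hb0,
        isRelPrime_iff_isCoprime.1 hbe, by omega⟩) T (by omega) (fun i hi => ?_)
        (fun i hi => ?_) hG)
      · simpa using h5 i hi
      · have h2 := hT2 i hi
        rw [← hb, eval_mul] at h2
        simpa using right_ne_zero_of_mul h2
  · left
    set P := Q * Q - C (4 * c) * R with hP
    have hPe : ∀ i ∈ S, P.eval (x i) = (2 * c * w i + Q.eval (x i)) ^ 2 := by
      intro i hi
      simp only [hP, eval_sub, eval_mul, eval_C]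
      linear_combination -4 * c * hF i hi
    by_cases hP0 : P = 0
    · refine ⟨C (-(2 * c)⁻¹) * Q, deg_mul (deg_C _) hQ le_rfl, S, by omega, fun i hi => ?_⟩
      have h1 := hPe i hi
      rw [hP0, eval_zero] at h1
      have h2 := pow_eq_zero_iff (two_ne_zero) |>.1 h1.symm
      simp only [eval_mul, eval_C]
      field_simp
      linear_combination h2
    · obtain ⟨T, hT, hT1, hT2⟩ := few_roots x hx S P hP0
      have hPd : P.natDegree ≤ 4 := deg_sub (deg_mul hQ hQ le_rfl)
        (deg_mul (deg_C _) hR (by norm_num))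
      exact generic2 x w hx c Q R hQ hR (Or.inl hc) T (by omega) (fun i hi => hF i (hT hi))
        (fun i hi h => hT2 i hi (by rw [hPe i (hT hi), h]; simp)) hG

theorem level1 [CharZero K] (x w : Fin 72 → K) (hx : Function.Injective x) (g : Fin 12 → K)
    (hp : ∀ d, d ∣ pA g → d ∣ pB g → d ∣ pE g → IsUnit d)
    (hdeg : (pA g).natDegree = 1 ∨ (pB g).natDegree = 3 ∨ (pE g).natDegree = 5)
    (hF : ∀ i, g ⬝ᵥ mon12 (x i) (w i) = 0)
    (hG : ∀ e : Fin 12 → Fin 72, Function.Injective e →
      ¬Gd true false (fun i => x (e i)) (fun i => w (e i))) : Ab x w := by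
  classical
  have hF' := fun i => (dot12 g (x i) (w i)).symm.trans (hF i)
  have dA := pA_deg g
  have dB := pB_deg g
  have dE := pE_deg g
  have hu : (univ : Finset (Fin 72)).card = 72 := by simp
  set P := pB g * pB g - C 4 * (pA g * pE g) with hP
  have hPe : ∀ i, P.eval (x i) = (g ⬝ᵥ dmon12 (x i) (w i)) ^ 2 := by
    intro i
    simp only [hP, eval_sub, eval_mul, eval_C, dot12d]
    linear_combination -4 * (pA g).eval (x i) * hF' i
  by_cases hP0 : P = 0
  · have h1 : ∀ i, (C 2 * pA g).eval (x i) * w i + (pB g).eval (x i) = 0 := by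
      intro i
      have h1 := hPe i
      rw [hP0, eval_zero, dot12d] at h1
      simpa using pow_eq_zero_iff (two_ne_zero) |>.1 h1.symm
    refine ⟨C 2 * pA g, pB g, mul_ne_zero (C_ne_zero.2 two_ne_zero) fun hA => ?_,
      deg_mul (deg_C _) dA le_rfl, dB, univ, by omega, fun i _ => h1 i⟩
    have hB : pB g = 0 := vanish x hx univ _ (fun i _ => by simpa [hA] using h1 i) (by omega)
    have hE : pE g = 0 := vanish x hx univ _ (fun i _ => by simpa [hA, hB] using hF' i) (by omega)
    simp [hA, hB, hE] at hdeg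
  obtain ⟨pool, _, hT1, hT2⟩ := few_roots x hx univ P hP0
  have hPd : P.natDegree ≤ 6 := deg_sub (deg_mul dB dB le_rfl)
    (deg_mul (deg_C _) (deg_mul dA dE le_rfl) le_rfl)
  have hw : ∀ i ∈ pool, g ⬝ᵥ dmon12 (x i) (w i) ≠ 0 := fun i hi h =>
    hT2 i hi (by rw [hPe, h]; simp)
  by_contra hAb
  obtain ⟨a, ha⟩ := Finset.card_pos.1 (show 0 < pool.card by omega)
  obtain ⟨S, hS, hS12, hI⟩ := greedy (fun i => mon12 (x i) (w i)) pool 10 13
    (fun k hk => lt_of_le_of_lt (b := 44) (by interval_cases k <;> decide) (by omega))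
    (fun T hT hT9 => by
    obtain ⟨g', hg0, hg⟩ := exists_sol (K := K) (κ := Option T) (n := 12)
      (fun t => t.elim (dmon12 (x a) (w a)) fun i => mon12 (x i) (w i)) (by simp; omega)
    refine ⟨g', fun i hi => hg (some ⟨i, hi⟩), fun Z _ hZ => ?_⟩
    by_contra h14
    rcases zero_bound1 x w hx _ _ _ (pA g') (pB g') (pE g') dA dB dE
      (pA_deg g') (pB_deg g') (pE_deg g') hp hdeg hF' Z (by omega)
      (fun i hi => by rw [← dot12, hZ i hi]) with ⟨h, h1, h2, h3⟩ | h
    · have h4 : g' ⬝ᵥ dmon12 (x a) (w a) = 0 := hg none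
      have h5 := hw a ha
      rw [dot12d, h1, h2] at h4
      rw [dot12d] at h5
      simp only [eval_mul, eval_C] at h4
      have h6 : h = 0 := (mul_eq_zero.1 (show h * (2 * (pA g).eval (x a) * w a +
        (pB g).eval (x a)) = 0 by linear_combination h4)).resolve_right h5
      rw [h6, C_0, zero_mul] at h1 h2 h3
      exact hg0 (g_eq_zero g' h1 h2 h3)
    · exact hAb h) 12 le_rfl
  obtain ⟨e, he, heS, hI'⟩ := indep_emb _ S hS12 hI
  exact hG e he (good1 g _ _ (fun i => hF _) (fun i => hw _ (hS (heS i))) hI')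

theorem alg_main [CharZero K] (x w : Fin 72 → K) (hx : Function.Injective x)
    (hG : ∀ e1 e2 : Bool, (e2 = true → e1 = true) → ∀ e : Fin 12 → Fin 72, Function.Injective e →
      ¬Gd e1 e2 (fun i => x (e i)) (fun i => w (e i))) : Ric x w ∨ Ab x w := by
  obtain ⟨g, hg0, hF⟩ := exists_ann (fun i => mon12 (x i) (w i)) fun e he => by
    by_contra h
    refine hG false false id e he fun a b c d _ => ?_
    rw [Th, detM_apply]
    convert h using 3
    funext i
    simp [row, pt, isD]
  have hF' := fun i => (dot12 g (x i) (w i)).symm.trans (hF i)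
  have dA := pA_deg g
  have dB := pB_deg g
  have dE := pE_deg g
  have hu : (univ : Finset (Fin 72)).card = 72 := by simp
  have hAB : pA g = 0 → pB g ≠ 0 := fun hA hB => hg0 (g_eq_zero g hA hB
    (vanish x hx univ _ (fun i _ => by simpa [hA, hB] using hF' i) (by omega)))
  by_cases hp : ∀ d, d ∣ pA g → d ∣ pB g → d ∣ pE g → IsUnit d
  · by_cases hdeg : (pA g).natDegree = 1 ∨ (pB g).natDegree = 3 ∨ (pE g).natDegree = 5
    · exact Or.inr (level1 x w hx g hp hdeg hF (hG true false (by simp)))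
    · have h1 := eq_C_of_natDegree_le_zero (show (pA g).natDegree ≤ 0 by omega)
      refine level2 x w hx ((pA g).coeff 0) (pB g) (pE g) (by omega) (by omega)
        (fun h => hAB (by rw [h1, h, C_0])) univ (by omega) (fun i _ => ?_) (hG true true id)
      have := hF' i
      rwa [h1, eval_C] at this
  push Not at hp
  obtain ⟨d, ⟨A, hA⟩, ⟨B, hB⟩, ⟨E, hE⟩, hd⟩ := hp
  have hd0 : d ≠ 0 := by
    rintro rfl
    exact hAB (by rw [hA, zero_mul]) (by rw [hB, zero_mul])
  have hd1 : 0 < d.natDegree :=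
    natDegree_pos_iff_degree_pos.2 (Polynomial.degree_pos_of_ne_zero_of_nonunit hd0 hd)
  obtain ⟨T, _, hT1, hT2⟩ := few_roots x hx univ d hd0
  have h1 : ∀ i ∈ T, A.eval (x i) * w i ^ 2 + B.eval (x i) * w i + E.eval (x i) = 0 := by
    intro i hi
    have := hF' i
    rw [hA, hB, hE] at this
    simp only [eval_mul] at this
    apply mul_left_cancel₀ (hT2 i hi)
    linear_combination this
  have hAB' : A = 0 → B ≠ 0 := fun h h' => hAB (by rw [hA, h, mul_zero]) (by rw [hB, h', mul_zero])
  rw [hA, mul_comm] at dA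
  rw [hB, mul_comm] at dB
  rw [hE, mul_comm] at dE
  by_cases h2 : d.natDegree = 1
  · have h3 := eq_C_of_natDegree_le_zero (deg_of_mul (m := 0) dA hd0 (by omega))
    refine level2 x w hx (A.coeff 0) B E (deg_of_mul dB hd0 (by omega))
      (deg_of_mul dE hd0 (by omega)) (fun h => hAB' (by rw [h3, h, C_0])) T (by omega)
      (fun i hi => ?_) (hG true true id)
    have := h1 i hi
    rwa [h3, eval_C] at this
  · have h3 : A = 0 := zero_of_deg dA (by omega)
    have h4 : d.natDegree ≤ 3 :=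
      deg_of_mul (n := 3) (by rwa [mul_comm] at dB) (hAB' h3) (by omega)
    exact Or.inr ⟨B, E, hAB' h3, deg_of_mul dB hd0 (by omega), deg_of_mul dE hd0 (by omega), T,
      by omega, fun i hi => by simpa [h3] using h1 i hi⟩

end Pool.Agent.P.MP_7ede32_ag.N
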