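import Pool.Agent.P.MP_7ede32_ag.NDel

namespace Pool.Agent.P.MP_7ede32_ag.N

open Finset Matrix

theorem stepR {R A : Type*} [Fintype R] [DecidableEq R] [Fintype A] {n : ℕ}
    (φ : MultilinearMap ℂ (fun _ : R => Fin n → ℂ) ℂ)
    (same : R → R → Prop)
    (halt : ∀ w i j, i ≠ j → same i j → w i = w j → φ w = 0)
    (Adm : (R → Fin n → ℂ) → Prop)
    (hint : ∀ w, Adm w → ‖φ w‖ ≤ 1)
    (b : R → A → Fin n → ℂ) (hb : ∀ i j, same i j → b i = b j)
    (coef : R → A → ℂ) (g : ℝ) (hg : 0 ≤ g)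
    (H : ∀ f : R → A, (∀ i j, i ≠ j → same i j → f i ≠ f j) →
      Adm (fun i => b i (f i)) ∧ ‖∏ i, coef i (f i)‖ ≤ g) :
    ‖φ (fun i => ∑ a, coef i a • b i a)‖ ≤ Fintype.card (R → A) * g := by
  classical
  rw [φ.map_sum (fun i a => coef i a • b i a)]
  refine (norm_sum_le _ _).trans ?_
  rw [← nsmul_eq_mul, ← Finset.card_univ]
  refine Finset.sum_le_card_nsmul _ _ _ fun f _ => ?_
  rw [φ.map_smul_univ (fun i => coef i (f i)) (fun i => b i (f i)), smul_eq_mul]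
  by_cases h2 : ∀ i j, i ≠ j → same i j → f i ≠ f j
  · obtain ⟨h3, h4⟩ := H f h2
    rw [norm_mul]
    calc _ ≤ g * 1 := mul_le_mul h4 (hint _ h3) (norm_nonneg _) hg
      _ = g := mul_one g
  · push Not at h2
    obtain ⟨i, j, hij, hs, hf⟩ := h2
    rw [halt _ i j hij hs (by simp only [hb i j hs, hf]), mul_zero, norm_zero]
    exact hg

theorem towerR {R Lam : Type*} [Fintype R] [DecidableEq R] {n : ℕ}
    (lab : ℕ → R → Lam) (hlab : ∀ r i j, lab (r + 1) i = lab (r + 1) j → lab r i = lab r j)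
    (u : ℕ → R → Fin n → ℂ) (Adm : (R → Fin n → ℂ) → Prop) (hadm : ∀ r, Adm (u r))
    (T : ℕ → R → (Fin n → ℂ) →ₗ[ℂ] (Fin n → ℂ))
    (hT : ∀ r i j, lab (r + 1) i = lab (r + 1) j → T r i = T r j)
    (cf : R → ℂ) (c : ℝ) (hc : ‖∏ i, cf i‖ ≤ Real.exp c)
    (hu : ∀ r i, u r i = cf i • T r i (u (r + 1) i))
    (g : ℕ → ℝ)
    (hstep : ∀ r (φ : MultilinearMap ℂ (fun _ : R => Fin n → ℂ) ℂ),
      (∀ w i j, i ≠ j → lab (r + 1) i = lab (r + 1) j → w i = w j → φ w = 0) →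
      (∀ w, Adm w → ‖φ w‖ ≤ 1) →
      ∀ w, Adm w → ‖φ fun i => T r i (w i)‖ ≤ Real.exp (g r))
    (N : ℕ) : ∀ r (φ : MultilinearMap ℂ (fun _ : R => Fin n → ℂ) ℂ),
      (∀ w i j, i ≠ j → lab r i = lab r j → w i = w j → φ w = 0) →
      (∀ w, Adm w → ‖φ w‖ ≤ 1) →
      ‖φ (u r)‖ ≤ Real.exp (∑ k ∈ range N, (g (r + k) + c)) := by
  induction N with
  | zero => intro r φ _ h2; simpa using h2 _ (hadm r)
  | succ N ih =>
    intro r φ h1 h2
    have h1' : ∀ w i j, i ≠ j → lab (r + 1) i = lab (r + 1) j → w i = w j → φ w = 0 :=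
      fun w i j hij hl hw => h1 w i j hij (hlab r i j hl) hw
    let ψ : MultilinearMap ℂ (fun _ : R => Fin n → ℂ) ℂ :=
      ((Real.exp (-g r) : ℝ) : ℂ) • φ.compLinearMap (T r)
    have hψ : ∀ w, ψ w = ((Real.exp (-g r) : ℝ) : ℂ) * φ fun i => T r i (w i) := fun w => rfl
    have hn : ∀ w, ‖ψ w‖ = Real.exp (-g r) * ‖φ fun i => T r i (w i)‖ := fun w => by
      rw [hψ, norm_mul, Complex.norm_real, Real.norm_of_nonneg (Real.exp_pos _).le]
    have h3 := ih (r + 1) ψ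
      (fun w i j hij hl hw => by
        rw [hψ, h1' _ i j hij hl (by simp only [hT r i j hl, hw]), mul_zero])
      (fun w hw => by
        rw [hn]
        calc _ ≤ Real.exp (-g r) * Real.exp (g r) :=
              mul_le_mul_of_nonneg_left (hstep r φ h1' h2 w hw) (Real.exp_pos _).le
          _ = 1 := by rw [← Real.exp_add]; simp)
    have h4 : φ (u r) = (∏ i, cf i) * φ fun i => T r i (u (r + 1) i) := by
      rw [← smul_eq_mul, ← φ.map_smul_univ]
      congr 1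
      funext i
      exact hu r i
    rw [hn, Real.exp_neg, inv_mul_le_iff₀ (Real.exp_pos _)] at h3
    rw [h4, norm_mul]
    refine (mul_le_mul hc h3 (norm_nonneg _) (Real.exp_pos _).le).trans (le_of_eq ?_)
    rw [← Real.exp_add, ← Real.exp_add, sum_range_succ']
    congr 1
    simp only [add_zero]
    have : ∑ k ∈ range N, (g (r + (k + 1)) + c) = ∑ k ∈ range N, (g (r + 1 + k) + c) :=
      Finset.sum_congr rfl fun k _ => by rw [show r + (k + 1) = r + 1 + k by ring]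
    rw [this]
    ring

def deg12 : Fin 12 → ℕ := ![0, 1, 2, 3, 4, 5, 1, 2, 3, 4, 2, 3]

def rk12 : Fin 12 → ℕ := ![0, 1, 3, 6, 9, 11, 2, 4, 7, 10, 5, 8]

theorem rk12_inj : Function.Injective rk12 := by decide

theorem wL_rk : ∀ k, wL (rk12 k) = deg12 k := by decide

theorem sum_one_row {n : ℕ} (v : Fin n → ℂ) :
    ∑ a, v a • (1 : Matrix (Fin n) (Fin n) ℂ) a = v := by
  ext i
  simp [Finset.sum_apply, Matrix.one_apply]

theorem zoomI (p s w : ℂ) :
    ∑ a, (p ^ deg12 a * (1 : Matrix (Fin 12) (Fin 12) ℂ).mulVec (mon12 s w) a) •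
      (1 : Matrix (Fin 12) (Fin 12) ℂ) a = mon12 (p * s) (p * w) := by
  rw [sum_one_row, Matrix.one_mulVec]
  ext i
  fin_cases i <;> simp [deg12, mon12] <;> ring

theorem zoomId (p s w : ℂ) :
    ∑ a, (p ^ deg12 a * (1 : Matrix (Fin 12) (Fin 12) ℂ).mulVec (dmon12 s w) a) •
      (1 : Matrix (Fin 12) (Fin 12) ℂ) a = p • dmon12 (p * s) (p * w) := by
  rw [sum_one_row, Matrix.one_mulVec]
  ext i
  fin_cases i <;> simp [deg12, dmon12] <;> ring

theorem cont_mon : Continuous fun p : ℂ × ℂ => mon12 p.1 p.2 := by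
  refine continuous_pi fun k => ?_
  fin_cases k <;> simp only [mon12, Matrix.cons_val, Fin.reduceFinMk, Fin.zero_eta, Fin.mk_one,
    Fin.isValue] <;> fun_prop

theorem cont_dmon : Continuous fun p : ℂ × ℂ => dmon12 p.1 p.2 := by
  refine continuous_pi fun k => ?_
  fin_cases k <;> simp only [dmon12, Matrix.cons_val, Fin.reduceFinMk, Fin.zero_eta, Fin.mk_one,
    Fin.isValue] <;> fun_prop

theorem cont_A12 : Continuous fun p : ℂ × ℂ => fun i j => A12 1 p.1 1 0 p.2 i j := by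
  refine continuous_pi fun i => continuous_pi fun j => ?_
  fin_cases i <;> fin_cases j <;> simp only [A12, Matrix.of_apply, Matrix.cons_val',
    Matrix.cons_val, Matrix.cons_val_fin_one, Fin.reduceFinMk, Fin.zero_eta, Fin.mk_one,
    Fin.isValue] <;> fun_prop

theorem exists_bd (B0 : ℝ) : ∃ B : ℝ, 1 ≤ B ∧ ∀ s t : ℂ, ‖s‖ ≤ B0 → ‖t‖ ≤ B0 →
    (∀ k, ‖mon12 s t k‖ ≤ B) ∧ (∀ k, ‖dmon12 s t k‖ ≤ B) ∧
      ∀ i j, ‖A12 1 s 1 0 t i j‖ ≤ B := by
  obtain ⟨B, hB⟩ := (isCompact_closedBall (0 : ℂ × ℂ) B0).exists_bound_of_continuousOn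
    ((cont_mon.prodMk (cont_dmon.prodMk cont_A12)).continuousOn)
  refine ⟨max B 1, le_max_right _ _, fun s t hs ht => ?_⟩
  have h := (hB (s, t) (by simp [Prod.norm_def, hs, ht])).trans (le_max_left B 1)
  simp only [Prod.norm_def, max_le_iff] at h
  exact ⟨fun k => (norm_le_pi_norm _ k).trans h.1, fun k => (norm_le_pi_norm _ k).trans h.2.1,
    fun i j => ((norm_le_pi_norm _ j).trans (norm_le_pi_norm _ i)).trans h.2.2⟩

theorem det_bd {n : ℕ} (B : ℝ) (w : Fin n → Fin n → ℂ) (hw : ∀ i k, ‖w i k‖ ≤ B) :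
    ‖detM ℂ n w‖ ≤ Fintype.card (Equiv.Perm (Fin n)) * B ^ n := by
  rw [detM_apply, Matrix.det_apply']
  refine (norm_sum_le _ _).trans ?_
  rw [← nsmul_eq_mul, ← Finset.card_univ]
  refine Finset.sum_le_card_nsmul _ _ _ fun σ _ => ?_
  rw [norm_mul, norm_prod]
  have h1 : ‖((Equiv.Perm.sign σ : ℤ) : ℂ)‖ = 1 := by
    rcases Int.units_eq_one_or (Equiv.Perm.sign σ) with h | h <;> simp [h]
  rw [h1, one_mul]
  refine (Finset.prod_le_prod (fun i _ => norm_nonneg _) fun i _ => hw _ _).trans ?_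
  simp

theorem exists_lab_of_equiv {m : ℕ} (E : Fin m → Fin m → Prop) (hE : Equivalence E) :
    ∃ l : Fin m → Fin m, ∀ i j, l i = l j ↔ E i j := by
  classical
  refine ⟨fun i => (univ.filter fun j => E i j).min' ⟨i, by simp [hE.refl]⟩,
    fun i j => ⟨fun h => ?_, fun h => ?_⟩⟩
  · have h1 := Finset.min'_mem (univ.filter fun k => E i k) ⟨i, by simp [hE.refl]⟩
    have h2 := Finset.min'_mem (univ.filter fun k => E j k) ⟨j, by simp [hE.refl]⟩
    simp only at h
    rw [← h] at h2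
    exact hE.trans (mem_filter.1 h1).2 (hE.symm (mem_filter.1 h2).2)
  · simp only
    congr 1
    ext k
    simp only [mem_filter, mem_univ, true_and]
    exact ⟨fun hk => hE.trans (hE.symm h) hk, fun hk => hE.trans h hk⟩

theorem exists_clusters (y : Fin 12 → ℂ) (t : ℕ → ℝ) (ht : ∀ r, 0 ≤ t r)
    (hm : ∀ r, t (r + 1) ≤ t r) :
    ∃ lab : ℕ → Fin 12 → Fin 12, (∀ r i j, lab (r + 1) i = lab (r + 1) j → lab r i = lab r j) ∧
      (∀ r i j, ‖y i - y j‖ ≤ t r → lab r i = lab r j) ∧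
      ∀ r i j, lab r i = lab r j → ‖y i - y j‖ ≤ 11 * t r := by
  let G : ℕ → SimpleGraph (Fin 12) := fun r => SimpleGraph.fromRel fun i j => ‖y i - y j‖ ≤ t r
  have hadj : ∀ r i j, (G r).Adj i j → ‖y i - y j‖ ≤ t r := by
    intro r i j h
    rcases ((SimpleGraph.fromRel_adj _ _ _).1 h).2 with h | h
    · exact h
    · rwa [norm_sub_rev]
  choose lab hlab using fun r => exists_lab_of_equiv (G r).Reachable
    ⟨SimpleGraph.Reachable.refl, SimpleGraph.Reachable.symm, SimpleGraph.Reachable.trans⟩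
  refine ⟨lab, fun r i j h => (hlab r i j).2 (((hlab _ i j).1 h).mono fun a b hab => ?_),
    fun r i j h => (hlab r i j).2 ?_, fun r i j h => ?_⟩
  · exact (SimpleGraph.fromRel_adj _ _ _).2 ⟨hab.ne, Or.inl ((hadj _ _ _ hab).trans (hm r))⟩
  · by_cases hij : i = j
    · rw [hij]
    · exact SimpleGraph.Adj.reachable ((SimpleGraph.fromRel_adj _ _ _).2 ⟨hij, Or.inl h⟩)
  · have hw : ∀ {i j} (p : (G r).Walk i j), ‖y i - y j‖ ≤ p.length * t r := by
      intro i j p
      induction p with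
      | nil => simp
      | cons h p ih =>
        rename_i a b c
        have := norm_sub_le_norm_sub_add_norm_sub (y a) (y b) (y c)
        have := hadj _ _ _ h
        simp only [SimpleGraph.Walk.length_cons]
        push_cast
        linarith
    refine ((hlab r i j).1 h).elim_path fun p => (hw p.1).trans ?_
    have := p.2.length_lt
    rw [Fintype.card_fin] at this
    exact mul_le_mul_of_nonneg_right (by exact_mod_cast Nat.lt_succ_iff.1 this) (ht r)

end Pool.Agent.P.MP_7ede32_ag.N
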