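import Pool.Agent.P.MP_7ede32_ag.NArch1

namespace Pool.Agent.P.MP_7ede32_ag.N

open Finset Matrix

/-- the archimedean order function -/
noncomputable def archM : MOrd ℂ where
  ord z := -Real.log ‖z‖
  ord_mul x y hx hy := by
    rw [norm_mul, Real.log_mul (norm_ne_zero_iff.2 hx) (norm_ne_zero_iff.2 hy)]; ring

theorem Th_arch0 (B0 : ℝ) : ∃ C : ℝ, 0 ≤ C ∧ ∀ (e1 e2 : Bool) {a b c d : Fin 12}, c ≠ d →
    ∀ (l : ℝ), 0 ≤ l → ∀ (y w : Fin 12 → ℂ) (lab : ℕ → Fin 12 → Fin 12),
    (∀ r i j, lab (r + 1) i = lab (r + 1) j → lab r i = lab r j) →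
    (∀ i j, lab 0 i = lab 0 j) →
    (∀ (r : ℕ) i j, lab r i = lab r j → ‖y i - y j‖ ≤ B0 * Real.exp (-l * r) ∧
      ‖w i - w j‖ ≤ B0 * Real.exp (-l * r)) → ∀ R : ℕ,
    ‖Th e1 e2 a b c d y w‖ ≤ Real.exp (C + ∑ r ∈ range R, (C - l *
      (((∑ x, ∑ k ∈ range (csz (fun i => lab (r + 1) (pt e1 e2 a b c d i)) x), wL k) +
        -1 * nD e1 e2 : ℤ) : ℝ))) := by
  classical
  obtain ⟨B, hB1, hB⟩ := exists_bd B0
  set M : ℝ := Fintype.card (Equiv.Perm (Fin 12)) * B ^ 12 with hM
  set M' : ℝ := Fintype.card (Fin 12 → Fin 12) * B ^ 12 with hM'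
  have hM1 : 1 ≤ M := one_le_mul_of_one_le_of_one_le
    (by exact_mod_cast Fintype.card_pos) (one_le_pow₀ hB1)
  have hM1' : 1 ≤ M' := one_le_mul_of_one_le_of_one_le
    (by exact_mod_cast Fintype.card_pos) (one_le_pow₀ hB1)
  refine ⟨Real.log M + Real.log M', add_nonneg (Real.log_nonneg hM1) (Real.log_nonneg hM1'),
    fun e1 e2 a b c d hcd l hl y w lab hmono h0 hlab R => ?_⟩
  set pt := pt e1 e2 a b c d with hpt
  set p : ℂ := ((Real.exp (-l) : ℝ) : ℂ) with hp
  have hp0 : p ≠ 0 := by rw [hp]; exact_mod_cast (Real.exp_pos _).ne'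
  have hpn : ∀ r : ℕ, ‖p ^ r‖ = Real.exp (-l * r) := fun r => by
    rw [norm_pow, hp, Complex.norm_real, Real.norm_of_nonneg (Real.exp_pos _).le, mul_comm,
      Real.exp_nat_mul]
  have hdiv : ∀ (r : ℕ) (z : ℂ), ‖z‖ ≤ B0 * Real.exp (-l * r) → ‖z / p ^ r‖ ≤ B0 := fun r z h => by
    rw [norm_div, hpn, div_le_iff₀ (Real.exp_pos _)]; exact h
  let sg : (Fin 12 → ℂ) → ℕ → Fin 12 → ℂ := fun y r i => (y i - y (cen (lab r) i)) / p ^ r
  let be : (Fin 12 → ℂ) → ℕ → Fin 12 → ℂ := fun y r i =>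
    (y (cen (lab (r + 1)) i) - y (cen (lab r) i)) / p ^ r
  have hsg : ∀ r i, ‖sg y r i‖ ≤ B0 ∧ ‖sg w r i‖ ≤ B0 := fun r i =>
    ⟨hdiv _ _ (hlab r _ _ (cen_lab (lab r) i).symm).1,
      hdiv _ _ (hlab r _ _ (cen_lab (lab r) i).symm).2⟩
  have hbe : ∀ r i, ‖be y r i‖ ≤ B0 ∧ ‖be w r i‖ ≤ B0 := fun r i =>
    have := hlab r _ _ ((hmono r _ _ (cen_lab (lab (r + 1)) i)).trans (cen_lab (lab r) i).symm)
    ⟨hdiv _ _ this.1, hdiv _ _ this.2⟩
  have hrel : ∀ y r i, sg y r i = p * sg y (r + 1) i + be y r i := fun y r i => by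
    simp only [sg, be]
    field_simp
    ring
  let U : ℕ → Fin 12 → Matrix (Fin 12) (Fin 12) ℂ := fun r i => A12 1 (be y r i) 1 0 (be w r i)
  have hU : ∀ r i j, lab (r + 1) i = lab (r + 1) j → U r i = U r j := fun r i j h => by
    simp only [U, be, cen_congr _ h, cen_congr _ (hmono r i j h)]
  have key := towerR (fun r i => lab r (pt i)) (fun r i j h => hmono r _ _ h)
    (fun r => row e1 e2 a b c d (sg y r) (sg w r))
    (fun w => ∀ i k, ‖w i k‖ ≤ B)
    (fun r i k => by
      unfold row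
      split_ifs
      · exact (hB _ _ (hsg r _).1 (hsg r _).2).2.1 k
      · exact (hB _ _ (hsg r _).1 (hsg r _).2).1 k)
    (fun r i => zoomL (U r (pt i)) 1 1 (fun k => p ^ deg12 k))
    (fun r i j h => by simp only [hU r _ _ h])
    (fun i => if isD e1 e2 c d i then p⁻¹ else 1) (l * nD e1 e2)
    (by
      rw [prod_isD e1 e2 hcd, inv_pow, norm_inv, hpn, ← Real.exp_neg]
      exact le_of_eq (by ring_nf))
    (fun r i => by
      simp only [row, ← hpt]
      split_ifs with hi
      · rw [zoomL_apply', zoomId, Matrix.mulVec_smul, A12_dmon, one_smul, smul_smul,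
          inv_mul_cancel₀ hp0, one_smul, hrel y r, hrel w r]
        simp
      · rw [one_smul, zoomL_apply', zoomI, A12_mon, hrel y r, hrel w r]
        simp)
    (fun r => Real.log M' - l *
      ((∑ x, ∑ k ∈ range (csz (fun i => lab (r + 1) (pt i)) x), wL k : ℤ) : ℝ))
    (fun r φ h1 h2 v hv => by
      simp only [zoomL_apply]
      refine (stepR φ (fun i j => lab (r + 1) (pt i) = lab (r + 1) (pt j)) h1 _ h2
        (fun i k => (U r (pt i)).mulVec ((1 : Matrix (Fin 12) (Fin 12) ℂ) k))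
        (fun i j h => by simp only [hU r _ _ h])
        (fun i k => p ^ deg12 k * (1 : Matrix (Fin 12) (Fin 12) ℂ).mulVec (v i) k)
        (B ^ 12 * Real.exp (-l *
          ((∑ x, ∑ k ∈ range (csz (fun i => lab (r + 1) (pt i)) x), wL k : ℤ) : ℝ)))
        (by positivity) fun f hf => ⟨fun i k => ?_, ?_⟩).trans (le_of_eq ?_)
      · have : (U r (pt i)).mulVec ((1 : Matrix (Fin 12) (Fin 12) ℂ) (f i)) k =
            U r (pt i) k (f i) := by
          simp [Matrix.mulVec, dotProduct, Matrix.one_apply]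
        exact (congrArg norm this).trans_le ((hB _ _ (hbe r _).1 (hbe r _).2).2.2 _ _)
      · rw [norm_prod]
        have h3 : ∀ i, ‖p ^ deg12 (f i) * (1 : Matrix (Fin 12) (Fin 12) ℂ).mulVec (v i) (f i)‖ ≤
            B * Real.exp (-l * deg12 (f i)) := fun i => by
          rw [norm_mul, hpn, Matrix.one_mulVec, mul_comm]
          exact mul_le_mul_of_nonneg_right (hv _ _) (Real.exp_pos _).le
        refine (Finset.prod_le_prod (fun i _ => norm_nonneg _) fun i _ => h3 i).trans ?_
        rw [Finset.prod_mul_distrib, ← Real.exp_sum, ← Finset.mul_sum]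
        simp only [prod_const, card_univ, Fintype.card_fin]
        refine mul_le_mul_of_nonneg_left (Real.exp_le_exp.2 ?_) (by positivity)
        refine mul_le_mul_of_nonpos_left ?_ (by linarith)
        have h4 : (∑ x, ∑ k ∈ range (csz (fun i => lab (r + 1) (pt i)) x), wL k) ≤
            ∑ i, wL (rk12 (f i)) := by
          rw [← Finset.sum_fiberwise (s := univ) (g := fun i => lab (r + 1) (pt i))
            (f := fun i => wL (rk12 (f i)))]
          refine Finset.sum_le_sum fun x _ => ?_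
          exact sum_range_le_of_inj wL wL_mono (univ.filter fun i => lab (r + 1) (pt i) = x)
            (fun i => rk12 (f i)) fun i hi j hj hij h =>
              hf i j hij ((mem_filter.1 hi).2.trans (mem_filter.1 hj).2.symm) (rk12_inj h)
        simp only [wL_rk] at h4
        exact_mod_cast h4
      · rw [Real.exp_sub, Real.exp_log (by linarith), hM', neg_mul, Real.exp_neg]
        ring)
    R 0 (((M⁻¹ : ℝ) : ℂ) • detM ℂ 12)
    (fun w i j hij _ h => by
      rw [_root_.smul_apply, detM_alt w hij h, smul_zero])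
    (fun w hw => by
      rw [_root_.smul_apply, norm_smul, Complex.norm_real,
        Real.norm_of_nonneg (by positivity), inv_mul_le_iff₀ (by linarith), mul_one]
      exact det_bd B w hw)
  have hc : ∀ i, cen (lab 0) i = cen (lab 0) 0 := fun i => cen_congr _ (h0 i 0)
  have h3 : detM ℂ 12 (row e1 e2 a b c d (sg y 0) (sg w 0)) = Th e1 e2 a b c d y w := by
    have := Th_affine e1 e2 (a := a) (b := b) hcd y w 1 (-y (cen (lab 0) 0)) 1 0
      (-w (cen (lab 0) 0))
    simp only [one_pow, one_mul, zero_mul, add_zero] at this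
    rw [← this]
    unfold Th
    congr 2
    · funext i
      simp only [sg, hc i, pow_zero, div_one, sub_eq_add_neg]
    · funext i
      simp only [sg, hc i, pow_zero, div_one, sub_eq_add_neg]
  rw [_root_.smul_apply, h3, norm_smul, Complex.norm_real,
    Real.norm_of_nonneg (by positivity), inv_mul_le_iff₀ (by linarith)] at key
  refine key.trans ?_
  conv_lhs => rw [← Real.exp_log (show 0 < M by linarith)]
  rw [← Real.exp_add]
  refine Real.exp_le_exp.2 (add_le_add (le_add_of_nonneg_right (Real.log_nonneg hM1'))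
    (Finset.sum_le_sum fun r _ => ?_))
  have := Real.log_nonneg hM1
  simp only [zero_add]
  push_cast
  linarith

theorem arch0 (B0 δ : ℝ) (hB0 : 1 ≤ B0) (hδ : 0 < δ) : ∃ C : ℝ, ∀ (e1 e2 : Bool)
    (y w : Fin 12 → ℂ), Function.Injective y → Gd e1 e2 y w → (∀ i, ‖y i‖ ≤ 1) →
    (∀ i j, ‖w i - w j‖ ≤ B0 * ‖y i - y j‖) →
    (∀ i, (univ.filter fun j => ‖y i - y j‖ ≤ δ).card ≤ 6) → -C ≤ archM.del e1 e2 y w := by
  classical
  obtain ⟨C, hC0, hC⟩ := Th_arch0 (22 * B0)
  obtain ⟨l, hl0, hl1, hl2⟩ : ∃ l : ℝ, 0 < l ∧ 11880 * C ≤ l ∧ 22 * Real.exp (-l) ≤ δ := by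
    refine ⟨max (max 1 (11880 * C)) (-Real.log (δ / 22)), lt_max_of_lt_left (by simp),
      le_max_of_le_left (le_max_right _ _), ?_⟩
    rw [← le_div_iff₀' (by norm_num), ← Real.le_log_iff_exp_le (by positivity), neg_le]
    exact le_max_right _ _
  refine ⟨11880 * C + 2700 * 132 * l, fun e1 e2 y w hy hG h1 h2 h6 => ?_⟩
  have hanti : ∀ r s : ℕ, r ≤ s → Real.exp (-l * s) ≤ Real.exp (-l * r) := fun r s h =>
    Real.exp_le_exp.2 (mul_le_mul_of_nonpos_left (by exact_mod_cast h) (by linarith))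
  obtain ⟨lab, hmono, hin, hout⟩ := exists_clusters y (fun r => 2 * Real.exp (-l * r))
    (fun r => by positivity) (fun r => by have := hanti r (r + 1) (by omega); linarith)
  have hd : ∀ i j, i ≠ j → 0 < ‖y i - y j‖ := fun i j hij =>
    norm_pos_iff.2 (sub_ne_zero.2 fun h => hij (hy h))
  have hex : ∃ N : ℕ, ∀ i j, lab (N + 1) i = lab (N + 1) j → i = j := by
    have h3 : Filter.Tendsto (fun r : ℕ => 11 * (2 * Real.exp (-l * (r + 1 : ℕ)))) Filter.atTop
        (nhds (11 * (2 * 0))) := by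
      refine ((Real.tendsto_exp_atBot.comp ?_).const_mul 2).const_mul 11
      exact Filter.Tendsto.const_mul_atTop_of_neg (by linarith)
        (tendsto_natCast_atTop_atTop.comp (Filter.tendsto_add_atTop_nat 1))
    simp only [mul_zero] at h3
    have h4 : ∀ᶠ r : ℕ in Filter.atTop, ∀ q : Fin 12 × Fin 12, q.1 ≠ q.2 →
        11 * (2 * Real.exp (-l * (r + 1 : ℕ))) < ‖y q.1 - y q.2‖ := by
      refine Filter.eventually_all.2 fun q => ?_
      by_cases hq : q.1 = q.2
      · simp [hq]
      · exact (h3.eventually (gt_mem_nhds (hd _ _ hq))).mono fun r h _ => h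
    obtain ⟨N, hN⟩ := h4.exists
    refine ⟨N, fun i j h => ?_⟩
    by_contra hij
    exact absurd (hout _ i j h) (not_le.2 (hN (i, j) hij))
  set N := Nat.find hex with hN
  have hc : ∀ r x, csz (lab (r + 1)) x ≤ 6 := by
    intro r x
    unfold csz
    rcases (univ.filter fun i => lab (r + 1) i = x).eq_empty_or_nonempty with h | ⟨i, hi⟩
    · rw [h]; simp
    · refine le_trans (Finset.card_le_card fun j hj => ?_) (h6 i)
      have h3 := hout _ i j ((mem_filter.1 hi).2.trans (mem_filter.1 hj).2.symm)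
      have h4 := hanti 1 (r + 1) (by omega)
      simp only [mem_filter, mem_univ, true_and]
      simp only [Nat.cast_one, mul_one] at h4
      linarith
  have hlev : ∀ r ∈ range N, cJ e1 e2 * (∑ x, (csz (lab (r + 1)) x : ℤ) *
      (csz (lab (r + 1)) x - 1)) + 1 ≤ sumQ (fun a b c d =>
      (∑ x, ∑ k ∈ range (csz (fun i => lab (r + 1) (pt e1 e2 a b c d i)) x), wL k) +
        -1 * nD e1 e2) := by
    intro r hr
    have h3 := level_eq wL wL 1 e1 e2 (lab (r + 1))
    simp only [ite_self] at h3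
    rw [h3]
    have h4 := Nat.find_min hex (mem_range.1 hr)
    push Not at h4
    obtain ⟨i, j, h5, hij⟩ := h4
    have h7 : 2 ≤ csz (lab (r + 1)) (lab (r + 1) i) := by
      unfold csz
      rw [← card_pair hij]
      exact Finset.card_le_card
        (by intro k hk; simp at hk ⊢; rcases hk with h | h <;> simp [h, h5])
    have h8 : (1 : ℤ) ≤ ∑ x, (if 2 ≤ csz (lab (r + 1)) x then (1 : ℤ) else 0) := by
      refine le_trans ?_ (Finset.single_le_sum (f := fun x =>
        if 2 ≤ csz (lab (r + 1)) x then (1 : ℤ) else 0) (fun x _ => by split_ifs <;> norm_num)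
        (mem_univ (lab (r + 1) i)))
      simp [h7]
    refine le_trans (add_le_add le_rfl h8) ?_
    rw [Finset.mul_sum, ← Finset.sum_add_distrib]
    exact Finset.sum_le_sum fun x _ =>
      lpL e1 e2 ⟨csz (lab (r + 1)) x, by have := hc r x; omega⟩
  have hnu : archM.nu y ≤ l * (132 + ∑ r ∈ range N, ((∑ x, (csz (lab (r + 1)) x : ℤ) *
      (csz (lab (r + 1)) x - 1) : ℤ) : ℝ)) := by
    simp only [← pairs_count]
    push_cast
    rw [Finset.sum_comm (s := range N)]
    simp only [Finset.sum_comm (s := range N)]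
    have h3 : (132 : ℝ) = ∑ i : Fin 12, ∑ j : Fin 12, if i = j then 0 else 1 := by
      have : ∀ i j : Fin 12, (if i = j then (0 : ℝ) else 1) = 1 - if i = j then 1 else 0 := by
        intro i j; split_ifs <;> simp
      simp only [this, sum_sub_distrib]
      simp
      norm_num
    rw [h3, ← Finset.sum_add_distrib, Finset.mul_sum]
    refine Finset.sum_le_sum fun i _ => ?_
    rw [← Finset.sum_add_distrib, Finset.mul_sum]
    refine Finset.sum_le_sum fun j _ => ?_
    by_cases hij : i = j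
    · simp [hij]
    simp only [hij, if_false]
    have hex' : ∃ k : ℕ, lab (k + 1) i ≠ lab (k + 1) j :=
      ⟨N, fun h => hij (Nat.find_spec hex i j h)⟩
    have h4 : Nat.find hex' ≤ N := Nat.find_min' hex' fun h => hij (Nat.find_spec hex i j h)
    have h5 : 2 * Real.exp (-l * (Nat.find hex' + 1 : ℕ)) < ‖y i - y j‖ :=
      not_le.1 fun h => Nat.find_spec hex' (hin _ i j h)
    have h7 : (Nat.find hex' : ℝ) ≤
        ∑ r ∈ range N, if lab (r + 1) i = lab (r + 1) j then (1 : ℝ) else 0 := by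
      rw [Finset.sum_boole]
      have : range (Nat.find hex') ⊆ (range N).filter fun r => lab (r + 1) i = lab (r + 1) j :=
        fun r hr => mem_filter.2 ⟨mem_range.2 (lt_of_lt_of_le (mem_range.1 hr) h4),
          not_not.1 (Nat.find_min hex' (mem_range.1 hr))⟩
      have := Finset.card_le_card this
      rw [card_range] at this
      exact_mod_cast this
    have h8 : -l * (Nat.find hex' + 1 : ℕ) ≤ Real.log ‖y i - y j‖ := by
      rw [Real.le_log_iff_exp_le (hd i j hij)]
      have := Real.exp_pos (-l * (Nat.find hex' + 1 : ℕ))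
      linarith
    change -Real.log ‖y i - y j‖ ≤ _
    push_cast at h8
    nlinarith
  have hTh : sumR (fun a b c d => -C + ∑ r ∈ range N, (-C + l *
      (((∑ x, ∑ k ∈ range (csz (fun i => lab (r + 1) (pt e1 e2 a b c d i)) x), wL k) +
        -1 * nD e1 e2 : ℤ) : ℝ))) ≤ sumR (fun a b c d => archM.ord (Th e1 e2 a b c d y w)) := by
    refine sumR_mono fun a b c d h => ?_
    have h3 := hC e1 e2 (a := a) (b := b) h.2.2.2.2.2 l hl0.le y w lab hmono
      (fun i j => hin 0 i j (by
        have := norm_sub_le (y i) (y j)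
        have := h1 i
        have := h1 j
        simp only [Nat.cast_zero, mul_zero, Real.exp_zero]
        linarith))
      (fun r i j h => by
        have h4 := hout r i j h
        have h5 := h2 i j
        have h7 := Real.exp_pos (-l * r)
        constructor <;> nlinarith) N
    rw [← Real.log_le_iff_le_exp (norm_pos_iff.2 (hG a b c d h))] at h3
    change _ ≤ -Real.log _
    simp only [sum_add_distrib, sum_sub_distrib, sum_neg_distrib] at h3 ⊢
    linarith
  rw [sumR_add, sumR_const, sumR_sum] at hTh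
  have h9 : ∑ r ∈ range N, l * (cJ e1 e2 * ((∑ x, (csz (lab (r + 1)) x : ℤ) *
      (csz (lab (r + 1)) x - 1) : ℤ) : ℝ)) ≤ ∑ r ∈ range N, sumR (fun a b c d => -C + l *
      (((∑ x, ∑ k ∈ range (csz (fun i => lab (r + 1) (pt e1 e2 a b c d i)) x), wL k) +
        -1 * nD e1 e2 : ℤ) : ℝ)) := by
    refine Finset.sum_le_sum fun r hr => ?_
    rw [sumR_add, sumR_const, sumR_mul, sumR_cast]
    have h10 : ((cJ e1 e2 * (∑ x, (csz (lab (r + 1)) x : ℤ) *
      (csz (lab (r + 1)) x - 1)) + 1 : ℤ) : ℝ) ≤ _ := Int.cast_le.2 (hlev r hr)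
    rw [Int.cast_add, Int.cast_mul, Int.cast_one] at h10
    nlinarith
  have h10 : (0 : ℝ) ≤ cJ e1 e2 ∧ (cJ e1 e2 : ℝ) ≤ 2700 := by
    cases e1 <;> cases e2 <;> simp [cJ, nD] <;> norm_num
  rw [← Finset.mul_sum, ← Finset.mul_sum] at h9
  unfold MOrd.del
  have h11 := mul_le_mul_of_nonneg_left hnu h10.1
  nlinarith

end Pool.Agent.P.MP_7ede32_ag.N
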