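import Pool.Agent.P.MP_7ede32_ag.NArch2

namespace Pool.Agent.P.MP_7ede32_ag.N

open Finset

section
variable {K : Type*} [Field K] {ι : Type*}

/-- difference quotient -/
def th (x w : ι → K) (i j : ι) : K := (w i - w j) / (x i - x j)

/-- logarithmic derivative of a cross ratio -/
def lam (x w : ι → K) (i j k l : ι) : K := th x w i j + th x w k l - th x w i k - th x w j l

theorem th_affine (x w : ι → K) (a b g : K) (i j : ι) :
    th (fun i => a * x i + b) (fun i => g * w i + 0 * x i + 0) i j = g / a * th x w i j := by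
  unfold th
  rw [show a * x i + b - (a * x j + b) = a * (x i - x j) by ring, div_mul_div_comm]
  congr 1
  ring

theorem th_inv {x : ι → K} (w : ι → K) {i j : ι} (hi : x i ≠ 0) (hj : x j ≠ 0)
    (hij : x i - x j ≠ 0) :
    th (fun i => (x i)⁻¹) (fun i => -w i / x i ^ 2) i j = th x w i j - w i / x i - w j / x j := by
  unfold th
  have : x j - x i ≠ 0 := fun h => hij (by linear_combination -h)
  rw [inv_sub_inv hi hj]
  field_simp
  ring

theorem th_quad {x : ι → K} (w : ι → K) (q0 q1 q2 : K) {i j : ι} (hij : x i - x j ≠ 0) :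
    th x (fun i => w i + q2 * x i ^ 2 + q1 * x i + q0) i j =
      th x w i j + q1 + q2 * x i + q2 * x j := by
  unfold th
  field_simp
  ring

theorem exists_quad {s1 s2 s3 : K} (h12 : s1 - s2 ≠ 0) (h13 : s1 - s3 ≠ 0) (h23 : s2 - s3 ≠ 0)
    (w1 w2 w3 : K) : ∃ q0 q1 q2 : K, w1 + q2 * s1 ^ 2 + q1 * s1 + q0 = 0 ∧
      w2 + q2 * s2 ^ 2 + q1 * s2 + q0 = 0 ∧ w3 + q2 * s3 ^ 2 + q1 * s3 + q0 = 0 := by
  set q2 := -((w1 - w2) / (s1 - s2) - (w1 - w3) / (s1 - s3)) / (s2 - s3) with hq2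
  set q1 := -(w1 - w2) / (s1 - s2) - q2 * (s1 + s2) with hq1
  refine ⟨-(w1 + q2 * s1 ^ 2 + q1 * s1), q1, q2, by ring, ?_, ?_⟩
  · rw [hq1]; field_simp; ring
  · rw [hq1, hq2]; field_simp; ring

end

theorem exists_ballC (x : Fin 12 → ℂ) (hx : Function.Injective x) :
    ∃ (r : ℝ) (c : Fin 12), 0 < r ∧ 7 ≤ (univ.filter fun j => ‖x c - x j‖ ≤ r).card ∧
      ∀ i, (univ.filter fun j => ‖x i - x j‖ ≤ r / 2).card ≤ 6 := by
  classical
  have hfar : ∀ i (t : ℝ), 7 ≤ (univ.filter fun j => ‖x i - x j‖ ≤ t).card →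
      ∃ k, ‖x i - x k‖ ≤ t ∧ 7 ≤ (univ.filter fun j => ‖x i - x j‖ ≤ ‖x i - x k‖).card := by
    intro i t h
    obtain ⟨k, hk, hmax⟩ := Finset.exists_max_image (univ.filter fun j => ‖x i - x j‖ ≤ t)
      (fun j => ‖x i - x j‖) (Finset.card_pos.1 (by omega))
    exact ⟨k, (mem_filter.1 hk).2, h.trans (Finset.card_le_card fun j hj =>
      mem_filter.2 ⟨mem_univ _, hmax j hj⟩)⟩
  obtain ⟨q, hq, hmin⟩ := Finset.exists_min_image (univ.filter fun q : Fin 12 × Fin 12 =>
    7 ≤ (univ.filter fun j => ‖x q.1 - x j‖ ≤ ‖x q.1 - x q.2‖).card)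
    (fun q => ‖x q.1 - x q.2‖) (by
      obtain ⟨k, _, hk⟩ := hfar 0 (∑ j, ‖x 0 - x j‖) (by
        rw [Finset.filter_true_of_mem fun j _ => Finset.single_le_sum
          (f := fun j => ‖x 0 - x j‖) (fun _ _ => norm_nonneg _) (mem_univ j)]
        simp)
      exact ⟨(0, k), mem_filter.2 ⟨mem_univ _, hk⟩⟩)
  have h7 := (mem_filter.1 hq).2
  have hr : 0 < ‖x q.1 - x q.2‖ := by
    refine lt_of_le_of_ne (norm_nonneg _) fun h => ?_
    have : (univ.filter fun j => ‖x q.1 - x j‖ ≤ ‖x q.1 - x q.2‖) ⊆ {q.1} := by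
      intro j hj
      have := (mem_filter.1 hj).2
      rw [← h, norm_le_zero_iff, sub_eq_zero] at this
      simp [hx this]
    have := Finset.card_le_card this
    simp only [card_singleton] at this
    omega
  refine ⟨_, q.1, hr, h7, fun i => ?_⟩
  by_contra h
  obtain ⟨k, hk1, hk2⟩ := hfar i _ (not_le.1 h)
  have := hmin (i, k) (mem_filter.2 ⟨mem_univ _, hk2⟩)
  simp only at this
  linarith

theorem exists_shiftC (z : Fin 12 → ℂ) : ∃ m : ℂ, ‖m‖ ≤ 36 ∧ ∀ i, 1 ≤ ‖z i - m‖ := by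
  classical
  by_contra h
  push Not at h
  have h1 : ∀ m : Fin 13, ∃ i, ‖z i - ((3 * m.val : ℝ) : ℂ)‖ < 1 := by
    intro m
    refine h _ ?_
    rw [Complex.norm_real, Real.norm_of_nonneg (by positivity)]
    have : (m.val : ℝ) ≤ 12 := by exact_mod_cast Nat.lt_succ_iff.1 m.2
    linarith
  choose f hf using h1
  obtain ⟨m, m', hne, hmm⟩ := Fintype.exists_ne_map_eq_of_card_lt f (by simp)
  have h2 := hf m
  have h3 := hf m'
  rw [← hmm] at h3
  have h4 := norm_sub_le (z (f m) - ((3 * m.val : ℝ) : ℂ)) (z (f m) - ((3 * m'.val : ℝ) : ℂ))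
  rw [sub_sub_sub_cancel_left, ← Complex.ofReal_sub, Complex.norm_real, Real.norm_eq_abs] at h4
  have h5 : |(3 * m'.val : ℝ) - 3 * m.val| < 2 := by linarith
  rw [abs_lt] at h5
  have h6 : (3 * m'.val : ℤ) - 3 * m.val < 2 := by exact_mod_cast h5.2
  have h7 : -2 < (3 * m'.val : ℤ) - 3 * m.val := by exact_mod_cast h5.1
  exact hne (Fin.ext (by omega))

theorem arch_bound : ∃ C : ℝ, ∀ (e1 e2 : Bool) (x w : Fin 12 → ℂ), Function.Injective x →
    Gd e1 e2 x w → ∀ Λ : ℝ, 1 ≤ Λ →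
    (∀ i j k l, i ≠ j → i ≠ k → i ≠ l → j ≠ k → j ≠ l → k ≠ l → ‖lam x w i j k l‖ ≤ Λ) →
    -C - 95040 * Real.log Λ ≤ archM.del e1 e2 x w := by
  classical
  obtain ⟨C, hC⟩ := arch0 40001 (1 / 10000) (by norm_num) (by norm_num)
  refine ⟨C, fun e1 e2 x w hx hG Λ hΛ hlam => ?_⟩
  obtain ⟨r, c, hr, h7, h6⟩ := exists_ballC x hx
  set a : ℂ := ((r⁻¹ : ℝ) : ℂ) with ha
  set g : ℂ := a * ((Λ⁻¹ : ℝ) : ℂ) with hg
  have hna : ‖a‖ = r⁻¹ := by rw [ha, Complex.norm_real, Real.norm_of_nonneg (by positivity)]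
  have ha0 : a ≠ 0 := norm_pos_iff.1 (by rw [hna]; positivity)
  have hΛ0 : ((Λ⁻¹ : ℝ) : ℂ) ≠ 0 := by exact_mod_cast (by positivity : Λ⁻¹ ≠ 0)
  have hnΛ : ‖((Λ⁻¹ : ℝ) : ℂ)‖ = Λ⁻¹ := by
    rw [Complex.norm_real, Real.norm_of_nonneg (by positivity)]
  obtain ⟨m, hm36, hm⟩ := exists_shiftC (fun i => a * (x i - x c))
  set z : Fin 12 → ℂ := fun i => a * x i + (-(a * x c) - m) with hz
  have hz1 : ∀ i, z i = a * (x i - x c) - m := fun i => by simp only [hz]; ring
  have hz2 : ∀ i, 1 ≤ ‖z i‖ := fun i => by rw [hz1]; exact hm i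
  have hz0 : ∀ i, z i ≠ 0 := fun i => norm_pos_iff.1 (by linarith [hz2 i])
  have hd : ∀ i j, i ≠ j → x i - x j ≠ 0 := fun i j hij => sub_ne_zero.2 fun h => hij (hx h)
  have hzd : ∀ i j, z i - z j = a * (x i - x j) := fun i j => by simp only [hz]; ring
  have hzd0 : ∀ i j, i ≠ j → z i - z j ≠ 0 := fun i j hij => by
    rw [hzd]; exact mul_ne_zero ha0 (hd i j hij)
  have hzi : Function.Injective z := fun i j h => by
    by_contra hij
    exact hzd0 i j hij (sub_eq_zero.2 h)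
  obtain ⟨hG1, hd1⟩ := del_affine archM hx hG ha0 (mul_ne_zero ha0 hΛ0) (-(a * x c) - m) 0 0
  obtain ⟨hG2, hd2⟩ := del_inv archM hzi hz0 hG1
  set y : Fin 12 → ℂ := fun i => (z i)⁻¹ with hy
  set w1 : Fin 12 → ℂ := fun i => g * w i + 0 * x i + 0 with hw1
  set w2 : Fin 12 → ℂ := fun i => -w1 i / z i ^ 2 with hw2
  have hyi : Function.Injective y := fun i j h => hzi (inv_injective h)
  have hyd : ∀ i j, i ≠ j → y i - y j ≠ 0 := fun i j hij => sub_ne_zero.2 fun h => hij (hyi h)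
  have hy1 : ∀ i, ‖y i‖ ≤ 1 := fun i => by
    simp only [hy, norm_inv]; exact inv_le_one_of_one_le₀ (hz2 i)
  have hy2 : ∀ i j, ‖y i - y j‖ ≤ 2 := fun i j => by
    have := norm_sub_le (y i) (y j)
    have := hy1 i
    have := hy1 j
    linarith
  have hcl : ∀ i, (univ.filter fun j => ‖y i - y j‖ ≤ 1 / 10000).card ≤ 6 := by
    intro i
    by_contra hlt
    push Not at hlt
    obtain ⟨i0, hi0⟩ := Finset.inter_nonempty_of_card_lt_card_add_card (Finset.subset_univ _)
      (Finset.subset_univ _)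
      (show (univ : Finset (Fin 12)).card <
        (univ.filter fun j => ‖y i - y j‖ ≤ 1 / 10000).card +
        (univ.filter fun j => ‖x c - x j‖ ≤ r).card by
          rw [card_univ, Fintype.card_fin]; omega)
    obtain ⟨hi1, hi2⟩ := Finset.mem_inter.1 hi0
    have hi3 : ‖z i0‖ ≤ 37 := by
      rw [hz1]
      have h1 := norm_sub_le (a * (x i0 - x c)) m
      have h2 := (mem_filter.1 hi2).2
      rw [norm_mul, hna, norm_sub_rev (x i0)] at h1
      have h3 : r⁻¹ * ‖x c - x i0‖ ≤ 1 := by rw [inv_mul_le_iff₀ hr]; linarith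
      linarith
    have : (univ.filter fun j => ‖y i - y j‖ ≤ 1 / 10000) ⊆
        (univ.filter fun j => ‖x i0 - x j‖ ≤ r / 2) := by
      intro j hj
      simp only [mem_filter, mem_univ, true_and]
      have h1 := norm_sub_le (y i - y i0) (y i - y j)
      have h2 := (mem_filter.1 hj).2
      have h3 := (mem_filter.1 hi1).2
      rw [sub_sub_sub_cancel_left] at h1
      have h4 : z i0 - z j = (y j - y i0) * z i0 * z j := by
        simp only [hy]
        have := hz0 i0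
        have := hz0 j
        field_simp
      have h5 : ‖z i0 - z j‖ ≤ 2 / 10000 * 37 * ‖z j‖ := by
        rw [h4, norm_mul, norm_mul]
        gcongr
        linarith
      have h8 := norm_sub_le (z i0) (z i0 - z j)
      rw [sub_sub_cancel] at h8
      have h9 : ‖z i0 - z j‖ ≤ 1 / 2 := by linarith
      rw [hzd, norm_mul, hna, inv_mul_le_iff₀ hr] at h9
      linarith
    have := Finset.card_le_card this
    have := h6 i0
    omega
  obtain ⟨b, hb⟩ : ∃ b, 1 / 10000 < ‖y 0 - y b‖ := by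
    by_contra h
    push Not at h
    have := hcl 0
    rw [Finset.filter_true_of_mem fun j _ => h j] at this
    simp at this
  have hb0 : (0 : Fin 12) ≠ b := by rintro rfl; norm_num at hb
  obtain ⟨e, he⟩ : ∃ e, e ∉ ({0, b} : Finset (Fin 12)) := by
    refine Finset.exists_mem_notMem_of_card_lt_card (s := {0, b}) (t := univ) ?_
      |>.imp fun k hk => hk.2
    have := Finset.card_le_two (a := (0 : Fin 12)) (b := b)
    simp only [card_univ, Fintype.card_fin]; omega
  simp only [mem_insert, mem_singleton, not_or] at he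
  obtain ⟨q0, q1, q2, hq0, hqb, hqe⟩ := exists_quad (hyd _ _ hb0) (hyd _ _ (Ne.symm he.1))
    (hyd _ _ (Ne.symm he.2)) (w2 0) (w2 b) (w2 e)
  obtain ⟨hG3, hd3⟩ := del_quad archM hyi (fun i => inv_ne_zero (hz0 i)) hG2 q0 q1 q2
  set w3 : Fin 12 → ℂ := fun i => w2 i + q2 * y i ^ 2 + q1 * y i + q0 with hw3
  have h30 : w3 0 = 0 := hq0
  have h3b : w3 b = 0 := hqb
  have h3e : w3 e = 0 := hqe
  have hl3 : ∀ i j k l, i ≠ j → i ≠ k → i ≠ l → j ≠ k → j ≠ l → k ≠ l →
      ‖lam y w3 i j k l‖ ≤ 1 := by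
    intro i j k l hij hik hil hjk hjl hkl
    have h1 : ∀ i j, i ≠ j → th y w3 i j = ((Λ⁻¹ : ℝ) : ℂ) * th x w i j - w1 i / z i -
        w1 j / z j + q1 + q2 * y i + q2 * y j := by
      intro i j hij
      rw [hw3, th_quad _ _ _ _ (hyd i j hij), hy, hw2, th_inv _ (hz0 i) (hz0 j) (hzd0 i j hij),
        hz, hw1, th_affine, hg, mul_div_cancel_left₀ _ ha0]
    have h2 : lam y w3 i j k l = ((Λ⁻¹ : ℝ) : ℂ) * lam x w i j k l := by
      unfold lam
      rw [h1 i j hij, h1 k l hkl, h1 i k hik, h1 j l hjl]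
      ring
    rw [h2, norm_mul, hnΛ, inv_mul_le_iff₀ (by linarith), mul_one]
    exact hlam i j k l hij hik hil hjk hjl hkl
  have hth : ∀ i, i ≠ 0 → i ≠ b → ‖th y w3 i 0‖ ≤ 20000 ∧ ‖th y w3 i b‖ ≤ 20000 := by
    intro i hi0 hib
    by_cases hie : i = e
    · simp [th, hie, h30, h3b, h3e]
    have h1 := hl3 i 0 b e hi0 hib hie hb0 (Ne.symm he.1) (Ne.symm he.2)
    have d1 := hyd _ _ hi0
    have d2 := hyd _ _ hib
    have h2 : th y w3 i 0 * (y 0 - y b) = lam y w3 i 0 b e * (y i - y b) := by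
      simp only [lam, th, h30, h3b, h3e]
      field_simp
      ring
    have h3 : th y w3 i b * (y 0 - y b) = lam y w3 i 0 b e * (y i - y 0) := by
      simp only [lam, th, h30, h3b, h3e]
      field_simp
      ring
    have h4 := congrArg norm h2
    have h5 := congrArg norm h3
    rw [norm_mul, norm_mul] at h4 h5
    have h8 := hy2 i b
    have h9 := hy2 i 0
    have := norm_nonneg (lam y w3 i 0 b e)
    have := norm_nonneg (th y w3 i 0)
    have := norm_nonneg (th y w3 i b)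
    have := norm_nonneg (y i - y 0)
    have := norm_nonneg (y i - y b)
    constructor <;> nlinarith
  have hsym : ∀ i j, th y w3 i j = th y w3 j i := fun i j => by
    unfold th; rw [← neg_div_neg_eq, neg_sub, neg_sub]
  have h0b : th y w3 0 b = 0 := by simp [th, h30, h3b]
  have hth2 : ∀ i j, i ≠ j → ‖th y w3 i j‖ ≤ 40001 := by
    intro i j hij
    by_cases hi0 : i = 0
    · subst hi0
      by_cases hjb : j = b
      · rw [hjb, h0b]; norm_num
      · rw [hsym]; linarith [(hth j hij.symm hjb).1]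
    by_cases hib : i = b
    · subst hib
      by_cases hj0 : j = 0
      · rw [hj0, hsym, h0b]; norm_num
      · rw [hsym]; linarith [(hth j hj0 hij.symm).2]
    by_cases hj0 : j = 0
    · rw [hj0]; linarith [(hth i hi0 hib).1]
    by_cases hjb : j = b
    · rw [hjb]; linarith [(hth i hi0 hib).2]
    have h1 := hl3 i j 0 b hij hi0 hib hj0 hjb hb0
    have h2 : th y w3 i j = lam y w3 i j 0 b + th y w3 i 0 + th y w3 j b := by
      unfold lam; rw [h0b]; ring
    rw [h2]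
    have := norm_add₃_le (a := lam y w3 i j 0 b) (b := th y w3 i 0) (c := th y w3 j b)
    linarith [(hth i hi0 hib).1, (hth j hj0 hjb).2]
  have key := hC e1 e2 y w3 hyi hG3 hy1 (fun i j => by
    by_cases hij : i = j
    · simp [hij]
    · have := hth2 i j hij
      rwa [th, norm_div, div_le_iff₀ (norm_pos_iff.2 (hyd i j hij))] at this) hcl
  rw [hd3, hd2, hd1, archM.ord_mul _ _ ha0 hΛ0] at key
  have h1 : archM.ord ((Λ⁻¹ : ℝ) : ℂ) = Real.log Λ := by
    change -Real.log _ = _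
    rw [hnΛ, Real.log_inv, neg_neg]
  rw [h1] at key
  have h2 := Real.log_nonneg hΛ
  have h3 : (0 : ℝ) ≤ nD e1 e2 := Nat.cast_nonneg _
  nlinarith

end Pool.Agent.P.MP_7ede32_ag.N
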