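import Pool.Agent.P.MP_7ede32_ag.Count

namespace Pool.Agent.P.MP_7ede32_ag.N

open Finset

theorem sum_csz (lab : Fin 19 → Fin 3) (F : Fin 3 → ℤ) :
    ∑ j, F (lab j) = ∑ c, (csz lab c : ℤ) * F c := by
  rw [← Finset.sum_fiberwise (s := univ) (g := lab)]
  refine Finset.sum_congr rfl fun c _ => ?_
  rw [Finset.sum_congr rfl (g := fun _ => F c) (fun i hi => by rw [(mem_filter.1 hi).2])]
  simp [csz]

theorem sum_lab (lab : Fin 19 → Fin 3) (M : Fin 3 → Fin 3 → ℤ) (o : Fin 19 → Fin 19 → ℤ)
    (h : ∀ i j, i ≠ j → M (lab i) (lab j) ≤ o i j) :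
    (csz lab 0 : ℤ) + csz lab 1 + csz lab 2 = 19 ∧
      ∑ c, (csz lab c : ℤ) * ((∑ c', (csz lab c' : ℤ) * M c c') - M c c) ≤
        ∑ i, ∑ j, if i = j then 0 else o i j := by
  constructor
  · have := sum_csz lab (fun _ => 1)
    simp only [Fin.sum_univ_three, mul_one] at this
    rw [← this]; simp
  · rw [← sum_csz lab (fun c => (∑ c', (csz lab c' : ℤ) * M c c') - M c c)]
    refine Finset.sum_le_sum fun i _ => ?_
    rw [← sum_csz lab (M (lab i))]
    have : ∀ j, M (lab i) (lab j) - (if i = j then M (lab i) (lab i) else 0) ≤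
        if i = j then 0 else o i j := by
      intro j
      by_cases hij : i = j
      · simp [hij]
      · simpa [hij] using h i j hij
    refine le_trans (le_of_eq ?_) (Finset.sum_le_sum fun j _ => this j)
    simp

theorem sum_const_le (o : Fin 19 → Fin 19 → ℤ) (z : ℤ) (h : ∀ i j, i ≠ j → z ≤ o i j) :
    342 * z ≤ ∑ i, ∑ j, if i = j then 0 else o i j := by
  obtain ⟨h1, h2⟩ := sum_lab (fun _ => 0) (fun _ _ => z) o h
  simp only [Fin.sum_univ_three] at h2
  have h3 : csz (fun _ : Fin 19 => (0 : Fin 3)) 1 = 0 := by simp [csz]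
  have h4 : csz (fun _ : Fin 19 => (0 : Fin 3)) 2 = 0 := by simp [csz]
  have h5 : csz (fun _ : Fin 19 => (0 : Fin 3)) 0 = 19 := by simp [csz]
  rw [h3, h4, h5] at h2
  push_cast at h2
  omega

/-- the combinatorial data of an Abel equation at one place -/
structure AbelData (n : Fin 19 → Fin 19 → ℤ) (e : ℤ) : Prop where
  sym : ∀ i j, n i j = n j i
  ult : ∀ i j k z, i ≠ j → j ≠ k → i ≠ k → z ≤ n i j → z ≤ n j k → z ≤ n i k
  q1 : ∀ i j k l, i ≠ j → i ≠ k → i ≠ l → j ≠ k → j ≠ l → k ≠ l → -1 ≤ e + n i l + n j k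
  q2 : ∀ i j k l, i ≠ j → i ≠ k → i ≠ l → j ≠ k → j ≠ l → k ≠ l →
    n i j + n k l ≠ n i k + n j l → e + n i l + n j k = -1
  q3 : ∀ i j k l, i ≠ j → i ≠ k → i ≠ l → j ≠ k → j ≠ l → k ≠ l →
    n i j + n k l = n i k + n j l → 0 ≤ e + n i l + n j k
  q4 : ∀ i j k l, i ≠ j → i ≠ k → i ≠ l → j ≠ k → j ≠ l → k ≠ l →
    Even (n i j + n k l - n i k - n j l)

theorem AbelData.single {n : Fin 19 → Fin 19 → ℤ} {e : ℤ} (H : AbelData n e) {r : ℤ}
    {a b : Fin 19} (hab : a ≠ b) (h1 : ∀ j, j ≠ a → n a j = r)
    (h2 : ∀ i j, i ≠ j → i ≠ a → j ≠ a → r < n i j) (hP : e + 2 * r ≤ 0) :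
    115 ≤ (∑ i, ∑ j, if i = j then 0 else e + 2 * n i j) ∧
      -57 * (e + 2 * r) + 1 ≤ ∑ i, ∑ j, if i = j then 0 else e + 2 * n i j := by
  classical
  have hc0 : ∀ lab : Fin 19 → Fin 3, (∀ x, lab x = 0 ↔ x = a) → csz lab 0 = 1 := by
    intro lab hl
    simp [csz, hl, Finset.filter_eq']
  by_cases h3 : e + 2 * r = -2
  · let lab : Fin 19 → Fin 3 := fun x =>
      if x = a then 0 else if x = b ∨ r + 1 < n x b then 1 else 2
    have hl0 : ∀ x, lab x = 0 ↔ x = a := by
      intro x; simp only [lab]; split_ifs <;> simp [*]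
    obtain ⟨h4, h5⟩ := sum_lab lab ![![0, -2, -2], ![-2, 2, 0], ![-2, 0, 2]]
      (fun i j => e + 2 * n i j) (by
        intro i j hij
        by_cases hi : i = a
        · have hj : j ≠ a := fun h => hij (hi.trans h.symm)
          have := h1 j hj
          simp only [lab, hi, hj, if_true, if_false]
          split_ifs <;> simp <;> omega
        by_cases hj : j = a
        · have := h1 i hi
          rw [H.sym] at this
          simp only [lab, hi, hj, if_true, if_false]
          split_ifs <;> simp <;> omega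
        have h6 := h2 i j hij hi hj
        simp only [lab, hi, hj, if_false]
        split_ifs with h7 h8 h8
        · have : r + 2 ≤ n i j := by
            by_cases h9 : i = b
            · subst h9
              have := h8.resolve_left hij.symm
              rw [H.sym]; omega
            by_cases h10 : j = b
            · subst h10
              have := h7.resolve_left hij
              omega
            have e1 := h7.resolve_left h9
            have e2 := h8.resolve_left h10
            refine H.ult i b j _ h9 (Ne.symm h10) hij (by omega) ?_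
            rw [H.sym]; omega
          simp; omega
        · simp; omega
        · simp; omega
        · push Not at h7 h8
          have e1 := h2 i b h7.1 hi hab.symm
          have e2 := h2 j b h8.1 hj hab.symm
          have e3 := H.q3 a i b j (Ne.symm hi) hab (Ne.symm hj) h7.1 hij (Ne.symm h8.1)
          rw [h1 i hi, h1 j hj, h1 b hab.symm, H.sym b j] at e3
          simp; omega)
    rw [hc0 lab hl0] at h4
    simp only [Fin.sum_univ_three, hc0 lab hl0] at h5
    simp at h5
    push_cast at h4
    constructor <;> nlinarith [sq_nonneg ((csz lab 1 : ℤ) - csz lab 2)]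
  · obtain ⟨w, hw1, hw2, hw3⟩ : ∃ w : ℤ, (∀ i j, i ≠ j → i ≠ a → j ≠ a → w ≤ e + 2 * n i j) ∧
        115 ≤ 306 * w + 36 * (e + 2 * r) ∧
          -57 * (e + 2 * r) + 1 ≤ 306 * w + 36 * (e + 2 * r) := by
      by_cases h4 : e + 2 * r ≤ -3
      · refine ⟨-(e + 2 * r) - 2, fun i j hij hi hj => ?_, by omega, by omega⟩
        obtain ⟨k, hk⟩ : ∃ k, k ∉ ({a, i, j} : Finset (Fin 19)) := by
          refine Finset.exists_mem_notMem_of_card_lt_card (s := {a, i, j}) (t := univ) ?_
            |>.imp fun k hk => hk.2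
          have := Finset.card_le_three (a := a) (b := i) (c := j)
          simp only [card_univ, Fintype.card_fin]; omega
        simp only [mem_insert, mem_singleton, not_or] at hk
        have := H.q1 a i j k (Ne.symm hi) (Ne.symm hj) (Ne.symm hk.1) hij (Ne.symm hk.2.1)
          (Ne.symm hk.2.2)
        rw [h1 k hk.1] at this
        omega
      · refine ⟨e + 2 * r + 2, fun i j hij hi hj => ?_, by omega, by omega⟩
        have := h2 i j hij hi hj
        omega
    let lab : Fin 19 → Fin 3 := fun x => if x = a then 0 else 1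
    have hl0 : ∀ x, lab x = 0 ↔ x = a := by
      intro x; simp only [lab]; split_ifs <;> simp [*]
    have hl2 : csz lab 2 = 0 := by
      simp only [csz, card_eq_zero, filter_eq_empty_iff, lab]
      intro x _; split_ifs <;> decide
    obtain ⟨h4, h5⟩ := sum_lab lab ![![0, e + 2 * r, 0], ![e + 2 * r, w, 0], ![0, 0, 0]]
      (fun i j => e + 2 * n i j) (by
        intro i j hij
        by_cases hi : i = a
        · have hj : j ≠ a := fun h => hij (hi.trans h.symm)
          have := h1 j hj
          simp only [lab, hi, hj, if_true, if_false]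
          simp; omega
        by_cases hj : j = a
        · have := h1 i hi
          rw [H.sym] at this
          simp only [lab, hi, hj, if_true, if_false]
          simp; omega
        simp only [lab, hi, hj, if_false]
        simpa using hw1 i j hij hi hj)
    rw [hc0 lab hl0, hl2] at h4
    have h6 : (csz lab 1 : ℤ) = 18 := by push_cast at h4; omega
    simp only [Fin.sum_univ_three, hc0 lab hl0, hl2, h6] at h5
    simp at h5
    constructor <;> omega

theorem AbelData.main {n : Fin 19 → Fin 19 → ℤ} {e : ℤ} (H : AbelData n e) {r Y : ℤ}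
    {a b : Fin 19} (hab : a ≠ b) (hr : n a b = r) (hmin : ∀ i j, i ≠ j → r ≤ n i j)
    (y1 : ∀ μ, μ ≤ r → μ ≤ -1 - e - r → μ - 1 ≤ Y ∨ e + 3 * μ ≤ Y)
    (y2 : (∀ i j, i ≠ j → n i j = r) → e + 2 * r = 0 → r ≤ Y)
    (y3 : ∀ i j k l, i ≠ j → i ≠ k → j ≠ k → k ≠ l → e + 2 * r = -1 → n i j = r + 1 →
      n k l = r + 1 → n i k = r → n j k = r → r + 1 ≤ Y) :
    (0 ≤ (∑ i, ∑ j, if i = j then 0 else e + 2 * n i j) + 19 * (e + 2 * Y) ∧
      ∀ i j, i ≠ j → n i j = r) ∨
    1 ≤ (∑ i, ∑ j, if i = j then 0 else e + 2 * n i j) + 19 * (e + 2 * Y) := by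
  classical
  by_cases hP : 1 ≤ e + 2 * r
  · have h1 := sum_const_le (fun i j => e + 2 * n i j) (e + 2 * r)
      fun i j hij => by have := hmin i j hij; omega
    have h2 := y1 (-1 - e - r) (by omega) le_rfl
    right; omega
  by_cases hall : ∀ i j, i ≠ j → n i j = r
  · have h1 := H.q3 0 1 2 3 (by decide) (by decide) (by decide) (by decide) (by decide)
      (by decide)
    rw [hall 0 1 (by decide), hall 2 3 (by decide), hall 0 2 (by decide), hall 1 3 (by decide),
      hall 0 3 (by decide), hall 1 2 (by decide)] at h1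
    have h2 := sum_const_le (fun i j => e + 2 * n i j) (e + 2 * r)
      fun i j hij => by have := hmin i j hij; omega
    have h3 := y2 hall (by omega)
    exact Or.inl ⟨by omega, hall⟩
  right
  have hY : -6 ≤ e + 2 * Y ∨ 3 * (e + 2 * r) ≤ e + 2 * Y := by
    by_cases h : e + 2 * r = 0
    · have := y1 (r - 1) (by omega) (by omega); omega
    · have := y1 r le_rfl (by omega); omega
  have hY1 : e + 2 * r = -1 → -3 ≤ e + 2 * Y := fun h => by
    have := y1 r le_rfl (by omega); omega
  let rel : Fin 19 → Fin 19 → Prop := fun i j => i = j ∨ r < n i j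
  have rsym : ∀ {i j}, rel i j → rel j i := fun {i j} h =>
    h.imp Eq.symm fun h => by rwa [H.sym]
  have rtr : ∀ {i j k}, rel i j → rel j k → rel i k := by
    intro i j k h1 h2
    by_cases hik : i = k
    · exact Or.inl hik
    by_cases hij : i = j
    · rw [hij]; exact h2
    by_cases hjk : j = k
    · rw [← hjk]; exact h1
    exact Or.inr (H.ult i j k (r + 1) hij hjk hik (h1.resolve_left hij) (h2.resolve_left hjk))
  have nrel : ∀ {i j}, ¬rel i j → i ≠ j ∧ n i j = r := by
    intro i j h
    simp only [rel, not_or, not_lt] at h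
    exact ⟨h.1, le_antisymm h.2 (hmin i j h.1)⟩
  have nab : ¬rel a b := by
    simp only [rel, not_or, not_lt]; exact ⟨hab, hr.le⟩
  have quad : ∀ i j k l, i ≠ j → k ≠ l → rel i j → ¬rel i k → ¬rel i l → r < n i j + n k l - r →
      e + 2 * r = -1 ∧ Even (n i j + n k l - 2 * r) := by
    intro i j k l hij hkl h1 h2 h3 h4
    have h5 := nrel h2
    have h6 := nrel h3
    have h7 := nrel (fun h : rel j k => h2 (rtr h1 h))
    have h8 := nrel (fun h : rel j l => h3 (rtr h1 h))
    have e1 := H.q2 i j k l hij h5.1 h6.1 h7.1 h8.1 hkl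
    have e2 := H.q4 i j k l hij h5.1 h6.1 h7.1 h8.1 hkl
    rw [h5.2, h6.2, h7.2, h8.2] at e1
    rw [h5.2, h8.2] at e2
    refine ⟨by omega, ?_⟩
    rwa [show n i j + n k l - 2 * r = n i j + n k l - r - r by ring]
  by_cases h3 : ∃ c, ¬rel c a ∧ ¬rel c b
  · obtain ⟨c, hca, hcb⟩ := h3
    have hin : ∀ i j, i ≠ j → rel i j → e + 2 * r = -1 ∧ r + 2 ≤ n i j := by
      intro i j hij h
      have h4 := h.resolve_left hij
      have : ∃ k l, ¬rel k l ∧ ¬rel i k ∧ ¬rel i l := by
        by_cases h5 : rel i a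
        · exact ⟨c, b, hcb, fun h => hca (rtr (rsym h) h5), fun h => nab (rtr (rsym h5) h)⟩
        by_cases h6 : rel i b
        · exact ⟨c, a, hca, fun h => hcb (rtr (rsym h) h6), h5⟩
        · exact ⟨a, b, nab, h5, h6⟩
      obtain ⟨k, l, h5, h6, h7⟩ := this
      have h8 := nrel h5
      obtain ⟨e1, m, e2⟩ := quad i j k l hij h8.1 h h6 h7 (by omega)
      exact ⟨e1, by omega⟩
    have hP1 : e + 2 * r = -1 := by
      push Not at hall
      obtain ⟨i, j, hij, h⟩ := hall
      exact (hin i j hij (Or.inr (lt_of_le_of_ne (hmin i j hij) (Ne.symm h)))).1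
    have hc : ∀ x, ¬rel x a → ¬rel x b → rel x c := by
      intro x h1 h2
      by_contra h4
      have e1 := nrel h1
      have e2 := nrel h2
      have e3 := nrel h4
      have e4 := nrel hca
      have e5 := nrel hcb
      have := H.q3 x a b c e1.1 e2.1 e3.1 hab e4.1.symm e5.1.symm
      rw [e1.2, e2.2, e3.2, H.sym b c, H.sym a c, e4.2, e5.2, hr] at this
      omega
    let lab : Fin 19 → Fin 3 := fun x => if rel x a then 0 else if rel x b then 1 else 2
    obtain ⟨h4, h5⟩ := sum_lab lab ![![3, -1, -1], ![-1, 3, -1], ![-1, -1, 3]]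
      (fun i j => e + 2 * n i j) (by
        intro i j hij
        have e0 := hmin i j hij
        have e1 := fun h => (hin i j hij h).2
        simp only [lab]
        split_ifs with h6 h7 h8 h9 h10 h11 h12 h13
        · have := e1 (rtr h6 (rsym h7)); simp; omega
        · simp; omega
        · simp; omega
        · simp; omega
        · have := e1 (rtr h9 (rsym h11)); simp; omega
        · simp; omega
        · simp; omega
        · simp; omega
        · have := e1 (rtr (hc i h6 h9) (rsym (hc j h12 h13))); simp; omega)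
    simp only [Fin.sum_univ_three] at h5
    simp at h5
    have := hY1 hP1
    nlinarith [sq_nonneg (3 * (csz lab 0 : ℤ) - 19), sq_nonneg (3 * (csz lab 1 : ℤ) - 19),
      sq_nonneg (3 * (csz lab 2 : ℤ) - 19)]
  push Not at h3
  by_cases hA : ∀ x, rel x a → x = a
  · have := H.single (r := r) hab (fun j hj => (nrel fun h => hj (hA j (rsym h))).2)
      (fun i j hij hi hj => (rtr (h3 i fun h => hi (hA i h))
        (rsym (h3 j fun h => hj (hA j h)))).resolve_left hij) (by omega)
    omega
  have h3' : ∀ c, ¬rel c b → rel c a := fun c h => by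
    by_contra h'; exact h (h3 c h')
  by_cases hB : ∀ x, rel x b → x = b
  · have := H.single (r := r) hab.symm (fun j hj => (nrel fun h => hj (hB j (rsym h))).2)
      (fun i j hij hi hj => (rtr (h3' i fun h => hi (hB i h))
        (rsym (h3' j fun h => hj (hB j h)))).resolve_left hij) (by omega)
    omega
  push Not at hA hB
  obtain ⟨a', ha', haa⟩ := hA
  obtain ⟨b', hb', hbb⟩ := hB
  have hP1 : e + 2 * r = -1 := by
    have e1 := ha'.resolve_left haa
    have e2 := hb'.resolve_left hbb
    exact (quad a' a b' b haa hbb ha' (fun h => nab (rtr (rsym ha') (rtr h hb')))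
      (fun h => nab (rtr (rsym ha') h)) (by omega)).1
  let lab : Fin 19 → Fin 3 := fun x => if rel x a then 0 else 1
  have hl2 : csz lab 2 = 0 := by
    simp only [csz, card_eq_zero, filter_eq_empty_iff, lab]
    intro x _; split_ifs <;> decide
  have two : ∀ α β : ℤ, (∀ i j, i ≠ j → rel i a → rel j a → α ≤ e + 2 * n i j) →
      (∀ i j, i ≠ j → rel i b → rel j b → β ≤ e + 2 * n i j) →
      ∃ s t : ℤ, s + t = 19 ∧ α * s * (s - 1) + β * t * (t - 1) - 2 * s * t ≤
        ∑ i, ∑ j, if i = j then 0 else e + 2 * n i j := by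
    intro α β hα hβ
    obtain ⟨h4, h5⟩ := sum_lab lab ![![α, -1, 0], ![-1, β, 0], ![0, 0, 0]]
      (fun i j => e + 2 * n i j) (by
        intro i j hij
        have e0 := hmin i j hij
        simp only [lab]
        split_ifs with h6 h7 h8
        · simpa using hα i j hij h6 h7
        · simp; omega
        · simp; omega
        · simpa using hβ i j hij (h3 i h6) (h3 j h8))
    simp only [Fin.sum_univ_three, hl2] at h4 h5
    simp at h4 h5
    exact ⟨csz lab 0, csz lab 1, h4, by linarith⟩
  have one : ∀ c i j, i ≠ j → rel i c → rel j c → 1 ≤ e + 2 * n i j := by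
    intro c i j hij h1 h2
    have := (rtr h1 (rsym h2)).resolve_left hij
    omega
  have hY2 := hY1 hP1
  by_cases hHa : ∀ i j, i ≠ j → rel i a → rel j a → 3 ≤ e + 2 * n i j
  · obtain ⟨s, t, h4, h5⟩ := two 3 1 hHa (one b)
    obtain rfl : t = 19 - s := by omega
    nlinarith [sq_nonneg (s - 6)]
  by_cases hHb : ∀ i j, i ≠ j → rel i b → rel j b → 3 ≤ e + 2 * n i j
  · obtain ⟨s, t, h4, h5⟩ := two 1 3 (one a) hHb
    obtain rfl : s = 19 - t := by omega
    nlinarith [sq_nonneg (t - 6)]
  push Not at hHa hHb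
  obtain ⟨i, j, hij, hi, hj, h6⟩ := hHa
  obtain ⟨k, l, hkl, hk, hl, h7⟩ := hHb
  have e1 := one a i j hij hi hj
  have e2 := one b k l hkl hk hl
  have e3 := nrel (fun h : rel i k => nab (rtr (rsym hi) (rtr h hk)))
  have e4 := nrel (fun h : rel j k => nab (rtr (rsym hj) (rtr h hk)))
  have h8 := y3 i j k l hij e3.1 e4.1 hkl hP1 (by omega) (by omega) e3.2 e4.2
  obtain ⟨s, t, h4, h5⟩ := two 1 1 (one a) (one b)
  obtain rfl : t = 19 - s := by omega
  have h9 : 0 ≤ (s - 9) * (s - 10) := by
    rcases le_or_gt s 9 with h | h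
    · exact mul_nonneg_of_nonpos_of_nonpos (by omega) (by omega)
    · exact mul_nonneg (by omega) (by omega)
  nlinarith

end Pool.Agent.P.MP_7ede32_ag.N
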