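import Mathlib

namespace Pool.Agent.P.MP_7ede32_ag.N

open Filter Topology Metric Real Complex ValueDistribution MeromorphicOn

theorem norm_circleAverage_le {f : ℂ → ℂ} {g : ℂ → ℝ} {R : ℝ} (hg : CircleIntegrable g 0 R)
    (h : ∀ z ∈ sphere (0 : ℂ) |R|, ‖f z‖ ≤ g z) :
    ‖circleAverage f 0 R‖ ≤ circleAverage g 0 R := by
  rw [circleAverage_def, circleAverage_def, norm_smul, smul_eq_mul,
    Real.norm_of_nonneg (by positivity)]
  refine mul_le_mul_of_nonneg_left ?_ (by positivity)
  exact intervalIntegral.norm_integral_le_of_norm_le two_pi_pos.le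
    (Eventually.of_forall fun t _ => h _ (circleMap_mem_sphere' 0 R t)) hg

theorem circleAverage_le_of_cd {f g : ℂ → ℝ} {R : ℝ} (hR : R ≠ 0) (hf : CircleIntegrable f 0 R)
    (hg : CircleIntegrable g 0 R) (h : ∀ᶠ z in codiscreteWithin (sphere (0 : ℂ) |R|), f z ≤ g z) :
    circleAverage f 0 R ≤ circleAverage g 0 R := by
  have h1 : f =ᶠ[codiscreteWithin (sphere (0 : ℂ) |R|)] fun z => min (f z) (g z) :=
    h.mono fun z hz => (min_eq_left hz).symm
  rw [circleAverage_congr_codiscreteWithin h1 hR]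
  exact circleAverage_mono (hf.congr_codiscreteWithin h1) hg fun z _ => min_le_right _ _

theorem herglotz_bound {h : ℂ → ℂ} {R r : ℝ} (ha : AnalyticOnNhd ℂ h (closedBall 0 R))
    (h0 : ∀ u ∈ closedBall (0 : ℂ) R, h u ≠ 0) (hr : r < R) {w : ℂ} (hw : ‖w‖ ≤ r) :
    ‖logDeriv h w‖ ≤ 2 * R / (R - r) ^ 2 * circleAverage (fun z => |Real.log ‖h z‖|) 0 R := by
  have hR : 0 < R := lt_of_le_of_lt ((norm_nonneg w).trans hw) hr
  have hwb : w ∈ ball (0 : ℂ) R := by simpa using hw.trans_lt hr
  have hm : MeromorphicOn h (sphere 0 |R|) :=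
    ha.meromorphicOn.mono_set (by rw [abs_of_pos hR]; exact sphere_subset_closedBall)
  have hi : CircleIntegrable (fun z => Real.log ‖h z‖) 0 R := hm.circleIntegrable_log_norm
  have hi' : CircleIntegrable (fun z => ((Real.log ‖h z‖ : ℝ) : ℂ)) 0 R := by
    simp only [CircleIntegrable, intervalIntegrable_iff] at hi ⊢
    exact Complex.ofRealCLM.integrable_comp hi
  set F : ℂ → ℂ := fun w =>
    circleAverage (fun ζ => herglotzRieszKernel 0 w ζ • ((Real.log ‖h ζ‖ : ℝ) : ℂ)) 0 R with hF
  have hre : ∀ v ∈ ball (0 : ℂ) R, (F v).re = Real.log ‖h v‖ := by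
    intro v hv
    rw [hF]
    simp only
    rw [re_circleAverage_herglotzRieszKernel_smul hi hv]
    exact InnerProductSpace.HarmonicOnNhd.circleAverage_re_herglotzRieszKernel_smul
      (f := fun z => Real.log ‖h z‖) (fun z hz => (ha z hz).harmonicAt_log_norm (h0 z hz)) hv
  have hd := fun v (hv : v ∈ ball (0 : ℂ) R) =>
    hasDerivAt_circleAverage_herglotzRieszKernel_smul hi' hv
  have hn : ball (0 : ℂ) R ∈ 𝓝 w := isOpen_ball.mem_nhds hwb
  have hG : ∀ v ∈ ball (0 : ℂ) R, ‖h v * Complex.exp (-F v)‖ = 1 := by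
    intro v hv
    have := norm_pos_iff.2 (h0 v (ball_subset_closedBall hv))
    rw [norm_mul, Complex.norm_exp, neg_re, hre v hv, Real.exp_neg, Real.exp_log this,
      mul_inv_cancel₀ this.ne']
  have hc : (fun v => h v * Complex.exp (-F v)) =ᶠ[𝓝 w] fun _ => h w * Complex.exp (-F w) := by
    refine Complex.eventually_eq_of_isLocalMax_norm (f := fun v => h v * Complex.exp (-F v))
      ?_ ?_
    · filter_upwards [hn] with v hv
      exact (ha v (ball_subset_closedBall hv)).differentiableAt.mul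
        (hd v hv).differentiableAt.neg.cexp
    · filter_upwards [hn] with v hv
      simp only [Function.comp, hG v hv, hG w hwb, le_refl]
  have h1 := ((ha w (ball_subset_closedBall hwb)).differentiableAt.hasDerivAt.mul
    (hd w hwb).neg.cexp).unique ((hasDerivAt_const w _).congr_of_eventuallyEq hc)
  have h2 : logDeriv h w =
      circleAverage (fun ζ => (2 * ζ / (ζ - w) ^ 2) • ((Real.log ‖h ζ‖ : ℝ) : ℂ)) 0 R := by
    rw [logDeriv_apply, div_eq_iff (h0 w (ball_subset_closedBall hwb))]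
    apply mul_right_cancel₀ (Complex.exp_ne_zero (-F w))
    simp only [Pi.neg_apply] at h1
    linear_combination h1
  rw [h2, ← smul_eq_mul, ← circleAverage_fun_smul]
  refine norm_circleAverage_le (hi.abs.const_smul (a := 2 * R / (R - r) ^ 2)) fun z hz => ?_
  have hz' : ‖z‖ = R := by simpa [abs_of_pos hR] using hz
  rw [norm_smul, Complex.norm_real, Real.norm_eq_abs, smul_eq_mul, norm_div, norm_mul, norm_pow,
    hz', Complex.norm_two]
  have : R - r ≤ ‖z - w‖ := by linarith [norm_sub_norm_le z w]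
  have : 0 < R - r := by linarith
  gcongr

/-- the sum of the characteristic functions of `f` and of its inverse -/
noncomputable def ch (f : ℂ → ℂ) (r : ℝ) : ℝ := characteristic f ⊤ r + characteristic f⁻¹ ⊤ r

theorem ch_mono {f : ℂ → ℂ} (hf : Meromorphic f) {r s : ℝ} (hr : 0 < r) (h : r ≤ s) :
    ch f r ≤ ch f s :=
  add_le_add (characteristic_monotoneOn hf hr (hr.trans_le h) h)
    (characteristic_monotoneOn hf.inv hr (hr.trans_le h) h)

theorem ch_nonneg (f : ℂ → ℂ) {r : ℝ} (hr : 1 ≤ r) : 0 ≤ ch f r :=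
  add_nonneg (characteristic_nonneg hr) (characteristic_nonneg hr)

theorem avg_abs_log_le {f : ℂ → ℂ} (hf : Meromorphic f) {R : ℝ} (hR : 1 ≤ R) :
    circleAverage (fun z => |Real.log ‖f z‖|) 0 R ≤ ch f R := by
  have h1 : (fun z => |Real.log ‖f z‖|) = fun z => log⁺ ‖f z‖ + log⁺ ‖f⁻¹ z‖ := by
    funext z
    rw [Pi.inv_apply, norm_inv, posLog_apply, posLog_apply, Real.log_inv]
    rcases le_total 0 (Real.log ‖f z‖) with h | h
    · rw [abs_of_nonneg h, max_eq_right h, max_eq_left (by linarith), add_zero]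
    · rw [abs_of_nonpos h, max_eq_left h, max_eq_right (by linarith), zero_add]
  rw [h1, circleAverage_fun_add hf.meromorphicOn.circleIntegrable_posLog_norm
    hf.inv.meromorphicOn.circleIntegrable_posLog_norm, ← proximity_top, ← proximity_top]
  have := logCounting_nonneg (f := f) (e := ⊤) hR
  have := logCounting_nonneg (f := f⁻¹) (e := ⊤) hR
  simp only [ch, characteristic, Pi.add_apply]
  linarith

theorem count_le (f : ℂ → ℂ) (s : Finset ℂ) {R ρ : ℝ} (hR : 1 ≤ R) (hρ : R ≤ ρ)
    (hs : ∀ u ∈ s, ‖u‖ ≤ R) :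
    (∑ u ∈ s, |(divisor f Set.univ u : ℝ)|) * Real.log (ρ / R) ≤ ch f ρ := by
  classical
  set D := divisor f Set.univ with hD
  have h1 : ∑ u ∈ s, Function.locallyFinsuppWithin.single u |D u| ≤ D⁻ + D⁺ := by
    intro z
    simp only [Function.locallyFinsuppWithin.coe_sum, Finset.sum_apply,
      Function.locallyFinsuppWithin.single_apply, Finset.sum_ite_eq,
      Function.locallyFinsuppWithin.coe_add, Pi.add_apply,
      Function.locallyFinsuppWithin.posPart_apply, Function.locallyFinsuppWithin.negPart_apply]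
    rw [add_comm, posPart_add_negPart]
    split_ifs
    · exact le_rfl
    · exact abs_nonneg _
  have h2 := Function.locallyFinsuppWithin.logCounting_le h1 (hR.trans hρ)
  rw [map_sum, map_add, Finset.sum_apply, Pi.add_apply, ← logCounting_top, ← logCounting_zero,
    ← logCounting_inv] at h2
  have h3 := proximity_nonneg (f := f) (a := ⊤) ρ
  have h4 := proximity_nonneg (f := f⁻¹) (a := ⊤) ρ
  simp only [ch, characteristic, Pi.add_apply, Pi.zero_apply] at h3 h4 ⊢
  refine le_trans ?_ (h2.trans (by linarith))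
  rw [Finset.sum_mul]
  refine Finset.sum_le_sum fun u hu => ?_
  rw [Function.locallyFinsuppWithin.logCounting_single_eq_log_sub_const ((hs u hu).trans hρ),
    Real.log_div (by linarith) (by linarith)]
  push_cast
  refine mul_le_mul_of_nonneg_left (sub_le_sub_left ?_ _) (abs_nonneg _)
  rcases (norm_nonneg u).eq_or_lt with h | h
  · rw [← h, Real.log_zero]; exact Real.log_nonneg hR
  · exact Real.log_le_log h (hs u hu)

theorem logDeriv_canonical {R r δ : ℝ} {u z : ℂ} (hu : ‖u‖ < R) (hz : ‖z‖ = r) (hr : r < R)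
    (hδ : 0 < δ) (h : δ ≤ |r - ‖u‖|) :
    ‖logDeriv (canonicalFactor R u) z‖ ≤ 1 / (R - r) + 1 / δ := by
  have hR : 0 < R := (norm_nonneg u).trans_lt hu
  have hr0 : 0 ≤ r := hz ▸ norm_nonneg z
  have h1 : δ ≤ ‖z - u‖ := h.trans (hz ▸ abs_norm_sub_norm_le z u)
  have h2 : R * (R - r) ≤ ‖(R : ℂ) ^ 2 - (starRingEnd ℂ) u * z‖ := by
    have := norm_sub_norm_le ((R : ℂ) ^ 2) ((starRingEnd ℂ) u * z)
    rw [norm_pow, Complex.norm_real, Real.norm_of_nonneg hR.le, norm_mul, Complex.norm_conj,
      hz] at this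
    nlinarith
  have h3 : 0 < R * (R - r) := mul_pos hR (by linarith)
  have h4 : (R : ℂ) ^ 2 - (starRingEnd ℂ) u * z ≠ 0 := norm_pos_iff.1 (h3.trans_le h2)
  have h5 : z - u ≠ 0 := norm_pos_iff.1 (hδ.trans_le h1)
  have h6 : (R : ℂ) ≠ 0 := by exact_mod_cast hR.ne'
  have e1 : HasDerivAt (fun z : ℂ => (R : ℂ) ^ 2 - (starRingEnd ℂ) u * z)
      (-(starRingEnd ℂ) u) z := by
    simpa using ((hasDerivAt_id z).const_mul ((starRingEnd ℂ) u)).const_sub ((R : ℂ) ^ 2)
  have e2 : HasDerivAt (fun z : ℂ => (R : ℂ) * (z - u)) R z := by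
    simpa using ((hasDerivAt_id z).sub_const u).const_mul (R : ℂ)
  rw [canonicalFactor_def, logDeriv_div (g := fun z : ℂ => (R : ℂ) * (z - u)) z h4
    (mul_ne_zero h6 h5) e1.differentiableAt e2.differentiableAt, logDeriv_apply, logDeriv_apply, e1.deriv, e2.deriv]
  refine (norm_sub_le _ _).trans (add_le_add ?_ ?_)
  · rw [norm_div, norm_neg, Complex.norm_conj, div_le_div_iff₀ (h3.trans_le h2) (by linarith)]
    nlinarith
  · rw [← div_div, div_self h6, norm_div, norm_one]
    gcongr

theorem ldl_disc {f : ℂ → ℂ} (hf : Meromorphic f) (h0 : ∀ z, meromorphicOrderAt f z ≠ ⊤)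
    {r R δ : ℝ} (hr : 1 ≤ r) (hR : r < R) (hδ : 0 < δ)
    (hsph : ∀ u, ‖u‖ = R → divisor f Set.univ u = 0) (s : Finset ℂ)
    (hs : ∀ u, ‖u‖ < R → divisor f Set.univ u ≠ 0 → u ∈ s ∧ δ ≤ |r - ‖u‖|) :
    ∀ᶠ z in codiscreteWithin (sphere (0 : ℂ) r), ‖logDeriv f z‖ ≤
      (∑ u ∈ s, |(divisor f Set.univ u : ℝ)|) * (1 / (R - r) + 1 / δ) +
        2 * R / (R - r) ^ 2 * ch f R := by
  classical
  have hR0 : 0 < R := by linarith
  obtain ⟨h, D⟩ := (hf.meromorphicOn (s := closedBall 0 R)).exists_ecanonicalDecomp fun u => h0 u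
  have hdiv : ∀ (U : Set ℂ) u, u ∈ U → divisor f U u = divisor f Set.univ u := fun U u hu => by
    rw [divisor_apply hf.meromorphicOn hu, divisor_apply hf.meromorphicOn (Set.mem_univ u)]
  have hs0 : ∀ v, divisor f (sphere 0 R) v = 0 := fun v => by
    by_cases hv : v ∈ sphere (0 : ℂ) R
    · rw [hdiv _ _ hv, hsph v (by simpa using hv)]
    · exact (divisor f (sphere 0 R)).apply_eq_zero_of_notMem hv
  set d : ℂ → ℤ := fun u => -divisor f (ball 0 R) u with hd
  have hd0 : ∀ u, d u ≠ 0 → ‖u‖ < R ∧ d u = -divisor f Set.univ u := fun u hu => by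
    have h1 : u ∈ ball (0 : ℂ) R := (divisor f (ball 0 R)).supportWithinDomain
      (by simpa [hd] using hu)
    exact ⟨by simpa using h1, by rw [hd]; simp only; rw [hdiv _ _ h1]⟩
  have hds : ∀ u, d u ≠ 0 → u ∈ s ∧ δ ≤ |r - ‖u‖| := fun u hu =>
    hs u (hd0 u hu).1 fun h => hu (by rw [(hd0 u hu).2, h, neg_zero])
  have e1 : f =ᶠ[codiscreteWithin (closedBall 0 R)]
      fun z => (∏ u ∈ s, canonicalFactor R u z ^ d u) * h z := by
    filter_upwards [D.eventuallyEq] with z hz
    rw [hz, finprod_eq_prod_of_mulSupport_subset (s := s)]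
    · simp [hs0, hd]
    · intro u hu
      by_contra h1
      exact hu (by
        have : d u = 0 := by by_contra h2; exact h1 (hds u h2).1
        simp only [hd] at this
        simp only [this, zpow_zero])
  have e2 : circleAverage (fun z => |Real.log ‖h z‖|) 0 R ≤ ch f R := by
    refine le_trans (le_of_eq (circleAverage_congr_codiscreteWithin ?_ hR0.ne'))
      (avg_abs_log_le hf (by linarith))
    rw [abs_of_pos hR0]
    filter_upwards [codiscreteWithin_mono sphere_subset_closedBall e1,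
      self_mem_codiscreteWithin (sphere (0 : ℂ) R)] with z hz hz'
    rw [hz, norm_mul, norm_prod, Finset.prod_eq_one, one_mul]
    intro u _
    by_cases h1 : d u = 0
    · simp [h1]
    · rw [norm_zpow, norm_canonicalFactor_eval_circle_eq_one (by simpa using (hd0 u h1).1) hz',
        one_zpow]
  have e3 := logDeriv_congr_codiscreteWithin isOpen_ball
    (e1.filter_mono (codiscreteWithin_mono ball_subset_closedBall))
  filter_upwards [codiscreteWithin_mono (sphere_subset_ball hR) e3,
    self_mem_codiscreteWithin (sphere (0 : ℂ) r)] with z hz hz'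
  have hzr : ‖z‖ = r := by simpa using hz'
  have hzb : z ∈ closedBall (0 : ℂ) R := by simpa [hzr] using hR.le
  have hc : ∀ u, d u ≠ 0 →
      canonicalFactor R u z ≠ 0 ∧ DifferentiableAt ℂ (canonicalFactor R u) z := by
    intro u hu
    have h1 : z ≠ u := by
      rintro rfl
      have := (hds z hu).2
      rw [hzr, sub_self, abs_zero] at this
      linarith
    exact ⟨canonicalFactor_ne_zero (by simpa using (hd0 u hu).1) hzb h1,
      (analyticOnNhd_canonicalFactor R u z h1).differentiableAt⟩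
  have hc1 : ∀ u ∈ s, canonicalFactor R u z ^ d u ≠ 0 := fun u _ => by
    by_cases h1 : d u = 0
    · simp [h1]
    · exact zpow_ne_zero _ (hc u h1).1
  have hc2 : ∀ u ∈ s, DifferentiableAt ℂ (fun z => canonicalFactor R u z ^ d u) z := fun u _ => by
    by_cases h1 : d u = 0
    · simp [h1]
    · exact (hc u h1).2.zpow (Or.inl (hc u h1).1)
  rw [hz, logDeriv_mul z (Finset.prod_ne_zero_iff.2 hc1) (D.ne_zero z hzb)
    (DifferentiableAt.fun_finsetProd hc2) (D.analyticOnNhd z hzb).differentiableAt,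
    logDeriv_prod (f := fun u z => canonicalFactor R u z ^ d u) hc1 hc2]
  refine (norm_add_le _ _).trans (add_le_add ((norm_sum_le _ _).trans ?_) ?_)
  · rw [Finset.sum_mul]
    refine Finset.sum_le_sum fun u _ => ?_
    by_cases h1 : d u = 0
    · have : 0 < R - r := by linarith
      simp only [h1, zpow_zero, logDeriv_const, Pi.zero_apply, norm_zero]
      positivity
    · rw [logDeriv_fun_zpow (hc u h1).2, norm_mul, (hd0 u h1).2, Complex.norm_intCast,
        Int.cast_neg, abs_neg]
      exact mul_le_mul_of_nonneg_left (logDeriv_canonical (hd0 u h1).1 hzr hR hδ (hds u h1).2)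
        (abs_nonneg _)
  · exact (herglotz_bound D.analyticOnNhd D.ne_zero hR hzr.le).trans
      (mul_le_mul_of_nonneg_left e2 (by positivity))

end Pool.Agent.P.MP_7ede32_ag.N
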