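import Pool.Agent.P.MP_7ede32_ag.NAlg2
import Pool.Agent.P.MP_7ede32_ag.NAbel
import Pool.Agent.P.MP_7ede32_ag.Main

namespace Pool.Agent.P.MP_7ede32_ag.N

open Finset Polynomial

variable {K : Type} [Field K]

theorem cubic_case [CharZero K] {N : Ev K} (hN : N.Nev) (v : Fin 19 → K)
    (hv : Function.Injective v) (c0 c1 c2 c3 : K)
    (hD : ∀ i, N.D (v i) = c3 * v i ^ 3 + c2 * v i ^ 2 + c1 * v i + c0)
    (he : ∀ q i j k l, i ≠ j → i ≠ k → i ≠ l → j ≠ k → j ≠ l → k ≠ l →
      Even ((N.loc q).ord (v i - v j) + (N.loc q).ord (v k - v l) - (N.loc q).ord (v i - v k) -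
        (N.loc q).ord (v j - v l))) :
    N.D (cr (v 0) (v 1) (v 2) (v 3)) = 0 ∧ N.D (cr (v 0) (v 1) (v 2) (v 4)) = 0 := by
  by_cases h3 : c3 = 0
  · have hD' : ∀ i, N.D (v i) = c2 * v i ^ 2 + c1 * v i + c0 := fun i => by
      rw [hD, h3]; ring
    exact ⟨riccati N.toDer c0 c1 c2 (sub_ne_zero.2 fun h => absurd (hv h) (by decide))
      (sub_ne_zero.2 fun h => absurd (hv h) (by decide)) (hD' 0) (hD' 1) (hD' 2) (hD' 3),
      riccati N.toDer c0 c1 c2 (sub_ne_zero.2 fun h => absurd (hv h) (by decide))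
      (sub_ne_zero.2 fun h => absurd (hv h) (by decide)) (hD' 0) (hD' 1) (hD' 2) (hD' 4)⟩
  · exact (abel hN v hv h3 hD he).elim

theorem exists_cr [CharZero K] {N : Ev K} (hN : N.Nev) (x : Fin 72 → K)
    (hx : Function.Injective x) (he : ∀ q i j, i ≠ j → Even ((N.loc q).ord (x i - x j))) :
    ∃ e : Fin 5 → Fin 72, Function.Injective e ∧
      N.D (cr (x (e 0)) (x (e 1)) (x (e 2)) (x (e 3))) = 0 ∧
      N.D (cr (x (e 0)) (x (e 1)) (x (e 2)) (x (e 4))) = 0 := by
  have hd : ∀ i j, i ≠ j → x i - x j ≠ 0 := fun i j hij => sub_ne_zero.2 fun h => hij (hx h)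
  by_cases hG : ∃ e1 e2 : Bool, (e2 = true → e1 = true) ∧ ∃ e : Fin 12 → Fin 72,
      Function.Injective e ∧ Gd e1 e2 (fun i => x (e i)) (fun i => N.D (x (e i)))
  · obtain ⟨e1, e2, h21, e, he', hG⟩ := hG
    have key := fun i j k l => goodA hN h21 _ (hx.comp he')
      (fun q i j hij => he q _ _ (he'.ne hij)) hG (i := i) (j := j) (k := k) (l := l)
    have hcr : ∀ j, cr (x (e 0)) (x (e 1)) (x (e 2)) (x (e j)) = crq (x ∘ e) j 1 0 2 := by
      intro j
      simp only [cr, crq, Function.comp]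
      rw [← neg_div_neg_eq]
      congr 1 <;> ring
    refine ⟨fun i => e (Fin.castLE (by norm_num) i),
      he'.comp (Fin.castLE_injective (by norm_num)), ?_⟩
    change N.D (cr (x (e 0)) (x (e 1)) (x (e 2)) (x (e 3))) = 0 ∧
      N.D (cr (x (e 0)) (x (e 1)) (x (e 2)) (x (e 4))) = 0
    rw [hcr, hcr]
    exact ⟨key _ _ _ _ (by unfold Dist; decide), key _ _ _ _ (by unfold Dist; decide)⟩
  push Not at hG
  rcases alg_main x (fun i => N.D (x i)) hx hG with
    ⟨q, hq, T, hT, h⟩ | ⟨B, E, hB0, hB, hE, T, hT, h⟩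
  · obtain ⟨S, hS, hS5⟩ := Finset.exists_subset_card_eq hT
    let e := S.orderEmbOfFin hS5
    have h1 := fun i => h (e i) (hS (S.orderEmbOfFin_mem hS5 i))
    simp only [eval_le_two hq] at h1
    exact ⟨e, e.injective, riccati N.toDer _ _ _ (hd _ _ (e.injective.ne (by decide)))
      (hd _ _ (e.injective.ne (by decide))) (h1 0) (h1 1) (h1 2) (h1 3),
      riccati N.toDer _ _ _ (hd _ _ (e.injective.ne (by decide)))
      (hd _ _ (e.injective.ne (by decide))) (h1 0) (h1 1) (h1 2) (h1 4)⟩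
  obtain ⟨T1, hT1, hT2, hT3⟩ := few_roots x hx T B hB0
  obtain ⟨S, hS, hS19⟩ := Finset.exists_subset_card_eq (show 19 ≤ T1.card by omega)
  let e := S.orderEmbOfFin hS19
  have he1 : ∀ i, e i ∈ T1 := fun i => hS (S.orderEmbOfFin_mem hS19 i)
  have h1 := fun i => h (e i) (hT1 (he1 i))
  have h2 := fun i => hT3 (e i) (he1 i)
  simp only [eval_le_one hB, eval_le_three hE] at h1 h2
  refine ⟨fun i => e (Fin.castLE (by norm_num) i),
    e.injective.comp (Fin.castLE_injective (by norm_num)), ?_⟩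
  change N.D (cr (x (e 0)) (x (e 1)) (x (e 2)) (x (e 3))) = 0 ∧
    N.D (cr (x (e 0)) (x (e 1)) (x (e 2)) (x (e 4))) = 0
  generalize B.coeff 0 = b0 at h1 h2
  generalize B.coeff 1 = b1 at h1 h2
  generalize E.coeff 0 = e0 at h1
  generalize E.coeff 1 = e1 at h1
  generalize E.coeff 2 = e2 at h1
  generalize E.coeff 3 = e3 at h1
  by_cases hb : b1 = 0
  · have hb0 : b0 ≠ 0 := by simpa [hb] using h2 0
    refine cubic_case hN (fun i => x (e i)) (hx.comp e.injective) (-e0 / b0) (-e1 / b0) (-e2 / b0)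
      (-e3 / b0) (fun i => ?_) fun q i j k l hij hik _ _ hjl hkl => ?_
    · have := h1 i
      rw [hb] at this
      field_simp
      linear_combination this
    · exact (((he q _ _ (e.injective.ne hij)).add (he q _ _ (e.injective.ne hkl))).sub
        (he q _ _ (e.injective.ne hik))).sub (he q _ _ (e.injective.ne hjl))
  · obtain ⟨s, rfl⟩ : ∃ s, b0 = -(b1 * s) := ⟨-b0 / b1, by field_simp⟩
    have hy : ∀ i, x (e i) - s ≠ 0 := fun i h => h2 i (by linear_combination b1 * h)
    have hord : ∀ q i j, i ≠ j → (N.loc q).ord ((x (e i) - s)⁻¹ - (x (e j) - s)⁻¹) =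
        (N.loc q).ord (x (e i) - x (e j)) - (N.loc q).ord (x (e i) - s) -
          (N.loc q).ord (x (e j) - s) := by
      intro q i j hij
      rw [inv_sub_inv (hy i) (hy j), sub_sub_sub_cancel_right,
        (N.loc q).ord_div (hd _ _ (e.injective.ne hij.symm)) (mul_ne_zero (hy i) (hy j)),
        (N.loc q).ord_mul _ _ (hy i) (hy j), (N.loc q).ord_sub_comm (x (e j))]
      ring
    have key := cubic_case hN (fun i => (x (e i) - s)⁻¹)
      (fun i j h => e.injective (hx (sub_left_injective (inv_injective h)))) (e3 / b1)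
      ((e2 + 3 * e3 * s) / b1) ((e1 + 2 * e2 * s + 3 * e3 * s ^ 2) / b1 + N.D s)
      ((e3 * s ^ 3 + e2 * s ^ 2 + e1 * s + e0) / b1) (fun i => by
        have h3 := h1 i
        have h4 := hy i
        rw [N.toDer.D_inv, N.toDer.D_sub]
        field_simp
        linear_combination -h3)
      (fun q i j k l hij hik _ _ hjl hkl => by
        rw [hord q i j hij, hord q k l hkl, hord q i k hik, hord q j l hjl]
        obtain ⟨m, hm⟩ := (((he q _ _ (e.injective.ne hij)).add
          (he q _ _ (e.injective.ne hkl))).sub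
          (he q _ _ (e.injective.ne hik))).sub (he q _ _ (e.injective.ne hjl))
        exact ⟨m, by omega⟩)
    have hcr : ∀ j, j ≠ 0 → cr (x (e 0) - s)⁻¹ (x (e 1) - s)⁻¹ (x (e 2) - s)⁻¹ (x (e j) - s)⁻¹ =
        cr (x (e 0)) (x (e 1)) (x (e 2)) (x (e j)) := by
      intro j hj
      have h3 := hd _ _ (e.injective.ne hj.symm)
      have h4 := hd _ _ (e.injective.ne (show (1 : Fin 19) ≠ 2 by decide))
      have h5 := hd _ _ (e.injective.ne hj)
      have h6 := hd _ _ (e.injective.ne (show (2 : Fin 19) ≠ 1 by decide))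
      have y0 := hy 0
      have y1 := hy 1
      have y2 := hy 2
      have y3 := hy j
      simp only [cr, inv_sub_inv (hy _) (hy _), sub_sub_sub_cancel_right]
      field_simp
      ring
    rwa [hcr 3 (by decide), hcr 4 (by decide)] at key

theorem main_ev [CharZero K] {N : Ev K} (hN : N.Nev) {n : ℕ} (hn : 72 ≤ n) (x : Fin n → K)
    (hx : Function.Injective x) (he : ∀ q i j, i ≠ j → Even ((N.loc q).ord (x i - x j))) :
    ∃ i1 i2, i1 ≠ i2 ∧ ∀ j, N.D ((x j - x i1) / (x i2 - x i1)) = 0 := by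
  have hc := Fin.castLE_injective hn
  obtain ⟨e, he', h1, h2⟩ := exists_cr hN
    (fun i => x (Fin.castLE hn i)) (hx.comp hc) fun q i j hij => he q _ _ (hc.ne hij)
  have h : ∀ i j, i ≠ j → Fin.castLE hn (e i) ≠ Fin.castLE hn (e j) :=
    fun i j hij => hc.ne (he'.ne hij)
  exact ⟨_, _, h 0 1 (by decide), of_cr5 hN x hx he (h 0 1 (by decide)) (h 0 2 (by decide))
    (h 0 3 (by decide)) (h 0 4 (by decide)) (h 1 2 (by decide)) (h 1 3 (by decide))
    (h 1 4 (by decide)) (h 2 3 (by decide)) (h 2 4 (by decide)) (h 3 4 (by decide)) h1 h2⟩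

end Pool.Agent.P.MP_7ede32_ag.N
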