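import Pool.Agent.P.MP_7ede32_ag.Theta

namespace Pool.Agent.P.MP_7ede32_ag

open Finset

/-- four distinct indices -/
def Dist (a b c d : Fin 12) : Prop := a ≠ b ∧ a ≠ c ∧ a ≠ d ∧ b ≠ c ∧ b ≠ d ∧ c ≠ d

/-- the ordered quadruples of distinct indices -/
def QS : Finset (Σ _ : Fin 12, Σ _ : Fin 12, Σ _ : Fin 12, Fin 12) :=
  univ.sigma fun a => (univ.erase a).sigma fun b => ((univ.erase a).erase b).sigma fun c =>
    ((univ.erase a).erase b).erase c

theorem mem_QS {q : Σ _ : Fin 12, Σ _ : Fin 12, Σ _ : Fin 12, Fin 12} (h : q ∈ QS) :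
    Dist q.1 q.2.1 q.2.2.1 q.2.2.2 := by
  simp only [QS, mem_sigma, mem_erase, mem_univ, and_true, true_and] at h
  obtain ⟨h1, ⟨h2, h3⟩, h4, h5, h6⟩ := h
  exact ⟨h1.symm, h3.symm, h6.symm, h2.symm, h5.symm, h4.symm⟩

/-- sum over ordered quadruples of distinct indices -/
def sumQ (F : Fin 12 → Fin 12 → Fin 12 → Fin 12 → ℤ) : ℤ :=
  ∑ q ∈ QS, F q.1 q.2.1 q.2.2.1 q.2.2.2

theorem sumQ_eq (F : Fin 12 → Fin 12 → Fin 12 → Fin 12 → ℤ) :
    sumQ F = ∑ a, ∑ b ∈ univ.erase a, ∑ c ∈ (univ.erase a).erase b,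
      ∑ d ∈ ((univ.erase a).erase b).erase c, F a b c d := by
  simp only [sumQ, QS, Finset.sum_sigma]

theorem sumQ_mono {F G : Fin 12 → Fin 12 → Fin 12 → Fin 12 → ℤ}
    (h : ∀ a b c d, Dist a b c d → F a b c d ≤ G a b c d) : sumQ F ≤ sumQ G :=
  Finset.sum_le_sum fun _ hq => h _ _ _ _ (mem_QS hq)

theorem sumQ_congr {F G : Fin 12 → Fin 12 → Fin 12 → Fin 12 → ℤ}
    (h : ∀ a b c d, Dist a b c d → F a b c d = G a b c d) : sumQ F = sumQ G :=
  Finset.sum_congr rfl fun _ hq => h _ _ _ _ (mem_QS hq)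

theorem sumQ_add (F G : Fin 12 → Fin 12 → Fin 12 → Fin 12 → ℤ) :
    sumQ (fun a b c d => F a b c d + G a b c d) = sumQ F + sumQ G := Finset.sum_add_distrib

theorem sumQ_sum {ι : Type*} (s : Finset ι) (F : ι → Fin 12 → Fin 12 → Fin 12 → Fin 12 → ℤ) :
    sumQ (fun a b c d => ∑ i ∈ s, F i a b c d) = ∑ i ∈ s, sumQ (F i) := Finset.sum_comm

theorem sumQ_mul (z : ℤ) (F : Fin 12 → Fin 12 → Fin 12 → Fin 12 → ℤ) :
    sumQ (fun a b c d => z * F a b c d) = z * sumQ F := (Finset.mul_sum _ _ _).symm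

/-- number of marked elements -/
def nt (χ : Fin 12 → Bool) (e : Bool) (T : Finset (Fin 12)) : ℕ :=
  (T.filter fun i => χ i = e).card

def avg (G : Bool → ℕ → ℕ → ℤ) (t f : ℕ) : ℤ := t * G true (t - 1) f + f * G false t (f - 1)

theorem nt_erase_eq (χ : Fin 12 → Bool) {T : Finset (Fin 12)} {a : Fin 12} (ha : a ∈ T) :
    nt χ (χ a) (T.erase a) = nt χ (χ a) T - 1 := by
  unfold nt
  rw [Finset.filter_erase, Finset.card_erase_of_mem (by simpa using ha)]

theorem nt_erase_ne (χ : Fin 12 → Bool) (T : Finset (Fin 12)) {a : Fin 12} {e : Bool}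
    (h : χ a ≠ e) : nt χ e (T.erase a) = nt χ e T := by
  unfold nt
  rw [Finset.filter_erase, Finset.erase_eq_of_notMem (by simp [h])]

theorem sum_avg (χ : Fin 12 → Bool) (T : Finset (Fin 12)) (G : Bool → ℕ → ℕ → ℤ) :
    ∑ a ∈ T, G (χ a) (nt χ true (T.erase a)) (nt χ false (T.erase a)) =
      avg G (nt χ true T) (nt χ false T) := by
  rw [← Finset.sum_filter_add_sum_filter_not T (fun a => χ a = true)]
  unfold avg
  congr 1
  · rw [Finset.sum_congr rfl (g := fun _ => G true (nt χ true T - 1) (nt χ false T))]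
    · simp [nt]
    · intro a ha
      obtain ⟨h1, h2⟩ := mem_filter.1 ha
      have := nt_erase_eq χ h1
      rw [h2] at this
      rw [this, nt_erase_ne χ T (by simp [h2]), h2]
  · rw [Finset.sum_congr rfl (g := fun _ => G false (nt χ true T) (nt χ false T - 1))]
    · simp [nt]
    · intro a ha
      obtain ⟨h1, h2⟩ := mem_filter.1 ha
      have h2' : χ a = false := by simpa using h2
      have := nt_erase_eq χ h1
      rw [h2'] at this
      rw [this, nt_erase_ne χ T h2, h2']

def avg4 (h : Bool → Bool → Bool → Bool → ℤ) (t f : ℕ) : ℤ :=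
  avg (fun ea => avg (fun eb => avg (fun ec => avg (fun ed _ _ => h ea eb ec ed)))) t f

theorem sumQ_bool (χ : Fin 12 → Bool) (h : Bool → Bool → Bool → Bool → ℤ) :
    sumQ (fun a b c d => h (χ a) (χ b) (χ c) (χ d)) =
      avg4 h (nt χ true univ) (nt χ false univ) := by
  rw [sumQ_eq, avg4, ← sum_avg]
  refine Finset.sum_congr rfl fun a _ => ?_
  rw [← sum_avg]
  refine Finset.sum_congr rfl fun b _ => ?_
  rw [← sum_avg]
  refine Finset.sum_congr rfl fun c _ => ?_
  rw [← sum_avg]

theorem nt_add (χ : Fin 12 → Bool) : nt χ true univ + nt χ false univ = 12 := by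
  unfold nt
  have := Finset.card_filter_add_card_filter_not (s := (univ : Finset (Fin 12)))
    (fun i => χ i = true)
  simpa using this

theorem sumQ_const (z : ℤ) : sumQ (fun _ _ _ _ => z) = 11880 * z := by
  have := sumQ_bool (fun _ => true) (fun _ _ _ _ => z)
  rw [this]
  simp [avg4, avg, nt]
  ring

theorem sumQ_lin (f : Fin 12 → ℤ) :
    sumQ (fun a b c d => 3 * f a + 3 * f b - 5 * f c - 5 * f d) = -3960 * ∑ j, f j := by
  have h1 : ∀ a b c d, 3 * f a + 3 * f b - 5 * f c - 5 * f d =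
      ∑ j, f j * (3 * ((decide (a = j)).toNat : ℤ) + 3 * (decide (b = j)).toNat -
        5 * (decide (c = j)).toNat - 5 * (decide (d = j)).toNat) := by
    intro a b c d
    have : ∀ a, ∑ j, f j * ((decide (a = j)).toNat : ℤ) = f a := by
      intro a
      rw [Finset.sum_eq_single a]
      · simp
      · intro j _ hj; simp [Ne.symm hj]
      · simp
    rw [← this a, ← this b, ← this c, ← this d]
    simp only [Finset.mul_sum, ← Finset.sum_add_distrib, ← Finset.sum_sub_distrib]
    exact Finset.sum_congr rfl fun j _ => by ring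
  simp only [h1]
  rw [sumQ_sum, Finset.mul_sum]
  refine Finset.sum_congr rfl fun j _ => ?_
  rw [sumQ_mul]
  have h2 := sumQ_bool (fun i => decide (i = j))
    (fun ea eb ec ed => 3 * (ea.toNat : ℤ) + 3 * eb.toNat - 5 * ec.toNat - 5 * ed.toNat)
  have h3 : nt (fun i => decide (i = j)) true univ = 1 := by
    simp [nt, Finset.filter_eq']
  have h4 := nt_add (fun i => decide (i = j))
  rw [h3] at h4
  have h5 : nt (fun i => decide (i = j)) false univ = 11 := by omega
  rw [h2, h3, h5]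
  simp [avg4, avg]
  ring

def gainB (ρ : ℕ) (ea eb ec ed : Bool) : ℤ :=
  (∑ k ∈ range (ρ + ea.toNat + eb.toNat - ec.toNat - ed.toNat),
    (if ea || eb then wT else wN) k) - 2 * (ea.toNat + eb.toNat)

theorem lp_bound : ∀ ρ : Fin 7,
    5040 * ((ρ.val : ℤ) * (ρ.val - 1)) ≤ avg4 (gainB ρ.val) ρ.val (12 - ρ.val) := by
  decide +kernel

theorem csz_ptq {a b c d : Fin 12} (hcd : c ≠ d) (l : Fin 12 → Fin 12) (x : Fin 12) :
    csz (fun i => l (ptq a b c d i)) x = csz l x + (decide (l a = x)).toNat +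
      (decide (l b = x)).toNat - (decide (l c = x)).toNat - (decide (l d = x)).toNat := by
  have h := sum_ptq (a := a) (b := b) hcd (fun _ j => if l j = x then 1 else 0)
  simp only [sum_boole] at h
  unfold csz
  by_cases h1 : l a = x <;> by_cases h2 : l b = x <;> by_cases h3 : l c = x <;>
    by_cases h4 : l d = x <;> simp only [h1, h2, h3, h4, if_true, if_false] at h <;>
    simp only [h1, h2, h3, h4, decide_true, decide_false, Bool.toNat_true, Bool.toNat_false] <;>
    omega

theorem level_gain (l : Fin 12 → Fin 12) (hl : ∀ x, csz l x ≤ 6) :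
    2520 * (2 * ∑ x, (csz l x : ℤ) * (csz l x - 1)) ≤
      sumQ (fun a b c d => (∑ x, ∑ k ∈ range (csz (fun i => l (ptq a b c d i)) x),
        (if l a = x ∨ l b = x then wT else wN) k) + -4) := by
  have h1 : sumQ (fun a b c d => (∑ x, ∑ k ∈ range (csz (fun i => l (ptq a b c d i)) x),
        (if l a = x ∨ l b = x then wT else wN) k) + -4) =
      sumQ (fun a b c d => ∑ x, gainB (csz l x) (decide (l a = x)) (decide (l b = x))
        (decide (l c = x)) (decide (l d = x))) := by
    refine sumQ_congr fun a b c d h => ?_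
    have : ∀ a, ∑ x, ((decide (l a = x)).toNat : ℤ) = 1 := by
      intro a
      rw [Finset.sum_eq_single (l a)]
      · simp
      · intro j _ hj; simp [Ne.symm hj]
      · simp
    simp only [gainB, Finset.sum_sub_distrib, ← Finset.mul_sum, Finset.sum_add_distrib, this,
      csz_ptq h.2.2.2.2.2, Bool.or_eq_true, decide_eq_true_eq]
    ring
  rw [h1, sumQ_sum, ← mul_assoc, Finset.mul_sum]
  refine Finset.sum_le_sum fun x _ => ?_
  rw [sumQ_bool (fun i => decide (l i = x)) (gainB (csz l x))]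
  have h3 : nt (fun i => decide (l i = x)) true univ = csz l x := by
    simp [nt, csz]
  have h4 := nt_add (fun i => decide (l i = x))
  rw [h3] at h4
  have h5 : nt (fun i => decide (l i = x)) false univ = 12 - csz l x := by omega
  rw [h3, h5]
  exact lp_bound ⟨csz l x, by have := hl x; omega⟩

end Pool.Agent.P.MP_7ede32_ag
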