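import Pool.Agent.P.MP_7ede32_ag.NTheta
import Pool.Agent.P.MP_7ede32_ag.SumQ

namespace Pool.Agent.P.MP_7ede32_ag.N

open Finset

def gain (wA wB : ℕ → ℤ) (κ : ℤ) (e1 e2 : Bool) (ρ : ℕ) (ea eb ec ed : Bool) : ℤ :=
  (∑ k ∈ range (ρ + (e1 && ea).toNat + (e2 && eb).toNat - (e1 && ec).toNat - (e2 && ed).toNat),
    (if (e1 && ea) || (e2 && eb) then wA else wB) k) - κ * ((e1 && ea).toNat + (e2 && eb).toNat)

theorem csz_pt (e1 e2 : Bool) {a b c d : Fin 12} (hcd : c ≠ d) (l : Fin 12 → Fin 12)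
    (x : Fin 12) :
    csz (fun i => l (pt e1 e2 a b c d i)) x = csz l x + (e1 && decide (l a = x)).toNat +
      (e2 && decide (l b = x)).toNat - (e1 && decide (l c = x)).toNat -
      (e2 && decide (l d = x)).toNat := by
  have h := sum_pt (R := ℤ) e1 e2 (a := a) (b := b) hcd (fun _ j => if l j = x then 1 else 0)
  simp only [sum_boole] at h
  unfold csz
  cases e1 <;> cases e2 <;> by_cases h1 : l a = x <;> by_cases h2 : l b = x <;>
    by_cases h3 : l c = x <;>
    by_cases h4 : l d = x <;> simp only [h1, h2, h3, h4, if_true, if_false] at h <;>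
    simp only [h1, h2, h3, h4, decide_true, decide_false, Bool.toNat_true, Bool.toNat_false,
      Bool.and_true, Bool.and_false] at h ⊢ <;>
    omega

theorem level_eq (wA wB : ℕ → ℤ) (κ : ℤ) (e1 e2 : Bool) (l : Fin 12 → Fin 12) :
    sumQ (fun a b c d => (∑ x, ∑ k ∈ range (csz (fun i => l (pt e1 e2 a b c d i)) x),
        (if isT e1 e2 (l a) (l b) x then wA else wB) k) + -κ * nD e1 e2) =
      ∑ x, avg4 (gain wA wB κ e1 e2 (csz l x)) (csz l x) (12 - csz l x) := by
  have h1 : sumQ (fun a b c d => (∑ x, ∑ k ∈ range (csz (fun i => l (pt e1 e2 a b c d i)) x),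
        (if isT e1 e2 (l a) (l b) x then wA else wB) k) + -κ * nD e1 e2) =
      sumQ (fun a b c d => ∑ x, gain wA wB κ e1 e2 (csz l x) (decide (l a = x))
        (decide (l b = x)) (decide (l c = x)) (decide (l d = x))) := by
    refine sumQ_congr fun a b c d h => ?_
    have : ∀ (e : Bool) a, ∑ x, ((e && decide (l a = x)).toNat : ℤ) = e.toNat := by
      intro e a
      rw [Finset.sum_eq_single (l a)]
      · simp
      · intro j _ hj; simp [Ne.symm hj]
      · simp
    simp only [gain, Finset.sum_sub_distrib, ← Finset.mul_sum, Finset.sum_add_distrib, this,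
      csz_pt e1 e2 h.2.2.2.2.2, Bool.or_eq_true, Bool.and_eq_true, decide_eq_true_eq, isT, nD]
    push_cast
    ring
  rw [h1, sumQ_sum]
  refine Finset.sum_congr rfl fun x _ => ?_
  rw [sumQ_bool (fun i => decide (l i = x)) (gain wA wB κ e1 e2 (csz l x))]
  have h3 : nt (fun i => decide (l i = x)) true univ = csz l x := by
    simp [nt, csz]
  have h4 := nt_add (fun i => decide (l i = x))
  rw [h3] at h4
  have h5 : nt (fun i => decide (l i = x)) false univ = 12 - csz l x := by omega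
  rw [h3, h5]

def wL : ℕ → ℤ
  | 0 => 0 | 1 => 1 | 2 => 1 | 3 => 2 | 4 => 2 | 5 => 2 | 6 => 3 | 7 => 3 | 8 => 3 | 9 => 4
  | 10 => 4 | _ + 11 => 5

theorem wL_mono : Monotone wL := by
  refine monotone_nat_of_le_succ fun n => ?_
  match n with
  | 0 | 1 | 2 | 3 | 4 | 5 | 6 | 7 | 8 | 9 | 10 => decide
  | n + 11 => exact le_refl (5 : ℤ)

/-- the exponent of the discriminant -/
def cJ (e1 e2 : Bool) : ℤ := 2700 - 90 * nD e1 e2

theorem lpE : ∀ e1 e2 : Bool, (e2 = true → e1 = true) → ∀ ρ : Fin 7,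
    cJ e1 e2 * (2 * ((ρ.val : ℤ) * (ρ.val - 1))) + (if 2 ≤ ρ.val then 1 else 0) ≤
      avg4 (gain wT wN 2 e1 e2 ρ.val) ρ.val (12 - ρ.val) := by
  decide +kernel

theorem lpL : ∀ e1 e2 : Bool, ∀ ρ : Fin 7,
    cJ e1 e2 * ((ρ.val : ℤ) * (ρ.val - 1)) + (if 2 ≤ ρ.val then 1 else 0) ≤
      avg4 (gain wL wL 1 e1 e2 ρ.val) ρ.val (12 - ρ.val) := by
  decide +kernel

/-- real sum over ordered quadruples of distinct indices -/
noncomputable def sumR (F : Fin 12 → Fin 12 → Fin 12 → Fin 12 → ℝ) : ℝ :=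
  ∑ q ∈ QS, F q.1 q.2.1 q.2.2.1 q.2.2.2

theorem sumR_cast (F : Fin 12 → Fin 12 → Fin 12 → Fin 12 → ℤ) :
    sumR (fun a b c d => (F a b c d : ℝ)) = (sumQ F : ℝ) := by
  simp [sumR, sumQ]

theorem sumR_mono {F G : Fin 12 → Fin 12 → Fin 12 → Fin 12 → ℝ}
    (h : ∀ a b c d, Dist a b c d → F a b c d ≤ G a b c d) : sumR F ≤ sumR G :=
  Finset.sum_le_sum fun _ hq => h _ _ _ _ (mem_QS hq)

theorem sumR_congr {F G : Fin 12 → Fin 12 → Fin 12 → Fin 12 → ℝ}
    (h : ∀ a b c d, Dist a b c d → F a b c d = G a b c d) : sumR F = sumR G :=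
  Finset.sum_congr rfl fun _ hq => h _ _ _ _ (mem_QS hq)

theorem sumR_add (F G : Fin 12 → Fin 12 → Fin 12 → Fin 12 → ℝ) :
    sumR (fun a b c d => F a b c d + G a b c d) = sumR F + sumR G := Finset.sum_add_distrib

theorem sumR_sum {ι : Type*} (s : Finset ι) (F : ι → Fin 12 → Fin 12 → Fin 12 → Fin 12 → ℝ) :
    sumR (fun a b c d => ∑ i ∈ s, F i a b c d) = ∑ i ∈ s, sumR (F i) := Finset.sum_comm

theorem sumR_mul (z : ℝ) (F : Fin 12 → Fin 12 → Fin 12 → Fin 12 → ℝ) :
    sumR (fun a b c d => z * F a b c d) = z * sumR F := (Finset.mul_sum _ _ _).symm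

theorem sumR_const (z : ℝ) : sumR (fun _ _ _ _ => z) = 11880 * z := by
  have h := sumR_cast (fun _ _ _ _ => 1)
  rw [sumQ_const] at h
  have := sumR_mul z (fun _ _ _ _ => ((1 : ℤ) : ℝ))
  rw [h] at this
  simp only [Int.cast_one, mul_one] at this
  rw [this]; push_cast; ring

theorem sumR_lin (e1 e2 : Bool) (f : Fin 12 → ℝ) :
    sumR (fun a b c d => e1.toNat * (3 * f a - 5 * f c) + e2.toNat * (3 * f b - 5 * f d)) =
      -1980 * nD e1 e2 * ∑ j, f j := by
  have h1 : ∀ a b c d, e1.toNat * (3 * f a - 5 * f c) + e2.toNat * (3 * f b - 5 * f d) =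
      ∑ j, f j * ((e1.toNat * (3 * ((decide (a = j)).toNat : ℤ) - 5 * (decide (c = j)).toNat) +
        e2.toNat * (3 * (decide (b = j)).toNat - 5 * (decide (d = j)).toNat) : ℤ) : ℝ) := by
    intro a b c d
    have : ∀ a, ∑ j, f j * ((decide (a = j)).toNat : ℝ) = f a := by
      intro a
      rw [Finset.sum_eq_single a]
      · simp
      · intro j _ hj; simp [Ne.symm hj]
      · simp
    rw [← this a, ← this b, ← this c, ← this d]
    simp only [Finset.mul_sum, ← Finset.sum_add_distrib, ← Finset.sum_sub_distrib]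
    exact Finset.sum_congr rfl fun j _ => by push_cast; ring
  simp only [h1]
  rw [sumR_sum, Finset.mul_sum]
  refine Finset.sum_congr rfl fun j _ => ?_
  rw [sumR_mul, sumR_cast]
  have h2 := sumQ_bool (fun i => decide (i = j))
    (fun ea eb ec ed => e1.toNat * (3 * (ea.toNat : ℤ) - 5 * ec.toNat) +
      e2.toNat * (3 * eb.toNat - 5 * ed.toNat))
  have h3 : nt (fun i => decide (i = j)) true univ = 1 := by
    simp [nt, Finset.filter_eq']
  have h4 := nt_add (fun i => decide (i = j))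
  rw [h3] at h4
  have h5 : nt (fun i => decide (i = j)) false univ = 11 := by omega
  rw [h2, h3, h5]
  simp [avg4, avg, nD]
  ring

end Pool.Agent.P.MP_7ede32_ag.N
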