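import Pool.Agent.P.MP_7ede32_ag.NArch3
import Pool.Agent.P.MP_7ede32_ag.Basic

namespace Pool.Agent.P.MP_7ede32_ag.N

open Finset Filter

/-- a differential field with places and with an evaluation map to germs of functions -/
structure Ev (K : Type) [Field K] extends Der K where
  loc : ℂ → Loc K
  hD : ∀ q x, (loc q).D x = D x
  F : Filter ℂ
  ev : K →+* Germ F ℂ

variable {K : Type} [Field K]

namespace Ev

variable (N : Ev K)

/-- `A` represents `f` -/
def Rep (f : K) (A : ℂ → ℂ) : Prop := N.ev f = (A : Germ N.F ℂ)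

theorem exists_rep (f : K) : ∃ A, N.Rep f A := by
  induction h : N.ev f using Germ.inductionOn with
  | h A => exact ⟨A, h⟩

variable {N}

theorem Rep.add {f g : K} {A B : ℂ → ℂ} (h : N.Rep f A) (h' : N.Rep g B) :
    N.Rep (f + g) (fun z => A z + B z) := by
  unfold Rep at *
  rw [map_add, h, h']; rfl

theorem Rep.mul {f g : K} {A B : ℂ → ℂ} (h : N.Rep f A) (h' : N.Rep g B) :
    N.Rep (f * g) (fun z => A z * B z) := by
  unfold Rep at *
  rw [map_mul, h, h']; rfl

theorem Rep.neg {f : K} {A : ℂ → ℂ} (h : N.Rep f A) : N.Rep (-f) (fun z => -A z) := by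
  unfold Rep at *
  rw [map_neg, h]; rfl

theorem Rep.sub {f g : K} {A B : ℂ → ℂ} (h : N.Rep f A) (h' : N.Rep g B) :
    N.Rep (f - g) (fun z => A z - B z) := by
  unfold Rep at *
  rw [map_sub, h, h']; rfl

theorem Rep.one : N.Rep 1 (fun _ => 1) := by
  unfold Rep
  rw [map_one]; rfl

theorem Rep.zero : N.Rep 0 (fun _ => 0) := by
  unfold Rep
  rw [map_zero]; rfl

theorem Rep.two : N.Rep 2 (fun _ => 2) := by
  have := (Rep.one (N := N)).add Rep.one
  rwa [one_add_one_eq_two, one_add_one_eq_two] at this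

theorem Rep.pow {f : K} {A : ℂ → ℂ} (h : N.Rep f A) (n : ℕ) :
    N.Rep (f ^ n) (fun z => A z ^ n) := by
  induction n with
  | zero => simpa using Rep.one
  | succ n ih => simpa only [pow_succ] using ih.mul h

theorem Rep.congr {f : K} {A B : ℂ → ℂ} (h : N.Rep f A) (h' : A =ᶠ[N.F] B) : N.Rep f B :=
  h.trans (Germ.coe_eq.2 h')

theorem Rep.unique {f : K} {A B : ℂ → ℂ} (h : N.Rep f A) (h' : N.Rep f B) : A =ᶠ[N.F] B :=
  Germ.coe_eq.1 (h.symm.trans h')

theorem Rep.ne_zero {f : K} {A : ℂ → ℂ} (h : N.Rep f A) (hf : f ≠ 0) :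
    ∀ᶠ z in N.F, A z ≠ 0 := by
  obtain ⟨B, hB⟩ := N.exists_rep f⁻¹
  have h1 := h.mul hB
  rw [mul_inv_cancel₀ hf] at h1
  filter_upwards [h1.unique Rep.one] with z hz
  exact left_ne_zero_of_mul_eq_one hz

theorem Rep.inv {f : K} {A : ℂ → ℂ} (h : N.Rep f A) : N.Rep f⁻¹ (fun z => (A z)⁻¹) := by
  by_cases hf : f = 0
  · subst hf
    rw [inv_zero]
    refine Rep.zero.congr ?_
    filter_upwards [h.unique Rep.zero] with z hz
    simp [hz]
  obtain ⟨B, hB⟩ := N.exists_rep f⁻¹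
  have h1 := h.mul hB
  rw [mul_inv_cancel₀ hf] at h1
  refine hB.congr ?_
  filter_upwards [h1.unique Rep.one] with z hz
  exact eq_inv_of_mul_eq_one_right hz

theorem Rep.div {f g : K} {A B : ℂ → ℂ} (h : N.Rep f A) (h' : N.Rep g B) :
    N.Rep (f / g) (fun z => A z / B z) := by
  simpa only [div_eq_mul_inv] using h.mul h'.inv

theorem Rep.zpow {f : K} {A : ℂ → ℂ} (h : N.Rep f A) (n : ℤ) :
    N.Rep (f ^ n) (fun z => A z ^ n) := by
  cases n with
  | ofNat n => simpa using h.pow n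
  | negSucc n => simpa only [zpow_negSucc] using (h.pow (n + 1)).inv

theorem Rep.prod {ι : Type*} (s : Finset ι) {f : ι → K} {A : ι → ℂ → ℂ}
    (h : ∀ i ∈ s, N.Rep (f i) (A i)) : N.Rep (∏ i ∈ s, f i) (fun z => ∏ i ∈ s, A i z) := by
  classical
  induction s using Finset.induction_on with
  | empty => simpa using Rep.one
  | insert a s ha ih =>
    simp only [Finset.prod_insert ha]
    exact (h a (mem_insert_self _ _)).mul (ih fun i hi => h i (mem_insert_of_mem hi))

theorem Rep.sum {ι : Type*} (s : Finset ι) {f : ι → K} {A : ι → ℂ → ℂ}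
    (h : ∀ i ∈ s, N.Rep (f i) (A i)) : N.Rep (∑ i ∈ s, f i) (fun z => ∑ i ∈ s, A i z) := by
  classical
  induction s using Finset.induction_on with
  | empty => simpa using Rep.zero
  | insert a s ha ih =>
    simp only [Finset.sum_insert ha]
    exact (h a (mem_insert_self _ _)).add (ih fun i hi => h i (mem_insert_of_mem hi))

theorem Rep.intCast (n : ℤ) : N.Rep (n : K) (fun _ => (n : ℂ)) := by
  unfold Rep
  rw [map_intCast]; rfl

theorem Rep.ite {p : Prop} [Decidable p] {f g : K} {A B : ℂ → ℂ} (h : N.Rep f A)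
    (h' : N.Rep g B) : N.Rep (if p then f else g) (fun z => if p then A z else B z) := by
  split_ifs
  · exact h
  · exact h'

theorem Rep.detM {n : ℕ} {w : Fin n → Fin n → K} {W : ℂ → Fin n → Fin n → ℂ}
    (h : ∀ i j, N.Rep (w i j) (fun z => W z i j)) :
    N.Rep (detM K n w) (fun z => detM ℂ n (W z)) := by
  simp only [detM_apply, Matrix.det_apply', Matrix.of_apply]
  exact Rep.sum _ fun σ _ => (Rep.intCast _).mul (Rep.prod _ fun i _ => h _ _)

theorem Rep.mon12 {s w : K} {A B : ℂ → ℂ} (h : N.Rep s A) (h' : N.Rep w B) (k : Fin 12) :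
    N.Rep (mon12 s w k) (fun z => mon12 (A z) (B z) k) := by
  fin_cases k
  · exact Rep.one
  · exact h
  · exact h.pow 2
  · exact h.pow 3
  · exact h.pow 4
  · exact h.pow 5
  · exact h'
  · exact h.mul h'
  · exact (h.pow 2).mul h'
  · exact (h.pow 3).mul h'
  · exact h'.pow 2
  · exact h.mul (h'.pow 2)

theorem Rep.dmon12 {s w : K} {A B : ℂ → ℂ} (h : N.Rep s A) (h' : N.Rep w B) (k : Fin 12) :
    N.Rep (dmon12 s w k) (fun z => dmon12 (A z) (B z) k) := by
  fin_cases k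
  · exact Rep.zero
  · exact Rep.zero
  · exact Rep.zero
  · exact Rep.zero
  · exact Rep.zero
  · exact Rep.zero
  · exact Rep.one
  · exact h
  · exact h.pow 2
  · exact h.pow 3
  · exact Rep.two.mul h'
  · exact (Rep.two.mul h).mul h'

theorem Rep.Th (e1 e2 : Bool) (a b c d : Fin 12) {s w : Fin 12 → K} {A B : Fin 12 → ℂ → ℂ}
    (h : ∀ i, N.Rep (s i) (A i)) (h' : ∀ i, N.Rep (w i) (B i)) :
    N.Rep (Th e1 e2 a b c d s w) (fun z => Th e1 e2 a b c d (fun i => A i z) (fun i => B i z)) := by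
  unfold Pool.Agent.P.MP_7ede32_ag.N.Th
  refine Rep.detM fun i j => ?_
  unfold row
  split_ifs
  · exact (h _).dmon12 (h' _) j
  · exact (h _).mon12 (h' _) j

theorem ord_const [CharZero K] (N : Ev K) (q : ℂ) {c : K} (hc : c ≠ 0) (h : N.D c = 0) :
    (N.loc q).ord c = 0 := (N.loc q).ord_const hc (by rw [N.hD, h])

theorem L_eq (N : Ev K) (q : ℂ) (x : K) : (N.loc q).toDer.L x = N.toDer.L x := by
  unfold Der.L; rw [N.hD]

end Ev

/-- two classes of small elements: small proximity (`S`) and small characteristic (`T`) -/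
structure Small (N : Ev K) (S T : K → Prop) : Prop where
  dom : ∀ {κ : Type} [Fintype κ] (h : κ → K) (H : κ → ℂ → ℂ) (f : K) (A : ℂ → ℂ) (C M : ℝ),
    (∀ k, S (h k)) → (∀ k, N.Rep (h k) (H k)) → N.Rep f A →
    (∀ᶠ z in N.F, ∀ Λ : ℝ, 1 ≤ Λ → (∀ k, ‖H k z‖ ≤ Λ) → Real.log ‖A z‖ ≤ C + M * Real.log Λ) →
    S f
  S_add : ∀ {f g}, S f → S g → S (f + g)
  S_mul : ∀ {f g}, S f → S g → S (f * g)
  TS : ∀ {f}, T f → S f
  T_add : ∀ {f g}, T f → T g → T (f + g)
  T_mul : ∀ {f g}, T f → T g → T (f * g)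
  T_inv : ∀ {f}, T f → T f⁻¹
  T_const : ∀ {c}, N.D c = 0 → T c
  bound : ∀ {g ψ}, g ≠ 0 → S g → S (g * ψ) →
    (∀ q, 0 ≤ (N.loc q).ord g ∧ (ψ ≠ 0 → -(N.loc q).ord ψ ≤ (N.loc q).ord g)) → T ψ

/-- the value distribution input: logarithmic derivatives of a nonconstant family are small
but the family is not -/
def Ev.Nev (N : Ev K) : Prop :=
  ∀ {ι : Type} [Fintype ι] (b : ι → K), (∀ i, b i ≠ 0) → (∃ i, N.D (b i) ≠ 0) →
    ∃ S T : K → Prop, Small N S T ∧ (∀ i, S (N.toDer.L (b i))) ∧ ¬∀ i, T (b i)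

namespace Small

variable {N : Ev K} {S T : K → Prop} (H : Small N S T)
include H

theorem T_neg {f : K} (h : T f) : T (-f) := by
  have := H.T_mul (H.T_const (c := -1) (by rw [N.toDer.D_neg, N.toDer.D_one, neg_zero])) h
  rwa [neg_one_mul] at this

theorem T_sub {f g : K} (h : T f) (h' : T g) : T (f - g) := by
  rw [sub_eq_add_neg]; exact H.T_add h (H.T_neg h')

theorem T_div {f g : K} (h : T f) (h' : T g) : T (f / g) := by
  rw [div_eq_mul_inv]; exact H.T_mul h (H.T_inv h')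

theorem S_neg {f : K} (h : S f) : S (-f) := by
  have := H.S_mul (H.TS (H.T_const (c := -1)
    (by rw [N.toDer.D_neg, N.toDer.D_one, neg_zero]))) h
  rwa [neg_one_mul] at this

theorem S_sub {f g : K} (h : S f) (h' : S g) : S (f - g) := by
  rw [sub_eq_add_neg]; exact H.S_add h (H.S_neg h')

theorem S_divc {f c : K} (h : S f) (hc : N.D c = 0) : S (f / c) := by
  rw [div_eq_mul_inv]; exact H.S_mul h (H.TS (H.T_inv (H.T_const hc)))

end Small

theorem five_arith (n0 n1 n2 n3 d : ℤ) (k0 : n0 - 1 ≤ d) (k1 : n1 - 1 ≤ d)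
    (k2 : n2 - 1 ≤ d) (k3 : n3 - 1 ≤ d) (p0 : 0 ≤ n0 → 0 ≤ d) (e0 : Even n0) (e1 : Even n1)
    (e2 : Even n2) (e3 : Even n3) (t01 : n0 ≤ 0 ∨ n1 ≤ 0) (t02 : n0 ≤ 0 ∨ n2 ≤ 0)
    (t03 : n0 ≤ 0 ∨ n3 ≤ 0) (t12 : n1 ≤ 0 ∨ n2 ≤ 0) (t13 : n1 ≤ 0 ∨ n3 ≤ 0)
    (t23 : n2 ≤ 0 ∨ n3 ≤ 0) (u1 : n0 < 0 → n1 = n0) (u2 : n0 < 0 → n2 = n0)
    (u3 : n0 < 0 → n3 = n0) (v1 : n1 < 0 → n0 = n1) (v2 : n2 < 0 → n0 = n2)
    (v3 : n3 < 0 → n0 = n3) :
    0 ≤ 2 * d - (n0 + n1 + n2 + n3) ∧ -n0 ≤ 2 * d - (n0 + n1 + n2 + n3) := by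
  obtain ⟨m0, rfl⟩ := e0
  obtain ⟨m1, rfl⟩ := e1
  obtain ⟨m2, rfl⟩ := e2
  obtain ⟨m3, rfl⟩ := e3
  by_cases h : m0 + m0 < 0
  · have h1 := u1 h
    have h2 := u2 h
    have h3 := u3 h
    clear u1 u2 u3 v1 v2 v3 t01 t02 t03 t12 t13 t23 p0
    omega
  · have h0 := p0 (not_lt.1 h)
    have h1 : 0 ≤ m1 := by by_contra h'; have := v1 (by omega); omega
    have h2 : 0 ≤ m2 := by by_contra h'; have := v2 (by omega); omega
    have h3 : 0 ≤ m3 := by by_contra h'; have := v3 (by omega); omega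
    clear u1 u2 u3 v1 v2 v3 p0
    omega

/-- a function ramified over five constant points (one of them infinity) is constant -/
theorem five_points [CharZero K] {N : Ev K} (hN : N.Nev) (f : K) (a : Fin 4 → K)
    (ha : ∀ i, N.D (a i) = 0) (hi : Function.Injective a) (hf : ∀ i, f - a i ≠ 0)
    (he : ∀ q i, Even ((N.loc q).ord (f - a i))) : N.D f = 0 := by
  by_contra hne
  have hD : ∀ i, N.D (f - a i) = N.D f := fun i => by rw [N.toDer.D_sub, ha, sub_zero]
  obtain ⟨S, T, H, hL, hT⟩ := hN (fun i => f - a i) hf ⟨0, by rwa [hD]⟩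
  have hd : ∀ i j, i ≠ j → a i - a j ≠ 0 := fun i j h => sub_ne_zero.2 fun h' => h (hi h')
  have hc : ∀ i j, N.D (a i - a j) = 0 := fun i j => by rw [N.toDer.D_sub, ha, ha, sub_zero]
  simp only [Der.L, hD] at hL
  have h0 := hf 0
  have h1 := hf 1
  have h2 := hf 2
  have h3 := hf 3
  have h01 := hd 0 1 (by decide)
  have h23 := hd 2 3 (by decide)
  have hP : (f - a 0) * (f - a 1) * (f - a 2) * (f - a 3) ≠ 0 :=
    mul_ne_zero (mul_ne_zero (mul_ne_zero h0 h1) h2) h3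
  have key : T (f - a 0) := by
    refine H.bound (g := N.D f ^ 2 / ((f - a 0) * (f - a 1) * (f - a 2) * (f - a 3)))
      (div_ne_zero (pow_ne_zero _ hne) hP) ?_ ?_ fun q => ?_
    · have := H.S_mul (H.S_divc (H.S_sub (hL 0) (hL 1)) (hc 0 1))
        (H.S_divc (H.S_sub (hL 2) (hL 3)) (hc 2 3))
      convert this using 1
      field_simp
      ring
    · have := H.S_mul (hL 1) (H.S_divc (H.S_sub (hL 2) (hL 3)) (hc 2 3))
      convert this using 1
      field_simp
      ring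
    · set L := N.loc q with hLq
      rw [L.ord_div (pow_ne_zero _ hne) hP, L.ord_pow hne,
        L.ord_mul _ _ (mul_ne_zero (mul_ne_zero h0 h1) h2) h3,
        L.ord_mul _ _ (mul_ne_zero h0 h1) h2, L.ord_mul _ _ h0 h1]
      have key : ∀ i, L.ord (f - a i) - 1 ≤ L.ord (N.D f) ∧
          (0 ≤ L.ord (f - a i) → 0 ≤ L.ord (N.D f)) := by
        intro i
        refine ⟨?_, fun h => ?_⟩
        · have := (Loc.Ge.self (L := L) (f - a i)).D
          rw [hLq, N.hD, hD] at this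
          exact this.le hne
        · have := (Loc.Ge.of_le (L := L) h).D0
          rw [hLq, N.hD, hD] at this
          exact this.le hne
      have tri : ∀ i j, i ≠ j → (L.ord (f - a i) ≤ 0 ∨ L.ord (f - a j) ≤ 0) ∧
          (L.ord (f - a i) < 0 → L.ord (f - a j) = L.ord (f - a i)) ∧
          (L.ord (f - a j) < 0 → L.ord (f - a i) = L.ord (f - a j)) := by
        intro i j hij
        have h4 : f - a i - (f - a j) = a j - a i := by ring
        refine L.ord_tri (hf i) (hf j) (by rw [h4]; exact hd _ _ hij.symm) ?_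
        rw [h4]
        exact N.ord_const q (hd _ _ hij.symm) (hc _ _)
      have t01 := tri 0 1 (by decide)
      have t02 := tri 0 2 (by decide)
      have t03 := tri 0 3 (by decide)
      have t12 := tri 1 2 (by decide)
      have t13 := tri 1 3 (by decide)
      have t23 := tri 2 3 (by decide)
      have := five_arith _ _ _ _ _ (key 0).1 (key 1).1 (key 2).1 (key 3).1 (key 0).2
        (he q 0) (he q 1) (he q 2) (he q 3) t01.1 t02.1 t03.1 t12.1 t13.1 t23.1
        t01.2.1 t02.2.1 t03.2.1 t01.2.2 t02.2.2 t03.2.2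
      push_cast
      exact ⟨this.1, fun _ => this.2⟩
  refine hT fun i => ?_
  have := H.T_add key (H.T_const (hc 0 i))
  rwa [sub_add_sub_cancel] at this

end Pool.Agent.P.MP_7ede32_ag.N
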