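import Pool.Agent.P.MP_7ede32_ag.Theta

namespace Pool.Agent.P.MP_7ede32_ag.N

open Finset Matrix

variable {K : Type*} [Field K]

/-- rows carrying a derivative -/
def isD (e1 e2 : Bool) (c d i : Fin 12) : Prop := (e1 = true ∧ i = c) ∨ (e2 = true ∧ i = d)

instance (e1 e2 : Bool) (c d i : Fin 12) : Decidable (isD e1 e2 c d i) := by
  unfold isD; infer_instance

/-- the point used in row `i` -/
def pt (e1 e2 : Bool) (a b c d i : Fin 12) : Fin 12 :=
  if e1 = true ∧ i = c then a else if e2 = true ∧ i = d then b else i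

/-- rows of the twelve by twelve determinant -/
def row (e1 e2 : Bool) (a b c d : Fin 12) (s w : Fin 12 → K) (i : Fin 12) : Fin 12 → K :=
  if isD e1 e2 c d i then dmon12 (s (pt e1 e2 a b c d i)) (w (pt e1 e2 a b c d i))
  else mon12 (s (pt e1 e2 a b c d i)) (w (pt e1 e2 a b c d i))

noncomputable def Th (e1 e2 : Bool) (a b c d : Fin 12) (s w : Fin 12 → K) : K :=
  detM K 12 (row e1 e2 a b c d s w)

/-- number of derivative rows -/
def nD (e1 e2 : Bool) : ℕ := e1.toNat + e2.toNat

theorem prod_isD {M : Type*} [CommMonoid M] (e1 e2 : Bool) {c d : Fin 12} (hcd : c ≠ d) (g : M) :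
    (∏ i : Fin 12, if isD e1 e2 c d i then g else 1) = g ^ nD e1 e2 := by
  rw [← Finset.prod_filter, Finset.prod_const]
  congr 1
  cases e1 <;> cases e2
  · simp [isD, nD]
  · simp [isD, nD, Finset.filter_eq']
  · simp [isD, nD, Finset.filter_eq']
  · have : (univ.filter fun i : Fin 12 => isD true true c d i) = {c, d} := by
      ext i; simp [isD]
    rw [this, card_pair hcd]; rfl

theorem Th_mat (e1 e2 : Bool) (a b c d : Fin 12) (s w s' w' : Fin 12 → K)
    (A : Matrix (Fin 12) (Fin 12) K) (f g : Fin 12 → K)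
    (h1 : ∀ i, A.mulVec (mon12 (s i) (w i)) = f i • mon12 (s' i) (w' i))
    (h2 : ∀ i, A.mulVec (dmon12 (s i) (w i)) = g i • dmon12 (s' i) (w' i)) :
    (∏ i, if isD e1 e2 c d i then g (pt e1 e2 a b c d i) else f (pt e1 e2 a b c d i)) *
      Th e1 e2 a b c d s' w' = A.det * Th e1 e2 a b c d s w := by
  have h := detM_mulVec A (row e1 e2 a b c d s w)
  unfold Th
  rw [← h, ← smul_eq_mul, ← MultilinearMap.map_smul_univ]
  refine congrArg (detM K 12) (funext fun i => ?_)
  unfold row
  split_ifs with hi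
  · rw [h2]
  · rw [h1]

theorem Th_affine (e1 e2 : Bool) {a b c d : Fin 12} (hcd : c ≠ d) (s w : Fin 12 → K)
    (a0 b0 g a1 b1 : K) :
    g ^ nD e1 e2 * Th e1 e2 a b c d (fun i => a0 * s i + b0) (fun i => g * w i + a1 * s i + b1) =
      a0 ^ 22 * g ^ 8 * Th e1 e2 a b c d s w := by
  rw [← prod_isD e1 e2 hcd, ← A12_det a0 b0 g a1 b1]
  exact Th_mat e1 e2 a b c d s w _ _ (A12 a0 b0 g a1 b1) (fun _ => 1) (fun _ => g)
    (fun i => by rw [A12_mon, one_smul]) (fun i => by rw [A12_dmon])

theorem Th_inv (e1 e2 : Bool) (a b c d : Fin 12) (s w : Fin 12 → K) (hs : ∀ i, s i ≠ 0) :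
    (∏ i, if isD e1 e2 c d i then -s (pt e1 e2 a b c d i) ^ 3 else s (pt e1 e2 a b c d i) ^ 5) *
      Th e1 e2 a b c d (fun i => (s i)⁻¹) (fun i => -w i / s i ^ 2) =
      (J12.map (Int.cast : ℤ → K)).det * Th e1 e2 a b c d s w :=
  Th_mat e1 e2 a b c d s w _ _ _ (fun i => s i ^ 5) (fun i => -s i ^ 3)
    (fun i => J12_mon _ _ (hs i)) (fun i => J12_dmon _ _ (hs i))

theorem sum_pt {R : Type*} [CommRing R] (e1 e2 : Bool) {a b c d : Fin 12} (hcd : c ≠ d)
    (f : Fin 12 → Fin 12 → R) :
    ∑ i, f i (pt e1 e2 a b c d i) =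
      ∑ i, f i i + e1.toNat * (f c a - f c c) + e2.toNat * (f d b - f d d) := by
  have h : ∀ i, f i (pt e1 e2 a b c d i) = f i i +
      (if i = c then e1.toNat * (f c a - f c c) else 0) +
      (if i = d then e2.toNat * (f d b - f d d) else 0) := by
    intro i
    unfold pt
    by_cases h1 : i = c
    · subst h1; cases e1 <;> simp [hcd]
    · by_cases h2 : i = d
      · subst h2; cases e2 <;> simp [h1]
      · simp [h1, h2]
  simp only [h, sum_add_distrib, sum_ite_eq', mem_univ, if_true]

/-- classes that contain a point with a derivative row -/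
def isT (e1 e2 : Bool) (u v x : Fin 12) : Prop := (e1 = true ∧ u = x) ∨ (e2 = true ∧ v = x)

instance (e1 e2 : Bool) (u v x : Fin 12) : Decidable (isT e1 e2 u v x) := by
  unfold isT; infer_instance

theorem Th_local0 [CharZero K] (L : Loc K) {e1 e2 : Bool} (h21 : e2 = true → e1 = true)
    {a b c d : Fin 12} (hac : a ≠ c) (had : a ≠ d)
    (hbc : b ≠ c) (hbd : b ≠ d) (hcd : c ≠ d) (y : Fin 12 → K) (h0 : ∀ i, L.Ge 0 (y i))
    (lab : ℕ → Fin 12 → Fin 12)
    (hlab : ∀ (r : ℕ) i j, lab r i = lab r j ↔ L.Ge (2 * r) (y i - y j)) (R : ℕ) :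
    L.Ge (∑ r ∈ range R, ((∑ x, ∑ k ∈ range (csz (fun i => lab (r + 1) (pt e1 e2 a b c d i)) x),
      (if isT e1 e2 (lab (r + 1) a) (lab (r + 1) b) x then wT else wN) k) + -2 * nD e1 e2))
      (Th e1 e2 a b c d y (fun i => L.D (y i))) := by
  classical
  have hp := L.p_ne
  have hmono : ∀ r i j, lab (r + 1) i = lab (r + 1) j → lab r i = lab r j := fun r i j h =>
    (hlab r i j).2 (((hlab (r + 1) i j).1 h).mono (by push_cast; omega))
  set pt := pt e1 e2 a b c d with hpt
  have hpa : pt a = a := by simp [hpt, N.pt, hac, had]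
  have hpb : pt b = b := by simp [hpt, N.pt, hbc, hbd]
  have hpc : e1 = true → pt c = a := fun h => by simp [hpt, N.pt, h]
  have hpd : e2 = true → pt d = b := fun h => by simp [hpt, N.pt, hcd.symm, h]
  have hDa : ¬isD e1 e2 c d a := by simp [isD, hac, had]
  have hDb : ¬isD e1 e2 c d b := by simp [isD, hbc, hbd]
  have hDc : e1 = true → isD e1 e2 c d c := fun h => Or.inl ⟨h, rfl⟩
  have hDd : e2 = true → isD e1 e2 c d d := fun h => Or.inr ⟨h, rfl⟩
  let sg : ℕ → Fin 12 → K := fun r i => (y i - y (cenq a b (lab r) i)) / L.p ^ (2 * r)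
  let be : ℕ → Fin 12 → K := fun r i =>
    (y (cenq a b (lab (r + 1)) i) - y (cenq a b (lab r) i)) / L.p ^ (2 * r)
  have hsg : ∀ r i, L.Ge 0 (sg r i) := fun r i =>
    level_int ((hlab r _ _).1 (cenq_lab a b (lab r) i).symm)
  have hbe : ∀ r i, L.Ge 0 (be r i) := fun r i =>
    level_int ((hlab r _ _).1
      ((hmono r _ _ (cenq_lab a b (lab (r + 1)) i)).trans (cenq_lab a b (lab r) i).symm))
  have hsga : ∀ r, sg r a = 0 := fun r => by simp [sg, cenq_a]
  have hsgb : ∀ r, lab r b ≠ lab r a → sg r b = 0 := fun r h => by simp [sg, cenq_b a b _ h]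
  let U : ℕ → Fin 12 → Matrix (Fin 12) (Fin 12) K := fun r i =>
    A12 1 (be r i) 1 0 (L.D (be r i))
  have hU : ∀ r i j, lab (r + 1) i = lab (r + 1) j → U r i = U r j := fun r i j h => by
    simp only [U, be, cenq_congr a b _ h, cenq_congr a b _ (hmono r i j h)]
  have hUa : ∀ r, U r a = 1 := fun r => by
    simp only [U, be, cenq_a, sub_self, zero_div, L.toDer.D_zero, A12_one]
  have hUb : ∀ r, lab r b ≠ lab r a → U r b = 1 := fun r h => by
    simp only [U, be, cenq_b a b _ h, cenq_b a b _ (fun h' => h (hmono r _ _ h')), sub_self,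
      zero_div, L.toDer.D_zero, A12_one]
  let iT : ℕ → Fin 12 → Prop := fun r x => isT e1 e2 (lab (r + 1) a) (lab (r + 1) b) x
  let La : ℕ → Fin 12 → Matrix (Fin 12) (Fin 12) K := fun r x =>
    if iT r x then La12T L.p else La12 L.p
  let E : ℕ → Fin 12 → Matrix (Fin 12) (Fin 12) K := fun r x =>
    if iT r x then E12T L.p 2⁻¹ else E12 L.p 2⁻¹
  let wt : ℕ → Fin 12 → Fin 12 → ℕ := fun r x => if iT r x then wt12T else wt12
  have hTa : e1 = true → ∀ r, iT r (lab (r + 1) a) := fun h r => Or.inl ⟨h, rfl⟩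
  have hTb : e2 = true → ∀ r, iT r (lab (r + 1) b) := fun h r => Or.inr ⟨h, rfl⟩
  have hz : ∀ r x s w, ∑ k, (L.p ^ wt r x k * (La r x).mulVec (mon12 s w) k) • E r x k =
      mon12 (L.p ^ 2 * s) (L.p ^ 2 * w + 2 * L.p * s) := by
    intro r x s w
    by_cases h : iT r x
    · simp only [wt, La, E, if_pos h]; exact zoom12T _ _ _
    · simp only [wt, La, E, if_neg h]; exact zoom12 _ _ _
  have hzd : ∀ r x s w, ∑ k, (L.p ^ wt r x k * (La r x).mulVec (dmon12 s w) k) • E r x k =
      L.p ^ 2 • dmon12 (L.p ^ 2 * s) (L.p ^ 2 * w + 2 * L.p * s) := by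
    intro r x s w
    by_cases h : iT r x
    · simp only [wt, La, E, if_pos h]; exact zoom12Td _ _ _
    · simp only [wt, La, E, if_neg h]; exact zoom12d _ _ _
  have key := tower L (fun r i => lab r (pt i)) (fun r i j h => hmono r _ _ h)
    (fun r => row e1 e2 a b c d (sg r) (fun i => L.D (sg r i)))
    (fun r w => (∀ i, L.IntV (w i)) ∧ (e1 = true → w a = mon12 0 0 ∧ w c = dmon12 0 0) ∧
      (e2 = true → lab r b ≠ lab r a → w b = mon12 0 0 ∧ w d = dmon12 0 0))
    (fun r => by
      refine ⟨fun i => ?_, fun h1 => ⟨?_, ?_⟩, fun h2 h => ⟨?_, ?_⟩⟩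
      · unfold row
        split_ifs
        · exact dmon12_int L (hsg r _) (hsg r _).D0
        · exact mon12_int L (hsg r _) (hsg r _).D0
      · simp only [row, ← hpt, hpa, hsga, L.toDer.D_zero, if_neg hDa]
      · simp only [row, ← hpt, hpc h1, hsga, L.toDer.D_zero, if_pos (hDc h1)]
      · simp only [row, ← hpt, hpb, hsgb r h, L.toDer.D_zero, if_neg hDb]
      · simp only [row, ← hpt, hpd h2, hsgb r h, L.toDer.D_zero, if_pos (hDd h2)])
    (fun r i => zoomL (U r (pt i)) (La r (lab (r + 1) (pt i))) (E r (lab (r + 1) (pt i)))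
      (fun k => L.p ^ wt r (lab (r + 1) (pt i)) k))
    (fun r i j h => by
      simp only [hU r _ _ h, h])
    (fun i => if isD e1 e2 c d i then L.p ^ (-2 : ℤ) else 1) (-2 * nD e1 e2)
    (by
      rw [prod_isD e1 e2 hcd, ← zpow_natCast, ← _root_.zpow_mul]
      exact Loc.Ge.pzpow _)
    (fun r i => by
      obtain ⟨h1, h2⟩ := level_coord L (y (pt i)) (y (cenq a b (lab (r + 1)) (pt i)))
        (y (cenq a b (lab r) (pt i))) r
      simp only [row, ← hpt]
      split_ifs with hi
      · rw [zoomL_apply', hzd, Matrix.mulVec_smul, A12_dmon, one_smul, smul_smul]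
        have : L.p ^ (-2 : ℤ) * L.p ^ 2 = 1 := by
          rw [_root_.zpow_neg, zpow_ofNat]; exact inv_mul_cancel₀ (pow_ne_zero _ hp)
        rw [this, one_smul]
        simp only [sg, be]
        rw [← h1, ← h2]
      · rw [one_smul, zoomL_apply', hz, A12_mon]
        simp only [sg, be]
        rw [← h1, ← h2])
    (fun r => ∑ x, ∑ k ∈ range (csz (fun i => lab (r + 1) (pt i)) x),
      (if iT r x then wT else wN) k)
    (fun r φ h1 h2 w hw => by
      obtain ⟨hw0, hwa, hwb⟩ := hw
      simp only [zoomL_apply]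
      refine step L φ (fun i j => lab (r + 1) (pt i) = lab (r + 1) (pt j)) h1 _ h2
        (fun i k => (U r (pt i)).mulVec (E r (lab (r + 1) (pt i)) k))
        (fun i j h => by simp only [hU r _ _ h, h])
        (fun i k => L.p ^ wt r (lab (r + 1) (pt i)) k *
          (La r (lab (r + 1) (pt i))).mulVec (w i) k) _ fun f hf hne => ?_
      have hfa : e1 = true → f a = 0 := fun h => by
        have := right_ne_zero_of_mul (hne a)
        simp only [hpa, La, if_pos (hTa h r), (hwa h).1, La12T_mon0] at this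
        exact single_ne this
      have hfc : e1 = true → f c = 1 := fun h => by
        have := right_ne_zero_of_mul (hne c)
        simp only [hpc h, La, if_pos (hTa h r), (hwa h).2, La12T_dmon0] at this
        exact single_ne this
      have hfb : e2 = true → lab (r + 1) b ≠ lab (r + 1) a → f b = 0 := fun h2 h => by
        have := right_ne_zero_of_mul (hne b)
        simp only [hpb, La, if_pos (hTb h2 r), (hwb h2 h).1, La12T_mon0] at this
        exact single_ne this
      have hfd : e2 = true → lab (r + 1) b ≠ lab (r + 1) a → f d = 1 := fun h2 h => by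
        have := right_ne_zero_of_mul (hne d)
        simp only [hpd h2, La, if_pos (hTb h2 r), (hwb h2 h).2, La12T_dmon0] at this
        exact single_ne this
      refine ⟨⟨fun i => ?_, fun h1 => ⟨?_, ?_⟩, fun h2 h => ⟨?_, ?_⟩⟩, ?_⟩
      · refine Loc.IntV.mulVec (A12_int L _ _ _ _ _ Loc.Ge.one (hbe r _) Loc.Ge.one
          (Loc.Ge.zero _) (hbe r _).D0) fun k => ?_
        simp only [E]
        split_ifs
        · exact E12T_int L _ _ Loc.Ge.pp0 Loc.Ge.half _ _
        · exact E12_int L _ _ Loc.Ge.pp0 Loc.Ge.half _ _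
      · simp only [hpa, hUa, E, if_pos (hTa h1 r), hfa h1, E12T_zero, Matrix.one_mulVec]
      · simp only [hpc h1, hUa, E, if_pos (hTa h1 r), hfc h1, E12T_one, Matrix.one_mulVec]
      · simp only [hpb, hUb r h, E, if_pos (hTb h2 r), hfb h2 (fun h' => h (hmono r _ _ h')),
          E12T_zero, Matrix.one_mulVec]
      · simp only [hpd h2, hUb r h, E, if_pos (hTb h2 r), hfd h2 (fun h' => h (hmono r _ _ h')),
          E12T_one, Matrix.one_mulVec]
      · refine (Loc.Ge.prod univ _
          (fun i => (if iT r (lab (r + 1) (pt i)) then wT else wN) (f i).val)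
          fun i _ => ?_).mono ?_
        · by_cases hT : iT r (lab (r + 1) (pt i))
          · simp only [wt, La, if_pos hT]
            have he1 : e1 = true := hT.elim (fun h => h.1) fun h => h21 h.1
            by_cases h1 : f i = 1
            · have hwi : w i = dmon12 0 0 := by
                by_cases h3 : lab (r + 1) (pt i) = lab (r + 1) a
                · by_cases h4 : i = c
                  · rw [h4, (hwa he1).2]
                  · exact absurd (h1.trans (hfc he1).symm)
                      (hf i c h4 (by rw [hpc he1]; exact h3))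
                · obtain ⟨he2, h5⟩ := hT.resolve_left fun h => h3 h.2.symm
                  have h6 : lab (r + 1) b ≠ lab (r + 1) a := fun h => h3 (h5.symm.trans h)
                  by_cases h4 : i = d
                  · rw [h4, (hwb he2 h6).2]
                  · exact absurd (h1.trans (hfd he2 h6).symm)
                      (hf i d h4 (by rw [hpd he2]; exact h5.symm))
              rw [hwi, h1, La12T_dmon0, Pi.single_eq_same]
              exact (Loc.Ge.ppow _).mul' Loc.Ge.pp (by decide)
            · exact (Loc.Ge.ppow _).mul' (Loc.IntV.mulVec (La12T_int L _ Loc.Ge.pp0) (hw0 i) _)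
                (by rw [wT_eq _ h1]; omega)
          · simp only [wt, La, if_neg hT]
            exact (Loc.Ge.ppow _).mul' (Loc.IntV.mulVec (La12_int L _ Loc.Ge.pp0) (hw0 i) _)
              (by rw [wN_eq]; omega)
        · rw [← Finset.sum_fiberwise (s := univ) (g := fun i => lab (r + 1) (pt i))
            (f := fun i => (if iT r (lab (r + 1) (pt i)) then wT else wN) (f i).val)]
          refine Finset.sum_le_sum fun x _ => ?_
          refine (sum_range_le_of_inj (if iT r x then wT else wN)
            (by split_ifs; exacts [wT_mono, wN_mono])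
            (univ.filter fun i => lab (r + 1) (pt i) = x)
            (fun i => (f i).val) fun i hi j hj hij h =>
              hf i j hij ((mem_filter.1 hi).2.trans (mem_filter.1 hj).2.symm)
                (Fin.ext h)).trans (le_of_eq ?_)
          refine Finset.sum_congr rfl fun i hi => ?_
          rw [(mem_filter.1 hi).2])
    R 0 (detM K 12) (fun w i j hij _ h => detM_alt w hij h)
    (fun w hw => by rw [detM_apply]; exact L.det_int w hw.1)
  have hc : ∀ i, cenq a b (lab 0) i = a := fun i =>
    (cenq_congr a b _ ((hlab 0 i a).2 (by simpa using (h0 i).sub (h0 a)))).trans (cenq_a _ _ _)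
  have h3 : detM K 12 (row e1 e2 a b c d (sg 0) (fun i => L.D (sg 0 i))) =
      Th e1 e2 a b c d y (fun i => L.D (y i)) := by
    have := Th_affine e1 e2 (a := a) (b := b) hcd y (fun i => L.D (y i)) 1 (-y a) 1 0
      (-L.D (y a))
    simp only [one_pow, one_mul, zero_mul, add_zero] at this
    rw [← this]
    unfold Th
    congr 2
    · funext i
      simp only [sg, hc i, mul_zero, pow_zero, div_one, sub_eq_add_neg]
    · funext i
      simp only [sg, hc i, mul_zero, pow_zero, div_one, sub_eq_add_neg]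
      rw [L.toDer.D_add, L.toDer.D_neg]
  rw [h3] at key
  simpa only [zero_add] using key

end Pool.Agent.P.MP_7ede32_ag.N
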