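import Pool.Agent.P.MP_7ede32_ag.Main

namespace Pool.Agent.P.MP_7ede32_ag

open Polynomial

universe u

variable {k : Type u} [Field k]

/-- the inclusion of polynomials -/
noncomputable abbrev ι (p : k[X]) : RatFunc k := algebraMap k[X] (RatFunc k) p

theorem ι_ne {p : k[X]} (hp : p ≠ 0) : ι p ≠ 0 := RatFunc.algebraMap_ne_zero hp

theorem exists_frac (f : RatFunc k) : ∃ p q : k[X], q ≠ 0 ∧ f = ι p / ι q :=
  ⟨f.num, f.denom, f.denom_ne_zero, f.num_div_denom.symm⟩

/-- the usual derivative of a rational function -/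
noncomputable def dR (f : RatFunc k) : RatFunc k :=
  ι (wronskian f.denom f.num) / ι (f.denom * f.denom)

theorem dR_div (p : k[X]) {q : k[X]} (hq : q ≠ 0) :
    dR (ι p / ι q) = ι (wronskian q p) / ι (q * q) := by
  have h1 := (RatFunc.num_mul_eq_mul_denom_iff hq).2 (rfl : ι p / ι q = _)
  have h2 := congrArg derivative h1
  simp only [derivative_mul] at h2
  have hd := (ι p / ι q).denom_ne_zero
  unfold dR
  generalize (ι p / ι q).num = n at *
  generalize (ι p / ι q).denom = d at *
  rw [div_eq_div_iff (ι_ne (mul_ne_zero hd hd)) (ι_ne (mul_ne_zero hq hq)), ← map_mul, ← map_mul]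
  congr 1
  unfold wronskian
  linear_combination d * q * h2 - (derivative d * q + derivative q * d) * h1

/-- the derivative as a derivation -/
noncomputable def derR (k : Type u) [Field k] : Der (RatFunc k) where
  D := dR
  D_add x y := by
    obtain ⟨p, q, hq, rfl⟩ := exists_frac x
    obtain ⟨r, s, hs, rfl⟩ := exists_frac y
    rw [div_add_div _ _ (ι_ne hq) (ι_ne hs), ← map_mul, ← map_mul, ← map_mul, ← map_add,
      dR_div _ (mul_ne_zero hq hs), dR_div _ hq, dR_div _ hs]
    have := ι_ne hq
    have := ι_ne hs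
    simp only [wronskian, derivative_mul, map_mul, map_add, map_sub]
    field_simp
    ring
  D_mul x y := by
    obtain ⟨p, q, hq, rfl⟩ := exists_frac x
    obtain ⟨r, s, hs, rfl⟩ := exists_frac y
    rw [div_mul_div_comm, ← map_mul, ← map_mul, dR_div _ (mul_ne_zero hq hs), dR_div _ hq,
      dR_div _ hs]
    have := ι_ne hq
    have := ι_ne hs
    simp only [wronskian, derivative_mul, map_mul, map_add, map_sub]
    field_simp
    ring

theorem dR_ι (p : k[X]) : dR (ι p) = ι (derivative p) := by
  have := dR_div p (q := 1) one_ne_zero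
  simpa [wronskian] using this

/-- a valuation on nonzero polynomials -/
structure PV (k : Type u) [Field k] where
  v : k[X] → ℤ
  v_mul : ∀ p q, p ≠ 0 → q ≠ 0 → v (p * q) = v p + v q
  v_add : ∀ p q (n : ℤ), p + q ≠ 0 → n ≤ v p → n ≤ v q → n ≤ v (p + q)
  v_C : ∀ c, v (C c) = 0

namespace PV

variable (V : PV k)

noncomputable def ord (f : RatFunc k) : ℤ := V.v f.num - V.v f.denom

theorem ord_div {p q : k[X]} (hp : p ≠ 0) (hq : q ≠ 0) : V.ord (ι p / ι q) = V.v p - V.v q := by
  have h1 := (RatFunc.num_mul_eq_mul_denom_iff hq).2 (rfl : ι p / ι q = _)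
  have h2 := congrArg V.v h1
  rw [V.v_mul _ _ (RatFunc.num_ne_zero (div_ne_zero (ι_ne hp) (ι_ne hq))) hq,
    V.v_mul _ _ hp (RatFunc.denom_ne_zero _)] at h2
  unfold ord
  omega

theorem ord_ι {p : k[X]} (hp : p ≠ 0) : V.ord (ι p) = V.v p := by
  have := V.ord_div hp (q := 1) one_ne_zero
  rw [← C_1, V.v_C] at this
  simpa using this

theorem ord_mul (x y : RatFunc k) (hx : x ≠ 0) (hy : y ≠ 0) :
    V.ord (x * y) = V.ord x + V.ord y := by
  obtain ⟨p, q, hq, rfl⟩ := exists_frac x
  obtain ⟨r, s, hs, rfl⟩ := exists_frac y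
  have hp : p ≠ 0 := by rintro rfl; simp at hx
  have hr : r ≠ 0 := by rintro rfl; simp at hy
  rw [div_mul_div_comm, ← map_mul, ← map_mul, V.ord_div (mul_ne_zero hp hr) (mul_ne_zero hq hs),
    V.ord_div hp hq, V.ord_div hr hs, V.v_mul _ _ hp hr, V.v_mul _ _ hq hs]
  ring

theorem ord_add (x y : RatFunc k) (n : ℤ) (hx : x ≠ 0) (hy : y ≠ 0) (hxy : x + y ≠ 0)
    (h1 : n ≤ V.ord x) (h2 : n ≤ V.ord y) : n ≤ V.ord (x + y) := by
  obtain ⟨p, q, hq, rfl⟩ := exists_frac x
  obtain ⟨r, s, hs, rfl⟩ := exists_frac y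
  have hp : p ≠ 0 := by rintro rfl; simp at hx
  have hr : r ≠ 0 := by rintro rfl; simp at hy
  rw [div_add_div _ _ (ι_ne hq) (ι_ne hs), ← map_mul, ← map_mul, ← map_mul, ← map_add] at hxy ⊢
  have h3 : p * s + q * r ≠ 0 := by intro h; rw [h] at hxy; simp at hxy
  rw [V.ord_div hp hq] at h1
  rw [V.ord_div hr hs] at h2
  rw [V.ord_div h3 (mul_ne_zero hq hs), V.v_mul _ _ hq hs]
  have := V.v_add (p * s) (q * r) (n + V.v q + V.v s) h3
    (by rw [V.v_mul _ _ hp hs]; omega) (by rw [V.v_mul _ _ hq hr]; omega)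
  omega

theorem ord_nat [CharZero k] (n : ℕ) (hn : n ≠ 0) : V.ord (n : RatFunc k) = 0 := by
  have h : (C (n : k) : k[X]) ≠ 0 := C_ne_zero.2 (by exact_mod_cast hn)
  have := V.ord_ι h
  rw [V.v_C] at this
  simpa using this

end PV

/-- the order of vanishing at a finite point -/
noncomputable def pvFin (a : k) : PV k where
  v p := rootMultiplicity a p
  v_mul p q hp hq := by rw [rootMultiplicity_mul (mul_ne_zero hp hq)]; push_cast; rfl
  v_add p q n h h1 h2 := by
    have := rootMultiplicity_add a h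
    omega
  v_C c := by simp

/-- the order of vanishing at infinity -/
noncomputable def pvInf (k : Type u) [Field k] : PV k where
  v p := -(p.natDegree : ℤ)
  v_mul p q hp hq := by rw [natDegree_mul hp hq]; push_cast; ring
  v_add p q n _ h1 h2 := by
    have := natDegree_add_le p q
    omega
  v_C c := by simp

theorem wr_ne {f : RatFunc k} (h : dR f ≠ 0) : wronskian f.denom f.num ≠ 0 := by
  intro h'
  apply h
  rw [dR, h']
  simp

/-- a finite place -/
noncomputable def locFin [CharZero k] (a : k) : Loc (RatFunc k) where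
  toDer := derR k
  ord := (pvFin a).ord
  p := ι (X - C a)
  p_ne := ι_ne (X_sub_C_ne_zero a)
  ord_mul := (pvFin a).ord_mul
  ord_add := (pvFin a).ord_add
  ord_p := by
    rw [PV.ord_ι _ (X_sub_C_ne_zero a)]
    simp [pvFin, rootMultiplicity_X_sub_C_self]
  D_p := by
    change dR _ = _
    rw [dR_ι]; simp
  ord_D x hx hD h := by
    change dR x ≠ 0 at hD
    change 0 ≤ (pvFin a).ord (dR x)
    have hd := x.denom_ne_zero
    rw [dR, PV.ord_div _ (wr_ne hD) (mul_ne_zero hd hd), PV.v_mul _ _ _ hd hd]
    have h1 : rootMultiplicity a x.denom = 0 := by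
      by_contra h2
      have h3 := (rootMultiplicity_pos'.1 (Nat.pos_of_ne_zero h2)).2
      have h4 : 0 < rootMultiplicity a x.num := by
        simp only [PV.ord, pvFin] at h
        omega
      have h5 := (rootMultiplicity_pos'.1 h4).2
      obtain ⟨r, s, hrs⟩ := x.isCoprime_num_denom
      have := congrArg (eval a) hrs
      simp [h3.eq_zero, h5.eq_zero] at this
    simp [pvFin, h1]
  ord_nat := (pvFin a).ord_nat

/-- the place at infinity -/
noncomputable def locInf (k : Type u) [Field k] [CharZero k] : Loc (RatFunc k) where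
  D x := -ι (X * X) * dR x
  D_add x y := by
    have := (derR k).D_add x y
    change dR _ = dR _ + dR _ at this
    rw [this]; ring
  D_mul x y := by
    have := (derR k).D_mul x y
    change dR _ = _ * dR _ + _ * dR _ at this
    rw [this]; ring
  ord := (pvInf k).ord
  p := ι 1 / ι X
  p_ne := div_ne_zero (ι_ne one_ne_zero) (ι_ne X_ne_zero)
  ord_mul := (pvInf k).ord_mul
  ord_add := (pvInf k).ord_add
  ord_p := by
    rw [PV.ord_div _ one_ne_zero X_ne_zero]
    simp [pvInf]
  D_p := by
    rw [dR_div _ X_ne_zero]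
    have := ι_ne (mul_ne_zero (X_ne_zero (R := k)) X_ne_zero)
    simp only [wronskian, derivative_one, derivative_X, mul_zero, mul_one, zero_sub, map_neg,
      map_one]
    field_simp
  ord_D x hx hD h := by
    have hD' : dR x ≠ 0 := right_ne_zero_of_mul hD
    have hd := x.denom_ne_zero
    have hw := wr_ne hD'
    have hX : (-(X * X) : k[X]) ≠ 0 := neg_ne_zero.2 (mul_ne_zero X_ne_zero X_ne_zero)
    rw [dR, ← map_neg, ← mul_div_assoc, ← map_mul,
      PV.ord_div _ (mul_ne_zero hX hw) (mul_ne_zero hd hd), PV.v_mul _ _ _ hd hd,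
      PV.v_mul _ _ _ hX hw]
    have h1 : x.num.natDegree ≤ x.denom.natDegree := by
      simp only [PV.ord, pvInf] at h
      omega
    have h2 : (x.num /ₘ x.denom).natDegree = 0 := by
      rw [natDegree_divByMonic _ x.monic_denom]; omega
    have h3 : wronskian x.denom x.num = wronskian x.denom (x.num %ₘ x.denom) := by
      conv_lhs => rw [← modByMonic_add_div x.num x.denom, eq_C_of_natDegree_eq_zero h2]
      simp only [wronskian, derivative_add, derivative_mul, derivative_C]
      ring
    rw [h3] at hw ⊢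
    have h4 := natDegree_wronskian_lt_add hw
    have h5 : x.num %ₘ x.denom ≠ 0 := by
      intro h; rw [h, wronskian_zero_right] at hw; exact hw rfl
    have h6 := natDegree_lt_natDegree h5 (degree_modByMonic_lt x.num x.monic_denom)
    have h7 : (-(X * X) : k[X]).natDegree = 2 := by
      rw [natDegree_neg, natDegree_mul X_ne_zero X_ne_zero, natDegree_X]
    simp only [pvInf, h7]
    omega
  ord_nat := (pvInf k).ord_nat

/-- the projective line -/
noncomputable def globR (k : Type u) [Field k] [CharZero k] [IsAlgClosed k] :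
    Glob (RatFunc k) where
  toDer := derR k
  Pl := Option k
  loc q := q.elim (locInf k) locFin
  u q := q.elim (ι (-1) / ι (X * X)) fun _ => 1
  u_ne q := by
    cases q with
    | none =>
      exact div_ne_zero (ι_ne (neg_ne_zero.2 one_ne_zero)) (ι_ne (mul_ne_zero X_ne_zero X_ne_zero))
    | some a => exact one_ne_zero
  hD q x := by
    cases q with
    | none =>
      change dR x = ι (-1) / ι (X * X) * (-ι (X * X) * dR x)
      have := ι_ne (mul_ne_zero (X_ne_zero (R := k)) X_ne_zero)
      simp only [map_neg, map_one]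
      field_simp
    | some a => exact (one_mul _).symm
  no_sec f g hf hg h := by
    have h1 := h none
    change g * (pvInf k).ord (ι (-1) / ι (X * X)) ≤ (pvInf k).ord f at h1
    rw [PV.ord_div _ (neg_ne_zero.2 one_ne_zero) (mul_ne_zero X_ne_zero X_ne_zero)] at h1
    simp only [PV.ord, pvInf, natDegree_neg, natDegree_one,
      natDegree_mul (X_ne_zero (R := k)) X_ne_zero, natDegree_X] at h1
    have h2 : f.denom.degree ≠ 0 := by
      intro h3
      rw [natDegree_eq_zero_iff_degree_le_zero.2 h3.le] at h1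
      push_cast at h1
      omega
    obtain ⟨a, h3⟩ := IsAlgClosed.exists_root _ h2
    have h4 := h (some a)
    change g * (locFin a).ord 1 ≤ (pvFin a).ord f at h4
    rw [(locFin a).ord_one] at h4
    have h5 := rootMultiplicity_pos'.2 ⟨f.denom_ne_zero, h3⟩
    have h6 : 0 < rootMultiplicity a f.num := by
      simp only [PV.ord, pvFin] at h4
      omega
    have h7 := (rootMultiplicity_pos'.1 h6).2
    obtain ⟨r, s, hrs⟩ := f.isCoprime_num_denom
    have := congrArg (eval a) hrs
    simp [h3.eq_zero, h7.eq_zero] at this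

theorem const_of_dR [CharZero k] {f : RatFunc k} (h : dR f = 0) : ∃ c : k, f = RatFunc.C c := by
  have hd := f.denom_ne_zero
  rw [dR, div_eq_zero_iff] at h
  have h1 : wronskian f.denom f.num = 0 := by
    by_contra h2
    exact h.elim (ι_ne h2) (ι_ne (mul_ne_zero hd hd))
  obtain ⟨h2, h3⟩ := f.isCoprime_num_denom.symm.wronskian_eq_zero_iff.1 h1
  have h4 := eq_C_of_natDegree_eq_zero (derivative_eq_zero.1 h2)
  have h5 := eq_C_of_natDegree_eq_zero (derivative_eq_zero.1 h3)
  refine ⟨f.num.coeff 0 / f.denom.coeff 0, ?_⟩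
  rw [map_div₀, ← RatFunc.algebraMap_C, ← RatFunc.algebraMap_C, ← h4, ← h5, f.num_div_denom]

end Pool.Agent.P.MP_7ede32_ag
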