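import Pool.Agent.P.MP_7ede32_ag.Det8
import Pool.Agent.P.MP_7ede32_ag.Mat12

namespace Pool.Agent.P.MP_7ede32_ag

open Finset Matrix

variable {K : Type*} [Field K]

/-- the point used in row `i` -/
def ptq (a b c d i : Fin 12) : Fin 12 := if i = c then a else if i = d then b else i

/-- rows of the twelve by twelve determinant -/
def rowq (a b c d : Fin 12) (s w : Fin 12 → K) (i : Fin 12) : Fin 12 → K :=
  if i = c ∨ i = d then dmon12 (s (ptq a b c d i)) (w (ptq a b c d i))
  else mon12 (s (ptq a b c d i)) (w (ptq a b c d i))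

noncomputable def Theta (a b c d : Fin 12) (s w : Fin 12 → K) : K :=
  detM K 12 (rowq a b c d s w)

theorem prod_cd {c d : Fin 12} (hcd : c ≠ d) (g : K) :
    (∏ i : Fin 12, if i = c ∨ i = d then g else 1) = g ^ 2 := by
  rw [← Finset.prod_filter]
  have : (univ.filter fun i : Fin 12 => i = c ∨ i = d) = {c, d} := by
    ext i; simp
  rw [this, Finset.prod_pair hcd, sq]

theorem Theta_affine {a b c d : Fin 12} (hcd : c ≠ d) (s w : Fin 12 → K) (a0 b0 g a1 b1 : K) :
    g ^ 2 * Theta a b c d (fun i => a0 * s i + b0) (fun i => g * w i + a1 * s i + b1) =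
      a0 ^ 22 * g ^ 8 * Theta a b c d s w := by
  have h := detM_mulVec (A12 a0 b0 g a1 b1) (rowq a b c d s w)
  rw [A12_det] at h
  unfold Theta
  rw [← h, ← prod_cd hcd g, ← smul_eq_mul, ← MultilinearMap.map_smul_univ]
  refine congrArg (detM K 12) (funext fun i => ?_)
  unfold rowq
  split_ifs with hi
  · rw [A12_dmon]
  · rw [A12_mon, one_smul]

theorem Theta_inv (a b c d : Fin 12) (s w : Fin 12 → K) (hs : ∀ i, s i ≠ 0) :
    (∏ i, if i = c ∨ i = d then -s (ptq a b c d i) ^ 3 else s (ptq a b c d i) ^ 5) *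
      Theta a b c d (fun i => (s i)⁻¹) (fun i => -w i / s i ^ 2) =
      (J12.map (Int.cast : ℤ → K)).det * Theta a b c d s w := by
  have h := detM_mulVec (J12.map (Int.cast : ℤ → K)) (rowq a b c d s w)
  unfold Theta
  rw [← h, ← smul_eq_mul, ← MultilinearMap.map_smul_univ]
  refine congrArg (detM K 12) (funext fun i => ?_)
  unfold rowq
  split_ifs with hi
  · rw [J12_dmon _ _ (hs _)]
  · rw [J12_mon _ _ (hs _)]

theorem J12_det_sq : (J12.map (Int.cast : ℤ → K)).det ^ 2 = 1 := by
  rw [sq, ← Matrix.det_mul]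
  have : J12.map (Int.cast : ℤ → K) * J12.map (Int.cast : ℤ → K) = 1 := by
    have h := congrArg (fun M => (Int.castRingHom K).mapMatrix M) J12_sq
    simp only [map_mul, map_one] at h
    exact h
  rw [this, Matrix.det_one]

theorem sum_ptq {a b c d : Fin 12} (hcd : c ≠ d) (f : Fin 12 → Fin 12 → ℤ) :
    ∑ i, f i (ptq a b c d i) = ∑ i, f i i - f c c - f d d + f c a + f d b := by
  have h : ∀ i, f i (ptq a b c d i) = f i i + (if i = c then f c a - f c c else 0) +
      (if i = d then f d b - f d d else 0) := by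
    intro i
    unfold ptq
    by_cases h1 : i = c
    · subst h1; simp [hcd]
    · by_cases h2 : i = d
      · subst h2; simp [h1]
      · simp [h1, h2]
  simp only [h, sum_add_distrib, sum_ite_eq', mem_univ, if_true]
  ring

def wN : ℕ → ℤ
  | 0 => 0 | 1 => 1 | 2 => 2 | 3 => 3 | 4 => 4 | 5 => 4 | 6 => 6 | 7 => 6 | 8 => 7 | 9 => 8
  | 10 => 9 | _ + 11 => 10

def wT : ℕ → ℤ
  | 0 => 0 | 1 => 2 | 2 => 2 | 3 => 2 | 4 => 4 | 5 => 4 | 6 => 6 | 7 => 6 | 8 => 7 | 9 => 8
  | 10 => 9 | _ + 11 => 10

theorem wN_mono : Monotone wN := by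
  refine monotone_nat_of_le_succ fun n => ?_
  match n with
  | 0 | 1 | 2 | 3 | 4 | 5 | 6 | 7 | 8 | 9 | 10 => decide
  | n + 11 => exact le_refl (10 : ℤ)

theorem wT_mono : Monotone wT := by
  refine monotone_nat_of_le_succ fun n => ?_
  match n with
  | 0 | 1 | 2 | 3 | 4 | 5 | 6 | 7 | 8 | 9 | 10 => decide
  | n + 11 => exact le_refl (10 : ℤ)

theorem wN_eq : ∀ k : Fin 12, wN k.val = (wt12 k : ℤ) := by decide

theorem wT_eq : ∀ k : Fin 12, k ≠ 1 → wT k.val = (wt12T k : ℤ) := by decide

/-- centers preferring `a`, then `b` -/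
noncomputable def cenq (a b : Fin 12) (l : Fin 12 → Fin 12) (i : Fin 12) : Fin 12 :=
  if l i = l a then a else if l i = l b then b else cen l i

theorem cenq_lab (a b : Fin 12) (l : Fin 12 → Fin 12) (i : Fin 12) : l (cenq a b l i) = l i := by
  unfold cenq
  split_ifs with h1 h2
  · exact h1.symm
  · exact h2.symm
  · exact cen_lab l i

theorem cenq_congr (a b : Fin 12) (l : Fin 12 → Fin 12) {i j : Fin 12} (h : l i = l j) :
    cenq a b l i = cenq a b l j := by
  unfold cenq
  rw [h, cen_congr l h]

theorem cenq_a (a b : Fin 12) (l : Fin 12 → Fin 12) : cenq a b l a = a := by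
  simp [cenq]

theorem cenq_b (a b : Fin 12) (l : Fin 12 → Fin 12) (h : l b ≠ l a) : cenq a b l b = b := by
  simp [cenq, h]

theorem single_ne {n : ℕ} {i j : Fin n} {x : K} (h : (Pi.single i x : Fin n → K) j ≠ 0) :
    j = i := by
  by_contra hne
  exact h (by simp [hne])

theorem Theta_local0 [CharZero K] (L : Loc K) {a b c d : Fin 12} (hac : a ≠ c) (had : a ≠ d)
    (hbc : b ≠ c) (hbd : b ≠ d) (hcd : c ≠ d) (y : Fin 12 → K) (h0 : ∀ i, L.Ge 0 (y i))
    (lab : ℕ → Fin 12 → Fin 12)
    (hlab : ∀ (r : ℕ) i j, lab r i = lab r j ↔ L.Ge (2 * r) (y i - y j)) (R : ℕ) :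
    L.Ge (∑ r ∈ range R, ((∑ x, ∑ k ∈ range (csz (fun i => lab (r + 1) (ptq a b c d i)) x),
      (if lab (r + 1) a = x ∨ lab (r + 1) b = x then wT else wN) k) + -4))
      (Theta a b c d y (fun i => L.D (y i))) := by
  classical
  have hp := L.p_ne
  have hmono : ∀ r i j, lab (r + 1) i = lab (r + 1) j → lab r i = lab r j := fun r i j h =>
    (hlab r i j).2 (((hlab (r + 1) i j).1 h).mono (by push_cast; omega))
  set pt := ptq a b c d with hpt
  have hpa : pt a = a := by simp [hpt, ptq, hac, had]
  have hpb : pt b = b := by simp [hpt, ptq, hbc, hbd]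
  have hpc : pt c = a := by simp [hpt, ptq]
  have hpd : pt d = b := by simp [hpt, ptq, hcd.symm]
  let sg : ℕ → Fin 12 → K := fun r i => (y i - y (cenq a b (lab r) i)) / L.p ^ (2 * r)
  let be : ℕ → Fin 12 → K := fun r i =>
    (y (cenq a b (lab (r + 1)) i) - y (cenq a b (lab r) i)) / L.p ^ (2 * r)
  have hsg : ∀ r i, L.Ge 0 (sg r i) := fun r i =>
    level_int ((hlab r _ _).1 (cenq_lab a b (lab r) i).symm)
  have hbe : ∀ r i, L.Ge 0 (be r i) := fun r i =>
    level_int ((hlab r _ _).1
      ((hmono r _ _ (cenq_lab a b (lab (r + 1)) i)).trans (cenq_lab a b (lab r) i).symm))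
  have hsga : ∀ r, sg r a = 0 := fun r => by simp [sg, cenq_a]
  have hsgb : ∀ r, lab r b ≠ lab r a → sg r b = 0 := fun r h => by simp [sg, cenq_b a b _ h]
  let U : ℕ → Fin 12 → Matrix (Fin 12) (Fin 12) K := fun r i =>
    A12 1 (be r i) 1 0 (L.D (be r i))
  have hU : ∀ r i j, lab (r + 1) i = lab (r + 1) j → U r i = U r j := fun r i j h => by
    simp only [U, be, cenq_congr a b _ h, cenq_congr a b _ (hmono r i j h)]
  have hUa : ∀ r, U r a = 1 := fun r => by
    simp only [U, be, cenq_a, sub_self, zero_div, L.toDer.D_zero, A12_one]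
  have hUb : ∀ r, lab r b ≠ lab r a → U r b = 1 := fun r h => by
    simp only [U, be, cenq_b a b _ h, cenq_b a b _ (fun h' => h (hmono r _ _ h')), sub_self,
      zero_div, L.toDer.D_zero, A12_one]
  let isT : ℕ → Fin 12 → Prop := fun r x => lab (r + 1) a = x ∨ lab (r + 1) b = x
  let La : ℕ → Fin 12 → Matrix (Fin 12) (Fin 12) K := fun r x =>
    if isT r x then La12T L.p else La12 L.p
  let E : ℕ → Fin 12 → Matrix (Fin 12) (Fin 12) K := fun r x =>
    if isT r x then E12T L.p 2⁻¹ else E12 L.p 2⁻¹
  let wt : ℕ → Fin 12 → Fin 12 → ℕ := fun r x => if isT r x then wt12T else wt12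
  have hTa : ∀ r, isT r (lab (r + 1) a) := fun r => Or.inl rfl
  have hTb : ∀ r, isT r (lab (r + 1) b) := fun r => Or.inr rfl
  have hz : ∀ r x s w, ∑ k, (L.p ^ wt r x k * (La r x).mulVec (mon12 s w) k) • E r x k =
      mon12 (L.p ^ 2 * s) (L.p ^ 2 * w + 2 * L.p * s) := by
    intro r x s w
    by_cases h : isT r x
    · simp only [wt, La, E, if_pos h]; exact zoom12T _ _ _
    · simp only [wt, La, E, if_neg h]; exact zoom12 _ _ _
  have hzd : ∀ r x s w, ∑ k, (L.p ^ wt r x k * (La r x).mulVec (dmon12 s w) k) • E r x k =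
      L.p ^ 2 • dmon12 (L.p ^ 2 * s) (L.p ^ 2 * w + 2 * L.p * s) := by
    intro r x s w
    by_cases h : isT r x
    · simp only [wt, La, E, if_pos h]; exact zoom12Td _ _ _
    · simp only [wt, La, E, if_neg h]; exact zoom12d _ _ _
  have key := tower L (fun r i => lab r (pt i)) (fun r i j h => hmono r _ _ h)
    (fun r => rowq a b c d (sg r) (fun i => L.D (sg r i)))
    (fun r w => (∀ i, L.IntV (w i)) ∧ w a = mon12 0 0 ∧ w c = dmon12 0 0 ∧
      (lab r b ≠ lab r a → w b = mon12 0 0 ∧ w d = dmon12 0 0))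
    (fun r => by
      refine ⟨fun i => ?_, ?_, ?_, fun h => ⟨?_, ?_⟩⟩
      · unfold rowq
        split_ifs
        · exact dmon12_int L (hsg r _) (hsg r _).D0
        · exact mon12_int L (hsg r _) (hsg r _).D0
      · simp only [rowq, ← hpt, hpa, hsga, L.toDer.D_zero, hac, had, or_self, if_false]
      · simp only [rowq, ← hpt, hpc, hsga, L.toDer.D_zero, true_or, if_true]
      · simp only [rowq, ← hpt, hpb, hsgb r h, L.toDer.D_zero, hbc, hbd, or_self, if_false]
      · simp only [rowq, ← hpt, hpd, hsgb r h, L.toDer.D_zero, or_true, if_true])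
    (fun r i => zoomL (U r (pt i)) (La r (lab (r + 1) (pt i))) (E r (lab (r + 1) (pt i)))
      (fun k => L.p ^ wt r (lab (r + 1) (pt i)) k))
    (fun r i j h => by
      simp only [hU r _ _ h, h])
    (fun i => if i = c ∨ i = d then L.p ^ (-2 : ℤ) else 1) (-4)
    (by
      rw [prod_cd hcd, sq]
      exact (Loc.Ge.pzpow _).mul' (Loc.Ge.pzpow _) (by norm_num))
    (fun r i => by
      obtain ⟨h1, h2⟩ := level_coord L (y (pt i)) (y (cenq a b (lab (r + 1)) (pt i)))
        (y (cenq a b (lab r) (pt i))) r
      simp only [rowq, ← hpt]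
      split_ifs with hi
      · rw [zoomL_apply', hzd, Matrix.mulVec_smul, A12_dmon, one_smul, smul_smul]
        have : L.p ^ (-2 : ℤ) * L.p ^ 2 = 1 := by
          rw [_root_.zpow_neg, zpow_ofNat]; exact inv_mul_cancel₀ (pow_ne_zero _ hp)
        rw [this, one_smul]
        simp only [sg, be]
        rw [← h1, ← h2]
      · rw [one_smul, zoomL_apply', hz, A12_mon]
        simp only [sg, be]
        rw [← h1, ← h2])
    (fun r => ∑ x, ∑ k ∈ range (csz (fun i => lab (r + 1) (pt i)) x),
      (if isT r x then wT else wN) k)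
    (fun r φ h1 h2 w hw => by
      obtain ⟨hw0, hwa, hwc, hwb⟩ := hw
      simp only [zoomL_apply]
      refine step L φ (fun i j => lab (r + 1) (pt i) = lab (r + 1) (pt j)) h1 _ h2
        (fun i k => (U r (pt i)).mulVec (E r (lab (r + 1) (pt i)) k))
        (fun i j h => by simp only [hU r _ _ h, h])
        (fun i k => L.p ^ wt r (lab (r + 1) (pt i)) k *
          (La r (lab (r + 1) (pt i))).mulVec (w i) k) _ fun f hf hne => ?_
      have hfa : f a = 0 := by
        have := right_ne_zero_of_mul (hne a)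
        simp only [hpa, La, if_pos (hTa r), hwa, La12T_mon0] at this
        exact single_ne this
      have hfc : f c = 1 := by
        have := right_ne_zero_of_mul (hne c)
        simp only [hpc, La, if_pos (hTa r), hwc, La12T_dmon0] at this
        exact single_ne this
      have hfb : lab (r + 1) b ≠ lab (r + 1) a → f b = 0 := fun h => by
        have := right_ne_zero_of_mul (hne b)
        simp only [hpb, La, if_pos (hTb r), (hwb h).1, La12T_mon0] at this
        exact single_ne this
      have hfd : lab (r + 1) b ≠ lab (r + 1) a → f d = 1 := fun h => by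
        have := right_ne_zero_of_mul (hne d)
        simp only [hpd, La, if_pos (hTb r), (hwb h).2, La12T_dmon0] at this
        exact single_ne this
      refine ⟨⟨fun i => ?_, ?_, ?_, fun h => ⟨?_, ?_⟩⟩, ?_⟩
      · refine Loc.IntV.mulVec (A12_int L _ _ _ _ _ Loc.Ge.one (hbe r _) Loc.Ge.one
          (Loc.Ge.zero _) (hbe r _).D0) fun k => ?_
        simp only [E]
        split_ifs
        · exact E12T_int L _ _ Loc.Ge.pp0 Loc.Ge.half _ _
        · exact E12_int L _ _ Loc.Ge.pp0 Loc.Ge.half _ _
      · simp only [hpa, hUa, E, if_pos (hTa r), hfa, E12T_zero, Matrix.one_mulVec]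
      · simp only [hpc, hUa, E, if_pos (hTa r), hfc, E12T_one, Matrix.one_mulVec]
      · simp only [hpb, hUb r h, E, if_pos (hTb r), hfb (fun h' => h (hmono r _ _ h')),
          E12T_zero, Matrix.one_mulVec]
      · simp only [hpd, hUb r h, E, if_pos (hTb r), hfd (fun h' => h (hmono r _ _ h')),
          E12T_one, Matrix.one_mulVec]
      · refine (Loc.Ge.prod univ _
          (fun i => (if isT r (lab (r + 1) (pt i)) then wT else wN) (f i).val)
          fun i _ => ?_).mono ?_
        · by_cases hT : isT r (lab (r + 1) (pt i))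
          · simp only [wt, La, if_pos hT]
            by_cases h1 : f i = 1
            · have hwi : w i = dmon12 0 0 := by
                by_cases h3 : lab (r + 1) (pt i) = lab (r + 1) a
                · by_cases h4 : i = c
                  · rw [h4, hwc]
                  · exact absurd (h1.trans hfc.symm) (hf i c h4 (by rw [hpc]; exact h3))
                · have h5 : lab (r + 1) (pt i) = lab (r + 1) b :=
                    (hT.resolve_left fun h => h3 h.symm).symm
                  have h6 : lab (r + 1) b ≠ lab (r + 1) a := fun h => h3 (h5.trans h)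
                  by_cases h4 : i = d
                  · rw [h4, (hwb h6).2]
                  · exact absurd (h1.trans (hfd h6).symm) (hf i d h4 (by rw [hpd]; exact h5))
              rw [hwi, h1, La12T_dmon0, Pi.single_eq_same]
              exact (Loc.Ge.ppow _).mul' Loc.Ge.pp (by decide)
            · exact (Loc.Ge.ppow _).mul' (Loc.IntV.mulVec (La12T_int L _ Loc.Ge.pp0) (hw0 i) _)
                (by rw [wT_eq _ h1]; omega)
          · simp only [wt, La, if_neg hT]
            exact (Loc.Ge.ppow _).mul' (Loc.IntV.mulVec (La12_int L _ Loc.Ge.pp0) (hw0 i) _)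
              (by rw [wN_eq]; omega)
        · rw [← Finset.sum_fiberwise (s := univ) (g := fun i => lab (r + 1) (pt i))
            (f := fun i => (if isT r (lab (r + 1) (pt i)) then wT else wN) (f i).val)]
          refine Finset.sum_le_sum fun x _ => ?_
          refine (sum_range_le_of_inj (if isT r x then wT else wN)
            (by split_ifs; exacts [wT_mono, wN_mono])
            (univ.filter fun i => lab (r + 1) (pt i) = x)
            (fun i => (f i).val) fun i hi j hj hij h =>
              hf i j hij ((mem_filter.1 hi).2.trans (mem_filter.1 hj).2.symm)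
                (Fin.ext h)).trans (le_of_eq ?_)
          refine Finset.sum_congr rfl fun i hi => ?_
          rw [(mem_filter.1 hi).2])
    R 0 (detM K 12) (fun w i j hij _ h => detM_alt w hij h)
    (fun w hw => by rw [detM_apply]; exact L.det_int w hw.1)
  have hc : ∀ i, cenq a b (lab 0) i = a := fun i =>
    (cenq_congr a b _ ((hlab 0 i a).2 (by simpa using (h0 i).sub (h0 a)))).trans (cenq_a _ _ _)
  have h3 : detM K 12 (rowq a b c d (sg 0) (fun i => L.D (sg 0 i))) =
      Theta a b c d y (fun i => L.D (y i)) := by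
    have := Theta_affine (a := a) (b := b) hcd y (fun i => L.D (y i)) 1 (-y a) 1 0 (-L.D (y a))
    simp only [one_pow, one_mul, zero_mul, add_zero] at this
    rw [← this]
    unfold Theta
    congr 2
    · funext i
      simp only [sg, hc i, mul_zero, pow_zero, div_one, sub_eq_add_neg]
    · funext i
      simp only [sg, hc i, mul_zero, pow_zero, div_one, sub_eq_add_neg]
      rw [L.toDer.D_add, L.toDer.D_neg]
  rw [h3] at key
  simpa only [zero_add] using key

end Pool.Agent.P.MP_7ede32_ag
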