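import Pool.Agent.P.MP_7ede32_ag.Loc

namespace Pool.Agent.P.MP_7ede32_ag

open Finset

variable {K : Type*} [Field K]

/-- integral vector -/
def Loc.IntV (L : Loc K) {A : Type*} (w : A → K) : Prop := ∀ a, L.Ge 0 (w a)

theorem step (L : Loc K) {R A : Type*} [Fintype R] [DecidableEq R] [Fintype A] {n : ℕ}
    (φ : MultilinearMap K (fun _ : R => Fin n → K) K)
    (same : R → R → Prop)
    (halt : ∀ w i j, i ≠ j → same i j → w i = w j → φ w = 0)
    (Adm : (R → Fin n → K) → Prop)
    (hint : ∀ w, Adm w → L.Ge 0 (φ w))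
    (b : R → A → Fin n → K) (hb : ∀ i j, same i j → b i = b j)
    (coef : R → A → K) (g : ℤ)
    (H : ∀ f : R → A, (∀ i j, i ≠ j → same i j → f i ≠ f j) → (∀ i, coef i (f i) ≠ 0) →
      Adm (fun i => b i (f i)) ∧ L.Ge g (∏ i, coef i (f i))) :
    L.Ge g (φ (fun i => ∑ a, coef i a • b i a)) := by
  classical
  rw [φ.map_sum (fun i a => coef i a • b i a)]
  refine Loc.Ge.sum _ _ fun f _ => ?_
  rw [φ.map_smul_univ (fun i => coef i (f i)) (fun i => b i (f i)), smul_eq_mul]
  by_cases h1 : ∀ i, coef i (f i) ≠ 0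
  · by_cases h2 : ∀ i j, i ≠ j → same i j → f i ≠ f j
    · obtain ⟨h3, h4⟩ := H f h2 h1
      exact h4.mul' (hint _ h3) (by omega)
    · push Not at h2
      obtain ⟨i, j, hij, hs, hf⟩ := h2
      rw [halt _ i j hij hs (by simp only [hb i j hs, hf]), mul_zero]
      exact Loc.Ge.zero _
  · push Not at h1
    obtain ⟨i, hi⟩ := h1
    rw [Finset.prod_eq_zero (Finset.mem_univ i) hi, zero_mul]
    exact Loc.Ge.zero _

theorem sum_range_le_of_mono (wt : ℕ → ℤ) (hw : Monotone wt) (t : Finset ℕ) :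
    ∑ k ∈ range t.card, wt k ≤ ∑ k ∈ t, wt k := by
  induction t using Finset.induction_on_max with
  | empty => simp
  | insert a s ha ih =>
    have hna : a ∉ s := fun h => lt_irrefl _ (ha a h)
    rw [card_insert_of_notMem hna, sum_range_succ, sum_insert hna]
    have : s.card ≤ a := by
      have h1 : s ⊆ range a := fun x hx => mem_range.2 (ha x hx)
      simpa using card_le_card h1
    have := hw this
    omega

theorem sum_range_le_of_inj {R : Type*} (wt : ℕ → ℤ) (hw : Monotone wt) (s : Finset R)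
    (f : R → ℕ) (hf : ∀ i ∈ s, ∀ j ∈ s, i ≠ j → f i ≠ f j) :
    ∑ k ∈ range s.card, wt k ≤ ∑ i ∈ s, wt (f i) := by
  classical
  have hinj : Set.InjOn f s := fun i hi j hj h => by
    by_contra hne
    exact hf i hi j hj hne h
  have := sum_range_le_of_mono wt hw (s.image f)
  rwa [card_image_of_injOn hinj, sum_image hinj] at this

/-- An even number between `0` and `2 R` counts the levels below it. -/
theorem even_eq_sum {v : ℤ} {R : ℕ} (h0 : 0 ≤ v) (hR : v ≤ 2 * R) (he : Even v) :
    v = ∑ r ∈ range R, if 2 * ((r : ℤ) + 1) ≤ v then (2 : ℤ) else 0 := by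
  obtain ⟨m, rfl⟩ := he
  lift m to ℕ using (by omega)
  have hm : m ≤ R := by omega
  rw [← Finset.sum_filter]
  have : (range R).filter (fun r : ℕ => 2 * ((r : ℤ) + 1) ≤ m + m) = range m := by
    ext r; simp only [mem_filter, mem_range]; omega
  rw [this]; simp; ring

end Pool.Agent.P.MP_7ede32_ag
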