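import Pool.Agent.P.MP_7ede32_ag.Tower

namespace Pool.Agent.P.MP_7ede32_ag

open Finset Matrix

variable {K : Type*} [Field K]

/-- zoom followed by recentering -/
def zoomL {n : ℕ} (U La E : Matrix (Fin n) (Fin n) K) (d : Fin n → K) :
    (Fin n → K) →ₗ[K] (Fin n → K) := (U * Eᵀ * diagonal d * La).mulVecLin

theorem zoomL_apply' {n : ℕ} (U La E : Matrix (Fin n) (Fin n) K) (d : Fin n → K)
    (w : Fin n → K) :
    zoomL U La E d w = U.mulVec (∑ a, (d a * La.mulVec w a) • E a) := by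
  simp only [zoomL, mulVecLin_apply, ← mulVec_mulVec]
  congr 1
  rw [mulVec_transpose, vecMul_eq_sum]
  refine Finset.sum_congr rfl fun a _ => ?_
  rw [mulVec_diagonal]

theorem zoomL_apply {n : ℕ} (U La E : Matrix (Fin n) (Fin n) K) (d : Fin n → K)
    (w : Fin n → K) :
    zoomL U La E d w = ∑ a, (d a * La.mulVec w a) • U.mulVec (E a) := by
  rw [zoomL_apply', mulVec_sum]
  simp only [mulVec_smul]

theorem Loc.IntV.mulVec {L : Loc K} {n : ℕ} {M : Matrix (Fin n) (Fin n) K} {w : Fin n → K}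
    (hM : ∀ i j, L.Ge 0 (M i j)) (hw : L.IntV w) : L.IntV (M.mulVec w) := fun i =>
  Loc.Ge.sum Finset.univ (fun j => M i j * w j) fun j _ => (hM i j).mul00 (hw j)

theorem Loc.det_int (L : Loc K) {n : ℕ} (w : Fin n → Fin n → K) (hw : ∀ i, L.IntV (w i)) :
    L.Ge 0 (Matrix.of w).det := by
  rw [Matrix.det_apply']
  refine Loc.Ge.sum _ _ fun s _ => ?_
  refine (Loc.Ge.intCast _).mul0 ?_
  have := Loc.Ge.prod (L := L) Finset.univ (fun i => Matrix.of w (s i) i) (fun _ => 0)
    (fun i _ => hw _ _)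
  simpa using this

theorem tower (L : Loc K) {R Lam : Type*} [Fintype R] [DecidableEq R] {n : ℕ}
    (lab : ℕ → R → Lam) (hlab : ∀ r i j, lab (r + 1) i = lab (r + 1) j → lab r i = lab r j)
    (u : ℕ → R → Fin n → K) (Adm : ℕ → (R → Fin n → K) → Prop) (hadm : ∀ r, Adm r (u r))
    (T : ℕ → R → (Fin n → K) →ₗ[K] (Fin n → K))
    (hT : ∀ r i j, lab (r + 1) i = lab (r + 1) j → T r i = T r j)
    (cf : R → K) (c : ℤ) (hc : L.Ge c (∏ i, cf i))
    (hu : ∀ r i, u r i = cf i • T r i (u (r + 1) i))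
    (g : ℕ → ℤ)
    (hstep : ∀ r (φ : MultilinearMap K (fun _ : R => Fin n → K) K),
      (∀ w i j, i ≠ j → lab (r + 1) i = lab (r + 1) j → w i = w j → φ w = 0) →
      (∀ w, Adm r w → L.Ge 0 (φ w)) →
      ∀ w, Adm (r + 1) w → L.Ge (g r) (φ fun i => T r i (w i)))
    (N : ℕ) : ∀ r (φ : MultilinearMap K (fun _ : R => Fin n → K) K),
      (∀ w i j, i ≠ j → lab r i = lab r j → w i = w j → φ w = 0) →
      (∀ w, Adm r w → L.Ge 0 (φ w)) →
      L.Ge (∑ k ∈ range N, (g (r + k) + c)) (φ (u r)) := by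
  induction N with
  | zero => intro r φ _ h2; simpa using h2 _ (hadm r)
  | succ N ih =>
    intro r φ h1 h2
    have h1' : ∀ w i j, i ≠ j → lab (r + 1) i = lab (r + 1) j → w i = w j → φ w = 0 :=
      fun w i j hij hl hw => h1 w i j hij (hlab r i j hl) hw
    let ψ : MultilinearMap K (fun _ : R => Fin n → K) K :=
      (L.p ^ (-g r)) • φ.compLinearMap (T r)
    have hψ : ∀ w, ψ w = L.p ^ (-g r) * φ fun i => T r i (w i) := fun w => rfl
    have h3 := ih (r + 1) ψ
      (fun w i j hij hl hw => by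
        rw [hψ, h1' _ i j hij hl (by simp only [hT r i j hl, hw]), mul_zero])
      (fun w hw => by
        rw [hψ]
        exact (Loc.Ge.pzpow _).mul' (hstep r φ h1' h2 w hw) (by omega))
    have h4 : φ (u r) = (∏ i, cf i) * (L.p ^ (g r) * ψ (u (r + 1))) := by
      rw [hψ, ← mul_assoc (L.p ^ (g r)), ← zpow_add₀ L.p_ne, add_neg_cancel, zpow_zero, one_mul,
        ← smul_eq_mul, ← φ.map_smul_univ]
      congr 1
      funext i
      exact hu r i
    rw [h4]
    refine hc.mul' ((Loc.Ge.pzpow _).mul h3) (le_of_eq ?_)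
    rw [sum_range_succ']
    simp only [add_zero]
    have : ∑ k ∈ range N, (g (r + (k + 1)) + c) = ∑ k ∈ range N, (g (r + 1 + k) + c) :=
      Finset.sum_congr rfl fun k _ => by rw [show r + (k + 1) = r + 1 + k by ring]
    rw [this]
    ring

/-- level coordinates -/
theorem level_coord (L : Loc K) (y c1 c0 : K) (r : ℕ) :
    (y - c0) / L.p ^ (2 * r) =
        1 * (L.p ^ 2 * ((y - c1) / L.p ^ (2 * (r + 1)))) + (c1 - c0) / L.p ^ (2 * r) ∧
      L.D ((y - c0) / L.p ^ (2 * r)) =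
        1 * (L.p ^ 2 * L.D ((y - c1) / L.p ^ (2 * (r + 1))) +
          2 * L.p * ((y - c1) / L.p ^ (2 * (r + 1)))) +
          0 * (L.p ^ 2 * ((y - c1) / L.p ^ (2 * (r + 1)))) +
          L.D ((c1 - c0) / L.p ^ (2 * r)) := by
  have hp := L.p_ne
  have h1 : (y - c0) / L.p ^ (2 * r) =
      1 * (L.p ^ 2 * ((y - c1) / L.p ^ (2 * (r + 1)))) + (c1 - c0) / L.p ^ (2 * r) := by
    field_simp
    ring
  refine ⟨h1, ?_⟩
  rw [h1, L.toDer.D_add, one_mul, L.toDer.D_mul, L.toDer.D_sq, L.D_p]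
  ring

theorem level_int {L : Loc K} {z : K} {r : ℕ} (h : L.Ge (2 * r) z) :
    L.Ge 0 (z / L.p ^ (2 * r)) := by
  have := h.div (pow_ne_zero (2 * r) L.p_ne)
  rw [L.ord_p_pow] at this
  simpa using this

/-- smallest index with the same label -/
noncomputable def cen {m : ℕ} {Lam : Type*} [DecidableEq Lam] (l : Fin m → Lam) (i : Fin m) :
    Fin m := (univ.filter fun j => l j = l i).min' ⟨i, by simp⟩

theorem cen_lab {m : ℕ} {Lam : Type*} [DecidableEq Lam] (l : Fin m → Lam) (i : Fin m) :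
    l (cen l i) = l i := by
  have := Finset.min'_mem (univ.filter fun j => l j = l i) ⟨i, by simp⟩
  exact (mem_filter.1 this).2

theorem cen_le {m : ℕ} {Lam : Type*} [DecidableEq Lam] (l : Fin m → Lam) {i j : Fin m}
    (h : l j = l i) : cen l i ≤ j :=
  Finset.min'_le _ _ (by simpa using h)

theorem cen_congr {m : ℕ} {Lam : Type*} [DecidableEq Lam] (l : Fin m → Lam) {i j : Fin m}
    (h : l i = l j) : cen l i = cen l j :=
  le_antisymm (cen_le l (by rw [cen_lab l j, h])) (cen_le l (by rw [cen_lab l i, h]))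

/-- labels of the level classes exist -/
theorem exists_lab (L : Loc K) {m : ℕ} (y : Fin m → K) :
    ∃ lab : ℕ → Fin m → Fin m, ∀ (r : ℕ) i j, lab r i = lab r j ↔ L.Ge (2 * r) (y i - y j) := by
  classical
  refine ⟨fun r i => (univ.filter fun j => L.Ge (2 * r) (y i - y j)).min'
    ⟨i, by simp [Loc.Ge.zero]⟩, fun r i j => ⟨fun h => ?_, fun h => ?_⟩⟩
  · have h1 := Finset.min'_mem (univ.filter fun k => L.Ge (2 * r) (y i - y k))
      ⟨i, by simp [Loc.Ge.zero]⟩
    have h2 := Finset.min'_mem (univ.filter fun k => L.Ge (2 * r) (y j - y k))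
      ⟨j, by simp [Loc.Ge.zero]⟩
    simp only at h
    rw [← h] at h2
    have := (mem_filter.1 h1).2.sub (mem_filter.1 h2).2
    rwa [sub_sub_sub_cancel_right] at this
  · simp only
    congr 1
    ext k
    simp only [mem_filter, mem_univ, true_and]
    constructor
    · intro hk
      have := hk.sub h
      rwa [sub_sub_sub_cancel_left] at this
    · intro hk
      have := h.add hk
      rwa [sub_add_sub_cancel] at this

end Pool.Agent.P.MP_7ede32_ag
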